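import Pool.Agent.H89.SG.Aut2

/-!
# FromMat: the action of a lattice of `U(2,1)`

`m g z = fl (ρ g) z`. `free`: if `m g z = z`, `g ≠ 1`, then all powers `g^n` fix `z`, so they are in
the finite set of `discrete` for `r = nsq z < 1`; two powers agree and `g` has finite order, a
contradiction to `TorFree G`.
-/

set_option autoImplicit false

namespace Pool.Agent.H89.SG

open Complex MeasureTheory
open scoped ContDiff ComplexConjugate

/-- a discrete cocompact group in `U(2,1)` -/
structure Latt {G : Type} [Group G] (ρ : G →* Matrix (Fin 3) (Fin 3) ℂ) : Prop where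
  unitary : ∀ g, UM (ρ g)
  discrete : ∀ r : ℝ, r < 1 → {g : G | ∃ z, nsq z ≤ r ∧ nsq (fl (ρ g) z) ≤ r}.Finite
  cocompact : ∃ r : ℝ, r < 1 ∧ ∀ z ∈ ball, ∃ g, nsq (fl (ρ g) z) ≤ r

theorem Latt.bact {G : Type} [Group G] {ρ : G →* Matrix (Fin 3) (Fin 3) ℂ} (h : Latt ρ)
    (htf : TorFree G) : BAct G (fun g z => fl (ρ g) z) where
  aut g := ⟨ρ g, h.unitary g, fun _ _ => rfl⟩
  one z _ := by
    show fl (ρ 1) z = z
    rw [map_one, fl_one]
  mul g k z hz := by
    show fl (ρ (g * k)) z = fl (ρ g) (fl (ρ k) z)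
    rw [map_mul, fl_mul (h.unitary g) (h.unitary k) hz]
  free g hg z hz hfix := by
    have hfix' : fl (ρ g) z = z := hfix
    have hpow : ∀ n : ℕ, fl (ρ (g ^ n)) z = z := by
      intro n
      induction n with
      | zero => rw [pow_zero, map_one, fl_one]
      | succ n ih =>
        rw [pow_succ, map_mul, fl_mul (h.unitary _) (h.unitary _) hz, hfix', ih]
    have hfin := h.discrete (nsq z) hz
    have hmem : ∀ n : ℕ, g ^ n ∈ {g : G | ∃ w, nsq w ≤ nsq z ∧ nsq (fl (ρ g) w) ≤ nsq z} :=
      fun n => ⟨z, le_rfl, by rw [hpow n]⟩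
    have hninj : ¬ Function.Injective (fun n : ℕ => g ^ n) := by
      intro hinj
      exact Set.infinite_of_injective_forall_mem hinj hmem hfin
    have key : ∀ a b : ℕ, a < b → g ^ a ≠ g ^ b := by
      intro a b hab heq
      refine htf g hg (b - a) (Nat.sub_pos_of_lt hab) ?_
      have h1 : g ^ b = g ^ (b - a) * g ^ a := by
        rw [← pow_add, Nat.sub_add_cancel hab.le]
      rw [h1] at heq
      exact (mul_eq_right.mp heq.symm)
    apply hninj
    intro a b heq
    rcases lt_trichotomy a b with hlt | heq' | hgt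
    · exact absurd heq (key a b hlt)
    · exact heq'
    · exact absurd heq.symm (key b a hgt)
  pd := h.discrete
  cc := h.cocompact

end Pool.Agent.H89.SG
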