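import Mathlib

/-!
# Definitions for `MP_b77ed1_al` (BallGap)

The unit ball `B` of `ℂ²`, automorphisms of `B` given by matrices of `U(2,1)`, properly
discontinuous cocompact actions on `B`, Wirtinger derivatives, lines (finite `G`-sets with an
integer cocycle and a Lipschitz height).
-/

set_option autoImplicit false

namespace Pool.Agent.H89.SG

open Complex MeasureTheory
open scoped ContDiff ComplexConjugate

/-- the plane `ℂ²` (sup norm; the Euclidean norm is `nsq`) -/
abbrev E : Type := ℂ × ℂ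

/-- the square of the Euclidean norm -/
noncomputable def nsq (z : E) : ℝ := normSq z.1 + normSq z.2

/-- the unit ball -/
def ball : Set E := {z | nsq z < 1}

/-- the Hermitian product -/
noncomputable def her (x z : E) : ℂ := x.1 * conj z.1 + x.2 * conj z.2

/-- the invariant distance (as a function with values in `[0, 1)`): `tanh²` of the distance -/
noncomputable def dl (x z : E) : ℝ := 1 - (1 - nsq x) * (1 - nsq z) / normSq (1 - her x z)

/-! ### Wirtinger derivatives -/

/-- the basis of `ℂ²` -/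
noncomputable def bs (j : Fin 2) : E := if j = 0 then (1, 0) else (0, 1)

/-- `∂ f / ∂ z_j` -/
noncomputable def dd (j : Fin 2) (f : E → ℂ) (z : E) : ℂ :=
  (fderiv ℝ f z (bs j) - I * fderiv ℝ f z (I • bs j)) / 2

/-- `∂ f / ∂ \bar z_j` -/
noncomputable def db (j : Fin 2) (f : E → ℂ) (z : E) : ℂ :=
  (fderiv ℝ f z (bs j) + I * fderiv ℝ f z (I • bs j)) / 2

/-- smooth on the ball -/
def Smo (f : E → ℂ) : Prop := ContDiffOn ℝ ∞ f ball

/-- holomorphic (and smooth) on the ball -/
def Hol (f : E → ℂ) : Prop := ContDiffOn ℝ ∞ f ball ∧ DifferentiableOn ℂ f ball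

/-- `∂ f ∧ ∂ g` -/
noncomputable def Jc (f g : E → ℂ) (z : E) : ℂ := dd 0 f z * dd 1 g z - dd 1 f z * dd 0 g z

/-- `\bar∂ f ∧ \bar∂ g` -/
noncomputable def Jb (f g : E → ℂ) (z : E) : ℂ := db 0 f z * db 1 g z - db 1 f z * db 0 g z

/-- complex Jacobian of a map -/
noncomputable def jac (φ : E → E) (z : E) : ℂ :=
  Jc (fun w => (φ w).1) (fun w => (φ w).2) z

/-! ### Automorphisms of the ball -/

/-- the form of signature `(2,1)` -/
def Jm : Matrix (Fin 3) (Fin 3) ℂ := Matrix.diagonal ![1, 1, -1]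

/-- `M` belongs to `U(2,1)` -/
def UM (M : Matrix (Fin 3) (Fin 3) ℂ) : Prop := M.conjTranspose * Jm * M = Jm

/-- the denominator of the fractional linear map -/
noncomputable def den (M : Matrix (Fin 3) (Fin 3) ℂ) (z : E) : ℂ :=
  M 2 0 * z.1 + M 2 1 * z.2 + M 2 2

/-- the fractional linear map of a matrix -/
noncomputable def fl (M : Matrix (Fin 3) (Fin 3) ℂ) (z : E) : E :=
  ((M 0 0 * z.1 + M 0 1 * z.2 + M 0 2) / den M z,
   (M 1 0 * z.1 + M 1 1 * z.2 + M 1 2) / den M z)

/-- `φ` agrees on the ball with the map of a matrix in `U(2,1)` -/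
def IsAut (φ : E → E) : Prop := ∃ M, UM M ∧ ∀ z ∈ ball, φ z = fl M z

/-- A free, properly discontinuous and cocompact action on the ball by automorphisms. -/
structure BAct (G : Type) [Group G] (m : G → E → E) : Prop where
  aut : ∀ g, IsAut (m g)
  one : ∀ z ∈ ball, m 1 z = z
  mul : ∀ g h, ∀ z ∈ ball, m (g * h) z = m g (m h z)
  free : ∀ g, g ≠ 1 → ∀ z ∈ ball, m g z ≠ z
  pd : ∀ r : ℝ, r < 1 → {g | ∃ z, nsq z ≤ r ∧ nsq (m g z) ≤ r}.Finite
  cc : ∃ r : ℝ, r < 1 ∧ ∀ z ∈ ball, ∃ g, nsq (m g z) ≤ r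

/-- the invariant measure of the ball -/
noncomputable def mu : Measure E :=
  (volume.restrict ball).withDensity fun z => ENNReal.ofReal (((1 - nsq z) ^ 3)⁻¹)

/-- A partition function for the action: `∑_g κ (g z) = 1`, `κ` is smooth, supported in
`{nsq ≤ ρ}` and positive on `{nsq ≤ r}`, whose translates cover the ball. -/
structure Part {G : Type} [Group G] (m : G → E → E) (r ρ : ℝ) (κ : E → ℝ) : Prop where
  r_nonneg : 0 ≤ r
  r_lt : r < ρ
  ρ_lt : ρ < 1
  smooth : ContDiff ℝ ∞ κ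
  nonneg : ∀ z, 0 ≤ κ z
  supp : ∀ z, κ z ≠ 0 → nsq z ≤ ρ
  pos : ∀ z, nsq z ≤ r → 0 < κ z
  sum : ∀ z ∈ ball, ∑ᶠ g : G, κ (m g z) = 1
  cover : ∀ z ∈ ball, ∃ g : G, nsq (m g z) ≤ r

/-! ### Lines -/

/-- A line: a finite transitive `G`-set `Q` with a cocycle `β : G × Q → ℤ` (so that `G` acts on
`Q × ℤ` by `g (q, n) = (g q, n + β g q)`) and a height `v (q, n) = v q + ℓ n` which changes by at
most one along the generators. -/
structure Line (G : Type) [Group G] (S : Finset G) where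
  Q : Type
  fin : Fintype Q
  act : MulAction G Q
  trans : ∀ p q : Q, ∃ g : G, g • p = q
  β : G → Q → ℤ
  coc : ∀ (g h : G) (q : Q), β (g * h) q = β g (h • q) + β h q
  ℓ : ℤ
  hℓ : 0 < ℓ
  v : Q → ℤ
  lip : ∀ s ∈ S, ∀ q : Q, |v (s • q) + ℓ * β s q - v q| ≤ 1

attribute [instance] Line.fin Line.act

namespace Line

variable {G : Type} [Group G] {S : Finset G}

/-- the number of points of `Q` is at most `D ℓ` -/
def Dens (L : Line G S) (D : ℕ) : Prop := (Fintype.card L.Q : ℤ) ≤ D * L.ℓ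

/-- `g` is detected by the line: some power of `g` is a nontrivial translation of an orbit -/
def Det (L : Line G S) (g : G) : Prop := ∃ (q : L.Q) (k : ℕ), (g ^ k) • q = q ∧ L.β (g ^ k) q ≠ 0

end Line

/-- two commuting nontrivial elements have a common nontrivial power -/
def CommPow (G : Type) [Group G] : Prop :=
  ∀ a b : G, a ≠ 1 → b ≠ 1 → a * b = b * a → ∃ k l : ℤ, k ≠ 0 ∧ l ≠ 0 ∧ a ^ k = b ^ l

/-- torsion-free -/
def TorFree (G : Type) [Group G] : Prop := ∀ g : G, g ≠ 1 → ∀ n : ℕ, 0 < n → g ^ n ≠ 1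

end Pool.Agent.H89.SG
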