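import Pool.Agent.H89.SG.Top

/-!
# Aut1: algebra of `U(2,1)` acting on the ball

Put `x̂ = ![x.1, x.2, 1]`. Then `ẑᴴ J x̂ = her x z - 1` and `M x̂ = den M x • (fl M x)^`
when `den M x ≠ 0`. Since `Mᴴ J M = J`, `(M ẑ)ᴴ J (M x̂) = her x z - 1`.
`den_ne`: if `den M z = 0` then the left-hand side for `x = z` is `|·|² + |·|² ≥ 0`, while
`nsq z - 1 < 0`. (It may be easiest to extract from `UM M` the nine scalar equations
`conj (M 0 i) * M 0 j + conj (M 1 i) * M 1 j - conj (M 2 i) * M 2 j = J i j` and to work with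
them by `linear_combination`.)
`exists_inv`: `N = J Mᴴ J`; `N M = J J = 1`, hence `M N = 1` (`mul_eq_one_comm`), and
`Nᴴ J N = J M J J J Mᴴ J = J (M J Mᴴ) J = J` where `M J Mᴴ = J` follows from `M N = 1`.
-/

set_option autoImplicit false

namespace Pool.Agent.H89.SG

open Complex MeasureTheory
open scoped ContDiff ComplexConjugate

variable {M N : Matrix (Fin 3) (Fin 3) ℂ}

theorem UM.a1scal (hM : UM M) (i j : Fin 3) :
    conj (M 0 i) * M 0 j + conj (M 1 i) * M 1 j - conj (M 2 i) * M 2 j = Jm i j := by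
  have h := congrFun (congrFun hM i) j
  simp [Matrix.mul_apply, Fin.sum_univ_three, Jm, Matrix.diagonal] at h
  have h2 : Jm i j = Matrix.diagonal ![1, 1, -1] i j := rfl
  rw [h2]
  simp only [Matrix.diagonal, Matrix.of_apply]
  rw [← h]
  ring

/-- the numerators -/
noncomputable def a1nu (M : Matrix (Fin 3) (Fin 3) ℂ) (i : Fin 3) (z : E) : ℂ :=
  M i 0 * z.1 + M i 1 * z.2 + M i 2

theorem den_eq_a1nu (z : E) : den M z = a1nu M 2 z := rfl

theorem fl_eq_a1nu (z : E) : fl M z = (a1nu M 0 z / a1nu M 2 z, a1nu M 1 z / a1nu M 2 z) := rfl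

theorem UM.a1key (hM : UM M) (x z : E) :
    a1nu M 0 x * conj (a1nu M 0 z) + a1nu M 1 x * conj (a1nu M 1 z) - a1nu M 2 x * conj (a1nu M 2 z)
      = her x z - 1 := by
  have h00 := hM.a1scal 0 0
  have h01 := hM.a1scal 0 1
  have h02 := hM.a1scal 0 2
  have h10 := hM.a1scal 1 0
  have h11 := hM.a1scal 1 1
  have h12 := hM.a1scal 1 2
  have h20 := hM.a1scal 2 0
  have h21 := hM.a1scal 2 1
  have h22 := hM.a1scal 2 2
  simp only [Jm, Matrix.diagonal, Matrix.of_apply] at h00 h01 h02 h10 h11 h12 h20 h21 h22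
  simp at h00 h01 h02 h10 h11 h12 h20 h21 h22
  unfold a1nu her
  simp only [map_add, map_mul]
  linear_combination (conj z.1 * x.1) * h00 + (conj z.1 * x.2) * h01 + (conj z.1) * h02 +
    (conj z.2 * x.1) * h10 + (conj z.2 * x.2) * h11 + (conj z.2) * h12 + x.1 * h20 + x.2 * h21 +
    h22

theorem a1Jm_mul : Jm * Jm = 1 := by
  ext i j
  fin_cases i <;> fin_cases j <;> simp [Jm, Matrix.mul_apply, Matrix.diagonal]

theorem a1Jm_ct : Jm.conjTranspose = Jm := by
  ext i j
  fin_cases i <;> fin_cases j <;> simp [Jm, Matrix.diagonal]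

theorem UM.one : UM 1 := by
  unfold UM
  simp

theorem UM.mul (hM : UM M) (hN : UM N) : UM (M * N) := by
  unfold UM at *
  rw [Matrix.conjTranspose_mul]
  calc N.conjTranspose * M.conjTranspose * Jm * (M * N)
      = N.conjTranspose * (M.conjTranspose * Jm * M) * N := by simp only [Matrix.mul_assoc]
    _ = Jm := by rw [hM, hN]

theorem UM.exists_inv (hM : UM M) : ∃ N, UM N ∧ N * M = 1 ∧ M * N = 1 := by
  have h1 : (Jm * M.conjTranspose * Jm) * M = 1 := by
    calc (Jm * M.conjTranspose * Jm) * M = Jm * (M.conjTranspose * Jm * M) := by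
          simp only [Matrix.mul_assoc]
      _ = 1 := by
          unfold UM at hM
          rw [hM, a1Jm_mul]
  have h2 : M * (Jm * M.conjTranspose * Jm) = 1 := mul_eq_one_comm.mp h1
  refine ⟨Jm * M.conjTranspose * Jm, ?_, h1, h2⟩
  have h3 : M * Jm * M.conjTranspose = Jm := by
    calc M * Jm * M.conjTranspose = M * Jm * M.conjTranspose * (Jm * Jm) := by
          rw [a1Jm_mul, Matrix.mul_one]
      _ = (M * (Jm * M.conjTranspose * Jm)) * Jm := by simp only [Matrix.mul_assoc]
      _ = Jm := by rw [h2, Matrix.one_mul]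
  unfold UM
  rw [Matrix.conjTranspose_mul, Matrix.conjTranspose_mul, Matrix.conjTranspose_conjTranspose,
    a1Jm_ct]
  calc Jm * (M * Jm) * Jm * (Jm * M.conjTranspose * Jm)
      = Jm * M * Jm * (Jm * Jm) * M.conjTranspose * Jm := by simp only [Matrix.mul_assoc]
    _ = Jm * (M * Jm * M.conjTranspose) * Jm := by
        rw [a1Jm_mul, Matrix.mul_one]
        simp only [Matrix.mul_assoc]
    _ = Jm := by
        rw [h3, a1Jm_mul, Matrix.one_mul]

theorem a1det_Jm : Jm.det = -1 := by
  unfold Jm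
  rw [Matrix.det_diagonal]
  simp [Fin.prod_univ_three]

theorem UM.normSq_det (hM : UM M) : normSq M.det = 1 := by
  have h := congrArg Matrix.det hM
  rw [Matrix.det_mul, Matrix.det_mul, Matrix.det_conjTranspose, a1det_Jm] at h
  have h2 : (normSq M.det : ℂ) = 1 := by
    rw [normSq_eq_conj_mul_self]
    have h3 : star M.det = conj M.det := rfl
    rw [h3] at h
    linear_combination -h
  exact_mod_cast h2

theorem UM.a1key_self (hM : UM M) (z : E) :
    normSq (a1nu M 0 z) + normSq (a1nu M 1 z) - normSq (a1nu M 2 z) = nsq z - 1 := by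
  have h := hM.a1key z z
  rw [mul_conj, mul_conj, mul_conj, her_self] at h
  exact_mod_cast h

theorem den_ne (hM : UM M) {z : E} (hz : z ∈ ball) : den M z ≠ 0 := by
  intro h0
  have h := hM.a1key_self z
  rw [den_eq_a1nu] at h0
  rw [h0, map_zero] at h
  have h1 : nsq z < 1 := hz
  have h2 := normSq_nonneg (a1nu M 0 z)
  have h3 := normSq_nonneg (a1nu M 1 z)
  linarith

theorem one_sub_her_fl (hM : UM M) {x z : E} (hx : x ∈ ball) (hz : z ∈ ball) :
    (1 - her (fl M x) (fl M z)) * (den M x * conj (den M z)) = 1 - her x z := by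
  have hdx := den_ne hM hx
  have hdz := den_ne hM hz
  have hdz' : conj (den M z) ≠ 0 := by
    intro h
    exact hdz ((map_eq_zero _).mp h)
  have h := hM.a1key x z
  rw [den_eq_a1nu] at hdx hdz hdz'
  rw [den_eq_a1nu, den_eq_a1nu, fl_eq_a1nu, fl_eq_a1nu]
  unfold her at h ⊢
  simp only [map_div₀]
  field_simp
  linear_combination -h

theorem one_sub_nsq_fl (hM : UM M) {z : E} (hz : z ∈ ball) :
    (1 - nsq (fl M z)) * normSq (den M z) = 1 - nsq z := by
  have h := one_sub_her_fl hM hz hz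
  rw [her_self, her_self, mul_conj] at h
  exact_mod_cast h

theorem fl_mem (hM : UM M) {z : E} (hz : z ∈ ball) : fl M z ∈ ball := by
  have h := one_sub_nsq_fl hM hz
  have h1 : nsq z < 1 := hz
  have h2 := normSq_nonneg (den M z)
  have h3 : 0 < (1 - nsq (fl M z)) * normSq (den M z) := by
    rw [h]
    linarith
  have h4 : 0 < 1 - nsq (fl M z) := pos_of_mul_pos_left h3 h2
  have h5 : nsq (fl M z) < 1 := by linarith
  exact h5

theorem den_one (z : E) : den 1 z = 1 := by
  simp [den]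

theorem fl_one (z : E) : fl 1 z = z := by
  simp [fl, den_one]

theorem a1nu_mul (hN : UM N) {z : E} (hz : z ∈ ball) (i : Fin 3) :
    a1nu (M * N) i z = a1nu M i (fl N z) * a1nu N 2 z := by
  have hd := den_ne hN hz
  rw [den_eq_a1nu] at hd
  rw [fl_eq_a1nu]
  have h1 : a1nu M i (a1nu N 0 z / a1nu N 2 z, a1nu N 1 z / a1nu N 2 z) * a1nu N 2 z
      = M i 0 * a1nu N 0 z + M i 1 * a1nu N 1 z + M i 2 * a1nu N 2 z := by
    simp only [a1nu.eq_def M]
    field_simp
  rw [h1]
  simp only [a1nu, Matrix.mul_apply, Fin.sum_univ_three]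
  ring

theorem den_mul (hN : UM N) {z : E} (hz : z ∈ ball) :
    den (M * N) z = den M (fl N z) * den N z := a1nu_mul hN hz 2

theorem fl_mul (hM : UM M) (hN : UM N) {z : E} (hz : z ∈ ball) :
    fl (M * N) z = fl M (fl N z) := by
  have hd := den_ne hN hz
  have hd2 := den_ne hM (fl_mem hN hz)
  rw [den_eq_a1nu] at hd hd2
  rw [fl_eq_a1nu (M := M * N), fl_eq_a1nu (M := M) (fl N z), a1nu_mul hN hz, a1nu_mul hN hz,
    a1nu_mul hN hz, mul_div_mul_right _ _ hd, mul_div_mul_right _ _ hd]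

end Pool.Agent.H89.SG
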