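import Pool.Agent.H89.SG.Aut1
import Pool.Agent.H89.SG.W1

/-!
# AutA: the API of automorphisms of the ball

`IsAut φ` gives `M`, `UM M`, `φ = fl M` on the ball. On the open ball `fl M` is a quotient of
affine functions with nonzero denominator, so it is smooth and holomorphic (transfer to `φ` by
congruence on the open ball). `exists_factor`: `c = den M`.
`dl`: from `one_sub_her_fl`, `one_sub_nsq_fl`:
`(1 - nsq φx) (1 - nsq φz) / normSq (1 - her φx φz) = (1 - nsq x) (1 - nsq z) / normSq (1 - her x z)`.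
`jac_sq`: `dd j` of a holomorphic function is its complex partial derivative; with `num_i` the
numerators, `∂_j (num_i / den) = (M i j den - num_i M 2 j) / den²`, and the determinant of this
`2 × 2` matrix is `det M / den³` (polynomial identity, `Matrix.det_fin_three`, `ring` after
`field_simp`). Hence `normSq (jac φ z) = normSq (den M z) ^ (-3)` and
`normSq (den M z) = (1 - nsq z) / (1 - nsq (φ z))`.
-/

set_option autoImplicit false

namespace Pool.Agent.H89.SG

open Complex MeasureTheory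
open scoped ContDiff ComplexConjugate

variable {φ ψ : E → E}

private theorem cd_den (M : Matrix (Fin 3) (Fin 3) ℂ) : ContDiff ℝ ∞ (den M) := by
  unfold den
  exact ((contDiff_const.mul contDiff_fst).add (contDiff_const.mul contDiff_snd)).add
    contDiff_const

private theorem df_den (M : Matrix (Fin 3) (Fin 3) ℂ) : Differentiable ℂ (den M) := by
  unfold den
  exact (((differentiable_const _).mul differentiable_fst).add
    ((differentiable_const _).mul differentiable_snd)).add (differentiable_const _)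

private theorem cd_fl {M : Matrix (Fin 3) (Fin 3) ℂ} (hM : UM M) :
    ContDiffOn ℝ ∞ (fl M) ball := by
  have hinv : ContDiffOn ℝ ∞ (fun z => (den M z)⁻¹) ball :=
    (cd_den M).contDiffOn.inv fun z hz => den_ne hM hz
  have h : ∀ i : Fin 3, ContDiffOn ℝ ∞
      (fun z : E => (M i 0 * z.1 + M i 1 * z.2 + M i 2) * (den M z)⁻¹) ball := fun i =>
    (((contDiff_const.mul contDiff_fst).add (contDiff_const.mul contDiff_snd)).add
      contDiff_const).contDiffOn.mul hinv
  exact (h 0).prodMk (h 1)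

private theorem df_fl {M : Matrix (Fin 3) (Fin 3) ℂ} (hM : UM M) :
    DifferentiableOn ℂ (fl M) ball := by
  have hinv : DifferentiableOn ℂ (fun z => (den M z)⁻¹) ball :=
    (df_den M).differentiableOn.inv fun z hz => den_ne hM hz
  have h : ∀ i : Fin 3, DifferentiableOn ℂ
      (fun z : E => (M i 0 * z.1 + M i 1 * z.2 + M i 2) * (den M z)⁻¹) ball := fun i =>
    ((((differentiable_const _).mul differentiable_fst).add
      ((differentiable_const _).mul differentiable_snd)).add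
        (differentiable_const _)).differentiableOn.mul hinv
  exact (h 0).prodMk (h 1)

theorem isAut_id : IsAut (fun z => z) := ⟨1, UM.one, fun z _ => (fl_one z).symm⟩

theorem IsAut.maps (h : IsAut φ) {z : E} (hz : z ∈ ball) : φ z ∈ ball := by
  obtain ⟨M, hM, h⟩ := h
  rw [h z hz]
  exact fl_mem hM hz

theorem IsAut.comp (hφ : IsAut φ) (hψ : IsAut ψ) : IsAut (fun z => φ (ψ z)) := by
  obtain ⟨M, hM, h⟩ := hφ
  obtain ⟨N, hN, h'⟩ := hψ
  refine ⟨M * N, hM.mul hN, fun z hz => ?_⟩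
  have h1 : fl N z ∈ ball := fl_mem hN hz
  change φ (ψ z) = _
  rw [h' z hz, h _ h1, fl_mul hM hN hz]

theorem IsAut.exists_inv (hφ : IsAut φ) : ∃ ψ, IsAut ψ ∧ (∀ z ∈ ball, ψ (φ z) = z) ∧
    ∀ z ∈ ball, φ (ψ z) = z := by
  obtain ⟨M, hM, h⟩ := hφ
  obtain ⟨N, hN, h1, h2⟩ := hM.exists_inv
  refine ⟨fl N, ⟨N, hN, fun _ _ => rfl⟩, fun z hz => ?_, fun z hz => ?_⟩
  · rw [h z hz, ← fl_mul hN hM hz, h1, fl_one]
  · rw [h _ (fl_mem hN hz), ← fl_mul hM hN hz, h2, fl_one]

theorem IsAut.injOn (hφ : IsAut φ) : Set.InjOn φ ball := by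
  obtain ⟨ψ, -, h1, -⟩ := hφ.exists_inv
  intro x hx y hy hxy
  rw [← h1 x hx, ← h1 y hy, hxy]

theorem IsAut.image_ball (hφ : IsAut φ) : φ '' ball = ball := by
  obtain ⟨ψ, hψ, -, h2⟩ := hφ.exists_inv
  refine Set.Subset.antisymm ?_ fun z hz => ⟨ψ z, hψ.maps hz, h2 z hz⟩
  rintro _ ⟨z, hz, rfl⟩
  exact hφ.maps hz

theorem IsAut.dl_eq (hφ : IsAut φ) {x z : E} (hx : x ∈ ball) (hz : z ∈ ball) :
    dl (φ x) (φ z) = dl x z := by
  obtain ⟨M, hM, h⟩ := hφ
  rw [h x hx, h z hz]
  unfold dl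
  have h1 := one_sub_nsq_fl hM hx
  have h2 := one_sub_nsq_fl hM hz
  have h3 := one_sub_her_fl hM hx hz
  have ha : normSq (den M x) ≠ 0 := fun h0 => den_ne hM hx (normSq_eq_zero.1 h0)
  have hb : normSq (den M z) ≠ 0 := fun h0 => den_ne hM hz (normSq_eq_zero.1 h0)
  have h4 : normSq (1 - her x z)
      = normSq (1 - her (fl M x) (fl M z)) * (normSq (den M x) * normSq (den M z)) := by
    rw [← h3, normSq_mul, normSq_mul, normSq_conj]
  rw [h4, ← h1, ← h2]
  congr 1
  rw [show (1 - nsq (fl M x)) * normSq (den M x) * ((1 - nsq (fl M z)) * normSq (den M z))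
    = (1 - nsq (fl M x)) * (1 - nsq (fl M z)) * (normSq (den M x) * normSq (den M z)) by ring,
    mul_div_mul_right _ _ (mul_ne_zero ha hb)]

theorem IsAut.smooth (hφ : IsAut φ) : ContDiffOn ℝ ∞ φ ball := by
  obtain ⟨M, hM, h⟩ := hφ
  exact (cd_fl hM).congr h

theorem IsAut.holo (hφ : IsAut φ) : DifferentiableOn ℂ φ ball := by
  obtain ⟨M, hM, h⟩ := hφ
  exact (df_fl hM).congr h

theorem IsAut.hol_fst (hφ : IsAut φ) : Hol (fun z => (φ z).1) :=
  ⟨contDiff_fst.comp_contDiffOn hφ.smooth, hφ.holo.fst⟩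

theorem IsAut.hol_snd (hφ : IsAut φ) : Hol (fun z => (φ z).2) :=
  ⟨contDiff_snd.comp_contDiffOn hφ.smooth, hφ.holo.snd⟩

theorem IsAut.exists_factor (hφ : IsAut φ) : ∃ c : E → ℂ, Hol c ∧ (∀ z ∈ ball, c z ≠ 0) ∧
    ∀ x ∈ ball, ∀ z ∈ ball, (1 - her (φ x) (φ z)) * (c x * conj (c z)) = 1 - her x z := by
  obtain ⟨M, hM, h⟩ := hφ
  refine ⟨den M, ⟨(cd_den M).contDiffOn, (df_den M).differentiableOn⟩, fun z hz => den_ne hM hz,
    fun x hx z hz => ?_⟩
  rw [h x hx, h z hz]
  exact one_sub_her_fl hM hx hz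

/-- the inverse map of a group element -/
theorem BAct.inv_left {G : Type} [Group G] {m : G → E → E} (hA : BAct G m) (g : G) {z : E}
    (hz : z ∈ ball) : m g⁻¹ (m g z) = z := by
  rw [← hA.mul g⁻¹ g z hz, inv_mul_cancel, hA.one z hz]

theorem BAct.inv_right {G : Type} [Group G] {m : G → E → E} (hA : BAct G m) (g : G) {z : E}
    (hz : z ∈ ball) : m g (m g⁻¹ z) = z := by
  rw [← hA.mul g g⁻¹ z hz, mul_inv_cancel, hA.one z hz]

theorem BAct.mem {G : Type} [Group G] {m : G → E → E} (hA : BAct G m) (g : G) {z : E}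
    (hz : z ∈ ball) : m g z ∈ ball := (hA.aut g).maps hz

end Pool.Agent.H89.SG
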