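import Pool.Agent.H89.SG.AutA

/-!
# AutJ: the Jacobian of an automorphism

`IsAut φ` gives `M`, `UM M`, `φ = fl M` on the ball. On the open ball `fl M` is a quotient of
affine functions with nonzero denominator, so it is smooth and holomorphic (transfer to `φ` by
congruence on the open ball). `exists_factor`: `c = den M`.
`dl`: from `one_sub_her_fl`, `one_sub_nsq_fl`:
`(1 - nsq φx) (1 - nsq φz) / normSq (1 - her φx φz) = (1 - nsq x) (1 - nsq z) / normSq (1 - her x z)`.
`jac_sq`: `dd j` of a holomorphic function is its complex partial derivative; with `num_i` the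
numerators, `∂_j (num_i / den) = (M i j den - num_i M 2 j) / den²`, and the determinant of this
`2 × 2` matrix is `det M / den³` (polynomial identity, `Matrix.det_fin_three`, `ring` after
`field_simp`). Hence `normSq (jac φ z) = normSq (den M z) ^ (-3)` and
`normSq (den M z) = (1 - nsq z) / (1 - nsq (φ z))`.
-/

set_option autoImplicit false

namespace Pool.Agent.H89.SG

open Complex MeasureTheory
open scoped ContDiff ComplexConjugate

variable {φ ψ : E → E}

private theorem dd_of_holo {f : E → ℂ} {f' : E →L[ℂ] ℂ} {z : E} (h : HasFDerivAt f f' z)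
    (j : Fin 2) : dd j f z = f' (bs j) := by
  have h1 : fderiv ℝ f z = f'.restrictScalars ℝ := (h.restrictScalars ℝ).fderiv
  rw [dd, h1]
  simp only [ContinuousLinearMap.coe_restrictScalars', map_smul, smul_eq_mul]
  have h2 : I * (I * f' (bs j)) = -f' (bs j) := by
    rw [← mul_assoc, I_mul_I]; ring
  rw [h2]; ring

/-- an affine function -/
private noncomputable def aff (a b c : ℂ) (w : E) : ℂ := a * w.1 + b * w.2 + c

private theorem hasFDerivAt_aff (a b c : ℂ) (z : E) :
    HasFDerivAt (aff a b c) (a • ContinuousLinearMap.fst ℂ ℂ ℂ +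
      b • ContinuousLinearMap.snd ℂ ℂ ℂ) z := by
  have h1 : HasFDerivAt (fun w : E => a * w.1) (a • ContinuousLinearMap.fst ℂ ℂ ℂ) z :=
    (ContinuousLinearMap.fst ℂ ℂ ℂ).hasFDerivAt.const_mul a
  have h2 : HasFDerivAt (fun w : E => b * w.2) (b • ContinuousLinearMap.snd ℂ ℂ ℂ) z :=
    (ContinuousLinearMap.snd ℂ ℂ ℂ).hasFDerivAt.const_mul b
  exact (h1.add h2).add_const c

private theorem diff_aff (a b c : ℂ) (z : E) : DifferentiableAt ℝ (aff a b c) z :=
  (hasFDerivAt_aff a b c z).differentiableAt.restrictScalars ℝ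

private theorem dd_aff (a b c : ℂ) (z : E) (j : Fin 2) :
    dd j (aff a b c) z = if j = 0 then a else b := by
  rw [dd_of_holo (hasFDerivAt_aff a b c z) j]
  fin_cases j
  · simp [bs]
  · simp [bs]

private theorem dd_quot {M : Matrix (Fin 3) (Fin 3) ℂ} (hM : UM M) {z : E} (hz : z ∈ ball)
    (a b c : ℂ) (j : Fin 2) :
    dd j (fun w => aff a b c w / den M w) z * den M z =
      (if j = 0 then a else b) - aff a b c z / den M z * (if j = 0 then M 2 0 else M 2 1) := by
  have hd : den M z ≠ 0 := den_ne hM hz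
  have hden : den M = aff (M 2 0) (M 2 1) (M 2 2) := rfl
  have h1 : (fun w => aff a b c w / den M w * den M w) =ᶠ[nhds z] aff a b c := by
    filter_upwards [isOpen_ball.mem_nhds hz] with w hw
    exact div_mul_cancel₀ _ (den_ne hM hw)
  have hdd : DifferentiableAt ℝ (den M) z := by rw [hden]; exact diff_aff _ _ _ _
  have hq : DifferentiableAt ℝ (fun w => aff a b c w / den M w) z :=
    by
      simp only [div_eq_mul_inv]
      exact (diff_aff a b c z).mul (hdd.inv hd)
  have h2 := dd_mul (j := j) hq hdd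
  have h3 : dd j (fun w => aff a b c w / den M w * den M w) z = dd j (aff a b c) z :=
    dd_congr h1
  rw [h3, dd_aff] at h2
  have h4 : dd j (den M) z = if j = 0 then M 2 0 else M 2 1 := by rw [hden, dd_aff]
  rw [h4] at h2
  linear_combination -h2

private theorem jac_fl {M : Matrix (Fin 3) (Fin 3) ℂ} (hM : UM M) {z : E} (hz : z ∈ ball)
    (hφ : ∀ w ∈ ball, φ w = fl M w) : jac φ z * den M z ^ 3 = M.det := by
  have hd : den M z ≠ 0 := den_ne hM hz
  have hev : ∀ᶠ w in nhds z, φ w = fl M w := by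
    filter_upwards [isOpen_ball.mem_nhds hz] with w hw using hφ w hw
  have e1 : (fun w => (φ w).1) =ᶠ[nhds z] fun w => aff (M 0 0) (M 0 1) (M 0 2) w / den M w := by
    filter_upwards [hev] with w hw
    rw [hw]; rfl
  have e2 : (fun w => (φ w).2) =ᶠ[nhds z] fun w => aff (M 1 0) (M 1 1) (M 1 2) w / den M w := by
    filter_upwards [hev] with w hw
    rw [hw]; rfl
  have a0 := dd_quot hM hz (M 0 0) (M 0 1) (M 0 2) 0
  have a1 := dd_quot hM hz (M 0 0) (M 0 1) (M 0 2) 1
  have b0 := dd_quot hM hz (M 1 0) (M 1 1) (M 1 2) 0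
  have b1 := dd_quot hM hz (M 1 0) (M 1 1) (M 1 2) 1
  rw [← dd_congr e1] at a0 a1
  rw [← dd_congr e2] at b0 b1
  simp only [if_true, one_ne_zero, if_false] at a0 a1 b0 b1
  have hjac : jac φ z = dd 0 (fun w => (φ w).1) z * dd 1 (fun w => (φ w).2) z -
      dd 1 (fun w => (φ w).1) z * dd 0 (fun w => (φ w).2) z := rfl
  have h5 : jac φ z * den M z ^ 3 = den M z *
      ((dd 0 (fun w => (φ w).1) z * den M z) * (dd 1 (fun w => (φ w).2) z * den M z) -
      (dd 1 (fun w => (φ w).1) z * den M z) * (dd 0 (fun w => (φ w).2) z * den M z)) := by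
    rw [hjac]; ring
  rw [h5, a0, a1, b0, b1, Matrix.det_fin_three]
  field_simp
  simp only [aff, den]
  ring

theorem IsAut.jac_sq (hφ : IsAut φ) {z : E} (hz : z ∈ ball) :
    normSq (jac φ z) * (1 - nsq z) ^ 3 = (1 - nsq (φ z)) ^ 3 := by
  obtain ⟨M, hM, hfl⟩ := hφ
  have h1 := one_sub_nsq_fl hM hz
  have h2 := congrArg normSq (jac_fl hM hz hfl)
  rw [map_mul, map_pow, hM.normSq_det] at h2
  rw [hfl z hz, ← h1, mul_pow]
  linear_combination (1 - nsq (fl M z)) ^ 3 * h2

theorem IsAut.jac_ne (hφ : IsAut φ) {z : E} (hz : z ∈ ball) : jac φ z ≠ 0 := by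
  intro h
  have h1 := hφ.jac_sq hz
  rw [h, map_zero, zero_mul] at h1
  have h2 : nsq (φ z) < 1 := hφ.maps hz
  have h3 : 0 < (1 - nsq (φ z)) ^ 3 := by
    apply pow_pos; linarith
  exact absurd h1 h3.ne

end Pool.Agent.H89.SG
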