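import Pool.Agent.H89.SG.Aut2

/-!
# Swap: automorphisms which exchange two points

For `a` in the ball, `s = √(1 - nsq a)`, the involution exchanging `0` and `a` is given by the
block matrix `(1/s) [[-(s I + a aᴴ / (1 + s)), a], [-aᴴ, 1]]`:
entries `M i j = -(s δ_ij + a_i conj a_j / (1 + s)) / s`, `M i 2 = a_i / s`, `M 2 j = -conj a_j / s`,
`M 2 2 = 1 / s`. One checks `Mᴴ J M = J` using `s² = 1 - |a_1|² - |a_2|²` and `M * M = 1`.
`fl M 0 = a`, `fl M a = 0`.
`swap x z`: take `φ` exchanging `0` and `x` (`φ x = 0`), put `a = φ z`, `ψ` exchanging `0` and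
`a`, and `σ = φ ∘ ψ ∘ φ`.
-/

set_option autoImplicit false

namespace Pool.Agent.H89.SG

open Complex MeasureTheory
open scoped ContDiff ComplexConjugate

/-- the matrix, up to the factor `1 / s` -/
private noncomputable def M' (s c x x' y y' : ℂ) : Matrix (Fin 3) (Fin 3) ℂ :=
  !![-(s + c * x * x'), -(c * x * y'), x; -(c * y * x'), -(s + c * y * y'), y; -x', -y', 1]

private theorem M'_sq {s c x x' y y' : ℂ} (r1 : x * x' + y * y' = 1 - s ^ 2)
    (r2 : c * (1 + s) = 1) : M' s c x x' y y' * M' s c x x' y y' = (s ^ 2) • 1 := by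
  ext i j
  fin_cases i <;> fin_cases j <;>
    simp only [M', Matrix.mul_apply, Fin.sum_univ_three, Matrix.of_apply, Matrix.cons_val',
      Matrix.cons_val_zero, Matrix.cons_val_one, Matrix.cons_val, Matrix.smul_apply,
      Matrix.one_apply, smul_eq_mul, Fin.isValue, Fin.zero_eta, Fin.mk_one, Fin.reduceFinMk,
      if_true, if_false, Fin.reduceEq, mul_one, mul_zero]
  · linear_combination (c ^ 2 * (x * x')) * r1 + (x * x') * (c * (1 - s) + 1) * r2
  · linear_combination (c ^ 2 * (x * y')) * r1 + (x * y') * (c * (1 - s) + 1) * r2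
  · linear_combination (-(c * x)) * r1 - x * (1 - s) * r2
  · linear_combination (c ^ 2 * (y * x')) * r1 + (y * x') * (c * (1 - s) + 1) * r2
  · linear_combination (c ^ 2 * (y * y')) * r1 + (y * y') * (c * (1 - s) + 1) * r2
  · linear_combination (-(c * y)) * r1 - y * (1 - s) * r2
  · linear_combination (c * x') * r1 + x' * (1 - s) * r2
  · linear_combination (c * y') * r1 + y' * (1 - s) * r2
  · linear_combination -r1

theorem swap0 {a : E} (ha : a ∈ ball) : ∃ φ, IsAut φ ∧ φ 0 = a ∧ φ a = 0 ∧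
    ∀ z ∈ ball, φ (φ z) = z := by
  obtain ⟨x, y⟩ := a
  have ha' : normSq x + normSq y < 1 := ha
  obtain ⟨t, ht0, ht2⟩ : ∃ t : ℝ, 0 < t ∧ t ^ 2 = 1 - (normSq x + normSq y) :=
    ⟨√(1 - (normSq x + normSq y)), Real.sqrt_pos.2 (by linarith), Real.sq_sqrt (by linarith)⟩
  have hs0 : (t : ℂ) ≠ 0 := by exact_mod_cast ht0.ne'
  have hs1 : (1 + (t : ℂ)) ≠ 0 := by
    have : (1 + t : ℝ) ≠ 0 := by linarith
    exact_mod_cast this
  have r1 : x * conj x + y * conj y = 1 - (t : ℂ) ^ 2 := by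
    rw [mul_conj, mul_conj]
    have : ((normSq x + normSq y : ℝ) : ℂ) = ((1 - t ^ 2 : ℝ) : ℂ) := by
      rw [ht2]
      congr 1
      ring
    push_cast at this
    exact this
  obtain ⟨c, hc, hcr⟩ : ∃ c : ℂ, c = (1 + (t : ℂ))⁻¹ ∧ conj c = c := by
    refine ⟨_, rfl, ?_⟩
    rw [map_inv₀, map_add, map_one, conj_ofReal]
  have r2 : c * (1 + (t : ℂ)) = 1 := by
    rw [hc]
    exact inv_mul_cancel₀ hs1
  obtain ⟨M, hM⟩ : ∃ M : Matrix (Fin 3) (Fin 3) ℂ,
      M = ((t : ℂ)⁻¹) • M' t c x (conj x) y (conj y) := ⟨_, rfl⟩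
  have hMM : M * M = 1 := by
    rw [hM, Matrix.smul_mul, Matrix.mul_smul, smul_smul, M'_sq r1 r2, smul_smul]
    have : (t : ℂ)⁻¹ * (t : ℂ)⁻¹ * (t : ℂ) ^ 2 = 1 := by
      field_simp
    rw [this, one_smul]
  have hherm : M.conjTranspose * Jm = Jm * M := by
    rw [hM]
    ext i j
    fin_cases i <;> fin_cases j <;>
      simp [M', Jm, Matrix.mul_apply, Fin.sum_univ_three, Matrix.conjTranspose_apply, hcr,
        Matrix.diagonal_apply] <;> first | (left; ring) | ring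
  have hUM : UM M := by
    unfold UM
    rw [hherm, Matrix.mul_assoc, hMM, Matrix.mul_one]
  have e02 : M 0 2 = (t : ℂ)⁻¹ * x := by rw [hM]; simp [M']
  have e12 : M 1 2 = (t : ℂ)⁻¹ * y := by rw [hM]; simp [M']
  have e22 : M 2 2 = (t : ℂ)⁻¹ := by rw [hM]; simp [M']
  have e00 : M 0 0 = (t : ℂ)⁻¹ * (-(t + c * x * conj x)) := by rw [hM]; simp [M']
  have e01 : M 0 1 = (t : ℂ)⁻¹ * (-(c * x * conj y)) := by rw [hM]; simp [M']
  have e10 : M 1 0 = (t : ℂ)⁻¹ * (-(c * y * conj x)) := by rw [hM]; simp [M']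
  have e11 : M 1 1 = (t : ℂ)⁻¹ * (-(t + c * y * conj y)) := by rw [hM]; simp [M']
  refine ⟨fl M, ⟨M, hUM, fun z _ => rfl⟩, ?_, ?_, ?_⟩
  · unfold fl den
    have h0 : (0 : E).1 = 0 := rfl
    have h1 : (0 : E).2 = 0 := rfl
    rw [h0, h1, e02, e12, e22]
    simp only [mul_zero, zero_add]
    ext
    · simp only
      field_simp
    · simp only
      field_simp
  · unfold fl
    have n1 : M 0 0 * x + M 0 1 * y + M 0 2 = 0 := by
      rw [e00, e01, e02]
      linear_combination (t : ℂ)⁻¹ * ((-(c * x)) * r1 - x * (1 - t) * r2)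
    have n2 : M 1 0 * x + M 1 1 * y + M 1 2 = 0 := by
      rw [e10, e11, e12]
      linear_combination (t : ℂ)⁻¹ * ((-(c * y)) * r1 - y * (1 - t) * r2)
    simp only [n1, n2, zero_div]
    rfl
  · intro z hz
    rw [← fl_mul hUM hUM hz, hMM, fl_one]

theorem swap {x z : E} (hx : x ∈ ball) (hz : z ∈ ball) : ∃ σ, IsAut σ ∧ σ x = z ∧ σ z = x ∧
    ∀ w ∈ ball, σ (σ w) = w := by
  obtain ⟨φ, ⟨M, hM, hφM⟩, hφ0, hφx, hφφ⟩ := swap0 hx
  have hmem : ∀ w ∈ ball, φ w ∈ ball := fun w hw => by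
    rw [hφM w hw]
    exact fl_mem hM hw
  obtain ⟨ψ, ⟨N, hN, hψN⟩, hψ0, hψa, hψψ⟩ := swap0 (hmem z hz)
  have hmem' : ∀ w ∈ ball, ψ w ∈ ball := fun w hw => by
    rw [hψN w hw]
    exact fl_mem hN hw
  refine ⟨fun w => φ (ψ (φ w)), ⟨M * (N * M), hM.mul (hN.mul hM), ?_⟩, ?_, ?_, ?_⟩
  · intro w hw
    have h1 := hmem w hw
    have h2 := hmem' _ h1
    rw [fl_mul hM (hN.mul hM) hw, fl_mul hN hM hw, ← hφM w hw, ← hψN _ h1, ← hφM _ h2]
  · simp only
    rw [hφx, hψ0, hφφ z hz]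
  · simp only
    rw [hψa, hφ0]
  · intro w hw
    simp only
    have h1 := hmem w hw
    have h2 := hmem' _ h1
    rw [hφφ _ h2, hψψ _ h1, hφφ w hw]

end Pool.Agent.H89.SG
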