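import Pool.Agent.H89.SG.AvS
import Pool.Agent.H89.SG.Swap

/-!
# AvC: averaging operators commute

`Av k (Av k' f) x = ∫ k (dl x y) ∫ k' (dl y z) f z dμ(z) dμ(y) = ∫ K(x, z) f z dμ(z)` with
`K(x, z) = ∫ k (dl x y) k' (dl y z) dμ(y)` (Fubini: the double integrand has compact support in
`ball × ball`, with `x` fixed, and is continuous there; `mu` is σ-finite).
Let `σ` exchange `x` and `z` (`swap`). Substituting `y ↦ σ y` (`integral_mu_comp`):
`K(x, z) = ∫ k (dl x (σ y)) k' (dl (σ y) z) dμ(y) = ∫ k (dl (σ x) y) k' (dl y (σ z)) dμ(y)`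
(`dl x (σ y) = dl (σ x) (σ (σ y)) = dl z y`) `= ∫ k' (dl x y) k (dl y z) dμ(y)`, which is the kernel
of `Av k' ∘ Av k`.
-/

set_option autoImplicit false

namespace Pool.Agent.H89.SG

open Complex MeasureTheory
open scoped ContDiff ComplexConjugate

private instance : SFinite mu := by
  unfold mu
  infer_instance

private lemma avC_dl_left {x : E} (hx : x ∈ ball) : ContinuousOn (fun z : E => dl x z) ball := by
  have hdl : ContinuousOn (fun p : E × E => dl p.1 p.2) (ball ×ˢ ball) :=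
    contDiffOn_dl.continuousOn
  have hm : ContinuousOn (fun z : E => (Prod.mk x z : E × E)) ball :=
    (Continuous.prodMk_right x).continuousOn
  have hmaps : Set.MapsTo (fun z : E => (Prod.mk x z : E × E)) ball (ball ×ˢ ball) :=
    fun z hz => Set.mk_mem_prod hx hz
  exact ContinuousOn.comp (g := fun p : E × E => dl p.1 p.2)
    (f := fun z : E => (Prod.mk x z : E × E)) hdl hm hmaps

private lemma avC_integrable {k k' : ℝ → ℝ} {r₁ r₁' : ℝ} (hk : Ker k r₁) (hk' : Ker k' r₁')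
    {f : E → ℝ} (hf : ContinuousOn f ball) {x : E} (hx : x ∈ ball) :
    Integrable (fun p : E × E => k (dl x p.1) * (k' (dl p.1 p.2) * f p.2)) (mu.prod mu) := by
  have hx1 : nsq x < 1 := hx
  obtain ⟨ρ₁, -, h11, hfar1⟩ := dl_far hx1 hk.lt_one
  obtain ⟨ρ₂, -, h21, hfar2⟩ := dl_far h11 hk'.lt_one
  set K₁ : Set E := {z | nsq z ≤ ρ₁} with hK1
  set K₂ : Set E := {z | nsq z ≤ ρ₂} with hK2
  have hB1 : K₁ ⊆ ball := nsq_le_subset_ball h11
  have hB2 : K₂ ⊆ ball := nsq_le_subset_ball h21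
  have hc1 : IsCompact K₁ := isCompact_nsq_le ρ₁
  have hc2 : IsCompact K₂ := isCompact_nsq_le ρ₂
  have hcK : IsCompact (K₁ ×ˢ K₂) := hc1.prod hc2
  have hdl : ContinuousOn (fun p : E × E => dl p.1 p.2) (ball ×ˢ ball) :=
    contDiffOn_dl.continuousOn
  have hcont : ContinuousOn (fun p : E × E => k (dl x p.1) * (k' (dl p.1 p.2) * f p.2))
      (K₁ ×ˢ K₂) := by
    have e1 : ContinuousOn (fun p : E × E => dl x p.1) (K₁ ×ˢ K₂) :=
      (avC_dl_left hx).comp continuous_fst.continuousOn fun p hp => hB1 hp.1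
    have e2 : ContinuousOn (fun p : E × E => dl p.1 p.2) (K₁ ×ˢ K₂) :=
      hdl.mono fun p hp => ⟨hB1 hp.1, hB2 hp.2⟩
    have e3 : ContinuousOn (fun p : E × E => f p.2) (K₁ ×ˢ K₂) :=
      hf.comp continuous_snd.continuousOn fun p hp => hB2 hp.2
    exact (hk.smooth.continuous.comp_continuousOn e1).mul
      ((hk'.smooth.continuous.comp_continuousOn e2).mul e3)
  have hon : IntegrableOn (fun p : E × E => k (dl x p.1) * (k' (dl p.1 p.2) * f p.2))
      (K₁ ×ˢ K₂) (mu.prod mu) := by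
    obtain ⟨C, hC⟩ := hcK.exists_bound_of_continuousOn hcont
    have hfin : IsFiniteMeasure ((mu.prod mu).restrict (K₁ ×ˢ K₂)) := by
      refine ⟨?_⟩
      rw [Measure.restrict_apply_univ, Measure.prod_prod]
      exact ENNReal.mul_lt_top (mu_nsq_le_lt_top h11) (mu_nsq_le_lt_top h21)
    exact Integrable.of_bound (hcont.aestronglyMeasurable hcK.measurableSet) C
      ((ae_restrict_iff' hcK.measurableSet).mpr (Filter.Eventually.of_forall hC))
  refine hon.integrable_of_ae_notMem_eq_zero ?_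
  have a1 : ∀ᵐ p ∂(mu.prod mu), p.1 ∈ ball :=
    (Measure.quasiMeasurePreserving_fst (μ := mu) (ν := mu)).ae ae_mu
  have a2 : ∀ᵐ p ∂(mu.prod mu), p.2 ∈ ball :=
    (Measure.quasiMeasurePreserving_snd (μ := mu) (ν := mu)).ae ae_mu
  filter_upwards [a1, a2] with p hp1 hp2 hpK
  by_contra hne
  have n1 : k (dl x p.1) ≠ 0 := left_ne_zero_of_mul hne
  have n2 : k' (dl p.1 p.2) ≠ 0 := left_ne_zero_of_mul (right_ne_zero_of_mul hne)
  have m1 : p.1 ∈ K₁ := by
    refine hfar1 x p.1 le_rfl hp1 ?_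
    by_contra hlt
    exact n1 (hk.supp _ (not_le.mp hlt).le)
  have m2 : p.2 ∈ K₂ := by
    refine hfar2 p.1 p.2 m1 hp2 ?_
    by_contra hlt
    exact n2 (hk'.supp _ (not_le.mp hlt).le)
  exact hpK ⟨m1, m2⟩

private lemma avC_fub {k k' : ℝ → ℝ} {r₁ r₁' : ℝ} (hk : Ker k r₁) (hk' : Ker k' r₁')
    {f : E → ℝ} (hf : ContinuousOn f ball) {x : E} (hx : x ∈ ball) :
    Av k (Av k' f) x = ∫ z, (∫ y, k (dl x y) * k' (dl y z) ∂mu) * f z ∂mu := by
  have h1 : Av k (Av k' f) x =
      ∫ y, ∫ z, k (dl x y) * (k' (dl y z) * f z) ∂mu ∂mu := by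
    unfold Av
    refine integral_congr_ae (Filter.Eventually.of_forall fun y => ?_)
    simp only [integral_const_mul]
  rw [h1, integral_integral_swap (avC_integrable hk hk' hf hx)]
  refine integral_congr_ae (Filter.Eventually.of_forall fun z => ?_)
  simp only [← integral_mul_const]
  refine integral_congr_ae (Filter.Eventually.of_forall fun y => ?_)
  simp only
  ring

private lemma avC_symm {k k' : ℝ → ℝ} {x z : E} (hx : x ∈ ball) (hz : z ∈ ball) :
    ∫ y, k (dl x y) * k' (dl y z) ∂mu = ∫ y, k' (dl x y) * k (dl y z) ∂mu := by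
  obtain ⟨σ, hσ, h1, h2, -⟩ := swap hx hz
  rw [← integral_mu_comp hσ (fun y => k (dl x y) * k' (dl y z))]
  refine integral_mu_congr fun y hy => ?_
  have e1 : dl x (σ y) = dl y z := by
    have := hσ.dl_eq hz hy
    rw [h2] at this
    rw [this, dl_symm]
  have e2 : dl (σ y) z = dl x y := by
    have := hσ.dl_eq hy hx
    rw [h1] at this
    rw [this, dl_symm]
  simp only [e1, e2]
  ring

theorem Av_comm {k k' : ℝ → ℝ} {r₁ r₁' : ℝ} (hk : Ker k r₁) (hk' : Ker k' r₁') {f : E → ℝ}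
    (hf : ContinuousOn f ball) {x : E} (hx : x ∈ ball) :
    Av k (Av k' f) x = Av k' (Av k f) x := by
  rw [avC_fub hk hk' hf hx, avC_fub hk' hk hf hx]
  refine integral_mu_congr fun z hz => ?_
  rw [avC_symm hx hz]

end Pool.Agent.H89.SG
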