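import Pool.Agent.H89.SG.Top

/-!
# MuB: integrability on the ball

Functions which are continuous on the ball and vanish on the ball outside `{nsq ≤ r}`, `r < 1`,
are integrable for `volume.restrict ball` and for `mu`: they are bounded with support (in the
ball) in a compact set of finite measure; on `{nsq ≤ r}` the density is at most `((1 - r)^3)⁻¹`.
`mu` is carried by the ball: `ae_mu`.
`mu_pos`: a nonempty open subset of the ball has positive volume and the density is positive.
-/

set_option autoImplicit false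

namespace Pool.Agent.H89.SG

open Complex MeasureTheory
open scoped ContDiff ComplexConjugate ENNReal

variable {F : Type} [NormedAddCommGroup F] [NormedSpace ℝ F]

private lemma mub_bdd {f : E → F} (hf : ContinuousOn f ball) {r : ℝ} (hr : r < 1)
    (hs : ∀ z ∈ ball, f z ≠ 0 → nsq z ≤ r) : ∃ C : ℝ, 0 ≤ C ∧ ∀ z ∈ ball, ‖f z‖ ≤ C := by
  obtain ⟨C, hC⟩ := (isCompact_nsq_le r).exists_bound_of_continuousOn
    (hf.mono (nsq_le_subset_ball hr))
  refine ⟨max C 0, le_max_right _ _, fun z hz => ?_⟩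
  by_cases h : f z = 0
  · rw [h, norm_zero]
    exact le_max_right _ _
  · exact (hC z (hs z hz h)).trans (le_max_left _ _)

private lemma mub_vol_ball : (volume : Measure E) ball < ⊤ := by
  have h : ball ⊆ {z : E | nsq z ≤ 1} := fun z hz => le_of_lt (show nsq z < 1 from hz)
  exact lt_of_le_of_lt (measure_mono h) (isCompact_nsq_le 1).measure_lt_top

theorem integrableOn_of_supp {f : E → F} (hf : ContinuousOn f ball) {r : ℝ} (hr : r < 1)
    (hs : ∀ z ∈ ball, f z ≠ 0 → nsq z ≤ r) : IntegrableOn f ball := by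
  obtain ⟨C, _, hC⟩ := mub_bdd hf hr hs
  refine IntegrableOn.of_bound mub_vol_ball ?_ C ?_
  · exact hf.aestronglyMeasurable measurableSet_ball
  · exact (ae_restrict_iff' measurableSet_ball).2 (Filter.Eventually.of_forall hC)

private lemma mub_dens_meas : Measurable fun z : E => ENNReal.ofReal (((1 - nsq z) ^ 3)⁻¹) :=
  ENNReal.measurable_ofReal.comp (((measurable_const.sub continuous_nsq.measurable).pow_const 3).inv)

theorem integrable_mu_of_supp {f : E → F} (hf : ContinuousOn f ball) {r : ℝ} (hr : r < 1)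
    (hs : ∀ z ∈ ball, f z ≠ 0 → nsq z ≤ r) : Integrable f mu := by
  unfold mu
  rw [integrable_withDensity_iff_integrable_smul₀' mub_dens_meas.aemeasurable
    (Filter.Eventually.of_forall fun z => ENNReal.ofReal_lt_top)]
  have hc : ContinuousOn (fun z : E => (((1 - nsq z) ^ 3)⁻¹ : ℝ) • f z) ball := by
    refine ContinuousOn.smul ?_ hf
    refine ContinuousOn.inv₀ (((continuous_const.sub continuous_nsq).pow 3).continuousOn) ?_
    intro z hz
    have : nsq z < 1 := hz
    have h1 : 0 < 1 - nsq z := by linarith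
    positivity
  have h2 := integrableOn_of_supp hc hr (fun z hz h => hs z hz (fun h0 => h (by
    show (((1 - nsq z) ^ 3)⁻¹ : ℝ) • f z = 0
    rw [h0, smul_zero])))
  refine h2.congr ?_
  refine (ae_restrict_iff' measurableSet_ball).2 (Filter.Eventually.of_forall fun z hz => ?_)
  have : nsq z < 1 := hz
  have h1 : 0 < 1 - nsq z := by linarith
  show (((1 - nsq z) ^ 3)⁻¹ : ℝ) • f z = (ENNReal.ofReal (((1 - nsq z) ^ 3)⁻¹)).toReal • f z
  rw [ENNReal.toReal_ofReal (by positivity)]

private lemma mub_ac : mu ≪ (volume : Measure E).restrict ball :=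
  withDensity_absolutelyContinuous _ _

theorem ae_mu : ∀ᵐ z ∂mu, z ∈ ball :=
  mub_ac.ae_le (ae_restrict_mem measurableSet_ball)

theorem mu_nsq_le_lt_top {r : ℝ} (hr : r < 1) : mu {z : E | nsq z ≤ r} < ⊤ := by
  have hm : MeasurableSet {z : E | nsq z ≤ r} :=
    (isCompact_nsq_le r).isClosed.measurableSet
  unfold mu
  rw [withDensity_apply _ hm, Measure.restrict_restrict hm]
  have hsub : {z : E | nsq z ≤ r} ∩ ball ⊆ {z : E | nsq z ≤ r} := Set.inter_subset_left
  have hmB : MeasurableSet ({z : E | nsq z ≤ r} ∩ ball) := hm.inter measurableSet_ball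
  calc ∫⁻ z in {z : E | nsq z ≤ r} ∩ ball, ENNReal.ofReal (((1 - nsq z) ^ 3)⁻¹)
      ≤ ∫⁻ _ in {z : E | nsq z ≤ r} ∩ ball, ENNReal.ofReal (((1 - r) ^ 3)⁻¹) := by
        refine setLIntegral_mono' hmB fun z hz => ?_
        refine ENNReal.ofReal_le_ofReal ?_
        have h1 : 0 < 1 - r := by linarith
        have h2 : nsq z ≤ r := hz.1
        have h3 : 1 - r ≤ 1 - nsq z := by linarith
        exact inv_anti₀ (by positivity) (pow_le_pow_left₀ h1.le h3 3)
    _ = ENNReal.ofReal (((1 - r) ^ 3)⁻¹) * volume ({z : E | nsq z ≤ r} ∩ ball) := by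
        rw [setLIntegral_const]
    _ < ⊤ := by
        refine ENNReal.mul_lt_top ENNReal.ofReal_lt_top ?_
        exact lt_of_le_of_lt (measure_mono hsub) (isCompact_nsq_le r).measure_lt_top

private lemma mub_null {U : Set E} (hU : IsOpen U) (hUB : U ⊆ ball) (h : mu U = 0) :
    (volume : Measure E) U = 0 := by
  unfold mu at h
  rw [withDensity_apply _ hU.measurableSet, Measure.restrict_restrict hU.measurableSet,
    Set.inter_eq_left.2 hUB] at h
  by_contra hne
  have hpos : 0 < (volume : Measure E) U := pos_iff_ne_zero.2 hne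
  have h2 : ∫⁻ z in U, ENNReal.ofReal (((1 - nsq z) ^ 3)⁻¹) ≠ 0 := by
    refine ((setLIntegral_pos_iff mub_dens_meas).2 ?_).ne'
    have h3 : U ⊆ Function.support (fun z : E => ENNReal.ofReal (((1 - nsq z) ^ 3)⁻¹)) ∩ U := by
      intro z hz
      refine ⟨?_, hz⟩
      have : nsq z < 1 := hUB hz
      have h1 : 0 < 1 - nsq z := by linarith
      have h4 : 0 < ENNReal.ofReal (((1 - nsq z) ^ 3)⁻¹) := ENNReal.ofReal_pos.2 (by positivity)
      exact h4.ne'
    exact lt_of_lt_of_le hpos (measure_mono h3)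
  exact h2 h

theorem mu_pos {U : Set E} (hU : IsOpen U) (hUB : U ⊆ ball) (hne : U.Nonempty) : 0 < mu U := by
  refine pos_iff_ne_zero.2 fun h => ?_
  exact (hU.measure_pos volume hne).ne' (mub_null hU hUB h)

theorem integral_mu_congr {f g : E → F} (h : ∀ z ∈ ball, f z = g z) :
    ∫ z, f z ∂mu = ∫ z, g z ∂mu :=
  integral_congr_ae (ae_mu.mono h)

/-- a nonnegative continuous function on the ball with zero integral vanishes -/
theorem eq_zero_of_integral_zero {f : E → ℝ} (hf : ContinuousOn f ball)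
    (h0 : ∀ z ∈ ball, 0 ≤ f z) (hi : Integrable f mu) (h : ∫ z, f z ∂mu = 0) :
    ∀ z ∈ ball, f z = 0 := by
  have h1 : f =ᵐ[mu] 0 := (integral_eq_zero_iff_of_nonneg_ae (ae_mu.mono h0) hi).1 h
  intro z hz
  by_contra hne
  have hU : IsOpen (ball ∩ f ⁻¹' {0}ᶜ) :=
    hf.isOpen_inter_preimage isOpen_ball isOpen_compl_singleton
  have h2 := mu_pos hU Set.inter_subset_left ⟨z, hz, hne⟩
  have h3 : mu (ball ∩ f ⁻¹' {0}ᶜ) ≤ mu {z | ¬ f z = (0 : E → ℝ) z} := by
    refine measure_mono ?_
    rintro x ⟨_, hx⟩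
    exact hx
  exact absurd (lt_of_lt_of_le h2 h3) (by rw [ae_iff.1 h1]; exact lt_irrefl _)

theorem eq_zero_of_setIntegral_zero {f : E → ℝ} (hf : ContinuousOn f ball)
    (h0 : ∀ z ∈ ball, 0 ≤ f z) (hi : IntegrableOn f ball) (h : ∫ z in ball, f z = 0) :
    ∀ z ∈ ball, f z = 0 := by
  have h1 : f =ᵐ[volume.restrict ball] 0 :=
    (setIntegral_eq_zero_iff_of_nonneg_ae
      ((ae_restrict_iff' measurableSet_ball).2 (Filter.Eventually.of_forall h0)) hi).1 h
  intro z hz
  by_contra hne
  have hU : IsOpen (ball ∩ f ⁻¹' {0}ᶜ) :=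
    hf.isOpen_inter_preimage isOpen_ball isOpen_compl_singleton
  have h2 : 0 < (volume : Measure E) (ball ∩ f ⁻¹' {0}ᶜ) := hU.measure_pos volume ⟨z, hz, hne⟩
  have h3 : (volume : Measure E) (ball ∩ f ⁻¹' {0}ᶜ)
      ≤ volume.restrict ball {z | ¬ f z = (0 : E → ℝ) z} := by
    rw [Measure.restrict_apply' measurableSet_ball]
    refine measure_mono ?_
    rintro x ⟨hx1, hx⟩
    exact ⟨hx, hx1⟩
  exact absurd (lt_of_lt_of_le h2 h3) (by rw [ae_iff.1 h1]; exact lt_irrefl _)

end Pool.Agent.H89.SG
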