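import Pool.Agent.H89.SG.Chg
import Pool.Agent.H89.SG.MuB
import Pool.Agent.H89.SG.Swap

/-!
# AvD: averaging operators

`Av k f x = ∫ k (dl x z) f z dμ(z)`. For `x` in the ball the integrand vanishes unless
`dl x z ≤ r₁`, that is unless `nsq z ≤ ρ'` (`dl_far`); `z ↦ dl x z` is continuous on the ball, so
the integrand is integrable (`integrable_mu_of_supp`).
* `Av_const`: for `x` in the ball take `φ` with `φ 0 = x` (`swap0`... only `IsAut`):
  `∫ k (dl x z) dμ(z) = ∫ k (dl (φ 0) (φ z)) dμ(z) = ∫ k (dl 0 z) dμ = 1` by `integral_mu_comp`.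
* `Av_aut`: `∫ k (dl x z) f (φ z) dμ(z) = ∫ k (dl (φ x) (φ z)) f (φ z) dμ(z) = Av k f (φ x)`.
* `exists_ker`: `k = c b` with `b ≥ 0` smooth, `b > 0` on `(-∞, r]`, `b = 0` on `[r₁, ∞)`,
  `r < r₁ < 1` and `c` the normalization (the integral is positive by `mu_pos` and finite).
* `Av_mono`, `Av_le`: monotonicity of the integral and `Av_const`.
-/

set_option autoImplicit false

namespace Pool.Agent.H89.SG

open Complex MeasureTheory
open scoped ContDiff ComplexConjugate

/-- a radial kernel: smooth, nonnegative, zero on `[r₁, ∞)`, `r₁ < 1`, of total mass `1` -/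
structure Ker (k : ℝ → ℝ) (r₁ : ℝ) : Prop where
  smooth : ContDiff ℝ ∞ k
  nonneg : ∀ t, 0 ≤ k t
  lt_one : r₁ < 1
  supp : ∀ t, r₁ ≤ t → k t = 0
  norm : ∫ z, k (dl 0 z) ∂mu = 1

/-- the average -/
noncomputable def Av (k : ℝ → ℝ) (f : E → ℝ) (x : E) : ℝ := ∫ z, k (dl x z) * f z ∂mu

variable {k : ℝ → ℝ} {r₁ : ℝ} {f g : E → ℝ} {x : E} {φ : E → E}

private theorem avd_cont (hk : Continuous k) (hx : x ∈ ball) :
    ContinuousOn (fun z => k (dl x z)) ball := by
  have h0 : ContinuousOn (fun p : E × E => dl p.1 p.2) (ball ×ˢ ball) :=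
    contDiffOn_dl.continuousOn
  have h2 : ContinuousOn (fun z : E => ((x, z) : E × E)) ball :=
    (continuous_const.prodMk continuous_id).continuousOn
  have h3 : Set.MapsTo (fun z : E => ((x, z) : E × E)) ball (ball ×ˢ ball) :=
    fun z hz => Set.mk_mem_prod hx hz
  have h1 : ContinuousOn ((fun p : E × E => dl p.1 p.2) ∘ fun z : E => ((x, z) : E × E)) ball :=
    ContinuousOn.comp h0 h2 h3
  exact hk.comp_continuousOn h1

theorem Av_integrable (hk : Ker k r₁) (hf : ContinuousOn f ball) (hx : x ∈ ball) :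
    Integrable (fun z => k (dl x z) * f z) mu := by
  obtain ⟨ρ', -, h1, h2⟩ := dl_far (ρ := nsq x) (r := r₁) hx hk.lt_one
  refine integrable_mu_of_supp ((avd_cont hk.smooth.continuous hx).mul hf) h1
    (fun z hz hne => h2 x z le_rfl hz ?_)
  by_contra hcon
  refine hne ?_
  rw [hk.supp _ (not_le.1 hcon).le, zero_mul]

private theorem avd_ker {s : ℝ} (h0 : 0 < s) (h1 : s < 1) :
    ∃ k, Ker k s ∧ ∀ t < s, 0 < k t := by
  let b : ℝ → ℝ := fun t => Real.smoothTransition (s - t)
  have hb : ContDiff ℝ ∞ b := Real.smoothTransition.contDiff.comp (contDiff_const.sub contDiff_id)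
  have hb0 : ∀ t, 0 ≤ b t := fun t => Real.smoothTransition.nonneg _
  have hbs : ∀ t, s ≤ t → b t = 0 := fun t ht =>
    Real.smoothTransition.zero_of_nonpos (sub_nonpos.2 ht)
  have hbp : ∀ t, t < s → 0 < b t := fun t ht =>
    Real.smoothTransition.pos_of_pos (sub_pos.2 ht)
  have hc : ContinuousOn (fun z : E => b (dl 0 z)) ball := avd_cont hb.continuous zero_mem_ball
  have hi : Integrable (fun z : E => b (dl 0 z)) mu := by
    refine integrable_mu_of_supp hc h1 (fun z hz hne => ?_)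
    by_contra hcon
    refine hne (hbs _ ?_)
    rw [dl_zero_left]
    exact (not_le.1 hcon).le
  have hpos : 0 < ∫ z, b (dl 0 z) ∂mu := by
    refine lt_of_le_of_ne (integral_nonneg fun z => hb0 _) fun h => ?_
    have h2 := eq_zero_of_integral_zero hc (fun z _ => hb0 _) hi h.symm 0 zero_mem_ball
    have h3 := hbp (dl 0 0) (by rw [dl_zero_left, nsq_zero]; exact h0)
    exact h3.ne' h2
  refine ⟨fun t => (∫ z, b (dl 0 z) ∂mu)⁻¹ * b t, ⟨contDiff_const.mul hb,
    fun t => mul_nonneg (inv_nonneg.2 hpos.le) (hb0 t), h1, fun t ht => ?_, ?_⟩,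
    fun t ht => mul_pos (inv_pos.2 hpos) (hbp t ht)⟩
  · rw [hbs t ht, mul_zero]
  · rw [integral_const_mul, inv_mul_cancel₀ hpos.ne']

theorem exists_ker {r : ℝ} (hr : r < 1) : ∃ k r₁, Ker k r₁ ∧ r < r₁ ∧ ∀ t ≤ r, 0 < k t := by
  have h1 : max r 0 < 1 := max_lt hr one_pos
  have h2 : 0 < (max r 0 + 1) / 2 := by
    have := le_max_right r 0
    linarith
  have h3 : (max r 0 + 1) / 2 < 1 := by linarith
  have h4 : r < (max r 0 + 1) / 2 := by
    have := le_max_left r 0
    linarith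
  obtain ⟨k, hk, h5⟩ := avd_ker h2 h3
  exact ⟨k, _, hk, h4, fun t ht => h5 t (ht.trans_lt h4)⟩

/-- kernels with small support -/
theorem exists_ker_small {ε : ℝ} (hε : 0 < ε) (hε1 : ε < 1) : ∃ k, Ker k ε ∧ 0 < k 0 := by
  obtain ⟨k, hk, h5⟩ := avd_ker hε hε1
  exact ⟨k, hk, h5 0 hε⟩

theorem Av_const (hk : Ker k r₁) (hx : x ∈ ball) (c : ℝ) : Av k (fun _ => c) x = c := by
  unfold Av
  rw [integral_mul_const]
  obtain ⟨φ, hφ, h0, -, -⟩ := swap0 hx
  have h1 := integral_mu_comp hφ (fun z => k (dl x z))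
  have h2 : ∫ z, k (dl x (φ z)) ∂mu = ∫ z, k (dl 0 z) ∂mu := by
    refine integral_mu_congr fun z hz => ?_
    rw [← h0, hφ.dl_eq zero_mem_ball hz]
  rw [← h1, h2, hk.norm, one_mul]

theorem Av_aut (hφ : IsAut φ) (hx : x ∈ ball) :
    Av k (fun z => f (φ z)) x = Av k f (φ x) := by
  unfold Av
  rw [← integral_mu_comp hφ (fun z => k (dl (φ x) z) * f z)]
  refine integral_mu_congr fun z hz => ?_
  rw [hφ.dl_eq hx hz]

theorem Av_congr (h : ∀ z ∈ ball, f z = g z) : Av k f x = Av k g x := by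
  unfold Av
  refine integral_mu_congr fun z hz => ?_
  rw [h z hz]

theorem Av_add (hk : Ker k r₁) (hf : ContinuousOn f ball) (hg : ContinuousOn g ball)
    (hx : x ∈ ball) : Av k (fun z => f z + g z) x = Av k f x + Av k g x := by
  unfold Av
  rw [← integral_add (Av_integrable hk hf hx) (Av_integrable hk hg hx)]
  refine integral_congr_ae (Filter.Eventually.of_forall fun z => ?_)
  exact mul_add _ _ _

theorem Av_sub (hk : Ker k r₁) (hf : ContinuousOn f ball) (hg : ContinuousOn g ball)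
    (hx : x ∈ ball) : Av k (fun z => f z - g z) x = Av k f x - Av k g x := by
  unfold Av
  rw [← integral_sub (Av_integrable hk hf hx) (Av_integrable hk hg hx)]
  refine integral_congr_ae (Filter.Eventually.of_forall fun z => ?_)
  exact mul_sub _ _ _

theorem Av_mono (hk : Ker k r₁) (hf : ContinuousOn f ball) (hg : ContinuousOn g ball)
    (h : ∀ z ∈ ball, f z ≤ g z) (hx : x ∈ ball) : Av k f x ≤ Av k g x := by
  unfold Av
  refine integral_mono_ae (Av_integrable hk hf hx) (Av_integrable hk hg hx) ?_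
  filter_upwards [ae_mu] with z hz
  exact mul_le_mul_of_nonneg_left (h z hz) (hk.nonneg _)

theorem Av_bounds (hk : Ker k r₁) (hf : ContinuousOn f ball) {a b : ℝ}
    (h : ∀ z ∈ ball, a ≤ f z ∧ f z ≤ b) (hx : x ∈ ball) : a ≤ Av k f x ∧ Av k f x ≤ b := by
  constructor
  · have h1 := Av_mono hk (f := fun _ => a) continuousOn_const hf (fun z hz => (h z hz).1) hx
    rwa [Av_const hk hx] at h1
  · have h1 := Av_mono hk (g := fun _ => b) hf continuousOn_const (fun z hz => (h z hz).2) hx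
    rwa [Av_const hk hx] at h1

end Pool.Agent.H89.SG
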