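import Pool.Agent.H89.SG.Aut2

/-!
# PartX: existence of partition functions

Let `r₀ < 1` be given by `cc`, `r = max r₀ 0`, `r < ρ < 1`. Take a smooth `b : ℝ → ℝ`,
`b ≥ 0`, `b t > 0` for `t ≤ r`, `b t = 0` for `t ≥ ρ'` with `r < ρ' < ρ` (for example with
`Real.smoothTransition`), and `B z = b (nsq z)` (smooth). On the ball put
`Σ z = ∑ᶠ g, B (m g z)`: for `nsq z < R < 1` only the finitely many `g` of `pd (max R ρ)` contribute,
so `Σ` is smooth on the ball; it is positive by `cc` and invariant (`Σ (m h z) = Σ z`, reindex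
`g ↦ g h`). `κ z = B z / Σ z` on the ball and `0` outside: `κ` is smooth on the ball and vanishes
on the open set `{nsq > ρ'}`, the two open sets cover the plane.
`∑ᶠ g, κ (m g z) = ∑ᶠ g, B (m g z) / Σ z = 1`.

`Part.local_finite`: the set of `g` with `κ (m g z) ≠ 0` for some `z` with `nsq z ≤ R` is
contained in the finite set of `pd (max R ρ)`.
-/

set_option autoImplicit false

namespace Pool.Agent.H89.SG

open Complex MeasureTheory
open scoped ContDiff ComplexConjugate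

variable {G : Type} [Group G] {m : G → E → E}

/-! ### the cut-off function and its sum over the orbit -/

/-- the smooth cut-off -/
noncomputable def cutB (ρ' : ℝ) (z : E) : ℝ := Real.smoothTransition (ρ' - nsq z)

theorem cutB_nonneg (ρ' : ℝ) (z : E) : 0 ≤ cutB ρ' z := Real.smoothTransition.nonneg _

theorem cutB_pos {ρ' : ℝ} {z : E} (h : nsq z < ρ') : 0 < cutB ρ' z :=
  Real.smoothTransition.pos_of_pos (by linarith)

theorem cutB_eq_zero {ρ' : ℝ} {z : E} (h : ρ' ≤ nsq z) : cutB ρ' z = 0 :=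
  Real.smoothTransition.zero_of_nonpos (by linarith)

theorem cutB_ne {ρ' : ℝ} {z : E} (h : cutB ρ' z ≠ 0) : nsq z < ρ' := by
  by_contra h1
  exact h (cutB_eq_zero (not_lt.mp h1))

theorem cutB_contDiff (ρ' : ℝ) : ContDiff ℝ ∞ (cutB ρ') :=
  Real.smoothTransition.contDiff.comp (contDiff_const.sub contDiff_nsq)

/-- the sum over the orbit -/
noncomputable def cutS (m : G → E → E) (ρ' : ℝ) (z : E) : ℝ := ∑ᶠ g : G, cutB ρ' (m g z)

theorem cut_fin (hA : BAct G m) {ρ' R : ℝ} (hρ : ρ' < 1) (hR : R < 1) :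
    {g : G | ∃ z, nsq z ≤ R ∧ nsq (m g z) ≤ ρ'}.Finite := by
  refine (hA.pd (max R ρ') (max_lt hR hρ)).subset ?_
  rintro g ⟨z, h1, h2⟩
  exact ⟨z, h1.trans (le_max_left _ _), h2.trans (le_max_right _ _)⟩

theorem cutS_eq (hA : BAct G m) {ρ' R : ℝ} (hρ : ρ' < 1) (hR : R < 1) {z : E} (hz : nsq z ≤ R) :
    cutS m ρ' z = ∑ g ∈ (cut_fin hA hρ hR).toFinset, cutB ρ' (m g z) := by
  unfold cutS
  refine finsum_eq_sum_of_support_subset _ ?_
  intro g hg
  have h1 : nsq (m g z) < ρ' := cutB_ne hg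
  rw [Set.Finite.coe_toFinset]
  exact ⟨z, hz, h1.le⟩

theorem cutS_pos (hA : BAct G m) {ρ' : ℝ} (hρ : ρ' < 1) {z : E} (hz : z ∈ ball) {g : G}
    (hg : nsq (m g z) < ρ') : 0 < cutS m ρ' z := by
  rw [cutS_eq hA hρ (R := nsq z) hz le_rfl]
  refine Finset.sum_pos' (fun h _ => cutB_nonneg _ _) ⟨g, ?_, cutB_pos hg⟩
  rw [Set.Finite.mem_toFinset]
  exact ⟨z, le_rfl, hg.le⟩

theorem cutS_inv (hA : BAct G m) {ρ' : ℝ} {z : E} (hz : z ∈ ball) (h : G) :
    cutS m ρ' (m h z) = cutS m ρ' z := by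
  unfold cutS
  rw [← finsum_comp_equiv (Equiv.mulRight h) (f := fun g => cutB ρ' (m g z))]
  refine finsum_congr fun g => ?_
  rw [Equiv.coe_mulRight, hA.mul g h z hz]

theorem cutS_contDiffOn (hA : BAct G m) {ρ' : ℝ} (hρ : ρ' < 1) :
    ContDiffOn ℝ ∞ (cutS m ρ') ball := by
  intro z hz
  refine ContDiffAt.contDiffWithinAt ?_
  have hz1 : nsq z < 1 := hz
  have hR : (nsq z + 1) / 2 < 1 := by linarith
  have hmem : {w : E | nsq w < (nsq z + 1) / 2} ∈ nhds z :=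
    (isOpen_lt continuous_nsq continuous_const).mem_nhds
      (show nsq z < (nsq z + 1) / 2 by linarith)
  have hev : cutS m ρ' =ᶠ[nhds z]
      fun w => ∑ g ∈ (cut_fin hA hρ hR).toFinset, cutB ρ' (m g w) := by
    filter_upwards [hmem] with w hw
    exact cutS_eq hA hρ hR (le_of_lt hw)
  refine ContDiffAt.congr_of_eventuallyEq ?_ hev
  refine ContDiffAt.sum fun g _ => ?_
  exact (cutB_contDiff ρ').contDiffAt.comp z
    ((hA.aut g).smooth.contDiffAt (isOpen_ball.mem_nhds hz))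

/-- the partition function -/
noncomputable def cutK (m : G → E → E) (ρ' : ℝ) (z : E) : ℝ := by
  classical
  exact if z ∈ ball then cutB ρ' z / cutS m ρ' z else 0

theorem cutK_of_mem {ρ' : ℝ} {z : E} (hz : z ∈ ball) :
    cutK m ρ' z = cutB ρ' z / cutS m ρ' z := by
  unfold cutK
  exact if_pos hz

theorem cutK_of_notMem {ρ' : ℝ} {z : E} (hz : z ∉ ball) : cutK m ρ' z = 0 := by
  unfold cutK
  exact if_neg hz

theorem cutK_ne {ρ' : ℝ} {z : E} (h : cutK m ρ' z ≠ 0) : z ∈ ball ∧ nsq z < ρ' := by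
  by_cases hz : z ∈ ball
  · refine ⟨hz, ?_⟩
    rw [cutK_of_mem hz] at h
    apply cutB_ne (ρ' := ρ')
    intro h0
    rw [h0, zero_div] at h
    exact h rfl
  · exact absurd (cutK_of_notMem hz) h

theorem cutK_smooth (hA : BAct G m) {ρ' : ℝ} (hρ : ρ' < 1)
    (hcov : ∀ z ∈ ball, ∃ g : G, nsq (m g z) < ρ') : ContDiff ℝ ∞ (cutK m ρ') := by
  rw [contDiff_iff_contDiffAt]
  intro z
  by_cases hz : z ∈ ball
  · have hev : cutK m ρ' =ᶠ[nhds z] fun w => cutB ρ' w / cutS m ρ' w := by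
      filter_upwards [isOpen_ball.mem_nhds hz] with w hw
      exact cutK_of_mem hw
    refine ContDiffAt.congr_of_eventuallyEq ?_ hev
    obtain ⟨g, hg⟩ := hcov z hz
    exact (cutB_contDiff ρ').contDiffAt.div
      ((cutS_contDiffOn hA hρ).contDiffAt (isOpen_ball.mem_nhds hz))
      (cutS_pos hA hρ hz hg).ne'
  · have h1 : ρ' < nsq z := lt_of_lt_of_le hρ (not_lt.mp hz)
    have hev : cutK m ρ' =ᶠ[nhds z] fun _ => 0 := by
      filter_upwards [(isOpen_lt continuous_const continuous_nsq).mem_nhds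
        (show z ∈ {w : E | ρ' < nsq w} from h1)] with w hw
      by_contra h0
      exact absurd (cutK_ne h0).2 (not_lt.mpr (le_of_lt hw))
    exact contDiffAt_const.congr_of_eventuallyEq hev

theorem cutK_part (hA : BAct G m) {r ρ' ρ : ℝ} (hr0 : 0 ≤ r) (hr : r < ρ') (hρ' : ρ' < ρ)
    (hρ : ρ < 1) (hcov : ∀ z ∈ ball, ∃ g : G, nsq (m g z) ≤ r) : Part m r ρ (cutK m ρ') := by
  have h1 : ρ' < 1 := hρ'.trans hρ
  have hcov' : ∀ z ∈ ball, ∃ g : G, nsq (m g z) < ρ' := fun z hz => by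
    obtain ⟨g, hg⟩ := hcov z hz
    exact ⟨g, lt_of_le_of_lt hg hr⟩
  have hSpos : ∀ z ∈ ball, 0 < cutS m ρ' z := fun z hz => by
    obtain ⟨g, hg⟩ := hcov' z hz
    exact cutS_pos hA h1 hz hg
  refine ⟨hr0, hr.trans hρ', hρ, cutK_smooth hA h1 hcov', ?_, ?_, ?_, ?_, hcov⟩
  · intro z
    by_cases hz : z ∈ ball
    · rw [cutK_of_mem hz]
      exact div_nonneg (cutB_nonneg _ _) (hSpos z hz).le
    · rw [cutK_of_notMem hz]
  · intro z hz
    exact ((cutK_ne hz).2.trans hρ').le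
  · intro z hz
    have hzb : z ∈ ball := lt_of_le_of_lt hz (hr.trans h1)
    rw [cutK_of_mem hzb]
    exact div_pos (cutB_pos (lt_of_le_of_lt hz hr)) (hSpos z hzb)
  · intro z hz
    have hz1 : nsq z < 1 := hz
    have e1 : ∀ g : G, cutK m ρ' (m g z) = cutB ρ' (m g z) / cutS m ρ' z := fun g => by
      rw [cutK_of_mem (hA.mem g hz), cutS_inv hA hz g]
    have e2 : ∑ᶠ g : G, cutK m ρ' (m g z) =
        ∑ g ∈ (cut_fin hA h1 hz1).toFinset, cutK m ρ' (m g z) := by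
      refine finsum_eq_sum_of_support_subset _ ?_
      intro g hg
      rw [Set.Finite.coe_toFinset]
      exact ⟨z, le_rfl, (cutK_ne hg).2.le⟩
    rw [e2, Finset.sum_congr rfl fun g _ => e1 g, ← Finset.sum_div,
      ← cutS_eq hA h1 hz1 le_rfl]
    exact div_self (hSpos z hz).ne'

/-- one may also take `r` as large as one wants -/
theorem exists_part' (hA : BAct G m) {r₀ : ℝ} (hr₀ : r₀ < 1) : ∃ r ρ κ, r₀ ≤ r ∧ Part m r ρ κ := by
  obtain ⟨r₁, hr₁, hcov⟩ := hA.cc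
  have hr : max (max r₁ r₀) 0 < 1 := max_lt (max_lt hr₁ hr₀) zero_lt_one
  refine ⟨max (max r₁ r₀) 0, (3 + max (max r₁ r₀) 0) / 4,
    cutK m ((1 + max (max r₁ r₀) 0) / 2), (le_max_right r₁ r₀).trans (le_max_left _ _), ?_⟩
  refine cutK_part hA (le_max_right _ _) (by linarith) (by linarith) (by linarith) ?_
  intro z hz
  obtain ⟨g, hg⟩ := hcov z hz
  exact ⟨g, hg.trans ((le_max_left r₁ r₀).trans (le_max_left _ _))⟩

theorem exists_part (hA : BAct G m) : ∃ r ρ κ, Part m r ρ κ := by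
  obtain ⟨r, ρ, κ, _, h⟩ := exists_part' hA zero_lt_one
  exact ⟨r, ρ, κ, h⟩

theorem Part.local_finite (hA : BAct G m) {r ρ : ℝ} {κ : E → ℝ} (hP : Part m r ρ κ) {R : ℝ}
    (hR : R < 1) : {g : G | ∃ z, nsq z ≤ R ∧ κ (m g z) ≠ 0}.Finite := by
  refine (cut_fin hA hP.ρ_lt hR).subset ?_
  rintro g ⟨z, h1, h2⟩
  exact ⟨z, h1, hP.supp _ h2⟩

/-- a finite set of group elements which computes the sum near `{nsq ≤ R}` -/
theorem Part.exists_finset (hA : BAct G m) {r ρ : ℝ} {κ : E → ℝ} (hP : Part m r ρ κ) {R : ℝ}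
    (hR : R < 1) : ∃ T : Finset G, (∀ z, nsq z ≤ R → ∀ g, κ (m g z) ≠ 0 → g ∈ T) ∧
      ∀ z, nsq z ≤ R → ∑ g ∈ T, κ (m g z) = 1 := by
  have h1 : ∀ z, nsq z ≤ R → ∀ g, κ (m g z) ≠ 0 →
      g ∈ (Part.local_finite hA hP hR).toFinset := by
    intro z hz g hg
    rw [Set.Finite.mem_toFinset]
    exact ⟨z, hz, hg⟩
  refine ⟨(Part.local_finite hA hP hR).toFinset, h1, fun z hz => ?_⟩
  rw [← hP.sum z (lt_of_le_of_lt hz hR)]
  symm
  refine finsum_eq_sum_of_support_subset _ ?_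
  intro g hg
  exact h1 z hz g hg

/-- `κ ∘ m g` is smooth on the ball -/
theorem Part.smo (hA : BAct G m) {r ρ : ℝ} {κ : E → ℝ} (hP : Part m r ρ κ) (g : G) :
    Smo (fun z => ((κ (m g z) : ℝ) : ℂ)) :=
  (Complex.ofRealCLM.contDiff).comp_contDiffOn (hP.smooth.comp_contDiffOn (hA.aut g).smooth)

end Pool.Agent.H89.SG
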