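import Pool.Agent.H89.SG.AvS
import Pool.Agent.H89.SG.PartX

/-!
# AvM: averages preserve the mean over the quotient

Let `f (g z) = f z + c g`. Claim `∫ κ (Av k f - f) dμ = 0`.
`Av k f x - f x = ∫ k (dl x z) (f z - f x) dμ(z)` (`Av_const`). So the integral is
`M = ∫∫ κ(x) K(x, z) dμ(z) dμ(x)`, `K(x, z) = k (dl x z) (f z - f x)`, which is invariant,
`K(g x, g z) = K(x, z)`, and antisymmetric. Take the finite set `T` of `Part.exists_finset` for
`R = ρ'` where `ρ'` bounds `nsq z` for `nsq x ≤ ρ`, `dl x z ≤ r₁` (and `ρ' ≥ ρ`), enlarged so that it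
is closed under inverses. Insert `∑_{g ∈ T} κ (g z) = 1`:
`M = ∑_{g ∈ T} ∫∫ κ(x) κ(g z) K(x, z) dμ(z) dμ(x)`; substitute `(x, z) = (g⁻¹ x', g⁻¹ z')`
(`integral_mu_comp` in each variable): `= ∑_{g ∈ T} ∫∫ κ(g⁻¹ x') κ(z') K(x', z')`
`= ∫∫ κ(z') K(x', z') dμ dμ = - ∫∫ κ(z') K(z', x') = - M` by Fubini.
(All integrands are continuous with compact support in `ball × ball`, hence integrable for
`mu.prod mu`.)
-/

set_option autoImplicit false

namespace Pool.Agent.H89.SG

open Complex MeasureTheory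
open scoped ContDiff ComplexConjugate

variable {G : Type} [Group G] {m : G → E → E}

instance avm_sfinite : SFinite mu := by
  unfold mu
  infer_instance

theorem avm_ae_prod : ∀ᵐ p ∂(mu.prod mu), p.1 ∈ ball ∧ p.2 ∈ ball := by
  have h1 : ∀ᵐ p ∂(mu.prod mu), p.1 ∈ ball := Measure.quasiMeasurePreserving_fst.ae ae_mu
  have h2 : ∀ᵐ p ∂(mu.prod mu), p.2 ∈ ball := Measure.quasiMeasurePreserving_snd.ae ae_mu
  filter_upwards [h1, h2] with p hp1 hp2
  exact ⟨hp1, hp2⟩

theorem avm_integrable {H : E × E → ℝ} (hH : ContinuousOn H (ball ×ˢ ball)) {R : ℝ} (hR : R < 1)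
    (hs : ∀ p : E × E, p.1 ∈ ball → p.2 ∈ ball → H p ≠ 0 → nsq p.1 ≤ R ∧ nsq p.2 ≤ R) :
    Integrable H (mu.prod mu) := by
  set A : Set E := {z : E | nsq z ≤ R} with hA
  have hAc : IsCompact A := isCompact_nsq_le R
  have hCc : IsCompact (A ×ˢ A) := hAc.prod hAc
  have hCb : A ×ˢ A ⊆ ball ×ˢ ball :=
    Set.prod_mono (nsq_le_subset_ball hR) (nsq_le_subset_ball hR)
  have hHC : ContinuousOn H (A ×ˢ A) := hH.mono hCb
  obtain ⟨M, hM⟩ := hCc.exists_bound_of_continuousOn hHC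
  have hmeas : MeasurableSet (A ×ˢ A) := hCc.measurableSet
  have hfin : (mu.prod mu) (A ×ˢ A) ≠ ⊤ := by
    rw [Measure.prod_prod]
    exact ENNReal.mul_ne_top (mu_nsq_le_lt_top hR).ne (mu_nsq_le_lt_top hR).ne
  have hint : IntegrableOn H (A ×ˢ A) (mu.prod mu) := by
    have : IsFiniteMeasure ((mu.prod mu).restrict (A ×ˢ A)) :=
      ⟨by rw [Measure.restrict_apply_univ]; exact hfin.lt_top⟩
    exact Integrable.of_bound (hHC.aestronglyMeasurable hmeas) M
      (ae_restrict_of_forall_mem hmeas hM)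
  have hind : Integrable ((A ×ˢ A).indicator H) (mu.prod mu) := hint.integrable_indicator hmeas
  refine hind.congr ?_
  filter_upwards [avm_ae_prod] with p hp
  by_cases hpA : p ∈ A ×ˢ A
  · rw [Set.indicator_of_mem hpA]
  · rw [Set.indicator_of_notMem hpA]
    by_contra h0
    exact hpA (hs p hp.1 hp.2 fun h => h0 h.symm)

theorem avm_cont_comp (hA : BAct G m) {r ρ : ℝ} {κ : E → ℝ} (hP : Part m r ρ κ) (g : G) :
    ContinuousOn (fun z => κ (m g z)) ball :=
  hP.smooth.continuous.comp_continuousOn (hA.aut g).smooth.continuousOn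

theorem Av_mean (hA : BAct G m) {r ρ : ℝ} {κ : E → ℝ} (hP : Part m r ρ κ) {k : ℝ → ℝ} {r₁ : ℝ}
    (hk : Ker k r₁) {f : E → ℝ} (hf : ContinuousOn f ball) (c : G → ℝ)
    (hc : ∀ g, ∀ z ∈ ball, f (m g z) = f z + c g) :
    ∫ x, κ x * (Av k f x - f x) ∂mu = 0 := by
  classical
  set K : E × E → ℝ := fun p => k (dl p.1 p.2) * (f p.2 - f p.1) with hK
  have hKanti : ∀ p : E × E, K p.swap = - K p := by
    intro p
    simp only [hK, Prod.fst_swap, Prod.snd_swap]
    rw [dl_symm p.2 p.1]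
    ring
  have hKc : ContinuousOn K (ball ×ˢ ball) := by
    refine (hk.smooth.continuous.comp_continuousOn contDiffOn_dl.continuousOn).mul ?_
    refine (hf.comp continuousOn_snd ?_).sub (hf.comp continuousOn_fst ?_)
    · intro p hp; exact hp.2
    · intro p hp; exact hp.1
  have hKinv : ∀ (g : G) (p : E × E), p.1 ∈ ball → p.2 ∈ ball →
      K (m g p.1, m g p.2) = K p := by
    intro g p h1 h2
    simp only [hK]
    rw [(hA.aut g).dl_eq h1 h2, hc g _ h1, hc g _ h2]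
    ring
  obtain ⟨ρ', hρ0, hρ1, hfar⟩ := dl_far hP.ρ_lt hk.lt_one
  set R : ℝ := max ρ ρ' with hR
  have hR1 : R < 1 := max_lt hP.ρ_lt hρ1
  have hKsupp : ∀ p : E × E, K p ≠ 0 → dl p.1 p.2 ≤ r₁ := by
    intro p hp
    by_contra hcon
    push Not at hcon
    apply hp
    simp only [hK]
    rw [hk.supp _ hcon.le, zero_mul]
  -- the finite set
  obtain ⟨T₀, hT₀, hT₀'⟩ := hP.exists_finset hA hR1
  set T : Finset G := T₀ ∪ T₀.image (fun g => g⁻¹) with hT
  have hTinv : ∀ g, g ∈ T → g⁻¹ ∈ T := by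
    intro g hg
    rw [hT, Finset.mem_union, Finset.mem_image] at hg ⊢
    rcases hg with hg | ⟨h, hh, rfl⟩
    · exact Or.inr ⟨g, hg, rfl⟩
    · left
      rwa [inv_inv]
  have hTsum : ∀ z, nsq z ≤ R → ∑ g ∈ T, κ (m g z) = 1 := by
    intro z hz
    rw [← hT₀' z hz]
    symm
    apply Finset.sum_subset (Finset.subset_union_left)
    intro g _ hg
    by_contra h0
    exact hg (hT₀ z hz g h0)
  have hTsum' : ∀ z, nsq z ≤ R → ∑ g ∈ T, κ (m g⁻¹ z) = 1 := by
    intro z hz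
    rw [← hTsum z hz]
    refine Finset.sum_nbij' (fun g => g⁻¹) (fun g => g⁻¹) ?_ ?_ ?_ ?_ ?_
    · intro g hg; exact hTinv g hg
    · intro g hg; exact hTinv g hg
    · intro g _; exact inv_inv g
    · intro g _; exact inv_inv g
    · intro g _; rfl
  -- continuity and supports
  have hκ1 : ContinuousOn (fun p : E × E => κ p.1) (ball ×ˢ ball) :=
    (hP.smooth.continuous.comp continuous_fst).continuousOn
  have hκ2 : ContinuousOn (fun p : E × E => κ p.2) (ball ×ˢ ball) :=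
    (hP.smooth.continuous.comp continuous_snd).continuousOn
  have hκg1 : ∀ g : G, ContinuousOn (fun p : E × E => κ (m g p.1)) (ball ×ˢ ball) := fun g =>
    (avm_cont_comp hA hP g).comp continuousOn_fst (fun p hp => hp.1)
  have hκg2 : ∀ g : G, ContinuousOn (fun p : E × E => κ (m g p.2)) (ball ×ˢ ball) := fun g =>
    (avm_cont_comp hA hP g).comp continuousOn_snd (fun p hp => hp.2)
  have hsuppA : ∀ p : E × E, p.1 ∈ ball → p.2 ∈ ball → κ p.1 ≠ 0 → K p ≠ 0 →
      nsq p.1 ≤ R ∧ nsq p.2 ≤ R := by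
    intro p _ h2 h3 h4
    have h5 := hP.supp _ h3
    exact ⟨h5.trans (le_max_left _ _), (hfar p.1 p.2 h5 h2 (hKsupp p h4)).trans
      (le_max_right _ _)⟩
  have hsuppB : ∀ p : E × E, p.1 ∈ ball → p.2 ∈ ball → κ p.2 ≠ 0 → K p ≠ 0 →
      nsq p.1 ≤ R ∧ nsq p.2 ≤ R := by
    intro p h1 _ h3 h4
    have h5 := hP.supp _ h3
    refine ⟨(hfar p.2 p.1 h5 h1 ?_).trans (le_max_right _ _), h5.trans (le_max_left _ _)⟩
    rw [dl_symm]
    exact hKsupp p h4
  have hi0 : Integrable (fun p : E × E => κ p.1 * K p) (mu.prod mu) := by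
    refine avm_integrable (hκ1.mul hKc) hR1 ?_
    intro p h1 h2 h3
    exact hsuppA p h1 h2 (left_ne_zero_of_mul h3) (right_ne_zero_of_mul h3)
  have hiA : ∀ g : G, Integrable (fun p : E × E => κ p.1 * κ (m g p.2) * K p) (mu.prod mu) := by
    intro g
    refine avm_integrable ((hκ1.mul (hκg2 g)).mul hKc) hR1 ?_
    intro p h1 h2 h3
    exact hsuppA p h1 h2 (left_ne_zero_of_mul (left_ne_zero_of_mul h3))
      (right_ne_zero_of_mul h3)
  have hiB : ∀ g : G, Integrable (fun p : E × E => κ (m g p.1) * κ p.2 * K p) (mu.prod mu) := by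
    intro g
    refine avm_integrable (((hκg1 g).mul hκ2).mul hKc) hR1 ?_
    intro p h1 h2 h3
    exact hsuppB p h1 h2 (right_ne_zero_of_mul (left_ne_zero_of_mul h3))
      (right_ne_zero_of_mul h3)
  -- the integral over the product
  have hJ : ∫ x, κ x * (Av k f x - f x) ∂mu = ∫ p, κ p.1 * K p ∂(mu.prod mu) := by
    rw [integral_prod _ hi0]
    refine integral_mu_congr fun x hx => ?_
    have h1 : Av k f x - f x = ∫ z, K (x, z) ∂mu := by
      have h2 : f x = Av k (fun _ => f x) x := (Av_const hk hx (f x)).symm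
      rw [show Av k f x - f x = Av k f x - Av k (fun _ => f x) x by rw [← h2],
        ← Av_sub hk hf continuousOn_const hx]
      rfl
    rw [h1, ← integral_const_mul]
  have hJ1 : ∫ p, κ p.1 * K p ∂(mu.prod mu)
      = ∑ g ∈ T, ∫ p, κ p.1 * κ (m g p.2) * K p ∂(mu.prod mu) := by
    rw [← integral_finsetSum T (fun g _ => hiA g)]
    refine integral_congr_ae ?_
    filter_upwards [avm_ae_prod] with p hp
    by_cases h0 : κ p.1 * K p = 0
    · rw [h0]
      symm
      apply Finset.sum_eq_zero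
      intro g _
      rw [mul_right_comm, h0, zero_mul]
    · have h3 := hsuppA p hp.1 hp.2 (left_ne_zero_of_mul h0) (right_ne_zero_of_mul h0)
      have h4 := hTsum p.2 h3.2
      calc κ p.1 * K p = (∑ g ∈ T, κ (m g p.2)) * (κ p.1 * K p) := by rw [h4, one_mul]
        _ = ∑ g ∈ T, κ p.1 * κ (m g p.2) * K p := by
          rw [Finset.sum_mul]
          refine Finset.sum_congr rfl fun g _ => ?_
          ring
  have hJ2 : ∀ g : G, ∫ p, κ p.1 * κ (m g p.2) * K p ∂(mu.prod mu)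
      = ∫ p, κ (m g⁻¹ p.1) * κ p.2 * K p ∂(mu.prod mu) := by
    intro g
    rw [integral_prod _ (hiA g), integral_prod _ (hiB g⁻¹)]
    rw [← integral_mu_comp (hA.aut g⁻¹)
      (fun x => ∫ z, κ x * κ (m g z) * K (x, z) ∂mu)]
    refine integral_mu_congr fun x hx => ?_
    change ∫ z, κ (m g⁻¹ x) * κ (m g z) * K (m g⁻¹ x, z) ∂mu = _
    rw [← integral_mu_comp (hA.aut g⁻¹)
      (fun z => κ (m g⁻¹ x) * κ (m g z) * K (m g⁻¹ x, z))]
    refine integral_mu_congr fun z hz => ?_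
    change κ (m g⁻¹ x) * κ (m g (m g⁻¹ z)) * K (m g⁻¹ x, m g⁻¹ z) = _
    rw [hA.inv_right g hz, hKinv g⁻¹ (x, z) hx hz]
  have hJ3 : ∑ g ∈ T, ∫ p, κ (m g⁻¹ p.1) * κ p.2 * K p ∂(mu.prod mu)
      = ∫ p, κ p.2 * K p ∂(mu.prod mu) := by
    rw [← integral_finsetSum T (fun g _ => hiB g⁻¹)]
    refine integral_congr_ae ?_
    filter_upwards [avm_ae_prod] with p hp
    by_cases h0 : κ p.2 * K p = 0
    · rw [h0]
      apply Finset.sum_eq_zero
      intro g _
      rw [mul_assoc, h0, mul_zero]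
    · have h3 := hsuppB p hp.1 hp.2 (left_ne_zero_of_mul h0) (right_ne_zero_of_mul h0)
      have h4 := hTsum' p.1 h3.1
      symm
      calc κ p.2 * K p = (∑ g ∈ T, κ (m g⁻¹ p.1)) * (κ p.2 * K p) := by rw [h4, one_mul]
        _ = ∑ g ∈ T, κ (m g⁻¹ p.1) * κ p.2 * K p := by
          rw [Finset.sum_mul]
          refine Finset.sum_congr rfl fun g _ => ?_
          ring
  have hJ4 : ∫ p, κ p.2 * K p ∂(mu.prod mu) = - ∫ p, κ p.1 * K p ∂(mu.prod mu) := by
    rw [← integral_prod_swap, ← integral_neg]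
    refine integral_congr_ae (Filter.Eventually.of_forall fun p => ?_)
    change κ p.1 * K p.swap = -(κ p.1 * K p)
    rw [hKanti]
    ring
  rw [hJ]
  have h5 : ∫ p, κ p.1 * K p ∂(mu.prod mu) = - ∫ p, κ p.1 * K p ∂(mu.prod mu) := by
    calc ∫ p, κ p.1 * K p ∂(mu.prod mu)
        = ∑ g ∈ T, ∫ p, κ p.1 * κ (m g p.2) * K p ∂(mu.prod mu) := hJ1
      _ = ∑ g ∈ T, ∫ p, κ (m g⁻¹ p.1) * κ p.2 * K p ∂(mu.prod mu) :=
        Finset.sum_congr rfl fun g _ => hJ2 g
      _ = _ := hJ3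
      _ = _ := hJ4
  linarith

end Pool.Agent.H89.SG
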