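import Pool.Agent.H89.SG.AvD

/-!
# AvS: averages of continuous functions are smooth

Let `x₀` be in the ball, `nsq x₀ < ρ < 1`, and `s = {x | nsq x < ρ}` (open). For `x ∈ s` the function
`z ↦ k (dl x z)` vanishes on the ball outside the compact set `K = {nsq ≤ ρ'}` (`dl_far`, `ρ' < 1`).
Put `g p y = k (dl p (-y)) * ((1 - nsq (-y))^3)⁻¹` if `-y ∈ ball`, and `0` otherwise. For `p ∈ s`,
`g p y = 0` unless `-y ∈ K`, and `g` is smooth on `s × univ` (smooth on `s × {−y ∈ ball}` by
`contDiffOn_dl`, zero on the open set `s × {−y ∉ K}`).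
`Av k f p = ∫ f̃ z * g p (0 - z) dz = (f̃ ⋆ g p) 0`, `f̃ = f` on `K` (indicator; integrable).
Apply `contDiffOn_convolution_right_with_param_comp` with `v p = 0`, `L = ContinuousLinearMap.mul`
(or `lsmul`), to get smoothness on `s`, for each `ρ < 1`.
-/

set_option autoImplicit false

namespace Pool.Agent.H89.SG

open Complex MeasureTheory
open scoped ContDiff ComplexConjugate

/-- the kernel, as a function of the parameter and the integration variable -/
private noncomputable def hker (k : ℝ → ℝ) (p z : E) : ℝ :=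
  open Classical in if z ∈ ball then k (dl p z) * ((1 - nsq z) ^ 3)⁻¹ else 0

private lemma avS_int {k : ℝ → ℝ} {f : E → ℝ} {K : Set E} (hKB : K ⊆ ball) {p : E}
    (hp0 : ∀ z ∈ ball, z ∉ K → k (dl p z) = 0) :
    Av k f p = ∫ z, K.indicator f z * hker k p z := by
  unfold Av
  rw [integral_mu, ← integral_indicator measurableSet_ball]
  refine integral_congr_ae (Filter.Eventually.of_forall fun z => ?_)
  by_cases hz : z ∈ ball
  · by_cases hzK : z ∈ K
    · simp only [Set.indicator_of_mem hz, Set.indicator_of_mem hzK, hker, if_pos hz, smul_eq_mul]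
      ring
    · simp only [Set.indicator_of_mem hz, Set.indicator_of_notMem hzK, smul_eq_mul, zero_mul,
        hp0 z hz hzK, mul_zero]
  · have hzK : z ∉ K := fun h => hz (hKB h)
    simp only [Set.indicator_of_notMem hz, Set.indicator_of_notMem hzK, zero_mul]

private lemma avS_smooth_ker {k : ℝ → ℝ} (hk : ContDiff ℝ ∞ k) {K s : Set E}
    (hK : IsClosed K) (hKB : K ⊆ ball) (hsB : s ⊆ ball)
    (hp0 : ∀ p ∈ s, ∀ z ∈ ball, z ∉ K → k (dl p z) = 0) :
    ContDiffOn ℝ ∞ (fun q : E × E => hker k q.1 (-q.2)) (s ×ˢ Set.univ) := by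
  rintro ⟨p, y⟩ ⟨hp, -⟩
  by_cases hy : -y ∈ ball
  · -- smooth point
    have hO : IsOpen {q : E × E | q.1 ∈ ball ∧ -q.2 ∈ ball} :=
      (isOpen_ball.preimage continuous_fst).inter (isOpen_ball.preimage continuous_snd.neg)
    have hmem : (p, y) ∈ {q : E × E | q.1 ∈ ball ∧ -q.2 ∈ ball} := ⟨hsB hp, hy⟩
    have h1 : ContDiffOn ℝ ∞ (fun q : E × E => dl q.1 (-q.2))
        {q : E × E | q.1 ∈ ball ∧ -q.2 ∈ ball} := by
      have hm : ContDiffOn ℝ ∞ (fun q : E × E => ((q.1, -q.2) : E × E))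
          {q : E × E | q.1 ∈ ball ∧ -q.2 ∈ ball} :=
        (contDiff_fst.prodMk contDiff_snd.neg).contDiffOn
      exact contDiffOn_dl.comp hm fun q hq => ⟨hq.1, hq.2⟩
    have h2 : ContDiffOn ℝ ∞ (fun q : E × E => ((1 - nsq (-q.2)) ^ 3)⁻¹)
        {q : E × E | q.1 ∈ ball ∧ -q.2 ∈ ball} := by
      refine ContDiffOn.inv ?_ ?_
      · exact ((contDiff_const.sub (contDiff_nsq.comp contDiff_snd.neg)).pow 3).contDiffOn
      · intro q hq
        have : nsq (-q.2) < 1 := hq.2
        exact pow_ne_zero 3 (by linarith)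
    have h3 : ContDiffOn ℝ ∞ (fun q : E × E => k (dl q.1 (-q.2)) * ((1 - nsq (-q.2)) ^ 3)⁻¹)
        {q : E × E | q.1 ∈ ball ∧ -q.2 ∈ ball} := (hk.comp_contDiffOn h1).mul h2
    have h4 : ContDiffAt ℝ ∞ (fun q : E × E => k (dl q.1 (-q.2)) * ((1 - nsq (-q.2)) ^ 3)⁻¹)
        (p, y) := h3.contDiffAt (hO.mem_nhds hmem)
    have h5 : (fun q : E × E => hker k q.1 (-q.2)) =ᶠ[nhds (p, y)]
        fun q : E × E => k (dl q.1 (-q.2)) * ((1 - nsq (-q.2)) ^ 3)⁻¹ := by
      filter_upwards [hO.mem_nhds hmem] with q hq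
      simp only [hker, if_pos hq.2]
    exact (h4.congr_of_eventuallyEq h5).contDiffWithinAt
  · -- zero near the point
    have hyK : -y ∈ Kᶜ ∨ -y ∈ K := by tauto
    rcases hyK with hyK | hyK
    · have hO : IsOpen {q : E × E | -q.2 ∈ Kᶜ} := hK.isOpen_compl.preimage continuous_snd.neg
      have hz : ∀ q ∈ (s ×ˢ (Set.univ : Set E)) ∩ {q : E × E | -q.2 ∈ Kᶜ},
          hker k q.1 (-q.2) = 0 := by
        rintro q ⟨⟨hq1, -⟩, hq2⟩
        by_cases hqb : -q.2 ∈ ball
        · simp only [hker, if_pos hqb, hp0 q.1 hq1 _ hqb hq2, zero_mul]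
        · simp only [hker, if_neg hqb]
      have hc : ContDiffWithinAt ℝ ∞ (fun _ : E × E => (0 : ℝ)) (s ×ˢ Set.univ) (p, y) :=
        contDiffWithinAt_const
      refine hc.congr_of_eventuallyEq ?_ (hz _ ⟨⟨hp, trivial⟩, hyK⟩)
      filter_upwards [self_mem_nhdsWithin, mem_nhdsWithin_of_mem_nhds (hO.mem_nhds hyK)]
        with q hq1 hq2
      exact hz q ⟨hq1, hq2⟩
    · exact absurd (hKB hyK) hy

theorem Av_smooth {k : ℝ → ℝ} {r₁ : ℝ} (hk : Ker k r₁) {f : E → ℝ} (hf : ContinuousOn f ball) :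
    ContDiffOn ℝ ∞ (Av k f) ball := by
  intro x₀ hx₀
  have hx0 : nsq x₀ < 1 := hx₀
  obtain ⟨ρ, hρ1, hρ2⟩ := exists_between hx0
  obtain ⟨ρ', h0, h1, hfar⟩ := dl_far hρ2 hk.lt_one
  set K : Set E := {z | nsq z ≤ ρ'} with hKdef
  have hKB : K ⊆ ball := nsq_le_subset_ball h1
  have hKc : IsCompact K := isCompact_nsq_le ρ'
  set s : Set E := {x | nsq x < ρ} with hsdef
  have hs : IsOpen s := isOpen_lt continuous_nsq continuous_const
  have hsB : s ⊆ ball := fun x hx => lt_trans hx hρ2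
  have hp0 : ∀ p ∈ s, ∀ z ∈ ball, z ∉ K → k (dl p z) = 0 := by
    intro p hp z hz hzK
    apply hk.supp
    by_contra hlt
    exact hzK (hfar p z (le_of_lt hp) hz (not_le.mp hlt).le)
  have hfi : Integrable (K.indicator f) :=
    (integrable_indicator_iff hKc.measurableSet).mpr ((hf.mono hKB).integrableOn_compact hKc)
  have hsm := avS_smooth_ker (s := s) hk.smooth hKc.isClosed hKB hsB hp0
  have hkneg : IsCompact (-K) := hKc.neg
  have key := contDiffOn_convolution_right_with_param_comp (n := ⊤) (μ := (volume : Measure E))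
    (ContinuousLinearMap.mul ℝ ℝ) (s := s) (v := fun _ : E => (0 : E)) contDiffOn_const
    (f := K.indicator f) (g := fun p y => hker k p (-y)) (k := -K) hs hkneg
    (by
      intro p x hp hx
      have hx' : -x ∉ K := fun h => hx (Set.mem_neg.mpr h)
      by_cases hxb : -x ∈ ball
      · simp only [hker, if_pos hxb, hp0 p hp _ hxb hx', zero_mul]
      · simp only [hker, if_neg hxb])
    hfi.locallyIntegrable hsm
  have heq : ∀ p ∈ s, Av k f p =
      (MeasureTheory.convolution (K.indicator f) (fun y => hker k p (-y))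
        (ContinuousLinearMap.mul ℝ ℝ) volume) 0 := by
    intro p hp
    rw [avS_int hKB (hp0 p hp)]
    simp only [MeasureTheory.convolution, ContinuousLinearMap.mul_apply', zero_sub, neg_neg]
  have h2 : ContDiffOn ℝ ∞ (Av k f) s := key.congr heq
  exact (h2.contDiffAt (hs.mem_nhds hρ1)).contDiffWithinAt

theorem Av_continuous {k : ℝ → ℝ} {r₁ : ℝ} (hk : Ker k r₁) {f : E → ℝ}
    (hf : ContinuousOn f ball) : ContinuousOn (Av k f) ball :=
  (Av_smooth hk hf).continuousOn

end Pool.Agent.H89.SG
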