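import Pool.Agent.H89.SG.W2

/-!
# Chg: change of variables

The real derivative of an automorphism `φ` at `z` is the restriction of scalars of the complex
linear map with matrix `Dm φ`, so its real determinant is `normSq (jac φ z)`
(`LinearMap.det_restrictScalars` or a direct computation with a basis). `φ` is injective on the
ball with image the ball: `MeasureTheory.integral_image_eq_integral_abs_det_fderiv_smul` and
`lintegral_image_eq_lintegral_abs_det_fderiv_mul`.
`mu_comp`: `∫ f ∂mu = ∫ z in ball, ((1 - nsq z)^3)⁻¹ • f z`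
(`integral_withDensity_eq_integral_smul` or `..._toReal_smul`), and by `IsAut.jac_sq`
`normSq (jac φ z) * ((1 - nsq (φ z))^3)⁻¹ = ((1 - nsq z)^3)⁻¹`.
-/

set_option autoImplicit false

namespace Pool.Agent.H89.SG

open Complex MeasureTheory
open scoped ContDiff ComplexConjugate ENNReal

variable {φ : E → E} {F : Type} [NormedAddCommGroup F] [NormedSpace ℝ F]

private theorem haarE : (volume : Measure E).IsAddHaarMeasure :=
  inferInstanceAs ((volume : Measure ℂ).prod (volume : Measure ℂ)).IsAddHaarMeasure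

private theorem fd_comp (hφ : IsAut φ) {z : E} (hz : z ∈ ball) :
    DifferentiableAt ℝ φ z :=
  (hφ.smooth.differentiableOn (by simp)).differentiableAt (isOpen_ball.mem_nhds hz)

private theorem fd_fst (hφ : IsAut φ) {z : E} (hz : z ∈ ball) (v : E) :
    (fderiv ℝ φ z v).1 = dd 0 (fun w => (φ w).1) z * v.1 + dd 1 (fun w => (φ w).1) z * v.2 := by
  have h := hφ.hol_fst.fderiv_eq hz v
  rw [← h]
  have h1 : HasFDerivAt (fun w => (φ w).1) ((ContinuousLinearMap.fst ℝ ℂ ℂ).comp (fderiv ℝ φ z)) z :=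
    (ContinuousLinearMap.fst ℝ ℂ ℂ).hasFDerivAt.comp z (fd_comp hφ hz).hasFDerivAt
  rw [h1.fderiv]
  rfl

private theorem fd_snd (hφ : IsAut φ) {z : E} (hz : z ∈ ball) (v : E) :
    (fderiv ℝ φ z v).2 = dd 0 (fun w => (φ w).2) z * v.1 + dd 1 (fun w => (φ w).2) z * v.2 := by
  have h := hφ.hol_snd.fderiv_eq hz v
  rw [← h]
  have h1 : HasFDerivAt (fun w => (φ w).2) ((ContinuousLinearMap.snd ℝ ℂ ℂ).comp (fderiv ℝ φ z)) z :=
    (ContinuousLinearMap.snd ℝ ℂ ℂ).hasFDerivAt.comp z (fd_comp hφ hz).hasFDerivAt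
  rw [h1.fderiv]
  rfl

private theorem det_two (a b c d : ℂ) (A : E →ₗ[ℝ] E)
    (h1 : ∀ v, (A v).1 = a * v.1 + b * v.2) (h2 : ∀ v, (A v).2 = c * v.1 + d * v.2) :
    LinearMap.det A = normSq (a * d - b * c) := by
  let B : E →ₗ[ℂ] E := Matrix.toLin (Module.Basis.finTwoProd ℂ) (Module.Basis.finTwoProd ℂ) !![a, b; c, d]
  have hB : A = B.restrictScalars ℝ := by
    refine LinearMap.ext fun v => ?_
    have hb : B v = (a * v.1 + b * v.2, c * v.1 + d * v.2) :=
      Matrix.toLin_finTwoProd_apply _ _ _ _ _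
    rw [LinearMap.restrictScalars_apply, hb]
    exact Prod.ext (h1 v) (h2 v)
  rw [hB, LinearMap.det_restrictScalars, LinearMap.det_toLin, Matrix.det_fin_two_of,
    Algebra.norm_complex_apply]

theorem det_fderiv (hφ : IsAut φ) {z : E} (hz : z ∈ ball) :
    (fderiv ℝ φ z).det = normSq (jac φ z) := by
  have h := det_two _ _ _ _ (fderiv ℝ φ z : E →ₗ[ℝ] E) (fd_fst hφ hz) (fd_snd hφ hz)
  rw [ContinuousLinearMap.det, h]
  rfl

private theorem fdw (hφ : IsAut φ) : ∀ z ∈ ball, HasFDerivWithinAt φ (fderiv ℝ φ z) ball z :=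
  fun _ hz => (fd_comp hφ hz).hasFDerivAt.hasFDerivWithinAt

private theorem abs_det (hφ : IsAut φ) {z : E} (hz : z ∈ ball) :
    |(fderiv ℝ φ z).det| = normSq (jac φ z) := by
  rw [det_fderiv hφ hz, abs_of_nonneg (normSq_nonneg _)]

theorem integral_comp (hφ : IsAut φ) (f : E → F) :
    ∫ z in ball, normSq (jac φ z) • f (φ z) = ∫ z in ball, f z := by
  have := haarE
  have h := integral_image_eq_integral_abs_det_fderiv_smul (volume : Measure E) measurableSet_ball (fdw hφ)
    hφ.injOn f
  rw [hφ.image_ball] at h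
  rw [h]
  refine setIntegral_congr_fun measurableSet_ball fun z hz => ?_
  simp only [abs_det hφ hz]

theorem integrableOn_comp (hφ : IsAut φ) (f : E → F) :
    IntegrableOn (fun z => normSq (jac φ z) • f (φ z)) ball ↔ IntegrableOn f ball := by
  have := haarE
  have h := integrableOn_image_iff_integrableOn_abs_det_fderiv_smul (volume : Measure E) measurableSet_ball
    (fdw hφ) hφ.injOn f
  rw [hφ.image_ball] at h
  rw [h]
  refine integrableOn_congr_fun (fun z hz => ?_) measurableSet_ball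
  simp only [abs_det hφ hz]

theorem lintegral_comp (hφ : IsAut φ) (f : E → ℝ≥0∞) :
    ∫⁻ z in ball, ENNReal.ofReal (normSq (jac φ z)) * f (φ z) = ∫⁻ z in ball, f z := by
  have := haarE
  have h := lintegral_image_eq_lintegral_abs_det_fderiv_mul (volume : Measure E) measurableSet_ball
    (fdw hφ) hφ.injOn f
  rw [hφ.image_ball] at h
  rw [h]
  refine setLIntegral_congr_fun measurableSet_ball fun z hz => ?_
  simp only [abs_det hφ hz]

private theorem meas_w : Measurable fun z : E => ENNReal.ofReal (((1 - nsq z) ^ 3)⁻¹) :=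
  (((measurable_const.sub continuous_nsq.measurable).pow_const 3).inv).ennreal_ofReal

private theorem w_nonneg {z : E} (hz : z ∈ ball) : 0 ≤ ((1 - nsq z) ^ 3)⁻¹ := by
  have h : nsq z < 1 := hz
  have h' : 0 < 1 - nsq z := by linarith
  positivity

theorem integral_mu (f : E → F) :
    ∫ z, f z ∂mu = ∫ z in ball, ((1 - nsq z) ^ 3)⁻¹ • f z := by
  unfold mu
  rw [integral_withDensity_eq_integral_toReal_smul meas_w
    (Filter.Eventually.of_forall fun _ => ENNReal.ofReal_lt_top)]
  refine setIntegral_congr_fun measurableSet_ball fun z hz => ?_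
  simp only [ENNReal.toReal_ofReal (w_nonneg hz)]

theorem integrable_mu (f : E → F) :
    Integrable f mu ↔ IntegrableOn (fun z => ((1 - nsq z) ^ 3)⁻¹ • f z) ball := by
  unfold mu
  rw [integrable_withDensity_iff_integrable_smul' meas_w
    (Filter.Eventually.of_forall fun _ => ENNReal.ofReal_lt_top)]
  refine integrableOn_congr_fun (fun z hz => ?_) measurableSet_ball
  simp only [ENNReal.toReal_ofReal (w_nonneg hz)]

private theorem w_comp (hφ : IsAut φ) {z : E} (hz : z ∈ ball) :
    ((1 - nsq z) ^ 3)⁻¹ = normSq (jac φ z) * ((1 - nsq (φ z)) ^ 3)⁻¹ := by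
  have h := hφ.jac_sq hz
  have h1 : nsq z < 1 := hz
  have h2 : nsq (φ z) < 1 := hφ.maps hz
  have h3 : (1 - nsq z) ^ 3 ≠ 0 := pow_ne_zero 3 (by linarith)
  have h4 : (1 - nsq (φ z)) ^ 3 ≠ 0 := pow_ne_zero 3 (by linarith)
  rw [eq_mul_inv_iff_mul_eq₀ h4, ← h, mul_comm, mul_assoc, mul_inv_cancel₀ h3, mul_one]

theorem integral_mu_comp (hφ : IsAut φ) (f : E → F) : ∫ z, f (φ z) ∂mu = ∫ z, f z ∂mu := by
  rw [integral_mu, integral_mu, ← integral_comp hφ (fun z => ((1 - nsq z) ^ 3)⁻¹ • f z)]
  refine setIntegral_congr_fun measurableSet_ball fun z hz => ?_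
  simp only [smul_smul, ← w_comp hφ hz]

theorem integrable_mu_comp (hφ : IsAut φ) (f : E → F) :
    Integrable (fun z => f (φ z)) mu ↔ Integrable f mu := by
  rw [integrable_mu, integrable_mu, ← integrableOn_comp hφ (fun z => ((1 - nsq z) ^ 3)⁻¹ • f z)]
  refine integrableOn_congr_fun (fun z hz => ?_) measurableSet_ball
  simp only [smul_smul, ← w_comp hφ hz]

end Pool.Agent.H89.SG
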