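import Pool.Agent.H89.SG.GradB

/-!
# Cnt: a level which meets few points

`L.Y = L.Q × ℤ` with the action `g (q, n) = (g • q, n + β g q)`, `uu F y x = Re F_q x + ℓ n`.
Let `osc` of `Re F q` on `{nsq ≤ R}` be at most `4 √(B q)` (`grad_bound`, `osc_le`).
For `t ∈ [0, ℓ)` let `N t = #{y : ∃ x, nsq x ≤ R, |uu F y x - t| < 1}`. Then
`∑_{t ∈ [0, ℓ)} N t = ∑_q #{(t, n) : t ∈ [0, ℓ), ∃ x, |Re F q x - (t - ℓ n)| < 1}
= ∑_q #{k ∈ ℤ : ∃ x, nsq x ≤ R ∧ |Re F q x - k| < 1}` (each integer is uniquely `t - ℓ n`)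
`≤ ∑_q (8 √(B q) + 3) ≤ 3 card Q + 8 √(card Q) √(∑ B q) ≤ C' card Q ≤ C' D ℓ`. So some `N t` is at most
`C' D`. (If `{nsq ≤ R}` is empty all sets are empty.) Each set is finite by the same estimate.
-/

set_option autoImplicit false

namespace Pool.Agent.H89.SG

open Complex MeasureTheory
open scoped ContDiff ComplexConjugate

variable {G : Type} [Group G] {m : G → E → E} {S : Finset G}

/-- the infinite line -/
def Line.Y (L : Line G S) : Type := L.Q × ℤ

theorem Line.β_one (L : Line G S) (q : L.Q) : L.β 1 q = 0 := by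
  have h := L.coc 1 1 q
  rw [one_smul, mul_one] at h
  omega

instance (L : Line G S) : MulAction G L.Y where
  smul g y := (g • y.1, y.2 + L.β g y.1)
  one_smul y := by
    show (((1 : G) • y.1, y.2 + L.β 1 y.1) : L.Q × ℤ) = y
    rw [one_smul, L.β_one, add_zero]
    rfl
  mul_smul g h y := by
    show (((g * h) • y.1, y.2 + L.β (g * h) y.1) : L.Q × ℤ) =
      (g • (h • y.1), y.2 + L.β h y.1 + L.β g (h • y.1))
    rw [mul_smul, L.coc, add_assoc, add_comm (L.β h y.1)]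

theorem Line.smul_def (L : Line G S) (g : G) (y : L.Y) :
    g • y = ((g • y.1, y.2 + L.β g y.1) : L.Q × ℤ) := rfl

/-- the pluriharmonic function on `B × Y` -/
noncomputable def uu {L : Line G S} (F : L.Q → E → ℂ) (y : L.Y) (x : E) : ℝ :=
  (F y.1 x).re + L.ℓ * y.2

/-- the points which are at distance `< 1` from the level `t` somewhere on `{nsq ≤ R}` -/
def Reg {L : Line G S} (F : L.Q → E → ℂ) (R : ℝ) (t : ℤ) : Set L.Y :=
  {y | ∃ x : E, nsq x ≤ R ∧ |uu F y x - t| < 1}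

theorem uu_smul {L : Line G S} {F : L.Q → E → ℂ} (hF : HD m L F) (g : G) (y : L.Y) {z : E}
    (hz : z ∈ ball) : uu F (g • y) (m g z) = uu F y z := by
  have h := hF.eq g y.1 z hz
  rw [Line.smul_def]
  unfold uu
  simp only
  push_cast
  linarith

/-- the integers near the values of the real part -/
def cntCA (f : E → ℂ) (R : ℝ) : Set ℤ := {k | ∃ x : E, nsq x ≤ R ∧ |(f x).re - k| < 1}

theorem cnt_set (A : Set ℤ) (W : ℝ) (hW : 0 ≤ W)
    (h : ∀ k ∈ A, ∀ k' ∈ A, |(k : ℝ) - k'| ≤ W) : A.Finite ∧ (A.ncard : ℝ) ≤ 2 * W + 1 := by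
  rcases A.eq_empty_or_nonempty with h0 | ⟨k0, hk0⟩
  · subst h0
    refine ⟨Set.finite_empty, ?_⟩
    rw [Set.ncard_empty]
    push_cast
    linarith
  · have hsub : A ⊆ ((Finset.Icc (k0 - ⌊W⌋) (k0 + ⌊W⌋) : Finset ℤ) : Set ℤ) := by
      intro k hk
      have h1 := h k hk k0 hk0
      have h2 : |k - k0| ≤ ⌊W⌋ := by
        rw [Int.le_floor]
        push_cast
        exact h1
      rw [abs_le] at h2
      rw [Finset.mem_coe, Finset.mem_Icc]
      constructor <;> linarith [h2.1, h2.2]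
    have hfin := (Finset.finite_toSet _).subset hsub
    refine ⟨hfin, ?_⟩
    have h3 : A.ncard ≤ (Finset.Icc (k0 - ⌊W⌋) (k0 + ⌊W⌋) : Finset ℤ).card := by
      rw [← Set.ncard_coe_finset]
      exact Set.ncard_le_ncard hsub (Finset.finite_toSet _)
    have hf0 : 0 ≤ ⌊W⌋ := Int.floor_nonneg.mpr hW
    rw [Int.card_Icc] at h3
    have h4 : (A.ncard : ℤ) ≤ 2 * ⌊W⌋ + 1 := by
      have : ((k0 + ⌊W⌋ + 1 - (k0 - ⌊W⌋)).toNat : ℤ) = 2 * ⌊W⌋ + 1 := by
        rw [Int.toNat_of_nonneg (by linarith)]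
        ring
      rw [← this]
      exact_mod_cast h3
    have h5 : (A.ncard : ℝ) ≤ 2 * (⌊W⌋ : ℝ) + 1 := by exact_mod_cast h4
    have h6 := Int.floor_le W
    linarith

theorem cntCA_diam {f : E → ℂ} {R W : ℝ}
    (h : ∀ x y : E, nsq x ≤ R → nsq y ≤ R → |(f x).re - (f y).re| ≤ W) :
    ∀ k ∈ cntCA f R, ∀ k' ∈ cntCA f R, |(k : ℝ) - k'| ≤ W + 2 := by
  rintro k ⟨x, hx, hk⟩ k' ⟨y, hy, hk'⟩
  have h1 := h x y hx hy
  rw [abs_le] at h1 ⊢
  rw [abs_lt] at hk hk'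
  constructor <;> linarith [h1.1, h1.2, hk.1, hk.2, hk'.1, hk'.2]

theorem cntCA_finite {f : E → ℂ} (hf : Hol f) {R : ℝ} (hR : R < 1) : (cntCA f R).Finite := by
  have hc : ContinuousOn f {z : E | nsq z ≤ R} := hf.1.continuousOn.mono (nsq_le_subset_ball hR)
  obtain ⟨K, hK⟩ := (isCompact_nsq_le R).exists_bound_of_continuousOn hc
  have h : ∀ x y : E, nsq x ≤ R → nsq y ≤ R → |(f x).re - (f y).re| ≤ 2 * |K| := by
    intro x y hx hy
    have h1 := hK x hx
    have h2 := hK y hy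
    have h3 := abs_re_le_norm (f x)
    have h4 := abs_re_le_norm (f y)
    have h5 := le_abs_self K
    have h6 := abs_sub (f x).re (f y).re
    linarith
  exact (cnt_set _ _ (by positivity) (cntCA_diam h)).1

/-- the translation to integers near the values -/
def cntct (L : Line G S) (t : ℤ) (y : L.Y) : L.Q × ℤ := (y.1, t - L.ℓ * y.2)

theorem cntct_inj (L : Line G S) {t t' : ℤ} (ht : t ∈ Finset.Ico 0 L.ℓ)
    (ht' : t' ∈ Finset.Ico 0 L.ℓ) {y y' : L.Y} (h : cntct L t y = cntct L t' y') : t = t' ∧ y = y' := by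
  have h1 : y.1 = y'.1 := (congrArg Prod.fst h :)
  have h2 : t - L.ℓ * y.2 = t' - L.ℓ * y'.2 := (congrArg Prod.snd h :)
  rw [Finset.mem_Ico] at ht ht'
  have h3 : L.ℓ ∣ t - t' := ⟨y.2 - y'.2, by linarith⟩
  have h4 : t - t' = 0 := by
    apply Int.eq_zero_of_abs_lt_dvd h3
    rw [abs_lt]
    constructor <;> linarith [ht.1, ht.2, ht'.1, ht'.2]
  have h5 : t = t' := by linarith
  refine ⟨h5, ?_⟩
  have h6 : L.ℓ * (y.2 - y'.2) = 0 := by linarith
  rcases mul_eq_zero.mp h6 with h7 | h7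
  · exact absurd h7 L.hℓ.ne'
  · exact Prod.ext h1 (by linarith)

theorem cntct_injective (L : Line G S) (t : ℤ) : Function.Injective (cntct L t) := by
  intro y y' h
  have h1 : y.1 = y'.1 := (congrArg Prod.fst h :)
  have h2 : t - L.ℓ * y.2 = t - L.ℓ * y'.2 := (congrArg Prod.snd h :)
  have h6 : L.ℓ * (y.2 - y'.2) = 0 := by linarith
  rcases mul_eq_zero.mp h6 with h7 | h7
  · exact absurd h7 L.hℓ.ne'
  · exact Prod.ext h1 (by linarith)

theorem mem_Reg_iff {L : Line G S} {F : L.Q → E → ℂ} {R : ℝ} {t : ℤ} {y : L.Y} :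
    y ∈ Reg F R t ↔ (cntct L t y).2 ∈ cntCA (F (cntct L t y).1) R := by
  unfold Reg cntCA cntct uu
  simp only [Set.mem_ofPred_eq]
  constructor
  · rintro ⟨x, hx, h⟩
    refine ⟨x, hx, ?_⟩
    push_cast
    rw [show (F y.1 x).re - (t - L.ℓ * y.2 : ℝ) = (F y.1 x).re + L.ℓ * y.2 - t by ring]
    exact h
  · rintro ⟨x, hx, h⟩
    refine ⟨x, hx, ?_⟩
    push_cast at h
    rw [show (F y.1 x).re + L.ℓ * y.2 - t = (F y.1 x).re - (t - L.ℓ * y.2 : ℝ) by ring]
    exact h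

theorem Reg_finite (hA : BAct G m) {L : Line G S} {F : L.Q → E → ℂ} (hF : HD m L F) {R : ℝ}
    (hR : R < 1) (t : ℤ) : (Reg F R t).Finite := by
  have hfin : {p : L.Q × ℤ | p.2 ∈ cntCA (F p.1) R}.Finite := by
    have : {p : L.Q × ℤ | p.2 ∈ cntCA (F p.1) R} ⊆
        ⋃ q : L.Q, (fun k : ℤ => (q, k)) '' cntCA (F q) R := by
      rintro ⟨q, k⟩ hk
      rw [Set.mem_iUnion]
      exact ⟨q, k, hk, rfl⟩
    exact (Set.finite_iUnion fun q => (cntCA_finite (hF.hol q) hR).image _).subset this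
  refine (hfin.preimage (cntct_injective L t).injOn).subset ?_
  intro y hy
  exact mem_Reg_iff.mp hy

theorem count (hA : BAct G m) (hcl : Subgroup.closure (S : Set G) = ⊤) (D : ℕ) {R : ℝ}
    (hR : R < 1) : ∃ M : ℕ, ∀ L : Line G S, L.Dens D → ∀ F : L.Q → E → ℂ, HD m L F →
      ∃ t : ℤ, (Reg F R t).ncard ≤ M := by
  classical
  obtain ⟨C, hC0, hC⟩ := grad_bound hA hcl hR
  refine ⟨⌈(13 + 8 * C) * D⌉₊, ?_⟩
  intro L hD F hF
  obtain ⟨B, hB0, hB, hBs⟩ := hC L F hF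
  -- the number of integers near the values
  have hcard : ∀ q, ((cntCA (F q) R).ncard : ℝ) ≤ 13 + 8 * B q := by
    intro q
    have h1 : ∀ x y : E, nsq x ≤ R → nsq y ≤ R → |(F q x).re - (F q y).re| ≤ 4 * √(B q) :=
      fun x y hx hy => osc_le (hF.hol q) hR (hB0 q) (hB q) hx hy
    have h2 := (cnt_set _ _ (by positivity) (cntCA_diam h1)).2
    have h3 : √(B q) ≤ 1 + B q := by
      rw [Real.sqrt_le_left (by linarith [hB0 q])]
      nlinarith [hB0 q]
    have h3' : √(B q) ≤ (1 + B q) / 2 := by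
      rw [Real.sqrt_le_left (by linarith [hB0 q])]
      nlinarith [hB0 q, sq_nonneg (1 - B q)]
    linarith [hB0 q]
  -- the sets as finsets
  let RF : ℤ → Finset L.Y := fun t => (Reg_finite hA hF hR t).toFinset
  let AF : L.Q → Finset ℤ := fun q => (cntCA_finite (hF.hol q) hR).toFinset
  have hRF : ∀ t, (Reg F R t).ncard = (RF t).card := fun t =>
    Set.ncard_eq_toFinset_card _ (Reg_finite hA hF hR t)
  have hAF : ∀ q, (cntCA (F q) R).ncard = (AF q).card := fun q =>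
    Set.ncard_eq_toFinset_card _ (cntCA_finite (hF.hol q) hR)
  have hsum : ∑ t ∈ Finset.Ico 0 L.ℓ, (RF t).card ≤ ∑ q, (AF q).card := by
    rw [← Finset.card_sigma, ← Finset.card_sigma]
    refine Finset.card_le_card_of_injOn
      (fun p => (⟨(cntct L p.1 p.2).1, (cntct L p.1 p.2).2⟩ : Σ _ : L.Q, ℤ)) ?_ ?_
    · rintro ⟨t, y⟩ hp
      rw [Finset.mem_coe, Finset.mem_sigma] at hp
      rw [Finset.mem_coe, Finset.mem_sigma]
      refine ⟨Finset.mem_univ _, ?_⟩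
      have h1 : y ∈ Reg F R t := (Set.Finite.mem_toFinset _).mp hp.2
      exact (Set.Finite.mem_toFinset _).mpr (mem_Reg_iff.mp h1)
    · rintro ⟨t, y⟩ hp ⟨t', y'⟩ hp' h
      rw [Finset.mem_coe, Finset.mem_sigma] at hp hp'
      have h1 : cntct L t y = cntct L t' y' := by
        simp only [Sigma.mk.injEq, heq_eq_eq] at h
        exact Prod.ext h.1 h.2
      obtain ⟨h2, h3⟩ := cntct_inj L hp.1 hp'.1 h1
      subst h2
      subst h3
      rfl
  by_contra hcon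
  push Not at hcon
  have h1 : ∀ t : ℤ, (13 + 8 * C) * D < ((RF t).card : ℝ) := by
    intro t
    have := hcon t
    rw [hRF t] at this
    exact Nat.lt_of_ceil_lt this
  have hℓ : (0 : ℝ) < L.ℓ := by exact_mod_cast L.hℓ
  have hcI : ((Finset.Ico (0 : ℤ) L.ℓ).card : ℝ) = L.ℓ := by
    rw [Int.card_Ico]
    have : ((L.ℓ - 0).toNat : ℤ) = L.ℓ := by
      rw [sub_zero]
      exact Int.toNat_of_nonneg L.hℓ.le
    exact_mod_cast this
  have h2 : (L.ℓ : ℝ) * ((13 + 8 * C) * D) < ∑ t ∈ Finset.Ico 0 L.ℓ, ((RF t).card : ℝ) := by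
    have hne : (Finset.Ico (0 : ℤ) L.ℓ).Nonempty := ⟨0, Finset.mem_Ico.mpr ⟨le_refl _, L.hℓ⟩⟩
    have := Finset.sum_lt_sum_of_nonempty hne (fun t _ => h1 t)
    rw [Finset.sum_const, nsmul_eq_mul, hcI] at this
    exact this
  have h3 : ∑ t ∈ Finset.Ico 0 L.ℓ, ((RF t).card : ℝ) ≤ ∑ q, ((AF q).card : ℝ) := by
    exact_mod_cast hsum
  have h4 : ∑ q, ((AF q).card : ℝ) ≤ ∑ q, (13 + 8 * B q) := by
    refine Finset.sum_le_sum fun q _ => ?_
    rw [← hAF q]
    exact hcard q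
  have h5 : ∑ q : L.Q, (13 + 8 * B q) ≤ (13 + 8 * C) * Fintype.card L.Q := by
    rw [Finset.sum_add_distrib, ← Finset.mul_sum, Finset.sum_const, nsmul_eq_mul,
      Finset.card_univ]
    linarith
  have h6 : (Fintype.card L.Q : ℝ) ≤ D * L.ℓ := by
    have h : (Fintype.card L.Q : ℤ) ≤ D * L.ℓ := hD
    exact_mod_cast h
  have h7 : (13 + 8 * C) * (Fintype.card L.Q : ℝ) ≤ (13 + 8 * C) * (D * L.ℓ) :=
    mul_le_mul_of_nonneg_left h6 (by linarith)
  linarith

end Pool.Agent.H89.SG
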