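import Pool.Agent.H89.SG.W1

/-!
# Ident: identity theorem and maximum principle on the ball

`ident`: let `U` be open, nonempty, contained in the ball, `x₀ ∈ U`, `z` in the ball. The function
`g λ = F (x₀ + λ (z - x₀))` is holomorphic on the open convex (hence preconnected) set
`{λ : ℂ | x₀ + λ (z - x₀) ∈ ball}` which contains `0` and `1`, and vanishes near `0`; so `g 1 = 0`
(`DifferentiableOn.analyticOnNhd`, `AnalyticOnNhd.eqOn_zero_of_preconnected_of_eventuallyEq_zero`).
`const_of_dd`: if `dd j F = 0` on the ball then `F` is constant (convexity).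
`const_of_re`: if `Re F` is constant on the ball then `dd j F = 0` (`dd_re`).
`const_of_max`: if `Re F` attains its maximum over the ball at a point of the ball then `F` is
constant: `exp (F z)` has maximal norm there
(`Complex.eqOn_of_isPreconnected_of_isMaxOn_norm`), so `‖exp F‖ = e^{Re F}` is constant.
-/

set_option autoImplicit false

namespace Pool.Agent.H89.SG

open Complex MeasureTheory
open scoped ContDiff ComplexConjugate

variable {F : E → ℂ}

theorem ident (hF : Hol F) {U : Set E} (hU : IsOpen U) (hUB : U ⊆ ball) (hne : U.Nonempty)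
    (h : ∀ z ∈ U, F z = 0) : ∀ z ∈ ball, F z = 0 := by
  obtain ⟨x₀, hx₀⟩ := hne
  intro z hz
  let γ : ℂ → E := fun t => x₀ + t • (z - x₀)
  have hγd : Differentiable ℂ γ :=
    (differentiable_const x₀).add
      (show Differentiable ℂ (fun t : ℂ => t • (z - x₀)) from
        (differentiable_id (𝕜 := ℂ) (E := ℂ)).smul_const (z - x₀))
  have hγc : Continuous γ := hγd.continuous
  have hTo : IsOpen (γ ⁻¹' ball) := isOpen_ball.preimage hγc
  have hTc : Convex ℝ (γ ⁻¹' ball) := by
    intro a ha b hb s t hs ht hst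
    have h1 : γ (s • a + t • b) = s • γ a + t • γ b := by
      change x₀ + (s • a + t • b) • (z - x₀)
        = s • (x₀ + a • (z - x₀)) + t • (x₀ + b • (z - x₀))
      have h2 : x₀ = s • x₀ + t • x₀ := by rw [← add_smul, hst, one_smul]
      rw [smul_add, smul_add, add_smul, smul_assoc, smul_assoc]
      nth_rewrite 1 [h2]
      abel
    change γ (s • a + t • b) ∈ ball
    rw [h1]
    exact convex_ball ha hb hs ht hst
  have hg : DifferentiableOn ℂ (fun t => F (γ t)) (γ ⁻¹' ball) :=
    hF.2.comp hγd.differentiableOn (fun t ht => ht)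
  have hγ0 : γ 0 = x₀ := by simp [γ]
  have hγ1 : γ 1 = z := by simp [γ]
  have h0 : (0 : ℂ) ∈ γ ⁻¹' ball := by
    change γ 0 ∈ ball
    rw [hγ0]; exact hUB hx₀
  have h1 : (1 : ℂ) ∈ γ ⁻¹' ball := by
    change γ 1 ∈ ball
    rw [hγ1]; exact hz
  have hev : (fun t => F (γ t)) =ᶠ[nhds 0] 0 := by
    have : γ ⁻¹' U ∈ nhds (0 : ℂ) := (hU.preimage hγc).mem_nhds (by
      change γ 0 ∈ U
      rw [hγ0]; exact hx₀)
    filter_upwards [this] with t ht
    exact h _ ht
  have := (hg.analyticOnNhd hTo).eqOn_zero_of_preconnected_of_eventuallyEq_zero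
    hTc.isPreconnected h0 hev h1
  simpa [hγ1] using this

theorem const_of_dd (hF : Hol F) (h : ∀ z ∈ ball, ∀ j, dd j F z = 0) :
    ∀ z ∈ ball, F z = F 0 := by
  intro z hz
  have hd : DifferentiableOn ℝ F ball := hF.1.differentiableOn (by norm_num)
  refine isOpen_ball.is_const_of_fderiv_eq_zero isPreconnected_ball hd ?_ hz zero_mem_ball
  intro w hw
  ext v
  all_goals
    simp only [ContinuousLinearMap.coe_comp, Function.comp_apply, Pi.zero_apply,
      zero_apply, ContinuousLinearMap.zero_comp]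
    rw [hF.fderiv_eq hw, h w hw 0, h w hw 1]
    simp

theorem const_of_re (hF : Hol F) {c : ℝ} (h : ∀ z ∈ ball, (F z).re = c) :
    ∀ z ∈ ball, F z = F 0 := by
  apply const_of_dd hF
  intro z hz j
  have h1 := dd_re (j := j) hF hz
  have h2 : (fun w => (((F w).re : ℝ) : ℂ)) =ᶠ[nhds z] fun _ => (c : ℂ) := by
    filter_upwards [isOpen_ball.mem_nhds hz] with w hw
    rw [h w hw]
  rw [dd_congr h2, dd_const] at h1
  have h3 : dd j F z = 2 * (dd j F z / 2) := by ring
  rw [h3, ← h1, mul_zero]

theorem const_of_max (hF : Hol F) {x : E} (hx : x ∈ ball) (h : ∀ z ∈ ball, (F z).re ≤ (F x).re) :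
    ∀ z ∈ ball, F z = F 0 := by
  have hd : DifferentiableOn ℂ (fun w => Complex.exp (F w)) ball := hF.2.cexp
  have hm : IsMaxOn (norm ∘ fun w => Complex.exp (F w)) ball x := by
    intro z hz
    change ‖Complex.exp (F z)‖ ≤ ‖Complex.exp (F x)‖
    rw [Complex.norm_exp, Complex.norm_exp]
    exact Real.exp_le_exp.mpr (h z hz)
  have heq := Complex.eqOn_of_isPreconnected_of_isMaxOn_norm isPreconnected_ball isOpen_ball hd hx hm
  apply const_of_re hF (c := (F x).re)
  intro z hz
  have h1 : Complex.exp (F z) = Complex.exp (F x) := heq hz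
  have h2 : ‖Complex.exp (F z)‖ = ‖Complex.exp (F x)‖ := by rw [h1]
  rw [Complex.norm_exp, Complex.norm_exp] at h2
  exact Real.exp_injective h2

/-- an additive relation for the real parts gives one for the functions -/
theorem add_const_of_re {F' : E → ℂ} (hF : Hol F) (hF' : Hol F') {c : ℝ}
    (h : ∀ z ∈ ball, (F' z).re = (F z).re + c) :
    ∃ b : ℂ, b.re = c ∧ ∀ z ∈ ball, F' z = F z + b := by
  have hs : Hol (fun w => F' w - F w) := hF'.sub hF
  have h1 : ∀ z ∈ ball, ((fun w => F' w - F w) z).re = c := by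
    intro z hz
    change (F' z - F z).re = c
    rw [Complex.sub_re, h z hz]; ring
  refine ⟨F' 0 - F 0, h1 0 zero_mem_ball, ?_⟩
  intro z hz
  have h2 : F' z - F z = F' 0 - F 0 := const_of_re hs h1 z hz
  rw [← h2]; ring

end Pool.Agent.H89.SG
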