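import Pool.Agent.H89.SG.LHod
import Pool.Agent.H89.SG.Ident

/-!
# Comm: the commutator subgroup of a cocompact group is not trivial

Suppose that any two elements of `K` commute. By `add_const_of_re` for each `g : K` there is a
complex `c g` with `F ∘ g = F + c g` on the ball. `K` is not trivial: otherwise the ball would be
`{nsq ≤ r}` with `r < 1`. Fix `a ≠ 1` and `α ∈ ℂ`, `α ≠ 0`, `Re (α c_a) = 0`. For `b : K`, `b ≠ 1`,
there are `k, l ≠ 0` with `a^k = b^l`, so `k c_a = l c_b` (`c` is additive on powers) and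
`Re (α c_b) = 0`. So `W = Re (α F)` is invariant under `K`, hence it attains its maximum over the
ball (its maximum on the compact set `{nsq ≤ r}`, cover), and `α F` is constant (`const_of_max`),
which contradicts `hnc`.
-/

set_option autoImplicit false

namespace Pool.Agent.H89.SG

open Complex MeasureTheory
open scoped ContDiff ComplexConjugate

theorem BAct.nontrivial {K : Type} [Group K] {m : K → E → E} (hA : BAct K m) :
    ∃ g : K, g ≠ 1 := by
  by_contra hcon
  have hcon : ∀ g : K, g = 1 := fun g => by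
    by_contra hg
    exact hcon ⟨g, hg⟩
  obtain ⟨r, hr, hcov⟩ := hA.cc
  have hall : ∀ z ∈ ball, nsq z ≤ r := by
    intro z hz
    obtain ⟨g, hg⟩ := hcov z hz
    rw [hcon g, hA.one z hz] at hg
    exact hg
  have hr0 : 0 ≤ r := le_trans (nsq_nonneg 0) (hall 0 zero_mem_ball)
  have ht0 : 0 ≤ (r + 1) / 2 := by linarith
  have hn : nsq (((√((r + 1) / 2) : ℝ) : ℂ), (0 : ℂ)) = (r + 1) / 2 := by
    simp only [nsq, normSq_ofReal, map_zero, add_zero]
    exact Real.mul_self_sqrt ht0
  have h1 : (((√((r + 1) / 2) : ℝ) : ℂ), (0 : ℂ)) ∈ ball := by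
    change nsq _ < 1
    rw [hn]
    linarith
  have h2 := hall _ h1
  rw [hn] at h2
  linarith

/-- a function constant on the ball has vanishing derivatives -/
theorem comm_dd_zero {F : E → ℂ} {c : ℂ} (h : ∀ z ∈ ball, F z = c) {z : E} (hz : z ∈ ball)
    (j : Fin 2) : dd j F z = 0 := by
  have h1 : F =ᶠ[nhds z] fun _ => c := by
    filter_upwards [isOpen_ball.mem_nhds hz] with w hw
    exact h w hw
  rw [dd_congr h1, dd_const]

/-- there is a rotation which makes a complex number imaginary -/
theorem comm_exists_rot (c : ℂ) : ∃ α : ℂ, α ≠ 0 ∧ (α * c).re = 0 := by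
  by_cases hc : c = 0
  · exact ⟨1, one_ne_zero, by rw [hc, mul_zero, zero_re]⟩
  · refine ⟨I / c, div_ne_zero I_ne_zero hc, ?_⟩
    rw [div_mul_cancel₀ _ hc, I_re]

theorem exists_noncomm {K : Type} [Group K] {m : K → E → E} (hA : BAct K m) (hcp : CommPow K)
    {F : E → ℂ} (hF : Hol F) (hnc : ∃ z ∈ ball, ∃ j, dd j F z ≠ 0)
    (hper : ∀ g : K, ∃ c : ℝ, ∀ z ∈ ball, (F (m g z)).re = (F z).re + c) :
    ∃ a b : K, a * b ≠ b * a := by
  by_contra hcon
  have hcomm : ∀ a b : K, a * b = b * a := fun a b => by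
    by_contra h
    exact hcon ⟨a, b, h⟩
  have hex : ∀ g : K, ∃ c : ℂ, ∀ z ∈ ball, F (m g z) = F z + c := by
    intro g
    obtain ⟨c, hc⟩ := hper g
    obtain ⟨b, -, hb⟩ := add_const_of_re hF (hF.comp (hA.aut g)) hc
    exact ⟨b, hb⟩
  choose c hc using hex
  have hmul : ∀ g h : K, c (g * h) = c g + c h := by
    intro g h
    have h0 := hc (g * h) 0 zero_mem_ball
    rw [hA.mul g h 0 zero_mem_ball, hc g _ (hA.mem h zero_mem_ball), hc h 0 zero_mem_ball] at h0
    linear_combination -h0
  have hone : c 1 = 0 := by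
    have h0 := hmul 1 1
    rw [mul_one] at h0
    linear_combination -h0
  let φ : K →* Multiplicative ℂ :=
    { toFun := fun g => Multiplicative.ofAdd (c g)
      map_one' := by rw [hone]; rfl
      map_mul' := fun g h => by rw [hmul]; rfl }
  have hpow : ∀ (g : K) (k : ℤ), c (g ^ k) = k * c g := by
    intro g k
    have h0 : φ (g ^ k) = φ g ^ k := map_zpow φ g k
    have h1 : c (g ^ k) = k • c g := by
      have h2 := congrArg Multiplicative.toAdd h0
      rw [toAdd_zpow] at h2
      exact h2
    rw [h1, zsmul_eq_mul]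
  obtain ⟨a, ha⟩ := hA.nontrivial
  obtain ⟨α, hα, hαa⟩ := comm_exists_rot (c a)
  have hall : ∀ b : K, (α * c b).re = 0 := by
    intro b
    by_cases hb : b = 1
    · rw [hb, hone, mul_zero, zero_re]
    · obtain ⟨k, l, hk, hl, hkl⟩ := hcp a b ha hb (hcomm a b)
      have h0 : (k : ℂ) * c a = l * c b := by
        rw [← hpow, ← hpow, hkl]
      have h1 : (l : ℝ) * (α * c b).re = k * (α * c a).re := by
        have h2 : (((l : ℝ) : ℂ) * (α * c b)) = (((k : ℝ) : ℂ) * (α * c a)) := by
          push_cast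
          linear_combination -α * h0
        have h3 := congrArg Complex.re h2
        rw [re_ofReal_mul, re_ofReal_mul] at h3
        exact h3
      rw [hαa, mul_zero] at h1
      have hl' : (l : ℝ) ≠ 0 := by exact_mod_cast hl
      exact (mul_eq_zero.1 h1).resolve_left hl'
  have hHol : Hol (fun w => α * F w) := (Hol.const α).mul hF
  have hinv : ∀ g : K, ∀ z ∈ ball, (α * F (m g z)).re = (α * F z).re := by
    intro g z hz
    rw [hc g z hz, mul_add, add_re, hall g, add_zero]
  obtain ⟨r, hr, hcov⟩ := hA.cc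
  have hne : {z : E | nsq z ≤ r}.Nonempty := by
    obtain ⟨g, hg⟩ := hcov 0 zero_mem_ball
    exact ⟨_, hg⟩
  have hcont : ContinuousOn (fun z => (α * F z).re) {z : E | nsq z ≤ r} := by
    have h1 : ContinuousOn (fun w => α * F w) ball := hHol.1.continuousOn
    exact (Complex.continuous_re.comp_continuousOn h1).mono (nsq_le_subset_ball hr)
  obtain ⟨x, hx, hmax⟩ := (isCompact_nsq_le r).exists_isMaxOn hne hcont
  have hxb : x ∈ ball := nsq_le_subset_ball hr hx
  have hle : ∀ z ∈ ball, ((fun w => α * F w) z).re ≤ ((fun w => α * F w) x).re := by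
    intro z hz
    obtain ⟨g, hg⟩ := hcov z hz
    have h1 := hmax hg
    have h2 : (α * F (m g z)).re ≤ (α * F x).re := h1
    rw [hinv g z hz] at h2
    exact h2
  have hconst := const_of_max hHol hxb hle
  have hconst2 : ∀ z ∈ ball, F z = F 0 := by
    intro z hz
    exact mul_left_cancel₀ hα (hconst z hz)
  obtain ⟨z, hz, j, hj⟩ := hnc
  exact hj (comm_dd_zero hconst2 hz j)

end Pool.Agent.H89.SG
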