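import Pool.Agent.H89.SG.Aut1

/-!
# CpA: negative vectors, reverse Cauchy-Schwarz, doubling of the displacement

`fm u v = u 0 conj (v 0) + u 1 conj (v 1) - u 2 conj (v 2)`, the form of signature `(2,1)`.
* `fm_mulVec`: from `UM M`.
* `semi`: if `fm v v = -1` and `fm x v = 0` then `0 ≤ Re fm x x`: `x 2 conj (v 2) = x 0 conj (v 0) +
  x 1 conj (v 1)`, Cauchy-Schwarz, `|v 2|² = 1 + |v 0|² + |v 1|²`. Cauchy-Schwarz for the
  semidefinite form on the orthogonal space of `v` (by the discriminant of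
  `t ↦ fm (x + t c y) (x + t c y)`).
* `tri`: `u' = u + fm u v • v`, `w' = w + fm w v • v` are orthogonal to `v`,
  `fm u' u' = |fm u v|² - 1`, `fm u w = fm u' w' - fm u v conj (fm w v)`; with `α = |fm u v|`,
  `β = |fm v w|` this gives `|fm u w| ≤ α β + √((α² - 1) (β² - 1))`; we need it for `α = β`:
  `|fm u w| ≤ 2 α² - 1`. `cs_rev`: `fm u' u' ≥ 0`.
* `doubling`: `α = |fm (M v) v| ≥ 1`, `γ = |fm (M² v) v|`, `1 ≤ γ ≤ 2 α² - 1` (`tri` for `M² v, M v, v`,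
  `fm (M² v) (M v) = fm (M v) v`). Choose `c`, `|c| = 1`, with `fm (c M v) v = -α`; `p = v + c M v`,
  `fm p p = -2 - 2 α`, `fm (c M p) p = -α - 1 + c² fm (M² v) v - α`. `v' = p / √(2 + 2α)`:
  `|fm (M v') v'| ≤ (1 + 2 α + γ) / (2 + 2 α)`. With `t = √((γ + 1)/2)`, `1 ≤ t ≤ α`, this is
  `(α + t²)/(1 + α) ≤ t`, because `(t - 1) (t - α) ≤ 0`. So `2 |fm (M v') v'|² ≤ 2 t² = γ + 1`.
-/

set_option autoImplicit false

namespace Pool.Agent.H89.SG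

open Complex MeasureTheory Matrix
open scoped ContDiff ComplexConjugate

/-- the form of signature `(2,1)` on vectors -/
noncomputable def fm (u v : Fin 3 → ℂ) : ℂ :=
  u 0 * conj (v 0) + u 1 * conj (v 1) - u 2 * conj (v 2)

variable {M : Matrix (Fin 3) (Fin 3) ℂ}

theorem fm_mulVec (hM : UM M) (u v : Fin 3 → ℂ) : fm (M *ᵥ u) (M *ᵥ v) = fm u v := by
  have h00 := hM.a1scal 0 0
  have h01 := hM.a1scal 0 1
  have h02 := hM.a1scal 0 2
  have h10 := hM.a1scal 1 0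
  have h11 := hM.a1scal 1 1
  have h12 := hM.a1scal 1 2
  have h20 := hM.a1scal 2 0
  have h21 := hM.a1scal 2 1
  have h22 := hM.a1scal 2 2
  simp only [Jm, Matrix.diagonal, Matrix.of_apply] at h00 h01 h02 h10 h11 h12 h20 h21 h22
  simp at h00 h01 h02 h10 h11 h12 h20 h21 h22
  unfold fm
  simp only [Matrix.mulVec, dotProduct, Fin.sum_univ_three, map_add, map_mul]
  linear_combination (u 0 * conj (v 0)) * h00 + (u 0 * conj (v 1)) * h10 +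
    (u 0 * conj (v 2)) * h20 + (u 1 * conj (v 0)) * h01 + (u 1 * conj (v 1)) * h11 +
    (u 1 * conj (v 2)) * h21 + (u 2 * conj (v 0)) * h02 + (u 2 * conj (v 1)) * h12 +
    (u 2 * conj (v 2)) * h22

private theorem cpa_conj (u v : Fin 3 → ℂ) : conj (fm u v) = fm v u := by
  unfold fm
  simp only [map_add, map_sub, map_mul, Complex.conj_conj]
  ring

private theorem cpa_self {u : Fin 3 → ℂ} (h : fm u u = -1) :
    ‖u 2‖ ^ 2 = 1 + ‖u 0‖ ^ 2 + ‖u 1‖ ^ 2 := by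
  unfold fm at h
  rw [Complex.mul_conj, Complex.mul_conj, Complex.mul_conj] at h
  have h2 : normSq (u 0) + normSq (u 1) - normSq (u 2) = -1 := by exact_mod_cast h
  rw [Complex.normSq_eq_norm_sq, Complex.normSq_eq_norm_sq, Complex.normSq_eq_norm_sq] at h2
  linarith

private theorem cpa_add_left (u v w : Fin 3 → ℂ) : fm (u + v) w = fm u w + fm v w := by
  unfold fm
  simp only [Pi.add_apply]
  ring

private theorem cpa_add_right (u v w : Fin 3 → ℂ) : fm w (u + v) = fm w u + fm w v := by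
  unfold fm
  simp only [Pi.add_apply, map_add]
  ring

private theorem cpa_smul_left (c : ℂ) (u v : Fin 3 → ℂ) : fm (c • u) v = c * fm u v := by
  unfold fm
  simp only [Pi.smul_apply, smul_eq_mul]
  ring

private theorem cpa_smul_right (c : ℂ) (u v : Fin 3 → ℂ) : fm u (c • v) = conj c * fm u v := by
  unfold fm
  simp only [Pi.smul_apply, smul_eq_mul, map_mul]
  ring

private theorem cpa_det (u v w : Fin 3 → ℂ) :
    fm u u * (fm v v * fm w w - fm v w * fm w v) - fm u v * (fm v u * fm w w - fm v w * fm w u)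
      + fm u w * (fm v u * fm w v - fm v v * fm w u) =
    -((u 0 * (v 1 * w 2 - v 2 * w 1) - u 1 * (v 0 * w 2 - v 2 * w 0) +
        u 2 * (v 0 * w 1 - v 1 * w 0)) *
      conj (u 0 * (v 1 * w 2 - v 2 * w 1) - u 1 * (v 0 * w 2 - v 2 * w 0) +
        u 2 * (v 0 * w 1 - v 1 * w 0))) := by
  unfold fm
  simp only [map_add, map_sub, map_mul]
  ring

theorem cs_rev {u v : Fin 3 → ℂ} (hu : fm u u = -1) (hv : fm v v = -1) : 1 ≤ ‖fm u v‖ := by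
  have h1 := cpa_self hu
  have h2 := cpa_self hv
  have h3 : 1 + ‖u 0‖ * ‖v 0‖ + ‖u 1‖ * ‖v 1‖ ≤ ‖u 2‖ * ‖v 2‖ := by
    refine le_of_sq_le_sq ?_ (by positivity)
    rw [mul_pow, h1, h2]
    nlinarith [sq_nonneg (‖u 0‖ - ‖v 0‖), sq_nonneg (‖u 1‖ - ‖v 1‖),
      sq_nonneg (‖u 0‖ * ‖v 1‖ - ‖u 1‖ * ‖v 0‖)]
  have h4 : ‖u 0 * conj (v 0) + u 1 * conj (v 1)‖ ≤ ‖u 0‖ * ‖v 0‖ + ‖u 1‖ * ‖v 1‖ := by
    refine (norm_add_le _ _).trans ?_
    simp only [norm_mul, RCLike.norm_conj, le_refl]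
  have h5 : ‖u 2 * conj (v 2)‖ = ‖u 2‖ * ‖v 2‖ := by
    simp only [norm_mul, RCLike.norm_conj]
  have h6 := norm_sub_norm_le (u 2 * conj (v 2)) (u 0 * conj (v 0) + u 1 * conj (v 1))
  rw [norm_sub_rev] at h6
  unfold fm
  linarith

theorem tri {u v w : Fin 3 → ℂ} (hu : fm u u = -1) (hv : fm v v = -1) (hw : fm w w = -1)
    (h : ‖fm u v‖ = ‖fm v w‖) : ‖fm u w‖ ≤ 2 * ‖fm u v‖ ^ 2 - 1 := by
  have h1 := cs_rev hu hv
  have hd := cpa_det u v w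
  obtain ⟨D, hD⟩ : ∃ D : ℂ, D = u 0 * (v 1 * w 2 - v 2 * w 1) - u 1 * (v 0 * w 2 - v 2 * w 0) +
        u 2 * (v 0 * w 1 - v 1 * w 0) := ⟨_, rfl⟩
  rw [← hD, hu, hv, hw, ← cpa_conj u v, ← cpa_conj v w, ← cpa_conj u w] at hd
  obtain ⟨a, ha⟩ : ∃ a : ℂ, a = fm u v := ⟨_, rfl⟩
  obtain ⟨b, hb⟩ : ∃ b : ℂ, b = fm u w := ⟨_, rfl⟩
  obtain ⟨c, hc⟩ : ∃ c : ℂ, c = fm v w := ⟨_, rfl⟩
  rw [← ha, ← hb, ← hc] at hd
  rw [← ha, ← hc] at h
  rw [← ha] at h1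
  rw [← ha, ← hb]
  have e1 : a * conj a = ((‖a‖ ^ 2 : ℝ) : ℂ) := by
    rw [Complex.mul_conj, Complex.normSq_eq_norm_sq]
  have e2 : b * conj b = ((‖b‖ ^ 2 : ℝ) : ℂ) := by
    rw [Complex.mul_conj, Complex.normSq_eq_norm_sq]
  have e3 : c * conj c = ((‖c‖ ^ 2 : ℝ) : ℂ) := by
    rw [Complex.mul_conj, Complex.normSq_eq_norm_sq]
  have e4 : D * conj D = ((‖D‖ ^ 2 : ℝ) : ℂ) := by
    rw [Complex.mul_conj, Complex.normSq_eq_norm_sq]
  have e5 : a * c * conj b + conj (a * c * conj b) = ((2 * (a * c * conj b).re : ℝ) : ℂ) := by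
    rw [Complex.add_conj]
  have e6 : ((‖a‖ ^ 2 + ‖b‖ ^ 2 + ‖c‖ ^ 2 + 2 * (a * c * conj b).re - 1 : ℝ) : ℂ) =
      ((-‖D‖ ^ 2 : ℝ) : ℂ) := by
    push_cast
    push_cast at e1 e2 e3 e4 e5
    rw [← e1, ← e2, ← e3, ← e4, ← e5]
    simp only [map_mul, Complex.conj_conj]
    linear_combination hd
  have e7 : ‖a‖ ^ 2 + ‖b‖ ^ 2 + ‖c‖ ^ 2 + 2 * (a * c * conj b).re - 1 = -‖D‖ ^ 2 := by
    exact_mod_cast e6
  have e8 : -(‖a‖ * ‖c‖ * ‖b‖) ≤ (a * c * conj b).re := by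
    have := Complex.abs_re_le_norm (a * c * conj b)
    rw [norm_mul, norm_mul, RCLike.norm_conj] at this
    exact (abs_le.1 this).1
  rw [← h] at e7 e8
  have e9 : (‖b‖ - 1) * (‖b‖ - (2 * ‖a‖ ^ 2 - 1)) ≤ 0 := by
    nlinarith [sq_nonneg ‖D‖]
  by_contra hcon
  push Not at hcon
  have e10 : 1 ≤ ‖a‖ ^ 2 := by nlinarith
  have e11 : 0 < ‖b‖ - 1 := by linarith
  have e12 : 0 < ‖b‖ - (2 * ‖a‖ ^ 2 - 1) := by linarith
  exact absurd e9 (not_le.2 (mul_pos e11 e12))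

theorem doubling (hM : UM M) {v : Fin 3 → ℂ} (hv : fm v v = -1) :
    ∃ v' : Fin 3 → ℂ, fm v' v' = -1 ∧
      2 * ‖fm (M *ᵥ v') v'‖ ^ 2 ≤ ‖fm ((M * M) *ᵥ v) v‖ + 1 := by
  have hMv : fm (M *ᵥ v) (M *ᵥ v) = -1 := by rw [fm_mulVec hM, hv]
  have hMMv : fm ((M * M) *ᵥ v) ((M * M) *ᵥ v) = -1 := by rw [fm_mulVec (hM.mul hM), hv]
  have hmm : (M * M) *ᵥ v = M *ᵥ (M *ᵥ v) := by rw [Matrix.mulVec_mulVec]
  have hs : fm ((M * M) *ᵥ v) (M *ᵥ v) = fm (M *ᵥ v) v := by rw [hmm, fm_mulVec hM]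
  have hα : 1 ≤ ‖fm (M *ᵥ v) v‖ := cs_rev hMv hv
  have hγ : 1 ≤ ‖fm ((M * M) *ᵥ v) v‖ := cs_rev hMMv hv
  have htri := tri hMMv hMv hv (by rw [hs])
  rw [hs] at htri
  obtain ⟨z, hz⟩ : ∃ z : ℂ, z = fm (M *ᵥ v) v := ⟨_, rfl⟩
  obtain ⟨g, hg⟩ : ∃ g : ℂ, g = fm ((M * M) *ᵥ v) v := ⟨_, rfl⟩
  obtain ⟨α, hαe⟩ : ∃ α : ℝ, α = ‖z‖ := ⟨_, rfl⟩
  obtain ⟨γ, hγe⟩ : ∃ γ : ℝ, γ = ‖g‖ := ⟨_, rfl⟩
  rw [← hz, ← hαe] at hα htri
  rw [← hg, ← hγe] at hγ htri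
  have hα0 : 0 < α := by linarith
  have hαC : (α : ℂ) ≠ 0 := by exact_mod_cast hα0.ne'
  have hzz : z * conj z = (α : ℂ) ^ 2 := by
    rw [Complex.mul_conj, Complex.normSq_eq_norm_sq, ← hαe]
    push_cast
    rfl
  obtain ⟨c, hc⟩ : ∃ c : ℂ, c = -(conj z) / α := ⟨_, rfl⟩
  have hcz : c * z = -α := by
    rw [hc]
    field_simp
    linear_combination -hzz
  have hcc : c * conj c = 1 := by
    rw [hc]
    simp only [map_div₀, map_neg, Complex.conj_conj, Complex.conj_ofReal]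
    field_simp
    linear_combination hzz
  have hcn : ‖c‖ = 1 := by
    have h := hcc
    rw [Complex.mul_conj, Complex.normSq_eq_norm_sq] at h
    have h2 : ‖c‖ ^ 2 = 1 := by exact_mod_cast h
    have h3 := norm_nonneg c
    nlinarith
  have hczb : conj c * conj z = -α := by
    rw [← map_mul, hcz, map_neg, Complex.conj_ofReal]
  have hpp : fm (v + c • (M *ᵥ v)) (v + c • (M *ᵥ v)) = -(2 + 2 * α) := by
    rw [cpa_add_left, cpa_add_right, cpa_add_right, cpa_smul_left, cpa_smul_left, cpa_smul_right,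
      cpa_smul_right, hv, hMv, ← cpa_conj (M *ᵥ v) v, ← hz]
    linear_combination hczb + hcz - hcc
  have hMp : fm (M *ᵥ (v + c • (M *ᵥ v))) (v + c • (M *ᵥ v)) = 2 * z - conj c + c * g := by
    rw [Matrix.mulVec_add, Matrix.mulVec_smul, ← hmm, cpa_add_left, cpa_add_right, cpa_add_right,
      cpa_smul_left, cpa_smul_left, cpa_smul_right, cpa_smul_right, hMv, hs, ← hz, ← hg]
    linear_combination z * hcc
  have h2α : 0 < 2 + 2 * α := by linarith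
  obtain ⟨r, hr⟩ : ∃ r : ℝ, r = (Real.sqrt (2 + 2 * α))⁻¹ := ⟨_, rfl⟩
  have hrr : r * r = (2 + 2 * α)⁻¹ := by
    rw [hr, ← mul_inv, Real.mul_self_sqrt h2α.le]
  have hrrC : (r : ℂ) * r = (2 + 2 * (α : ℂ))⁻¹ := by
    have : ((r * r : ℝ) : ℂ) = (((2 + 2 * α)⁻¹ : ℝ) : ℂ) := by rw [hrr]
    push_cast at this
    exact this
  have h2αC : (2 + 2 * (α : ℂ)) ≠ 0 := by exact_mod_cast h2α.ne'
  refine ⟨(r : ℂ) • (v + c • (M *ᵥ v)), ?_, ?_⟩
  · rw [cpa_smul_left, cpa_smul_right, hpp, Complex.conj_ofReal, ← mul_assoc, hrrC, mul_neg,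
      inv_mul_cancel₀ h2αC]
  · have hval : ‖fm (M *ᵥ ((r : ℂ) • (v + c • (M *ᵥ v)))) ((r : ℂ) • (v + c • (M *ᵥ v)))‖ =
        (2 + 2 * α)⁻¹ * ‖2 * z - conj c + c * g‖ := by
      rw [Matrix.mulVec_smul, cpa_smul_left, cpa_smul_right, hMp, Complex.conj_ofReal, ← mul_assoc,
        norm_mul, ← Complex.ofReal_mul, hrr, Complex.norm_real, Real.norm_eq_abs,
        abs_of_nonneg (inv_nonneg.2 h2α.le)]
    have hle : ‖2 * z - conj c + c * g‖ ≤ 2 * α + 1 + γ := by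
      refine (norm_add_le _ _).trans ?_
      refine (add_le_add (norm_sub_le _ _) le_rfl).trans ?_
      rw [norm_mul, norm_mul, RCLike.norm_conj, hcn, ← hαe, ← hγe]
      simp
    obtain ⟨t, ht⟩ : ∃ t : ℝ, t = Real.sqrt ((γ + 1) / 2) := ⟨_, rfl⟩
    have ht0 : 0 ≤ t := by rw [ht]; exact Real.sqrt_nonneg _
    have htt : t ^ 2 = (γ + 1) / 2 := by
      rw [ht, Real.sq_sqrt (by linarith)]
    have ht1 : 1 ≤ t := by nlinarith
    have htα : t ≤ α := by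
      refine le_of_sq_le_sq ?_ hα0.le
      rw [htt]
      linarith
    have hfin : ‖fm (M *ᵥ ((r : ℂ) • (v + c • (M *ᵥ v)))) ((r : ℂ) • (v + c • (M *ᵥ v)))‖ ≤ t := by
      rw [hval]
      calc (2 + 2 * α)⁻¹ * ‖2 * z - conj c + c * g‖ ≤ (2 + 2 * α)⁻¹ * (2 * α + 1 + γ) :=
            mul_le_mul_of_nonneg_left hle (inv_nonneg.2 h2α.le)
        _ ≤ t := by
            rw [inv_mul_le_iff₀ h2α]
            nlinarith [mul_nonneg (sub_nonneg.2 ht1) (sub_nonneg.2 htα)]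
    have h0 := norm_nonneg
      (fm (M *ᵥ ((r : ℂ) • (v + c • (M *ᵥ v)))) ((r : ℂ) • (v + c • (M *ᵥ v))))
    rw [← hg, ← hγe]
    nlinarith [pow_le_pow_left₀ h0 hfin 2]

end Pool.Agent.H89.SG
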