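import Pool.Agent.H89.SG.CpA

/-!
# CpB: elements with positive displacement have an eigenvalue of modulus greater than `1`

Let `δ = (η + η⁻¹)/2`, `η > 1`, and `δ ≤ |fm (M v) v|` for all `v` with `fm v v = -1`. By induction
on `k` and `doubling` (for `M^(2^k)`, `UM.mul`): `|fm (M^(2^k) v) v| ≥ (η^(2^k) + η^(-2^k))/2` for all
such `v`. For `v = ![0, 0, 1]`: `|(M^n) 2 2| ≥ η^n / 2` for `n = 2^k`. The operator norm (any norm
which makes the matrices a complete normed algebra, e.g. `Matrix.linftyOpNormedAlgebra`, or work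
in `(Fin 3 → ℂ) →L[ℂ] (Fin 3 → ℂ)`) satisfies `‖M^n‖ ≥ c η^n` for `n = 2^k`, so by the Gelfand formula
(`spectrum.pow_nnnorm_pow_one_div_tendsto_nhds_spectralRadius`) the spectral radius is at least `η`;
it is attained (`spectrum.exists_nnnorm_eq_spectralRadius`), and an element of the spectrum of a
matrix has an eigenvector (`Matrix.exists_mulVec_eq_zero_iff`).
(Alternative without norms: if all eigenvalues have modulus `≤ 1` then the entries of `M^n` grow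
at most polynomially, by Cayley-Hamilton.)
-/

set_option autoImplicit false

namespace Pool.Agent.H89.SG

open Complex MeasureTheory Matrix
open scoped ContDiff ComplexConjugate

attribute [local instance] Matrix.linftyOpNormedRing Matrix.linftyOpNormedAlgebra

theorem UM.pow {M : Matrix (Fin 3) (Fin 3) ℂ} (hM : UM M) (n : ℕ) : UM (M ^ n) := by
  induction n with
  | zero => rw [pow_zero]; exact UM.one
  | succ n ih => rw [pow_succ]; exact ih.mul hM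

/-- the displacement of the powers -/
theorem disp_pow {M : Matrix (Fin 3) (Fin 3) ℂ} (hM : UM M) {η : ℝ} (hη : 1 < η)
    (h : ∀ v : Fin 3 → ℂ, fm v v = -1 → (η + η⁻¹) / 2 ≤ ‖fm (M *ᵥ v) v‖) (k : ℕ) :
    ∀ v : Fin 3 → ℂ, fm v v = -1 →
      (η ^ (2 ^ k) + (η⁻¹) ^ (2 ^ k)) / 2 ≤ ‖fm ((M ^ (2 ^ k)) *ᵥ v) v‖ := by
  induction k with
  | zero => simpa using h
  | succ k ih =>
    intro v hv
    obtain ⟨v', hv', hd⟩ := doubling (hM.pow (2 ^ k)) hv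
    have h1 := ih v' hv'
    have h2 : M ^ (2 ^ (k + 1)) = M ^ (2 ^ k) * M ^ (2 ^ k) := by
      rw [← pow_add]
      congr 1
      ring
    rw [h2]
    have h0 : 0 < η := by linarith
    have h3 : ((η ^ (2 ^ k) + (η⁻¹) ^ (2 ^ k)) / 2) ^ 2 ≤ ‖fm ((M ^ (2 ^ k)) *ᵥ v') v'‖ ^ 2 :=
      pow_le_pow_left₀ (by positivity) h1 2
    have h4 : (η ^ (2 ^ k)) * ((η⁻¹) ^ (2 ^ k)) = 1 := by
      rw [← mul_pow, mul_inv_cancel₀ h0.ne', one_pow]
    have h5 : η ^ (2 ^ (k + 1)) = (η ^ (2 ^ k)) ^ 2 := by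
      rw [← pow_mul]
      congr 1
    have h6 : (η⁻¹) ^ (2 ^ (k + 1)) = ((η⁻¹) ^ (2 ^ k)) ^ 2 := by
      rw [← pow_mul]
      congr 1
    rw [h5, h6]
    nlinarith

theorem exists_eig {M : Matrix (Fin 3) (Fin 3) ℂ} (hM : UM M) {δ : ℝ} (hδ : 1 < δ)
    (h : ∀ v : Fin 3 → ℂ, fm v v = -1 → δ ≤ ‖fm (M *ᵥ v) v‖) :
    ∃ (l : ℂ) (e : Fin 3 → ℂ), 1 < ‖l‖ ∧ e ≠ 0 ∧ M *ᵥ e = l • e := by
  classical
  -- η
  have hd0 : 0 ≤ δ ^ 2 - 1 := by nlinarith
  set η : ℝ := δ + √(δ ^ 2 - 1) with hη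
  have hη1 : 1 < η := by
    have := Real.sqrt_nonneg (δ ^ 2 - 1)
    linarith
  have hη0 : 0 < η := by linarith
  have hinv : η⁻¹ = δ - √(δ ^ 2 - 1) := by
    rw [inv_eq_iff_eq_inv, eq_comm, inv_eq_of_mul_eq_one_left]
    rw [hη]
    have := Real.sq_sqrt hd0
    nlinarith
  have hδη : (η + η⁻¹) / 2 = δ := by
    rw [hinv, hη]
    ring
  have hdisp := disp_pow hM hη1 (fun v hv => by rw [hδη]; exact h v hv)
  -- the norm of the powers
  have hnorm : ∀ k : ℕ, η ^ (2 ^ k) / 2 ≤ ‖M ^ (2 ^ k)‖ := by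
    intro k
    have h1 : fm ![0, 0, 1] ![0, 0, 1] = -1 := by simp [fm]
    have h2 := hdisp k _ h1
    have h3 : ‖fm ((M ^ (2 ^ k)) *ᵥ ![0, 0, 1]) ![0, 0, 1]‖ =
        ‖((M ^ (2 ^ k)) *ᵥ ![0, 0, 1]) 2‖ := by
      simp [fm]
    have h4 : ‖((M ^ (2 ^ k)) *ᵥ (![0, 0, 1] : Fin 3 → ℂ)) 2‖ ≤
        ‖(M ^ (2 ^ k)) *ᵥ (![0, 0, 1] : Fin 3 → ℂ)‖ := norm_le_pi_norm _ 2
    have h5 := Matrix.linfty_opNorm_mulVec (M ^ (2 ^ k)) (![0, 0, 1] : Fin 3 → ℂ)
    have h6 : ‖(![0, 0, 1] : Fin 3 → ℂ)‖ ≤ 1 := by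
      rw [pi_norm_le_iff_of_nonneg zero_le_one]
      intro i
      fin_cases i <;> simp
    have h7 : 0 < (η⁻¹) ^ (2 ^ k) := by positivity
    have h8 : ‖M ^ (2 ^ k)‖ * ‖(![0, 0, 1] : Fin 3 → ℂ)‖ ≤ ‖M ^ (2 ^ k)‖ :=
      mul_le_of_le_one_right (norm_nonneg _) h6
    linarith
  -- an intermediate value
  set η' : ℝ := (1 + η) / 2 with hη'
  have hη'1 : 1 < η' := by linarith
  have hη'2 : η' < η := by linarith
  have hev : ∀ᶠ n : ℕ in Filter.atTop, η' ^ n ≤ η ^ n / 2 := by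
    have h1 : Filter.Tendsto (fun n : ℕ => (η' / η) ^ n) Filter.atTop (nhds 0) :=
      tendsto_pow_atTop_nhds_zero_of_lt_one (by positivity) ((div_lt_one hη0).2 hη'2)
    have h2 : ∀ᶠ n : ℕ in Filter.atTop, (η' / η) ^ n < 1 / 2 :=
      (tendsto_order.1 h1).2 _ (by norm_num)
    filter_upwards [h2] with n hn
    rw [div_pow, div_lt_iff₀ (by positivity)] at hn
    linarith
  have htwo : Filter.Tendsto (fun k : ℕ => 2 ^ k) Filter.atTop Filter.atTop :=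
    tendsto_pow_atTop_atTop_of_one_lt one_lt_two
  have hge : ENNReal.ofReal η' ≤ spectralRadius ℂ M := by
    have h1 := (spectrum.pow_norm_pow_one_div_tendsto_nhds_spectralRadius M).comp htwo
    refine ge_of_tendsto h1 ?_
    filter_upwards [htwo.eventually hev] with k hk
    apply ENNReal.ofReal_le_ofReal
    have h2 : η' ^ (2 ^ k) ≤ ‖M ^ (2 ^ k)‖ := hk.trans (hnorm k)
    have h3 : (η' ^ (2 ^ k)) ^ (1 / ((2 ^ k : ℕ) : ℝ)) = η' := by
      rw [one_div]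
      exact Real.pow_rpow_inv_natCast (by linarith) (by positivity)
    calc η' = (η' ^ (2 ^ k)) ^ (1 / ((2 ^ k : ℕ) : ℝ)) := h3.symm
      _ ≤ ‖M ^ (2 ^ k)‖ ^ (1 / ((2 ^ k : ℕ) : ℝ)) :=
        Real.rpow_le_rpow (by positivity) h2 (by positivity)
  obtain ⟨l, hl, hl2⟩ := spectrum.exists_nnnorm_eq_spectralRadius M
  have hl1 : 1 < ‖l‖ := by
    rw [← hl2] at hge
    have h1 : (1 : ENNReal) < ENNReal.ofReal η' := by
      rw [← ENNReal.ofReal_one]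
      exact (ENNReal.ofReal_lt_ofReal_iff (by linarith)).2 hη'1
    have h2 : (1 : ENNReal) < (‖l‖₊ : ENNReal) := lt_of_lt_of_le h1 hge
    exact_mod_cast h2
  rw [spectrum.mem_iff, Matrix.isUnit_iff_isUnit_det, isUnit_iff_ne_zero, not_not] at hl
  obtain ⟨e, he, he2⟩ := Matrix.exists_mulVec_eq_zero_iff.2 hl
  refine ⟨l, e, hl1, he, ?_⟩
  rw [Matrix.sub_mulVec, Algebra.algebraMap_eq_smul_one, Matrix.smul_mulVec, Matrix.one_mulVec,
    sub_eq_zero] at he2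
  exact he2.symm

end Pool.Agent.H89.SG
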