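import Pool.Agent.H89.SG.CpA

/-!
# CpC: the axis of a loxodromic matrix

`iso`: two vectors `u, v` with `fm u u = fm v v = fm u v = 0` are linearly dependent: a
combination `w = a u + b v`, `(a, b) ≠ 0`, with `w 2 = 0` has `0 = fm w w = |w 0|² + |w 1|²`.
`axis`: `fm e e = |l|² fm e e`, so `fm e e = 0`. Since `M⁻¹ = J Mᴴ J` and `Mᴴ` has the eigenvalue
`conj l` (determinants), `M⁻¹` has the eigenvalue `conj l`, so `M f = (conj l)⁻¹ f` for some
`f ≠ 0`; again `fm f f = 0`, and `e, f` are independent (different eigenvalues), so `fm e f ≠ 0` by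
`iso`; scale `f`. The eigenspace of `l` is a line: two vectors `e, e'` in it satisfy
`fm e e' = |l|² fm e e'`, so all products vanish (`iso`); the same for `f`. So a matrix `N` which
commutes with `M` satisfies `N e = μ e`, `N f = ν f`, and if `UM N` then `μ conj ν fm e f = fm e f`.
`pt v = (v 0 / v 2, v 1 / v 2)`; `fm v v` real negative implies `v 2 ≠ 0`, `pt v ∈ ball`
(`1 - nsq (pt v) = - fm v v / |v 2|²`), and `fl N (pt v) = pt (N v)`.
-/

set_option autoImplicit false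

namespace Pool.Agent.H89.SG

open Complex MeasureTheory Matrix
open scoped ContDiff ComplexConjugate

/-- the point of the ball given by a negative vector -/
noncomputable def pt (v : Fin 3 → ℂ) : E := (v 0 / v 2, v 1 / v 2)

private lemma cpC_self (v : Fin 3 → ℂ) :
    fm v v = ((normSq (v 0) + normSq (v 1) - normSq (v 2) : ℝ) : ℂ) := by
  unfold fm
  rw [mul_conj, mul_conj, mul_conj]
  push_cast
  ring

private lemma cpC_re (v : Fin 3 → ℂ) :
    (fm v v).re = normSq (v 0) + normSq (v 1) - normSq (v 2) := by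
  rw [cpC_self, ofReal_re]

private lemma cpC_ne {v : Fin 3 → ℂ} (hv : (fm v v).re < 0) : v 2 ≠ 0 := by
  intro h
  rw [cpC_re, h, map_zero] at hv
  linarith [normSq_nonneg (v 0), normSq_nonneg (v 1)]

theorem pt_mem {v : Fin 3 → ℂ} (hv : (fm v v).re < 0) : pt v ∈ ball := by
  have h2 : 0 < normSq (v 2) := normSq_pos.2 (cpC_ne hv)
  rw [cpC_re] at hv
  change normSq (v 0 / v 2) + normSq (v 1 / v 2) < 1
  rw [map_div₀, map_div₀, ← add_div, div_lt_one h2]
  linarith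

theorem pt_smul {c : ℂ} (hc : c ≠ 0) (v : Fin 3 → ℂ) : pt (c • v) = pt v := by
  simp only [pt, Pi.smul_apply, smul_eq_mul]
  rw [mul_div_mul_left _ _ hc, mul_div_mul_left _ _ hc]

private lemma cpC_mulVec (N : Matrix (Fin 3) (Fin 3) ℂ) (v : Fin 3 → ℂ) (i : Fin 3) :
    (N *ᵥ v) i = N i 0 * v 0 + N i 1 * v 1 + N i 2 * v 2 := by
  simp [Matrix.mulVec, dotProduct, Fin.sum_univ_three]

theorem fl_pt {N : Matrix (Fin 3) (Fin 3) ℂ} (hN : UM N) {v : Fin 3 → ℂ}
    (hv : (fm v v).re < 0) : fl N (pt v) = pt (N *ᵥ v) := by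
  have h2 : v 2 ≠ 0 := cpC_ne hv
  have key : ∀ i : Fin 3, N i 0 * (pt v).1 + N i 1 * (pt v).2 + N i 2 = (N *ᵥ v) i / v 2 := by
    intro i
    rw [cpC_mulVec]
    simp only [pt]
    field_simp
  have hd : den N (pt v) = (N *ᵥ v) 2 / v 2 := key 2
  simp only [fl]
  rw [hd, key 0, key 1, div_div_div_cancel_right₀ h2, div_div_div_cancel_right₀ h2]
  rfl

private lemma cpC_smul_left (c : ℂ) (u v : Fin 3 → ℂ) : fm (c • u) v = c * fm u v := by
  simp only [fm, Pi.smul_apply, smul_eq_mul]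
  ring

private lemma cpC_smul_right (c : ℂ) (u v : Fin 3 → ℂ) : fm u (c • v) = conj c * fm u v := by
  simp only [fm, Pi.smul_apply, smul_eq_mul, map_mul]
  ring

private lemma cpC_symm {u v : Fin 3 → ℂ} (h : fm u v = 0) : fm v u = 0 := by
  have h1 : fm v u = conj (fm u v) := by
    simp only [fm, map_add, map_sub, map_mul, Complex.conj_conj]
    ring
  rw [h1, h, map_zero]

private lemma cpC_zero2 {u : Fin 3 → ℂ} (h : fm u u = 0) (h2 : u 2 = 0) : u = 0 := by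
  have h1 := cpC_re u
  rw [h, h2, map_zero, zero_re] at h1
  have a0 := normSq_nonneg (u 0)
  have a1 := normSq_nonneg (u 1)
  have b0 : u 0 = 0 := normSq_eq_zero.1 (by linarith)
  have b1 : u 1 = 0 := normSq_eq_zero.1 (by linarith)
  funext i
  fin_cases i
  · exact b0
  · exact b1
  · exact h2

private lemma cpC_iso {u v : Fin 3 → ℂ} (hu : fm u u = 0) (hv : fm v v = 0) (huv : fm u v = 0)
    (h0 : u ≠ 0) : ∃ c : ℂ, v = c • u := by
  have hu2 : u 2 ≠ 0 := fun h => h0 (cpC_zero2 hu h)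
  refine ⟨v 2 / u 2, ?_⟩
  have hw : v - (v 2 / u 2) • u = 0 := by
    apply cpC_zero2
    · have hvu := cpC_symm huv
      have h1 : fm (v - (v 2 / u 2) • u) (v - (v 2 / u 2) • u) =
          fm v v - conj (v 2 / u 2) * fm v u - (v 2 / u 2) * fm u v +
            (v 2 / u 2) * conj (v 2 / u 2) * fm u u := by
        simp only [fm, Pi.sub_apply, Pi.smul_apply, smul_eq_mul, map_sub, map_mul]
        ring
      rw [h1, hu, hv, huv, hvu]
      ring
    · simp only [Pi.sub_apply, Pi.smul_apply, smul_eq_mul]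
      rw [div_mul_cancel₀ _ hu2, sub_self]
  exact sub_eq_zero.1 hw

private lemma cpC_null {M : Matrix (Fin 3) (Fin 3) ℂ} (hM : UM M) {a b : ℂ} {u v : Fin 3 → ℂ}
    (hu : M *ᵥ u = a • u) (hv : M *ᵥ v = b • v) (hab : a * conj b ≠ 1) : fm u v = 0 := by
  have h1 := fm_mulVec hM u v
  rw [hu, hv, cpC_smul_left, cpC_smul_right] at h1
  have h2 : (a * conj b - 1) * fm u v = 0 := by linear_combination h1
  exact (mul_eq_zero.1 h2).resolve_left (sub_ne_zero.2 hab)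

theorem axis {M : Matrix (Fin 3) (Fin 3) ℂ} (hM : UM M) {l : ℂ} (hl : 1 < ‖l‖)
    {e : Fin 3 → ℂ} (he : e ≠ 0) (hMe : M *ᵥ e = l • e) :
    ∃ f : Fin 3 → ℂ, fm e e = 0 ∧ fm f f = 0 ∧ fm e f = -1 ∧
      ∀ N : Matrix (Fin 3) (Fin 3) ℂ, UM N → N * M = M * N →
        ∃ μ : ℂ, μ ≠ 0 ∧ N *ᵥ e = μ • e ∧ N *ᵥ f = (conj μ)⁻¹ • f := by
  have hl0 : l ≠ 0 := by
    intro h
    rw [h, norm_zero] at hl
    linarith
  have hcl0 : conj l ≠ 0 := fun h => hl0 ((map_eq_zero _).1 h)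
  have hll : (1 : ℝ) < normSq l := by
    rw [normSq_eq_norm_sq]
    nlinarith
  have hl1 : l * conj l ≠ 1 := by
    rw [mul_conj]
    intro h
    have h1 : normSq l = 1 := by exact_mod_cast h
    linarith
  have hi1 : (conj l)⁻¹ * conj ((conj l)⁻¹) ≠ 1 := by
    rw [map_inv₀, Complex.conj_conj, ← mul_inv]
    intro h
    apply hl1
    rw [mul_comm]
    exact inv_eq_one.1 h
  -- the other eigenvector
  obtain ⟨g, hg0, hg⟩ : ∃ g : Fin 3 → ℂ, g ≠ 0 ∧ M.conjTranspose *ᵥ g = conj l • g := by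
    have h1 : (M - l • (1 : Matrix (Fin 3) (Fin 3) ℂ)).det = 0 := by
      refine Matrix.exists_mulVec_eq_zero_iff.1 ⟨e, he, ?_⟩
      rw [Matrix.sub_mulVec, hMe, Matrix.smul_mulVec, Matrix.one_mulVec, sub_self]
    have h2 : (M - l • (1 : Matrix (Fin 3) (Fin 3) ℂ)).conjTranspose.det = 0 := by
      rw [Matrix.det_conjTranspose, h1, star_zero]
    obtain ⟨g, hg0, hg⟩ := Matrix.exists_mulVec_eq_zero_iff.2 h2
    refine ⟨g, hg0, ?_⟩
    rw [Matrix.conjTranspose_sub, Matrix.conjTranspose_smul, Matrix.conjTranspose_one,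
      Matrix.sub_mulVec, Matrix.smul_mulVec, Matrix.one_mulVec] at hg
    exact sub_eq_zero.1 hg
  have hJJ : ∀ v : Fin 3 → ℂ, Jm *ᵥ (Jm *ᵥ v) = v := fun v => by
    rw [Matrix.mulVec_mulVec, a1Jm_mul, Matrix.one_mulVec]
  have hf0 : Jm *ᵥ g ≠ 0 := by
    intro h
    apply hg0
    have h1 := hJJ g
    rw [h, Matrix.mulVec_zero] at h1
    exact h1.symm
  have hMf : M *ᵥ (Jm *ᵥ g) = (conj l)⁻¹ • (Jm *ᵥ g) := by
    have h1 : (Jm * M.conjTranspose * Jm) * M = 1 := by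
      calc (Jm * M.conjTranspose * Jm) * M = Jm * (M.conjTranspose * Jm * M) := by
            simp only [Matrix.mul_assoc]
        _ = 1 := by
            unfold UM at hM
            rw [hM, a1Jm_mul]
    have h2 : M * (Jm * M.conjTranspose * Jm) = 1 := mul_eq_one_comm.mp h1
    have h3 : M *ᵥ (Jm *ᵥ (M.conjTranspose *ᵥ (Jm *ᵥ (Jm *ᵥ g)))) = Jm *ᵥ g := by
      have h4 : M *ᵥ (Jm *ᵥ (M.conjTranspose *ᵥ (Jm *ᵥ (Jm *ᵥ g)))) =
          (M * (Jm * M.conjTranspose * Jm)) *ᵥ (Jm *ᵥ g) := by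
        simp only [Matrix.mulVec_mulVec, Matrix.mul_assoc]
      rw [h4, h2, Matrix.one_mulVec]
    rw [hJJ, hg, Matrix.mulVec_smul, Matrix.mulVec_smul] at h3
    rw [← h3, smul_smul, inv_mul_cancel₀ hcl0, one_smul, h3]
  have hee : fm e e = 0 := cpC_null hM hMe hMe hl1
  have hff : fm (Jm *ᵥ g) (Jm *ᵥ g) = 0 := cpC_null hM hMf hMf hi1
  have hef : fm e (Jm *ᵥ g) ≠ 0 := by
    intro h
    obtain ⟨c, hc⟩ := cpC_iso hee hff h he
    have h1 : M *ᵥ (Jm *ᵥ g) = l • (Jm *ᵥ g) := by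
      rw [hc, Matrix.mulVec_smul, hMe, smul_comm]
    rw [hMf] at h1
    have h2 : ((conj l)⁻¹ - l) • (Jm *ᵥ g) = 0 := by rw [sub_smul, h1, sub_self]
    rcases smul_eq_zero.1 h2 with h3 | h3
    · apply hl1
      have h4 : l = (conj l)⁻¹ := (sub_eq_zero.1 h3).symm
      nth_rewrite 1 [h4]
      exact inv_mul_cancel₀ hcl0
    · exact hf0 h3
  set k : ℂ := fm e (Jm *ᵥ g) with hk
  have hc0 : conj (-1 / k) ≠ 0 := by
    intro h
    have h1 : -1 / k = 0 := (map_eq_zero _).1 h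
    rw [div_eq_zero_iff] at h1
    rcases h1 with h1 | h1
    · exact absurd h1 (by norm_num)
    · exact hef h1
  refine ⟨conj (-1 / k) • (Jm *ᵥ g), hee, ?_, ?_, ?_⟩
  · rw [cpC_smul_left, cpC_smul_right, hff, mul_zero, mul_zero]
  · rw [cpC_smul_right, Complex.conj_conj, ← hk, div_mul_cancel₀ _ hef]
  · intro N hN hNM
    have hcomm : ∀ v : Fin 3 → ℂ, M *ᵥ (N *ᵥ v) = N *ᵥ (M *ᵥ v) := fun v => by
      rw [Matrix.mulVec_mulVec, Matrix.mulVec_mulVec, hNM]
    have h1 : M *ᵥ (N *ᵥ e) = l • (N *ᵥ e) := by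
      rw [hcomm, hMe, Matrix.mulVec_smul]
    have h2 : M *ᵥ (N *ᵥ (Jm *ᵥ g)) = (conj l)⁻¹ • (N *ᵥ (Jm *ᵥ g)) := by
      rw [hcomm, hMf, Matrix.mulVec_smul]
    obtain ⟨μ, hμ⟩ := cpC_iso hee (by rw [fm_mulVec hN]; exact hee : fm (N *ᵥ e) (N *ᵥ e) = 0)
      (cpC_null hM hMe h1 hl1) he
    obtain ⟨ν, hν⟩ := cpC_iso hff
      (by rw [fm_mulVec hN]; exact hff : fm (N *ᵥ (Jm *ᵥ g)) (N *ᵥ (Jm *ᵥ g)) = 0)
      (cpC_null hM hMf h2 hi1) hf0
    have h3 := fm_mulVec hN e (Jm *ᵥ g)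
    rw [hμ, hν, cpC_smul_left, cpC_smul_right, ← hk] at h3
    have h4 : μ * conj ν = 1 := by
      have h5 : (μ * conj ν - 1) * k = 0 := by linear_combination h3
      exact sub_eq_zero.1 ((mul_eq_zero.1 h5).resolve_right hef)
    have hμ0 : μ ≠ 0 := left_ne_zero_of_mul_eq_one h4
    refine ⟨μ, hμ0, hμ, ?_⟩
    have h6 : ν = (conj μ)⁻¹ := by
      have h7 := congrArg conj h4
      rw [map_mul, Complex.conj_conj, map_one] at h7
      exact eq_inv_of_mul_eq_one_right h7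
    rw [Matrix.mulVec_smul, hν, h6, smul_comm]

end Pool.Agent.H89.SG
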