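import Pool.Agent.H89.SG.CpB
import Pool.Agent.H89.SG.CpC
import Pool.Agent.H89.SG.FromMat

/-!
# CpD: commuting elements of a lattice have a common power

`displ`: for `a ≠ 1` there is `δ > 1` with `δ ≤ |fm (ρ a v) v|` for all `v` with `fm v v = -1`. For such
`v` and `x = pt v`, `|fm (ρ a v) v|² = 1 / (1 - dl x (m a x))` (`m a x = pt (ρ a v)`, both vectors have
norm `-1`: `|fm u v|² = |1 - her|² |u 2|² |v 2|²`, `1 - nsq = 1/|u 2|²`). So we need
`dl x (m a x) ≥ ε > 0` on the ball. Choose `g` with `nsq (m g x) ≤ r`, `y = m g x`, `b = g a g⁻¹`: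
`dl x (m a x) = dl y (m b y)`. If `dl y (m b y) ≤ 1/2` then `nsq (m b y) ≤ ρ'` (`dl_far`), so `b` is in a
finite set `T` of nontrivial elements (conjugates of `a`); for each `b ∈ T` the continuous function
`y ↦ dl y (m b y)` is positive on the compact set `{nsq ≤ r}` (free action; `dl x z = 0` only if
`x = z`), hence bounded below.
`commPow`: let `a, b` commute, both `≠ 1`. `exists_eig` for `ρ a` and `axis` give `e, f`. Every
element `c` of the centralizer of `a` has `ρ c e = μ_c e`, `ρ c f = (conj μ_c)⁻¹ f`;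
`χ c = log ‖μ_c‖` is additive. With `v_t = e + t f`, `t > 0`: `fm v_t v_t = -2 t`, and
`ρ c v_t = μ_c v_{t / |μ_c|²}`, so `m c (pt v_t) = pt (v_{t/|μ_c|²})`.
`χ c = 0` implies that `c` fixes `pt v_1`, so `c = 1`. For `R > 0` the set of `c` in the centralizer
with `|χ c| ≤ R` is finite: `m c (pt v_1)` lies in the compact arc
`{pt v_t : e^{-2R} ≤ t ≤ e^{2R}}` (`exists_nsq_le_of_compact`, `discrete`).
So `χ a ≠ 0`; for each natural number `l` choose an integer `k_l` with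
`|k_l χ a + l χ b| ≤ |χ a|`; the elements `a^{k_l} b^l` are in a finite set, so two agree for
`l ≠ l'`: `a^{k} = b^{l' - l}` with `k = k_l - k_{l'}`... and `k ≠ 0`, otherwise `b` would have finite
order.
-/

set_option autoImplicit false

namespace Pool.Agent.H89.SG

open Complex MeasureTheory Matrix
open scoped ContDiff ComplexConjugate

variable {G : Type} [Group G] {ρ : G →* Matrix (Fin 3) (Fin 3) ℂ}

private theorem fin_pos {ι : Type} {T : Set ι} (hT : T.Finite) (e : ι → ℝ)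
    (he : ∀ i ∈ T, 0 < e i) : ∃ ε : ℝ, 0 < ε ∧ ∀ i ∈ T, ε ≤ e i := by
  rcases T.eq_empty_or_nonempty with h | h
  · exact ⟨1, one_pos, by simp [h]⟩
  · obtain ⟨i, hi, hm⟩ := Set.exists_min_image T e hT h
    exact ⟨e i, he i hi, hm⟩

private theorem cpD_re (v : Fin 3 → ℂ) :
    (fm v v).re = normSq (v 0) + normSq (v 1) - normSq (v 2) := by
  unfold fm
  rw [mul_conj, mul_conj, mul_conj]
  simp

private theorem cpD_ne {v : Fin 3 → ℂ} (hv : (fm v v).re < 0) : v 2 ≠ 0 := by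
  intro h
  rw [cpD_re, h, map_zero] at hv
  linarith [normSq_nonneg (v 0), normSq_nonneg (v 1)]

private theorem one_sub_nsq_pt {v : Fin 3 → ℂ} (hv : fm v v = -1) :
    (1 - nsq (pt v)) * normSq (v 2) = 1 := by
  have h1 : (fm v v).re = -1 := by rw [hv]; simp
  have h2 : v 2 ≠ 0 := cpD_ne (by rw [h1]; norm_num)
  have h3 : normSq (v 2) ≠ 0 := fun h => h2 (normSq_eq_zero.1 h)
  rw [cpD_re] at h1
  have h4 : nsq (pt v) = normSq (v 0) / normSq (v 2) + normSq (v 1) / normSq (v 2) := by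
    unfold nsq pt
    simp only [map_div₀]
  rw [h4]
  field_simp
  linarith

private theorem fm_dl {u v : Fin 3 → ℂ} (hu : fm u u = -1) (hv : fm v v = -1) :
    ‖fm u v‖ ^ 2 * (1 - dl (pt u) (pt v)) = 1 := by
  have h1 := one_sub_nsq_pt hu
  have h2 := one_sub_nsq_pt hv
  have hu2 : u 2 ≠ 0 := cpD_ne (by rw [hu]; simp)
  have hv2 : v 2 ≠ 0 := cpD_ne (by rw [hv]; simp)
  have hu' : pt u ∈ ball := pt_mem (by rw [hu]; simp)
  have hv' : pt v ∈ ball := pt_mem (by rw [hv]; simp)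
  have hcv : conj (v 2) ≠ 0 := fun h => hv2 ((map_eq_zero _).1 h)
  have h3 : fm u v = -(u 2 * conj (v 2) * (1 - her (pt u) (pt v))) := by
    unfold fm her pt
    simp only [map_div₀]
    field_simp
    ring
  have h4 : normSq (1 - her (pt u) (pt v)) ≠ 0 :=
    fun h => one_sub_her_ne hu' hv' (normSq_eq_zero.1 h)
  have h5 : ‖fm u v‖ ^ 2 = normSq (u 2) * normSq (v 2) * normSq (1 - her (pt u) (pt v)) := by
    rw [← normSq_eq_norm_sq, h3, normSq_neg, normSq_mul, normSq_mul, normSq_conj]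
  have h6 : 1 - dl (pt u) (pt v) =
      (1 - nsq (pt u)) * (1 - nsq (pt v)) / normSq (1 - her (pt u) (pt v)) := by
    unfold dl
    ring
  rw [h5, h6]
  have h7 : normSq (u 2) * normSq (v 2) * normSq (1 - her (pt u) (pt v)) *
      ((1 - nsq (pt u)) * (1 - nsq (pt v)) / normSq (1 - her (pt u) (pt v))) =
      ((1 - nsq (pt u)) * normSq (u 2)) * ((1 - nsq (pt v)) * normSq (v 2)) := by
    field_simp
  rw [h7, h1, h2, one_mul]

private theorem dl_eq_zero {x z : E} (hx : x ∈ ball) (hz : z ∈ ball) (h : dl x z = 0) :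
    x = z := by
  have h1 : normSq (1 - her x z) ≠ 0 := fun h => one_sub_her_ne hx hz (normSq_eq_zero.1 h)
  have h2 : (1 - nsq x) * (1 - nsq z) = normSq (1 - her x z) := by
    unfold dl at h
    have h3 : (1 - nsq x) * (1 - nsq z) / normSq (1 - her x z) = 1 := by linarith
    rwa [div_eq_one_iff_eq h1] at h3
  have h3 : normSq (1 - her x z) - (1 - nsq x) * (1 - nsq z)
      = nsq (z - x) - normSq (x.1 * (z - x).2 - x.2 * (z - x).1) := by
    simp only [nsq, her, normSq_apply, add_re, add_im, sub_re, sub_im, mul_re, mul_im, conj_re,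
      conj_im, one_re, one_im, Prod.fst_sub, Prod.snd_sub]
    ring
  have h4 : nsq x * nsq (z - x) = normSq (her x (z - x)) +
      normSq (x.1 * (z - x).2 - x.2 * (z - x).1) := by
    simp only [nsq, her, normSq_apply, add_re, add_im, sub_re, sub_im, mul_re, mul_im, conj_re,
      conj_im]
    ring
  have h5 : nsq x < 1 := hx
  have h6 := nsq_nonneg (z - x)
  have h7 := normSq_nonneg (her x (z - x))
  have h8 : (1 - nsq x) * nsq (z - x) ≤ 0 := by linarith
  have h9 : nsq (z - x) = 0 := by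
    by_contra hne
    have : 0 < nsq (z - x) := lt_of_le_of_ne h6 (Ne.symm hne)
    have := mul_pos (sub_pos.2 h5) this
    linarith
  exact (sub_eq_zero.1 (nsq_eq_zero h9)).symm

private theorem haut_of (h : Latt ρ) (g : G) : IsAut (fl (ρ g)) :=
  ⟨ρ g, h.unitary g, fun _ _ => rfl⟩

private theorem hmem_of (h : Latt ρ) (g : G) {z : E} (hz : z ∈ ball) : fl (ρ g) z ∈ ball :=
  fl_mem (h.unitary g) hz

private theorem hmul_of (h : Latt ρ) (g k : G) {z : E} (hz : z ∈ ball) :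
    fl (ρ (g * k)) z = fl (ρ g) (fl (ρ k) z) := by
  rw [map_mul, fl_mul (h.unitary g) (h.unitary k) hz]

private theorem hfree_of (h : Latt ρ) (htf : TorFree G) (g : G) (hg : g ≠ 1) {z : E}
    (hz : z ∈ ball) : fl (ρ g) z ≠ z := (h.bact htf).free g hg z hz

private theorem dl_contOn : ContinuousOn (fun p : E × E => dl p.1 p.2) (ball ×ˢ ball) :=
  contDiffOn_dl.continuousOn

private theorem dl_cont0 {F : E → E} {S : Set E} (hS : S ⊆ ball) (hF : ContinuousOn F S)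
    (hm : ∀ y ∈ S, F y ∈ ball) : ContinuousOn (fun y => dl y (F y)) S := by
  have h1 : ContinuousOn (fun y : E => (y, F y)) S :=
    ContinuousOn.prodMk continuousOn_id hF
  have h3 : Set.MapsTo (fun y : E => (y, F y)) S (ball ×ˢ ball) := by
    intro y hy
    exact Set.mk_mem_prod (hS hy) (hm y hy)
  have h4 := ContinuousOn.comp dl_contOn h1 h3
  exact h4

private theorem fl_contOn (h : Latt ρ) (b : G) {r : ℝ} (hr : r < 1) :
    ContinuousOn (fl (ρ b)) {z : E | nsq z ≤ r} :=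
  ((haut_of h b).smooth.continuousOn).mono (nsq_le_subset_ball hr)

private theorem dl_cont (h : Latt ρ) (b : G) {r : ℝ} (hr : r < 1) :
    ContinuousOn (fun y => dl y (fl (ρ b) y)) {z : E | nsq z ≤ r} :=
  dl_cont0 (nsq_le_subset_ball hr) (fl_contOn h b hr)
    fun _ hy => hmem_of h b (nsq_le_subset_ball hr hy)

private theorem disp_one (h : Latt ρ) (htf : TorFree G) (b : G) {r : ℝ} (hr : r < 1) :
    ∃ ε : ℝ, 0 < ε ∧ (b ≠ 1 → ∀ y, nsq y ≤ r → ε ≤ dl y (fl (ρ b) y)) := by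
  by_cases hb : b = 1
  · exact ⟨1, one_pos, fun hb' => absurd hb hb'⟩
  rcases ({z : E | nsq z ≤ r}).eq_empty_or_nonempty with hK | hK
  · refine ⟨1, one_pos, fun _ y hy => ?_⟩
    have : y ∈ ({z : E | nsq z ≤ r}) := hy
    rw [hK] at this
    exact absurd this (Set.notMem_empty y)
  · obtain ⟨y0, hy0, hmin⟩ := (isCompact_nsq_le r).exists_isMinOn hK (dl_cont h b hr)
    have hy0b : y0 ∈ ball := nsq_le_subset_ball hr hy0
    have hb0 : fl (ρ b) y0 ∈ ball := hmem_of h b hy0b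
    refine ⟨dl y0 (fl (ρ b) y0), ?_, fun _ y hy => hmin hy⟩
    refine lt_of_le_of_ne (dl_nonneg hy0b hb0) fun h0 => ?_
    exact hfree_of h htf b hb hy0b (dl_eq_zero hy0b hb0 h0.symm).symm

private theorem disp_pos (h : Latt ρ) (htf : TorFree G) {a : G} (ha : a ≠ 1) :
    ∃ ε : ℝ, 0 < ε ∧ ε ≤ 1 / 2 ∧ ∀ x ∈ ball, ε ≤ dl (fl (ρ a) x) x := by
  obtain ⟨r, hr, hcov⟩ := h.cocompact
  obtain ⟨ρ', -, hρ1, hfar⟩ := dl_far hr (show (1 / 2 : ℝ) < 1 by norm_num)
  have hT := h.discrete (max r ρ') (max_lt hr hρ1)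
  choose e he0 he using fun b => disp_one h htf b hr
  obtain ⟨ε, hε, hε2⟩ := fin_pos hT e fun b _ => he0 b
  refine ⟨min ε (1 / 2), lt_min hε (by norm_num), min_le_right _ _, fun x hx => ?_⟩
  obtain ⟨g, hg⟩ := hcov x hx
  have hax : fl (ρ a) x ∈ ball := hmem_of h a hx
  have hgx : fl (ρ g) x ∈ ball := hmem_of h g hx
  have hby : fl (ρ (g * a * g⁻¹)) (fl (ρ g) x) = fl (ρ g) (fl (ρ a) x) := by
    have h1 := hmul_of h (g * a * g⁻¹) g hx
    have h2 := hmul_of h g a hx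
    rw [inv_mul_cancel_right] at h1
    rw [← h1, h2]
  have hdl : dl (fl (ρ a) x) x = dl (fl (ρ g) x) (fl (ρ (g * a * g⁻¹)) (fl (ρ g) x)) := by
    rw [hby, (haut_of h g).dl_eq hx hax, dl_symm]
  rw [hdl]
  by_cases hle : dl (fl (ρ g) x) (fl (ρ (g * a * g⁻¹)) (fl (ρ g) x)) ≤ 1 / 2
  · refine (min_le_left _ _).trans ?_
    have hbb : fl (ρ (g * a * g⁻¹)) (fl (ρ g) x) ∈ ball := hmem_of h _ hgx
    have hmem : (g * a * g⁻¹) ∈ {g : G | ∃ z, nsq z ≤ max r ρ' ∧
        nsq (fl (ρ g) z) ≤ max r ρ'} :=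
      ⟨fl (ρ g) x, hg.trans (le_max_left _ _), (hfar _ _ hg hbb hle).trans (le_max_right _ _)⟩
    refine (hε2 _ hmem).trans (he _ ?_ _ hg)
    intro h1
    apply ha
    have h2 : g * a = g := mul_inv_eq_one.1 h1
    exact mul_eq_left.1 h2
  · push Not at hle
    exact (min_le_right _ _).trans hle.le

theorem displ (h : Latt ρ) (htf : TorFree G) {a : G} (ha : a ≠ 1) :
    ∃ δ : ℝ, 1 < δ ∧ ∀ v : Fin 3 → ℂ, fm v v = -1 → δ ≤ ‖fm (ρ a *ᵥ v) v‖ := by
  obtain ⟨ε, hε, hε2, hd⟩ := disp_pos h htf ha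
  have h1 : 1 < 1 / (1 - ε) := by
    rw [lt_div_iff₀ (by linarith)]
    linarith
  refine ⟨√(1 / (1 - ε)), ?_, fun v hv => ?_⟩
  · rw [Real.lt_sqrt zero_le_one, one_pow]
    exact h1
  · have hre : (fm v v).re < 0 := by rw [hv]; simp
    have hu : fm (ρ a *ᵥ v) (ρ a *ᵥ v) = -1 := by rw [fm_mulVec (h.unitary a), hv]
    have h2 := fm_dl hu hv
    rw [← fl_pt (h.unitary a) hre] at h2
    have h3 := hd (pt v) (pt_mem hre)
    apply Real.sqrt_le_iff.2
    refine ⟨norm_nonneg _, ?_⟩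
    rw [div_le_iff₀ (by linarith)]
    have h4 : 0 ≤ ‖fm (ρ a *ᵥ v) v‖ ^ 2 := sq_nonneg _
    nlinarith

/-- `c` acts on the axis with multiplier `μ` -/
private def Ax (ρ : G →* Matrix (Fin 3) (Fin 3) ℂ) (e f : Fin 3 → ℂ) (c : G) (μ : ℂ) : Prop :=
  μ ≠ 0 ∧ ρ c *ᵥ e = μ • e ∧ ρ c *ᵥ f = (conj μ)⁻¹ • f

private theorem Ax.mul {e f : Fin 3 → ℂ} {c c' : G} {μ μ' : ℂ} (h : Ax ρ e f c μ)
    (h' : Ax ρ e f c' μ') : Ax ρ e f (c * c') (μ * μ') := by
  obtain ⟨h0, h1, h2⟩ := h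
  obtain ⟨h0', h1', h2'⟩ := h'
  refine ⟨mul_ne_zero h0 h0', ?_, ?_⟩
  · rw [map_mul, ← Matrix.mulVec_mulVec, h1', Matrix.mulVec_smul, h1, smul_smul, mul_comm]
  · rw [map_mul, ← Matrix.mulVec_mulVec, h2', Matrix.mulVec_smul, h2, smul_smul, map_mul,
      mul_inv, mul_comm]

private theorem inv_vec (c : G) {κ : ℂ} (hκ : κ ≠ 0) {e : Fin 3 → ℂ}
    (h : ρ c *ᵥ e = κ • e) : ρ c⁻¹ *ᵥ e = κ⁻¹ • e := by
  have h1 : ρ c⁻¹ *ᵥ (ρ c *ᵥ e) = e := by
    rw [Matrix.mulVec_mulVec, ← map_mul, inv_mul_cancel, map_one, Matrix.one_mulVec]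
  rw [h, Matrix.mulVec_smul] at h1
  rw [eq_inv_smul_iff₀ hκ]
  exact h1

private theorem Ax.inv {e f : Fin 3 → ℂ} {c : G} {μ : ℂ} (h : Ax ρ e f c μ) :
    Ax ρ e f c⁻¹ μ⁻¹ := by
  obtain ⟨h0, h1, h2⟩ := h
  refine ⟨inv_ne_zero h0, inv_vec c h0 h1, ?_⟩
  have h3 : (conj μ)⁻¹ ≠ 0 := inv_ne_zero fun h => h0 ((map_eq_zero _).1 h)
  rw [inv_vec c h3 h2, map_inv₀]

private theorem Ax.one (e f : Fin 3 → ℂ) : Ax ρ e f 1 1 := by
  refine ⟨one_ne_zero, ?_, ?_⟩
  · rw [map_one, Matrix.one_mulVec, one_smul]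
  · rw [map_one, Matrix.one_mulVec, map_one, inv_one, one_smul]

private theorem Ax.pow {e f : Fin 3 → ℂ} {c : G} {μ : ℂ} (h : Ax ρ e f c μ) (n : ℕ) :
    Ax ρ e f (c ^ n) (μ ^ n) := by
  induction n with
  | zero => rw [pow_zero, pow_zero]; exact Ax.one e f
  | succ n ih => rw [pow_succ, pow_succ]; exact ih.mul h

private theorem Ax.zpow {e f : Fin 3 → ℂ} {c : G} {μ : ℂ} (h : Ax ρ e f c μ) (n : ℤ) :
    Ax ρ e f (c ^ n) (μ ^ n) := by
  cases n with
  | ofNat n => rw [Int.ofNat_eq_natCast, zpow_natCast, zpow_natCast]; exact h.pow n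
  | negSucc n => rw [zpow_negSucc, zpow_negSucc]; exact (h.pow _).inv

/-- the point of the axis -/
private noncomputable def vt (e f : Fin 3 → ℂ) (t : ℝ) : Fin 3 → ℂ := e + (t : ℂ) • f

private theorem fm_vt {e f : Fin 3 → ℂ} (he : fm e e = 0) (hf : fm f f = 0)
    (hef : fm e f = -1) (t : ℝ) : fm (vt e f t) (vt e f t) = ((-2 * t : ℝ) : ℂ) := by
  have hfe : fm f e = -1 := by
    have h1 : fm f e = conj (fm e f) := by
      unfold fm
      simp only [map_add, map_sub, map_mul, conj_conj]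
      ring
    rw [h1, hef]
    simp
  have h2 : fm (vt e f t) (vt e f t) = fm e e + (t : ℂ) * fm e f + (t : ℂ) * fm f e +
      (t : ℂ) * (t : ℂ) * fm f f := by
    unfold fm vt
    simp only [Pi.add_apply, Pi.smul_apply, smul_eq_mul, map_add, map_mul, conj_ofReal]
    ring
  rw [h2, he, hf, hef, hfe]
  push_cast
  ring

private theorem fm_vt_neg {e f : Fin 3 → ℂ} (he : fm e e = 0) (hf : fm f f = 0)
    (hef : fm e f = -1) {t : ℝ} (ht : 0 < t) : (fm (vt e f t) (vt e f t)).re < 0 := by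
  rw [fm_vt he hf hef, ofReal_re]
  linarith

private theorem Ax.fl_vt (h : Latt ρ) {e f : Fin 3 → ℂ} (he : fm e e = 0) (hf : fm f f = 0)
    (hef : fm e f = -1) {c : G} {μ : ℂ} (hc : Ax ρ e f c μ) :
    fl (ρ c) (pt (vt e f 1)) = pt (vt e f (1 / normSq μ)) := by
  obtain ⟨h0, h1, h2⟩ := hc
  rw [fl_pt (h.unitary c) (fm_vt_neg he hf hef one_pos)]
  have h3 : ρ c *ᵥ vt e f 1 = μ • vt e f (1 / normSq μ) := by
    have h4 : conj μ ≠ 0 := fun h => h0 ((map_eq_zero _).1 h)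
    have h5 : (μ : ℂ) * ((1 / normSq μ : ℝ) : ℂ) = (conj μ)⁻¹ := by
      rw [ofReal_div, ofReal_one, ← mul_conj]
      field_simp
    unfold vt
    rw [Matrix.mulVec_add, ofReal_one, one_smul, h1, h2, smul_add, smul_smul, h5]
  rw [h3, pt_smul h0]

private theorem pt_cont {e f : Fin 3 → ℂ} (he : fm e e = 0) (hf : fm f f = 0)
    (hef : fm e f = -1) : ContinuousOn (fun t : ℝ => pt (vt e f t)) (Set.Ioi 0) := by
  have h0 : ∀ i : Fin 3, Continuous fun t : ℝ => vt e f t i := by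
    intro i
    have : (fun t : ℝ => vt e f t i) = fun t : ℝ => e i + (t : ℂ) * f i := by
      funext t
      simp [vt]
    rw [this]
    exact continuous_const.add (continuous_ofReal.mul continuous_const)
  have h2 : ∀ t ∈ Set.Ioi (0 : ℝ), vt e f t 2 ≠ 0 :=
    fun t ht => cpD_ne (fm_vt_neg he hf hef ht)
  have h3 : ContinuousOn (fun t : ℝ => (vt e f t 0 / vt e f t 2, vt e f t 1 / vt e f t 2))
      (Set.Ioi 0) :=
    ((h0 0).continuousOn.div (h0 2).continuousOn h2).prodMk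
      ((h0 1).continuousOn.div (h0 2).continuousOn h2)
  exact h3

private theorem fin_ax (h : Latt ρ) {e f : Fin 3 → ℂ} (he : fm e e = 0) (hf : fm f f = 0)
    (hef : fm e f = -1) {A B : ℝ} (hA : 0 < A) :
    {c : G | ∃ μ, Ax ρ e f c μ ∧ A ≤ 1 / normSq μ ∧ 1 / normSq μ ≤ B}.Finite := by
  have hK : IsCompact ((fun t : ℝ => pt (vt e f t)) '' Set.Icc A B) :=
    isCompact_Icc.image_of_continuousOn
      ((pt_cont he hf hef).mono fun t ht => lt_of_lt_of_le hA ht.1)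
  have hKB : ((fun t : ℝ => pt (vt e f t)) '' Set.Icc A B) ⊆ ball := by
    rintro _ ⟨t, ht, rfl⟩
    exact pt_mem (fm_vt_neg he hf hef (lt_of_lt_of_le hA ht.1))
  obtain ⟨r, -, hr1, hr⟩ := exists_nsq_le_of_compact hK hKB
  have h1 : nsq (pt (vt e f 1)) < 1 := pt_mem (fm_vt_neg he hf hef one_pos)
  refine (h.discrete (max r (nsq (pt (vt e f 1)))) (max_lt hr1 h1)).subset ?_
  rintro c ⟨μ, hc, hμA, hμB⟩
  refine ⟨pt (vt e f 1), le_max_right _ _, ?_⟩
  rw [hc.fl_vt h he hf hef]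
  exact (hr _ ⟨_, ⟨hμA, hμB⟩, rfl⟩).trans (le_max_left _ _)

private theorem ax_one_of_norm (h : Latt ρ) (htf : TorFree G) {e f : Fin 3 → ℂ}
    (he : fm e e = 0) (hf : fm f f = 0) (hef : fm e f = -1) {c : G} {μ : ℂ}
    (hc : Ax ρ e f c μ) (hμ : ‖μ‖ = 1) : c = 1 := by
  by_contra hne
  have h1 : normSq μ = 1 := by rw [normSq_eq_norm_sq, hμ, one_pow]
  refine hfree_of h htf c hne (pt_mem (fm_vt_neg he hf hef one_pos)) ?_
  rw [hc.fl_vt h he hf hef, h1, div_one]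

private theorem zpow_ne_one (htf : TorFree G) {g : G} (hg : g ≠ 1) {n : ℤ} (hn : n ≠ 0) :
    g ^ n ≠ 1 := by
  intro h1
  have h2 : g ^ n.natAbs = 1 := by
    rcases Int.natAbs_eq n with hn' | hn'
    · rw [hn', zpow_natCast] at h1
      exact h1
    · rw [hn', _root_.zpow_neg, zpow_natCast, inv_eq_one] at h1
      exact h1
  exact htf g hg _ (Int.natAbs_pos.2 hn) h2

theorem Latt.commPow (h : Latt ρ) (htf : TorFree G) : CommPow G := by
  intro a b ha hb hab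
  obtain ⟨δ, hδ, hd⟩ := displ h htf ha
  obtain ⟨l, e0, hl, he0, hMe⟩ := exists_eig (h.unitary a) hδ hd
  obtain ⟨f, he, hf, hef, hax⟩ := axis (h.unitary a) hl he0 hMe
  have haxa : ∃ μ, Ax ρ e0 f a μ := hax (ρ a) (h.unitary a) rfl
  have haxb : ∃ μ, Ax ρ e0 f b μ := by
    refine hax (ρ b) (h.unitary b) ?_
    rw [← map_mul, ← map_mul, hab]
  obtain ⟨μ, hμ⟩ := haxa
  obtain ⟨ν, hν⟩ := haxb
  have hμ0 : 0 < ‖μ‖ := norm_pos_iff.2 hμ.1
  have hν0 : 0 < ‖ν‖ := norm_pos_iff.2 hν.1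
  set α : ℝ := Real.log ‖μ‖ with hα
  set β : ℝ := Real.log ‖ν‖ with hβ
  have hα0 : α ≠ 0 := by
    intro h0
    apply ha
    apply ax_one_of_norm h htf he hf hef hμ
    have := Real.exp_log hμ0
    rw [← hα, h0, Real.exp_zero] at this
    exact this.symm
  -- the exponents
  let k : ℕ → ℤ := fun l => round (-(l * β) / α)
  have hk : ∀ l : ℕ, |k l * α + l * β| ≤ |α| := by
    intro l
    have h1 := abs_sub_round (-(l * β) / α)
    have h2 : (k l * α + l * β : ℝ) = -((-(l * β) / α - k l) * α) := by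
      field_simp
      ring
    rw [h2, abs_neg, abs_mul]
    have h3 : |(-(l * β) / α - k l : ℝ)| ≤ 1 / 2 := h1
    nlinarith [abs_nonneg α]
  have hfin := fin_ax h he hf hef (A := Real.exp (-(2 * |α|))) (B := Real.exp (2 * |α|))
    (Real.exp_pos _)
  have hmem : ∀ l : ℕ, a ^ k l * b ^ l ∈ {c : G | ∃ μ, Ax ρ e0 f c μ ∧
      Real.exp (-(2 * |α|)) ≤ 1 / normSq μ ∧ 1 / normSq μ ≤ Real.exp (2 * |α|)} := by
    intro l
    refine ⟨μ ^ k l * ν ^ l, (hμ.zpow _).mul (hν.pow _), ?_⟩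
    have h1 : 1 / normSq (μ ^ k l * ν ^ l) = Real.exp (-(2 * (k l * α + l * β))) := by
      rw [normSq_eq_norm_sq, norm_mul, norm_zpow, norm_pow]
      have h2 : ‖μ‖ = Real.exp α := (Real.exp_log hμ0).symm
      have h3 : ‖ν‖ = Real.exp β := (Real.exp_log hν0).symm
      have h4 : Real.exp α ^ k l = Real.exp (k l * α) := by
        rw [← Real.rpow_intCast, ← Real.exp_mul, mul_comm]
      rw [h2, h3, h4, ← Real.exp_nat_mul, ← Real.exp_add, ← Real.exp_nat_mul,
        one_div, ← Real.exp_neg]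
      congr 1
    rw [h1]
    have h2 := abs_le.1 (hk l)
    constructor
    · apply Real.exp_le_exp.2
      linarith [h2.2]
    · apply Real.exp_le_exp.2
      linarith [h2.1]
  have hninj : ¬ Function.Injective (fun l : ℕ => a ^ k l * b ^ l) := by
    intro hinj
    exact Set.infinite_of_injective_forall_mem hinj hmem hfin
  unfold Function.Injective at hninj
  push Not at hninj
  obtain ⟨m, n, hmn, hne⟩ := hninj
  have hmn' : a ^ k m * b ^ m = a ^ k n * b ^ n := hmn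
  have hcb : Commute a b := hab
  refine ⟨k m - k n, (n : ℤ) - m, ?_, ?_, ?_⟩
  · intro h0
    have hkk : k m = k n := by omega
    rw [hkk] at hmn'
    have h1 : b ^ m = b ^ n := mul_left_cancel hmn'
    have h2 : b ^ ((n : ℤ) - m) = 1 := by
      rw [_root_.zpow_sub, zpow_natCast, zpow_natCast, h1, mul_inv_cancel]
    exact zpow_ne_one htf hb (by omega) h2
  · omega
  · have h1 : a ^ (k m - k n) = (a ^ k n)⁻¹ * a ^ k m := by
      rw [← _root_.zpow_neg, ← _root_.zpow_add]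
      congr 1
      ring
    have h2 : b ^ ((n : ℤ) - m) = b ^ n * (b ^ m)⁻¹ := by
      rw [_root_.zpow_sub, zpow_natCast, zpow_natCast]
    rw [h1, h2, eq_mul_inv_iff_mul_eq, mul_assoc, hmn', inv_mul_cancel_left]

end Pool.Agent.H89.SG
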