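import Pool.Agent.H89.SG.AvM

/-!
# Doeb: contraction and the solution of `w = A w + f₀`

Let `F = {nsq ≤ r}` (its translates cover the ball), `k > 0` on `(-∞, 1 - (1 - r)²/4]`. By
`dl_near`, `dl x z ≤ 1 - (1 - r)²/4` for `x, z ∈ F`, so `k (dl x z) ≥ ε₀ > 0` for `x, z ∈ F`
(`k` is continuous and positive on the compact interval `[0, 1 - (1 - r)²/4]`, `dl ≥ 0`).
`doeb`: `f` continuous on the ball and invariant, `a ≤ f ≤ b`. Let `J = ∫_F (f - a) dμ`,
`J' = ∫_F (b - f) dμ`, `J + J' = (b - a) μ(F)`, `μ(F) > 0` finite (if `r = 0`, `μ(F) = 0`: use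
`F = {nsq ≤ r'}` with `r < r'`, `k` positive up to `1 - (1 - r')²/4`: we assume `0 < r`).
For `x ∈ F`: `Av k f x - a = ∫ k (dl x z) (f z - a) dμ ≥ ε₀ J` and `b - Av k f x ≥ ε₀ J'`.
As `Av k f` is invariant (`Av_aut`) this holds on the whole ball. Put `a' = a + ε₀ J`,
`b' = b - ε₀ J'`, `ε = ε₀ μ(F)` (and `ε ≤ 1` may be arranged by decreasing `ε₀`).
`solve`: `f₀` continuous, invariant with `∫ κ f₀ dμ = 0`. `f₀` is bounded on the ball (compactness
of `F`, invariance). Let `f_n` be the iterates, `f_{n+1} = Av k f_n` (continuous, invariant,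
`∫ κ f_n dμ = 0` by `Av_mean` with `c = 0`, and `∫ κ Av k f = ∫ κ f`). By `doeb` `f_n` takes values in
an interval `[a_n, b_n]` of length `≤ (1 - ε)^n (b - a)`; mean zero (`κ ≥ 0`, `∫ κ dμ > 0`) implies
`a_n ≤ 0 ≤ b_n`, so `|f_n| ≤ (1 - ε)^n (b - a)`. `w = ∑_n f_n` converges uniformly on the ball, is
continuous and invariant, and `Av k w = ∑_n Av k f_n = ∑_n f_{n+1} = w - f₀` (exchange of sum and
integral: `Av_bounds` applied to `w - ∑_{n<N} f_n`, which is at most `const (1 - ε)^N`).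
-/

set_option autoImplicit false

namespace Pool.Agent.H89.SG

open Complex MeasureTheory
open scoped ContDiff ComplexConjugate

variable {G : Type} [Group G] {m : G → E → E}

private theorem low (hA : BAct G m) {r : ℝ} (hr1 : r < 1)
    (hcov : ∀ z ∈ ball, ∃ g : G, nsq (m g z) ≤ r) {k : ℝ → ℝ} {r₁ : ℝ} (hk : Ker k r₁)
    {ε₀ : ℝ} (hpos : ∀ t : ℝ, 0 ≤ t → t ≤ 1 - (1 - r) ^ 2 / 4 → ε₀ ≤ k t) {h : E → ℝ}
    (hh : ContinuousOn h ball) (hinv : ∀ g, ∀ z ∈ ball, h (m g z) = h z)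
    (h0 : ∀ z ∈ ball, 0 ≤ h z) (hi : IntegrableOn h {z : E | nsq z ≤ r} mu) {x : E}
    (hx : x ∈ ball) : ε₀ * ∫ z in {z : E | nsq z ≤ r}, h z ∂mu ≤ Av k h x := by
  -- it is enough to treat points of the fundamental set
  have key : ∀ x : E, nsq x ≤ r → ε₀ * ∫ z in {z : E | nsq z ≤ r}, h z ∂mu ≤ Av k h x := by
    intro x hxr
    have hxb : x ∈ ball := nsq_le_subset_ball hr1 hxr
    have hint := Av_integrable hk hh hxb
    have hmeas : MeasurableSet {z : E | nsq z ≤ r} := (isCompact_nsq_le r).measurableSet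
    rw [← integral_const_mul]
    have h1 : ∫ z in {z : E | nsq z ≤ r}, ε₀ * h z ∂mu
        ≤ ∫ z in {z : E | nsq z ≤ r}, k (dl x z) * h z ∂mu := by
      refine setIntegral_mono_on (hi.const_mul ε₀) hint.integrableOn hmeas fun z hz => ?_
      have hzb : z ∈ ball := nsq_le_subset_ball hr1 hz
      exact mul_le_mul_of_nonneg_right (hpos _ (dl_nonneg hxb hzb) (dl_near hr1 hxr hz)) (h0 z hzb)
    refine h1.trans ?_
    unfold Av
    refine setIntegral_le_integral hint ?_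
    filter_upwards [ae_mu] with z hz
    exact mul_nonneg (hk.nonneg _) (h0 z hz)
  obtain ⟨g, hg⟩ := hcov x hx
  refine (key _ hg).trans (le_of_eq ?_)
  rw [← Av_aut (hA.aut g) hx]
  exact Av_congr fun z hz => hinv g z hz

theorem doeb (hA : BAct G m) {r : ℝ} (hr0 : 0 < r) (hr1 : r < 1)
    (hcov : ∀ z ∈ ball, ∃ g : G, nsq (m g z) ≤ r) {k : ℝ → ℝ} {r₁ : ℝ} (hk : Ker k r₁)
    (hpos : ∀ t ≤ 1 - (1 - r) ^ 2 / 4, 0 < k t) :
    ∃ ε : ℝ, 0 < ε ∧ ε ≤ 1 ∧ ∀ f : E → ℝ, ContinuousOn f ball →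
      (∀ g, ∀ z ∈ ball, f (m g z) = f z) → ∀ a b : ℝ, (∀ z ∈ ball, a ≤ f z ∧ f z ≤ b) →
      ∃ a' b' : ℝ, b' - a' ≤ (1 - ε) * (b - a) ∧ ∀ z ∈ ball, a' ≤ Av k f z ∧ Av k f z ≤ b' := by
  have hFb : {z : E | nsq z ≤ r} ⊆ ball := nsq_le_subset_ball hr1
  have hmeas : MeasurableSet {z : E | nsq z ≤ r} := (isCompact_nsq_le r).measurableSet
  have hlt : mu {z : E | nsq z ≤ r} < ⊤ := mu_nsq_le_lt_top hr1
  have hp : 0 < mu {z : E | nsq z ≤ r} := by
    have h1 : 0 < mu {z : E | nsq z < r} := by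
      refine mu_pos ?_ ?_ ⟨0, ?_⟩
      · exact isOpen_lt continuous_nsq continuous_const
      · intro z (hz : nsq z < r)
        exact hFb (show nsq z ≤ r from hz.le)
      · change nsq 0 < r
        rw [nsq_zero]
        exact hr0
    exact h1.trans_le (measure_mono fun z (hz : nsq z < r) => (show nsq z ≤ r from hz.le))
  obtain ⟨v, hv⟩ : ∃ v : ℝ, v = mu.real {z : E | nsq z ≤ r} := ⟨_, rfl⟩
  have hv0 : 0 < v := by
    rw [hv]
    exact ENNReal.toReal_pos hp.ne' hlt.ne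
  -- the lower bound for the kernel
  obtain ⟨ε₁, hε₁, hkε⟩ : ∃ ε₁ : ℝ, 0 < ε₁ ∧ ∀ t : ℝ, 0 ≤ t → t ≤ 1 - (1 - r) ^ 2 / 4 → ε₁ ≤ k t := by
    have hne : (Set.Icc (0 : ℝ) (1 - (1 - r) ^ 2 / 4)).Nonempty := by
      refine ⟨0, le_refl _, ?_⟩
      nlinarith
    obtain ⟨t₀, ht₀, hmin⟩ := isCompact_Icc.exists_isMinOn hne
      (hk.smooth.continuous.continuousOn (s := Set.Icc (0 : ℝ) (1 - (1 - r) ^ 2 / 4)))
    exact ⟨k t₀, hpos t₀ ht₀.2, fun t h0 h1 => hmin ⟨h0, h1⟩⟩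
  obtain ⟨ε₀, hε₀, hε₀1, hε₀v⟩ : ∃ ε₀ : ℝ, 0 < ε₀ ∧ ε₀ ≤ ε₁ ∧ ε₀ * v ≤ 1 := by
    refine ⟨min ε₁ (1 / v), lt_min hε₁ (by positivity), min_le_left _ _, ?_⟩
    calc min ε₁ (1 / v) * v ≤ 1 / v * v := mul_le_mul_of_nonneg_right (min_le_right _ _) hv0.le
      _ = 1 := div_mul_cancel₀ 1 hv0.ne'
  refine ⟨ε₀ * v, mul_pos hε₀ hv0, hε₀v, ?_⟩
  intro f hf hinv a b hab
  have hcint : ∀ c : ℝ, IntegrableOn (fun _ : E => c) {z : E | nsq z ≤ r} mu := fun c =>
    integrableOn_const hlt.ne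
  have hfint : IntegrableOn f {z : E | nsq z ≤ r} mu := by
    have _ : IsFiniteMeasure (mu.restrict {z : E | nsq z ≤ r}) :=
      ⟨by rw [Measure.restrict_apply_univ]; exact hlt⟩
    refine Integrable.of_bound ((hf.mono hFb).aestronglyMeasurable hmeas) (max |a| |b|) ?_
    refine (ae_restrict_iff' hmeas).2 (Filter.Eventually.of_forall fun z hz => ?_)
    have h1 := hab z (hFb hz)
    rw [Real.norm_eq_abs]
    exact abs_le_max_abs_abs h1.1 h1.2
  have hlow : ∀ h : E → ℝ, ContinuousOn h ball → (∀ g, ∀ z ∈ ball, h (m g z) = h z) →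
      (∀ z ∈ ball, 0 ≤ h z) → IntegrableOn h {z : E | nsq z ≤ r} mu → ∀ x ∈ ball,
      ε₀ * ∫ z in {z : E | nsq z ≤ r}, h z ∂mu ≤ Av k h x := fun h h1 h2 h3 h4 x hx =>
    low hA hr1 hcov hk (fun t h0 ht => hε₀1.trans (hkε t h0 ht)) h1 h2 h3 h4 hx
  have hsum : ∫ z in {z : E | nsq z ≤ r}, (f z - a) ∂mu + ∫ z in {z : E | nsq z ≤ r}, (b - f z) ∂mu
      = (b - a) * v := by
    have h0 := integral_add (μ := mu.restrict {z : E | nsq z ≤ r}) (f := fun z => f z - a)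
      (g := fun z => b - f z) (hfint.sub (hcint a)) ((hcint b).sub hfint)
    rw [← h0]
    have h1 : ∀ z : E, f z - a + (b - f z) = b - a := fun z => by ring
    simp_rw [h1]
    rw [setIntegral_const, smul_eq_mul, hv, mul_comm]
  refine ⟨a + ε₀ * ∫ z in {z : E | nsq z ≤ r}, (f z - a) ∂mu,
    b - ε₀ * ∫ z in {z : E | nsq z ≤ r}, (b - f z) ∂mu, ?_, ?_⟩
  · have h1 : b - ε₀ * ∫ z in {z : E | nsq z ≤ r}, (b - f z) ∂mu
        - (a + ε₀ * ∫ z in {z : E | nsq z ≤ r}, (f z - a) ∂mu)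
        = (b - a) - ε₀ * (∫ z in {z : E | nsq z ≤ r}, (f z - a) ∂mu
          + ∫ z in {z : E | nsq z ≤ r}, (b - f z) ∂mu) := by ring
    rw [h1, hsum]
    linarith
  · intro z hz
    constructor
    · have h1 := hlow (fun z => f z - a) (hf.sub continuousOn_const)
        (fun g z hz => by rw [hinv g z hz]) (fun z hz => by linarith [(hab z hz).1])
        (hfint.sub (hcint a)) z hz
      rw [Av_sub hk hf continuousOn_const hz, Av_const hk hz] at h1
      linarith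
    · have h1 := hlow (fun z => b - f z) (continuousOn_const.sub hf)
        (fun g z hz => by rw [hinv g z hz]) (fun z hz => by linarith [(hab z hz).2])
        ((hcint b).sub hfint) z hz
      rw [Av_sub hk continuousOn_const hf hz, Av_const hk hz] at h1
      linarith

end Pool.Agent.H89.SG
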