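import Pool.Agent.H89.SG.Hm

/-!
# Enf: the potential `Φ = - log (1 - |z|²)` and the energy form

* `Hm_eq`: `db l Φ = z_l / (1 - |z|²)`, `dd k` of it.
* `Hm_comp`: with the factor `c` of `exists_factor`,
  `Φ (φ z) = Φ z + log (normSq (c z))` on the ball, and `dd k (db l (log normSq c)) = 0`:
  `db l (log (c conj c)) = conj (dd l c) / conj c`, which is antiholomorphic. Then `ddb_comp`.
* `En a b z = a_0 conj b_0 H_11 - a_0 conj b_1 H_10 - a_1 conj b_0 H_01 + a_1 conj b_1 H_00`.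
  `En_self`: `En a a z = (|a_0|² + |a_1|²) / s + |a_0 conj z_1 - a_1 conj z_0|² / s²`, `s = 1 - |z|²`.
* `En_comp`: `gr (f ∘ φ) z` is `∑_p dd p f (φ z) Dm φ p i z` (`dd_comp`), insert `Hm_comp` for
  `H (z)`: polynomial identity in the entries of `D`, `conj D`, `H (φ z)` (`ring`), the factor is
  `det D * conj (det D)`.
-/

set_option autoImplicit false

namespace Pool.Agent.H89.SG

open Complex MeasureTheory
open scoped ContDiff ComplexConjugate

variable {φ : E → E} {z : E} {k l : Fin 2} {a b : Fin 2 → ℂ} {f g : E → ℂ}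

theorem En_self (hz : z ∈ ball) : En a a z =
    (((normSq (a 0) + normSq (a 1)) / (1 - nsq z) +
      normSq (a 0 * conj z.2 - a 1 * conj z.1) / (1 - nsq z) ^ 2 : ℝ) : ℂ) := by
  have hs : (0 : ℝ) < 1 - nsq z := by
    have : nsq z < 1 := hz
    linarith
  have hs' : ((1 - nsq z : ℝ) : ℂ) ≠ 0 := by exact_mod_cast hs.ne'
  unfold En
  rw [Hm_eq hz, Hm_eq hz, Hm_eq hz, Hm_eq hz]
  push_cast
  have hs'' : (1 - (nsq z : ℂ)) ≠ 0 := by
    have := hs'
    push_cast at this
    exact this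
  rw [← mul_conj (a 0), ← mul_conj (a 1), ← mul_conj (a 0 * conj z.2 - a 1 * conj z.1)]
  simp only [co, map_sub, map_mul, conj_conj]
  simp only [Fin.isValue, one_ne_zero, if_true, if_false]
  field_simp
  ring

/-- lower bound of the energy -/
theorem En_ge (hz : z ∈ ball) : normSq (a 0) + normSq (a 1) ≤ (En a a z).re := by
  rw [En_self hz, ofReal_re]
  have hs : (0 : ℝ) < 1 - nsq z := by
    have : nsq z < 1 := hz
    linarith
  have hs1 : 1 - nsq z ≤ 1 := by
    have := add_nonneg (normSq_nonneg z.1) (normSq_nonneg z.2)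
    unfold nsq
    linarith
  have h0 : 0 ≤ normSq (a 0) + normSq (a 1) := add_nonneg (normSq_nonneg _) (normSq_nonneg _)
  have h1 : normSq (a 0) + normSq (a 1) ≤ (normSq (a 0) + normSq (a 1)) / (1 - nsq z) := by
    rw [le_div_iff₀ hs]
    nlinarith
  have h2 : 0 ≤ normSq (a 0 * conj z.2 - a 1 * conj z.1) / (1 - nsq z) ^ 2 :=
    div_nonneg (normSq_nonneg _) (by positivity)
  linarith

/-- upper bound of the energy -/
theorem En_le {R : ℝ} (hR : R < 1) : ∃ C : ℝ, 0 ≤ C ∧ ∀ (z : E) (a : Fin 2 → ℂ), nsq z ≤ R →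
    (En a a z).re ≤ C * (normSq (a 0) + normSq (a 1)) := by
  have hR' : 0 < 1 - R := by linarith
  refine ⟨1 / (1 - R) + 1 / (1 - R) ^ 2, by positivity, fun z a hz => ?_⟩
  have hzb : z ∈ ball := lt_of_le_of_lt hz hR
  rw [En_self hzb, ofReal_re]
  have h0 : 0 ≤ normSq (a 0) + normSq (a 1) := add_nonneg (normSq_nonneg _) (normSq_nonneg _)
  have hs : 1 - R ≤ 1 - nsq z := by linarith
  have hs0 : 0 < 1 - nsq z := by linarith
  have h1 : (normSq (a 0) + normSq (a 1)) / (1 - nsq z) ≤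
      1 / (1 - R) * (normSq (a 0) + normSq (a 1)) := by
    rw [div_mul_eq_mul_div, one_mul]
    exact div_le_div_of_nonneg_left h0 hR' hs
  have h2 : normSq (a 0 * conj z.2 - a 1 * conj z.1) ≤ normSq (a 0) + normSq (a 1) := by
    have h3 : normSq (a 0 * conj z.2 - a 1 * conj z.1) ≤
        (normSq (a 0) + normSq (a 1)) * nsq z := by
      have h4 : (normSq (a 0) + normSq (a 1)) * nsq z -
          normSq (a 0 * conj z.2 - a 1 * conj z.1) =
          normSq (a 0 * z.1 + a 1 * z.2) := by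
        simp only [nsq, normSq_apply, sub_re, sub_im, mul_re, mul_im, conj_re, conj_im, add_re,
          add_im]
        ring
      have := normSq_nonneg (a 0 * z.1 + a 1 * z.2)
      linarith
    have h5 : nsq z ≤ 1 := by linarith
    nlinarith
  have h6 : normSq (a 0 * conj z.2 - a 1 * conj z.1) / (1 - nsq z) ^ 2 ≤
      1 / (1 - R) ^ 2 * (normSq (a 0) + normSq (a 1)) := by
    rw [div_mul_eq_mul_div, one_mul]
    exact div_le_div₀ h0 h2 (by positivity) (pow_le_pow_left₀ hR'.le hs 2)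
  calc _ ≤ 1 / (1 - R) * (normSq (a 0) + normSq (a 1)) +
        1 / (1 - R) ^ 2 * (normSq (a 0) + normSq (a 1)) := add_le_add h1 h6
    _ = _ := by ring

theorem En_comp (hf : Smo f) (hg : Smo g) (hφ : IsAut φ) (hz : z ∈ ball) :
    En (gr (fun w => f (φ w)) z) (gr (fun w => g (φ w)) z) z =
      (normSq (jac φ z) : ℂ) * En (gr f (φ z)) (gr g (φ z)) (φ z) := by
  unfold En
  rw [← mul_conj (jac φ z), jac_eq]
  simp only [gr]
  rw [dd_comp hf hφ hz, dd_comp hf hφ hz, dd_comp hg hφ hz, dd_comp hg hφ hz,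
    Hm_comp hφ hz, Hm_comp hφ hz, Hm_comp hφ hz, Hm_comp hφ hz]
  simp only [Fin.sum_univ_two, map_add, map_mul, map_sub]
  ring

theorem continuousOn_En (hf : Smo f) (hg : Smo g) :
    ContinuousOn (fun z => En (gr f z) (gr g z) z) ball := by
  have hc : ∀ {u : E → ℂ}, Smo u → ContinuousOn u ball := fun hu => hu.continuousOn
  have hcc : ∀ {u : E → ℂ}, Smo u → ContinuousOn (fun z => conj (u z)) ball := fun hu =>
    continuous_conj.comp_continuousOn hu.continuousOn
  have hH : ∀ k l, ContinuousOn (Hm k l) ball := fun k l => hc Hm_smo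
  unfold En gr
  exact ((((hc (hf.dd 0)).mul (hcc (hg.dd 0))).mul (hH 1 1)).sub
    (((hc (hf.dd 0)).mul (hcc (hg.dd 1))).mul (hH 1 0))).sub
    (((hc (hf.dd 1)).mul (hcc (hg.dd 0))).mul (hH 0 1)) |>.add
    (((hc (hf.dd 1)).mul (hcc (hg.dd 1))).mul (hH 0 0))

end Pool.Agent.H89.SG
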