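import Pool.Agent.H89.SG.Aut2

/-!
# W2: chain rule for automorphisms

For `φ` an automorphism of the ball and `f` smooth on the ball, at `z` in the ball
`dd i (f ∘ φ) z = ∑_k dd k f (φ z) * dd i φ_k z` and
`db i (f ∘ φ) z = ∑_k db k f (φ z) * conj (dd i φ_k z)`.
Proof: `fderiv ℝ (f ∘ φ) z v = fderiv ℝ f (φ z) (fderiv ℝ φ z v)`, by `fderiv_eq` for `f` and for
the components of `φ` (whose `db` vanish) this is
`∑_k dd k f (φ z) (∑_i dd i φ_k z v_i) + ∑_k db k f (φ z) conj (∑_i dd i φ_k z v_i)`; put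
`v = bs i`, `v = I • bs i` in the definition of `dd i`, `db i`.
`Jc_comp`, `Jb_comp`: determinants of products of matrices (`ring`).
`ddb_comp`: apply the chain rule twice: `db l` of the function
`w ↦ ...`: for `z` in the ball `db l (f ∘ φ) = ∑_q (db q f ∘ φ) * conj (dd l φ_q)` near `z`; apply
`dd k` and the product rule; `dd k (conj (dd l φ_q)) = conj (db k (dd l φ_q)) = 0` since
`dd l φ_q` is holomorphic.
-/

set_option autoImplicit false

namespace Pool.Agent.H89.SG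

open Complex MeasureTheory
open scoped ContDiff ComplexConjugate

variable {φ : E → E} {f g : E → ℂ} {z : E}

/-- the entries `∂ φ_k / ∂ z_i` of the complex derivative -/
noncomputable def Dm (φ : E → E) (k i : Fin 2) (z : E) : ℂ := dd i (fun w => co k (φ w)) z

theorem jac_eq (φ : E → E) (z : E) :
    jac φ z = Dm φ 0 0 z * Dm φ 1 1 z - Dm φ 0 1 z * Dm φ 1 0 z := by
  simp [jac, Jc, Dm, co]

theorem Smo.comp (hf : Smo f) (hφ : IsAut φ) : Smo (fun w => f (φ w)) :=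
  ContDiffOn.comp (g := f) hf hφ.smooth (fun _ hz => hφ.maps hz)

theorem Hol.comp (hf : Hol f) (hφ : IsAut φ) : Hol (fun w => f (φ w)) :=
  ⟨Smo.comp hf.1 hφ, DifferentiableOn.comp (g := f) hf.2 hφ.holo (fun _ hz => hφ.maps hz)⟩

theorem aut_diffAt (hφ : IsAut φ) (hz : z ∈ ball) : DifferentiableAt ℝ φ z :=
  (hφ.smooth.contDiffAt (isOpen_ball.mem_nhds hz)).differentiableAt (by simp)

theorem fderiv_aut_fst (hφ : IsAut φ) (hz : z ∈ ball) (v : E) :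
    (fderiv ℝ φ z v).1 = Dm φ 0 0 z * v.1 + Dm φ 0 1 z * v.2 := by
  have hd := aut_diffAt hφ hz
  have h1 : fderiv ℝ (fun w => (φ w).1) z v = (fderiv ℝ φ z v).1 := by
    rw [(hd.hasFDerivAt.fst).fderiv]; rfl
  rw [← h1, hφ.hol_fst.fderiv_eq hz]
  simp [Dm, co]

theorem fderiv_aut_snd (hφ : IsAut φ) (hz : z ∈ ball) (v : E) :
    (fderiv ℝ φ z v).2 = Dm φ 1 0 z * v.1 + Dm φ 1 1 z * v.2 := by
  have hd := aut_diffAt hφ hz
  have h1 : fderiv ℝ (fun w => (φ w).2) z v = (fderiv ℝ φ z v).2 := by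
    rw [(hd.hasFDerivAt.snd).fderiv]; rfl
  rw [← h1, hφ.hol_snd.fderiv_eq hz]
  simp [Dm, co]

theorem fderiv_comp_aut (hf : Smo f) (hφ : IsAut φ) (hz : z ∈ ball) (v : E) :
    fderiv ℝ (fun w => f (φ w)) z v =
      dd 0 f (φ z) * (Dm φ 0 0 z * v.1 + Dm φ 0 1 z * v.2) +
      dd 1 f (φ z) * (Dm φ 1 0 z * v.1 + Dm φ 1 1 z * v.2) +
      db 0 f (φ z) * conj (Dm φ 0 0 z * v.1 + Dm φ 0 1 z * v.2) +
      db 1 f (φ z) * conj (Dm φ 1 0 z * v.1 + Dm φ 1 1 z * v.2) := by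
  have hd := aut_diffAt hφ hz
  have hfd : DifferentiableAt ℝ f (φ z) := hf.diffAt (hφ.maps hz)
  have h : HasFDerivAt (fun w => f (φ w)) ((fderiv ℝ f (φ z)).comp (fderiv ℝ φ z)) z :=
    hfd.hasFDerivAt.comp z hd.hasFDerivAt
  rw [h.fderiv, ContinuousLinearMap.comp_apply, fderiv_eq f (φ z), fderiv_aut_fst hφ hz,
    fderiv_aut_snd hφ hz]

theorem dd_comp (hf : Smo f) (hφ : IsAut φ) (hz : z ∈ ball) (i : Fin 2) :
    dd i (fun w => f (φ w)) z = dd 0 f (φ z) * Dm φ 0 i z + dd 1 f (φ z) * Dm φ 1 i z := by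
  have e : dd i (fun w => f (φ w)) z = (fderiv ℝ (fun w => f (φ w)) z (bs i) -
      I * fderiv ℝ (fun w => f (φ w)) z (I • bs i)) / 2 := rfl
  rw [e, fderiv_comp_aut hf hφ hz, fderiv_comp_aut hf hφ hz]
  fin_cases i
  · simp [bs]
    linear_combination ((db 0 f (φ z) * conj (Dm φ 0 0 z) + db 1 f (φ z) * conj (Dm φ 1 0 z)) -
      (dd 0 f (φ z) * Dm φ 0 0 z + dd 1 f (φ z) * Dm φ 1 0 z)) / 2 * I_sq
  · simp [bs]
    linear_combination ((db 0 f (φ z) * conj (Dm φ 0 1 z) + db 1 f (φ z) * conj (Dm φ 1 1 z)) -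
      (dd 0 f (φ z) * Dm φ 0 1 z + dd 1 f (φ z) * Dm φ 1 1 z)) / 2 * I_sq

theorem db_comp (hf : Smo f) (hφ : IsAut φ) (hz : z ∈ ball) (i : Fin 2) :
    db i (fun w => f (φ w)) z =
      db 0 f (φ z) * conj (Dm φ 0 i z) + db 1 f (φ z) * conj (Dm φ 1 i z) := by
  have e : db i (fun w => f (φ w)) z = (fderiv ℝ (fun w => f (φ w)) z (bs i) +
      I * fderiv ℝ (fun w => f (φ w)) z (I • bs i)) / 2 := rfl
  rw [e, fderiv_comp_aut hf hφ hz, fderiv_comp_aut hf hφ hz]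
  fin_cases i
  · simp [bs]
    linear_combination ((dd 0 f (φ z) * Dm φ 0 0 z + dd 1 f (φ z) * Dm φ 1 0 z) -
      (db 0 f (φ z) * conj (Dm φ 0 0 z) + db 1 f (φ z) * conj (Dm φ 1 0 z))) / 2 * I_sq
  · simp [bs]
    linear_combination ((dd 0 f (φ z) * Dm φ 0 1 z + dd 1 f (φ z) * Dm φ 1 1 z) -
      (db 0 f (φ z) * conj (Dm φ 0 1 z) + db 1 f (φ z) * conj (Dm φ 1 1 z))) / 2 * I_sq

theorem Jc_comp (hf : Smo f) (hg : Smo g) (hφ : IsAut φ) (hz : z ∈ ball) :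
    Jc (fun w => f (φ w)) (fun w => g (φ w)) z = jac φ z * Jc f g (φ z) := by
  rw [jac_eq]
  simp only [Jc, dd_comp hf hφ hz, dd_comp hg hφ hz]
  ring

theorem Jb_comp (hf : Smo f) (hg : Smo g) (hφ : IsAut φ) (hz : z ∈ ball) :
    Jb (fun w => f (φ w)) (fun w => g (φ w)) z = conj (jac φ z) * Jb f g (φ z) := by
  rw [jac_eq]
  simp only [Jb, db_comp hf hφ hz, db_comp hg hφ hz, map_sub, map_mul]
  ring

theorem hol_Dm (hφ : IsAut φ) (k i : Fin 2) : Hol (Dm φ k i) := by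
  fin_cases k
  · exact Hol.dd hφ.hol_fst i
  · exact Hol.dd hφ.hol_snd i

theorem ddb_comp (hf : Smo f) (hφ : IsAut φ) (hz : z ∈ ball) (k l : Fin 2) :
    dd k (db l (fun w => f (φ w))) z =
      ∑ p : Fin 2, ∑ q : Fin 2, dd p (db q f) (φ z) * Dm φ p k z * conj (Dm φ q l z) := by
  have hev : db l (fun w => f (φ w)) =ᶠ[nhds z] (fun w =>
      db 0 f (φ w) * conj (Dm φ 0 l w) + db 1 f (φ w) * conj (Dm φ 1 l w)) := by
    filter_upwards [isOpen_ball.mem_nhds hz] with w hw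
    exact db_comp hf hφ hw l
  rw [dd_congr hev]
  have hq : ∀ q : Fin 2, DifferentiableAt ℝ (fun w => db q f (φ w)) z := fun q =>
    (Smo.comp (hf.db q) hφ).diffAt hz
  have hD : ∀ q : Fin 2, DifferentiableAt ℝ (fun w => conj (Dm φ q l w)) z := fun q =>
    (Complex.conjCLE.differentiableAt).comp z ((hol_Dm hφ q l).smo.diffAt hz)
  have hD0 : ∀ q : Fin 2, dd k (fun w => conj (Dm φ q l w)) z = 0 := fun q => by
    rw [dd_conj ((hol_Dm hφ q l).smo.diffAt hz), (hol_Dm hφ q l).db_eq hz, map_zero]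
  have hm : ∀ q : Fin 2, DifferentiableAt ℝ
      (fun w => db q f (φ w) * conj (Dm φ q l w)) z := fun q => (hq q).mul (hD q)
  rw [dd_add (hm 0) (hm 1), dd_mul (hq 0) (hD 0),
    dd_mul (hq 1) (hD 1), hD0, hD0, dd_comp (hf.db 0) hφ hz, dd_comp (hf.db 1) hφ hz]
  simp only [Fin.sum_univ_two]
  ring

/-- the determinant of the mixed second derivatives -/
noncomputable def Hd (f : E → ℂ) (z : E) : ℂ :=
  dd 0 (db 0 f) z * dd 1 (db 1 f) z - dd 0 (db 1 f) z * dd 1 (db 0 f) z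

theorem Hd_comp (hf : Smo f) (hφ : IsAut φ) (hz : z ∈ ball) :
    Hd (fun w => f (φ w)) z = (normSq (jac φ z) : ℂ) * Hd f (φ z) := by
  rw [← Complex.mul_conj, jac_eq]
  simp only [Hd, ddb_comp hf hφ hz, Fin.sum_univ_two, map_sub, map_mul]
  ring

end Pool.Agent.H89.SG
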