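import Pool.Agent.H89.SG.PartX
import Pool.Agent.H89.SG.W2

/-!
# Vt: the Lipschitz extension of the height

`Vt q z = ∑ᶠ g, κ (m g z) * (v (g • q) + ℓ β g q)`.
* `lip_all`: for `g` a word in `S ∪ S⁻¹` of length `N`, `|v (g • q) + ℓ β g q - v q| ≤ N`, by
  induction from `lip`, `coc` and `β g⁻¹ q = - β g (g⁻¹ • q)` (from `coc` and `β 1 q = 0`).
* `Vt_eq`: reindex `g ↦ g h` and `∑ κ = 1`.
* smoothness: `Part.exists_finset` on each `{nsq < R}`.
* `Vt_grad`: on `{nsq < R'}` `Vt q z = v q + ∑_{g ∈ T} κ (m g z) (v (g • q) + ℓ β g q - v q)`, so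
  `|dd j (Vt q) z| ≤ ∑_{g ∈ T} sup |dd j (κ ∘ m g)| * N_g` on `{nsq ≤ R}`, independent of the line.
-/

set_option autoImplicit false

namespace Pool.Agent.H89.SG

open Complex MeasureTheory
open scoped ContDiff ComplexConjugate

variable {G : Type} [Group G] {m : G → E → E} {S : Finset G} {κ : E → ℝ} {r ρ : ℝ}

private theorem beta_one (L : Line G S) (q : L.Q) : L.β 1 q = 0 := by
  have h := L.coc 1 1 q
  rw [one_smul, mul_one] at h
  omega

private theorem beta_inv (L : Line G S) (g : G) (q : L.Q) : L.β g⁻¹ q = - L.β g (g⁻¹ • q) := by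
  have h := L.coc g g⁻¹ q
  rw [mul_inv_cancel, beta_one] at h
  omega

theorem Line.lip_all (hcl : Subgroup.closure (S : Set G) = ⊤) (g : G) :
    ∃ N : ℕ, ∀ (L : Line G S) (q : L.Q), |L.v (g • q) + L.ℓ * L.β g q - L.v q| ≤ N := by
  have hg : g ∈ Subgroup.closure (S : Set G) := by rw [hcl]; trivial
  induction hg using Subgroup.closure_induction with
  | mem x hx => exact ⟨1, fun L q => by exact_mod_cast L.lip x hx q⟩
  | one =>
    refine ⟨0, fun L q => ?_⟩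
    rw [one_smul, beta_one]
    simp
  | mul x y hx hy ihx ihy =>
    obtain ⟨N, hN⟩ := ihx
    obtain ⟨M, hM⟩ := ihy
    refine ⟨N + M, fun L q => ?_⟩
    have h1 := hN L (y • q)
    have h2 := hM L q
    rw [L.coc, mul_smul]
    have h3 : L.v (x • y • q) + L.ℓ * (L.β x (y • q) + L.β y q) - L.v q =
        (L.v (x • y • q) + L.ℓ * L.β x (y • q) - L.v (y • q)) +
        (L.v (y • q) + L.ℓ * L.β y q - L.v q) := by ring
    rw [h3]
    push_cast
    exact (abs_add_le _ _).trans (add_le_add h1 h2)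
  | inv x hx ihx =>
    obtain ⟨N, hN⟩ := ihx
    refine ⟨N, fun L q => ?_⟩
    have h1 := hN L (x⁻¹ • q)
    rw [smul_inv_smul] at h1
    rw [beta_inv, abs_sub_comm]
    have h3 : L.v q - (L.v (x⁻¹ • q) + L.ℓ * -L.β x (x⁻¹ • q)) =
        L.v q + L.ℓ * L.β x (x⁻¹ • q) - L.v (x⁻¹ • q) := by ring
    rw [h3]
    exact h1

/-- the smooth height -/
noncomputable def Vt (m : G → E → E) (κ : E → ℝ) (L : Line G S) (q : L.Q) (z : E) : ℝ :=
  ∑ᶠ g : G, κ (m g z) * ((L.v (g • q) + L.ℓ * L.β g q : ℤ) : ℝ)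

private theorem Vt_fin {R : ℝ} {T : Finset G}
    (hT : ∀ z, nsq z ≤ R → ∀ g, κ (m g z) ≠ 0 → g ∈ T) (L : Line G S) (q : L.Q) {z : E}
    (hz : nsq z ≤ R) : Vt m κ L q z =
      ∑ g ∈ T, κ (m g z) * ((L.v (g • q) + L.ℓ * L.β g q : ℤ) : ℝ) := by
  unfold Vt
  refine finsum_eq_sum_of_support_subset _ fun g hg => ?_
  rw [Function.mem_support] at hg
  exact Finset.mem_coe.2 (hT z hz g (left_ne_zero_of_mul hg))

private theorem Vt_fin' {R : ℝ} {T : Finset G}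
    (hT : ∀ z, nsq z ≤ R → ∀ g, κ (m g z) ≠ 0 → g ∈ T)
    (hT1 : ∀ z, nsq z ≤ R → ∑ g ∈ T, κ (m g z) = 1) (L : Line G S) (q : L.Q) {z : E}
    (hz : nsq z ≤ R) : Vt m κ L q z = L.v q +
      ∑ g ∈ T, κ (m g z) * ((L.v (g • q) + L.ℓ * L.β g q - L.v q : ℤ) : ℝ) := by
  rw [Vt_fin hT L q hz]
  have h1 : (L.v q : ℝ) = ∑ g ∈ T, κ (m g z) * (L.v q : ℝ) := by
    rw [← Finset.sum_mul, hT1 z hz, one_mul]
  rw [h1, ← Finset.sum_add_distrib]
  refine Finset.sum_congr rfl fun g _ => ?_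
  push_cast
  ring

theorem Vt_smo (hA : BAct G m) (hP : Part m r ρ κ) (L : Line G S) (q : L.Q) :
    Smo (fun z => ((Vt m κ L q z : ℝ) : ℂ)) := by
  intro z hz
  have hz1 : nsq z < 1 := hz
  obtain ⟨R, hR1, hR2⟩ := exists_between hz1
  obtain ⟨T, hT, hT1⟩ := hP.exists_finset hA hR2
  have h1 : ContDiffWithinAt ℝ ∞ (fun z => ∑ g ∈ T, ((κ (m g z) : ℝ) : ℂ) *
      ((L.v (g • q) + L.ℓ * L.β g q : ℤ) : ℂ)) ball z := by
    refine ContDiffWithinAt.sum fun g _ => ?_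
    exact (hP.smo hA g z hz).mul contDiffWithinAt_const
  have h2 : ∀ w : E, nsq w ≤ R → ((Vt m κ L q w : ℝ) : ℂ) = ∑ g ∈ T, ((κ (m g w) : ℝ) : ℂ) *
      ((L.v (g • q) + L.ℓ * L.β g q : ℤ) : ℂ) := by
    intro w hw
    rw [Vt_fin hT L q hw]
    push_cast
    rfl
  refine h1.congr_of_eventuallyEq ?_ (h2 z hR1.le)
  have h3 : {w : E | nsq w < R} ∈ nhds z := (isOpen_lt continuous_nsq continuous_const).mem_nhds hR1
  exact Filter.mem_of_superset (mem_nhdsWithin_of_mem_nhds h3) fun w hw => h2 w (le_of_lt hw)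

theorem Vt_eq (hA : BAct G m) (hP : Part m r ρ κ) (L : Line G S) (g : G) (q : L.Q) {z : E}
    (hz : z ∈ ball) : Vt m κ L (g • q) (m g z) + L.ℓ * L.β g q = Vt m κ L q z := by
  obtain ⟨T, hT, hT1⟩ := hP.exists_finset hA (R := nsq z) hz
  have hsupp : ∀ c : G → ℝ, (Function.support fun h => κ (m h z) * c h).Finite := by
    intro c
    refine T.finite_toSet.subset fun h hh => ?_
    rw [Function.mem_support] at hh
    exact Finset.mem_coe.2 (hT z le_rfl h (left_ne_zero_of_mul hh))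
  have h1 : Vt m κ L (g • q) (m g z) =
      ∑ᶠ h : G, (κ (m h z) * ((L.v (h • q) + L.ℓ * L.β h q : ℤ) : ℝ) -
        κ (m h z) * ((L.ℓ * L.β g q : ℤ) : ℝ)) := by
    unfold Vt
    rw [← finsum_comp_equiv (Equiv.mulRight g) (f := fun h => κ (m h z) *
      ((L.v (h • q) + L.ℓ * L.β h q : ℤ) : ℝ) - κ (m h z) * ((L.ℓ * L.β g q : ℤ) : ℝ))]
    refine finsum_congr fun h => ?_
    simp only [Equiv.coe_mulRight]
    rw [hA.mul h g z hz, mul_smul, L.coc]
    push_cast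
    ring
  have h2 : ∑ᶠ h : G, κ (m h z) * ((L.ℓ * L.β g q : ℤ) : ℝ) = L.ℓ * L.β g q := by
    rw [← finsum_mul, hP.sum z hz, one_mul]
    push_cast
    rfl
  rw [h1, finsum_sub_distrib (hsupp _) (hsupp _), h2]
  unfold Vt
  ring

theorem Vt_grad (hA : BAct G m) (hP : Part m r ρ κ) (hcl : Subgroup.closure (S : Set G) = ⊤)
    {R : ℝ} (hR : R < 1) : ∃ C : ℝ, 0 ≤ C ∧ ∀ (L : Line G S) (q : L.Q) (z : E), nsq z ≤ R →
      ∀ j, normSq (dd j (fun z => ((Vt m κ L q z : ℝ) : ℂ)) z) ≤ C := by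
  obtain ⟨R', hR1, hR2⟩ := exists_between hR
  obtain ⟨T, hT, hT1⟩ := hP.exists_finset hA hR2
  choose N hN using fun g => Line.lip_all (S := S) hcl g
  have hb : ∀ (g : G) (j : Fin 2), ∃ B : ℝ, ∀ z, nsq z ≤ R →
      ‖dd j (fun z => ((κ (m g z) : ℝ) : ℂ)) z‖ ≤ B := by
    intro g j
    have h1 : ContinuousOn (dd j (fun z => ((κ (m g z) : ℝ) : ℂ))) {z : E | nsq z ≤ R} :=
      ((hP.smo hA g).dd j).continuousOn.mono (nsq_le_subset_ball hR)
    exact (isCompact_nsq_le R).exists_bound_of_continuousOn h1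
  choose B hB using hb
  have hdd : ∀ (L : Line G S) (q : L.Q) (z : E), nsq z ≤ R → ∀ j,
      dd j (fun z => ((Vt m κ L q z : ℝ) : ℂ)) z = ∑ g ∈ T,
        ((L.v (g • q) + L.ℓ * L.β g q - L.v q : ℤ) : ℂ) *
          dd j (fun z => ((κ (m g z) : ℝ) : ℂ)) z := by
    intro L q z hz j
    have hzb : z ∈ ball := nsq_le_subset_ball hR hz
    have h3 : {w : E | nsq w < R'} ∈ nhds z :=
      (isOpen_lt continuous_nsq continuous_const).mem_nhds (lt_of_le_of_lt hz hR1)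
    have h4 : (fun z => ((Vt m κ L q z : ℝ) : ℂ)) =ᶠ[nhds z] fun w => (L.v q : ℂ) +
        ∑ g ∈ T, ((L.v (g • q) + L.ℓ * L.β g q - L.v q : ℤ) : ℂ) * ((κ (m g w) : ℝ) : ℂ) := by
      refine Filter.mem_of_superset h3 fun w hw => ?_
      have hw' : nsq w ≤ R' := le_of_lt hw
      change ((Vt m κ L q w : ℝ) : ℂ) = _
      rw [Vt_fin' hT hT1 L q hw']
      push_cast
      congr 1
      exact Finset.sum_congr rfl fun g _ => by ring
    have hd : ∀ g : G, DifferentiableAt ℝ (fun z => ((κ (m g z) : ℝ) : ℂ)) z :=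
      fun g => (hP.smo hA g).diffAt hzb
    rw [dd_congr h4, dd_add (differentiableAt_const _) ?_, dd_const, zero_add, dd_sum]
    · exact Finset.sum_congr rfl fun g _ => dd_const_mul _ (hd g)
    · intro g _
      exact (hd g).const_mul _
    · exact DifferentiableAt.fun_sum fun g _ => (hd g).const_mul _
  have hBn : ∀ j, 0 ≤ ∑ g ∈ T, (N g : ℝ) * |B g j| := fun j =>
    Finset.sum_nonneg fun g _ => mul_nonneg (Nat.cast_nonneg _) (abs_nonneg _)
  have hmain : ∀ (L : Line G S) (q : L.Q) (z : E), nsq z ≤ R → ∀ j,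
      ‖dd j (fun z => ((Vt m κ L q z : ℝ) : ℂ)) z‖ ≤ ∑ g ∈ T, (N g : ℝ) * |B g j| := by
    intro L q z hz j
    rw [hdd L q z hz j]
    refine (norm_sum_le _ _).trans (Finset.sum_le_sum fun g _ => ?_)
    rw [norm_mul]
    refine mul_le_mul ?_ ((hB g j z hz).trans (le_abs_self _)) (norm_nonneg _)
      (Nat.cast_nonneg _)
    rw [Complex.norm_intCast]
    exact_mod_cast hN g L q
  refine ⟨(∑ g ∈ T, (N g : ℝ) * |B g 0|) ^ 2 + (∑ g ∈ T, (N g : ℝ) * |B g 1|) ^ 2,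
    add_nonneg (sq_nonneg _) (sq_nonneg _), fun L q z hz j => ?_⟩
  rw [Complex.normSq_eq_norm_sq]
  have h1 := pow_le_pow_left₀ (norm_nonneg _) (hmain L q z hz j) 2
  fin_cases j
  · exact h1.trans (le_add_of_nonneg_right (sq_nonneg _))
  · exact h1.trans (le_add_of_nonneg_left (sq_nonneg _))

end Pool.Agent.H89.SG
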