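import Pool.Agent.H89.SG.LHod
import Pool.Agent.H89.SG.Hmx
import Pool.Agent.H89.SG.Vt

/-!
# Enx: harmonic functions minimize the energy

Let `u_q = Re F q`, `v_q = Vt q`, `w_q = v_q - u_q` (real, smooth); `w (g • q) (m g z) = w q z`.
CROSS TERM. `∑_q ∫ κ En (gr w_q) (gr u_q) = 0`: apply `PT` with `I = L.Q` and
`T(k)(z, q) = w_q(z) En (gr k) (gr u_q) z` (only `dd j k` terms; continuous coefficients; all `i` are
allowed since `Q` is finite). Invariance: `En_comp` for `k ∘ m g` and `u_q`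
(`u_q = u_{g q} ∘ m g + const` on the ball, so `gr u_q z = gr (u_{gq} ∘ m g) z`).
Integration by parts: `κ w_q En(gr ·)(gr u_q)` has coefficients
`A_0 = db 0 u H_11 - db 1 u H_10` (of `dd 0`), `A_1 = -(db 0 u H_01 - db 1 u H_00)` (of `dd 1`);
here `conj (dd j u) = db j u` for real `u`. `dd 0 A_0 + dd 1 A_1 = 0` because
`dd i (db j u) = 0` (`u` is the real part of a holomorphic function: `db_re`, so `db j u` is
antiholomorphic) and `dd_Hm_comm`. So `0 = ∫ dd 0 (κ w A_0) + dd 1 (κ w A_1)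
= ∫ w En (gr κ) (gr u) + ∫ κ En (gr w) (gr u)`, sum over `q`, use `PT`.
THEN `En (gr v) (gr v) = En (gr u) (gr u) + En (gr w) (gr w) + 2 Re En (gr w) (gr u)`
(`En a b` is sesquilinear and Hermitian), so
`∑ ∫ κ (En (gr u) (gr u)).re ≤ ∑ ∫ κ (En (gr v) (gr v)).re`, and `gr u = gr F / 2` (`dd_re`).
BOUND: on the support of `κ`, `(En (gr v) (gr v)).re ≤ C` by `Vt_grad` and `En_le`, uniformly in the
line, so the right-hand side is at most `C ∫ κ * card Q`.
-/

set_option autoImplicit false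

namespace Pool.Agent.H89.SG

open Complex MeasureTheory
open scoped ContDiff ComplexConjugate

variable {G : Type} [Group G] {m : G → E → E} {S : Finset G} {κ : E → ℝ} {r ρ : ℝ}

private theorem smo_mul {f g : E → ℂ} (hf : Smo f) (hg : Smo g) : Smo (fun z => f z * g z) :=
  ContDiffOn.mul hf hg

private theorem smo_add {f g : E → ℂ} (hf : Smo f) (hg : Smo g) : Smo (fun z => f z + g z) :=
  ContDiffOn.add hf hg

private theorem smo_sub {f g : E → ℂ} (hf : Smo f) (hg : Smo g) : Smo (fun z => f z - g z) :=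
  ContDiffOn.sub hf hg

private theorem smo_conj {f : E → ℂ} (hf : Smo f) : Smo (fun z => conj (f z)) :=
  (Complex.conjCLE.contDiff (n := ∞)).comp_contDiffOn hf

private theorem smo_re {f : E → ℂ} (hf : Smo f) : Smo (fun z => (((f z).re : ℝ) : ℂ)) :=
  (Complex.ofRealCLM.contDiff (n := ∞)).comp_contDiffOn
    ((Complex.reCLM.contDiff (n := ∞)).comp_contDiffOn hf)

private theorem smo_part (hP : Part m r ρ κ) : Smo (fun z => ((κ z : ℝ) : ℂ)) :=
  ((Complex.ofRealCLM.contDiff (n := ∞)).comp hP.smooth).contDiffOn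

private theorem gr_congr {f g : E → ℂ} {z : E} (hz : z ∈ ball) (h : ∀ x ∈ ball, f x = g x) :
    gr f z = gr g z := by
  funext j
  apply dd_congr
  filter_upwards [isOpen_ball.mem_nhds hz] with x hx
  exact h x hx

private theorem En_herm {a b : Fin 2 → ℂ} {z : E} (hz : z ∈ ball) :
    conj (En a b z) = En b a z := by
  have h : ∀ k l, conj (Hm k l z) = Hm l k z := by
    intro k l
    rw [Hm_eq hz, Hm_eq hz]
    simp only [map_add, map_div₀, map_mul, map_pow, Complex.conj_ofReal, Complex.conj_conj]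
    have h1 : conj (if k = l then (1 : ℂ) else 0) = if l = k then 1 else 0 := by
      by_cases hkl : k = l
      · rw [if_pos hkl, if_pos hkl.symm, map_one]
      · rw [if_neg hkl, if_neg (fun h => hkl h.symm), map_zero]
    rw [h1]
    ring
  unfold En
  simp only [map_add, map_sub, map_mul, h, Complex.conj_conj]
  ring

/-- the coefficients of the flux -/
private noncomputable def Bf (U : E → ℂ) (j : Fin 2) (z : E) : ℂ :=
  if j = 0 then conj (dd 0 U z) * Hm 1 1 z - conj (dd 1 U z) * Hm 1 0 z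
  else conj (dd 1 U z) * Hm 0 0 z - conj (dd 0 U z) * Hm 0 1 z

private theorem Bf_smo {U : E → ℂ} (hU : Smo U) (j : Fin 2) : Smo (Bf U j) := by
  unfold Bf
  by_cases hj : j = 0
  · simp only [if_pos hj]
    exact smo_sub (smo_mul (smo_conj (hU.dd 0)) Hm_smo) (smo_mul (smo_conj (hU.dd 1)) Hm_smo)
  · simp only [if_neg hj]
    exact smo_sub (smo_mul (smo_conj (hU.dd 1)) Hm_smo) (smo_mul (smo_conj (hU.dd 0)) Hm_smo)

private theorem En_Bf (a : Fin 2 → ℂ) (U : E → ℂ) (z : E) :
    En a (gr U z) z = a 0 * Bf U 0 z + a 1 * Bf U 1 z := by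
  unfold En gr Bf
  simp only [if_true]
  have h : ¬ ((1 : Fin 2) = 0) := by decide
  rw [if_neg h]
  ring

private theorem dd_conj_dd_re {F : E → ℂ} (hF : Hol F) {z : E} (hz : z ∈ ball) (i j : Fin 2) :
    dd i (fun x => conj (dd j (fun y => (((F y).re : ℝ) : ℂ)) x)) z = 0 := by
  have h1 : dd i (fun x => conj (dd j (fun y => (((F y).re : ℝ) : ℂ)) x)) z =
      dd i (fun x => (1 / 2 : ℂ) * conj (dd j F x)) z := by
    apply dd_congr
    filter_upwards [isOpen_ball.mem_nhds hz] with x hx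
    rw [dd_re hF hx, map_div₀]
    have : (starRingEnd ℂ) 2 = 2 := Complex.conj_ofReal 2
    rw [this]
    ring
  have hD : Hol (dd j F) := hF.dd j
  have h2 : DifferentiableAt ℝ (fun x => conj (dd j F x)) z := (smo_conj hD.smo).diffAt hz
  rw [h1, dd_const_mul _ h2, dd_conj (hD.smo.diffAt hz), hD.db_eq hz, map_zero, mul_zero]

private theorem Bf_div {F : E → ℂ} (hF : Hol F) {z : E} (hz : z ∈ ball) :
    dd 0 (Bf (fun y => (((F y).re : ℝ) : ℂ)) 0) z + dd 1 (Bf (fun y => (((F y).re : ℝ) : ℂ)) 1) z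
      = 0 := by
  have hU : Smo (fun y => (((F y).re : ℝ) : ℂ)) := smo_re hF.smo
  have hc : ∀ j, Smo (fun x => conj (dd j (fun y => (((F y).re : ℝ) : ℂ)) x)) :=
    fun j => smo_conj (hU.dd j)
  have hH : ∀ k l, DifferentiableAt ℝ (Hm k l) z := fun k l => (Hm_smo (k := k) (l := l)).diffAt hz
  have h0 : dd 0 (Bf (fun y => (((F y).re : ℝ) : ℂ)) 0) z =
      conj (dd 0 (fun y => (((F y).re : ℝ) : ℂ)) z) * dd 0 (Hm 1 1) z -
      conj (dd 1 (fun y => (((F y).re : ℝ) : ℂ)) z) * dd 0 (Hm 1 0) z := by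
    have e : Bf (fun y => (((F y).re : ℝ) : ℂ)) 0 = fun z =>
        (fun x => conj (dd 0 (fun y => (((F y).re : ℝ) : ℂ)) x) * Hm 1 1 x) z -
        (fun x => conj (dd 1 (fun y => (((F y).re : ℝ) : ℂ)) x) * Hm 1 0 x) z := by
      funext x
      simp only [Bf, if_true]
    rw [e, dd_sub ((smo_mul (hc 0) Hm_smo).diffAt hz) ((smo_mul (hc 1) Hm_smo).diffAt hz),
      dd_mul ((hc 0).diffAt hz) (hH 1 1), dd_mul ((hc 1).diffAt hz) (hH 1 0),
      dd_conj_dd_re hF hz, dd_conj_dd_re hF hz]
    ring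
  have h1 : dd 1 (Bf (fun y => (((F y).re : ℝ) : ℂ)) 1) z =
      conj (dd 1 (fun y => (((F y).re : ℝ) : ℂ)) z) * dd 1 (Hm 0 0) z -
      conj (dd 0 (fun y => (((F y).re : ℝ) : ℂ)) z) * dd 1 (Hm 0 1) z := by
    have e : Bf (fun y => (((F y).re : ℝ) : ℂ)) 1 = fun z =>
        (fun x => conj (dd 1 (fun y => (((F y).re : ℝ) : ℂ)) x) * Hm 0 0 x) z -
        (fun x => conj (dd 0 (fun y => (((F y).re : ℝ) : ℂ)) x) * Hm 0 1 x) z := by
      funext x
      have h : ¬ ((1 : Fin 2) = 0) := by decide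
      simp only [Bf, if_neg h]
    rw [e, dd_sub ((smo_mul (hc 1) Hm_smo).diffAt hz) ((smo_mul (hc 0) Hm_smo).diffAt hz),
      dd_mul ((hc 1).diffAt hz) (hH 0 0), dd_mul ((hc 0).diffAt hz) (hH 0 1),
      dd_conj_dd_re hF hz, dd_conj_dd_re hF hz]
    ring
  rw [h0, h1, dd_Hm_comm hz 0 1 1, dd_Hm_comm hz 0 1 0]
  ring

private theorem ibp1 {K W : E → ℂ} {F : E → ℂ} (hK : Smo K) (hW : Smo W) (hF : Hol F)
    (hρ : ρ < 1) (hs : ∀ z ∈ ball, K z ≠ 0 → nsq z ≤ ρ) :
    (∫ z in ball, W z * En (gr K z) (gr (fun y => (((F y).re : ℝ) : ℂ)) z) z) +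
      ∫ z in ball, K z * En (gr W z) (gr (fun y => (((F y).re : ℝ) : ℂ)) z) z = 0 := by
  set U : E → ℂ := fun y => (((F y).re : ℝ) : ℂ) with hUd
  have hU : Smo U := smo_re hF.smo
  have hB : ∀ j, Smo (Bf U j) := fun j => Bf_smo hU j
  have hg : ∀ j, Smo (fun z => K z * (W z * Bf U j z)) := fun j => smo_mul hK (smo_mul hW (hB j))
  have hgs : ∀ j, ∀ z ∈ ball, (fun z => K z * (W z * Bf U j z)) z ≠ 0 → nsq z ≤ ρ := by
    intro j z hz h
    apply hs z hz
    intro h0
    apply h
    simp only [h0, zero_mul]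
  have hi : ∀ j, ∫ z in ball, dd j (fun z => K z * (W z * Bf U j z)) z = 0 :=
    fun j => integral_dd (hg j) hρ (hgs j) j
  have hint : ∀ j, IntegrableOn (fun z => dd j (fun z => K z * (W z * Bf U j z)) z) ball :=
    fun j => integrableOn_of_supp ((hg j).dd j).continuousOn hρ (dd_supp (hgs j) j)
  have hc1 : ContinuousOn (fun z => W z * En (gr K z) (gr U z) z) ball :=
    ContinuousOn.mul hW.continuousOn (continuousOn_En hK hU)
  have hc2 : ContinuousOn (fun z => K z * En (gr W z) (gr U z) z) ball :=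
    ContinuousOn.mul hK.continuousOn (continuousOn_En hW hU)
  have hi1 : IntegrableOn (fun z => W z * En (gr K z) (gr U z) z) ball := by
    refine integrableOn_of_supp hc1 hρ ?_
    intro z hz h
    by_contra hn
    apply h
    have hd : ∀ j, dd j K z = 0 := by
      intro j
      by_contra h'
      exact hn (dd_supp hs j z hz h')
    have : En (gr K z) (gr U z) z = 0 := by
      rw [En_Bf]
      simp only [gr, hd, zero_mul, add_zero]
    simp only [this, mul_zero]
  have hi2 : IntegrableOn (fun z => K z * En (gr W z) (gr U z) z) ball := by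
    refine integrableOn_of_supp hc2 hρ ?_
    intro z hz h
    apply hs z hz
    intro h0
    apply h
    simp only [h0, zero_mul]
  rw [← integral_add hi1 hi2]
  have e : ∀ z ∈ ball, W z * En (gr K z) (gr U z) z + K z * En (gr W z) (gr U z) z =
      dd 0 (fun z => K z * (W z * Bf U 0 z)) z + dd 1 (fun z => K z * (W z * Bf U 1 z)) z := by
    intro z hz
    rw [En_Bf, En_Bf]
    have h : ∀ j, dd j (fun z => K z * (W z * Bf U j z)) z =
        dd j K z * (W z * Bf U j z) + K z * (dd j W z * Bf U j z + W z * dd j (Bf U j) z) := by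
      intro j
      rw [dd_mul (hK.diffAt hz) ((smo_mul hW (hB j)).diffAt hz),
        dd_mul (hW.diffAt hz) ((hB j).diffAt hz)]
    rw [h 0, h 1]
    have hd := Bf_div hF hz
    rw [← hUd] at hd
    simp only [gr]
    linear_combination -(K z * W z) * hd
  rw [setIntegral_congr_fun measurableSet_ball e, integral_add (hint 0) (hint 1), hi 0, hi 1,
    add_zero]

private theorem smo_of_holre (L : Line G S) {F : L.Q → E → ℂ} (hF : HD m L F) (q : L.Q) :
    Smo (fun z => (((F q z).re : ℝ) : ℂ)) := smo_re (hF.hol q).smo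

theorem cross (hA : BAct G m) (hP : Part m r ρ κ) (L : Line G S) (F : L.Q → E → ℂ)
    (hF : HD m L F) (w : L.Q → E → ℝ) (hw : ∀ q, Smo (fun z => (w q z : ℂ)))
    (hwe : ∀ (g : G) (q : L.Q), ∀ z ∈ ball, w (g • q) (m g z) = w q z) :
    ∑ q, ∫ z in ball, ((κ z : ℝ) : ℂ) * En (gr (fun z => (w q z : ℂ)) z)
      (gr (fun z => (((F q z).re : ℝ) : ℂ)) z) z = 0 := by
  set K : E → ℂ := fun z => ((κ z : ℝ) : ℂ) with hKd
  have hK : Smo K := smo_part hP
  have hU : ∀ q, Smo (fun z => (((F q z).re : ℝ) : ℂ)) := fun q => smo_of_holre L hF q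
  have hs : ∀ z ∈ ball, K z ≠ 0 → nsq z ≤ ρ := by
    intro z _ h
    apply hP.supp z
    intro h0
    apply h
    simp only [hKd, h0, Complex.ofReal_zero]
  let A : Fin 2 → E → L.Q → ℂ := fun j z q =>
    (w q z : ℂ) * Bf (fun z => (((F q z).re : ℝ) : ℂ)) j z
  let Z : Fin 2 → E → L.Q → ℂ := fun _ _ _ => 0
  have hTT : ∀ (k : E → ℂ) (x : E) (q : L.Q), TT A Z k x q =
      (w q x : ℂ) * En (gr k x) (gr (fun z => (((F q z).re : ℝ) : ℂ)) x) x := by
    intro k x q
    rw [En_Bf]
    simp only [TT, A, Z, Fin.sum_univ_two, gr]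
    ring
  have hA1 : ∀ j i, ContinuousOn (fun x => A j x i) ball := fun j i =>
    ContinuousOn.mul (hw i).continuousOn (Bf_smo (hU i) j).continuousOn
  have hZ1 : ∀ j i, ContinuousOn (fun x => Z j x i) ball := fun j i => continuousOn_const
  have hinv : ∀ (g : G) (k : E → ℂ), Smo k → ∀ x ∈ ball, ∀ i : L.Q,
      TT A Z (fun z => k (m g z)) x i =
        (normSq (jac (m g) x) : ℂ) * TT A Z k (m g x) (g • i) := by
    intro g k hk x hx q
    rw [hTT, hTT, hwe g q x hx]
    have h1 : gr (fun z => (((F q z).re : ℝ) : ℂ)) x =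
        gr (fun z => (((F (g • q) (m g z)).re : ℝ) : ℂ)) x := by
      have h2 : gr (fun z => (((F q z).re : ℝ) : ℂ)) x =
          gr (fun z => (((F (g • q) (m g z)).re : ℝ) : ℂ) + ((L.ℓ * L.β g q : ℤ) : ℂ)) x := by
        apply gr_congr hx
        intro z hz
        rw [← hF.eq g q z hz]
        push_cast
        ring
      rw [h2]
      funext j
      have hd : DifferentiableAt ℝ (fun z => (((F (g • q) (m g z)).re : ℝ) : ℂ)) x :=
        ((hU (g • q)).comp (hA.aut g)).diffAt hx
      simp only [gr]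
      rw [dd_add hd (differentiableAt_const _), dd_const, add_zero]
    rw [h1]
    have h3 := En_comp hk (hU (g • q)) (hA.aut g) hx
    rw [h3]
    ring
  have hPT := PT hA hP A Z hA1 hZ1 (fun R _ => Set.toFinite _) hinv
  rw [finsum_eq_sum_of_fintype] at hPT
  have hib : ∀ q : L.Q, (∫ x in ball, TT A Z K x q) +
      ∫ z in ball, K z * En (gr (fun z => (w q z : ℂ)) z)
        (gr (fun z => (((F q z).re : ℝ) : ℂ)) z) z = 0 := by
    intro q
    have h := ibp1 (ρ := ρ) hK (hw q) (hF.hol q) hP.ρ_lt hs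
    rw [← h]
    congr 1
    apply setIntegral_congr_fun measurableSet_ball
    intro z _
    exact hTT K z q
  have hsum : (∑ q : L.Q, ∫ x in ball, TT A Z K x q) +
      ∑ q : L.Q, ∫ z in ball, K z * En (gr (fun z => (w q z : ℂ)) z)
        (gr (fun z => (((F q z).re : ℝ) : ℂ)) z) z = 0 := by
    rw [← Finset.sum_add_distrib]
    exact Finset.sum_eq_zero fun q _ => hib q
  rw [hPT, zero_add] at hsum
  exact hsum

theorem energy_bound (hA : BAct G m) (hP : Part m r ρ κ)
    (hcl : Subgroup.closure (S : Set G) = ⊤) : ∃ C : ℝ, 0 ≤ C ∧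
      ∀ (L : Line G S) (F : L.Q → E → ℂ), HD m L F →
        ∑ q, ∫ z in ball, κ z * (En (gr (F q) z) (gr (F q) z) z).re ≤ C * Fintype.card L.Q := by
  obtain ⟨Cg, hCg0, hCg⟩ := Vt_grad (S := S) hA hP hcl hP.ρ_lt
  obtain ⟨Ce, hCe0, hCe⟩ := En_le hP.ρ_lt
  have hκc : Continuous κ := hP.smooth.continuous
  have hκi : IntegrableOn κ ball :=
    integrableOn_of_supp hκc.continuousOn hP.ρ_lt (fun z _ h => hP.supp z h)
  have hκ0 : 0 ≤ ∫ z in ball, κ z := integral_nonneg fun z => hP.nonneg z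
  refine ⟨4 * (Ce * (Cg + Cg)) * ∫ z in ball, κ z, by positivity, ?_⟩
  intro L F hF
  have hU : ∀ q, Smo (fun z => (((F q z).re : ℝ) : ℂ)) := fun q => smo_of_holre L hF q
  have hV : ∀ q, Smo (fun z => ((Vt m κ L q z : ℝ) : ℂ)) := fun q => Vt_smo hA hP L q
  let w : L.Q → E → ℝ := fun q z => Vt m κ L q z - (F q z).re
  have hwd : ∀ q z, w q z = Vt m κ L q z - (F q z).re := fun q z => rfl
  have hW : ∀ q, Smo (fun z => (w q z : ℂ)) := by
    intro q
    have h := smo_sub (hV q) (hU q)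
    have e : (fun z => (w q z : ℂ)) =
        fun z => ((Vt m κ L q z : ℝ) : ℂ) - (((F q z).re : ℝ) : ℂ) := by
      funext z
      rw [hwd]
      push_cast
      rfl
    rw [e]
    exact h
  have hwe : ∀ (g : G) (q : L.Q), ∀ z ∈ ball, w (g • q) (m g z) = w q z := by
    intro g q z hz
    have h1 := Vt_eq hA hP L g q hz
    have h2 := hF.eq g q z hz
    rw [hwd, hwd]
    linarith
  have hcr := cross hA hP L F hF w hW hwe
  -- integrability
  have hint : ∀ f g : E → ℂ, Smo f → Smo g →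
      IntegrableOn (fun z => ((κ z : ℝ) : ℂ) * En (gr f z) (gr g z) z) ball := by
    intro f g hf hg
    refine integrableOn_of_supp (ContinuousOn.mul (smo_part hP).continuousOn
      (continuousOn_En hf hg)) hP.ρ_lt ?_
    intro z _ h
    apply hP.supp z
    intro h0
    apply h
    simp only [h0, Complex.ofReal_zero, zero_mul]
  have hre : ∀ (z : E) (x : ℂ), (((κ z : ℝ) : ℂ) * x).re = κ z * x.re := by
    intro z x
    rw [Complex.re_ofReal_mul]
  have hintr : ∀ f g : E → ℂ, Smo f → Smo g →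
      IntegrableOn (fun z => κ z * (En (gr f z) (gr g z) z).re) ball := by
    intro f g hf hg
    have h : IntegrableOn (fun z => (((κ z : ℝ) : ℂ) * En (gr f z) (gr g z) z).re) ball :=
      (hint f g hf hg).re
    refine h.congr_fun ?_ measurableSet_ball
    intro z _
    exact hre z _
  have hcr' : ∑ q, ∫ z in ball, κ z * (En (gr (fun z => (w q z : ℂ)) z)
      (gr (fun z => (((F q z).re : ℝ) : ℂ)) z) z).re = 0 := by
    have h := congrArg Complex.re hcr
    rw [Complex.re_sum, Complex.zero_re] at h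
    rw [← h]
    apply Finset.sum_congr rfl
    intro q _
    have h2 := integral_re (hint _ _ (hW q) (hU q))
    have h3 : (∫ z in ball, ((κ z : ℝ) : ℂ) * En (gr (fun z => (w q z : ℂ)) z)
      (gr (fun z => (((F q z).re : ℝ) : ℂ)) z) z).re = RCLike.re (∫ z in ball,
        ((κ z : ℝ) : ℂ) * En (gr (fun z => (w q z : ℂ)) z)
      (gr (fun z => (((F q z).re : ℝ) : ℂ)) z) z) := rfl
    rw [h3, ← h2]
    apply setIntegral_congr_fun measurableSet_ball
    intro z _
    exact (hre z _).symm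
  -- pointwise
  have hpt : ∀ q : L.Q, ∀ z ∈ ball, κ z * (En (gr (F q) z) (gr (F q) z) z).re ≤
      4 * (Ce * (Cg + Cg)) * κ z - 8 * (κ z * (En (gr (fun z => (w q z : ℂ)) z)
      (gr (fun z => (((F q z).re : ℝ) : ℂ)) z) z).re) := by
    intro q z hz
    set a : Fin 2 → ℂ := gr (fun z => (((F q z).re : ℝ) : ℂ)) z with ha
    set b : Fin 2 → ℂ := gr (fun z => (w q z : ℂ)) z with hb
    have hF2 : gr (F q) z = fun j => 2 * a j := by
      funext j
      have h := dd_re (j := j) (hF.hol q) hz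
      simp only [ha, gr]
      rw [h]
      ring
    have hV2 : gr (fun z => ((Vt m κ L q z : ℝ) : ℂ)) z = fun j => b j + a j := by
      funext j
      have e : (fun z => ((Vt m κ L q z : ℝ) : ℂ)) =
          fun z => (w q z : ℂ) + (((F q z).re : ℝ) : ℂ) := by
        funext z
        rw [hwd]
        push_cast
        ring
      simp only [ha, hb, gr]
      rw [e, dd_add ((hW q).diffAt hz) ((hU q).diffAt hz)]
    have e1 : En (gr (F q) z) (gr (F q) z) z = ((4 : ℝ) : ℂ) * En a a z := by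
      rw [hF2]
      have : (starRingEnd ℂ) 2 = 2 := Complex.conj_ofReal 2
      unfold En
      simp only [map_mul, this]
      push_cast
      ring
    have e2 : En (gr (fun z => ((Vt m κ L q z : ℝ) : ℂ)) z)
        (gr (fun z => ((Vt m κ L q z : ℝ) : ℂ)) z) z =
        En b b z + En a a z + (En b a z + conj (En b a z)) := by
      rw [hV2, En_herm hz]
      unfold En
      simp only [map_add]
      ring
    have e3 : (En (gr (fun z => ((Vt m κ L q z : ℝ) : ℂ)) z)
        (gr (fun z => ((Vt m κ L q z : ℝ) : ℂ)) z) z).re =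
        (En b b z).re + (En a a z).re + 2 * (En b a z).re := by
      rw [e2]
      simp only [Complex.add_re, Complex.conj_re]
      ring
    have e4 : 0 ≤ (En b b z).re :=
      le_trans (add_nonneg (Complex.normSq_nonneg _) (Complex.normSq_nonneg _)) (En_ge hz)
    rw [e1, Complex.re_ofReal_mul]
    by_cases hκz : κ z = 0
    · rw [hκz]
      simp
    · have hzρ := hP.supp z hκz
      have e5 := hCe z (gr (fun z => ((Vt m κ L q z : ℝ) : ℂ)) z) hzρ
      have e6 := hCg L q z hzρ 0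
      have e7 := hCg L q z hzρ 1
      have e8 : (En (gr (fun z => ((Vt m κ L q z : ℝ) : ℂ)) z)
        (gr (fun z => ((Vt m κ L q z : ℝ) : ℂ)) z) z).re ≤ Ce * (Cg + Cg) := by
        refine e5.trans (mul_le_mul_of_nonneg_left (add_le_add e6 e7) hCe0)
      have e9 : (En a a z).re ≤ Ce * (Cg + Cg) - 2 * (En b a z).re := by
        rw [e3] at e8
        linarith
      have e10 := mul_le_mul_of_nonneg_left e9 (hP.nonneg z)
      nlinarith [e10]
  have hq : ∀ q : L.Q, (∫ z in ball, κ z * (En (gr (F q) z) (gr (F q) z) z).re) ≤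
      4 * (Ce * (Cg + Cg)) * (∫ z in ball, κ z) -
        8 * ∫ z in ball, κ z * (En (gr (fun z => (w q z : ℂ)) z)
      (gr (fun z => (((F q z).re : ℝ) : ℂ)) z) z).re := by
    intro q
    have i1 : IntegrableOn (fun z => 4 * (Ce * (Cg + Cg)) * κ z) ball := hκi.const_mul _
    have i2 : IntegrableOn (fun z => 8 * (κ z * (En (gr (fun z => (w q z : ℂ)) z)
      (gr (fun z => (((F q z).re : ℝ) : ℂ)) z) z).re)) ball :=
      (hintr _ _ (hW q) (hU q)).const_mul _
    have h := setIntegral_mono_on (hintr _ _ (hF.hol q).smo (hF.hol q).smo) (i1.sub i2)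
      measurableSet_ball (hpt q)
    refine h.trans (le_of_eq ?_)
    have h2 := integral_sub i1 i2
    simp only [Pi.sub_apply]
    rw [h2, integral_const_mul, integral_const_mul]
  calc ∑ q, ∫ z in ball, κ z * (En (gr (F q) z) (gr (F q) z) z).re
      ≤ ∑ q : L.Q, (4 * (Ce * (Cg + Cg)) * (∫ z in ball, κ z) -
        8 * ∫ z in ball, κ z * (En (gr (fun z => (w q z : ℂ)) z)
      (gr (fun z => (((F q z).re : ℝ) : ℂ)) z) z).re) := Finset.sum_le_sum fun q _ => hq q
    _ = 4 * (Ce * (Cg + Cg)) * (∫ z in ball, κ z) * Fintype.card L.Q := by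
        rw [Finset.sum_sub_distrib, Finset.sum_const, Finset.card_univ, nsmul_eq_mul,
          ← Finset.mul_sum, hcr']
        ring

end Pool.Agent.H89.SG
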