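import Pool.Agent.H89.SG.Gap
import Pool.Agent.H49.HY.MS

/-!
# FinalQ: the frozen statement S02827 from a lattice without infinite FM subgroups
-/

set_option autoImplicit false

namespace Pool.Agent.H89.SG

/-- the conclusion of S02827 from a torsion-free lattice of `U(2,1)` without infinite FM subgroup -/
theorem final_of {G : Type} [Group G] {ρ : G →* Matrix (Fin 3) (Fin 3) ℂ} (h : Latt ρ)
    (htf : TorFree G) (S : Finset G) (hcl : Subgroup.closure (S : Set G) = ⊤)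
    (hfm : ∀ K : Subgroup G, (K : Set G).Infinite →
      ¬ ∀ (X : Type) [MulAction K X],
        (∃ m : Set X → ℝ, (∀ A, 0 ≤ m A) ∧ m Set.univ = 1 ∧
          (∀ A B, Disjoint A B → m (A ∪ B) = m A + m B) ∧
          ∀ (k : K) (A : Set X), m ((fun x => k • x) ⁻¹' A) = m A) →
        ∃ x : X, (MulAction.orbit K x).Finite) :
  ∃ (G : Type) (_ : Group G) (S : Finset G),
    Subgroup.closure (S : Set G) = ⊤ ∧
    (∃ δ : ℕ, ∀ x y z w : G,
      (SimpleGraph.fromRel fun g h : G => g⁻¹ * h ∈ S).dist x y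
        + (SimpleGraph.fromRel fun g h : G => g⁻¹ * h ∈ S).dist z w ≤
      max ((SimpleGraph.fromRel fun g h : G => g⁻¹ * h ∈ S).dist x z
            + (SimpleGraph.fromRel fun g h : G => g⁻¹ * h ∈ S).dist y w)
          ((SimpleGraph.fromRel fun g h : G => g⁻¹ * h ∈ S).dist x w
            + (SimpleGraph.fromRel fun g h : G => g⁻¹ * h ∈ S).dist y z) + 2 * δ) ∧
    (∃ f : ℕ → ℝ, Filter.Tendsto (fun n : ℕ => f n / (n : ℝ)) Filter.atTop Filter.atTop ∧
      ∀ (X : Type) [MulAction G X], FaithfulSMul G X →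
        ∃ C : ℕ, 0 < C ∧ ∀ n : ℕ, ∃ x : X,
          f n ≤ (C : ℝ) * (({y : X | ∃ g : G,
            (SimpleGraph.fromRel fun a b : G => a⁻¹ * b ∈ S).dist 1 g ≤ C * n ∧ g • x = y}.ncard : ℕ) : ℝ)) ∧
    ∀ K : Subgroup G, (K : Set G).Infinite →
      ¬ ∀ (X : Type) [MulAction K X],
        (∃ m : Set X → ℝ, (∀ A, 0 ≤ m A) ∧ m Set.univ = 1 ∧
          (∀ A B, Disjoint A B → m (A ∪ B) = m A + m B) ∧
          ∀ (k : K) (A : Set X), m ((fun x => k • x) ⁻¹' A) = m A) →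
        ∃ x : X, (MulAction.orbit K x).Finite := by
  refine ⟨G, inferInstance, S, hcl, H49.HY.hyp_of_bact (h.bact htf) hcl, ?_, hfm⟩
  obtain ⟨f, hf1, hf0, hfm', hf2⟩ := gap_of_latt h htf S hcl
  refine ⟨f, hf1, ?_⟩
  intro X _ hX
  refine ⟨1, one_pos, fun n => ?_⟩
  obtain ⟨x, hx⟩ := hf2 X hX n
  refine ⟨x, ?_⟩
  rw [Nat.cast_one, one_mul, one_mul]
  exact hx

end Pool.Agent.H89.SG
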