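import Pool.Agent.H89.SG.RL

/-!
# GapF: the gap function

For each `C` `undet` (with `D = 4 C`) gives `g ≠ 1`, and `RL` gives `n₀ C` such that for `n ≥ n₀ C` and
every faithful `X` some ball of radius `n` has more than `C n` points. Make `n₀` monotone
(partial maxima), let `c n` be the largest `C ≤ n` with `n₀ C ≤ n` (`0` if there is none) and
`f n = c n * n`. `c n → ∞`. For every `n` there is `x` with `f n ≤ (FB S n x).ncard` (if `c n = 0` any
`x`; `X` is not empty as `G` is not trivial and acts faithfully); use the constant `1`.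
-/

set_option autoImplicit false

namespace Pool.Agent.H89.SG

theorem gapF {G : Type} [Group G] (S : Finset G) (hcl : Subgroup.closure (S : Set G) = ⊤) {N : ℕ}
    (hLG : H84.Sch.LG (H84.Sch.Sym S) N) (htf : TorFree G)
    (hund : ∀ D : ℕ, ∃ g : G, g ≠ 1 ∧ ∀ L : Line G S, L.Dens D → ¬ L.Det g) :
    ∃ f : ℕ → ℝ, Filter.Tendsto (fun n : ℕ => f n / (n : ℝ)) Filter.atTop Filter.atTop ∧
      (∀ n, 0 ≤ f n) ∧ Monotone f ∧
      ∀ (X : Type) [MulAction G X], FaithfulSMul G X → ∀ n : ℕ, ∃ x : X,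
        f n ≤ ((H84.Sch.FB S n x).ncard : ℝ) := by
  classical
  have key : ∀ C : ℕ, ∃ n₀ : ℕ, ∀ n ≥ n₀, ∀ (X : Type) [MulAction G X] [FaithfulSMul G X],
      ∃ x : X, C * n < (H84.Sch.FB S n x).ncard := by
    intro C
    obtain ⟨g, hg1, hg⟩ := hund (4 * C)
    obtain ⟨n₀, hn₀⟩ := RL S hcl hLG C g (htf g hg1)
    refine ⟨n₀, fun n hn X _ _ => ?_⟩
    by_contra hno
    push Not at hno
    obtain ⟨L, hL1, hL2⟩ := hn₀ n hn X hno
    exact hg L hL1 hL2
  choose n₀ hn₀ using key
  set mm : ℕ → ℕ := fun C => C + ∑ i ∈ Finset.range (C + 1), n₀ i with hmm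
  have hm1 : ∀ C, C ≤ mm C := fun C => Nat.le_add_right _ _
  have hm2 : ∀ C, n₀ C ≤ mm C := by
    intro C
    refine le_trans ?_ (Nat.le_add_left _ _)
    exact Finset.single_le_sum (f := n₀) (fun i _ => Nat.zero_le _)
      (Finset.mem_range.2 (Nat.lt_succ_self C))
  set c : ℕ → ℕ := fun n => Nat.findGreatest (fun C => mm C ≤ n) n with hc
  have hc1 : ∀ C n, mm C ≤ n → C ≤ c n := fun C n h =>
    Nat.le_findGreatest ((hm1 C).trans h) h
  have hc2 : ∀ n, c n ≠ 0 → mm (c n) ≤ n := fun n h =>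
    Nat.findGreatest_of_ne_zero (P := fun C => mm C ≤ n) (n := n) rfl h
  have hcm : Monotone c := by
    intro a b hab
    exact Nat.findGreatest_mono (fun C h => le_trans h hab) hab
  refine ⟨fun n => (c n : ℝ) * n, ?_, fun n => by positivity, ?_, ?_⟩
  · rw [Filter.tendsto_atTop]
    intro b
    filter_upwards [Filter.eventually_ge_atTop (mm ⌈b⌉₊ + 1)] with n hn
    have h1 : ⌈b⌉₊ ≤ c n := hc1 _ _ (by omega)
    have h2 : (n : ℝ) ≠ 0 := by
      have : n ≠ 0 := by omega
      exact_mod_cast this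
    rw [mul_div_assoc, div_self h2, mul_one]
    exact (Nat.le_ceil b).trans (by exact_mod_cast h1)
  · intro a b hab
    have h1 := hcm hab
    change (c a : ℝ) * a ≤ (c b : ℝ) * b
    have h2 : (c a : ℝ) ≤ c b := by exact_mod_cast h1
    have h3 : (a : ℝ) ≤ b := by exact_mod_cast hab
    exact mul_le_mul h2 h3 (by positivity) (by positivity)
  · intro X _ hX n
    change ∃ x : X, (c n : ℝ) * n ≤ _
    by_cases h0 : c n = 0
    · obtain ⟨g, hg1, -⟩ := hund 0
      have hne : Nonempty X := by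
        by_contra hX0
        rw [not_nonempty_iff] at hX0
        exact hg1 (FaithfulSMul.eq_of_smul_eq_smul (α := X) fun x => (hX0.false x).elim)
      obtain ⟨x⟩ := hne
      refine ⟨x, ?_⟩
      rw [h0]
      simp
    · obtain ⟨x, hx⟩ := hn₀ (c n) n ((hm2 _).trans (hc2 n h0)) X
      refine ⟨x, ?_⟩
      exact_mod_cast hx.le

end Pool.Agent.H89.SG
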