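import Pool.Agent.H89.SG.HodF

/-!
# LHod: finite-index subgroups, pluriharmonic functions on lines

`BAct.sub`: `aut`, `one`, `mul`, `free`, `pd` restrict to a subgroup `K`. `cc`: let `r` be given by
`cc` for `G` and `T` a finite set of representatives with `G = ⋃_{t ∈ T} K t⁻¹`... precisely: every
`g` is `t k` with `t ∈ T`, `k ∈ K` (left cosets `t K`); if `nsq (m g z) ≤ r`, `g = t k`, then
`m k z = m t⁻¹ (m g z)` lies in the compact set `⋃_t m t⁻¹ {nsq ≤ r}`
(`exists_nsq_le_of_compact`).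

`exists_HD`: fix `q₀ : L.Q` (if `Q` is empty there is nothing to do), `K` the stabilizer of `q₀`
(finite index since `Q` is finite), `c g = - ℓ β g q₀` on `K` (additive by `coc`). `hodge` for `K`
gives `F₀`. For `q` choose `g_q` with `g_q • q₀ = q` and put `F q z = F₀ (m g_q⁻¹ z) - ℓ β g_q q₀`.
If `g • q = q'` then `k = g_q'⁻¹ g g_q ∈ K` and
`β g_q' q₀ + β k q₀ = β (g g_q) q₀ = β g q + β g_q q₀`, which gives the equation.
-/

set_option autoImplicit false

namespace Pool.Agent.H89.SG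

open Complex MeasureTheory
open scoped ContDiff ComplexConjugate

variable {G : Type} [Group G] {m : G → E → E} {S : Finset G}

theorem BAct.sub (hA : BAct G m) (K : Subgroup G) (hK : K.FiniteIndex) :
    BAct K (fun g z => m (g : G) z) := by
  obtain ⟨r, hr, hcov⟩ := hA.cc
  have hfin : Finite (G ⧸ K) := inferInstance
  have hC : IsCompact (⋃ q : G ⧸ K, (m (q.out)⁻¹) '' {z : E | nsq z ≤ r}) := by
    refine isCompact_iUnion fun q => (isCompact_nsq_le r).image_of_continuousOn ?_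
    exact ((hA.aut _).smooth.continuousOn).mono (nsq_le_subset_ball hr)
  have hCB : (⋃ q : G ⧸ K, (m (q.out)⁻¹) '' {z : E | nsq z ≤ r}) ⊆ ball := by
    refine Set.iUnion_subset fun q => ?_
    rintro _ ⟨z, hz, rfl⟩
    exact hA.mem _ (nsq_le_subset_ball hr hz)
  obtain ⟨r', _, hr', hle⟩ := exists_nsq_le_of_compact hC hCB
  refine ⟨fun g => hA.aut _, fun z hz => hA.one z hz, fun g h z hz => hA.mul _ _ z hz,
    fun g hg z hz => hA.free _ (fun h => hg (Subtype.ext h)) z hz, ?_, r', hr', ?_⟩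
  · intro r hr
    exact Set.Finite.preimage (f := fun g : K => (g : G)) Subtype.val_injective.injOn (hA.pd r hr)
  · intro z hz
    obtain ⟨g, hg⟩ := hcov z hz
    have hk : ((g : G ⧸ K).out)⁻¹ * g ∈ K := by
      rw [← QuotientGroup.eq]
      exact Quotient.out_eq' _
    refine ⟨⟨_, hk⟩, hle _ (Set.mem_iUnion.2 ⟨(g : G ⧸ K), m g z, hg, ?_⟩)⟩
    exact (hA.mul _ _ z hz).symm

/-- the pluriharmonic functions on a line: `u (q, n) = Re F q + ℓ n` -/
structure HD (m : G → E → E) (L : Line G S) (F : L.Q → E → ℂ) : Prop where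
  hol : ∀ q, Hol (F q)
  eq : ∀ (g : G) (q : L.Q), ∀ z ∈ ball, (F (g • q) (m g z)).re + L.ℓ * L.β g q = (F q z).re

theorem exists_HD (hA : BAct G m) (L : Line G S) : ∃ F, HD m L F := by
  classical
  rcases isEmpty_or_nonempty L.Q with hE | ⟨⟨q₀⟩⟩
  · exact ⟨fun q => isEmptyElim q, fun q => isEmptyElim q, fun g q => isEmptyElim q⟩
  let K : Subgroup G := MulAction.stabilizer G q₀
  have hfin : Finite (G ⧸ K) :=
    Finite.of_equiv _ (MulAction.orbitEquivQuotientStabilizer G q₀)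
  have hK : K.FiniteIndex := Subgroup.finiteIndex_of_finite_quotient
  have hcK : ∀ g h : K, -((L.ℓ : ℝ) * L.β ((g * h : K) : G) q₀) =
      -((L.ℓ : ℝ) * L.β (g : G) q₀) + -((L.ℓ : ℝ) * L.β (h : G) q₀) := by
    intro g h
    have h1 : (h : G) • q₀ = q₀ := h.2
    have h2 := L.coc (g : G) (h : G) q₀
    rw [h1] at h2
    rw [Subgroup.coe_mul, h2]
    push_cast
    ring
  obtain ⟨F₀, hF₀, hF₁⟩ := hodge (hA.sub K hK) (fun g : K => -((L.ℓ : ℝ) * L.β (g : G) q₀)) hcK
  choose t ht using fun q => L.trans q₀ q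
  refine ⟨fun q z => F₀ (m (t q)⁻¹ z) - ((L.ℓ : ℝ) * L.β (t q) q₀ : ℝ), ?_, ?_⟩
  · intro q
    have hmaps : Set.MapsTo (m (t q)⁻¹) ball ball := fun z hz => hA.mem _ hz
    constructor
    · exact (hF₀.1.comp (hA.aut _).smooth hmaps).sub contDiffOn_const
    · exact (hF₀.2.comp (hA.aut _).holo hmaps).sub (differentiableOn_const _)
  · intro g q z hz
    have hk : (t (g • q))⁻¹ * g * t q ∈ K := by
      change ((t (g • q))⁻¹ * g * t q) • q₀ = q₀
      rw [mul_smul, mul_smul, ht, inv_smul_eq_iff, ht]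
    have hz' : m (t q)⁻¹ z ∈ ball := hA.mem _ hz
    have e1 : m (t (g • q))⁻¹ (m g z) = m ((t (g • q))⁻¹ * g * t q) (m (t q)⁻¹ z) := by
      rw [← hA.mul _ _ z hz, ← hA.mul _ _ z hz, mul_assoc, mul_assoc, mul_inv_cancel, mul_one]
    have e2 := hF₁ ⟨_, hk⟩ _ hz'
    have e3 := L.coc g (t q) q₀
    have e4 := L.coc (t (g • q)) ((t (g • q))⁻¹ * g * t q) q₀
    have e5 : ((t (g • q))⁻¹ * g * t q) • q₀ = q₀ := hk
    rw [ht] at e3
    rw [e5, mul_assoc, mul_inv_cancel_left, e3] at e4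
    have e6 : ((L.β g q : ℝ)) + L.β (t q) q₀ =
        L.β (t (g • q)) q₀ + L.β ((t (g • q))⁻¹ * g * t q) q₀ := by
      rw [mul_assoc (t (g • q))⁻¹ g (t q)]
      exact_mod_cast e4
    simp only [Complex.sub_re, Complex.ofReal_re]
    rw [e1]
    simp only at e2
    rw [e2]
    linear_combination (L.ℓ : ℝ) * e6

end Pool.Agent.H89.SG
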