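import Pool.Agent.H89.SG.LgA
import Pool.Agent.H89.SG.LHod
import Pool.Agent.H84.Sch.Final

/-!
# LgB: a group acting cocompactly on the ball is presented by its short relations

Let `r ≥ 0` be as in `cc` (`max r 0`). For `x` in the ball choose `γ x : G` with
`nsq (m (γ x)⁻¹ x) ≤ r`, `γ 0 = 1`. Fix `ε ∈ (0, 1)` (say `1/2`), call `x, y` close if `dl x y ≤ ε`, and
let `S₁ = {g | ∃ x y, nsq x ≤ r, nsq (m g⁻¹ y) ≤ r, dl x y ≤ ε}` (finite: `dl_far`, `pd`), symmetric,
containing all `(γ x)⁻¹ γ y`, `x, y` close, and all `(γ (g x))⁻¹ g γ x`. Choose for each `g ∈ S₁` a word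
`W g` in `Sym S` with product `g`, `W 1 = []`, of length at most `N₁`. Let `σ : G → Perm Z` satisfy the
relations of length `≤ N`, `N` large (chosen below), and put `σ' g = ((W g).map σ).prod`, so
`σ' g σ' h = σ' (g h)` if `g, h, g h ∈ S₁` and `σ' g⁻¹ = (σ' g)⁻¹` (for the letters:
`σ s⁻¹ = (σ s)⁻¹` by a relation of length 2).
`T x y = σ' ((γ x)⁻¹ γ y)` for close `x, y`: `T x y T y z = T x z` for mutually close points,
`T x x = 1`. For `y` in the ball put `τ y = ∏_{i<K} T (i/K y) ((i+1)/K y)` for `K` large (the function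
`t ↦ t y` is uniformly continuous for `dl`; the product does not depend on `K` large: compare `K`
and `K K'` by the cocycle rule), `τ 0 = 1`. If `x, y` are close (with margin: all points used below
are mutually close when `dl x y ≤ ε'`, `ε'` small, by the triangle inequality for
`arctanh √dl`, or by compactness), then `τ x T x y = τ y`: telescope over the strips
`T (t x) (t' x) T (t' x) (t' y) = T (t x) (t y) T (t y) (t' y)`, using `dl_smul_le` for the closeness
of `t x` and `t y`.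
`U g x = σ' ((γ (g x))⁻¹ g γ x)` satisfies `U g x T x y = T (g x) (g y) U g y` for close `x, y` and
`U (g h) x = U g (h x) U h x`. `ψ g = τ (g x) U g x (τ x)⁻¹` is locally constant in `x`, so it does
not depend on `x` (the ball is connected: move along the segment from `0` to `x`), and it is a
homomorphism. For `s ∈ Sym S`: `ψ s = τ (s 0) U s 0` is the value of `σ` on a word, with product `s`,
whose length is bounded by a constant depending on `s` only; if `N` is larger than this length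
plus one, `ψ s = σ s`.
(The instance of `Strip`/`LG` files of helper84 contain the conventions; `hom_of_words` may help:
it is enough to prove that every word with product `1` acts trivially.)
-/

set_option autoImplicit false

namespace Pool.Agent.H89.SG

open Complex MeasureTheory
open scoped ContDiff ComplexConjugate

/-! ### Paths and the contraction to the centre -/

section paths

variable {P : Type} [Group P]

private theorem smul_ball {x : E} (hx : x ∈ ball) {t : ℝ} (ht : 0 ≤ t) (ht1 : t ≤ 1) :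
    t • x ∈ ball := by
  change nsq (t • x) < 1
  have hx1 : nsq x < 1 := hx
  rw [nsq_smul_real]
  have h0 := nsq_nonneg x
  have h2 : t ^ 2 ≤ 1 := pow_le_one₀ ht ht1
  calc t ^ 2 * nsq x ≤ 1 * nsq x := mul_le_mul_of_nonneg_right h2 h0
    _ < 1 := by linarith

private inductive Pt (T : E → E → P) : E → (ℝ → P) → Prop
  | nil : Pt T 0 (fun _ => 1)
  | snoc {y z : E} {F : ℝ → P} (h : Pt T y F) (hy : y ∈ ball) (hz : z ∈ ball)
      (hd : dl y z ≤ 1 / 4) : Pt T z (fun t => F t * T (t • y) (t • z))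

private theorem ev_dl {y z : E} (hy : y ∈ ball) (hz : z ∈ ball) (t : Set.Icc (0 : ℝ) 1)
    (h : dl ((t : ℝ) • y) ((t : ℝ) • z) < 1 / 2) :
    ∀ᶠ t' : Set.Icc (0 : ℝ) 1 in nhds t, dl ((t : ℝ) • y) ((t' : ℝ) • z) ≤ 1 / 2 := by
  have hc : Continuous fun t' : Set.Icc (0 : ℝ) 1 => dl ((t : ℝ) • y) ((t' : ℝ) • z) := by
    have h1 : Continuous fun t' : Set.Icc (0 : ℝ) 1 => (((t : ℝ) • y, (t' : ℝ) • z) : E × E) :=
      continuous_const.prodMk (continuous_subtype_val.smul continuous_const)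
    exact contDiffOn_dl.continuousOn.comp_continuous h1 fun t' =>
      ⟨smul_ball hy t.2.1 t.2.2, smul_ball hz t'.2.1 t'.2.2⟩
  exact ((hc.tendsto t).eventually_lt_const h).mono fun t' ht' => ht'.le

variable {T : E → E → P}

private theorem Pt.loc (h1 : ∀ x ∈ ball, T x x = 1)
    (h2 : ∀ x ∈ ball, ∀ y ∈ ball, ∀ z ∈ ball, dl x y ≤ 1 / 2 → dl y z ≤ 1 / 2 → dl x z ≤ 1 / 2 →
      T x y * T y z = T x z) {y : E} {F : ℝ → P} (h : Pt T y F) (hy : y ∈ ball)
    (t : Set.Icc (0 : ℝ) 1) :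
    ∀ᶠ t' : Set.Icc (0 : ℝ) 1 in nhds t, F t * T ((t : ℝ) • y) ((t' : ℝ) • y) = F t' := by
  induction h with
  | nil =>
    refine Filter.Eventually.of_forall fun t' => ?_
    rw [smul_zero, smul_zero, h1 0 zero_mem_ball, mul_one]
  | @snoc y z F h hyb hz hd ih =>
    have hself : ∀ x ∈ ball, dl ((t : ℝ) • x) ((t : ℝ) • x) < 1 / 2 := by
      intro x hx
      rw [dl_self (smul_ball hx t.2.1 t.2.2)]
      norm_num
    have hyz : dl ((t : ℝ) • y) ((t : ℝ) • z) < 1 / 2 := by
      have := dl_smul_le hyb hz t.2.1 t.2.2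
      linarith
    filter_upwards [ih hyb, ev_dl hyb hyb t (hself y hyb), ev_dl hz hz t (hself z hz),
      ev_dl hyb hz t hyz] with t' e1 e2 e3 e4
    have b1 := smul_ball hyb t.2.1 t.2.2
    have b2 := smul_ball hz t.2.1 t.2.2
    have b3 := smul_ball hyb t'.2.1 t'.2.2
    have b4 := smul_ball hz t'.2.1 t'.2.2
    have d1 := dl_smul_le hyb hz t.2.1 t.2.2
    have d2 := dl_smul_le hyb hz t'.2.1 t'.2.2
    rw [← e1, mul_assoc, mul_assoc, h2 _ b1 _ b2 _ b4 (by linarith) e3 e4,
      h2 _ b1 _ b3 _ b4 e2 (by linarith) e4]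

private theorem Pt.zero (h1 : ∀ x ∈ ball, T x x = 1) {y : E} {F : ℝ → P} (h : Pt T y F) :
    F 0 = 1 := by
  induction h with
  | nil => rfl
  | snoc h hyb hz hd ih =>
    change _ * _ = _
    rw [ih, zero_smul, zero_smul, h1 0 zero_mem_ball, mul_one]

private theorem Pt.loop (h1 : ∀ x ∈ ball, T x x = 1)
    (h2 : ∀ x ∈ ball, ∀ y ∈ ball, ∀ z ∈ ball, dl x y ≤ 1 / 2 → dl y z ≤ 1 / 2 → dl x z ≤ 1 / 2 →
      T x y * T y z = T x z) {F : ℝ → P} (h : Pt T 0 F) : F 1 = 1 := by
  have hl : IsLocallyConstant fun t : Set.Icc (0 : ℝ) 1 => F t := by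
    rw [IsLocallyConstant.iff_eventually_eq]
    intro t
    filter_upwards [h.loc h1 h2 zero_mem_ball t] with t' e
    rw [smul_zero, smul_zero, h1 0 zero_mem_ball, mul_one] at e
    exact e.symm
  have h3 := hl.apply_eq_of_preconnectedSpace ⟨1, by simp⟩ ⟨0, by simp⟩
  rw [← h.zero h1]
  exact h3

end paths

/-- points on a radius -/
private theorem dl_radial {v : E} (hv : v ∈ ball) {a b : ℝ} (ha : 0 ≤ a) (ha1 : a ≤ 1)
    (hb : 0 ≤ b) (hb1 : b ≤ 1) (h : 2 * |a - b| ≤ 1 - nsq v) : dl (a • v) (b • v) ≤ 1 / 4 := by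
  have h0 := nsq_nonneg v
  have hv1 : nsq v < 1 := hv
  have hher : her (a • v) (b • v) = ((a * b * nsq v : ℝ) : ℂ) := by
    have h3 := her_self v
    unfold her at h3 ⊢
    simp only [Prod.smul_fst, Prod.smul_snd, Complex.real_smul, map_mul, Complex.conj_ofReal]
    push_cast
    rw [← h3]
    ring
  have hD : 0 < 1 - a * b * nsq v := by
    have : a * b ≤ 1 := by nlinarith
    have h4 : a * b * nsq v ≤ nsq v := by
      have := mul_nonneg ha hb
      nlinarith
    linarith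
  have hD2 : 1 - nsq v ≤ 1 - a * b * nsq v := by
    have : a * b ≤ 1 := by nlinarith
    have h4 : a * b * nsq v ≤ nsq v := by
      have := mul_nonneg ha hb
      nlinarith
    linarith
  have hn : normSq (1 - her (a • v) (b • v)) = (1 - a * b * nsq v) ^ 2 := by
    rw [hher, ← Complex.ofReal_one, ← Complex.ofReal_sub, normSq_ofReal]
    ring
  unfold dl
  rw [hn, nsq_smul_real, nsq_smul_real]
  have h5 : (3 / 4 : ℝ) ≤ (1 - a ^ 2 * nsq v) * (1 - b ^ 2 * nsq v) / (1 - a * b * nsq v) ^ 2 := by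
    rw [le_div_iff₀ (by positivity)]
    have h6 : (1 - a ^ 2 * nsq v) * (1 - b ^ 2 * nsq v) =
        (1 - a * b * nsq v) ^ 2 - nsq v * (a - b) ^ 2 := by ring
    rw [h6]
    have h7 : 2 * |a - b| ≤ 1 - a * b * nsq v := h.trans hD2
    have h8 : (2 * |a - b|) ^ 2 ≤ (1 - a * b * nsq v) ^ 2 :=
      pow_le_pow_left₀ (by positivity) h7 2
    rw [mul_pow, sq_abs] at h8
    nlinarith [sq_nonneg (a - b)]
  linarith

/-! ### The word side -/

section words

variable {G : Type} [Group G]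

private theorem eqw {Y : Set G} (hinv : ∀ s ∈ Y, s⁻¹ ∈ Y) {M : ℕ} {Z : Type}
    {ρ : G → Equiv.Perm Z}
    (hρ : ∀ w : List G, (∀ s ∈ w, s ∈ Y) → w.length ≤ 2 * M → w.prod = 1 → (w.map ρ).prod = 1)
    {u v : List G} (hu : ∀ s ∈ u, s ∈ Y) (hv : ∀ s ∈ v, s ∈ Y) (hul : u.length ≤ M)
    (hvl : v.length ≤ M) (he : u.prod = v.prod) : (u.map ρ).prod = (v.map ρ).prod := by
  have h1 := hρ (u ++ H84.Sch.iw v) (H84.Sch.append_mem hu (H84.Sch.iw_mem hinv hv))
    (by rw [List.length_append, H84.Sch.iw_length]; omega)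
    (by rw [List.prod_append, H84.Sch.iw_prod, he, mul_inv_cancel])
  have h2 := hρ (v ++ H84.Sch.iw v) (H84.Sch.append_mem hv (H84.Sch.iw_mem hinv hv))
    (by rw [List.length_append, H84.Sch.iw_length]; omega)
    (by rw [List.prod_append, H84.Sch.iw_prod, mul_inv_cancel])
  rw [List.map_append, List.prod_append] at h1 h2
  rw [← h2] at h1
  exact mul_right_cancel h1

end words

section main

variable {G : Type} [Group G] {m : G → E → E}

/-- `g` is an anchor of `x` -/
private def An (m : G → E → E) (r : ℝ) (g : G) (x : E) : Prop := nsq (m g⁻¹ x) ≤ r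

/-- the finite set of steps -/
private def Stp (m : G → E → E) (r : ℝ) : Set G :=
  {g | ∃ x ∈ ball, ∃ y ∈ ball, nsq x ≤ r ∧ nsq (m g⁻¹ y) ≤ r ∧ dl x y ≤ 1 / 2}

private theorem Stp_finite (hA : BAct G m) {r : ℝ} (hr : r < 1) : (Stp m r).Finite := by
  obtain ⟨ρ, h0, h1, h2⟩ := dl_far hr (show (1 / 2 : ℝ) < 1 by norm_num)
  have h3 := (hA.pd (max r ρ) (max_lt hr h1)).image fun g => g⁻¹
  refine h3.subset ?_
  rintro g ⟨x, hx, y, hy, hxr, hgy, hd⟩
  exact ⟨g⁻¹, ⟨y, (h2 x y hxr hy hd).trans (le_max_right _ _), hgy.trans (le_max_left _ _)⟩,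
    inv_inv g⟩

private theorem mem_Stp (hA : BAct G m) {r : ℝ} {x y : E} (hx : x ∈ ball) (hy : y ∈ ball)
    {g h : G} (hg : An m r g x) (hh : An m r h y) (hd : dl x y ≤ 1 / 2) : g⁻¹ * h ∈ Stp m r := by
  refine ⟨m g⁻¹ x, hA.mem _ hx, m g⁻¹ y, hA.mem _ hy, hg, ?_, ?_⟩
  · have h1 : m (g⁻¹ * h)⁻¹ (m g⁻¹ y) = m h⁻¹ y := by
      rw [← hA.mul _ _ y hy]
      congr 1
      group
    rw [h1]
    exact hh
  · rw [(hA.aut g⁻¹).dl_eq hx hy]
    exact hd

private theorem An_mul (hA : BAct G m) {r : ℝ} {x : E} (hx : x ∈ ball) {g : G}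
    (hg : An m r g x) (k : G) : An m r (k * g) (m k x) := by
  unfold An at hg ⊢
  have h1 : m (k * g)⁻¹ (m k x) = m g⁻¹ x := by
    rw [← hA.mul _ _ x hx]
    congr 1
    group
  rw [h1]
  exact hg

end main

theorem LG_of_bact {G : Type} [Group G] {m : G → E → E} (hA : BAct G m) (S : Finset G)
    (hcl : Subgroup.closure (S : Set G) = ⊤) : ∃ N : ℕ, H84.Sch.LG (H84.Sch.Sym S) N := by
  classical
  obtain ⟨r1, hr1, hcc⟩ := hA.cc
  set r : ℝ := max r1 0 with hr
  have hr0 : 0 ≤ r := le_max_right _ _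
  have hrlt : r < 1 := max_lt hr1 one_pos
  -- the anchors
  obtain ⟨γ, hγ0, hγ⟩ : ∃ γ : E → G, γ 0 = 1 ∧ ∀ x ∈ ball, An m r (γ x) x := by
    choose! c hc using hcc
    refine ⟨fun x => if x = 0 then 1 else (c x)⁻¹, if_pos rfl, ?_⟩
    intro x hx
    unfold An
    beta_reduce
    by_cases h0 : x = 0
    · rw [if_pos h0, h0, inv_one, hA.one 0 zero_mem_ball, nsq_zero]
      exact hr0
    · rw [if_neg h0, inv_inv]
      exact (hc x hx).trans (le_max_left _ _)
  have hinv := H84.Sch.Sym_inv S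
  choose W hW1 hW2 using H84.Sch.exists_word hinv (H84.Sch.Sym_closure hcl)
  -- the maximal length
  have hSf := Stp_finite hA hrlt
  obtain ⟨N1, hN1⟩ : ∃ N1 : ℕ, ∀ g ∈ Stp m r, (W g).length ≤ N1 := by
    obtain ⟨b, hb⟩ := (hSf.image fun g => (W g).length).bddAbove
    exact ⟨b, fun g hg => hb ⟨g, hg, rfl⟩⟩
  -- the numbers of steps
  obtain ⟨K, hK⟩ : ∃ K : G → ℕ, ∀ s, 0 < K s ∧ 2 * (1 / (K s : ℝ)) ≤ 1 - nsq (m s 0) := by
    have h1 : ∀ s : G, ∃ k : ℕ, 0 < k ∧ 2 * (1 / (k : ℝ)) ≤ 1 - nsq (m s 0) := by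
      intro s
      have h2 : 0 < 1 - nsq (m s 0) := by
        have : nsq (m s 0) < 1 := hA.mem s zero_mem_ball
        linarith
      obtain ⟨k, hk⟩ := exists_nat_gt (2 / (1 - nsq (m s 0)))
      have hk0 : (0 : ℝ) < k := lt_trans (by positivity) hk
      refine ⟨k, by exact_mod_cast hk0, ?_⟩
      rw [div_lt_iff₀ h2] at hk
      rw [mul_one_div, div_le_iff₀ hk0]
      linarith
    choose K hK using h1
    exact ⟨K, hK⟩
  obtain ⟨M, hM1, hM2⟩ : ∃ M : ℕ, 2 * N1 + 1 ≤ M ∧ ∀ s ∈ H84.Sch.Sym S, K s * N1 ≤ M := by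
    refine ⟨2 * N1 + 1 + ∑ s ∈ H84.Sch.SymF S, K s * N1, by omega, ?_⟩
    intro s hs
    have := Finset.single_le_sum (f := fun s => K s * N1) (fun _ _ => Nat.zero_le _)
      (H84.Sch.mem_SymF.2 hs)
    omega
  refine ⟨2 * M, ?_⟩
  intro Z ρ hρ
  apply H84.Sch.hom_of_words hinv (H84.Sch.Sym_closure hcl)
  -- the operator of a step
  set q : G → Equiv.Perm Z := fun g => ((W g).map ρ).prod with hq
  have hqm : ∀ x ∈ ball, ∀ y ∈ ball, ∀ z ∈ ball, dl x y ≤ 1 / 2 → dl y z ≤ 1 / 2 → dl x z ≤ 1 / 2 →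
      ∀ g h k, An m r g x → An m r h y → An m r k z → q (g⁻¹ * h) * q (h⁻¹ * k) = q (g⁻¹ * k) := by
    intro x hx y hy z hz hxy hyz hxz g h k hg hh hk
    have s1 := mem_Stp hA hx hy hg hh hxy
    have s2 := mem_Stp hA hy hz hh hk hyz
    have s3 := mem_Stp hA hx hz hg hk hxz
    simp only [hq]
    rw [← List.prod_append, ← List.map_append]
    apply eqw hinv hρ (H84.Sch.append_mem (hW1 _) (hW1 _)) (hW1 _)
    · rw [List.length_append]
      have := hN1 _ s1
      have := hN1 _ s2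
      omega
    · have := hN1 _ s3
      omega
    · rw [List.prod_append, hW2, hW2, hW2]
      group
  have hself : ∀ x ∈ ball, dl x x ≤ 1 / 2 := by
    intro x hx
    rw [dl_self hx]
    norm_num
  have hq1 : q 1 = 1 := by
    have h1 := hqm 0 zero_mem_ball 0 zero_mem_ball 0 zero_mem_ball (hself 0 zero_mem_ball)
      (hself 0 zero_mem_ball) (hself 0 zero_mem_ball) _ _ _ (hγ 0 zero_mem_ball)
      (hγ 0 zero_mem_ball) (hγ 0 zero_mem_ball)
    rw [inv_mul_cancel] at h1
    exact mul_eq_left.1 h1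
  set T : E → E → Equiv.Perm Z := fun x y => q ((γ x)⁻¹ * γ y) with hT
  have hT1 : ∀ x ∈ ball, T x x = 1 := by
    intro x hx
    simp only [hT]
    rw [inv_mul_cancel, hq1]
  have hT2 : ∀ x ∈ ball, ∀ y ∈ ball, ∀ z ∈ ball, dl x y ≤ 1 / 2 → dl y z ≤ 1 / 2 →
      dl x z ≤ 1 / 2 → T x y * T y z = T x z := by
    intro x hx y hy z hz hxy hyz hxz
    exact hqm x hx y hy z hz hxy hyz hxz _ _ _ (hγ x hx) (hγ y hy) (hγ z hz)
  -- one letter
  have hstep : ∀ s ∈ H84.Sch.Sym S, ∀ (g : G) (F : ℝ → Equiv.Perm Z) (c : Equiv.Perm Z),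
      Pt T (m g 0) F → F 1 * q ((γ (m g 0))⁻¹ * g) = c →
      ∃ F', Pt T (m (g * s) 0) F' ∧ F' 1 * q ((γ (m (g * s) 0))⁻¹ * (g * s)) = c * ρ s := by
    intro s hs g F c hF hc
    obtain ⟨hK0, hK2⟩ := hK s
    have hKr : (0 : ℝ) < K s := by exact_mod_cast hK0
    set v : E := m s 0 with hv
    have hvb : v ∈ ball := hA.mem s zero_mem_ball
    let y : ℕ → E := fun j => ((j : ℝ) / K s) • v
    let a : ℕ → G := fun j => if j = K s then s else γ (y j)
    have hy0 : y 0 = 0 := by simp [y]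
    have hyK : y (K s) = v := by simp [y, hKr.ne']
    have ha0 : a 0 = 1 := by
      simp only [a]
      rw [if_neg hK0.ne, hy0, hγ0]
    have haK : a (K s) = s := by simp [a]
    have hyb : ∀ j ≤ K s, y j ∈ ball := by
      intro j hj
      apply smul_ball hvb (by positivity)
      rw [div_le_one hKr]
      exact_mod_cast hj
    have haA : ∀ j ≤ K s, An m r (a j) (y j) := by
      intro j hj
      by_cases hjK : j = K s
      · rw [hjK, haK, hyK]
        unfold An
        rw [hv, hA.inv_left s zero_mem_ball, nsq_zero]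
        exact hr0
      · simp only [a]
        rw [if_neg hjK]
        exact hγ _ (hyb j hj)
    have hyd : ∀ j, j + 1 ≤ K s → dl (y j) (y (j + 1)) ≤ 1 / 4 := by
      intro j hj
      have hjr : ((j + 1 : ℕ) : ℝ) ≤ K s := by exact_mod_cast hj
      apply dl_radial hvb (by positivity) _ (by positivity) _ _
      · rw [div_le_one hKr]
        push_cast at hjr
        linarith
      · rw [div_le_one hKr]
        exact hjr
      · have h5 : (j : ℝ) / K s - ((j + 1 : ℕ) : ℝ) / K s = -(1 / K s) := by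
          push_cast
          ring
        rw [h5, abs_neg, abs_of_pos (by positivity)]
        exact hK2
    have hmain : ∀ j ≤ K s, ∃ (F' : ℝ → Equiv.Perm Z) (u : List G), Pt T (m g (y j)) F' ∧
        (∀ t ∈ u, t ∈ H84.Sch.Sym S) ∧ u.length ≤ j * N1 ∧ u.prod = a j ∧
        F' 1 * q ((γ (m g (y j)))⁻¹ * (g * a j)) = c * (u.map ρ).prod := by
      intro j
      induction j with
      | zero =>
        intro _
        refine ⟨F, [], ?_, by simp, by simp, by rw [ha0]; simp, ?_⟩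
        · rw [hy0]; exact hF
        · rw [hy0, ha0, mul_one, hc]; simp
      | succ j ih =>
        intro hj
        obtain ⟨F', u, h1, h2, h3, h4, h5⟩ := ih (by omega)
        have b1 : y j ∈ ball := hyb j (by omega)
        have b2 : y (j + 1) ∈ ball := hyb (j + 1) hj
        have c1 : m g (y j) ∈ ball := hA.mem g b1
        have c2 : m g (y (j + 1)) ∈ ball := hA.mem g b2
        have d1 : dl (m g (y j)) (m g (y (j + 1))) ≤ 1 / 4 := by
          rw [(hA.aut g).dl_eq b1 b2]
          exact hyd j hj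
        have d2 : dl (m g (y j)) (m g (y (j + 1))) ≤ 1 / 2 := by linarith
        have A1 : An m r (g * a j) (m g (y j)) := An_mul hA b1 (haA j (by omega)) g
        have A2 : An m r (g * a (j + 1)) (m g (y (j + 1))) := An_mul hA b2 (haA (j + 1) hj) g
        have e1 := hqm _ c1 _ c2 _ c2 d2 (hself _ c2) d2 _ _ _ (hγ _ c1) (hγ _ c2) A2
        have e2 := hqm _ c1 _ c1 _ c2 (hself _ c1) d2 d2 _ _ _ (hγ _ c1) A1 A2
        have e3 : (g * a j)⁻¹ * (g * a (j + 1)) = (a j)⁻¹ * a (j + 1) := by group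
        have s1 : (a j)⁻¹ * a (j + 1) ∈ Stp m r := by
          apply mem_Stp hA b1 b2 (haA j (by omega)) (haA (j + 1) hj)
          have := hyd j hj
          linarith
        refine ⟨_, u ++ W ((a j)⁻¹ * a (j + 1)), Pt.snoc h1 c1 c2 d1,
          H84.Sch.append_mem h2 (hW1 _), ?_, ?_, ?_⟩
        · rw [List.length_append]
          have := hN1 _ s1
          rw [Nat.succ_mul]
          omega
        · rw [List.prod_append, h4, hW2]
          group
        · change F' 1 * T ((1 : ℝ) • m g (y j)) ((1 : ℝ) • m g (y (j + 1))) * _ = _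
          rw [one_smul, one_smul, mul_assoc]
          simp only [hT]
          rw [e1, ← e2, ← mul_assoc, h5, e3, mul_assoc, List.map_append, List.prod_append]
    obtain ⟨F', u, h1, h2, h3, h4, h5⟩ := hmain (K s) le_rfl
    have h6 : m g (y (K s)) = m (g * s) 0 := by
      rw [hyK, hv, hA.mul g s 0 zero_mem_ball]
    rw [h6] at h1 h5
    rw [haK] at h4 h5
    refine ⟨F', h1, ?_⟩
    rw [h5]
    congr 1
    have h7 := eqw hinv hρ (u := u) (v := [s]) h2 (by
      intro t ht
      rw [List.mem_singleton] at ht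
      rw [ht]
      exact hs) (h3.trans (hM2 s hs)) (by simp; omega) (by rw [h4]; simp)
    rw [h7]
    simp
  -- all words
  have hwords : ∀ (w : List G), (∀ s ∈ w, s ∈ H84.Sch.Sym S) →
      ∀ (g : G) (F : ℝ → Equiv.Perm Z) (c : Equiv.Perm Z),
      Pt T (m g 0) F → F 1 * q ((γ (m g 0))⁻¹ * g) = c →
      ∃ F', Pt T (m (g * w.prod) 0) F' ∧
        F' 1 * q ((γ (m (g * w.prod) 0))⁻¹ * (g * w.prod)) = c * (w.map ρ).prod := by
    intro w
    induction w with
    | nil =>
      intro _ g F c hF hc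
      refine ⟨F, ?_, ?_⟩
      · rw [List.prod_nil, mul_one]; exact hF
      · rw [List.prod_nil, mul_one, hc]; simp
    | cons s w ih =>
      intro hw g F c hF hc
      obtain ⟨F', h1, h2⟩ := hstep s (hw s List.mem_cons_self) g F c hF hc
      obtain ⟨F'', h3, h4⟩ := ih (fun t ht => hw t (List.mem_cons_of_mem _ ht)) (g * s) F' _ h1 h2
      refine ⟨F'', ?_, ?_⟩
      · rw [List.prod_cons, ← mul_assoc]; exact h3
      · rw [List.prod_cons, ← mul_assoc g s, h4, List.map_cons, List.prod_cons, mul_assoc]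
  intro w hw hp
  have h10 : m 1 0 = 0 := hA.one 0 zero_mem_ball
  obtain ⟨F', h1, h2⟩ := hwords w hw 1 (fun _ => 1) 1 (by rw [h10]; exact Pt.nil)
    (by rw [h10, hγ0, inv_one, mul_one, hq1, mul_one])
  rw [hp, mul_one, h10] at h1 h2
  have h3 := h1.loop hT1 hT2
  rw [h3, hγ0, inv_one, mul_one, hq1, one_mul, one_mul] at h2
  exact h2.symm

end Pool.Agent.H89.SG
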