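import Pool.Agent.H89.SG.RL

/-!
# Over: gaps pass to overgroups

`ι : G → Γ` injective, `S`, `T` finite generating sets of `G`, `Γ`. Let `K ≥ 1` be such that
`ι s` (`s ∈ S`) has word length at most `K` with respect to `T`, so that the ball `FB S n x` of the
restricted action is contained in `FB T (K n) x`. Put `f' n = f (n / K)` (integer division).
`f (n / K) ≤ |FB S (n / K) x| ≤ |FB T (K (n / K)) x| ≤ |FB T n x|`, and
`f' n / n = (f (n/K) / (n/K)) ((n/K) / n) → ∞`. (Restrict the action along `ι`: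
`MulAction.compHom`; it is faithful because `ι` is injective.)
-/

set_option autoImplicit false

namespace Pool.Agent.H89.SG

open H84.Sch

/-- images of words are words -/
theorem over_word {G Γ : Type} [Group G] [Group Γ] (S : Finset G) {T : Finset Γ}
    (hT : Subgroup.closure (T : Set Γ) = ⊤) (ι : G →* Γ) :
    ∃ K : ℕ, 0 < K ∧ ∀ w : List G, (∀ s ∈ w, s ∈ H84.Sch.Sym S) →
      (Cay T).dist 1 (ι w.prod) ≤ K * w.length := by
  classical
  refine ⟨(∑ s ∈ SymF S, (Cay T).dist 1 (ι s)) + 1, Nat.succ_pos _, ?_⟩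
  set K := (∑ s ∈ SymF S, (Cay T).dist 1 (ι s)) + 1 with hK
  have key : ∀ w : List G, (∀ s ∈ w, s ∈ H84.Sch.Sym S) →
      ∃ v : List Γ, (∀ t ∈ v, t ∈ H84.Sch.Sym T) ∧ v.prod = ι w.prod ∧ v.length ≤ K * w.length := by
    intro w
    induction w with
    | nil => intro _; exact ⟨[], by simp, by simp, by simp⟩
    | cons s w ih =>
      intro hw
      obtain ⟨v, h1, h2, h3⟩ := ih (fun t ht => hw t (List.mem_cons_of_mem _ ht))
      obtain ⟨u, g1, g2, g3⟩ := exists_geod hT 1 (ι s)
      rw [one_mul] at g3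
      have hsK : (Cay T).dist 1 (ι s) ≤ K := by
        have hs : s ∈ SymF S := mem_SymF.2 (hw s List.mem_cons_self)
        have := Finset.single_le_sum (f := fun s => (Cay T).dist 1 (ι s))
          (fun i _ => Nat.zero_le _) hs
        have h' : (Cay T).dist 1 (ι s) ≤ ∑ s ∈ SymF S, (Cay T).dist 1 (ι s) := this
        omega
      refine ⟨u ++ v, ?_, ?_, ?_⟩
      · intro t ht
        rcases List.mem_append.1 ht with h | h
        · exact g1 t h
        · exact h1 t h
      · rw [List.prod_append, h2, g3, List.prod_cons, map_mul]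
      · rw [List.length_append, List.length_cons, g2]
        have : K * (w.length + 1) = K * w.length + K := by ring
        omega
  intro w hw
  obtain ⟨v, h1, h2, h3⟩ := key w hw
  exact (dist_le_word T h1 1 (ι w.prod) (by rw [one_mul, h2])).trans h3

theorem over_gap {G : Type} [Group G] (S : Finset G) (hcl : Subgroup.closure (S : Set G) = ⊤)
    {Γ : Type} [Group Γ] (T : Finset Γ) (hT : Subgroup.closure (T : Set Γ) = ⊤)
    (ι : G →* Γ) (hι : Function.Injective ι) {f : ℕ → ℝ}
    (hf : Filter.Tendsto (fun n : ℕ => f n / (n : ℝ)) Filter.atTop Filter.atTop)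
    (hgap : ∀ (X : Type) [MulAction G X], FaithfulSMul G X → ∀ n : ℕ, ∃ x : X,
        f n ≤ ((H84.Sch.FB S n x).ncard : ℝ)) :
    ∃ f' : ℕ → ℝ, Filter.Tendsto (fun n : ℕ => f' n / (n : ℝ)) Filter.atTop Filter.atTop ∧
      ∀ (X : Type) [MulAction Γ X], FaithfulSMul Γ X → ∀ n : ℕ, ∃ x : X,
        f' n ≤ ((H84.Sch.FB T n x).ncard : ℝ) := by
  classical
  obtain ⟨K, hK, hKw⟩ := over_word S hT ι
  refine ⟨fun n => f (n / K), ?_, ?_⟩
  · -- growth
    have h1 : Filter.Tendsto (fun n : ℕ => n / K) Filter.atTop Filter.atTop :=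
      Nat.tendsto_div_const_atTop hK.ne'
    have h2 : Filter.Tendsto (fun n : ℕ => f (n / K) / ((n / K : ℕ) : ℝ)) Filter.atTop
        Filter.atTop := hf.comp h1
    rw [Filter.tendsto_atTop] at h2 ⊢
    intro b
    have hKr : (0 : ℝ) < K := by exact_mod_cast hK
    filter_upwards [h2 (|b| * (2 * K)), Filter.eventually_ge_atTop K] with n hn hnK
    have hq : 1 ≤ n / K := (Nat.one_le_div_iff hK).2 hnK
    have hqr : (1 : ℝ) ≤ ((n / K : ℕ) : ℝ) := by exact_mod_cast hq
    have hnn : (n : ℝ) ≤ 2 * K * ((n / K : ℕ) : ℝ) := by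
      have h3 : n ≤ 2 * K * (n / K) := by
        have h4 := Nat.lt_mul_div_succ n hK
        nlinarith
      exact_mod_cast h3
    have hnpos : (0 : ℝ) < n := by
      have : 0 < n := lt_of_lt_of_le hK hnK
      exact_mod_cast this
    rw [le_div_iff₀ (by linarith)] at hn
    rw [le_div_iff₀ hnpos]
    calc b * n ≤ |b| * n := mul_le_mul_of_nonneg_right (le_abs_self b) hnpos.le
      _ ≤ |b| * (2 * K * ((n / K : ℕ) : ℝ)) := mul_le_mul_of_nonneg_left hnn (abs_nonneg b)
      _ = |b| * (2 * K) * ((n / K : ℕ) : ℝ) := by ring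
      _ ≤ f (n / K) := hn
  · intro X _ hX n
    let act : MulAction G X := MulAction.compHom X ι
    have hfa : @FaithfulSMul G X act.toSMul := by
      refine @FaithfulSMul.mk G X act.toSMul ?_
      intro g₁ g₂ h
      apply hι
      apply FaithfulSMul.eq_of_smul_eq_smul (α := X)
      exact h
    obtain ⟨x, hx⟩ := @hgap X act hfa (n / K)
    refine ⟨x, hx.trans ?_⟩
    have hsub : @FB G _ X act S (n / K) x ⊆ FB T n x := by
      rintro y ⟨g, hg, rfl⟩
      obtain ⟨w, h1, h2, h3⟩ := exists_geod hcl 1 g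
      rw [one_mul] at h3
      refine ⟨ι g, ?_, rfl⟩
      have h4 := hKw w h1
      rw [h3] at h4
      refine le_trans h4 ?_
      rw [h2]
      exact le_trans (Nat.mul_le_mul_left K hg) (Nat.mul_div_le n K)
    exact_mod_cast Set.ncard_le_ncard hsub (FB_finite hT n x)

end Pool.Agent.H89.SG
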