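import Pool.Agent.H89.SG.W1
import Pool.Agent.H89.SG.MuB

/-!
# Ibp: integrals of derivatives of compactly supported functions

`g` smooth on the ball, zero on the ball outside `{nsq ≤ r}`, `r < 1`. Let `g̃ = g` on the ball,
`0` outside; `g̃` is smooth on the plane with compact support, and `∫ fderiv ℝ g̃ z v = 0` for each
`v` (`integral_bilinear_hasLineDerivAt_right_eq_neg_left_of_integrable` with a constant function,
or `integral_fderiv_eq_zero`-type lemmas in `Mathlib/Analysis/Calculus/LineDeriv/`; one can also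
use `integral_mul_fderiv_eq_neg_fderiv_mul_of_integrable` with a bump function which is `1` on the
support). `dd j g = dd j g̃` on the ball and `dd j g̃ = 0` outside.
-/

set_option autoImplicit false

namespace Pool.Agent.H89.SG

open Complex MeasureTheory
open scoped ContDiff ComplexConjugate

/-- the extension by zero of a function on the ball -/
noncomputable def ext0 (g : E → ℂ) (z : E) : ℂ := by
  classical
  exact if z ∈ ball then g z else 0

theorem ext0_of_mem {g : E → ℂ} {z : E} (hz : z ∈ ball) : ext0 g z = g z := by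
  unfold ext0
  exact if_pos hz

theorem ext0_of_notMem {g : E → ℂ} {z : E} (hz : z ∉ ball) : ext0 g z = 0 := by
  unfold ext0
  exact if_neg hz

theorem ext0_eq_of_mem {g : E → ℂ} {z : E} (hz : z ∈ ball) : ext0 g =ᶠ[nhds z] g := by
  filter_upwards [isOpen_ball.mem_nhds hz] with w hw
  exact ext0_of_mem hw

theorem ext0_eq_zero_of_lt {g : E → ℂ} {r : ℝ} (hs : ∀ z ∈ ball, g z ≠ 0 → nsq z ≤ r) {z : E}
    (hz : r < nsq z) : ext0 g z = 0 := by
  by_cases h : z ∈ ball
  · rw [ext0_of_mem h]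
    by_contra h0
    exact absurd (hs z h h0) (not_le.mpr hz)
  · exact ext0_of_notMem h

instance ibpHaarE : (volume : Measure E).IsAddHaarMeasure :=
  inferInstanceAs ((volume : Measure ℂ).prod (volume : Measure ℂ)).IsAddHaarMeasure

theorem isOpen_lt_nsq (r : ℝ) : IsOpen {z : E | r < nsq z} :=
  isOpen_lt continuous_const continuous_nsq

theorem ext0_eventually_zero {g : E → ℂ} {r : ℝ} (hs : ∀ z ∈ ball, g z ≠ 0 → nsq z ≤ r) {z : E}
    (hz : r < nsq z) : ext0 g =ᶠ[nhds z] fun _ => 0 := by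
  filter_upwards [(isOpen_lt_nsq r).mem_nhds hz] with w hw
  exact ext0_eq_zero_of_lt hs hw

theorem ext0_contDiff {g : E → ℂ} (hg : Smo g) {r : ℝ} (hr : r < 1)
    (hs : ∀ z ∈ ball, g z ≠ 0 → nsq z ≤ r) : ContDiff ℝ ∞ (ext0 g) := by
  rw [contDiff_iff_contDiffAt]
  intro z
  by_cases h : z ∈ ball
  · exact (hg.contDiffAt (isOpen_ball.mem_nhds h)).congr_of_eventuallyEq (ext0_eq_of_mem h)
  · have h1 : r < nsq z := lt_of_lt_of_le hr (not_lt.mp h)
    exact contDiffAt_const.congr_of_eventuallyEq (ext0_eventually_zero hs h1)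

theorem ext0_hasCompactSupport {g : E → ℂ} {r : ℝ}
    (hs : ∀ z ∈ ball, g z ≠ 0 → nsq z ≤ r) : HasCompactSupport (ext0 g) :=
  HasCompactSupport.intro (isCompact_nsq_le r) fun z hz =>
    ext0_eq_zero_of_lt hs (not_le.mp hz)

theorem integral_fderiv_ext0 {g : E → ℂ} (hg : Smo g) {r : ℝ} (hr : r < 1)
    (hs : ∀ z ∈ ball, g z ≠ 0 → nsq z ≤ r) (v : E) :
    Integrable (fun z => fderiv ℝ (ext0 g) z v) ∧ ∫ z, fderiv ℝ (ext0 g) z v = 0 := by
  have hc := ext0_contDiff hg hr hs
  have hcs := ext0_hasCompactSupport hs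
  have hcont : Continuous fun z => fderiv ℝ (ext0 g) z v :=
    (hc.continuous_fderiv (by simp)).clm_apply continuous_const
  have hcs' : HasCompactSupport fun z => fderiv ℝ (ext0 g) z v :=
    hcs.fderiv_apply (𝕜 := ℝ) v
  have hint : Integrable (fun z => fderiv ℝ (ext0 g) z v) :=
    hcont.integrable_of_hasCompactSupport hcs'
  refine ⟨hint, ?_⟩
  have h := integral_smul_fderiv_eq_neg_fderiv_smul_of_integrable (μ := (volume : Measure E))
    (𝕜 := ℝ) (f := fun _ : E => (1 : ℝ)) (g := ext0 g) (v := v)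
    (by simp)
    (by simpa using hint)
    (by simpa using hc.continuous.integrable_of_hasCompactSupport hcs)
    (fun x _ => differentiableAt_const _)
    (fun x _ => (hc.differentiable (by simp)).differentiableAt)
  simpa using h

theorem dd_supp {g : E → ℂ} {r : ℝ} (hs : ∀ z ∈ ball, g z ≠ 0 → nsq z ≤ r) (j : Fin 2) :
    ∀ z ∈ ball, dd j g z ≠ 0 → nsq z ≤ r := by
  intro z hz h
  by_contra hlt
  apply h
  have h1 : g =ᶠ[nhds z] fun _ => (0 : ℂ) :=
    (ext0_eq_of_mem hz).symm.trans (ext0_eventually_zero hs (not_le.mp hlt))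
  rw [dd_congr h1, dd_const]

theorem db_supp {g : E → ℂ} {r : ℝ} (hs : ∀ z ∈ ball, g z ≠ 0 → nsq z ≤ r) (j : Fin 2) :
    ∀ z ∈ ball, db j g z ≠ 0 → nsq z ≤ r := by
  intro z hz h
  by_contra hlt
  apply h
  have h1 : g =ᶠ[nhds z] fun _ => (0 : ℂ) :=
    (ext0_eq_of_mem hz).symm.trans (ext0_eventually_zero hs (not_le.mp hlt))
  rw [db_congr h1, db_const]

theorem integral_dd {g : E → ℂ} (hg : Smo g) {r : ℝ} (hr : r < 1)
    (hs : ∀ z ∈ ball, g z ≠ 0 → nsq z ≤ r) (j : Fin 2) : ∫ z in ball, dd j g z = 0 := by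
  have h1 : ∫ z in ball, dd j g z = ∫ z, dd j (ext0 g) z := by
    rw [← setIntegral_eq_integral_of_forall_compl_eq_zero (s := ball)
      (f := fun z => dd j (ext0 g) z)]
    · refine setIntegral_congr_fun measurableSet_ball fun z hz => ?_
      exact (dd_congr (ext0_eq_of_mem hz)).symm
    · intro z hz
      rw [dd_congr (ext0_eventually_zero hs (lt_of_lt_of_le hr (not_lt.mp hz))), dd_const]
  rw [h1]
  unfold dd
  obtain ⟨i1, e1⟩ := integral_fderiv_ext0 hg hr hs (bs j)
  obtain ⟨i2, e2⟩ := integral_fderiv_ext0 hg hr hs (I • bs j)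
  rw [integral_div, integral_sub i1 (i2.const_mul I), integral_const_mul, e1, e2]
  simp

theorem integral_db {g : E → ℂ} (hg : Smo g) {r : ℝ} (hr : r < 1)
    (hs : ∀ z ∈ ball, g z ≠ 0 → nsq z ≤ r) (j : Fin 2) : ∫ z in ball, db j g z = 0 := by
  have h1 : ∫ z in ball, db j g z = ∫ z, db j (ext0 g) z := by
    rw [← setIntegral_eq_integral_of_forall_compl_eq_zero (s := ball)
      (f := fun z => db j (ext0 g) z)]
    · refine setIntegral_congr_fun measurableSet_ball fun z hz => ?_
      exact (db_congr (ext0_eq_of_mem hz)).symm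
    · intro z hz
      rw [db_congr (ext0_eventually_zero hs (lt_of_lt_of_le hr (not_lt.mp hz))), db_const]
  rw [h1]
  unfold db
  obtain ⟨i1, e1⟩ := integral_fderiv_ext0 hg hr hs (bs j)
  obtain ⟨i2, e2⟩ := integral_fderiv_ext0 hg hr hs (I • bs j)
  rw [integral_div, integral_add i1 (i2.const_mul I), integral_const_mul, e1, e2]
  simp

end Pool.Agent.H89.SG
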