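import Pool.Agent.H89.SG.Chg
import Pool.Agent.H89.SG.PartX
import Pool.Agent.H89.SG.Ibp

/-!
# PT: the unfolding lemma

`TT a c k x i = ∑_j (a_j dd_j k + c_j db_j k)` is a first-order operator, invariant under `G`
(hypothesis `hinv`), locally finite in `i`. Claim: `∑_i ∫ T(κ)(x, i) dx = 0`.

Proof. Let `I₀` be the finite set of `i` such that some coefficient does not vanish at some point
of `{nsq ≤ ρ}`. `T(κ)(x, i) = 0` unless `nsq x ≤ ρ` (support of the derivatives of `κ`) and then
unless `i ∈ I₀`. Let `T₁ ⊇` the finite set of `Part.exists_finset` for `R = (1 + ρ) / 2`, closed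
under inverses. Then on `{nsq ≤ ρ}` `∑_{g ∈ T₁} κ (g x) = 1`, so
`S := ∑_i ∫ T(κ)(x, i) = ∑_{g ∈ T₁} ∑_i ∫ κ (g x) T(κ)(x, i) dx`.
Let `h = g⁻¹`. By `integral_comp` for `m h` (substitution `x = h x'`)
`∫ κ (g x) T(κ)(x, i) dx = ∫ normSq (jac h x') κ (x') T(κ)(h x', i) dx'` (as `g h x' = x'`)
`= ∫ κ (x') T(κ ∘ h)(x', g • i) dx'` by `hinv` for `h` at the index `g • i` (`h • g • i = i`).
Sum over `i` (all sums are finite: the integrand at `x'` vanishes unless `nsq x' ≤ ρ` and the index
is in `I₀`; use `finsum` reindexing by the bijection `i ↦ g • i`):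
`S = ∑_{i ∈ I₀} ∫ κ (x') ∑_{h ∈ T₁} T(κ ∘ h)(x', i) dx' = ∑_{i ∈ I₀} ∫ κ (x') T(1)(x', i) dx' = 0`
since `∑_{h ∈ T₁} κ ∘ h = 1` on the open set `{nsq < (1 + ρ) / 2}`, a neighbourhood of each point
with `κ x' ≠ 0`, and `T` of a constant is `0` (`dd_congr`, `dd_sum`, `dd_const`).
-/

set_option autoImplicit false

namespace Pool.Agent.H89.SG

open Complex MeasureTheory
open scoped ContDiff ComplexConjugate

/-- a first-order operator with index set `I` -/
noncomputable def TT {I : Type} (a c : Fin 2 → E → I → ℂ) (k : E → ℂ) (x : E) (i : I) : ℂ :=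
  ∑ j : Fin 2, (a j x i * dd j k x + c j x i * db j k x)


section aux

variable {I : Type} {a c : Fin 2 → E → I → ℂ}

theorem TT_continuousOn (ha : ∀ j i, ContinuousOn (fun x => a j x i) ball)
    (hc : ∀ j i, ContinuousOn (fun x => c j x i) ball) {f : E → ℂ} (hf : Smo f) (i : I) :
    ContinuousOn (fun x => TT a c f x i) ball := by
  unfold TT
  refine continuousOn_finsetSum _ fun j _ => ?_
  have h1 : ContinuousOn (dd j f) ball := (hf.dd j).continuousOn
  have h2 : ContinuousOn (db j f) ball := (hf.db j).continuousOn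
  exact ((ha j i).mul h1).add ((hc j i).mul h2)

theorem TT_zero_of_coef {x : E} {i : I} (h : ∀ j, a j x i = 0 ∧ c j x i = 0) (f : E → ℂ) :
    TT a c f x i = 0 := by
  unfold TT
  refine Finset.sum_eq_zero fun j _ => ?_
  rw [(h j).1, (h j).2]
  ring

end aux

variable {G : Type} [Group G] {m : G → E → E}

theorem PT (hA : BAct G m) {r ρ : ℝ} {κ : E → ℝ} (hP : Part m r ρ κ) {I : Type} [MulAction G I]
    (a c : Fin 2 → E → I → ℂ) (ha : ∀ j i, ContinuousOn (fun x => a j x i) ball)
    (hc : ∀ j i, ContinuousOn (fun x => c j x i) ball)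
    (hfin : ∀ R : ℝ, R < 1 → {i : I | ∃ x, nsq x ≤ R ∧ ∃ j, a j x i ≠ 0 ∨ c j x i ≠ 0}.Finite)
    (hinv : ∀ (g : G) (k : E → ℂ), Smo k → ∀ x ∈ ball, ∀ i : I,
      TT a c (fun z => k (m g z)) x i =
        (normSq (jac (m g) x) : ℂ) * TT a c k (m g x) (g • i)) :
    ∑ᶠ i : I, ∫ x in ball, TT a c (fun z => ((κ z : ℝ) : ℂ)) x i = 0 := by
  classical
  set κc : E → ℂ := fun z => ((κ z : ℝ) : ℂ) with hκc
  have hsm : Smo κc := by
    have h1 : ContDiff ℝ ∞ κc := Complex.ofRealCLM.contDiff.comp hP.smooth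
    exact h1.contDiffOn
  have hρ := hP.ρ_lt
  -- finite set of group elements
  set R : ℝ := (1 + ρ) / 2 with hR
  have hR1 : R < 1 := by rw [hR]; linarith
  have hρR : ρ < R := by rw [hR]; linarith
  obtain ⟨T, hT1, hT2⟩ := hP.exists_finset hA hR1
  set T₁ : Finset G := T ∪ T.image (fun g => g⁻¹) with hT₁
  have hTinv : ∀ g ∈ T₁, g⁻¹ ∈ T₁ := by
    intro g hg
    rw [hT₁, Finset.mem_union, Finset.mem_image] at hg ⊢
    rcases hg with hg | ⟨g', hg', rfl⟩
    · right; exact ⟨g, hg, rfl⟩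
    · left; rw [inv_inv]; exact hg'
  have hsum : ∀ z, nsq z ≤ R → ∑ g ∈ T₁, κ (m g z) = 1 := by
    intro z hz
    rw [← hT2 z hz]
    symm
    apply Finset.sum_subset
    · rw [hT₁]; exact Finset.subset_union_left
    · intro g _ hg
      by_contra hne
      exact hg (hT1 z hz g hne)
  have hsum' : ∀ z, nsq z ≤ R → ∑ g ∈ T₁, κ (m g⁻¹ z) = 1 := by
    intro z hz
    rw [← hsum z hz]
    refine Finset.sum_nbij' (fun g => g⁻¹) (fun g => g⁻¹) ?_ ?_ ?_ ?_ ?_
    · exact hTinv
    · exact hTinv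
    · intro g _; simp
    · intro g _; simp
    · intro g _; rfl
  -- supports
  have hks : ∀ z ∈ ball, κc z ≠ 0 → nsq z ≤ ρ := by
    intro z _ hz
    apply hP.supp z
    intro h
    apply hz
    simp [hκc, h]
  have hTs : ∀ x ∈ ball, ∀ i : I, TT a c κc x i ≠ 0 → nsq x ≤ ρ := by
    intro x hx i hne
    by_contra hlt
    apply hne
    unfold TT
    refine Finset.sum_eq_zero fun j _ => ?_
    have h1 : dd j κc x = 0 := by
      by_contra h; exact hlt (dd_supp hks j x hx h)
    have h2 : db j κc x = 0 := by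
      by_contra h; exact hlt (db_supp hks j x hx h)
    rw [h1, h2]; ring
  set I₀ : Set I := {i : I | ∃ x, nsq x ≤ ρ ∧ ∃ j, a j x i ≠ 0 ∨ c j x i ≠ 0} with hI₀
  have hI₀f : I₀.Finite := hfin ρ hρ
  have hcoef : ∀ i, i ∉ I₀ → ∀ x, nsq x ≤ ρ → ∀ f : E → ℂ, TT a c f x i = 0 := by
    intro i hi x hx f
    apply TT_zero_of_coef
    intro j
    constructor
    · by_contra h; exact hi ⟨x, hx, j, Or.inl h⟩
    · by_contra h; exact hi ⟨x, hx, j, Or.inr h⟩
  -- smoothness of the translates
  have hsmg : ∀ g : G, Smo (fun z => κc (m g z)) := fun g => hP.smo hA g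
  -- the integrals `W g i`
  set W : G → I → ℂ := fun g i => ∫ x in ball, κc x * TT a c (fun z => κc (m g⁻¹ z)) x i with hW
  have hWsupp : ∀ g i, i ∉ I₀ → W g i = 0 := by
    intro g i hi
    rw [hW]
    have : ∀ x ∈ ball, κc x * TT a c (fun z => κc (m g⁻¹ z)) x i = (0 : ℂ) := by
      intro x hx
      by_cases h : κc x = 0
      · rw [h, zero_mul]
      · rw [hcoef i hi x (hks x hx h), mul_zero]
    calc ∫ x in ball, κc x * TT a c (fun z => κc (m g⁻¹ z)) x i = ∫ x in ball, (0 : ℂ) :=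
          setIntegral_congr_fun measurableSet_ball this
      _ = 0 := by simp
  have hWfin : ∀ g, (Function.support (W g)).Finite := by
    intro g
    apply hI₀f.subset
    intro i hi
    by_contra h
    exact hi (hWsupp g i h)
  -- first step
  have hF : ∀ i, ∫ x in ball, TT a c κc x i = ∑ g ∈ T₁, W g (g • i) := by
    intro i
    have h1 : ∫ x in ball, TT a c κc x i =
        ∫ x in ball, ∑ g ∈ T₁, κc (m g x) * TT a c κc x i := by
      refine setIntegral_congr_fun measurableSet_ball ?_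
      intro x hx
      show TT a c κc x i = ∑ g ∈ T₁, κc (m g x) * TT a c κc x i
      by_cases h : TT a c κc x i = 0
      · rw [h]; simp
      · have hx' := hTs x hx i h
        have h2 := hsum x (le_trans hx' hρR.le)
        rw [← Finset.sum_mul]
        have h3 : ∑ g ∈ T₁, κc (m g x) = 1 := by
          rw [hκc]
          have := congrArg (fun t : ℝ => (t : ℂ)) h2
          simpa using this
        rw [h3, one_mul]
    rw [h1, integral_finsetSum]
    · refine Finset.sum_congr rfl fun g _ => ?_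
      have haut := hA.aut g⁻¹
      rw [← integral_comp haut (fun x => κc (m g x) * TT a c κc x i)]
      rw [hW]
      refine setIntegral_congr_fun measurableSet_ball ?_
      intro x hx
      show normSq (jac (m g⁻¹) x) • (κc (m g (m g⁻¹ x)) * TT a c κc (m g⁻¹ x) i) =
        κc x * TT a c (fun z => κc (m g⁻¹ z)) x (g • i)
      rw [hA.inv_right g hx, hinv g⁻¹ κc hsm x hx (g • i), inv_smul_smul]
      rw [Complex.real_smul]
      ring
    · intro g _
      apply integrableOn_of_supp (r := ρ) _ hρ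
      · intro x hx hne
        exact hTs x hx i (right_ne_zero_of_mul hne)
      · exact (hsmg g).continuousOn.mul (TT_continuousOn ha hc hsm i)
  -- second step
  have hS : ∑ᶠ i : I, ∫ x in ball, TT a c κc x i = ∑ᶠ i : I, ∑ g ∈ T₁, W g i := by
    rw [finsum_congr hF]
    rw [finsum_sum_comm, finsum_sum_comm]
    · refine Finset.sum_congr rfl fun g _ => ?_
      exact finsum_comp_equiv (MulAction.toPerm g) (f := W g)
    · intro g _
      exact hWfin g
    · intro g _
      have h5 : (Function.support (fun i => W g (g • i))).Finite :=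
        (hWfin g).preimage ((MulAction.injective g).injOn)
      exact h5
  rw [hS]
  -- third step
  apply finsum_eq_zero_of_forall_eq_zero
  intro i
  have h1 : ∑ g ∈ T₁, W g i =
      ∫ x in ball, ∑ g ∈ T₁, κc x * TT a c (fun z => κc (m g⁻¹ z)) x i := by
    rw [integral_finsetSum]
    intro g _
    apply integrableOn_of_supp (r := ρ) _ hρ
    · intro x hx hne
      exact hks x hx (left_ne_zero_of_mul hne)
    · exact hsm.continuousOn.mul (TT_continuousOn ha hc (hsmg g⁻¹) i)
  rw [h1]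
  have h2 : ∀ x ∈ ball, ∑ g ∈ T₁, κc x * TT a c (fun z => κc (m g⁻¹ z)) x i = (0 : ℂ) := by
    intro x hx
    rw [← Finset.mul_sum]
    by_cases hk : κc x = 0
    · rw [hk, zero_mul]
    have hx' : nsq x ≤ ρ := hks x hx hk
    have hev : (fun z => ∑ g ∈ T₁, κc (m g⁻¹ z)) =ᶠ[nhds x] fun _ => (1 : ℂ) := by
      have hopen : IsOpen {z : E | nsq z < R} := isOpen_lt continuous_nsq continuous_const
      filter_upwards [hopen.mem_nhds (show x ∈ {z : E | nsq z < R} from lt_of_le_of_lt hx' hρR)]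
        with z hz
      have h3 := hsum' z (le_of_lt hz)
      rw [hκc]
      have := congrArg (fun t : ℝ => (t : ℂ)) h3
      simpa using this
    have hdiff : ∀ g ∈ T₁, DifferentiableAt ℝ (fun z => κc (m g⁻¹ z)) x :=
      fun g _ => (hsmg g⁻¹).diffAt hx
    have hd : ∀ j, ∑ g ∈ T₁, dd j (fun z => κc (m g⁻¹ z)) x = 0 := by
      intro j
      rw [← dd_sum T₁ (fun g z => κc (m g⁻¹ z)) hdiff, dd_congr hev, dd_const]
    have hb : ∀ j, ∑ g ∈ T₁, db j (fun z => κc (m g⁻¹ z)) x = 0 := by
      intro j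
      rw [← db_sum T₁ (fun g z => κc (m g⁻¹ z)) hdiff, db_congr hev, db_const]
    have : ∑ g ∈ T₁, TT a c (fun z => κc (m g⁻¹ z)) x i = 0 := by
      unfold TT
      rw [Finset.sum_comm]
      refine Finset.sum_eq_zero fun j _ => ?_
      rw [Finset.sum_add_distrib, ← Finset.mul_sum, ← Finset.mul_sum, hd, hb]
      ring
    rw [this, mul_zero]
  calc ∫ x in ball, ∑ g ∈ T₁, κc x * TT a c (fun z => κc (m g⁻¹ z)) x i
      = ∫ x in ball, (0 : ℂ) := setIntegral_congr_fun measurableSet_ball h2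
    _ = 0 := by simp

end Pool.Agent.H89.SG
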