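import Pool.Agent.H89.SG.Cnt
import Pool.Agent.H89.SG.PT

/-!
# RigT: the unfolding lemma for the transplanted function

Write `u = uu F₁ y` (complex valued: `uC`), `Ω_y = {x ∈ ball : |u - t₁| < 1}` and
`T(k)(x, y) = f χ(u) Jc(f, u) Jb(k, u)`: coefficients `a = 0`, `c 0 x y = f χ(u) Jc(f, u) db 1 u`,
`c 1 x y = - f χ(u) Jc(f, u) db 0 u`. They are continuous on the ball in `x`: on the open set
`Ω_y` by (c) (locally `f` is the real part of a holomorphic function, so `f` and `Jc(f, u)` are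
continuous) and on the open set `{|u - t₁| > 1 - ε}` they vanish. Locally finite in `y`:
`Reg_finite`. Invariance: for `k` smooth, with `u_y = u_{g y} ∘ m g` on the ball (`uu_smul`) and
`f y = f (g • y) ∘ m g` near the points of `Ω_y` (hypothesis `hb`; `Ω_y` is open), `Jb_comp` and (the
same computation at one point for functions which are smooth near `m g x`) `Jc` get the factors
`conj jac` and `jac`. Where `χ(u) = 0` both sides vanish. Apply `PT`.
-/

set_option autoImplicit false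

namespace Pool.Agent.H89.SG

open Complex MeasureTheory
open scoped ContDiff ComplexConjugate

variable {G : Type} [Group G] {m : G → E → E} {S : Finset G} {κ : E → ℝ} {r ρ : ℝ}

/-- the pluriharmonic function as a complex valued function -/
noncomputable def uC {L : Line G S} (F : L.Q → E → ℂ) (y : L.Y) (x : E) : ℂ :=
  ((uu F y x : ℝ) : ℂ)

private theorem uC_eq {L : Line G S} (F : L.Q → E → ℂ) (y : L.Y) :
    uC F y = fun x => (((F y.1 x).re : ℝ) : ℂ) + ((L.ℓ * y.2 : ℝ) : ℂ) := by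
  funext x
  unfold uC uu
  push_cast
  ring

private theorem re_smo {F : E → ℂ} (hF : Smo F) : Smo (fun x => (((F x).re : ℝ) : ℂ)) := by
  have h1 : ContDiff ℝ ∞ (fun w : ℂ => ((w.re : ℝ) : ℂ)) :=
    Complex.ofRealCLM.contDiff.comp Complex.reCLM.contDiff
  exact h1.comp_contDiffOn hF

theorem uC_smo {L : Line G S} {F : L.Q → E → ℂ} (hF : HD m L F) (y : L.Y) : Smo (uC F y) := by
  rw [uC_eq]
  exact (re_smo (hF.hol y.1).smo).add contDiffOn_const

theorem dd_uC {L : Line G S} {F : L.Q → E → ℂ} (hF : HD m L F) (y : L.Y) {z : E}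
    (hz : z ∈ ball) (j : Fin 2) : dd j (uC F y) z = dd j (F y.1) z / 2 := by
  rw [uC_eq, dd_add ((re_smo (hF.hol y.1).smo).diffAt hz) (differentiableAt_const _),
    dd_re (hF.hol y.1) hz, dd_const, add_zero]

theorem db_uC {L : Line G S} {F : L.Q → E → ℂ} (hF : HD m L F) (y : L.Y) {z : E}
    (hz : z ∈ ball) (j : Fin 2) : db j (uC F y) z = conj (dd j (F y.1) z) / 2 := by
  rw [uC_eq, db_add ((re_smo (hF.hol y.1).smo).diffAt hz) (differentiableAt_const _),
    db_re (hF.hol y.1) hz, db_const, add_zero]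

private theorem Jc_congr {f f' g g' : E → ℂ} {z : E} (hf : f =ᶠ[nhds z] f')
    (hg : g =ᶠ[nhds z] g') : Jc f g z = Jc f' g' z := by
  unfold Jc
  rw [dd_congr hf, dd_congr hf, dd_congr hg, dd_congr hg]

private theorem Jb_congr {f f' g g' : E → ℂ} {z : E} (hf : f =ᶠ[nhds z] f')
    (hg : g =ᶠ[nhds z] g') : Jb f g z = Jb f' g' z := by
  unfold Jb
  rw [db_congr hf, db_congr hf, db_congr hg, db_congr hg]

private theorem Smo.contAt {f : E → ℂ} (hf : Smo f) {z : E} (hz : z ∈ ball) :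
    ContinuousAt f z :=
  (hf.continuousOn z hz).continuousAt (isOpen_ball.mem_nhds hz)

private theorem uu_contAt {L : Line G S} {F : L.Q → E → ℂ} (hF : HD m L F) (y : L.Y) {z : E}
    (hz : z ∈ ball) : ContinuousAt (uu F y) z := by
  have h1 : ContinuousAt (F y.1) z := Smo.contAt (hF.hol y.1).smo hz
  have h2 : ContinuousAt (fun x => (F y.1 x).re) z := Complex.continuous_re.continuousAt.comp h1
  exact h2.add continuousAt_const

private theorem uC_near {L : Line G S} {F : L.Q → E → ℂ} (hF : HD m L F) (g : G) (y : L.Y)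
    {z : E} (hz : z ∈ ball) : uC F y =ᶠ[nhds z] fun w => uC F (g • y) (m g w) := by
  filter_upwards [isOpen_ball.mem_nhds hz] with w hw
  unfold uC
  rw [uu_smul hF g y hw]

/-- the coefficient of the first-order operator -/
private noncomputable def PP {L : Line G S} (F : L.Q → E → ℂ) (f : L.Y → E → ℝ) (χ : ℝ → ℝ)
    (y : L.Y) (x : E) : ℂ :=
  (f y x : ℂ) * (χ (uu F y x) : ℂ) * Jc (fun z => (f y z : ℂ)) (uC F y) x

private theorem PP_contAt {L₁ : Line G S} {F₁ : L₁.Q → E → ℂ}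
    (h₁ : HD m L₁ F₁) (t₁ : ℤ) (f : L₁.Y → E → ℝ)
    (hc : ∀ y : L₁.Y, ∀ x₀ ∈ ball, |uu F₁ y x₀ - t₁| < 1 →
      ∃ F : E → ℂ, Hol F ∧ ∀ᶠ x in nhds x₀, f y x = (F x).re)
    (χ : ℝ → ℝ) (hχ : ContDiff ℝ ∞ χ) {ε : ℝ} (hε : 0 < ε)
    (hs : ∀ s : ℝ, 1 - ε ≤ |s - t₁| → χ s = 0) (y : L₁.Y) {x₀ : E} (hx₀ : x₀ ∈ ball) :
    ContinuousAt (PP F₁ f χ y) x₀ := by
  have hu : ContinuousAt (uu F₁ y) x₀ := uu_contAt h₁ y hx₀
  rcases lt_or_ge |uu F₁ y x₀ - t₁| 1 with hlt | hge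
  · obtain ⟨F, hF, hfF⟩ := hc y x₀ hx₀ hlt
    have hfC : (fun z => (f y z : ℂ)) =ᶠ[nhds x₀] fun z => (((F z).re : ℝ) : ℂ) := by
      filter_upwards [hfF] with z hz
      rw [hz]
    have hJ : (fun x => Jc (fun z => (f y z : ℂ)) (uC F₁ y) x) =ᶠ[nhds x₀]
        fun x => Jc (fun z => (((F z).re : ℝ) : ℂ)) (uC F₁ y) x := by
      filter_upwards [hfC.eventuallyEq_nhds] with z hz
      exact Jc_congr hz (Filter.EventuallyEq.refl _ _)
    have hsF : Smo (fun z => (((F z).re : ℝ) : ℂ)) := re_smo hF.smo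
    have hsu : Smo (uC F₁ y) := uC_smo h₁ y
    have hcJ : ContinuousAt (fun x => Jc (fun z => (((F z).re : ℝ) : ℂ)) (uC F₁ y) x) x₀ := by
      unfold Jc
      exact (((hsF.dd 0).contAt hx₀).mul ((hsu.dd 1).contAt hx₀)).sub
        (((hsF.dd 1).contAt hx₀).mul ((hsu.dd 0).contAt hx₀))
    have hcJ' : ContinuousAt (fun x => Jc (fun z => (f y z : ℂ)) (uC F₁ y) x) x₀ :=
      hcJ.congr hJ.symm
    have hcf : ContinuousAt (fun x => (f y x : ℂ)) x₀ := (Smo.contAt hsF hx₀).congr hfC.symm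
    have hcχ : ContinuousAt (fun x => (χ (uu F₁ y x) : ℂ)) x₀ :=
      Complex.continuous_ofReal.continuousAt.comp
        (ContinuousAt.comp (f := uu F₁ y) hχ.continuous.continuousAt hu)
    exact (hcf.mul hcχ).mul hcJ'
  · have h0 : PP F₁ f χ y =ᶠ[nhds x₀] fun _ => (0 : ℂ) := by
      have hcont : ContinuousAt (fun x => |uu F₁ y x - t₁|) x₀ :=
        (hu.sub continuousAt_const).abs
      have hev : ∀ᶠ x in nhds x₀, 1 - ε < |uu F₁ y x - t₁| :=
        hcont.eventually (lt_mem_nhds (by linarith))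
      filter_upwards [hev] with x hx
      unfold PP
      rw [hs _ hx.le]
      simp
    exact continuousAt_const.congr h0.symm

private theorem PP_inv (hA : BAct G m) {L₁ : Line G S} {F₁ : L₁.Q → E → ℂ}
    (h₁ : HD m L₁ F₁) (t₁ : ℤ) (f : L₁.Y → E → ℝ)
    (hb : ∀ (g : G) (y : L₁.Y), ∀ x ∈ ball, |uu F₁ y x - t₁| < 1 → f (g • y) (m g x) = f y x)
    (hc : ∀ y : L₁.Y, ∀ x₀ ∈ ball, |uu F₁ y x₀ - t₁| < 1 →
      ∃ F : E → ℂ, Hol F ∧ ∀ᶠ x in nhds x₀, f y x = (F x).re)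
    (χ : ℝ → ℝ) {ε : ℝ} (hε : 0 < ε)
    (hs : ∀ s : ℝ, 1 - ε ≤ |s - t₁| → χ s = 0) (g : G) (y : L₁.Y) {x : E} (hx : x ∈ ball) :
    PP F₁ f χ y x = jac (m g) x * PP F₁ f χ (g • y) (m g x) := by
  have huu : uu F₁ (g • y) (m g x) = uu F₁ y x := uu_smul h₁ g y hx
  by_cases hχ0 : χ (uu F₁ y x) = 0
  · unfold PP
    rw [huu, hχ0]
    simp
  · have hlt : |uu F₁ y x - t₁| < 1 := by
      by_contra hcon
      push Not at hcon
      exact hχ0 (hs _ (by linarith))
    have hgx : m g x ∈ ball := hA.mem g hx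
    obtain ⟨F, hF, hfF⟩ := hc (g • y) (m g x) hgx (by rw [huu]; exact hlt)
    have hfC : (fun z => (f (g • y) z : ℂ)) =ᶠ[nhds (m g x)] fun z => (((F z).re : ℝ) : ℂ) := by
      filter_upwards [hfF] with z hz
      rw [hz]
    have hmc : ContinuousAt (m g) x :=
      ((hA.aut g).smooth.continuousOn x hx).continuousAt (isOpen_ball.mem_nhds hx)
    have hu : ContinuousAt (fun z => |uu F₁ y z - t₁|) x :=
      ((uu_contAt h₁ y hx).sub continuousAt_const).abs
    have hfy : (fun z => (f y z : ℂ)) =ᶠ[nhds x] fun z => (((F (m g z)).re : ℝ) : ℂ) := by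
      filter_upwards [isOpen_ball.mem_nhds hx, hu.eventually (gt_mem_nhds hlt),
        hmc.eventually hfF] with z hz1 hz2 hz3
      rw [← hz3, hb g y z hz1 hz2]
    have hJ : Jc (fun z => (f y z : ℂ)) (uC F₁ y) x =
        jac (m g) x * Jc (fun z => (f (g • y) z : ℂ)) (uC F₁ (g • y)) (m g x) := by
      rw [Jc_congr hfy (uC_near h₁ g y hx),
        Jc_comp (f := fun z => (((F z).re : ℝ) : ℂ)) (re_smo hF.smo) (uC_smo h₁ (g • y))
          (hA.aut g) hx, Jc_congr hfC (Filter.EventuallyEq.refl _ _)]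
    unfold PP
    rw [hJ, huu, hb g y x hx hlt]
    ring

theorem rig_PT (hA : BAct G m) (hP : Part m r ρ κ) {L₁ : Line G S} {F₁ : L₁.Q → E → ℂ}
    (h₁ : HD m L₁ F₁) (t₁ : ℤ) (f : L₁.Y → E → ℝ)
    (hb : ∀ (g : G) (y : L₁.Y), ∀ x ∈ ball, |uu F₁ y x - t₁| < 1 → f (g • y) (m g x) = f y x)
    (hc : ∀ y : L₁.Y, ∀ x₀ ∈ ball, |uu F₁ y x₀ - t₁| < 1 →
      ∃ F : E → ℂ, Hol F ∧ ∀ᶠ x in nhds x₀, f y x = (F x).re)
    (χ : ℝ → ℝ) (hχ : ContDiff ℝ ∞ χ) {ε : ℝ} (hε : 0 < ε)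
    (hs : ∀ s : ℝ, 1 - ε ≤ |s - t₁| → χ s = 0) :
    ∑ᶠ y : L₁.Y, ∫ x in ball, (f y x : ℂ) * (χ (uu F₁ y x) : ℂ) *
      Jc (fun z => (f y z : ℂ)) (uC F₁ y) x * Jb (fun z => ((κ z : ℝ) : ℂ)) (uC F₁ y) x = 0 := by
  set c : Fin 2 → E → L₁.Y → ℂ := fun j x y =>
    if j = 0 then PP F₁ f χ y x * db 1 (uC F₁ y) x else -(PP F₁ f χ y x * db 0 (uC F₁ y) x)
    with hcdef
  have hTT : ∀ (k : E → ℂ) (x : E) (y : L₁.Y), TT (fun _ _ _ => 0) c k x y =
      PP F₁ f χ y x * Jb k (uC F₁ y) x := by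
    intro k x y
    unfold TT
    rw [Fin.sum_univ_two]
    simp only [hcdef, Jb]
    simp only [if_true, Fin.one_eq_zero_iff, OfNat.ofNat_ne_one, if_false, zero_mul, zero_add]
    ring
  have hcont : ∀ j y, ContinuousOn (fun x => c j x y) ball := by
    intro j y x hx
    have hP1 := PP_contAt h₁ t₁ f hc χ hχ hε hs y hx
    have hd : ∀ i, ContinuousAt (fun x => db i (uC F₁ y) x) x := fun i =>
      ((uC_smo h₁ y).db i).contAt hx
    refine ContinuousAt.continuousWithinAt ?_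
    simp only [hcdef]
    split_ifs with hj
    · exact hP1.mul (hd 1)
    · exact (hP1.mul (hd 0)).neg
  have hfin : ∀ R : ℝ, R < 1 → {y : L₁.Y | ∃ x, nsq x ≤ R ∧ ∃ j, (0 : ℂ) ≠ 0 ∨
      c j x y ≠ 0}.Finite := by
    intro R hR
    refine (Reg_finite hA h₁ hR t₁).subset ?_
    rintro y ⟨x, hx, j, h | h⟩
    · exact (h rfl).elim
    · refine ⟨x, hx, ?_⟩
      by_contra hcon
      push Not at hcon
      apply h
      have h0 : PP F₁ f χ y x = 0 := by
        unfold PP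
        rw [hs _ (by linarith)]
        simp
      simp [hcdef, h0]
  have key := PT hA hP (fun _ _ _ => 0) c (fun j i => continuousOn_const) hcont hfin (by
    intro g k hk x hx y
    rw [hTT, hTT, PP_inv hA h₁ t₁ f hb hc χ hε hs g y hx,
      Jb_congr (Filter.EventuallyEq.refl _ (fun z => k (m g z))) (uC_near h₁ g y hx),
      Jb_comp hk (uC_smo h₁ (g • y)) (hA.aut g) hx, ← Complex.mul_conj]
    ring)
  rw [← key]
  refine finsum_congr fun y => ?_
  refine integral_congr_ae (Filter.Eventually.of_forall fun x => ?_)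
  show _ = TT (fun _ _ _ => 0) c (fun z => ((κ z : ℝ) : ℂ)) x y
  rw [hTT]
  rfl

end Pool.Agent.H89.SG
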