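import Pool.Agent.H89.SG.RigF
import Pool.Agent.H89.SG.RigT
import Pool.Agent.H89.SG.Ident

/-!
# Rig: rigidity of lines with isomorphic pieces

`rigid_local`: let `f` be given by `exists_transplant` and `ε > 0` such that
`|uu F₁ y x - t₁| < 1 - ε`; let `χ ≥ 0` be smooth, positive on `(t₁ - 1 + ε, t₁ + 1 - ε)`, zero
outside (`Real.smoothTransition` or `ContDiffBump`). `rig_PT` gives
`∑ᶠ_y' ∫ T(κ)(x, y') dx = 0`. On the support of `κ` (`nsq ≤ ρ`), where `χ(u) ≠ 0`,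
`f y' = uu F₂ (θ y')` near the point if `nsq x < ρ`, and (the set `nsq x = ρ` has measure zero,
or: `κ` and its derivatives vanish there, since `κ = 0` on `{nsq > ρ}`, by continuity of the
derivatives) so we may replace `f y'` by the real part `f'` of a holomorphic function on the whole
ball (`Jc (f, u)` at points with `nsq x < ρ`; at points with `nsq x = ρ` `Jb(κ, u) = 0`). Only
`y' ∈ Reg F₁ ρ t₁` (finite) contribute. Integration by parts (`integral_db`) for each such `y'`: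
`∫ κ χ(u) J Jb(f', u) = - ∫ f' χ(u) J Jb(κ, u)`, `J = Jc(f', u)`, because
`db 0 (f' κ χ J db 1 u) - db 1 (f' κ χ J db 0 u) = κ χ J Jb(f', u) + f' χ J Jb(κ, u)`
(`db i J = 0`, `db i χ(u) = χ'(u) db i u`, `db 0 (db 1 u) = db 1 (db 0 u)`).
As `Jb(f', u) = conj J`, `∑_{y'} ∫ κ χ(u) |J|² = 0`, each term is nonnegative, so
`κ χ(u) |J|² = 0` on the ball; at our point `κ x > 0` (`Part.pos`) and `χ > 0`, so `J = 0`, and
`Jc (F₂ (θ y).1) (F₁ y.1) = 4 J` (`dd_uC`).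

`rigid`: the set of `x` in the ball with `nsq x < (r + ρ)/2`... more precisely: `x₀` with
`nsq x₀ ≤ r`, `|uu F₁ y x₀ - t₁| < 1`. `κ > 0` on an open set around `x₀` and the argument of
`rigid_local` works for all `x` with `κ x > 0` (state the local lemma with `0 < κ x`). The
holomorphic function `Jc (F₂ (θ y).1) (F₁ y.1)` vanishes on a neighbourhood of `x₀`: `ident`.
-/

set_option autoImplicit false

namespace Pool.Agent.H89.SG

open Complex MeasureTheory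
open scoped ContDiff ComplexConjugate

variable {G : Type} [Group G] {m : G → E → E} {S : Finset G} {κ : E → ℝ} {r ρ : ℝ}

/-! ### private preparations -/

private theorem rg_smo_mul {f g : E → ℂ} (hf : Smo f) (hg : Smo g) :
    Smo (fun w => f w * g w) := ContDiffOn.mul hf hg

private theorem rg_smo_real {u : E → ℝ} (hu : ContDiffOn ℝ ∞ u ball) :
    Smo (fun w => ((u w : ℝ) : ℂ)) :=
  Complex.ofRealCLM.contDiff.comp_contDiffOn hu

private theorem rg_uu_smooth {L : Line G S} {F : L.Q → E → ℂ} (hF : HD m L F) (y : L.Y) :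
    ContDiffOn ℝ ∞ (uu F y) ball := by
  have h : ContDiffOn ℝ ∞ (fun x => (F y.1 x).re) ball :=
    Complex.reCLM.contDiff.comp_contDiffOn (hF.hol y.1).1
  exact h.add contDiffOn_const

private theorem rg_uu_cont {L : Line G S} {F : L.Q → E → ℂ} (hF : HD m L F) (y : L.Y) :
    ContinuousOn (uu F y) ball := (rg_uu_smooth hF y).continuousOn

/-- the product rule for five factors -/
private theorem rg_db_mul5 {a b c d e : E → ℂ} {z : E} {j : Fin 2}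
    (ha : DifferentiableAt ℝ a z) (hb : DifferentiableAt ℝ b z) (hc : DifferentiableAt ℝ c z)
    (hd : DifferentiableAt ℝ d z) (he : DifferentiableAt ℝ e z) :
    db j (fun w => a w * b w * c w * d w * e w) z =
      db j a z * b z * c z * d z * e z + a z * db j b z * c z * d z * e z +
      a z * b z * db j c z * d z * e z + a z * b z * c z * db j d z * e z +
      a z * b z * c z * d z * db j e z := by
  have hab : DifferentiableAt ℝ (fun w => a w * b w) z := ha.mul hb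
  have habc : DifferentiableAt ℝ (fun w => a w * b w * c w) z := hab.mul hc
  have habcd : DifferentiableAt ℝ (fun w => a w * b w * c w * d w) z := habc.mul hd
  rw [db_mul habcd he, db_mul habc hd, db_mul hab hc, db_mul ha hb]
  ring

/-- `κ` has vanishing derivatives where it vanishes -/
private theorem rg_db_kappa (hP : Part m r ρ κ) {z : E} (hz : κ z = 0) (j : Fin 2) :
    db j (fun w => ((κ w : ℝ) : ℂ)) z = 0 := by
  have hmin : IsLocalMin κ z := by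
    refine Filter.Eventually.of_forall fun w => ?_
    rw [hz]
    exact hP.nonneg w
  have hκ : DifferentiableAt ℝ κ z := (hP.smooth.differentiable (by simp)).differentiableAt
  have h0 : fderiv ℝ κ z = 0 := hmin.fderiv_eq_zero
  have h1 : HasFDerivAt (fun w => ((κ w : ℝ) : ℂ)) (Complex.ofRealCLM.comp (fderiv ℝ κ z)) z :=
    Complex.ofRealCLM.hasFDerivAt.comp z hκ.hasFDerivAt
  have h2 : fderiv ℝ (fun w => ((κ w : ℝ) : ℂ)) z = 0 := by
    rw [h1.fderiv, h0]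
    simp
  unfold db
  rw [h2]
  simp

private theorem rg_kappa_smo (hP : Part m r ρ κ) : Smo (fun w => ((κ w : ℝ) : ℂ)) :=
  rg_smo_real hP.smooth.contDiffOn

/-- the integrated by parts identity -/
private theorem rg_parts (hP : Part m r ρ κ) {f u : E → ℝ} (hf : ContDiffOn ℝ ∞ f ball)
    (hu : ContDiffOn ℝ ∞ u ball) {χ : ℝ → ℝ} (hχ : ContDiff ℝ ∞ χ) {J : E → ℂ} (hJ : Hol J) :
    ∫ x in ball, (f x : ℂ) * (χ (u x) : ℂ) * J x *
        Jb (fun z => ((κ z : ℝ) : ℂ)) (fun z => ((u z : ℝ) : ℂ)) x =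
      - ∫ x in ball, (κ x : ℂ) * (χ (u x) : ℂ) * J x *
        Jb (fun z => ((f z : ℝ) : ℂ)) (fun z => ((u z : ℝ) : ℂ)) x := by
  have hfC : Smo (fun w => ((f w : ℝ) : ℂ)) := rg_smo_real hf
  have huC : Smo (fun w => ((u w : ℝ) : ℂ)) := rg_smo_real hu
  have hκC : Smo (fun w => ((κ w : ℝ) : ℂ)) := rg_kappa_smo hP
  have hχu : ContDiffOn ℝ ∞ (fun w => χ (u w)) ball := hχ.comp_contDiffOn hu
  have hχC : Smo (fun w => ((χ (u w) : ℝ) : ℂ)) := rg_smo_real hχu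
  have hJ1 : Smo J := hJ.smo
  have hu0 : Smo (db 0 (fun w => ((u w : ℝ) : ℂ))) := huC.db 0
  have hu1 : Smo (db 1 (fun w => ((u w : ℝ) : ℂ))) := huC.db 1
  have hf0 : Smo (db 0 (fun w => ((f w : ℝ) : ℂ))) := hfC.db 0
  have hf1 : Smo (db 1 (fun w => ((f w : ℝ) : ℂ))) := hfC.db 1
  have hk0 : Smo (db 0 (fun w => ((κ w : ℝ) : ℂ))) := hκC.db 0
  have hk1 : Smo (db 1 (fun w => ((κ w : ℝ) : ℂ))) := hκC.db 1
  have hW : ∀ k : Fin 2, Smo (fun w => ((f w : ℝ) : ℂ) * ((κ w : ℝ) : ℂ) * ((χ (u w) : ℝ) : ℂ) *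
      J w * db k (fun w => ((u w : ℝ) : ℂ)) w) := fun k =>
    rg_smo_mul (rg_smo_mul (rg_smo_mul (rg_smo_mul hfC hκC) hχC) hJ1) (huC.db k)
  have hWs : ∀ k : Fin 2, ∀ z ∈ ball, ((f z : ℝ) : ℂ) * ((κ z : ℝ) : ℂ) * ((χ (u z) : ℝ) : ℂ) *
      J z * db k (fun w => ((u w : ℝ) : ℂ)) z ≠ 0 → nsq z ≤ ρ := by
    intro k z _ hne
    refine hP.supp z fun h0 => hne ?_
    rw [h0]
    simp
  have I0 := integral_db (hW 1) hP.ρ_lt (hWs 1) 0
  have I1 := integral_db (hW 0) hP.ρ_lt (hWs 0) 1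
  -- pointwise identity
  have hpt : ∀ z ∈ ball,
      db 0 (fun w => ((f w : ℝ) : ℂ) * ((κ w : ℝ) : ℂ) * ((χ (u w) : ℝ) : ℂ) *
        J w * db 1 (fun w => ((u w : ℝ) : ℂ)) w) z -
      db 1 (fun w => ((f w : ℝ) : ℂ) * ((κ w : ℝ) : ℂ) * ((χ (u w) : ℝ) : ℂ) *
        J w * db 0 (fun w => ((u w : ℝ) : ℂ)) w) z =
      (f z : ℂ) * (χ (u z) : ℂ) * J z *
        Jb (fun z => ((κ z : ℝ) : ℂ)) (fun z => ((u z : ℝ) : ℂ)) z +
      (κ z : ℂ) * (χ (u z) : ℂ) * J z *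
        Jb (fun z => ((f z : ℝ) : ℂ)) (fun z => ((u z : ℝ) : ℂ)) z := by
    intro z hz
    have hud : DifferentiableAt ℝ u z :=
      (hu.contDiffAt (isOpen_ball.mem_nhds hz)).differentiableAt (by simp)
    have hχd : DifferentiableAt ℝ χ (u z) := (hχ.differentiable (by simp)).differentiableAt
    rw [rg_db_mul5 (hfC.diffAt hz) (hκC.diffAt hz) (hχC.diffAt hz) (hJ1.diffAt hz)
        (hu1.diffAt hz),
      rg_db_mul5 (hfC.diffAt hz) (hκC.diffAt hz) (hχC.diffAt hz) (hJ1.diffAt hz)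
        (hu0.diffAt hz),
      db_real_comp hud hχd, db_real_comp hud hχd, hJ.db_eq hz 0, hJ.db_eq hz 1,
      db_db_comm huC hz 0 1]
    unfold Jb
    ring
  -- integrability
  have hcont1 : ContinuousOn (fun z => (f z : ℂ) * (χ (u z) : ℂ) * J z *
      Jb (fun z => ((κ z : ℝ) : ℂ)) (fun z => ((u z : ℝ) : ℂ)) z) ball := by
    unfold Jb
    exact ((hfC.continuousOn.mul hχC.continuousOn).mul hJ1.continuousOn).mul
      ((hk0.continuousOn.mul hu1.continuousOn).sub (hk1.continuousOn.mul hu0.continuousOn))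
  have hcont2 : ContinuousOn (fun z => (κ z : ℂ) * (χ (u z) : ℂ) * J z *
      Jb (fun z => ((f z : ℝ) : ℂ)) (fun z => ((u z : ℝ) : ℂ)) z) ball := by
    unfold Jb
    exact ((hκC.continuousOn.mul hχC.continuousOn).mul hJ1.continuousOn).mul
      ((hf0.continuousOn.mul hu1.continuousOn).sub (hf1.continuousOn.mul hu0.continuousOn))
  have hcontW : ∀ i k : Fin 2, ContinuousOn (db i (fun w => ((f w : ℝ) : ℂ) * ((κ w : ℝ) : ℂ) *
      ((χ (u w) : ℝ) : ℂ) * J w * db k (fun w => ((u w : ℝ) : ℂ)) w)) ball := fun i k =>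
    ((hW k).db i).continuousOn
  have hi1 : IntegrableOn (fun z => (f z : ℂ) * (χ (u z) : ℂ) * J z *
      Jb (fun z => ((κ z : ℝ) : ℂ)) (fun z => ((u z : ℝ) : ℂ)) z) ball := by
    refine integrableOn_of_supp hcont1 hP.ρ_lt ?_
    intro z hz hne
    by_contra hlt
    have hκ0 : κ z = 0 := by
      by_contra h
      exact hlt (hP.supp z h)
    apply hne
    unfold Jb
    rw [rg_db_kappa hP hκ0 0, rg_db_kappa hP hκ0 1]
    ring
  have hi2 : IntegrableOn (fun z => (κ z : ℂ) * (χ (u z) : ℂ) * J z *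
      Jb (fun z => ((f z : ℝ) : ℂ)) (fun z => ((u z : ℝ) : ℂ)) z) ball := by
    refine integrableOn_of_supp hcont2 hP.ρ_lt ?_
    intro z hz hne
    refine hP.supp z fun h0 => hne ?_
    rw [h0]
    simp
  have hiW : ∀ i k : Fin 2, IntegrableOn (db i (fun w => ((f w : ℝ) : ℂ) * ((κ w : ℝ) : ℂ) *
      ((χ (u w) : ℝ) : ℂ) * J w * db k (fun w => ((u w : ℝ) : ℂ)) w)) ball := fun i k =>
    integrableOn_of_supp (hcontW i k) hP.ρ_lt (db_supp (hWs k) i)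
  have hsum : ∫ z in ball, ((f z : ℂ) * (χ (u z) : ℂ) * J z *
        Jb (fun z => ((κ z : ℝ) : ℂ)) (fun z => ((u z : ℝ) : ℂ)) z +
      (κ z : ℂ) * (χ (u z) : ℂ) * J z *
        Jb (fun z => ((f z : ℝ) : ℂ)) (fun z => ((u z : ℝ) : ℂ)) z) = 0 := by
    rw [← setIntegral_congr_fun measurableSet_ball hpt, integral_sub (hiW 0 1) (hiW 1 0),
      I0, I1, sub_zero]
  rw [integral_add hi1 hi2] at hsum
  exact eq_neg_of_add_eq_zero_left hsum

/-- the Jacobians of the pluriharmonic functions -/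
private theorem rg_Jc_uC {L₁ L₂ : Line G S} {F₁ : L₁.Q → E → ℂ} {F₂ : L₂.Q → E → ℂ}
    (h₁ : HD m L₁ F₁) (h₂ : HD m L₂ F₂) (y₁ : L₁.Y) (y₂ : L₂.Y) {z : E} (hz : z ∈ ball) :
    Jc (uC F₂ y₂) (uC F₁ y₁) z = Jc (F₂ y₂.1) (F₁ y₁.1) z / 4 := by
  unfold Jc
  rw [dd_uC h₁ y₁ hz 0, dd_uC h₁ y₁ hz 1, dd_uC h₂ y₂ hz 0, dd_uC h₂ y₂ hz 1]
  ring

private theorem rg_Jb_uC {L₁ L₂ : Line G S} {F₁ : L₁.Q → E → ℂ} {F₂ : L₂.Q → E → ℂ}
    (h₁ : HD m L₁ F₁) (h₂ : HD m L₂ F₂) (y₁ : L₁.Y) (y₂ : L₂.Y) {z : E} (hz : z ∈ ball) :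
    Jb (uC F₂ y₂) (uC F₁ y₁) z = conj (Jc (F₂ y₂.1) (F₁ y₁.1) z / 4) := by
  unfold Jb Jc
  rw [db_uC h₁ y₁ hz 0, db_uC h₁ y₁ hz 1, db_uC h₂ y₂ hz 0, db_uC h₂ y₂ hz 1]
  simp only [map_div₀, map_sub, map_mul]
  have h4 : conj (4 : ℂ) = 4 := by
    have := Complex.conj_ofReal 4
    simpa using this
  rw [h4]
  ring

/-- the cut off function -/
private theorem rg_cut (t₁ : ℤ) {ε : ℝ} (hε : ε < 1) : ∃ χ : ℝ → ℝ, ContDiff ℝ ∞ χ ∧
    (∀ s : ℝ, 0 ≤ χ s) ∧ (∀ s : ℝ, |s - t₁| < 1 - ε → 0 < χ s) ∧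
      ∀ s : ℝ, 1 - ε ≤ |s - t₁| → χ s = 0 := by
  refine ⟨fun s => Real.smoothTransition ((1 - ε) ^ 2 - (s - t₁) ^ 2), ?_, ?_, ?_, ?_⟩
  · exact Real.smoothTransition.contDiff.comp
      (contDiff_const.sub ((contDiff_id.sub contDiff_const).pow 2))
  · intro s
    exact Real.smoothTransition.nonneg _
  · intro s hs
    apply Real.smoothTransition.pos_of_pos
    have h1 : (s - t₁) ^ 2 = |s - t₁| ^ 2 := (sq_abs _).symm
    have h2 : 0 ≤ |s - t₁| := abs_nonneg _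
    rw [h1]
    nlinarith
  · intro s hs
    apply Real.smoothTransition.zero_of_nonpos
    have h1 : (s - t₁) ^ 2 = |s - t₁| ^ 2 := (sq_abs _).symm
    have h2 : 0 ≤ |s - t₁| := abs_nonneg _
    rw [h1]
    nlinarith

/-- the identity of the integrands after the replacement of the transplanted function -/
private theorem rg_replace (hP : Part m r ρ κ) {L₁ L₂ : Line G S} {F₁ : L₁.Q → E → ℂ}
    {F₂ : L₂.Q → E → ℂ} (h₁ : HD m L₁ F₁) (h₂ : HD m L₂ F₂) (t₁ : ℤ) (θ : L₁.Y → L₂.Y)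
    {f : L₁.Y → E → ℝ} (ha : ∀ y x, nsq x ≤ ρ → |uu F₁ y x - t₁| < 1 → f y x = uu F₂ (θ y) x)
    {χ : ℝ → ℝ} {ε : ℝ} (hε : 0 < ε) (hs : ∀ s : ℝ, 1 - ε ≤ |s - t₁| → χ s = 0)
    (y : L₁.Y) {x : E} (hx : x ∈ ball) :
    (f y x : ℂ) * (χ (uu F₁ y x) : ℂ) *
      Jc (fun z => (f y z : ℂ)) (uC F₁ y) x * Jb (fun z => ((κ z : ℝ) : ℂ)) (uC F₁ y) x =
    ((uu F₂ (θ y) x : ℝ) : ℂ) * (χ (uu F₁ y x) : ℂ) *
      (Jc (F₂ (θ y).1) (F₁ y.1) x / 4) *
      Jb (fun z => ((κ z : ℝ) : ℂ)) (fun z => ((uu F₁ y z : ℝ) : ℂ)) x := by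
  have huC : (fun z => ((uu F₁ y z : ℝ) : ℂ)) = uC F₁ y := rfl
  rw [huC]
  by_cases hκ0 : κ x = 0
  · have : Jb (fun z => ((κ z : ℝ) : ℂ)) (uC F₁ y) x = 0 := by
      unfold Jb
      rw [rg_db_kappa hP hκ0 0, rg_db_kappa hP hκ0 1]
      ring
    rw [this, mul_zero, mul_zero]
  by_cases hχ0 : χ (uu F₁ y x) = 0
  · rw [hχ0]
    simp
  have hlt : |uu F₁ y x - t₁| < 1 := by
    by_contra h
    exact hχ0 (hs _ (by linarith [not_lt.1 h]))
  have hev1 : ∀ᶠ z in nhds x, κ z ≠ 0 :=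
    (hP.smooth.continuous.continuousAt).eventually_ne hκ0
  have hev2 : ∀ᶠ z in nhds x, |uu F₁ y z - t₁| < 1 := by
    have hc : ContinuousAt (fun z => |uu F₁ y z - t₁|) x :=
      (((rg_uu_cont h₁ y).continuousAt (isOpen_ball.mem_nhds hx)).sub continuousAt_const).abs
    exact hc.eventually_lt continuousAt_const hlt
  have hev : (fun z => (f y z : ℂ)) =ᶠ[nhds x] uC F₂ (θ y) := by
    filter_upwards [hev1, hev2] with z hz1 hz2
    show ((f y z : ℝ) : ℂ) = ((uu F₂ (θ y) z : ℝ) : ℂ)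
    rw [ha y z (hP.supp z hz1) hz2]
  have hJ : Jc (fun z => (f y z : ℂ)) (uC F₁ y) x = Jc (uC F₂ (θ y)) (uC F₁ y) x := by
    unfold Jc
    rw [dd_congr hev, dd_congr hev]
  rw [hJ, rg_Jc_uC h₁ h₂ y (θ y) hx, ha y x (hP.supp x hκ0) hlt]

theorem rigid_local (hA : BAct G m) (hP : Part m r ρ κ) {L₁ L₂ : Line G S} {F₁ : L₁.Q → E → ℂ}
    {F₂ : L₂.Q → E → ℂ} (h₁ : HD m L₁ F₁) (h₂ : HD m L₂ F₂) (t₁ : ℤ) (θ : L₁.Y → L₂.Y)
    (hθ : Compat m F₁ ρ t₁ θ) {y : L₁.Y} {x : E} (hx : 0 < κ x)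
    (hxy : |uu F₁ y x - t₁| < 1) : Jc (F₂ (θ y).1) (F₁ y.1) x = 0 := by
  obtain ⟨f, ha, hb, hc⟩ := exists_transplant hA hP h₁ h₂ t₁ θ hθ
  have hxρ : nsq x ≤ ρ := hP.supp x hx.ne'
  have hxB : x ∈ ball := lt_of_le_of_lt hxρ hP.ρ_lt
  obtain ⟨ε, hε, hε1, hxε⟩ : ∃ ε : ℝ, 0 < ε ∧ ε < 1 ∧ |uu F₁ y x - t₁| < 1 - ε := by
    refine ⟨(1 - |uu F₁ y x - t₁|) / 2, by linarith, ?_, by linarith⟩
    have := abs_nonneg (uu F₁ y x - t₁)
    linarith
  obtain ⟨χ, hχ, hχ0, hχp, hs⟩ := rg_cut t₁ hε1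
  have hsum := rig_PT hA hP h₁ t₁ f hb hc χ hχ hε hs
  -- the integrals
  have hJH : ∀ y' : L₁.Y, Hol (fun z => Jc (F₂ (θ y').1) (F₁ y'.1) z / 4) := by
    intro y'
    have h := (Hol.const (1 / 4)).mul ((h₂.hol (θ y').1).Jc (h₁.hol y'.1))
    have he : (fun z => Jc (F₂ (θ y').1) (F₁ y'.1) z / 4) =
        fun w => (1 / 4 : ℂ) * Jc (F₂ (θ y').1) (F₁ y'.1) w := by
      funext z
      ring
    rw [he]
    exact h
  have hterm : ∀ y' : L₁.Y, ∫ x in ball, (f y' x : ℂ) * (χ (uu F₁ y' x) : ℂ) *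
      Jc (fun z => (f y' z : ℂ)) (uC F₁ y') x * Jb (fun z => ((κ z : ℝ) : ℂ)) (uC F₁ y') x =
      ((- ∫ x in ball, κ x * χ (uu F₁ y' x) * normSq (Jc (F₂ (θ y').1) (F₁ y'.1) x / 4) : ℝ) :
        ℂ) := by
    intro y'
    rw [setIntegral_congr_fun measurableSet_ball fun z hz =>
      rg_replace hP h₁ h₂ t₁ θ ha hε hs y' hz]
    rw [rg_parts hP (rg_uu_smooth h₂ (θ y')) (rg_uu_smooth h₁ y') hχ (hJH y')]
    have e2 : (((∫ x in ball, κ x * χ (uu F₁ y' x) *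
        normSq (Jc (F₂ (θ y').1) (F₁ y'.1) x / 4) : ℝ)) : ℂ) =
        ∫ x in ball, ((κ x * χ (uu F₁ y' x) *
          normSq (Jc (F₂ (θ y').1) (F₁ y'.1) x / 4) : ℝ) : ℂ) :=
      (integral_ofReal (𝕜 := ℂ)).symm
    rw [Complex.ofReal_neg, e2]
    congr 1
    refine setIntegral_congr_fun measurableSet_ball fun z hz => ?_
    have e1 : Jb (fun z => ((uu F₂ (θ y') z : ℝ) : ℂ)) (fun z => ((uu F₁ y' z : ℝ) : ℂ)) z =
        conj (Jc (F₂ (θ y').1) (F₁ y'.1) z / 4) := rg_Jb_uC h₁ h₂ y' (θ y') hz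
    rw [e1, mul_assoc, Complex.mul_conj]
    push_cast
    rfl
  set a : L₁.Y → ℝ := fun y' => ∫ x in ball, κ x * χ (uu F₁ y' x) *
    normSq (Jc (F₂ (θ y').1) (F₁ y'.1) x / 4) with hadef
  have ha0 : ∀ y', 0 ≤ a y' := by
    intro y'
    refine setIntegral_nonneg measurableSet_ball fun z _ => ?_
    exact mul_nonneg (mul_nonneg (hP.nonneg z) (hχ0 _)) (normSq_nonneg _)
  have hfin : (Reg F₁ ρ t₁).Finite := Reg_finite hA h₁ hP.ρ_lt t₁
  have hsupp : ∀ y', a y' ≠ 0 → y' ∈ Reg F₁ ρ t₁ := by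
    intro y' hne
    by_contra hnot
    apply hne
    rw [hadef]
    refine (setIntegral_congr_fun measurableSet_ball fun z hz => ?_).trans
      (integral_zero E ℝ)
    by_cases hκz : κ z = 0
    · rw [hκz]
      simp
    by_cases hχz : χ (uu F₁ y' z) = 0
    · rw [hχz]
      simp
    exfalso
    apply hnot
    refine ⟨z, hP.supp z hκz, ?_⟩
    by_contra h
    exact hχz (hs _ (by linarith [not_lt.1 h]))
  have hsum2 : ∑ᶠ y' : L₁.Y, ((- a y' : ℝ) : ℂ) = 0 := by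
    rw [← hsum]
    exact finsum_congr fun y' => (hterm y').symm
  have hsub : Function.support (fun y' : L₁.Y => ((- a y' : ℝ) : ℂ)) ⊆ hfin.toFinset := by
    intro y' hy'
    rw [Set.Finite.coe_toFinset]
    refine hsupp y' fun h => hy' ?_
    simp only
    rw [h]
    simp
  rw [finsum_eq_sum_of_support_subset _ hsub, ← Complex.ofReal_sum] at hsum2
  have hsum3 : ∑ y' ∈ hfin.toFinset, a y' = 0 := by
    have h := Complex.ofReal_eq_zero.1 hsum2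
    rw [Finset.sum_neg_distrib] at h
    linarith
  have hall : ∀ y' ∈ hfin.toFinset, a y' = 0 :=
    (Finset.sum_eq_zero_iff_of_nonneg fun y' _ => ha0 y').1 hsum3
  have hay : a y = 0 := by
    apply hall
    rw [Set.Finite.mem_toFinset]
    exact ⟨x, hxρ, hxy⟩
  -- conclusion
  have hcont : ContinuousOn (fun z => κ z * χ (uu F₁ y z) *
      normSq (Jc (F₂ (θ y).1) (F₁ y.1) z / 4)) ball := by
    refine (hP.smooth.continuous.continuousOn.mul
      (hχ.continuous.comp_continuousOn (rg_uu_cont h₁ y))).mul ?_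
    exact Complex.continuous_normSq.comp_continuousOn (hJH y).smo.continuousOn
  have hint : IntegrableOn (fun z => κ z * χ (uu F₁ y z) *
      normSq (Jc (F₂ (θ y).1) (F₁ y.1) z / 4)) ball := by
    refine integrableOn_of_supp hcont hP.ρ_lt fun z _ hne => ?_
    refine hP.supp z fun h0 => hne ?_
    rw [h0]
    simp
  have hz := eq_zero_of_setIntegral_zero hcont
    (fun z _ => mul_nonneg (mul_nonneg (hP.nonneg z) (hχ0 _)) (normSq_nonneg _)) hint hay x hxB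
  have hχx : 0 < χ (uu F₁ y x) := hχp _ hxε
  have hN : normSq (Jc (F₂ (θ y).1) (F₁ y.1) x / 4) = 0 := by
    rcases mul_eq_zero.1 hz with h | h
    · exact absurd h (mul_pos hx hχx).ne'
    · exact h
  have h4 := Complex.normSq_eq_zero.1 hN
  simpa using h4

/-- with the identity theorem -/
theorem rigid (hA : BAct G m) (hP : Part m r ρ κ) {L₁ L₂ : Line G S} {F₁ : L₁.Q → E → ℂ}
    {F₂ : L₂.Q → E → ℂ} (h₁ : HD m L₁ F₁) (h₂ : HD m L₂ F₂) (t₁ : ℤ) (θ : L₁.Y → L₂.Y)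
    (hθ : Compat m F₁ ρ t₁ θ) {y : L₁.Y} (hy : ∃ x : E, nsq x ≤ r ∧ |uu F₁ y x - t₁| < 1) :
    ∀ z ∈ ball, Jc (F₂ (θ y).1) (F₁ y.1) z = 0 := by
  obtain ⟨x₀, hx₀, hxy⟩ := hy
  have hκ₀ : 0 < κ x₀ := hP.pos x₀ hx₀
  have hx₀B : x₀ ∈ ball := lt_of_le_of_lt (hP.supp x₀ hκ₀.ne') hP.ρ_lt
  have hev1 : ∀ᶠ z in nhds x₀, 0 < κ z :=
    continuousAt_const.eventually_lt hP.smooth.continuous.continuousAt hκ₀
  have hev2 : ∀ᶠ z in nhds x₀, |uu F₁ y z - t₁| < 1 := by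
    have hc : ContinuousAt (fun z => |uu F₁ y z - t₁|) x₀ :=
      (((rg_uu_cont h₁ y).continuousAt (isOpen_ball.mem_nhds hx₀B)).sub continuousAt_const).abs
    exact hc.eventually_lt continuousAt_const hxy
  obtain ⟨U, hU, hUo, hxU⟩ := eventually_nhds_iff.1 (hev1.and hev2)
  have hJ : Hol (Jc (F₂ (θ y).1) (F₁ y.1)) := (h₂.hol (θ y).1).Jc (h₁.hol y.1)
  refine ident hJ (hUo.inter isOpen_ball) Set.inter_subset_right ⟨x₀, hxU, hx₀B⟩ ?_
  intro z hz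
  obtain ⟨h1, h2⟩ := hU z hz.1
  exact rigid_local hA hP h₁ h₂ t₁ θ hθ h1 h2

end Pool.Agent.H89.SG
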