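import Pool.Agent.H89.SG.RigF

/-!
# Typ: finitely many types

`base`: let `g • q = q`, `β g q ≠ 0` for some `q`, `g`. By transitivity and `HD.eq`,
`Re F q' ∘ m h = Re F q' + c` with `c ≠ 0` for each `q'` and some `h` (conjugate of `g`:
`β (k⁻¹ g k) q' = β g (k • q')` if `k • q' = q`), so the values of `Re F q'` on the (connected)
ball are unbounded above and below (apply `h` and `h⁻¹` repeatedly): every real number is a value.
Choose `q'` and `x` in the ball with `uu F (q', 0) x = t`, and `g` with `nsq (m g x) ≤ r`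
(`Part.cover`): `y₀ = g • (q', 0)`, `x₀ = m g x` (`uu_smul`).

`code_finite`: the first component is a set of triples in `Fin M × Fin M × T`, `T` finite
(`BAct.pd`).
`exists_theta`: for `y ∈ Reg d₁` let `g = 1` (it is in `T`, take `z = 0`; if `ρ < 0` the regions are
empty, but `y₀ ∈ Reg`): `(e y, e y, 1)` is in the code of `d₁`, hence in the code of `d₂`: there is
`θ y ∈ Reg d₂` with `e₂ (θ y) = e₁ y`. If `g • y = y'`, `g ∈ T`, then `(e y, e y', g)` is in the code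
of `d₂`: there are `w, w' ∈ Reg d₂` with `g • w = w'`, `e₂ w = e₁ y`, `e₂ w' = e₁ y'`; by injectivity
`w = θ y`, `w' = θ y'`.
-/

set_option autoImplicit false

namespace Pool.Agent.H89.SG

open Complex MeasureTheory
open scoped ContDiff ComplexConjugate

variable {G : Type} [Group G] {m : G → E → E} {S : Finset G} {κ : E → ℝ} {r ρ : ℝ} {M D : ℕ}

/-- a nondegenerate line -/
def Line.Nondeg (L : Line G S) : Prop := ∃ (q : L.Q) (g : G), g • q = q ∧ L.β g q ≠ 0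

theorem Line.β_inv (L : Line G S) (g : G) (q : L.Q) : L.β g⁻¹ (g • q) + L.β g q = 0 := by
  rw [← L.coc, inv_mul_cancel, L.β_one]

/-- every point has a stabilizing element with a nonzero translation -/
theorem Line.Nondeg.all {L : Line G S} (hL : L.Nondeg) (q' : L.Q) :
    ∃ g : G, g • q' = q' ∧ L.β g q' ≠ 0 := by
  obtain ⟨q, g, hg, hβ⟩ := hL
  obtain ⟨k, hk⟩ := L.trans q' q
  refine ⟨k⁻¹ * (g * k), ?_, ?_⟩
  · rw [mul_smul, mul_smul, hk, hg, ← hk, inv_smul_smul]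
  · have h1 : L.β (k⁻¹ * (g * k)) q' = L.β k⁻¹ q + (L.β g q + L.β k q') := by
      rw [L.coc, L.coc, mul_smul, hk, hg]
    have h2 : L.β k⁻¹ q + L.β k q' = 0 := by
      rw [← hk]
      exact L.β_inv k q'
    intro h
    apply hβ
    omega

/-- every real number is a value -/
theorem Line.Nondeg.surj (hA : BAct G m) {L : Line G S} (hL : L.Nondeg) {F : L.Q → E → ℂ}
    (hF : HD m L F) (q : L.Q) (s : ℝ) : ∃ x ∈ ball, (F q x).re = s := by
  obtain ⟨g, hg, hβ⟩ := hL.all q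
  set V : Set ℝ := (fun x => (F q x).re) '' ball with hV
  have hVc : IsPreconnected V := by
    apply isPreconnected_ball.image
    exact continuous_re.comp_continuousOn (hF.hol q).1.continuousOn
  have hVo : V.OrdConnected := hVc.ordConnected
  have hβ' : L.β g⁻¹ q = - L.β g q := by
    have h := L.β_inv g q
    rw [hg] at h
    omega
  have hg' : g⁻¹ • q = q := by
    rw [inv_smul_eq_iff, hg]
  set c : ℝ := L.ℓ * L.β g q with hc
  have hc0 : c ≠ 0 := by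
    have h1 : (L.ℓ : ℝ) ≠ 0 := by exact_mod_cast L.hℓ.ne'
    have h2 : (L.β g q : ℝ) ≠ 0 := by exact_mod_cast hβ
    exact mul_ne_zero h1 h2
  have hsub : ∀ v ∈ V, v - c ∈ V := by
    rintro v ⟨x, hx, rfl⟩
    refine ⟨m g x, hA.mem g hx, ?_⟩
    have h := hF.eq g q x hx
    rw [hg] at h
    show (F q (m g x)).re = (F q x).re - c
    linarith
  have hadd : ∀ v ∈ V, v + c ∈ V := by
    rintro v ⟨x, hx, rfl⟩
    refine ⟨m g⁻¹ x, hA.mem g⁻¹ hx, ?_⟩
    have h := hF.eq g⁻¹ q x hx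
    rw [hg', hβ'] at h
    push_cast at h
    show (F q (m g⁻¹ x)).re = (F q x).re + c
    linarith
  set v₀ : ℝ := (F q 0).re with hv₀
  have hv₀m : v₀ ∈ V := ⟨0, zero_mem_ball, rfl⟩
  have hsubn : ∀ n : ℕ, v₀ - n * c ∈ V := by
    intro n
    induction n with
    | zero => simpa using hv₀m
    | succ n ih =>
      have h := hsub _ ih
      have e : v₀ - ((n + 1 : ℕ) : ℝ) * c = v₀ - n * c - c := by push_cast; ring
      rw [e]
      exact h
  have haddn : ∀ n : ℕ, v₀ + n * c ∈ V := by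
    intro n
    induction n with
    | zero => simpa using hv₀m
    | succ n ih =>
      have h := hadd _ ih
      have e : v₀ + ((n + 1 : ℕ) : ℝ) * c = v₀ + n * c + c := by push_cast; ring
      rw [e]
      exact h
  obtain ⟨n, hn⟩ := exists_nat_gt (|s - v₀| / |c|)
  have hcp : 0 < |c| := abs_pos.mpr hc0
  rw [div_lt_iff₀ hcp] at hn
  have hs : s ∈ V := by
    have h1 := abs_lt.mp hn
    rcases le_total 0 c with hcs | hcs
    · rw [abs_of_nonneg hcs] at h1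
      exact hVo.out (hsubn n) (haddn n) ⟨by linarith, by linarith⟩
    · rw [abs_of_nonpos hcs] at h1
      exact hVo.out (haddn n) (hsubn n) ⟨by linarith, by linarith⟩
  obtain ⟨x, hx, h⟩ := hs
  exact ⟨x, hx, h⟩

theorem base (hA : BAct G m) (hP : Part m r ρ κ) {L : Line G S} (hL : L.Nondeg)
    {F : L.Q → E → ℂ} (hF : HD m L F) (t : ℤ) :
    ∃ (y₀ : L.Y) (x₀ : E), nsq x₀ ≤ r ∧ |uu F y₀ x₀ - t| < 1 := by
  have hL' := hL
  obtain ⟨q, -, -, -⟩ := hL'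
  obtain ⟨x, hx, hxt⟩ := hL.surj hA hF q (t : ℝ)
  obtain ⟨g, hg⟩ := hP.cover x hx
  have hy : ∃ y : L.Y, y = ((q, 0) : L.Q × ℤ) := ⟨_, rfl⟩
  obtain ⟨y, hy⟩ := hy
  refine ⟨g • y, m g x, hg, ?_⟩
  have h2 : uu F y x = t := by
    unfold uu
    rw [hy]
    simp [hxt]
  rw [uu_smul hF g y hx, h2]
  simp

/-- the functions of a nondegenerate line are not constant -/
theorem nonconst (hA : BAct G m) {L : Line G S} (hL : L.Nondeg) {F : L.Q → E → ℂ}
    (hF : HD m L F) (q : L.Q) : ∃ z ∈ ball, ∃ j, dd j (F q) z ≠ 0 := by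
  by_contra hcon
  push Not at hcon
  have hconst : ∀ x ∈ ball, F q x = F q 0 := by
    intro x hx
    refine isOpen_ball.is_const_of_fderiv_eq_zero (𝕜 := ℝ) isPreconnected_ball
      ((hF.hol q).1.differentiableOn (by simp)) ?_ hx zero_mem_ball
    intro z hz
    refine ContinuousLinearMap.ext fun v => ?_
    rw [(hF.hol q).fderiv_eq hz v, hcon z hz 0, hcon z hz 1]
    simp
  obtain ⟨x, hx, h⟩ := hL.surj hA hF q ((F q 0).re + 1)
  rw [hconst x hx] at h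
  linarith

/-- a line with a level whose region is enumerated by `Fin M`, and a base point -/
structure Dat (m : G → E → E) (S : Finset G) (r ρ : ℝ) (D M : ℕ) where
  L : Line G S
  dens : L.Dens D
  nondeg : L.Nondeg
  F : L.Q → E → ℂ
  hF : HD m L F
  t : ℤ
  e : L.Y → Fin M
  inj : Set.InjOn e (Reg F ρ t)
  y₀ : L.Y
  h₀ : ∃ x₀ : E, nsq x₀ ≤ r ∧ |uu F y₀ x₀ - t| < 1

/-- the code -/
def Dat.code (d : Dat m S r ρ D M) : Set (Fin M × Fin M × G) × Fin M :=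
  ({p | (∃ z : E, nsq z ≤ ρ ∧ nsq (m p.2.2 z) ≤ ρ) ∧ ∃ y ∈ Reg d.F ρ d.t, ∃ y' ∈ Reg d.F ρ d.t,
    d.e y = p.1 ∧ d.e y' = p.2.1 ∧ p.2.2 • y = y'}, d.e d.y₀)

theorem code_finite (hA : BAct G m) (hρ : ρ < 1) :
    (Set.range (fun d : Dat m S r ρ D M => d.code)).Finite := by
  have hT := hA.pd ρ hρ
  have hU : ((Set.univ : Set (Fin M)) ×ˢ ((Set.univ : Set (Fin M)) ×ˢ
      {g : G | ∃ z : E, nsq z ≤ ρ ∧ nsq (m g z) ≤ ρ})).Finite :=
    Set.finite_univ.prod (Set.finite_univ.prod hT)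
  refine (hU.powerset.prod (Set.finite_univ (α := Fin M))).subset ?_
  rintro _ ⟨d, rfl⟩
  refine ⟨?_, Set.mem_univ _⟩
  rintro ⟨a, b, g⟩ ⟨hz, -⟩
  exact ⟨Set.mem_univ _, Set.mem_univ _, hz⟩

theorem exists_theta (hA : BAct G m) (hr : r < ρ) (hρ : ρ < 1) (d₁ d₂ : Dat m S r ρ D M)
    (h : d₁.code = d₂.code) : ∃ θ : d₁.L.Y → d₂.L.Y, Compat m d₁.F ρ d₁.t θ ∧ θ d₁.y₀ = d₂.y₀ := by
  classical
  have h1 : d₁.code.1 = d₂.code.1 := by rw [h]
  have h2 : d₁.e d₁.y₀ = d₂.e d₂.y₀ := congrArg Prod.snd h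
  have hex : ∀ y : d₁.L.Y, ∃ w : d₂.L.Y, y ∈ Reg d₁.F ρ d₁.t →
      w ∈ Reg d₂.F ρ d₂.t ∧ d₂.e w = d₁.e y := by
    intro y
    by_cases hy : y ∈ Reg d₁.F ρ d₁.t
    · obtain ⟨x, hx, hu⟩ := hy
      have hmem : ((d₁.e y, d₁.e y, (1 : G)) : Fin M × Fin M × G) ∈ d₁.code.1 := by
        refine ⟨⟨x, hx, ?_⟩, y, ⟨x, hx, hu⟩, y, ⟨x, hx, hu⟩, rfl, rfl, one_smul _ _⟩
        show nsq (m 1 x) ≤ ρ
        rw [hA.one x (lt_of_le_of_lt hx hρ)]
        exact hx
      rw [h1] at hmem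
      obtain ⟨-, w, hw, -, -, hw1, -, -⟩ := hmem
      exact ⟨w, fun _ => ⟨hw, hw1⟩⟩
    · exact ⟨d₂.y₀, fun h => absurd h hy⟩
  choose θ hθ using hex
  refine ⟨θ, ?_, ?_⟩
  · intro y hy y' hy' g hg hgy
    have hmem : ((d₁.e y, d₁.e y', g) : Fin M × Fin M × G) ∈ d₁.code.1 :=
      ⟨hg, y, hy, y', hy', rfl, rfl, hgy⟩
    rw [h1] at hmem
    obtain ⟨-, w, hw, w', hw', hw1, hw2, hw3⟩ := hmem
    have e1 : w = θ y := d₂.inj hw (hθ y hy).1 (by rw [(hθ y hy).2]; exact hw1)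
    have e2 : w' = θ y' := d₂.inj hw' (hθ y' hy').1 (by rw [(hθ y' hy').2]; exact hw2)
    rw [← e1, ← e2]
    exact hw3
  · have hy₁ : d₁.y₀ ∈ Reg d₁.F ρ d₁.t := by
      obtain ⟨x, hx, hu⟩ := d₁.h₀
      exact ⟨x, hx.trans hr.le, hu⟩
    have hy₂ : d₂.y₀ ∈ Reg d₂.F ρ d₂.t := by
      obtain ⟨x, hx, hu⟩ := d₂.h₀
      exact ⟨x, hx.trans hr.le, hu⟩
    exact d₂.inj (hθ _ hy₁).1 hy₂ (by rw [(hθ _ hy₁).2, h2])

theorem exists_dat (hA : BAct G m) (hP : Part m r ρ κ) (hcl : Subgroup.closure (S : Set G) = ⊤)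
    (D : ℕ) : ∃ M : ℕ, ∀ L : Line G S, L.Dens D → L.Nondeg →
      ∃ d : Dat m S r ρ D M, d.L = L := by
  classical
  obtain ⟨M, hM⟩ := count hA hcl D hP.ρ_lt
  refine ⟨M + 1, fun L hD hN => ?_⟩
  obtain ⟨F, hF⟩ := exists_HD hA L
  obtain ⟨t, ht⟩ := hM L hD F hF
  have hfin := Reg_finite hA hF hP.ρ_lt t
  obtain ⟨y₀, hy₀⟩ := base hA hP hN hF t
  set s : Finset L.Y := hfin.toFinset with hs
  have hcard : s.card ≤ M + 1 := by
    rw [hs, ← Set.ncard_eq_toFinset_card _ hfin]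
    omega
  refine ⟨⟨L, hD, hN, F, hF, t, fun y => if h : y ∈ s then Fin.castLE hcard (s.equivFin ⟨y, h⟩)
    else 0, ?_, y₀, hy₀⟩, rfl⟩
  intro y hy y' hy' hyy
  have h1 : y ∈ s := by rw [hs]; exact hfin.mem_toFinset.mpr hy
  have h2 : y' ∈ s := by rw [hs]; exact hfin.mem_toFinset.mpr hy'
  simp only [h1, h2, dif_pos] at hyy
  have h3 := (Fin.castLE_injective hcard) hyy
  have h4 := s.equivFin.injective h3
  exact congrArg Subtype.val h4

end Pool.Agent.H89.SG
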