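import Pool.Agent.H89.SG.LemD
import Pool.Agent.H89.SG.Typ
import Pool.Agent.H89.SG.Rig

/-!
# Undet: an element which no line of bounded density detects

Take `Part m r ρ κ` (`exists_part`) and `M` of `exists_dat`. The set of codes is finite
(`code_finite`). For each code in the range choose `d_R` with this code, and
`𝒜 = {d.F d.y₀.1 | d.code = code}`, `FR = d_R.F d_R.y₀.1`. For `d` with the same code
`exists_theta d_R d` gives `θ` with `θ y₀ = y₀`, and `rigid` gives `Jc (d.F d.y₀.1) FR = 0`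
(`per_dat`: `F_q` is periodic with `H` the stabilizer of `q`, `ℓ = L.ℓ`: `HD.eq`; `nonconst`).
`lemD` gives a nontrivial normal subgroup `N_R`. Let `g ≠ 1` be in all of them (`finite_inter`).
If `L` has density at most `D` and `L.Det g`: `(g^k) • q = q`, `β (g^k) q ≠ 0`, so `L` is
nondegenerate, and there is `d` with `d.L = L`. Let `q₀ = d.y₀.1`, `h • q₀ = q`, `γ = h⁻¹ g^k h ∈ N_R`;
`γ • q₀ = q₀` and `β γ q₀ = β (g^k) q ≠ 0` (cocycle). `HD.eq` for `γ`, `q₀`: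
`Re F_{q₀} ∘ γ = Re F_{q₀} - ℓ β γ q₀`: contradiction to `Invis`.
-/

set_option autoImplicit false

namespace Pool.Agent.H89.SG

open Complex MeasureTheory
open scoped ContDiff ComplexConjugate

variable {G : Type} [Group G] {m : G → E → E} {S : Finset G}

theorem per_dat (_hA : BAct G m) {L : Line G S} {F : L.Q → E → ℂ} (hF : HD m L F) (q : L.Q) :
    Per m (F q) := by
  refine ⟨MulAction.stabilizer G q, (L.ℓ : ℝ), ?_, by exact_mod_cast L.hℓ, ?_⟩
  · have : Finite (G ⧸ MulAction.stabilizer G q) :=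
      Finite.of_equiv _ (MulAction.orbitEquivQuotientStabilizer G q)
    exact Subgroup.finiteIndex_of_finite_quotient
  · intro g hg
    rw [MulAction.mem_stabilizer_iff] at hg
    refine ⟨-L.β g q, fun z hz => ?_⟩
    have h := hF.eq g q z hz
    rw [hg] at h
    push_cast
    linarith

theorem conj_det (_hA : BAct G m) {L : Line G S} {F : L.Q → E → ℂ} (hF : HD m L F) {g : G}
    (hg : L.Det g) (q₀ : L.Q) : ∃ (h : G) (k : ℕ) (c : ℝ), c ≠ 0 ∧
      ∀ z ∈ ball, (F q₀ (m (h⁻¹ * g ^ k * h) z)).re = (F q₀ z).re + c := by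
  obtain ⟨q, k, hq, hβ⟩ := hg
  obtain ⟨h, hh⟩ := L.trans q₀ q
  have hfix : (h⁻¹ * g ^ k * h) • q₀ = q₀ := by
    rw [mul_smul, mul_smul, hh, hq, ← hh, inv_smul_smul]
  have hb : L.β (h⁻¹ * g ^ k * h) q₀ = L.β (g ^ k) q := by
    have h1 := L.coc (h⁻¹ * g ^ k) h q₀
    have h2 := L.coc h⁻¹ (g ^ k) q
    have h3 := L.coc h⁻¹ h q₀
    rw [inv_mul_cancel, L.β_one, hh] at h3
    rw [hh] at h1
    rw [hq] at h2
    omega
  refine ⟨h, k, -((L.ℓ : ℝ) * L.β (g ^ k) q), ?_, fun z hz => ?_⟩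
  · have h1 : (L.ℓ : ℝ) ≠ 0 := by exact_mod_cast L.hℓ.ne'
    have h2 : (L.β (g ^ k) q : ℝ) ≠ 0 := by exact_mod_cast hβ
    exact neg_ne_zero.2 (mul_ne_zero h1 h2)
  · have h1 := hF.eq (h⁻¹ * g ^ k * h) q₀ z hz
    rw [hfix, hb] at h1
    linarith

private theorem undet_ne (hA : BAct G m) : ∃ g : G, g ≠ 1 := by
  by_contra hno
  push Not at hno
  obtain ⟨r, hr, h⟩ := hA.cc
  set s : ℝ := (max r 0 + 1) / 2 with hs
  have h0 : 0 ≤ max r 0 := le_max_right _ _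
  have h1 : r ≤ max r 0 := le_max_left _ _
  have h2 : max r 0 < 1 := max_lt hr one_pos
  have hs0 : 0 ≤ s := by rw [hs]; linarith
  have hs1 : s < 1 := by rw [hs]; linarith
  have hs2 : r < s := by rw [hs]; linarith
  set z : E := (((Real.sqrt s : ℝ) : ℂ), 0) with hz
  have hnz : nsq z = s := by
    rw [hz, nsq]
    simp [Complex.normSq_ofReal, Real.mul_self_sqrt hs0]
  have hzb : z ∈ ball := by
    change nsq z < 1
    rw [hnz]
    exact hs1
  obtain ⟨g, hg⟩ := h z hzb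
  rw [hno g, hA.one z hzb, hnz] at hg
  linarith

theorem undet (hA : BAct G m) (hcl : Subgroup.closure (S : Set G) = ⊤) (hcp : CommPow G)
    (htf : TorFree G) (D : ℕ) : ∃ g : G, g ≠ 1 ∧ ∀ L : Line G S, L.Dens D → ¬ L.Det g := by
  classical
  obtain ⟨r, ρ, κ, hP⟩ := exists_part hA
  obtain ⟨M, hM⟩ := exists_dat hA hP hcl D
  have hfin := code_finite (S := S) (r := r) (M := M) (D := D) hA hP.ρ_lt
  have hfi : Finite (Set.range (fun d : Dat m S r ρ D M => d.code)) := hfin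
  have key : ∀ i : Set.range (fun d : Dat m S r ρ D M => d.code), ∃ N : Subgroup G,
      N.Normal ∧ N ≠ ⊥ ∧ ∀ d : Dat m S r ρ D M, d.code = i.1 → Invis m N (d.F d.y₀.1) := by
    rintro ⟨i, dR, hdR⟩
    have hdR' : dR.code = i := hdR
    obtain ⟨N, h1, h2, h3⟩ := lemD hA hcp htf
      {F : E → ℂ | ∃ d : Dat m S r ρ D M, d.code = i ∧ d.F d.y₀.1 = F}
      (FR := dR.F dR.y₀.1) ⟨dR, hdR', rfl⟩ (nonconst hA dR.nondeg dR.hF dR.y₀.1) (by
        rintro F ⟨d, hd, rfl⟩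
        refine ⟨d.hF.hol _, ?_⟩
        obtain ⟨θ, hθ, hθ0⟩ := exists_theta hA hP.r_lt hP.ρ_lt dR d (hdR'.trans hd.symm)
        have h4 := rigid hA hP dR.hF d.hF dR.t θ hθ (y := dR.y₀) dR.h₀
        rw [hθ0] at h4
        exact h4) (by
        rintro F ⟨d, hd, rfl⟩
        exact per_dat hA d.hF d.y₀.1)
    exact ⟨N, h1, h2, fun d hd => h3 _ ⟨d, hd, rfl⟩⟩
  choose N hN1 hN2 hN3 using key
  obtain ⟨g, hg1, hg⟩ := finite_inter hcp htf (undet_ne hA) hN1 hN2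
  refine ⟨g, hg1, fun L hL hdet => ?_⟩
  have hnd : L.Nondeg := by
    obtain ⟨q, k, h1, h2⟩ := hdet
    exact ⟨q, g ^ k, h1, h2⟩
  obtain ⟨d, rfl⟩ := hM L hL hnd
  obtain ⟨h, k, c, hc, hcz⟩ := conj_det hA d.hF hdet d.y₀.1
  have hmem : h⁻¹ * g ^ k * h ∈ N ⟨d.code, d, rfl⟩ := by
    have h1 := (hN1 ⟨d.code, d, rfl⟩).conj_mem (g ^ k) (Subgroup.pow_mem _ (hg _) k) h⁻¹
    rwa [inv_inv] at h1
  exact hc (hN3 ⟨d.code, d, rfl⟩ d rfl _ hmem c hcz)

end Pool.Agent.H89.SG
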