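import Pool.Agent.H84.Sch.Final
import Pool.Agent.H89.SG.Undet
import Pool.Agent.H89.SG.GapF
import Pool.Agent.H89.SG.Over
import Pool.Agent.H89.SG.LgB
import Pool.Agent.H89.SG.CpD

/-!
# Gap: the gap theorem for lattices of `U(2,1)`
-/

set_option autoImplicit false

namespace Pool.Agent.H89.SG

/-- the gap theorem for groups acting on the ball -/
theorem gap_of_bact {G : Type} [Group G] {m : G → E → E} (hA : BAct G m) (hcp : CommPow G)
    (htf : TorFree G) (S : Finset G) (hcl : Subgroup.closure (S : Set G) = ⊤) :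
    ∃ f : ℕ → ℝ, Filter.Tendsto (fun n : ℕ => f n / (n : ℝ)) Filter.atTop Filter.atTop ∧
      (∀ n, 0 ≤ f n) ∧ Monotone f ∧
      ∀ (X : Type) [MulAction G X], FaithfulSMul G X → ∀ n : ℕ, ∃ x : X,
        f n ≤ ((H84.Sch.FB S n x).ncard : ℝ) := by
  obtain ⟨N, hN⟩ := LG_of_bact hA S hcl
  exact gapF S hcl hN htf (fun D => undet hA hcl hcp htf D)

/-- the gap theorem for lattices -/
theorem gap_of_latt {G : Type} [Group G] {ρ : G →* Matrix (Fin 3) (Fin 3) ℂ} (h : Latt ρ)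
    (htf : TorFree G) (S : Finset G) (hcl : Subgroup.closure (S : Set G) = ⊤) :
    ∃ f : ℕ → ℝ, Filter.Tendsto (fun n : ℕ => f n / (n : ℝ)) Filter.atTop Filter.atTop ∧
      (∀ n, 0 ≤ f n) ∧ Monotone f ∧
      ∀ (X : Type) [MulAction G X], FaithfulSMul G X → ∀ n : ℕ, ∃ x : X,
        f n ≤ ((H84.Sch.FB S n x).ncard : ℝ) :=
  gap_of_bact (h.bact htf) (h.commPow htf) htf S hcl

end Pool.Agent.H89.SG
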