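import Pool.Agent.H89.SG.W1
import Pool.Agent.H89.SG.MuB

/-!
# SubM: interior estimate for holomorphic functions

Let `R < R' < 1`. There is `s > 0` such that `nsq x ≤ R`, `|w.1| ≤ s`, `|w.2| ≤ s` imply
`nsq (x + w) ≤ R'` (`sqrt_nsq_add_le`). One variable: for `g` holomorphic near the closed disc of
radius `s`, `g 0 = (1/2π) ∫ g (t e^{iθ}) dθ` for each `t ≤ s` (`circleAverage`/
`DiffContOnCl.circleAverage` or Cauchy's formula), so by Cauchy-Schwarz
`|g 0|² ≤ (1/2π) ∫ |g (t e^{iθ})|² dθ`, and integrating `t dt`,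
`|g 0|² ≤ (π s²)⁻¹ ∫_{|w| ≤ s} |g w|² dw` (polar coordinates). Apply it in each variable (Fubini on
`ℂ × ℂ`): `|F x|² ≤ (π s²)⁻² ∫_{|w.1|, |w.2| ≤ s} |F (x + w)|² dw ≤ (π s²)⁻² ∫_{nsq ≤ R'} |F|²`.
-/

set_option autoImplicit false

namespace Pool.Agent.H89.SG

open Complex MeasureTheory
open scoped ContDiff ComplexConjugate

/-- rotations -/
noncomputable def rotE (a : Circle) : E ≃ₜ E :=
  (rotation a).toHomeomorph.prodCongr (rotation a).toHomeomorph

theorem rotE_apply (a : Circle) (w : E) : rotE a w = ((a : ℂ) * w.1, (a : ℂ) * w.2) := rfl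

theorem nsq_rotE (a : Circle) (w : E) : nsq (rotE a w) = nsq w := by
  rw [rotE_apply]
  simp [nsq, normSq_mul]

theorem rotE_mp (a : Circle) : MeasurePreserving (rotE a) volume volume :=
  (rotation a).measurePreserving.prod (rotation a).measurePreserving

theorem rot_int (a : Circle) (ρ : ℝ) (G : E → ℂ) :
    ∫ w in {w : E | nsq w ≤ ρ}, G (rotE a w) = ∫ w in {w : E | nsq w ≤ ρ}, G w := by
  have h := (rotE_mp a).setIntegral_preimage_emb (rotE a).measurableEmbedding G
    {w : E | nsq w ≤ ρ}
  have h1 : (rotE a) ⁻¹' {w : E | nsq w ≤ ρ} = {w : E | nsq w ≤ ρ} := by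
    ext w
    simp [nsq_rotE]
  rw [h1] at h
  exact h

theorem submean_aux {R R' : ℝ} (hR0 : 0 ≤ R) (hR : R < R') (hR' : R' < 1) : ∃ C : ℝ, 0 ≤ C ∧
    ∀ F : E → ℂ, Hol F → ∀ x : E, nsq x ≤ R →
      normSq (F x) ≤ C * ∫ z in {z : E | nsq z ≤ R'}, normSq (F z) := by
  have hR'0 : 0 ≤ R' := hR0.trans hR.le
  set s : ℝ := √R' - √R with hs
  have hs0 : 0 < s := sub_pos.2 (Real.sqrt_lt_sqrt hR0 hR)
  set K : Set E := {w : E | nsq w ≤ s ^ 2} with hK
  have hKc : IsCompact K := isCompact_nsq_le _
  have hKm : MeasurableSet K := hKc.isClosed.measurableSet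
  have hKfin : volume K ≠ ⊤ := hKc.measure_lt_top.ne
  have hKpos : 0 < volume.real K := by
    have h1 : {w : E | nsq w < s ^ 2} ⊆ K := fun w hw => show nsq w ≤ s ^ 2 from le_of_lt hw
    have h2 : IsOpen {w : E | nsq w < s ^ 2} := isOpen_lt continuous_nsq continuous_const
    have h3 : (0 : E) ∈ {w : E | nsq w < s ^ 2} := by
      change nsq 0 < s ^ 2
      rw [nsq_zero]
      positivity
    have h4 : 0 < volume K := lt_of_lt_of_le (h2.measure_pos volume ⟨0, h3⟩) (measure_mono h1)
    exact ENNReal.toReal_pos h4.ne' hKfin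
  refine ⟨(volume.real K)⁻¹, by positivity, fun F hF x hx => ?_⟩
  -- the translate of K
  have hadd : ∀ w ∈ K, nsq (x + w) ≤ R' := by
    intro w hw
    have h1 := sqrt_nsq_add_le x w
    have h2 : √(nsq x) ≤ √R := Real.sqrt_le_sqrt hx
    have h3 : √(nsq w) ≤ s := by
      rw [← Real.sqrt_sq hs0.le]
      exact Real.sqrt_le_sqrt hw
    have h4 : √(nsq (x + w)) ≤ √R' := by linarith
    exact (Real.sqrt_le_sqrt_iff hR'0).1 h4
  have hinb : ∀ w ∈ K, x + w ∈ ball := fun w hw => lt_of_le_of_lt (hadd w hw) hR'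
  have hFc : ContinuousOn F ball := hF.smo.continuousOn
  set G : E → ℂ := fun w => F (x + w) with hG
  have hGc : ContinuousOn G K :=
    hFc.comp (continuous_const.add continuous_id).continuousOn hinb
  -- the circle average
  have hcirc : ∀ w ∈ K, ∫ θ in (0 : ℝ)..(2 * Real.pi), G (rotE (Circle.exp θ) w) =
      (2 * Real.pi : ℝ) * G 0 := by
    intro w hw
    have h1 : DiffContOnCl ℂ (fun l : ℂ => F (x + (l * w.1, l * w.2))) (Metric.ball 0 |1|) := by
      have hmem : ∀ l : ℂ, ‖l‖ ≤ 1 → x + ((l * w.1, l * w.2) : E) ∈ ball := by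
        intro l hl
        apply hinb
        change nsq ((l * w.1, l * w.2) : E) ≤ s ^ 2
        have h2 : nsq ((l * w.1, l * w.2) : E) = ‖l‖ ^ 2 * nsq w := by
          simp only [nsq, normSq_eq_norm_sq, norm_mul, mul_pow]
          ring
        rw [h2]
        have h3 : nsq w ≤ s ^ 2 := hw
        have h4 := nsq_nonneg w
        have h5 : ‖l‖ ^ 2 ≤ 1 := pow_le_one₀ (norm_nonneg _) hl
        nlinarith
      have hdiff : Differentiable ℂ (fun l : ℂ => x + ((l * w.1, l * w.2) : E)) := by
        fun_prop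
      have h6 : DifferentiableOn ℂ (fun l : ℂ => F (x + (l * w.1, l * w.2)))
          {l : ℂ | x + ((l * w.1, l * w.2) : E) ∈ ball} :=
        hF.2.comp hdiff.differentiableOn fun l hl => hl
      have h7 : closure (Metric.ball (0 : ℂ) |1|) ⊆ Metric.closedBall 0 |1| :=
        Metric.closure_ball_subset_closedBall
      refine ⟨h6.mono fun l hl => ?_, h6.continuousOn.mono fun l hl => ?_⟩
      · apply hmem
        rw [mem_ball_zero_iff, abs_one] at hl
        exact hl.le
      · apply hmem
        have h8 := h7 hl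
        rwa [mem_closedBall_zero_iff, abs_one] at h8
    have h2 := h1.circleAverage
    rw [Real.circleAverage_def] at h2
    have h3 : ∀ θ : ℝ, F (x + (circleMap 0 1 θ * w.1, circleMap 0 1 θ * w.2)) =
        G (rotE (Circle.exp θ) w) := by
      intro θ
      rw [rotE_apply, hG]
      simp only [circleMap, Circle.coe_exp, ofReal_one, one_mul, zero_add]
    simp only [h3, zero_mul] at h2
    have h4 : G 0 = F (x + ((0, 0) : E)) := rfl
    rw [h4, ← h2]
    have hpi : (2 * Real.pi : ℝ) ≠ 0 := by positivity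
    rw [real_smul, ← mul_assoc, ← ofReal_mul, mul_inv_cancel₀ hpi, ofReal_one, one_mul]
  -- Fubini
  set A : ℂ := ∫ w in K, G w with hA
  have hjoint : Continuous fun p : ℝ × E => rotE (Circle.exp p.1) p.2 := by
    have : (fun p : ℝ × E => rotE (Circle.exp p.1) p.2) = fun p : ℝ × E =>
        (((Circle.exp p.1 : Circle) : ℂ) * p.2.1, ((Circle.exp p.1 : Circle) : ℂ) * p.2.2) := rfl
    rw [this]
    have h1 : Continuous fun p : ℝ × E => ((Circle.exp p.1 : Circle) : ℂ) := by
      simp only [Circle.coe_exp]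
      fun_prop
    fun_prop
  have hrotK : ∀ a : Circle, ∀ w ∈ K, rotE a w ∈ K := by
    intro a w hw
    change nsq (rotE a w) ≤ s ^ 2
    rw [nsq_rotE]
    exact hw
  have hint : Integrable (Function.uncurry fun (θ : ℝ) (w : E) => G (rotE (Circle.exp θ) w))
      ((volume.restrict (Set.Ioc 0 (2 * Real.pi))).prod (volume.restrict K)) := by
    rw [Measure.prod_restrict]
    have h1 : IntegrableOn (Function.uncurry fun (θ : ℝ) (w : E) => G (rotE (Circle.exp θ) w))
        (Set.Icc 0 (2 * Real.pi) ×ˢ K) (volume.prod volume) := by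
      refine ContinuousOn.integrableOn_compact (isCompact_Icc.prod hKc) ?_
      exact hGc.comp hjoint.continuousOn fun p hp => hrotK _ _ hp.2
    exact h1.mono_set (Set.prod_mono Set.Ioc_subset_Icc_self le_rfl)
  have hpi : 0 ≤ 2 * Real.pi := by positivity
  have hfub : (2 * Real.pi : ℝ) * A = ∫ w in K, (2 * Real.pi : ℝ) * G 0 := by
    have h1 : ∫ θ in Set.Ioc 0 (2 * Real.pi), ∫ w in K, G (rotE (Circle.exp θ) w) =
        ∫ w in K, ∫ θ in Set.Ioc 0 (2 * Real.pi), G (rotE (Circle.exp θ) w) :=
      integral_integral_swap hint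
    have h2 : ∫ θ in Set.Ioc 0 (2 * Real.pi), ∫ w in K, G (rotE (Circle.exp θ) w) =
        (2 * Real.pi : ℝ) * A := by
      have h3 : ∀ θ : ℝ, ∫ w in K, G (rotE (Circle.exp θ) w) = A := fun θ =>
        rot_int (Circle.exp θ) (s ^ 2) G
      simp only [h3, integral_const]
      rw [real_smul]
      congr 2
      simp [Measure.real, Real.pi_pos.le]
    have h4 : ∫ w in K, ∫ θ in Set.Ioc 0 (2 * Real.pi), G (rotE (Circle.exp θ) w) =
        ∫ w in K, (2 * Real.pi : ℝ) * G 0 := by
      refine setIntegral_congr_fun hKm fun w hw => ?_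
      have := hcirc w hw
      rw [intervalIntegral.integral_of_le hpi] at this
      exact this
    rw [← h2, h1, h4]
  have hA' : A = (volume.real K : ℂ) * G 0 := by
    rw [integral_const, real_smul] at hfub
    have h1 : ((2 * Real.pi : ℝ) : ℂ) ≠ 0 := by
      have : (2 * Real.pi : ℝ) ≠ 0 := by positivity
      exact_mod_cast this
    apply mul_left_cancel₀ h1
    rw [hfub]
    simp only [Measure.real, Measure.restrict_apply_univ]
    ring
  -- the inequality on K
  have hGi : IntegrableOn G K := hGc.integrableOn_compact hKc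
  have hNi : IntegrableOn (fun w => normSq (G w)) K := by
    refine ContinuousOn.integrableOn_compact hKc ?_
    exact continuous_normSq.comp_continuousOn hGc
  have hlow : ∫ w in K, (2 * (conj (G 0) * G w).re - normSq (G 0)) ≤
      ∫ w in K, normSq (G w) := by
    refine setIntegral_mono_on ?_ hNi hKm fun w _ => ?_
    · have h1 : IntegrableOn (fun w => (conj (G 0) * G w).re) K := (hGi.const_mul _).re
      exact (h1.const_mul 2).sub (integrableOn_const (by simpa using hKfin))
    · have h1 : normSq (G w) - (2 * (conj (G 0) * G w).re - normSq (G 0)) =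
          normSq (G w - G 0) := by
        simp only [normSq_apply, mul_re, conj_re, conj_im, sub_re, sub_im]
        ring
      have h2 := normSq_nonneg (G w - G 0)
      linarith
  have hlow2 : ∫ w in K, (2 * (conj (G 0) * G w).re - normSq (G 0)) =
      volume.real K * normSq (G 0) := by
    have h1 : IntegrableOn (fun w => (conj (G 0) * G w).re) K := (hGi.const_mul _).re
    rw [integral_sub (h1.const_mul 2) (integrableOn_const (by simpa using hKfin)),
      integral_const_mul, integral_const]
    have h2 : ∫ w in K, (conj (G 0) * G w).re = (conj (G 0) * A).re := by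
      rw [hA, ← integral_const_mul]
      exact integral_re (hGi.const_mul _)
    rw [h2, hA']
    have h3 : conj (G 0) * ((volume.real K : ℂ) * G 0) = ((volume.real K * normSq (G 0) : ℝ) : ℂ) := by
      rw [ofReal_mul, ← mul_conj]
      ring
    rw [h3, ofReal_re]
    simp only [Measure.real, Measure.restrict_apply_univ, smul_eq_mul]
    ring
  -- translation
  have htr : ∫ w in K, normSq (G w) ≤ ∫ z in {z : E | nsq z ≤ R'}, normSq (F z) := by
    let τ : E ≃ₜ E := Homeomorph.addLeft x
    have : (volume : Measure E).IsAddLeftInvariant :=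
      inferInstanceAs ((volume : Measure ℂ).prod (volume : Measure ℂ)).IsAddLeftInvariant
    have h1 := (measurePreserving_add_left (volume : Measure E) x).setIntegral_preimage_emb
      (τ.measurableEmbedding) (fun z => normSq (F z)) (τ '' K)
    have h2 : (fun w => x + w) ⁻¹' (τ '' K) = K := Set.preimage_image_eq K τ.injective
    rw [h2] at h1
    have h3 : ∫ w in K, normSq (G w) = ∫ y in τ '' K, normSq (F y) := h1
    rw [h3]
    refine setIntegral_mono_set ?_ (Filter.Eventually.of_forall fun z => normSq_nonneg _) ?_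
    · refine ContinuousOn.integrableOn_compact (isCompact_nsq_le R') ?_
      exact continuous_normSq.comp_continuousOn (hFc.mono (nsq_le_subset_ball hR'))
    · have h4 : τ '' K ⊆ {z : E | nsq z ≤ R'} := by
        rintro z ⟨w, hw, rfl⟩
        exact hadd w hw
      exact Filter.Eventually.of_forall h4
  have hfin : volume.real K * normSq (G 0) ≤ ∫ z in {z : E | nsq z ≤ R'}, normSq (F z) :=
    (hlow2 ▸ hlow).trans htr
  have hG0 : G 0 = F x := by rw [hG]; simp only [add_zero]
  rw [hG0] at hfin
  rw [inv_mul_eq_div, le_div_iff₀ hKpos, mul_comm]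
  exact hfin

theorem submean {R R' : ℝ} (hR : R < R') (hR' : R' < 1) : ∃ C : ℝ, 0 ≤ C ∧
    ∀ F : E → ℂ, Hol F → ∀ x : E, nsq x ≤ R →
      normSq (F x) ≤ C * ∫ z in {z : E | nsq z ≤ R'}, normSq (F z) := by
  rcases le_or_gt 0 R with h0 | h0
  · exact submean_aux h0 hR hR'
  · refine ⟨0, le_rfl, fun F _ x hx => ?_⟩
    have := nsq_nonneg x
    linarith

end Pool.Agent.H89.SG
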