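import Pool.Agent.H89.SG.Chg
import Pool.Agent.H89.SG.PartX
import Pool.Agent.H89.SG.MuB

/-!
# Unf: integrals over `{nsq ≤ R}` are bounded by integrals against `κ`

`e ≥ 0` is an invariant density on `Q`: `e (g • q) (m g z) * normSq (jac (m g) z) = e q z`.
On `{nsq ≤ R}` `∑_{g ∈ T} κ (m g z) = 1` with the finite set `T` of `Part.exists_finset`, so
`∑_q ∫_{nsq ≤ R} e q = ∑_{g ∈ T} ∑_q ∫_{nsq ≤ R} κ (m g z) e q z dz ≤
∑_{g ∈ T} ∑_q ∫_ball normSq (jac (m g) z) κ (m g z) e (g • q) (m g z) dz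
= ∑_{g ∈ T} ∑_q ∫_ball κ e (g • q) = |T| ∑_q ∫ κ e q` (`integral_comp`, reindexing of `Q` by
`q ↦ g • q`). `κ e q` is integrable (`integrableOn_of_supp`), and so is the transformed function
(`integrableOn_comp`).
-/

set_option autoImplicit false

namespace Pool.Agent.H89.SG

open Complex MeasureTheory
open scoped ContDiff ComplexConjugate

variable {G : Type} [Group G] {m : G → E → E} {κ : E → ℝ} {r ρ : ℝ}

theorem integrableOn_kappa (hP : Part m r ρ κ) {f : E → ℝ} (hf : ContinuousOn f ball) :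
    IntegrableOn (fun z => κ z * f z) ball :=
  integrableOn_of_supp (hP.smooth.continuous.continuousOn.mul hf) hP.ρ_lt fun z _ hz =>
    hP.supp z (left_ne_zero_of_mul hz)

theorem unf (hA : BAct G m) (hP : Part m r ρ κ) {R : ℝ} (hR : R < 1) : ∃ N : ℝ, 0 ≤ N ∧
    ∀ (Q : Type) [Fintype Q] [MulAction G Q] (e : Q → E → ℝ), (∀ q, ContinuousOn (e q) ball) →
      (∀ q, ∀ z ∈ ball, 0 ≤ e q z) →
      (∀ (g : G) (q : Q), ∀ z ∈ ball, e (g • q) (m g z) * normSq (jac (m g) z) = e q z) →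
      ∑ q, ∫ z in {z : E | nsq z ≤ R}, e q z ≤ N * ∑ q, ∫ z in ball, κ z * e q z := by
  obtain ⟨T, hT1, hT2⟩ := hP.exists_finset hA hR
  refine ⟨(T.card : ℝ), Nat.cast_nonneg _, ?_⟩
  intro Q _ _ e hc h0 hinv
  have hKB : {z : E | nsq z ≤ R} ⊆ ball := nsq_le_subset_ball hR
  have hKm : MeasurableSet {z : E | nsq z ≤ R} := (isCompact_nsq_le R).measurableSet
  -- the transformed integrand
  have hfun : ∀ (g : G) (q : Q), ∀ z ∈ ball,
      κ (m g z) * e q z = normSq (jac (m g) z) • (κ (m g z) * e (g • q) (m g z)) := by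
    intro g q z hz
    rw [← hinv g q z hz, smul_eq_mul]
    ring
  have hint : ∀ (g : G) (q : Q), IntegrableOn (fun z => κ (m g z) * e q z) ball := by
    intro g q
    have h1 := (integrableOn_comp (hA.aut g) (fun z => κ z * e (g • q) z)).2
      (integrableOn_kappa hP (hc (g • q)))
    exact h1.congr_fun (fun z hz => (hfun g q z hz).symm) measurableSet_ball
  have hval : ∀ (g : G) (q : Q), ∫ z in ball, κ (m g z) * e q z =
      ∫ z in ball, κ z * e (g • q) z := by
    intro g q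
    rw [← integral_comp (hA.aut g) (fun z => κ z * e (g • q) z)]
    exact setIntegral_congr_fun measurableSet_ball (hfun g q)
  have hstep : ∀ q : Q, ∫ z in {z : E | nsq z ≤ R}, e q z ≤
      ∑ g ∈ T, ∫ z in ball, κ z * e (g • q) z := by
    intro q
    have e1 : ∫ z in {z : E | nsq z ≤ R}, e q z =
        ∫ z in {z : E | nsq z ≤ R}, ∑ g ∈ T, κ (m g z) * e q z := by
      refine setIntegral_congr_fun hKm fun z hz => ?_
      rw [← Finset.sum_mul, hT2 z hz, one_mul]
    rw [e1, integral_finsetSum _ (fun g _ => (hint g q).mono_set hKB)]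
    refine Finset.sum_le_sum fun g _ => ?_
    rw [← hval g q]
    refine setIntegral_mono_set (hint g q) ?_ (Filter.Eventually.of_forall hKB)
    filter_upwards [ae_restrict_mem measurableSet_ball] with z hz
    exact mul_nonneg (hP.nonneg _) (h0 q z hz)
  calc ∑ q, ∫ z in {z : E | nsq z ≤ R}, e q z
      ≤ ∑ q, ∑ g ∈ T, ∫ z in ball, κ z * e (g • q) z := Finset.sum_le_sum fun q _ => hstep q
    _ = ∑ g ∈ T, ∑ q, ∫ z in ball, κ z * e (g • q) z := Finset.sum_comm
    _ = ∑ g ∈ T, ∑ q, ∫ z in ball, κ z * e q z := by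
        refine Finset.sum_congr rfl fun g _ => ?_
        exact Equiv.sum_comp (MulAction.toPerm g) (fun q => ∫ z in ball, κ z * e q z)
    _ = (T.card : ℝ) * ∑ q, ∫ z in ball, κ z * e q z := by
        rw [Finset.sum_const, nsmul_eq_mul]

end Pool.Agent.H89.SG
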