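import Pool.Agent.H89.SG.Enx
import Pool.Agent.H89.SG.Unf
import Pool.Agent.H89.SG.SubM

/-!
# GradB: gradient bounds on lines of bounded density

Let `R < R' = (1 + R)/2 < 1`. The density `e q z = (En (gr (F q) z) (gr (F q) z) z).re` is invariant:
`F (g • q) ∘ m g - F q` is holomorphic on the ball with constant real part, hence its gradient
vanishes (`dd_re`), and `En_comp`. By `unf` and `energy_bound`
`∑_q ∫_{nsq ≤ R'} e q ≤ N C card Q`, and `normSq (dd j (F q)) ≤ e q` (`En_ge`). By `submean` for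
`dd j (F q)` (`Hol.dd`): put `B q = C' ∫_{nsq ≤ R'} e q`.

`osc`: for `x, y` in the convex set `{nsq ≤ R}` `|Re F q x - Re F q y| ≤ ‖F q x - F q y‖ ≤
sup ‖fderiv‖ ‖x - y‖` (`Convex.norm_image_sub_le_of_norm_fderiv_le`), with
`‖fderiv ℝ (F q) z v‖ ≤ |dd 0| |v.1| + |dd 1| |v.2|`, `‖x - y‖ ≤ 2`.
-/

set_option autoImplicit false

namespace Pool.Agent.H89.SG

open Complex MeasureTheory
open scoped ContDiff ComplexConjugate

variable {G : Type} [Group G] {m : G → E → E} {S : Finset G}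

private lemma gradB_gr_eq (hA : BAct G m) {L : Line G S} {F : L.Q → E → ℂ} (hF : HD m L F)
    (g : G) (q : L.Q) {z : E} (hz : z ∈ ball) :
    gr (fun w => F (g • q) (m g w)) z = gr (F q) z := by
  funext j
  have hc : Hol (fun w => F (g • q) (m g w)) := (hF.hol (g • q)).comp (hA.aut g)
  have hD : Hol (fun w => F (g • q) (m g w) - F q w) := hc.sub (hF.hol q)
  have h1 : dd j (fun w => (((F (g • q) (m g w) - F q w).re : ℝ) : ℂ)) z =
      dd j (fun w => F (g • q) (m g w) - F q w) z / 2 := dd_re hD hz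
  have h2 : dd j (fun w => (((F (g • q) (m g w) - F q w).re : ℝ) : ℂ)) z = 0 := by
    have h3 : (fun w => (((F (g • q) (m g w) - F q w).re : ℝ) : ℂ)) =ᶠ[nhds z]
        fun _ => ((-(L.ℓ * L.β g q : ℝ) : ℝ) : ℂ) := by
      filter_upwards [isOpen_ball.mem_nhds hz] with w hw
      have h4 := hF.eq g q w hw
      congr 1
      rw [Complex.sub_re]
      linarith
    rw [dd_congr h3]
    exact dd_const _
  rw [h2] at h1
  have h5 : dd j (fun w => F (g • q) (m g w) - F q w) z = 0 := by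
    have h6 := h1.symm
    rwa [div_eq_zero_iff, or_iff_left (by norm_num)] at h6
  rw [dd_sub (hc.smo.diffAt hz) ((hF.hol q).smo.diffAt hz)] at h5
  exact sub_eq_zero.1 h5

theorem grad_bound (hA : BAct G m) (hcl : Subgroup.closure (S : Set G) = ⊤) {R : ℝ} (hR : R < 1) :
    ∃ C : ℝ, 0 ≤ C ∧ ∀ (L : Line G S) (F : L.Q → E → ℂ), HD m L F → ∃ B : L.Q → ℝ,
      (∀ q, 0 ≤ B q) ∧ (∀ (q : L.Q) (z : E), nsq z ≤ R → ∀ j, normSq (dd j (F q) z) ≤ B q) ∧
      ∑ q, B q ≤ C * Fintype.card L.Q := by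
  classical
  obtain ⟨r, ρ, κ, hP⟩ := exists_part hA
  obtain ⟨C₁, hC₁, h₁⟩ := energy_bound hA hP hcl
  have hR1 : R < (1 + R) / 2 := by linarith
  have hR2 : (1 + R) / 2 < 1 := by linarith
  obtain ⟨N, hN, h₂⟩ := unf hA hP hR2
  obtain ⟨C₂, hC₂, h₃⟩ := submean hR1 hR2
  refine ⟨C₂ * (N * C₁), by positivity, fun L F hF => ?_⟩
  set e : L.Q → E → ℝ := fun q z => (En (gr (F q) z) (gr (F q) z) z).re with he
  have hec : ∀ q, ContinuousOn (e q) ball := fun q =>
    Complex.continuous_re.comp_continuousOn (continuousOn_En (hF.hol q).smo (hF.hol q).smo)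
  have hge : ∀ q, ∀ z ∈ ball, normSq (gr (F q) z 0) + normSq (gr (F q) z 1) ≤ e q z :=
    fun q z hz => En_ge hz
  have he0 : ∀ q, ∀ z ∈ ball, 0 ≤ e q z := fun q z hz =>
    le_trans (add_nonneg (normSq_nonneg _) (normSq_nonneg _)) (hge q z hz)
  have hinv : ∀ (g : G) (q : L.Q), ∀ z ∈ ball,
      e (g • q) (m g z) * normSq (jac (m g) z) = e q z := by
    intro g q z hz
    have h4 := En_comp (hF.hol (g • q)).smo (hF.hol (g • q)).smo (hA.aut g) hz
    rw [gradB_gr_eq hA hF g q hz] at h4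
    simp only [he]
    rw [h4, Complex.re_ofReal_mul, mul_comm]
  have h5 := h₂ L.Q e hec he0 hinv
  have h6 := h₁ L F hF
  have hsub : {z : E | nsq z ≤ (1 + R) / 2} ⊆ ball := nsq_le_subset_ball hR2
  have hmeas : MeasurableSet {z : E | nsq z ≤ (1 + R) / 2} :=
    (isCompact_nsq_le _).measurableSet
  have hint : ∀ q, IntegrableOn (e q) {z : E | nsq z ≤ (1 + R) / 2} := fun q =>
    ((hec q).mono hsub).integrableOn_compact (isCompact_nsq_le _)
  refine ⟨fun q => C₂ * ∫ z in {z : E | nsq z ≤ (1 + R) / 2}, e q z, fun q => ?_, ?_, ?_⟩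
  · exact mul_nonneg hC₂ (setIntegral_nonneg hmeas fun z hz => he0 q z (hsub hz))
  · intro q z hz j
    refine le_trans (h₃ (dd j (F q)) ((hF.hol q).dd j) z hz) (mul_le_mul_of_nonneg_left ?_ hC₂)
    refine setIntegral_mono_on ?_ (hint q) hmeas fun w hw => ?_
    · have h7 : ContinuousOn (fun w => normSq (dd j (F q) w)) ball := by
        have h8 : ContinuousOn (dd j (F q)) ball := ((hF.hol q).smo.dd j).continuousOn
        exact Complex.continuous_normSq.comp_continuousOn h8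
      exact (h7.mono hsub).integrableOn_compact (isCompact_nsq_le _)
    · refine le_trans ?_ (hge q w (hsub hw))
      have h9 : normSq (dd j (F q) w) ≤ normSq (dd 0 (F q) w) + normSq (dd 1 (F q) w) := by
        fin_cases j
        · exact le_add_of_nonneg_right (normSq_nonneg _)
        · exact le_add_of_nonneg_left (normSq_nonneg _)
      exact h9
  · rw [← Finset.mul_sum]
    calc C₂ * ∑ q, ∫ z in {z : E | nsq z ≤ (1 + R) / 2}, e q z
        ≤ C₂ * (N * ∑ q, ∫ z in ball, κ z * e q z) := mul_le_mul_of_nonneg_left h5 hC₂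
      _ ≤ C₂ * (N * (C₁ * Fintype.card L.Q)) :=
          mul_le_mul_of_nonneg_left (mul_le_mul_of_nonneg_left h6 hN) hC₂
      _ = C₂ * (N * C₁) * Fintype.card L.Q := by ring

theorem osc_le {F : E → ℂ} (hF : Hol F) {R B : ℝ} (hR : R < 1) (hB : 0 ≤ B)
    (h : ∀ z : E, nsq z ≤ R → ∀ j, normSq (dd j F z) ≤ B) {x y : E} (hx : nsq x ≤ R)
    (hy : nsq y ≤ R) : |(F x).re - (F y).re| ≤ 4 * √B := by
  have hsub : {z : E | nsq z ≤ R} ⊆ ball := nsq_le_subset_ball hR
  have hdiff : ∀ z ∈ {z : E | nsq z ≤ R}, DifferentiableAt ℝ F z := fun z hz =>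
    hF.smo.diffAt (hsub hz)
  have hbd : ∀ z ∈ {z : E | nsq z ≤ R}, ‖fderiv ℝ F z‖ ≤ 2 * √B := by
    intro z hz
    refine ContinuousLinearMap.opNorm_le_bound _ (by positivity) fun v => ?_
    rw [hF.fderiv_eq (hsub hz) v]
    have hn : ∀ j, ‖dd j F z‖ ≤ √B := by
      intro j
      refine Real.le_sqrt_of_sq_le ?_
      rw [← Complex.normSq_eq_norm_sq]
      exact h z hz j
    have h1 : ‖dd 0 F z * v.1‖ ≤ √B * ‖v‖ := by
      rw [norm_mul]
      exact mul_le_mul (hn 0) (norm_fst_le v) (norm_nonneg _) (Real.sqrt_nonneg _)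
    have h2 : ‖dd 1 F z * v.2‖ ≤ √B * ‖v‖ := by
      rw [norm_mul]
      exact mul_le_mul (hn 1) (norm_snd_le v) (norm_nonneg _) (Real.sqrt_nonneg _)
    calc ‖dd 0 F z * v.1 + dd 1 F z * v.2‖ ≤ ‖dd 0 F z * v.1‖ + ‖dd 1 F z * v.2‖ := norm_add_le _ _
      _ ≤ √B * ‖v‖ + √B * ‖v‖ := add_le_add h1 h2
      _ = 2 * √B * ‖v‖ := by ring
  have hmain := (convex_nsq_le R).norm_image_sub_le_of_norm_fderiv_le hdiff hbd hy hx
  have hnx : ∀ {z : E}, nsq z ≤ R → ‖z‖ ≤ 1 := by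
    intro z hz
    have h3 := norm_sq_le_nsq z
    nlinarith [norm_nonneg z]
  have hxy : ‖x - y‖ ≤ 2 := by
    refine le_trans (norm_sub_le x y) ?_
    linarith [hnx hx, hnx hy]
  calc |(F x).re - (F y).re| = |(F x - F y).re| := by rw [Complex.sub_re]
    _ ≤ ‖F x - F y‖ := Complex.abs_re_le_norm _
    _ ≤ 2 * √B * ‖x - y‖ := hmain
    _ ≤ 2 * √B * 2 := mul_le_mul_of_nonneg_left hxy (by positivity)
    _ = 4 * √B := by ring

end Pool.Agent.H89.SG
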