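import Pool.Agent.H89.SG.FromMat

/-!
# Haag: lattices of `U(2,1)` are a-T-menable (known)

`ψ g = - log (1 - dl 0 (g 0))`, with `x_g = g 0 = fl (ρ g) 0`. Then
`ψ (g⁻¹ h) = - log (1 - dl x_g x_h)` (invariance of `dl`)
`= log normSq (1 - her x_g x_h) - log (1 - nsq x_g) - log (1 - nsq x_h)`.
For `∑ c = 0` the last two terms contribute `0`, and
`log normSq (1 - w) = 2 Re log (1 - w) = - 2 ∑_{n ≥ 1} Re w^n / n` (`|w| < 1`,
`Complex.hasSum_taylorSeries_neg_log`). The kernels `(x, z) ↦ her x z ^ n` are positive definite: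
`her x z ^ n = ∑_k choose n k (x.1^k x.2^(n-k)) conj (z.1^k z.2^(n-k))`, so
`∑ c_g c_h Re (her x_g x_h ^ n) = ∑_k choose n k |∑_g c_g x_g.1^k x_g.2^(n-k)|² ≥ 0`.
Proper: `ψ g ≤ R` means `nsq (g 0) = dl 0 (g 0) ≤ 1 - e^{-R}`: finitely many `g` by `discrete`
(with `z = 0`). `ψ 1 = 0` and `ψ g⁻¹ = ψ g` by invariance and symmetry of `dl`.
-/

set_option autoImplicit false

namespace Pool.Agent.H89.SG

open Complex MeasureTheory
open scoped ContDiff ComplexConjugate

private theorem normSq_her_lt {x z : E} (hx : x ∈ ball) (hz : z ∈ ball) : ‖her x z‖ < 1 := by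
  have hx' : nsq x < 1 := hx
  have hz' : nsq z < 1 := hz
  have h1 : ‖her x z‖ ≤ ‖x.1‖ * ‖z.1‖ + ‖x.2‖ * ‖z.2‖ := by
    refine (norm_add_le _ _).trans ?_
    simp
  have hxn : nsq x = ‖x.1‖ ^ 2 + ‖x.2‖ ^ 2 := by
    simp [nsq, Complex.normSq_eq_norm_sq]
  have hzn : nsq z = ‖z.1‖ ^ 2 + ‖z.2‖ ^ 2 := by
    simp [nsq, Complex.normSq_eq_norm_sq]
  have h2 : (‖x.1‖ * ‖z.1‖ + ‖x.2‖ * ‖z.2‖) ^ 2 ≤ nsq x * nsq z := by
    rw [hxn, hzn]
    nlinarith [sq_nonneg (‖x.1‖ * ‖z.2‖ - ‖x.2‖ * ‖z.1‖)]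
  have hx0 : 0 ≤ nsq x := by rw [hxn]; positivity
  have hz0 : 0 ≤ nsq z := by rw [hzn]; positivity
  have h3 : nsq x * nsq z < 1 := by nlinarith
  have h4 : 0 ≤ ‖x.1‖ * ‖z.1‖ + ‖x.2‖ * ‖z.2‖ := by positivity
  nlinarith

private theorem dl_zero (z : E) : dl 0 z = nsq z := by
  simp [dl, her, nsq]

private theorem her_pow_psd {ι : Type} (s : Finset ι) (c : ι → ℝ) (x : ι → E) (n : ℕ) :
    0 ≤ ∑ g ∈ s, ∑ h ∈ s, c g * c h * ((her (x g) (x h)) ^ n).re := by
  have key : (∑ g ∈ s, ∑ h ∈ s, (c g : ℂ) * (c h : ℂ) * (her (x g) (x h)) ^ n) =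
      ∑ k ∈ Finset.range (n + 1), (n.choose k : ℂ) *
        ((∑ g ∈ s, (c g : ℂ) * ((x g).1 ^ k * (x g).2 ^ (n - k))) *
          conj (∑ g ∈ s, (c g : ℂ) * ((x g).1 ^ k * (x g).2 ^ (n - k)))) := by
    have h1 : ∀ g ∈ s, ∀ h ∈ s, (c g : ℂ) * (c h : ℂ) * (her (x g) (x h)) ^ n =
        ∑ k ∈ Finset.range (n + 1), (n.choose k : ℂ) *
          (((c g : ℂ) * ((x g).1 ^ k * (x g).2 ^ (n - k))) *
            ((c h : ℂ) * (conj (x h).1 ^ k * conj (x h).2 ^ (n - k)))) := by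
      intro g _ h _
      rw [her, add_pow, Finset.mul_sum]
      refine Finset.sum_congr rfl fun k _ => ?_
      rw [mul_pow, mul_pow]
      ring
    rw [Finset.sum_congr rfl fun g hg => Finset.sum_congr rfl fun h hh => h1 g hg h hh]
    have h2 : ∀ g ∈ s, (∑ h ∈ s, ∑ k ∈ Finset.range (n + 1), (n.choose k : ℂ) *
          (((c g : ℂ) * ((x g).1 ^ k * (x g).2 ^ (n - k))) *
            ((c h : ℂ) * (conj (x h).1 ^ k * conj (x h).2 ^ (n - k))))) =
        ∑ k ∈ Finset.range (n + 1), ∑ h ∈ s, (n.choose k : ℂ) *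
          (((c g : ℂ) * ((x g).1 ^ k * (x g).2 ^ (n - k))) *
            ((c h : ℂ) * (conj (x h).1 ^ k * conj (x h).2 ^ (n - k)))) := by
      intro g _
      exact Finset.sum_comm
    rw [Finset.sum_congr rfl h2, Finset.sum_comm]
    refine Finset.sum_congr rfl fun k _ => ?_
    rw [map_sum, Finset.sum_mul_sum, Finset.mul_sum]
    refine Finset.sum_congr rfl fun g _ => ?_
    rw [Finset.mul_sum]
    refine Finset.sum_congr rfl fun h _ => ?_
    simp
  have h3 : (∑ g ∈ s, ∑ h ∈ s, c g * c h * ((her (x g) (x h)) ^ n).re) =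
      (∑ g ∈ s, ∑ h ∈ s, (c g : ℂ) * (c h : ℂ) * (her (x g) (x h)) ^ n).re := by
    rw [Complex.re_sum]
    refine Finset.sum_congr rfl fun g _ => ?_
    rw [Complex.re_sum]
    refine Finset.sum_congr rfl fun h _ => ?_
    rw [← Complex.ofReal_mul, Complex.re_ofReal_mul]
  rw [h3, key, Complex.re_sum]
  refine Finset.sum_nonneg fun k _ => ?_
  rw [Complex.mul_conj, ← Complex.ofReal_natCast, ← Complex.ofReal_mul, Complex.ofReal_re]
  exact mul_nonneg (Nat.cast_nonneg _) (normSq_nonneg _)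

theorem haag {G : Type} [Group G] {ρ : G →* Matrix (Fin 3) (Fin 3) ℂ} (h : Latt ρ) :
    ∃ ψ : G → ℝ, ψ 1 = 0 ∧ (∀ g, ψ g⁻¹ = ψ g) ∧ (∀ R : ℝ, {g | ψ g ≤ R}.Finite) ∧
      ∀ (s : Finset G) (c : G → ℝ), ∑ g ∈ s, c g = 0 →
        ∑ g ∈ s, ∑ h ∈ s, c g * c h * ψ (g⁻¹ * h) ≤ 0 := by
  classical
  set x : G → E := fun g => fl (ρ g) 0 with hxdef
  have hxb : ∀ g, x g ∈ ball := fun g => fl_mem (h.unitary g) zero_mem_ball
  have hx1 : x 1 = 0 := by
    simp only [hxdef, map_one]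
    exact fl_one 0
  have haut : ∀ g, IsAut (fl (ρ g)) := fun g => ⟨ρ g, h.unitary g, fun z _ => rfl⟩
  have hmul : ∀ g k, x (g * k) = fl (ρ g) (x k) := by
    intro g k
    simp only [hxdef, map_mul]
    exact fl_mul (h.unitary g) (h.unitary k) zero_mem_ball
  have hdl : ∀ g k, dl 0 (x (g⁻¹ * k)) = dl (x g) (x k) := by
    intro g k
    have h0 : (0 : E) = fl (ρ g⁻¹) (x g) := by
      rw [← hmul, inv_mul_cancel, hx1]
    rw [hmul]
    conv_lhs => rw [h0]
    exact (haut g⁻¹).dl_eq (hxb g) (hxb k)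
  have hpos : ∀ g, 0 < 1 - nsq (x g) := fun g => sub_pos.mpr (hxb g)
  have hne : ∀ g k, (1 : ℂ) - her (x g) (x k) ≠ 0 := by
    intro g k h0
    have := normSq_her_lt (hxb g) (hxb k)
    rw [sub_eq_zero] at h0
    rw [← h0, norm_one] at this
    exact lt_irrefl _ this
  have hid : ∀ g k, -Real.log (1 - dl 0 (x (g⁻¹ * k))) =
      Real.log (normSq (1 - her (x g) (x k))) - Real.log (1 - nsq (x g)) -
        Real.log (1 - nsq (x k)) := by
    intro g k
    rw [hdl, dl, sub_sub_cancel, Real.log_div (mul_pos (hpos g) (hpos k)).ne'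
      (by rw [Ne, normSq_eq_zero]; exact hne g k), Real.log_mul (hpos g).ne' (hpos k).ne']
    ring
  refine ⟨fun g => -Real.log (1 - dl 0 (x g)), ?_, ?_, ?_, ?_⟩
  · simp [hx1, dl_zero, nsq]
  · intro g
    have := hid g 1
    rw [mul_one] at this
    show -Real.log (1 - dl 0 (x g⁻¹)) = -Real.log (1 - dl 0 (x g))
    rw [this, hx1, dl_zero]
    simp [her, nsq]
  · intro R
    refine (h.discrete (1 - Real.exp (-R)) (by linarith [Real.exp_pos (-R)])).subset ?_
    intro g hg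
    have hg' : -Real.log (1 - dl 0 (x g)) ≤ R := hg
    rw [dl_zero] at hg'
    have h1 : Real.exp (-R) ≤ 1 - nsq (x g) := by
      rw [← Real.exp_log (hpos g)]
      exact Real.exp_le_exp.mpr (by linarith)
    have h2 : nsq (x g) ≤ 1 - Real.exp (-R) := by linarith
    have h3 : 0 ≤ nsq (x g) := add_nonneg (normSq_nonneg _) (normSq_nonneg _)
    refine ⟨0, ?_, h2⟩
    have : nsq (0 : E) = 0 := by simp [nsq]
    rw [this]
    exact h3.trans h2
  · intro s c hc
    have h1 : (∑ g ∈ s, ∑ k ∈ s, c g * c k * -Real.log (1 - dl 0 (x (g⁻¹ * k)))) =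
        ∑ g ∈ s, ∑ k ∈ s, c g * c k * Real.log (normSq (1 - her (x g) (x k))) := by
      have e1 : ∀ g ∈ s, (∑ k ∈ s, c g * c k * -Real.log (1 - dl 0 (x (g⁻¹ * k)))) =
          (∑ k ∈ s, c g * c k * Real.log (normSq (1 - her (x g) (x k)))) -
            c g * ∑ k ∈ s, c k * Real.log (1 - nsq (x k)) := by
        intro g _
        have e2 : ∀ k ∈ s, c g * c k * -Real.log (1 - dl 0 (x (g⁻¹ * k))) =
            c g * c k * Real.log (normSq (1 - her (x g) (x k))) -
              c g * (c k * Real.log (1 - nsq (x k))) -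
              (c g * Real.log (1 - nsq (x g))) * c k := by
          intro k _
          rw [hid]
          ring
        rw [Finset.sum_congr rfl e2, Finset.sum_sub_distrib, Finset.sum_sub_distrib,
          ← Finset.mul_sum, ← Finset.mul_sum, hc, mul_zero, sub_zero]
      rw [Finset.sum_congr rfl e1, Finset.sum_sub_distrib, ← Finset.sum_mul, hc, zero_mul,
        sub_zero]
    simp only []
    rw [h1]
    have hsum : ∀ g k, HasSum (fun n : ℕ => 2 * ((her (x g) (x k)) ^ n / (n : ℂ)).re)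
        (-Real.log (normSq (1 - her (x g) (x k)))) := by
      intro g k
      have := Complex.hasSum_taylorSeries_neg_log (normSq_her_lt (hxb g) (hxb k))
      have h2 := (Complex.hasSum_re this).mul_left 2
      have h3 : 2 * (-Complex.log (1 - her (x g) (x k))).re =
          -Real.log (normSq (1 - her (x g) (x k))) := by
        rw [Complex.neg_re, Complex.log_re, Complex.normSq_eq_norm_sq, Real.log_pow]
        push_cast
        ring
      rw [h3] at h2
      exact h2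
    have hsum2 : HasSum (fun n : ℕ => ∑ g ∈ s, ∑ k ∈ s, c g * c k *
          (2 * ((her (x g) (x k)) ^ n / (n : ℂ)).re))
        (∑ g ∈ s, ∑ k ∈ s, c g * c k * (-Real.log (normSq (1 - her (x g) (x k))))) := by
      refine hasSum_sum fun g _ => hasSum_sum fun k _ => ?_
      exact (hsum g k).mul_left _
    have hnn : 0 ≤ ∑ g ∈ s, ∑ k ∈ s, c g * c k *
        (-Real.log (normSq (1 - her (x g) (x k)))) := by
      refine hsum2.nonneg fun n => ?_
      have h4 : (∑ g ∈ s, ∑ k ∈ s, c g * c k * (2 * ((her (x g) (x k)) ^ n / (n : ℂ)).re)) =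
          (2 / (n : ℝ)) * ∑ g ∈ s, ∑ k ∈ s, c g * c k * ((her (x g) (x k)) ^ n).re := by
        rw [Finset.mul_sum]
        refine Finset.sum_congr rfl fun g _ => ?_
        rw [Finset.mul_sum]
        refine Finset.sum_congr rfl fun k _ => ?_
        rw [← Complex.ofReal_natCast, Complex.div_ofReal_re]
        ring
      rw [h4]
      exact mul_nonneg (by positivity) (her_pow_psd s c x n)
    have h5 : (∑ g ∈ s, ∑ k ∈ s, c g * c k * (-Real.log (normSq (1 - her (x g) (x k))))) =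
        -∑ g ∈ s, ∑ k ∈ s, c g * c k * Real.log (normSq (1 - her (x g) (x k))) := by
      simp only [mul_neg, Finset.sum_neg_distrib]
    rw [h5] at hnn
    linarith

end Pool.Agent.H89.SG
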