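import Pool.Agent.H89.SG.W2

/-!
# Hm: the potential `Φ = - log (1 - |z|²)` and the energy form

* `Hm_eq`: `db l Φ = z_l / (1 - |z|²)`, `dd k` of it.
* `Hm_comp`: with the factor `c` of `exists_factor`,
  `Φ (φ z) = Φ z + log (normSq (c z))` on the ball, and `dd k (db l (log normSq c)) = 0`:
  `db l (log (c conj c)) = conj (dd l c) / conj c`, which is antiholomorphic. Then `ddb_comp`.
* `En a b z = a_0 conj b_0 H_11 - a_0 conj b_1 H_10 - a_1 conj b_0 H_01 + a_1 conj b_1 H_00`.
  `En_self`: `En a a z = (|a_0|² + |a_1|²) / s + |a_0 conj z_1 - a_1 conj z_0|² / s²`, `s = 1 - |z|²`.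
* `En_comp`: `gr (f ∘ φ) z` is `∑_p dd p f (φ z) Dm φ p i z` (`dd_comp`), insert `Hm_comp` for
  `H (z)`: polynomial identity in the entries of `D`, `conj D`, `H (φ z)` (`ring`), the factor is
  `det D * conj (det D)`.
-/

set_option autoImplicit false

namespace Pool.Agent.H89.SG

open Complex MeasureTheory
open scoped ContDiff ComplexConjugate

/-- the potential -/
noncomputable def Phi (z : E) : ℂ := ((-Real.log (1 - nsq z) : ℝ) : ℂ)

/-- its mixed derivatives -/
noncomputable def Hm (k l : Fin 2) (z : E) : ℂ := dd k (db l Phi) z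

/-- the gradient -/
noncomputable def gr (f : E → ℂ) (z : E) (j : Fin 2) : ℂ := dd j f z

/-- the energy form -/
noncomputable def En (a b : Fin 2 → ℂ) (z : E) : ℂ :=
  a 0 * conj (b 0) * Hm 1 1 z - a 0 * conj (b 1) * Hm 1 0 z - a 1 * conj (b 0) * Hm 0 1 z +
    a 1 * conj (b 1) * Hm 0 0 z

variable {φ : E → E} {z : E} {k l : Fin 2} {a b : Fin 2 → ℂ} {f g : E → ℂ}

theorem Phi_smo : Smo Phi := by
  apply ofRealCLM.contDiff.comp_contDiffOn
  apply ContDiffOn.neg
  apply ContDiffOn.log
  · exact (contDiff_const.sub contDiff_nsq).contDiffOn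
  · intro z hz
    have hz' : nsq z < 1 := hz
    exact (sub_pos.2 hz').ne'

theorem dd_fst (z : E) (j : Fin 2) : dd j (fun w : E => w.1) z = if j = 0 then 1 else 0 := by
  have h : fderiv ℝ (fun w : E => w.1) z = ContinuousLinearMap.fst ℝ ℂ ℂ := fderiv_fst
  fin_cases j <;> simp [dd, bs, h]

theorem dd_snd (z : E) (j : Fin 2) : dd j (fun w : E => w.2) z = if j = 0 then 0 else 1 := by
  have h : fderiv ℝ (fun w : E => w.2) z = ContinuousLinearMap.snd ℝ ℂ ℂ := fderiv_snd
  fin_cases j <;> simp [dd, bs, h]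

theorem dd_co (z : E) (k l : Fin 2) : dd k (fun w : E => co l w) z = if k = l then 1 else 0 := by
  have h0 : (fun w : E => co 0 w) = fun w => w.1 := by ext w; simp [co]
  have h1 : (fun w : E => co 1 w) = fun w => w.2 := by ext w; simp [co]
  fin_cases l
  · show dd k (fun w : E => co 0 w) z = _
    rw [h0, dd_fst]
    fin_cases k <;> simp
  · show dd k (fun w : E => co 1 w) z = _
    rw [h1, dd_snd]
    fin_cases k <;> simp

theorem diff_co (z : E) (l : Fin 2) : DifferentiableAt ℝ (fun w : E => co l w) z := by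
  have h0 : (fun w : E => co 0 w) = fun w => w.1 := by ext w; simp [co]
  have h1 : (fun w : E => co 1 w) = fun w => w.2 := by ext w; simp [co]
  fin_cases l
  · show DifferentiableAt ℝ (fun w : E => co 0 w) z
    rw [h0]; fun_prop
  · show DifferentiableAt ℝ (fun w : E => co 1 w) z
    rw [h1]; fun_prop

theorem db_nsq (z : E) (l : Fin 2) : db l (fun w : E => (nsq w : ℂ)) z = co l z := by
  have he : (fun w : E => (nsq w : ℂ)) = fun w => w.1 * conj w.1 + w.2 * conj w.2 := by
    ext w
    simp [nsq, mul_conj]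
  have c1 : DifferentiableAt ℝ (fun w : E => w.1) z := by fun_prop
  have c2 : DifferentiableAt ℝ (fun w : E => w.2) z := by fun_prop
  have c3 : DifferentiableAt ℝ (fun w : E => conj w.1) z :=
    conjCLE.differentiableAt.comp z c1
  have c4 : DifferentiableAt ℝ (fun w : E => conj w.2) z :=
    conjCLE.differentiableAt.comp z c2
  have e1 : db l (fun w : E => w.1) z = 0 := db_eq_zero (by fun_prop) l
  have e2 : db l (fun w : E => w.2) z = 0 := db_eq_zero (by fun_prop) l
  have h3 := db_add (j := l) (f := fun w : E => w.1 * conj w.1)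
    (g := fun w : E => w.2 * conj w.2) (c1.mul c3) (c2.mul c4)
  rw [he, h3, db_mul c1 c3, db_mul c2 c4, db_conj c1, db_conj c2, e1, e2, dd_fst, dd_snd, co]
  fin_cases l <;> simp

theorem dd_nsq (z : E) (l : Fin 2) : dd l (fun w : E => (nsq w : ℂ)) z = conj (co l z) := by
  have h := dd_conj (j := l) (f := fun w : E => (nsq w : ℂ)) (z := z)
    ((ofRealCLM.contDiff.comp contDiff_nsq).differentiable (by simp) z)
  rw [db_nsq] at h
  rw [← h]
  congr 1
  ext w
  simp

theorem deriv_chi {t : ℝ} (ht : t < 1) :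
    HasDerivAt (fun s : ℝ => - Real.log (1 - s)) (1 - t)⁻¹ t := by
  have h1 : HasDerivAt (fun s : ℝ => 1 - s) (-1) t := by
    simpa using (hasDerivAt_id t).const_sub 1
  have h2 := (h1.log (sub_pos.2 ht).ne').neg
  refine h2.congr_deriv ?_
  rw [neg_div, neg_neg, one_div]

theorem deriv_chi2 {t : ℝ} (ht : t < 1) :
    HasDerivAt (fun s : ℝ => (1 - s)⁻¹) ((1 - t) ^ 2)⁻¹ t := by
  have h1 : HasDerivAt (fun s : ℝ => 1 - s) (-1) t := by
    simpa using (hasDerivAt_id t).const_sub 1
  have h2 := h1.inv (sub_pos.2 ht).ne'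
  refine h2.congr_deriv ?_
  rw [neg_neg, one_div]

theorem diff_nsq (z : E) : DifferentiableAt ℝ nsq z := contDiff_nsq.differentiable (by simp) z

theorem db_Phi (hz : z ∈ ball) : db l Phi z = co l z / (1 - nsq z : ℝ) := by
  have hd := deriv_chi (t := nsq z) hz
  have h := db_real_comp (j := l) (diff_nsq z) hd.differentiableAt
  rw [hd.deriv, db_nsq] at h
  rw [show db l Phi z = db l (fun w => ((- Real.log (1 - nsq w) : ℝ) : ℂ)) z from rfl, h]
  push_cast
  ring

theorem dd_Phi (hz : z ∈ ball) : dd l Phi z = conj (co l z) / (1 - nsq z : ℝ) := by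
  have hd := deriv_chi (t := nsq z) hz
  have h := dd_real_comp (j := l) (diff_nsq z) hd.differentiableAt
  rw [hd.deriv, dd_nsq] at h
  rw [show dd l Phi z = dd l (fun w => ((- Real.log (1 - nsq w) : ℝ) : ℂ)) z from rfl, h]
  push_cast
  ring

theorem Hm_eq (hz : z ∈ ball) : Hm k l z = (if k = l then 1 else 0) / ((1 - nsq z : ℝ) : ℂ) +
    conj (co k z) * co l z / ((1 - nsq z : ℝ) : ℂ) ^ 2 := by
  have hd := deriv_chi2 (t := nsq z) hz
  have h := dd_real_comp (j := k) (diff_nsq z) hd.differentiableAt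
  rw [hd.deriv, dd_nsq] at h
  have hloc : Hm k l z = dd k (fun w => co l w * (((1 - nsq w)⁻¹ : ℝ) : ℂ)) z := by
    apply dd_congr
    filter_upwards [isOpen_ball.mem_nhds hz] with w hw
    rw [db_Phi hw, ofReal_inv, div_eq_mul_inv]
  have hdf : DifferentiableAt ℝ (fun w : E => (((1 - nsq w)⁻¹ : ℝ) : ℂ)) z := by
    have h1 : DifferentiableAt ℝ (fun w : E => (1 - nsq w)⁻¹) z :=
      hd.differentiableAt.comp z (diff_nsq z)
    exact ofRealCLM.differentiableAt.comp z h1
  rw [hloc, dd_mul (diff_co z l) hdf, dd_co, h]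
  push_cast
  ring

theorem Hm_smo : Smo (Hm k l) := (Phi_smo.db l).dd k

theorem Hm_comp (hφ : IsAut φ) (hz : z ∈ ball) : Hm k l z =
    ∑ p : Fin 2, ∑ q : Fin 2, Hm p q (φ z) * Dm φ p k z * conj (Dm φ q l z) := by
  have hcomp := ddb_comp Phi_smo hφ hz k l
  obtain ⟨c, hc, hc0, hcf⟩ := hφ.exists_factor
  have hns : ∀ w ∈ ball, (1 - nsq (φ w)) * normSq (c w) = 1 - nsq w := by
    intro w hw
    have := hcf w hw w hw
    rw [her_self, her_self, mul_conj] at this
    exact_mod_cast this
  have hPhi : ∀ w ∈ ball, Phi (φ w) = Phi w + ((Real.log (normSq (c w)) : ℝ) : ℂ) := by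
    intro w hw
    have h1 : 0 < 1 - nsq (φ w) := sub_pos.2 (hφ.maps hw)
    have h2 : 0 < normSq (c w) := normSq_pos.2 (hc0 w hw)
    simp only [Phi]
    rw [← hns w hw, Real.log_mul h1.ne' h2.ne']
    push_cast
    ring
  have hLs : Smo (fun w => ((Real.log (normSq (c w)) : ℝ) : ℂ)) := by
    apply ofRealCLM.contDiff.comp_contDiffOn
    apply ContDiffOn.log
    · have h1 : ContDiffOn ℝ ∞ (fun w => (c w).re * (c w).re + (c w).im * (c w).im) ball := by
        have hre := reCLM.contDiff.comp_contDiffOn hc.1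
        have him := imCLM.contDiff.comp_contDiffOn hc.1
        exact (hre.mul hre).add (him.mul him)
      exact h1.congr (fun w _ => by rw [normSq_apply])
    · intro w hw
      exact (normSq_pos.2 (hc0 w hw)).ne'
  have hdbL : ∀ w ∈ ball, db l (fun w => ((Real.log (normSq (c w)) : ℝ) : ℂ)) w =
      conj (dd l c w / c w) := by
    intro w hw
    have hcd := hc.1.contDiffAt (isOpen_ball.mem_nhds hw) |>.differentiableAt (by simp)
    have hcd' : DifferentiableAt ℝ (fun w => conj (c w)) w := conjCLE.differentiableAt.comp w hcd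
    have hn : normSq (c w) ≠ 0 := (normSq_pos.2 (hc0 w hw)).ne'
    have hnd : DifferentiableAt ℝ (fun w => normSq (c w)) w := by
      have hre : DifferentiableAt ℝ (fun w => (c w).re) w := reCLM.differentiableAt.comp w hcd
      have him : DifferentiableAt ℝ (fun w => (c w).im) w := imCLM.differentiableAt.comp w hcd
      have h1 := (hre.mul hre).add (him.mul him)
      exact h1.congr_of_eventuallyEq (Filter.Eventually.of_forall fun w => by
        simp [normSq_apply])
    have hlog := Real.hasDerivAt_log hn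
    have h := db_real_comp (j := l) hnd hlog.differentiableAt
    rw [hlog.deriv] at h
    rw [h]
    have h2 : (fun w => ((normSq (c w) : ℝ) : ℂ)) = fun w => c w * conj (c w) := by
      ext w; rw [mul_conj]
    rw [h2, db_mul hcd hcd', hc.db_eq hw, db_conj hcd, zero_mul, zero_add, map_div₀]
    have hc0' := hc0 w hw
    have hc1' : conj (c w) ≠ 0 := by simpa using hc0'
    rw [ofReal_inv, ← mul_conj]
    field_simp
  have hzero : dd k (db l (fun w => ((Real.log (normSq (c w)) : ℝ) : ℂ))) z = 0 := by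
    have h1 : dd k (db l (fun w => ((Real.log (normSq (c w)) : ℝ) : ℂ))) z =
        dd k (fun w => conj (dd l c w / c w)) z := by
      apply dd_congr
      filter_upwards [isOpen_ball.mem_nhds hz] with w hw
      exact hdbL w hw
    have hD : DifferentiableAt ℂ (fun w => dd l c w / c w) z := by
      have h2 : DifferentiableAt ℂ (dd l c) z :=
        ((hc.dd l).2 z hz).differentiableAt (isOpen_ball.mem_nhds hz)
      have h3 : DifferentiableAt ℂ c z := (hc.2 z hz).differentiableAt (isOpen_ball.mem_nhds hz)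
      have h4 := h2.mul (h3.inv (hc0 z hz))
      exact h4.congr_of_eventuallyEq (Filter.Eventually.of_forall fun w => by
        simp [div_eq_mul_inv])
    rw [h1, dd_conj (hD.restrictScalars ℝ), db_eq_zero hD, map_zero]
  have hsum : dd k (db l (fun w => Phi (φ w))) z = Hm k l z := by
    have h1 : dd k (db l (fun w => Phi (φ w))) z =
        dd k (fun w => db l Phi w + db l (fun w => ((Real.log (normSq (c w)) : ℝ) : ℂ)) w) z := by
      apply dd_congr
      filter_upwards [isOpen_ball.mem_nhds hz] with w hw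
      rw [← db_add (Phi_smo.diffAt hw) (hLs.diffAt hw)]
      apply db_congr
      filter_upwards [isOpen_ball.mem_nhds hw] with y hy
      exact hPhi y hy
    rw [h1, dd_add ((Phi_smo.db l).diffAt hz) ((hLs.db l).diffAt hz), hzero, add_zero, Hm]
  rw [← hsum, hcomp]
  rfl

/-- the derivatives of the potential are closed: `dd i H_kl = dd k H_il` -/
theorem dd_Hm_comm (hz : z ∈ ball) (i k l : Fin 2) : dd i (Hm k l) z = dd k (Hm i l) z :=
  dd_dd_comm (Phi_smo.db l) hz i k

end Pool.Agent.H89.SG
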