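import Pool.Agent.H89.SG.Solve
import Pool.Agent.H89.SG.AvC

/-!
# HodA: equivariant functions with the mean value property

`exists_part'` with `r₀ = 1/2` gives `Part m r ρ κ` with `0 < r`. `exists_ker` gives `k`, positive
on `(-∞, 1 - (1 - r)²/4]`.
`v z = - ∑ᶠ g, κ (m g z) * c g` on the ball is smooth (locally finite sum, `Part.exists_finset`,
`Part.smo`) and `v (m h z) = - ∑ κ (g h z) c g = - ∑ κ (g' z) (c g' - c h) = v z + c h`
(`c (g' h⁻¹) = c g' - c h` and `∑ κ = 1`).
`f₀ = Av k v - v` is continuous, invariant (`Av_aut`, `Av_const`), and `∫ κ f₀ dμ = 0` (`Av_mean`).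
Let `w` be given by `solve` and `u = Av k (v + w)`. On the ball
`Av k (v + w) = v + f₀ + w - f₀ = v + w`, so `Av k u = u` on the ball, `u = v + w` on the ball, `u` is
smooth (`Av_smooth`) and `u (m g z) = u z + c g`.
For another kernel `k'` let `e = Av k' u - u`: continuous, invariant, and
`Av k e = Av k Av k' u - Av k u = Av k' Av k u - u = Av k' u - u = e` (`Av_comm`), so `e` is a constant
`c₀` on the ball (`const_of_Av_eq`), and `c₀ ∫ κ dμ = ∫ κ (Av k' u - u) dμ = 0` (`Av_mean`), with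
`∫ κ dμ > 0` (`eq_zero_of_integral_zero`). So `e = 0`.
-/

set_option autoImplicit false

namespace Pool.Agent.H89.SG

open Complex MeasureTheory
open scoped ContDiff ComplexConjugate

variable {G : Type} [Group G] {m : G → E → E}

/-- averages of equivariant functions are equivariant -/
theorem HodA.Av_equiv (hA : BAct G m) {k : ℝ → ℝ} {r₁ : ℝ} (hk : Ker k r₁) {f : E → ℝ}
    (hf : ContinuousOn f ball) (c : G → ℝ) (hc : ∀ g, ∀ z ∈ ball, f (m g z) = f z + c g) :
    ∀ g, ∀ z ∈ ball, Av k f (m g z) = Av k f z + c g := by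
  intro g z hz
  rw [← Av_aut (hA.aut g) hz, Av_congr (g := fun z => f z + c g) (hc g),
    Av_add hk hf continuousOn_const hz, Av_const hk hz]

/-- the locally finite sum -/
theorem HodA.local_sum (hA : BAct G m) {r ρ : ℝ} {κ : E → ℝ} (hP : Part m r ρ κ) (c : G → ℝ)
    {R : ℝ} (hR : R < 1) : ∃ T : Finset G, ∀ z, nsq z ≤ R →
      ∑ᶠ g, κ (m g z) * c g = ∑ g ∈ T, κ (m g z) * c g := by
  obtain ⟨T, hT, -⟩ := hP.exists_finset hA hR
  refine ⟨T, fun z hz => finsum_eq_sum_of_support_subset _ ?_⟩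
  intro g hg
  refine hT z hz g fun h0 => ?_
  rw [Function.mem_support] at hg
  exact hg (by rw [h0, zero_mul])

theorem HodA.smooth_sum (hA : BAct G m) {r ρ : ℝ} {κ : E → ℝ} (hP : Part m r ρ κ) (c : G → ℝ) :
    ContDiffOn ℝ ∞ (fun z => -∑ᶠ g, κ (m g z) * c g) ball := by
  intro z₀ hz₀
  have hz₀' : nsq z₀ < 1 := hz₀
  obtain ⟨R, h1, h2⟩ := exists_between hz₀'
  obtain ⟨T, hT⟩ := HodA.local_sum hA hP c h2
  have hs : ContDiffOn ℝ ∞ (fun z => -∑ g ∈ T, κ (m g z) * c g) ball := by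
    refine ContDiffOn.neg (ContDiffOn.sum fun g _ => ContDiffOn.mul ?_ contDiffOn_const)
    have := Complex.reCLM.contDiff.comp_contDiffOn (Part.smo hA hP g)
    exact this
  have hopen : IsOpen {z : E | nsq z < R} := isOpen_lt continuous_nsq continuous_const
  refine (hs z₀ hz₀).congr_of_eventuallyEq ?_ ?_
  · filter_upwards [nhdsWithin_le_nhds (hopen.mem_nhds h1)] with z hz
    rw [hT z (le_of_lt hz)]
  · rw [hT z₀ h1.le]

theorem HodA.equiv_sum (hA : BAct G m) {r ρ : ℝ} {κ : E → ℝ} (hP : Part m r ρ κ) (c : G → ℝ)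
    (hc : ∀ g h, c (g * h) = c g + c h) : ∀ h, ∀ z ∈ ball,
      (-∑ᶠ g, κ (m g (m h z)) * c g) = (-∑ᶠ g, κ (m g z) * c g) + c h := by
  intro h z hz
  have hz' : nsq z < 1 := hz
  obtain ⟨T, hT, -⟩ := hP.exists_finset hA hz'
  have hfin : (Function.support fun g : G => κ (m g z)).Finite :=
    T.finite_toSet.subset fun g hg => hT z le_rfl g hg
  have h1 : ∀ g, c (g * h⁻¹) = c g - c h := by
    intro g
    have := hc (g * h⁻¹) h
    rw [inv_mul_cancel_right] at this
    linarith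
  have e1 : ∑ᶠ g, κ (m g (m h z)) * c g = ∑ᶠ g, κ (m g z) * c (g * h⁻¹) := by
    rw [← finsum_comp_equiv (Equiv.mulRight h) (f := fun g => κ (m g z) * c (g * h⁻¹))]
    refine finsum_congr fun g => ?_
    simp only [Equiv.coe_mulRight, mul_inv_cancel_right]
    rw [hA.mul g h z hz]
  have e2 : ∑ᶠ g, κ (m g z) * c (g * h⁻¹) = (∑ᶠ g, κ (m g z) * c g) - ∑ᶠ g, κ (m g z) * c h := by
    rw [← finsum_sub_distrib]
    · refine finsum_congr fun g => ?_
      rw [h1]
      ring
    · refine hfin.subset fun g hg h0 => hg ?_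
      simp only at h0
      simp only [h0, zero_mul]
    · refine hfin.subset fun g hg h0 => hg ?_
      simp only at h0
      simp only [h0, zero_mul]
  have e3 : ∑ᶠ g, κ (m g z) * c h = c h := by
    rw [← finsum_mul, hP.sum z hz, one_mul]
  rw [e1, e2, e3]
  ring

theorem HodA.integral_pos {r ρ : ℝ} {κ : E → ℝ} (hP : Part m r ρ κ) :
    ∫ z, κ z ∂mu ≠ 0 := by
  intro h
  have hc : ContinuousOn κ ball := hP.smooth.continuous.continuousOn
  have h0 := eq_zero_of_integral_zero hc (fun z _ => hP.nonneg z)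
    (integrable_mu_of_supp hc hP.ρ_lt fun z _ hz => hP.supp z hz) h 0 zero_mem_ball
  have h1 := hP.pos 0 (by rw [nsq_zero]; exact hP.r_nonneg)
  rw [h0] at h1
  exact lt_irrefl _ h1

theorem exists_harm (hA : BAct G m) (c : G → ℝ) (hc : ∀ g h, c (g * h) = c g + c h) :
    ∃ u : E → ℝ, ContDiffOn ℝ ∞ u ball ∧ (∀ g, ∀ z ∈ ball, u (m g z) = u z + c g) ∧
      ∀ (k : ℝ → ℝ) (r₁ : ℝ), Ker k r₁ → ∀ x ∈ ball, Av k u x = u x := by
  obtain ⟨r, ρ, κ, hr, hP⟩ := exists_part' hA (r₀ := 1 / 2) (by norm_num)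
  have hr0 : 0 < r := by linarith
  have hr1 : r < 1 := hP.r_lt.trans hP.ρ_lt
  obtain ⟨k, r₁, hk, -, hpos⟩ := exists_ker (r := 1 - (1 - r) ^ 2 / 4) (by
    have : 0 < (1 - r) ^ 2 := pow_pos (by linarith) 2
    linarith)
  -- the approximate solution
  obtain ⟨v, hvdef⟩ : ∃ v : E → ℝ, v = fun z => -∑ᶠ g, κ (m g z) * c g := ⟨_, rfl⟩
  have hvs : ContDiffOn ℝ ∞ v ball := by
    rw [hvdef]
    exact HodA.smooth_sum hA hP c
  have hvc : ContinuousOn v ball := hvs.continuousOn
  have hve : ∀ g, ∀ z ∈ ball, v (m g z) = v z + c g := by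
    rw [hvdef]
    exact HodA.equiv_sum hA hP c hc
  obtain ⟨w, hwc, hwi, hw⟩ := solve hA hP hr0 hk hpos (f₀ := fun z => Av k v z - v z)
    ((Av_continuous hk hvc).sub hvc)
    (by
      intro g z hz
      rw [HodA.Av_equiv hA hk hvc c hve g z hz, hve g z hz]
      ring)
    (Av_mean hA hP hk hvc c hve)
  have hvw : ContinuousOn (fun z => v z + w z) ball := hvc.add hwc
  obtain ⟨u, hudef⟩ : ∃ u : E → ℝ, u = Av k (fun z => v z + w z) := ⟨_, rfl⟩
  have hu : ∀ z ∈ ball, u z = v z + w z := by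
    intro z hz
    rw [hudef, Av_add hk hvc hwc hz]
    have := hw z hz
    linarith
  have hus : ContDiffOn ℝ ∞ u ball := by
    rw [hudef]
    exact Av_smooth hk hvw
  have huc : ContinuousOn u ball := hus.continuousOn
  have hue : ∀ g, ∀ z ∈ ball, u (m g z) = u z + c g := by
    intro g z hz
    rw [hu _ (hA.mem g hz), hu z hz, hve g z hz, hwi g z hz]
    ring
  have huk : ∀ z ∈ ball, Av k u z = u z := by
    intro z hz
    rw [Av_congr (g := fun z => v z + w z) hu, hudef]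
  refine ⟨u, hus, hue, ?_⟩
  intro k' r₁' hk' x hx
  have hc' : ContinuousOn (Av k' u) ball := Av_continuous hk' huc
  obtain ⟨c₀, hc₀⟩ := const_of_Av_eq hA hr0 hr1 hP.cover hk hpos (e := fun z => Av k' u z - u z)
    (hc'.sub huc)
    (by
      intro g z hz
      rw [HodA.Av_equiv hA hk' huc c hue g z hz, hue g z hz]
      ring)
    (by
      intro z hz
      rw [Av_sub hk hc' huc hz, Av_comm hk hk' huc hz, huk z hz, Av_congr (g := u) huk])
  have hm := Av_mean hA hP hk' huc c hue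
  rw [integral_mu_congr (g := fun z => κ z * c₀) (fun z hz => by
    have := hc₀ z hz
    rw [this]), integral_mul_const] at hm
  have h0 : c₀ = 0 := by
    rcases mul_eq_zero.1 hm with h | h
    · exact absurd h (HodA.integral_pos hP)
    · exact h
  have := hc₀ x hx
  linarith

end Pool.Agent.H89.SG
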