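import Pool.Agent.H89.SG.Mvp0
import Pool.Agent.H89.SG.Swap

/-!
# MvpX: the Hessian determinant is nonpositive

Let `x` be in the ball, `φ` an automorphism with `φ 0 = x` (`swap0`). `u ∘ φ` has the mean value
property at `0` (`Av_aut`), so `lap_zero` applies to it (its coercion is `U ∘ φ`). Let
`W k l = dd k (db l (U ∘ φ)) 0`. `W` is Hermitian (`conj (dd k (db l V)) = db k (dd l V)
= dd l (db k V)` for real `V`: `dd_conj`, `db_conj`, `dd_db_comm`) with `W 0 0 + W 1 1 = 0`, so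
`Hd (U ∘ φ) 0 = W 0 0 * W 1 1 - W 0 1 * W 1 0 = -(W 0 0)² - |W 0 1|²` is real, nonpositive and zero
only if `W = 0`. By `Hd_comp`, `Hd (U ∘ φ) 0 = normSq (jac φ 0) * Hd U x`, `jac φ 0 ≠ 0`. If `W = 0`
then `dd i (db j U) x = 0`: `U = (U ∘ φ) ∘ ψ` near `x`, `ψ` the inverse automorphism (`ψ x = 0`), and
`ddb_comp`.
-/

set_option autoImplicit false

namespace Pool.Agent.H89.SG

open Complex MeasureTheory
open scoped ContDiff ComplexConjugate

theorem Hd_neg {u : E → ℝ} (hu : ContDiffOn ℝ ∞ u ball)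
    (h : ∀ (k : ℝ → ℝ) (r₁ : ℝ), Ker k r₁ → ∀ x ∈ ball, Av k u x = u x) {x : E} (hx : x ∈ ball) :
    (Hd (fun z => (u z : ℂ)) x).im = 0 ∧ (Hd (fun z => (u z : ℂ)) x).re ≤ 0 ∧
      (Hd (fun z => (u z : ℂ)) x = 0 → ∀ i j, dd i (db j (fun z => (u z : ℂ))) x = 0) := by
  obtain ⟨φ, hφ, hφ0, hφx, hφφ⟩ := swap0 hx
  set U : E → ℂ := fun z => (u z : ℂ) with hU
  have hUs : Smo U := ofRealCLM.contDiff.comp_contDiffOn hu
  set v : E → ℝ := fun z => u (φ z) with hv
  have hvs : ContDiffOn ℝ ∞ v ball := hu.comp hφ.smooth (fun z hz => hφ.maps hz)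
  set V : E → ℂ := fun z => (v z : ℂ) with hV
  have hVs : Smo V := ofRealCLM.contDiff.comp_contDiffOn hvs
  have hVU : V = fun w => U (φ w) := rfl
  have hlap : dd 0 (db 0 V) 0 + dd 1 (db 1 V) 0 = 0 := by
    apply lap_zero hvs
    intro k r₁ hk
    rw [hv, Av_aut hφ zero_mem_ball, hφ0, h k r₁ hk x hx]
    exact (congrArg u hφ0).symm
  have hconjV : (fun w => conj (V w)) = V := by
    ext w
    simp [hV]
  have hherm : ∀ k l, conj (dd k (db l V) 0) = dd l (db k V) 0 := by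
    intro k l
    rw [← db_conj ((hVs.db l).diffAt zero_mem_ball), dd_db_comm hVs zero_mem_ball l k]
    apply db_congr
    filter_upwards [isOpen_ball.mem_nhds zero_mem_ball] with w hw
    rw [← dd_conj (hVs.diffAt hw), hconjV]
  have hN : 0 < normSq (jac φ 0) := normSq_pos.2 (hφ.jac_ne zero_mem_ball)
  have hcomp : Hd V 0 = (normSq (jac φ 0) : ℂ) * Hd U x := by
    have := Hd_comp hUs hφ zero_mem_ball
    rw [hφ0] at this
    rw [← this]
  have h00 : (dd 0 (db 0 V) 0).im = 0 := by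
    have := congrArg Complex.im (hherm 0 0)
    simp only [conj_im] at this
    linarith
  have h11 : dd 1 (db 1 V) 0 = - dd 0 (db 0 V) 0 := by
    linear_combination hlap
  have h10 : dd 1 (db 0 V) 0 = conj (dd 0 (db 1 V) 0) := (hherm 0 1).symm
  have h00r : dd 0 (db 0 V) 0 = ((dd 0 (db 0 V) 0).re : ℂ) := by
    apply Complex.ext <;> simp [h00]
  have hHd : Hd V 0 =
      ((-((dd 0 (db 0 V) 0).re ^ 2 + normSq (dd 0 (db 1 V) 0)) : ℝ) : ℂ) := by
    rw [Hd, h11, h10, mul_conj, h00r]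
    push_cast
    simp only [ofReal_re]
    ring
  have hUx : Hd U x =
      ((-((dd 0 (db 0 V) 0).re ^ 2 + normSq (dd 0 (db 1 V) 0)) / normSq (jac φ 0) : ℝ) : ℂ) := by
    have hN' : (normSq (jac φ 0) : ℂ) ≠ 0 := by exact_mod_cast hN.ne'
    rw [hcomp] at hHd
    push_cast at hHd ⊢
    field_simp
    linear_combination hHd
  refine ⟨by rw [hUx, ofReal_im], ?_, ?_⟩
  · rw [hUx, ofReal_re]
    apply div_nonpos_of_nonpos_of_nonneg _ hN.le
    have := normSq_nonneg (dd 0 (db 1 V) 0)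
    nlinarith [sq_nonneg (dd 0 (db 0 V) 0).re]
  · intro h0
    rw [h0, mul_zero, hHd, ofReal_eq_zero] at hcomp
    have hn1 := normSq_nonneg (dd 0 (db 1 V) 0)
    have hn2 := sq_nonneg (dd 0 (db 0 V) 0).re
    have hz1 : normSq (dd 0 (db 1 V) 0) = 0 := by linarith
    have hz2 : (dd 0 (db 0 V) 0).re = 0 := by
      have : (dd 0 (db 0 V) 0).re ^ 2 = 0 := by linarith
      exact pow_eq_zero_iff (two_ne_zero) |>.1 this
    have hW01 : dd 0 (db 1 V) 0 = 0 := normSq_eq_zero.1 hz1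
    have hW00 : dd 0 (db 0 V) 0 = 0 := by rw [h00r, hz2, ofReal_zero]
    have hW11 : dd 1 (db 1 V) 0 = 0 := by rw [h11, hW00, neg_zero]
    have hW10 : dd 1 (db 0 V) 0 = 0 := by rw [h10, hW01, map_zero]
    intro i j
    have hloc : dd i (db j U) x = dd i (db j (fun w => V (φ w))) x := by
      apply dd_congr
      filter_upwards [isOpen_ball.mem_nhds hx] with w hw
      apply db_congr
      filter_upwards [isOpen_ball.mem_nhds hw] with y hy
      simp only [hV, hv, hU, hφφ y hy]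
    rw [hloc, ddb_comp hVs hφ hx, hφx]
    simp [Fin.sum_univ_two, hW00, hW01, hW10, hW11]

end Pool.Agent.H89.SG
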