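import Pool.Agent.H89.SG.PT

/-!
# Siu: the integral of the Hessian determinant vanishes

Write `k_i = dd i k`, `u_j' = db j u`, `u_ij' = dd i (db j u)`, `Hd u = u_00' u_11' - u_01' u_10'`.
Apply `PT` with trivial index set (`Unit` with the trivial action) and
`T(k) = k_0 (u_0' u_11' - u_1' u_10') - k_1 (u_0' u_01' - u_1' u_00')` (no `db k` terms).
Invariance: by the chain rules (`db_comp`, `ddb_comp`, `db_const` for the constant `c g`), with
`D = Dm (m g)`, `T(k ∘ g)(x)` is a polynomial in the entries of `D` and `conj D`; it equals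
`(det D) (conj det D) T(k)(g x)` (`ring`), and `det D = jac`, `normSq w = w conj w`.
Integration by parts (`integral_dd` for `κ (u_0' u_11' - u_1' u_10')` and
`κ (u_0' u_01' - u_1' u_00')`), with `A = u_0' u_11' - u_1' u_10'`, `B = u_0' u_01' - u_1' u_00'`:
`∫ T(κ) = - ∫ κ (dd 0 A - dd 1 B)` and `dd 0 A - dd 1 B = 2 Hd u` because
`dd 0 u_11' = dd 1 u_01'` and `dd 0 u_10' = dd 1 u_00'` (commuting derivatives).
-/

set_option autoImplicit false

namespace Pool.Agent.H89.SG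

open Complex MeasureTheory
open scoped ContDiff ComplexConjugate

variable {G : Type} [Group G] {m : G → E → E}

private noncomputable def sA (u : E → ℂ) (z : E) : ℂ :=
  db 0 u z * dd 1 (db 1 u) z - db 1 u z * dd 1 (db 0 u) z

private noncomputable def sB (u : E → ℂ) (z : E) : ℂ :=
  db 0 u z * dd 0 (db 1 u) z - db 1 u z * dd 0 (db 0 u) z

private theorem smo_mul {f g : E → ℂ} (hf : Smo f) (hg : Smo g) : Smo (fun z => f z * g z) :=
  ContDiffOn.mul hf hg

private theorem smo_sub {f g : E → ℂ} (hf : Smo f) (hg : Smo g) : Smo (fun z => f z - g z) :=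
  ContDiffOn.sub hf hg

private theorem smo_cont {f : E → ℂ} (hf : Smo f) : ContinuousOn f ball :=
  ContDiffOn.continuousOn hf

private theorem sA_smo {u : E → ℂ} (hu : Smo u) : Smo (sA u) :=
  smo_sub (smo_mul (hu.db 0) ((hu.db 1).dd 1)) (smo_mul (hu.db 1) ((hu.db 0).dd 1))

private theorem sB_smo {u : E → ℂ} (hu : Smo u) : Smo (sB u) :=
  smo_sub (smo_mul (hu.db 0) ((hu.db 1).dd 0)) (smo_mul (hu.db 1) ((hu.db 0).dd 0))

private theorem dd_sA {u : E → ℂ} (hu : Smo u) {z : E} (hz : z ∈ ball) (i : Fin 2) :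
    dd i (sA u) z = dd i (db 0 u) z * dd 1 (db 1 u) z + db 0 u z * dd i (dd 1 (db 1 u)) z
      - (dd i (db 1 u) z * dd 1 (db 0 u) z + db 1 u z * dd i (dd 1 (db 0 u)) z) := by
  have h0 := (hu.db 0).diffAt hz
  have h1 := (hu.db 1).diffAt hz
  have h2 := ((hu.db 1).dd 1).diffAt hz
  have h3 := ((hu.db 0).dd 1).diffAt hz
  unfold sA
  rw [dd_sub (h0.fun_mul h2) (h1.fun_mul h3), dd_mul h0 h2, dd_mul h1 h3]

private theorem dd_sB {u : E → ℂ} (hu : Smo u) {z : E} (hz : z ∈ ball) (i : Fin 2) :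
    dd i (sB u) z = dd i (db 0 u) z * dd 0 (db 1 u) z + db 0 u z * dd i (dd 0 (db 1 u)) z
      - (dd i (db 1 u) z * dd 0 (db 0 u) z + db 1 u z * dd i (dd 0 (db 0 u)) z) := by
  have h0 := (hu.db 0).diffAt hz
  have h1 := (hu.db 1).diffAt hz
  have h2 := ((hu.db 1).dd 0).diffAt hz
  have h3 := ((hu.db 0).dd 0).diffAt hz
  unfold sB
  rw [dd_sub (h0.fun_mul h2) (h1.fun_mul h3), dd_mul h0 h2, dd_mul h1 h3]

/-- twice the Hessian determinant is a divergence -/
private theorem two_Hd {u : E → ℂ} (hu : Smo u) {z : E} (hz : z ∈ ball) :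
    dd 0 (sA u) z - dd 1 (sB u) z = 2 * Hd u z := by
  rw [dd_sA hu hz, dd_sB hu hz, dd_dd_comm (hu.db 1) hz 0 1, dd_dd_comm (hu.db 0) hz 0 1]
  unfold Hd
  ring

private theorem sA_inv (hA : BAct G m) {u : E → ℂ} (hu : Smo u)
    (c : G → ℂ) (hc : ∀ g, ∀ z ∈ ball, u (m g z) = u z + c g) (g : G) (k : E → ℂ) (hk : Smo k)
    {x : E} (hx : x ∈ ball) :
    sA u x * dd 0 (fun z => k (m g z)) x - sB u x * dd 1 (fun z => k (m g z)) x =
      (normSq (jac (m g) x) : ℂ) * (sA u (m g x) * dd 0 k (m g x) - sB u (m g x) * dd 1 k (m g x)) := by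
  have hφ := hA.aut g
  have hcomp := hu.comp hφ
  have hev : ∀ z ∈ ball, (fun w => u (m g w)) =ᶠ[nhds z] fun w => u w + c g := by
    intro z hz
    filter_upwards [isOpen_ball.mem_nhds hz] with w hw
    exact hc g w hw
  have hdb : ∀ j : Fin 2, ∀ z ∈ ball, db j (fun w => u (m g w)) z = db j u z := by
    intro j z hz
    rw [db_congr (hev z hz), db_add (hu.diffAt hz) (differentiableAt_const _), db_const, add_zero]
  have hdd : ∀ i j : Fin 2, dd i (db j (fun w => u (m g w))) x = dd i (db j u) x := by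
    intro i j
    apply dd_congr
    filter_upwards [isOpen_ball.mem_nhds hx] with w hw
    exact hdb j w hw
  have e1 : ∀ j : Fin 2, db j u x = db 0 u (m g x) * conj (Dm (m g) 0 j x) +
      db 1 u (m g x) * conj (Dm (m g) 1 j x) := by
    intro j
    rw [← hdb j x hx, db_comp hu hφ hx j]
  have e2 : ∀ i j : Fin 2, dd i (db j u) x =
      ∑ p : Fin 2, ∑ q : Fin 2, dd p (db q u) (m g x) * Dm (m g) p i x * conj (Dm (m g) q j x) := by
    intro i j
    rw [← hdd i j, ddb_comp hu hφ hx i j]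
  rw [dd_comp hk hφ hx 0, dd_comp hk hφ hx 1, ← Complex.mul_conj, jac_eq]
  unfold sA sB
  rw [e1 0, e1 1, e2 1 1, e2 1 0, e2 0 1, e2 0 0]
  simp only [Fin.sum_univ_two, map_sub, map_mul]
  ring

theorem siu (hA : BAct G m) {r ρ : ℝ} {κ : E → ℝ} (hP : Part m r ρ κ) {u : E → ℂ} (hu : Smo u)
    (c : G → ℂ) (hc : ∀ g, ∀ z ∈ ball, u (m g z) = u z + c g) :
    ∫ z in ball, ((κ z : ℝ) : ℂ) * Hd u z = 0 := by
  have hκ : Smo (fun z => ((κ z : ℝ) : ℂ)) :=
    (Complex.ofRealCLM.contDiff.comp hP.smooth).contDiffOn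
  have hρ := hP.ρ_lt
  have hκs : ∀ z ∈ ball, ((κ z : ℝ) : ℂ) ≠ 0 → nsq z ≤ ρ := by
    intro z _ hz
    exact hP.supp z fun h => hz (by rw [h, Complex.ofReal_zero])
  have hAs := sA_smo hu
  have hBs := sB_smo hu
  -- the unfolding lemma
  have hPT := PT (I := Unit) hA hP (fun j x _ => if j = 0 then sA u x else -sB u x)
    (fun _ _ _ => 0) (by
      intro j _
      by_cases hj : j = 0
      · simp only [hj, if_true]
        exact smo_cont hAs
      · simp only [hj, if_false]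
        exact (smo_cont hBs).neg) (fun _ _ => continuousOn_const)
    (fun R _ => Set.toFinite _) (by
      intro g k hk x hx i
      have := sA_inv hA hu c hc g k hk hx
      simp only [TT, Fin.sum_univ_two, if_true, zero_mul, add_zero, one_ne_zero, if_false]
      calc _ = sA u x * dd 0 (fun z => k (m g z)) x - sB u x * dd 1 (fun z => k (m g z)) x := by ring
        _ = _ := this
        _ = _ := by ring)
  rw [finsum_unique] at hPT
  have hT : ∫ x in ball, (sA u x * dd 0 (fun z => ((κ z : ℝ) : ℂ)) x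
      - sB u x * dd 1 (fun z => ((κ z : ℝ) : ℂ)) x) = 0 := by
    rw [← hPT]
    refine integral_congr_ae (Filter.Eventually.of_forall fun x => ?_)
    simp only [TT, Fin.sum_univ_two, if_true, zero_mul, add_zero, one_ne_zero, if_false]
    ring
  -- integration by parts
  have hκA : Smo (fun z => ((κ z : ℝ) : ℂ) * sA u z) := smo_mul hκ hAs
  have hκB : Smo (fun z => ((κ z : ℝ) : ℂ) * sB u z) := smo_mul hκ hBs
  have sκA : ∀ z ∈ ball, ((κ z : ℝ) : ℂ) * sA u z ≠ 0 → nsq z ≤ ρ :=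
    fun z hz h => hκs z hz (left_ne_zero_of_mul h)
  have sκB : ∀ z ∈ ball, ((κ z : ℝ) : ℂ) * sB u z ≠ 0 → nsq z ≤ ρ :=
    fun z hz h => hκs z hz (left_ne_zero_of_mul h)
  have i1 := integral_dd hκA hρ sκA 0
  have i2 := integral_dd hκB hρ sκB 1
  have n1 : IntegrableOn (dd 0 (fun z => ((κ z : ℝ) : ℂ) * sA u z)) ball :=
    integrableOn_of_supp (smo_cont (hκA.dd 0)) hρ (dd_supp sκA 0)
  have n2 : IntegrableOn (dd 1 (fun z => ((κ z : ℝ) : ℂ) * sB u z)) ball :=
    integrableOn_of_supp (smo_cont (hκB.dd 1)) hρ (dd_supp sκB 1)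
  have n12 : IntegrableOn (fun z => dd 0 (fun z => ((κ z : ℝ) : ℂ) * sA u z) z
      - dd 1 (fun z => ((κ z : ℝ) : ℂ) * sB u z) z) ball := n1.sub n2
  have n3 : IntegrableOn (fun x => sA u x * dd 0 (fun z => ((κ z : ℝ) : ℂ)) x
      - sB u x * dd 1 (fun z => ((κ z : ℝ) : ℂ)) x) ball := by
    refine integrableOn_of_supp
      (((smo_cont hAs).mul (smo_cont (hκ.dd 0))).sub ((smo_cont hBs).mul (smo_cont (hκ.dd 1)))) hρ ?_
    intro z hz h
    by_contra hcon
    apply h
    have h0 : dd 0 (fun z => ((κ z : ℝ) : ℂ)) z = 0 := by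
      by_contra h'
      exact hcon (dd_supp hκs 0 z hz h')
    have h1 : dd 1 (fun z => ((κ z : ℝ) : ℂ)) z = 0 := by
      by_contra h'
      exact hcon (dd_supp hκs 1 z hz h')
    rw [h0, h1, mul_zero, mul_zero, sub_zero]
  have hpt : ∀ z ∈ ball, ((κ z : ℝ) : ℂ) * Hd u z =
      2⁻¹ * ((dd 0 (fun z => ((κ z : ℝ) : ℂ) * sA u z) z
        - dd 1 (fun z => ((κ z : ℝ) : ℂ) * sB u z) z)
        - (sA u z * dd 0 (fun z => ((κ z : ℝ) : ℂ)) z
          - sB u z * dd 1 (fun z => ((κ z : ℝ) : ℂ)) z)) := by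
    intro z hz
    rw [dd_mul (hκ.diffAt hz) (hAs.diffAt hz), dd_mul (hκ.diffAt hz) (hBs.diffAt hz)]
    have h2 := two_Hd hu hz
    have h3 : Hd u z = 2⁻¹ * (dd 0 (sA u) z - dd 1 (sB u) z) := by
      rw [h2]; ring
    rw [h3]
    ring
  rw [setIntegral_congr_fun measurableSet_ball hpt, integral_const_mul,
    integral_sub n12 n3, integral_sub n1 n2, i1, i2, hT]
  simp

end Pool.Agent.H89.SG
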