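import Pool.Agent.H89.SG.HodA
import Pool.Agent.H89.SG.MvpX
import Pool.Agent.H89.SG.Siu

/-!
# HodF: Hodge theorem for functions on the ball

`prim`: a real function `u`, smooth on the ball with `dd i (db j u) = 0`, is the real part of a
holomorphic function. Let `ω z = 2 (dd 0 U z dz_0 + dd 1 U z dz_1)` (a `ℂ`-linear form on `E`).
`dd j U` is smooth and `db i (dd j U) = dd j (db i U) = 0`, so it is holomorphic (`hol_of_db`), and
`dd 0 (dd 1 U) = dd 1 (dd 0 U)` gives the symmetry of `fderiv ℂ ω`. The Poincaré lemma of Mathlib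
(`Convex.exists_forall_hasFDerivAt_of_fderiv_symmetric` over `ℂ`, or over `ℝ`, on the convex open
ball) gives `F` with `HasFDerivAt F (ω z) z`. `F` is smooth: its real derivative is smooth
(`contDiffOn_infty_iff_fderiv_of_isOpen`-type lemma). `Re F - u` has zero derivative on the ball
(`dd_re`), so it is constant; subtract the constant.

`hodge`: `exists_harm` gives `u`. By `siu` `∫ κ Hd U = 0`; `κ Hd U` is real and `≤ 0` on the ball
(`Hd_neg`), continuous, so `κ Hd U = 0` on the ball (`eq_zero_of_setIntegral_zero`), `Hd U = 0` on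
`{nsq ≤ r}`, and by `Hd_comp` (with `U (m g z) = U z + c g`) on the ball. By `Hd_neg`
`dd i (db j U) = 0` on the ball; apply `prim`.
-/

set_option autoImplicit false

namespace Pool.Agent.H89.SG

open Complex MeasureTheory
open scoped ContDiff ComplexConjugate

variable {G : Type} [Group G] {m : G → E → E}

private theorem hodf_smo {u : E → ℝ} (hu : ContDiffOn ℝ ∞ u ball) :
    Smo (fun z => (u z : ℂ)) :=
  Complex.ofRealCLM.contDiff.comp_contDiffOn hu

theorem prim {u : E → ℝ} (hu : ContDiffOn ℝ ∞ u ball)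
    (h : ∀ z ∈ ball, ∀ i j, dd i (db j (fun z => (u z : ℂ))) z = 0) :
    ∃ F : E → ℂ, Hol F ∧ ∀ z ∈ ball, (F z).re = u z := by
  have hU : Smo (fun z => (u z : ℂ)) := hodf_smo hu
  obtain ⟨U, hUe⟩ : ∃ U : E → ℂ, U = fun z => (u z : ℂ) := ⟨_, rfl⟩
  rw [← hUe] at hU h
  have hreal : ∀ z j, db j U z = conj (dd j U z) := by
    intro z j
    by_cases hd : DifferentiableAt ℝ U z
    · have h1 := db_conj (j := j) hd
      have h2 : (fun w => conj (U w)) = U := by
        funext w
        rw [hUe]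
        exact Complex.conj_ofReal _
      rwa [h2] at h1
    · have h1 : fderiv ℝ U z = 0 := fderiv_zero_of_not_differentiableAt hd
      unfold db dd
      rw [h1]
      simp
  have hol : ∀ i, Hol (dd i U) := by
    intro i
    refine hol_of_db (hU.dd i) fun z hz j => ?_
    rw [← dd_db_comm hU hz i j]
    exact h z hz i j
  obtain ⟨om, hom⟩ : ∃ om : E → E →L[ℂ] ℂ, om = fun z =>
      (2 * dd 0 U z) • ContinuousLinearMap.fst ℂ ℂ ℂ +
        (2 * dd 1 U z) • ContinuousLinearMap.snd ℂ ℂ ℂ := ⟨_, rfl⟩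
  have homa : ∀ z v, om z v = 2 * dd 0 U z * v.1 + 2 * dd 1 U z * v.2 := by
    intro z v
    rw [hom]
    rfl
  have hdiff : ∀ i, ∀ z ∈ ball, DifferentiableAt ℝ (dd i U) z := fun i z hz =>
    (hol i).smo.diffAt hz
  have homd : ∀ z ∈ ball, HasFDerivAt om
      (((2 : ℂ) • fderiv ℝ (dd 0 U) z).smulRight (ContinuousLinearMap.fst ℂ ℂ ℂ) +
        ((2 : ℂ) • fderiv ℝ (dd 1 U) z).smulRight (ContinuousLinearMap.snd ℂ ℂ ℂ)) z := by
    intro z hz
    rw [hom]
    have h0 := ((hdiff 0 z hz).hasFDerivAt.const_mul (2 : ℂ)).smul_const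
      (ContinuousLinearMap.fst ℂ ℂ ℂ)
    have h1 := ((hdiff 1 z hz).hasFDerivAt.const_mul (2 : ℂ)).smul_const
      (ContinuousLinearMap.snd ℂ ℂ ℂ)
    exact h0.add h1
  have hsym : ∀ a ∈ ball, ∀ x y, fderiv ℝ om a x y = fderiv ℝ om a y x := by
    intro a ha x y
    rw [(homd a ha).fderiv]
    have e : ∀ x y : E, ((((2 : ℂ) • fderiv ℝ (dd 0 U) a).smulRight
        (ContinuousLinearMap.fst ℂ ℂ ℂ) + ((2 : ℂ) • fderiv ℝ (dd 1 U) a).smulRight
        (ContinuousLinearMap.snd ℂ ℂ ℂ) : E →L[ℝ] E →L[ℂ] ℂ) x) y =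
        2 * fderiv ℝ (dd 0 U) a x * y.1 + 2 * fderiv ℝ (dd 1 U) a x * y.2 := by
      intro x y
      rfl
    rw [e, e, (hol 0).fderiv_eq ha, (hol 1).fderiv_eq ha, (hol 0).fderiv_eq ha,
      (hol 1).fderiv_eq ha, dd_dd_comm hU ha 1 0]
    ring
  obtain ⟨F, hF⟩ := convex_ball.exists_forall_hasFDerivAt_of_fderiv_symmetric isOpen_ball
    (fun z hz => (homd z hz).differentiableAt.differentiableWithinAt) hsym
  have hFr : ∀ z ∈ ball, HasFDerivAt F ((om z).restrictScalars ℝ) z := fun z hz =>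
    (hF z hz).restrictScalars ℝ
  have hFs : ContDiffOn ℝ ∞ F ball := by
    rw [contDiffOn_infty_iff_fderiv_of_isOpen isOpen_ball]
    refine ⟨fun z hz => (hFr z hz).differentiableAt.differentiableWithinAt, ?_⟩
    rw [contDiffOn_clm_apply]
    intro v
    have h1 : ContDiffOn ℝ ∞ (fun z => 2 * dd 0 U z * v.1 + 2 * dd 1 U z * v.2) ball :=
      (((contDiffOn_const.mul (hol 0).1).mul contDiffOn_const).add
        ((contDiffOn_const.mul (hol 1).1).mul contDiffOn_const))
    refine h1.congr fun z hz => ?_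
    rw [(hFr z hz).fderiv]
    exact homa z v
  have hFh : Hol F := ⟨hFs, fun z hz => (hF z hz).differentiableAt.differentiableWithinAt⟩
  have hddF : ∀ z ∈ ball, ∀ j, dd j F z = 2 * dd j U z := by
    intro z hz j
    have h1 : ∀ v : E, dd 0 F z * v.1 + dd 1 F z * v.2 = 2 * dd 0 U z * v.1 + 2 * dd 1 U z * v.2 := by
      intro v
      rw [← hFh.fderiv_eq hz v, (hFr z hz).fderiv]
      exact homa z v
    have h2 := h1 (1, 0)
    have h3 := h1 (0, 1)
    simp only [mul_one, mul_zero, add_zero, zero_add] at h2 h3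
    fin_cases j
    · exact h2
    · exact h3
  obtain ⟨W, hW⟩ : ∃ W : E → ℂ, W = fun z => (((F z).re : ℝ) : ℂ) - U z := ⟨_, rfl⟩
  have hre : ContDiffOn ℝ ∞ (fun z => (F z).re) ball :=
    Complex.reCLM.contDiff.comp_contDiffOn hFs
  have hreS : Smo (fun z => (((F z).re : ℝ) : ℂ)) := hodf_smo hre
  have hWd : ∀ z ∈ ball, DifferentiableAt ℝ W z := fun z hz => by
    rw [hW]
    exact (hreS.diffAt hz).sub (hU.diffAt hz)
  have hW0 : ∀ z ∈ ball, fderiv ℝ W z = 0 := by
    intro z hz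
    have h1 : ∀ j, dd j W z = 0 := fun j => by
      rw [hW, dd_sub (hreS.diffAt hz) (hU.diffAt hz), dd_re hFh hz, hddF z hz j]
      ring
    have h2 : ∀ j, db j W z = 0 := fun j => by
      rw [hW, db_sub (hreS.diffAt hz) (hU.diffAt hz), db_re hFh hz, hddF z hz j, hreal z j,
        map_mul, Complex.conj_ofNat]
      ring
    refine ContinuousLinearMap.ext fun v => ?_
    rw [fderiv_eq W z v, h1 0, h1 1, h2 0, h2 1]
    simp
  have hconst : ∀ z ∈ ball, W z = W 0 := by
    intro z hz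
    exact isOpen_ball.is_const_of_fderiv_eq_zero isPreconnected_ball
      (fun z hz => (hWd z hz).differentiableWithinAt) (fun z hz => hW0 z hz) hz zero_mem_ball
  refine ⟨fun z => F z - W 0, hFh.sub (Hol.const _), fun z hz => ?_⟩
  have h1 := hconst z hz
  have h2 : W z = (((F z).re - u z : ℝ) : ℂ) := by
    rw [hW, hUe]
    push_cast
    rfl
  rw [← h1, h2, Complex.sub_re, Complex.ofReal_re]
  ring

theorem hodge (hA : BAct G m) (c : G → ℝ) (hc : ∀ g h, c (g * h) = c g + c h) :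
    ∃ F : E → ℂ, Hol F ∧ ∀ g, ∀ z ∈ ball, (F (m g z)).re = (F z).re + c g := by
  obtain ⟨u, hu, hue, hav⟩ := exists_harm hA c hc
  obtain ⟨r, ρ, κ, hP⟩ := exists_part hA
  have hU : Smo (fun z => (u z : ℂ)) := hodf_smo hu
  have hUe : ∀ g, ∀ z ∈ ball, (fun z => (u z : ℂ)) (m g z) = (fun z => (u z : ℂ)) z + (c g : ℂ) := by
    intro g z hz
    show ((u (m g z) : ℝ) : ℂ) = (u z : ℂ) + (c g : ℂ)
    rw [hue g z hz]
    push_cast
    rfl
  have hsiu := siu hA hP hU (fun g => (c g : ℂ)) hUe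
  have hneg : ∀ x ∈ ball, (Hd (fun z => (u z : ℂ)) x).im = 0 ∧
      (Hd (fun z => (u z : ℂ)) x).re ≤ 0 ∧ (Hd (fun z => (u z : ℂ)) x = 0 →
        ∀ i j, dd i (db j (fun z => (u z : ℂ))) x = 0) := fun x hx => Hd_neg hu hav hx
  obtain ⟨U, hUU⟩ : ∃ U : E → ℂ, U = fun z => (u z : ℂ) := ⟨_, rfl⟩
  rw [← hUU] at hU hUe hsiu hneg
  have hHc : ContinuousOn (Hd U) ball := by
    unfold Hd
    exact (((hU.db 0).dd 0).continuousOn.mul ((hU.db 1).dd 1).continuousOn).sub
      (((hU.db 1).dd 0).continuousOn.mul ((hU.db 0).dd 1).continuousOn)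
  have hκc : ContinuousOn (fun z => ((κ z : ℝ) : ℂ)) ball :=
    (Complex.continuous_ofReal.comp hP.smooth.continuous).continuousOn
  have hint : IntegrableOn (fun z => ((κ z : ℝ) : ℂ) * Hd U z) ball := by
    refine integrableOn_of_supp (hκc.mul hHc) hP.ρ_lt fun z _ hz => hP.supp z fun h0 => hz ?_
    rw [h0, Complex.ofReal_zero, zero_mul]
  have hcont : ContinuousOn (fun z => -(κ z * (Hd U z).re)) ball :=
    ((hP.smooth.continuous.continuousOn).mul
      (Complex.continuous_re.comp_continuousOn hHc)).neg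
  have hint2 : IntegrableOn (fun z => -(κ z * (Hd U z).re)) ball := by
    refine integrableOn_of_supp hcont hP.ρ_lt fun z _ hz => hP.supp z fun h0 => hz ?_
    rw [h0, zero_mul, neg_zero]
  have hzero : ∫ z in ball, -(κ z * (Hd U z).re) = 0 := by
    have h1 := Complex.reCLM.integral_comp_comm hint
    rw [hsiu] at h1
    have h2 : ∫ z in ball, κ z * (Hd U z).re = 0 := by
      have h3 : (fun z => Complex.reCLM (((κ z : ℝ) : ℂ) * Hd U z)) =
          fun z => κ z * (Hd U z).re := by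
        funext z
        rw [Complex.reCLM_apply, Complex.re_ofReal_mul]
      rw [h3] at h1
      rw [h1, map_zero]
    rw [integral_neg, h2, neg_zero]
  have hall := eq_zero_of_setIntegral_zero hcont (fun z hz =>
    neg_nonneg.2 (mul_nonpos_of_nonneg_of_nonpos (hP.nonneg z) (hneg z hz).2.1)) hint2 hzero
  have hHd : ∀ z ∈ ball, nsq z ≤ r → Hd U z = 0 := by
    intro z hz hzr
    have h1 := hall z hz
    have h2 : κ z * (Hd U z).re = 0 := by linarith
    have h3 : (Hd U z).re = 0 := by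
      rcases mul_eq_zero.1 h2 with h | h
      · exact absurd h (hP.pos z hzr).ne'
      · exact h
    exact Complex.ext h3 (hneg z hz).1
  have hshift : ∀ (g : G) (i j : Fin 2), ∀ z ∈ ball,
      dd i (db j (fun w => U (m g w))) z = dd i (db j U) z := by
    intro g i j z hz
    have h1 : ∀ w ∈ ball, db j (fun w => U (m g w)) w = db j U w := by
      intro w hw
      have h2 : (fun w => U (m g w)) =ᶠ[nhds w] fun w => U w + (c g : ℂ) := by
        filter_upwards [isOpen_ball.mem_nhds hw] with x hx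
        exact hUe g x hx
      rw [db_congr h2, db_add (hU.diffAt hw) (differentiableAt_const _), db_const, add_zero]
    refine dd_congr ?_
    filter_upwards [isOpen_ball.mem_nhds hz] with x hx
    exact h1 x hx
  have hHd' : ∀ z ∈ ball, Hd U z = 0 := by
    intro z hz
    obtain ⟨g, hg⟩ := hP.cover z hz
    have h1 := Hd_comp hU (hA.aut g) hz
    rw [hHd (m g z) (hA.mem g hz) hg, mul_zero] at h1
    have h2 : Hd (fun w => U (m g w)) z = Hd U z := by
      unfold Hd
      rw [hshift g 0 0 z hz, hshift g 1 1 z hz, hshift g 0 1 z hz, hshift g 1 0 z hz]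
    rw [← h2, h1]
  have hdd : ∀ z ∈ ball, ∀ i j, dd i (db j (fun z => (u z : ℂ))) z = 0 := by
    rw [← hUU]
    exact fun z hz => (hneg z hz).2.2 (hHd' z hz)
  obtain ⟨F, hF, hFu⟩ := prim hu hdd
  refine ⟨F, hF, fun g z hz => ?_⟩
  rw [hFu z hz, hFu (m g z) (hA.mem g hz), hue g z hz]

end Pool.Agent.H89.SG
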