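import Pool.Agent.H89.SG.LeafB
import Pool.Agent.H89.SG.Hmx

/-!
# LeafC: saturated sets have infinite energy

Let `A` be open, nonempty, saturated, `A ⊆ ball`, `e z = (En (gr FR z) (gr FR z) z).re ≥ 0`, and
suppose `∫_A e < ∞` (`IntegrableOn e A`). Then `e = 0` on `A`.
Proof. Put `P z = conj (Jc Phi FR z)` (smooth). `Jc P FR = En (gr FR) (gr FR)`: with `F_j = dd j FR`,
`P = db 0 Φ conj F_1 - db 1 Φ conj F_0`, `dd k P = H_k0 conj F_1 - H_k1 conj F_0` (`conj F_j` is
antiholomorphic), `Jc P FR = dd 0 P F_1 - dd 1 P F_0`. And `normSq (Jc Phi FR z) ≤ e z`: by `dd_Phi`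
`Jc Phi FR = (conj z_0 F_1 - conj z_1 F_0) / s`, compare with the second term of `En_self`.
Let `τ : ℝ → ℝ` be smooth, `τ = 1` on `(-∞, 1]`, `τ = 0` on `[2, ∞)`, `0 ≤ τ ≤ 1`, `|τ'| ≤ C`; with
`Φ_r z = - log (1 - nsq z)` (real, `≥ 0`, tends to `∞` at the boundary) put `θ_n = τ(Φ_r / n)`,
smooth on the ball, zero outside `{nsq ≤ 1 - e^{-2n}}`. By `leaf_zero` for `ψ = θ_n P`:
`∫_A θ_n e = ∫_A θ_n Jc P FR = - ∫_A P Jc θ_n FR = - (1/n) ∫_A τ'(Φ_r/n) P Jc Phi FR
= -(1/n) ∫_A τ' normSq (Jc Phi FR)`, which is at most `(C/n) ∫_A e → 0`. By monotone (or dominated)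
convergence `∫_A e = 0`, and `e` is continuous and nonnegative on the open set `A`.
-/

set_option autoImplicit false

namespace Pool.Agent.H89.SG

open Complex MeasureTheory
open scoped ContDiff ComplexConjugate

theorem leafC_conj_Hm {z : E} (hz : z ∈ ball) (k l : Fin 2) : conj (Hm k l z) = Hm l k z := by
  rw [Hm_eq hz, Hm_eq hz, map_add, map_div₀, map_div₀, map_mul, map_pow, Complex.conj_ofReal,
    Complex.conj_conj, mul_comm (co k z)]
  congr 1
  by_cases h : k = l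
  · rw [if_pos h, if_pos h.symm, map_one]
  · rw [if_neg h, if_neg (Ne.symm h), map_zero]

theorem leafC_Smo_Jc {f g : E → ℂ} (hf : Smo f) (hg : Smo g) : Smo (Jc f g) :=
  ((hf.dd 0).mul (hg.dd 1)).sub ((hf.dd 1).mul (hg.dd 0))

theorem leafC_Smo_conj {f : E → ℂ} (hf : Smo f) : Smo (fun z => conj (f z)) :=
  Complex.conjCLE.contDiff.comp_contDiffOn hf

theorem leafC_db_Jc_Phi {FR : E → ℂ} (hFR : Hol FR) {z : E} (hz : z ∈ ball) (k : Fin 2) :
    db k (Jc Phi FR) z = Hm 0 k z * dd 1 FR z - Hm 1 k z * dd 0 FR z := by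
  have hP : ∀ j, DifferentiableAt ℝ (dd j Phi) z := fun j => (Phi_smo.dd j).diffAt hz
  have hF : ∀ j, DifferentiableAt ℝ (dd j FR) z := fun j => (hFR.dd j).1.differentiableOn (by simp) z hz |>.differentiableAt
      (isOpen_ball.mem_nhds hz)
  have h0 : db k (Jc Phi FR) z =
      db k (fun w => dd 0 Phi w * dd 1 FR w - dd 1 Phi w * dd 0 FR w) z := rfl
  rw [h0, db_sub (f := fun w => dd 0 Phi w * dd 1 FR w) (g := fun w => dd 1 Phi w * dd 0 FR w)
    ((hP 0).mul (hF 1)) ((hP 1).mul (hF 0)), db_mul (hP 0) (hF 1), db_mul (hP 1) (hF 0), (hFR.dd 1).db_eq hz, (hFR.dd 0).db_eq hz, ← dd_db_comm Phi_smo hz 0 k,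
    ← dd_db_comm Phi_smo hz 1 k]
  simp only [Hm]
  ring

theorem Jc_conj_Phi {FR : E → ℂ} (hFR : Hol FR) {z : E} (hz : z ∈ ball) :
    Jc (fun w => conj (Jc Phi FR w)) FR z = En (gr FR z) (gr FR z) z := by
  have hJ : DifferentiableAt ℝ (Jc Phi FR) z := (leafC_Smo_Jc Phi_smo hFR.1).diffAt hz
  have h1 : ∀ k, dd k (fun w => conj (Jc Phi FR w)) z =
      Hm k 0 z * conj (dd 1 FR z) - Hm k 1 z * conj (dd 0 FR z) := by
    intro k
    rw [dd_conj hJ, leafC_db_Jc_Phi hFR hz, map_sub, map_mul, map_mul, leafC_conj_Hm hz, leafC_conj_Hm hz]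
  have h2 : Jc (fun w => conj (Jc Phi FR w)) FR z =
      dd 0 (fun w => conj (Jc Phi FR w)) z * dd 1 FR z -
        dd 1 (fun w => conj (Jc Phi FR w)) z * dd 0 FR z := rfl
  rw [h2, h1, h1]
  simp only [En, gr]
  ring

theorem normSq_Jc_Phi_le {FR : E → ℂ} (hFR : Hol FR) {z : E} (hz : z ∈ ball) :
    normSq (Jc Phi FR z) ≤ (En (gr FR z) (gr FR z) z).re := by
  have hs : 0 < 1 - nsq z := by
    have : nsq z < 1 := hz
    linarith
  have h1 : Jc Phi FR z = (conj z.1 * dd 1 FR z - conj z.2 * dd 0 FR z) / ((1 - nsq z : ℝ) : ℂ) := by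
    have h2 : Jc Phi FR z = dd 0 Phi z * dd 1 FR z - dd 1 Phi z * dd 0 FR z := rfl
    rw [h2, dd_Phi hz, dd_Phi hz]
    have c0 : co 0 z = z.1 := if_pos rfl
    have c1 : co 1 z = z.2 := if_neg (by decide)
    rw [c0, c1]
    ring
  rw [En_self hz, Complex.ofReal_re, h1, map_div₀, Complex.normSq_ofReal]
  have h3 : normSq (conj z.1 * dd 1 FR z - conj z.2 * dd 0 FR z) =
      normSq (gr FR z 0 * conj z.2 - gr FR z 1 * conj z.1) := by
    rw [← Complex.normSq_neg]
    congr 1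
    simp only [gr]
    ring
  rw [h3, ← sq]
  have h4 : 0 ≤ (normSq (gr FR z 0) + normSq (gr FR z 1)) / (1 - nsq z) :=
    div_nonneg (add_nonneg (normSq_nonneg _) (normSq_nonneg _)) hs.le
  linarith

/-- a smooth cutoff with bounded derivative -/
theorem leafC_exists_cut : ∃ (τ : ℝ → ℝ) (C : ℝ), ContDiff ℝ ∞ τ ∧ (∀ x, 0 ≤ τ x) ∧ (∀ x, τ x ≤ 1) ∧
    (∀ x, x ≤ 1 → τ x = 1) ∧ (∀ x, 2 ≤ x → τ x = 0) ∧ (∀ x, |deriv τ x| ≤ C) ∧ 0 ≤ C := by
  have hc : ContDiff ℝ ∞ (fun x : ℝ => Real.smoothTransition (2 - x)) :=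
    Real.smoothTransition.contDiff.comp (contDiff_const.sub contDiff_id)
  have h1 : ∀ x : ℝ, x ≤ 1 → Real.smoothTransition (2 - x) = 1 := fun x hx =>
    Real.smoothTransition.one_of_one_le (by linarith)
  have h2 : ∀ x : ℝ, 2 ≤ x → Real.smoothTransition (2 - x) = 0 := fun x hx =>
    Real.smoothTransition.zero_of_nonpos (by linarith)
  have hdc : Continuous (deriv (fun x : ℝ => Real.smoothTransition (2 - x))) :=
    hc.continuous_deriv (by simp)
  obtain ⟨C, hC⟩ := (isCompact_Icc (a := (1 : ℝ)) (b := 2)).exists_bound_of_continuousOn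
    hdc.continuousOn
  have hC0 : 0 ≤ C := le_trans (norm_nonneg _) (hC 1 ⟨le_refl _, by norm_num⟩)
  refine ⟨fun x => Real.smoothTransition (2 - x), C, hc,
    fun x => Real.smoothTransition.nonneg _, fun x => Real.smoothTransition.le_one _, h1, h2, ?_,
    hC0⟩
  intro x
  by_cases hx1 : x < 1
  · have : (fun x : ℝ => Real.smoothTransition (2 - x)) =ᶠ[nhds x] fun _ => 1 := by
      filter_upwards [Iio_mem_nhds hx1] with y hy
      exact h1 y (le_of_lt hy)
    rw [this.deriv_eq, deriv_const, abs_zero]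
    exact hC0
  · by_cases hx2 : 2 < x
    · have : (fun x : ℝ => Real.smoothTransition (2 - x)) =ᶠ[nhds x] fun _ => 0 := by
        filter_upwards [Ioi_mem_nhds hx2] with y hy
        exact h2 y (le_of_lt hy)
      rw [this.deriv_eq, deriv_const, abs_zero]
      exact hC0
    · have := hC x ⟨not_lt.mp hx1, not_lt.mp hx2⟩
      rwa [Real.norm_eq_abs] at this

theorem energy_zero {FR : E → ℂ} (hFR : Hol FR) {A : Set E} (hA : IsOpen A) (hAB : A ⊆ ball)
    (hsat : Satu FR A) (hint : IntegrableOn (fun z => (En (gr FR z) (gr FR z) z).re) A) :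
    ∀ z ∈ A, ∀ j, dd j FR z = 0 := by
  obtain ⟨τ, C, hτ, hτ0, hτ1, hτ2, hτ3, hτ4, hC⟩ := leafC_exists_cut
  set e : E → ℝ := fun z => (En (gr FR z) (gr FR z) z).re with he
  have hEn : ∀ z ∈ ball, En (gr FR z) (gr FR z) z = ((e z : ℝ) : ℂ) := by
    intro z hz
    rw [he]
    simp only
    rw [En_self hz, Complex.ofReal_re]
  have he0 : ∀ z ∈ ball, 0 ≤ e z := fun z hz =>
    le_trans (add_nonneg (normSq_nonneg _) (normSq_nonneg _)) (En_ge hz)
  have hec : ContinuousOn e ball :=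
    Complex.continuous_re.comp_continuousOn (continuousOn_En hFR.1 hFR.1)
  -- the potential
  set u : E → ℝ := fun z => -Real.log (1 - nsq z) with hu
  have hus : ContDiffOn ℝ ∞ u ball := by
    apply ContDiffOn.neg
    apply ContDiffOn.log
    · exact contDiffOn_const.sub contDiff_nsq.contDiffOn
    · intro z hz
      have : nsq z < 1 := hz
      exact ne_of_gt (by linarith)
  have hud : ∀ z ∈ ball, DifferentiableAt ℝ u z := fun z hz =>
    (hus.contDiffAt (isOpen_ball.mem_nhds hz)).differentiableAt (by simp)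
  -- the cutoff functions
  let τn : ℕ → ℝ → ℝ := fun n x => τ (x / (n + 1))
  have hτn : ∀ n, ContDiff ℝ ∞ (τn n) := fun n => hτ.comp (contDiff_id.div_const _)
  have hdτn : ∀ n x, deriv (τn n) x = deriv τ (x / (n + 1)) / (n + 1) := by
    intro n x
    have h1 : HasDerivAt (fun x : ℝ => x / ((n : ℝ) + 1)) (1 / ((n : ℝ) + 1)) x :=
      (hasDerivAt_id x).div_const _
    have h2 : HasDerivAt τ (deriv τ (x / (n + 1))) (x / (n + 1)) :=
      (hτ.differentiable (by simp) _).hasDerivAt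
    have h3 := h2.comp x h1
    have h4 : τn n = τ ∘ fun x : ℝ => x / ((n : ℝ) + 1) := rfl
    rw [h4, h3.deriv]
    ring
  let θ : ℕ → E → ℂ := fun n z => ((τn n (u z) : ℝ) : ℂ)
  let P : E → ℂ := fun z => conj (Jc Phi FR z)
  have hPs : Smo P := leafC_Smo_conj (leafC_Smo_Jc Phi_smo hFR.1)
  have hθs : ∀ n, Smo (θ n) := fun n =>
    Complex.ofRealCLM.contDiff.comp_contDiffOn ((hτn n).comp_contDiffOn hus)
  have hψs : ∀ n, Smo (fun z => θ n z * P z) := fun n => (hθs n).mul hPs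
  have hdθ : ∀ n, ∀ z ∈ ball, ∀ j, dd j (θ n) z = ((deriv (τn n) (u z) : ℝ) : ℂ) * dd j Phi z := by
    intro n z hz j
    exact dd_real_comp (hud z hz) ((hτn n).differentiable (by simp) _)
  have hJ : ∀ n, ∀ z ∈ ball, Jc (fun z => θ n z * P z) FR z =
      ((τn n (u z) * e z + deriv (τn n) (u z) * normSq (Jc Phi FR z) : ℝ) : ℂ) := by
    intro n z hz
    have h1 : ∀ j, dd j (fun z => θ n z * P z) z = dd j (θ n) z * P z + θ n z * dd j P z := fun j =>
      dd_mul ((hθs n).diffAt hz) (hPs.diffAt hz)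
    have h2 : Jc (fun z => θ n z * P z) FR z =
        dd 0 (fun z => θ n z * P z) z * dd 1 FR z - dd 1 (fun z => θ n z * P z) z * dd 0 FR z := rfl
    have h3 : Jc P FR z = ((e z : ℝ) : ℂ) := (Jc_conj_Phi hFR hz).trans (hEn z hz)
    have h4 : Jc P FR z = dd 0 P z * dd 1 FR z - dd 1 P z * dd 0 FR z := rfl
    have h5 : ((normSq (Jc Phi FR z) : ℝ) : ℂ) =
        (dd 0 Phi z * dd 1 FR z - dd 1 Phi z * dd 0 FR z) * P z := by
      rw [Complex.normSq_eq_conj_mul_self, mul_comm]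
      rfl
    rw [h2, h1, h1, hdθ n z hz, hdθ n z hz]
    push_cast
    rw [← h3, h4, h5]
    ring
  have hr : ∀ n : ℕ, (1 - Real.exp (-(2 * ((n : ℝ) + 1))) : ℝ) < 1 := fun n => by
    have := Real.exp_pos (-(2 * ((n : ℝ) + 1)))
    linarith
  have hsupp : ∀ n, ∀ z ∈ ball, (fun z => θ n z * P z) z ≠ 0 →
      nsq z ≤ 1 - Real.exp (-(2 * ((n : ℝ) + 1))) := by
    intro n z hz h
    have hs : 0 < 1 - nsq z := by
      have : nsq z < 1 := hz
      linarith
    by_contra h1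
    apply h
    have h2 : 1 - nsq z < Real.exp (-(2 * ((n : ℝ) + 1))) := by
      have := not_le.mp h1
      linarith
    have h3 : Real.log (1 - nsq z) < -(2 * ((n : ℝ) + 1)) := (Real.log_lt_iff_lt_exp hs).mpr h2
    have h4 : (2 : ℝ) ≤ u z / ((n : ℝ) + 1) := by
      rw [le_div_iff₀ (by positivity)]
      have : u z = -Real.log (1 - nsq z) := rfl
      linarith
    have h5 : τn n (u z) = 0 := hτ3 _ h4
    show ((τn n (u z) : ℝ) : ℂ) * P z = 0
    rw [h5]
    simp
  have hzero : ∀ n, ∫ z in A, Jc (fun z => θ n z * P z) FR z = 0 := fun n =>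
    leaf_zero hFR hA hAB hsat (hψs n) (hr n) (hsupp n)
  have hmeas : ∀ n, AEStronglyMeasurable (fun z => Jc (fun z => θ n z * P z) FR z)
      (volume.restrict A) := fun n =>
    ((leafC_Smo_Jc (hψs n) hFR.1).continuousOn.mono hAB).aestronglyMeasurable hA.measurableSet
  have hbound : ∀ n, ∀ᵐ z ∂(volume.restrict A), ‖Jc (fun z => θ n z * P z) FR z‖ ≤ (1 + C) * e z := by
    intro n
    refine (ae_restrict_iff' hA.measurableSet).mpr (Filter.Eventually.of_forall ?_)
    intro z hzA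
    have hz := hAB hzA
    rw [hJ n z hz, Complex.norm_real, Real.norm_eq_abs]
    have h1 : |τn n (u z) * e z| ≤ e z := by
      rw [abs_mul, abs_of_nonneg (he0 z hz), abs_of_nonneg (hτ0 _)]
      exact mul_le_of_le_one_left (he0 z hz) (hτ1 _)
    have h2 : |deriv (τn n) (u z) * normSq (Jc Phi FR z)| ≤ C * e z := by
      rw [abs_mul, abs_of_nonneg (normSq_nonneg _)]
      refine mul_le_mul ?_ (normSq_Jc_Phi_le hFR hz) (normSq_nonneg _) hC
      rw [hdτn, abs_div, abs_of_pos (by positivity : (0 : ℝ) < (n : ℝ) + 1)]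
      refine (div_le_self (abs_nonneg _) ?_).trans (hτ4 _)
      linarith [(Nat.cast_nonneg n : (0 : ℝ) ≤ n)]
    calc |τn n (u z) * e z + deriv (τn n) (u z) * normSq (Jc Phi FR z)|
        ≤ |τn n (u z) * e z| + |deriv (τn n) (u z) * normSq (Jc Phi FR z)| := abs_add_le _ _
      _ ≤ e z + C * e z := add_le_add h1 h2
      _ = (1 + C) * e z := by ring
  have hlim : ∀ᵐ z ∂(volume.restrict A), Filter.Tendsto
      (fun n => Jc (fun z => θ n z * P z) FR z) Filter.atTop (nhds ((e z : ℝ) : ℂ)) := by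
    refine (ae_restrict_iff' hA.measurableSet).mpr (Filter.Eventually.of_forall ?_)
    intro z hzA
    have hz := hAB hzA
    obtain ⟨N, hN⟩ := exists_nat_gt (u z)
    apply tendsto_const_nhds.congr'
    filter_upwards [Filter.eventually_ge_atTop N] with n hn
    have h1 : u z / ((n : ℝ) + 1) < 1 := by
      rw [div_lt_one (by positivity)]
      have : (N : ℝ) ≤ n := by exact_mod_cast hn
      linarith
    have h2 : τn n (u z) = 1 := hτ2 _ h1.le
    have h3 : deriv (τn n) (u z) = 0 := by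
      rw [hdτn]
      have : τ =ᶠ[nhds (u z / ((n : ℝ) + 1))] fun _ => 1 := by
        filter_upwards [Iio_mem_nhds h1] with y hy
        exact hτ2 y (le_of_lt hy)
      rw [this.deriv_eq, deriv_const, zero_div]
    rw [hJ n z hz, h2, h3]
    simp
  have hlim2 := tendsto_integral_of_dominated_convergence (fun z => (1 + C) * e z) hmeas
    (hint.const_mul (1 + C)) hbound hlim
  simp only [hzero] at hlim2
  have h0 : ∫ z in A, ((e z : ℝ) : ℂ) = 0 := tendsto_nhds_unique hlim2 tendsto_const_nhds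
  have h0' : ∫ z in A, e z = 0 := by
    have h1 : ∫ z in A, ((e z : ℝ) : ℂ) = ((∫ z in A, e z : ℝ) : ℂ) := integral_ofReal
    rw [h1] at h0
    exact_mod_cast h0
  have hnn : 0 ≤ᵐ[volume.restrict A] e :=
    (ae_restrict_iff' hA.measurableSet).mpr (Filter.Eventually.of_forall fun z hz => he0 z (hAB hz))
  have hae : e =ᵐ[volume.restrict A] 0 := (integral_eq_zero_iff_of_nonneg_ae hnn hint).mp h0'
  have heq : Set.EqOn e (fun _ => (0 : ℝ)) A :=
    Measure.eqOn_open_of_ae_eq hae hA (hec.mono hAB) continuousOn_const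
  intro z hz j
  have h1 : e z = 0 := heq hz
  have h2 : normSq (gr FR z 0) + normSq (gr FR z 1) ≤ e z := En_ge (hAB hz)
  have h3 := normSq_nonneg (gr FR z 0)
  have h4 := normSq_nonneg (gr FR z 1)
  have h5 : normSq (gr FR z 0) = 0 := le_antisymm (by linarith) h3
  have h6 : normSq (gr FR z 1) = 0 := le_antisymm (by linarith) h4
  fin_cases j
  · exact normSq_eq_zero.mp h5
  · exact normSq_eq_zero.mp h6

end Pool.Agent.H89.SG
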