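import Pool.Agent.H89.SG.LHod
import Pool.Agent.H89.SG.Hmx
import Pool.Agent.H89.SG.Ident

/-!
# LeafM: finite energy of a set which injects into the quotient

`K` acts (`BAct K m`); `FR` holomorphic with `Re FR ∘ g = Re FR + c g`, so `FR ∘ g = FR + b_g`
(`add_const_of_re`) and the density `e z = (En (gr FR z) (gr FR z) z).re` satisfies
`e (m g z) * normSq (jac (m g) z) = e z` (`En_comp`; adding a constant does not change `gr`).
Let `D = {nsq ≤ R}`, `R < 1`, whose translates cover the ball (`cc`), and let `A ⊆ ball` be open with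
`m g '' A ∩ A = ∅` for `g ≠ 1`. Then `∫⁻_A e ≤ ∑_g ∫⁻_{A ∩ m g⁻¹ D} e = ∑_g ∫⁻_{m g A ∩ D} e ≤ ∫⁻_D e`:
the first step is the cover (`K` is countable: it is the union over `r = 1 - 1/n` of the finite
sets of `pd`), the second is the change of variables (`lintegral_comp` with the indicator of
`m g '' A ∩ D`), the third uses that the sets `m g '' A` are pairwise disjoint. `e` is continuous
on the ball, so `∫⁻_D e < ∞`.
-/

set_option autoImplicit false

namespace Pool.Agent.H89.SG

open Complex MeasureTheory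
open scoped ContDiff ComplexConjugate

private theorem lm_countable {K : Type} [Group K] {m : K → E → E} (hA : BAct K m) :
    Countable K := by
  rw [← Set.countable_univ_iff]
  have hcov : (Set.univ : Set K) ⊆
      ⋃ n : ℕ, {g : K | ∃ z, nsq z ≤ 1 - 1 / ((n : ℝ) + 1) ∧ nsq (m g z) ≤ 1 - 1 / ((n : ℝ) + 1)} := by
    intro g _
    have h1 : nsq (m g 0) < 1 := hA.mem g zero_mem_ball
    obtain ⟨n, hn⟩ := exists_nat_one_div_lt (sub_pos.2 h1)
    have h2 := nsq_nonneg (m g 0)
    refine Set.mem_iUnion.2 ⟨n, 0, ?_, ?_⟩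
    · rw [nsq_zero]
      linarith
    · linarith
  refine Set.Countable.mono hcov (Set.countable_iUnion fun n => ?_)
  exact (hA.pd _ (by
    have : (0 : ℝ) < 1 / ((n : ℝ) + 1) := by positivity
    linarith)).countable

private theorem lm_inv {K : Type} [Group K] {m : K → E → E} (hA : BAct K m) {FR : E → ℂ}
    (hFR : Hol FR) (hper : ∀ g : K, ∃ c : ℝ, ∀ z ∈ ball, (FR (m g z)).re = (FR z).re + c)
    (g : K) {z : E} (hz : z ∈ ball) :
    (En (gr FR z) (gr FR z) z).re =
      normSq (jac (m g) z) * (En (gr FR (m g z)) (gr FR (m g z)) (m g z)).re := by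
  obtain ⟨c, hc⟩ := hper g
  obtain ⟨b, -, hb⟩ := add_const_of_re hFR (hFR.comp (hA.aut g)) hc
  have hgr : gr (fun w => FR (m g w)) z = gr FR z := by
    funext j
    unfold gr
    have hev : (fun w => FR (m g w)) =ᶠ[nhds z] fun w => FR w + b := by
      filter_upwards [isOpen_ball.mem_nhds hz] with w hw
      exact hb w hw
    rw [dd_congr hev, dd_add (hFR.smo.diffAt hz) (differentiableAt_const _), dd_const, add_zero]
  have h := En_comp hFR.smo hFR.smo (hA.aut g) hz
  rw [hgr] at h
  rw [h, Complex.re_ofReal_mul]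

theorem finite_energy {K : Type} [Group K] {m : K → E → E} (hA : BAct K m) {FR : E → ℂ}
    (hFR : Hol FR) (hper : ∀ g : K, ∃ c : ℝ, ∀ z ∈ ball, (FR (m g z)).re = (FR z).re + c)
    {A : Set E} (hAo : IsOpen A) (hAB : A ⊆ ball)
    (hdisj : ∀ g : K, g ≠ 1 → ∀ z ∈ A, m g z ∉ A) :
    IntegrableOn (fun z => (En (gr FR z) (gr FR z) z).re) A := by
  have hK : Countable K := lm_countable hA
  set e : E → ℝ := fun z => (En (gr FR z) (gr FR z) z).re with he
  have hec : ContinuousOn e ball :=
    Complex.continuous_re.comp_continuousOn (continuousOn_En hFR.smo hFR.smo)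
  have he0 : ∀ z ∈ ball, 0 ≤ e z := by
    intro z hz
    have h1 := En_ge (a := gr FR z) hz
    have h2 := normSq_nonneg (gr FR z 0)
    have h3 := normSq_nonneg (gr FR z 1)
    have h4 : e z = (En (gr FR z) (gr FR z) z).re := rfl
    rw [h4]
    linarith
  obtain ⟨R, hR, hcov⟩ := hA.cc
  set D : Set E := {z | nsq z ≤ R} with hD
  have hDc : IsCompact D := isCompact_nsq_le R
  have hDB : D ⊆ ball := nsq_le_subset_ball hR
  have hDfin : ∫⁻ z in D, ENNReal.ofReal (e z) < ⊤ :=
    ((hec.mono hDB).integrableOn_compact hDc).lintegral_lt_top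
  -- the pieces
  set Ag : K → Set E := fun g => A \ (ball ∩ (m g) ⁻¹' Dᶜ) with hAg
  set Bg : K → Set E := fun g => (ball ∩ (m g⁻¹) ⁻¹' A) ∩ D with hBg
  have hcont : ∀ g, ContinuousOn (m g) ball := fun g => (hA.aut g).smooth.continuousOn
  have hAgm : ∀ g, MeasurableSet (Ag g) := fun g =>
    hAo.measurableSet.diff
      ((hcont g).isOpen_inter_preimage isOpen_ball hDc.isClosed.isOpen_compl).measurableSet
  have hBgm : ∀ g, MeasurableSet (Bg g) := fun g =>
    ((hcont g⁻¹).isOpen_inter_preimage isOpen_ball hAo).measurableSet.inter hDc.measurableSet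
  have hpiece : ∀ g, ∫⁻ z in Ag g, ENNReal.ofReal (e z) = ∫⁻ z in Bg g, ENNReal.ofReal (e z) := by
    intro g
    have h1 := lintegral_comp (hA.aut g) ((Bg g).indicator fun z => ENNReal.ofReal (e z))
    have h2 : ∫⁻ z in ball, ENNReal.ofReal (normSq (jac (m g) z)) *
        ((Bg g).indicator (fun z => ENNReal.ofReal (e z)) (m g z)) =
        ∫⁻ z in ball, (Ag g).indicator (fun z => ENNReal.ofReal (e z)) z := by
      refine setLIntegral_congr_fun measurableSet_ball fun z hz => ?_
      have hiff : m g z ∈ Bg g ↔ z ∈ Ag g := by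
        constructor
        · rintro ⟨⟨_, h4⟩, h5⟩
          have h6 : m g⁻¹ (m g z) ∈ A := h4
          rw [hA.inv_left g hz] at h6
          exact ⟨h6, fun h7 => h7.2 h5⟩
        · rintro ⟨h3, h4⟩
          refine ⟨⟨hA.mem g hz, ?_⟩, ?_⟩
          · show m g⁻¹ (m g z) ∈ A
            rw [hA.inv_left g hz]
            exact h3
          · by_contra h5
            exact h4 ⟨hz, h5⟩
      by_cases hz' : z ∈ Ag g
      · simp only [Set.indicator_of_mem hz', Set.indicator_of_mem (hiff.2 hz')]
        rw [← ENNReal.ofReal_mul (normSq_nonneg _)]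
        congr 1
        exact (lm_inv hA hFR hper g hz).symm
      · have hz'' : m g z ∉ Bg g := fun h => hz' (hiff.1 h)
        simp only [Set.indicator_of_notMem hz', Set.indicator_of_notMem hz'', mul_zero]
    rw [h2, lintegral_indicator (hAgm g), lintegral_indicator (hBgm g),
      Measure.restrict_restrict (hAgm g), Measure.restrict_restrict (hBgm g)] at h1
    have hs1 : Ag g ∩ ball = Ag g :=
      Set.inter_eq_left.2 fun z hz => hAB hz.1
    have hs2 : Bg g ∩ ball = Bg g :=
      Set.inter_eq_left.2 fun z hz => hz.1.1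
    rw [hs1, hs2] at h1
    exact h1
  have hBdisj : Pairwise (Function.onFun Disjoint Bg) := by
    intro g h hgh
    refine Set.disjoint_left.2 ?_
    rintro w ⟨⟨hw, h1⟩, _⟩ ⟨⟨_, h2⟩, _⟩
    have h1' : m g⁻¹ w ∈ A := h1
    have h2' : m h⁻¹ w ∈ A := h2
    have hne : h⁻¹ * g ≠ 1 := by
      intro h3
      exact hgh (inv_mul_eq_one.1 h3).symm
    have h4 := hdisj (h⁻¹ * g) hne _ h1'
    rw [hA.mul _ _ _ (hAB h1'), hA.inv_right g hw] at h4
    exact h4 h2'
  have hcover : A ⊆ ⋃ g, Ag g := by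
    intro z hz
    obtain ⟨g, hg⟩ := hcov z (hAB hz)
    exact Set.mem_iUnion.2 ⟨g, hz, fun h => h.2 hg⟩
  have hfin : ∫⁻ z in A, ENNReal.ofReal (e z) < ⊤ := by
    calc ∫⁻ z in A, ENNReal.ofReal (e z) ≤ ∫⁻ z in ⋃ g, Ag g, ENNReal.ofReal (e z) :=
          lintegral_mono_set hcover
      _ ≤ ∑' g, ∫⁻ z in Ag g, ENNReal.ofReal (e z) := lintegral_iUnion_le _ _
      _ = ∑' g, ∫⁻ z in Bg g, ENNReal.ofReal (e z) := by
          congr 1
          funext g
          exact hpiece g
      _ = ∫⁻ z in ⋃ g, Bg g, ENNReal.ofReal (e z) := (lintegral_iUnion hBgm hBdisj _).symm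
      _ ≤ ∫⁻ z in D, ENNReal.ofReal (e z) :=
          lintegral_mono_set (Set.iUnion_subset fun g z hz => hz.2)
      _ < ⊤ := hDfin
  refine ⟨(hec.mono hAB).aestronglyMeasurable hAo.measurableSet, ?_⟩
  rw [hasFiniteIntegral_iff_ofReal]
  · exact hfin
  · rw [Filter.EventuallyLE, ae_restrict_iff' hAo.measurableSet]
    exact Filter.Eventually.of_forall fun z hz => he0 z (hAB hz)

end Pool.Agent.H89.SG
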