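import Pool.Agent.H89.SG.NiceB
import Pool.Agent.H89.SG.LeafC
import Pool.Agent.H89.SG.LeafM

/-!
# Leaf: the leaf lemma

`K` acts (`BAct K m`), `FR`, `F'` holomorphic, `Jc F' FR = 0`, `Re FR ∘ g - Re FR ∈ ℓ ℤ`,
`Re F' ∘ g - Re F' ∈ ℓ' ℤ` for `g ∈ K`, and at `x₀` `Im (dd j F' conj (dd j FR)) ≠ 0`.
Let `V` be an open set around `x₀` on which `Re FR` varies by less than `ℓ` and `Re F'` by less than
`ℓ'`, `O₀ ⊆ V` given by `exists_base`, `A = {x | Sat FR O₀ x}`: open, contained in the ball,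
saturated (`Sat.step`). If `m g z ∉ A` for all `z ∈ A`, `g ≠ 1`, then by `finite_energy` and
`energy_zero` `dd j FR = 0` on `A ∋ x₀`, a contradiction. So there are `g ≠ 1` and `p ∈ A` with
`m g p ∈ A`. The set `W` of such `p` (for this `g`) is open and nonempty. For `p ∈ W` let
`o₁, o₂ ∈ O₀` be given by `Sat_val` for `p` and `m g p`. `FR`, `F'` are in the class, so
`Re FR o₂ - Re FR o₁ = Re FR (m g p) - Re FR p ∈ ℓ ℤ` has absolute value `< ℓ`, hence is `0`, and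
the same for `F'`; by the property of `O₀` `FR o₁ = FR o₂`, and by `Nice.leaf` `F o₁ = F o₂`, that is
`F (m g p) = F p`, for every `F` of the class. So `F ∘ m g - F` vanishes on `W`, hence on the ball
(`ident`).
-/

set_option autoImplicit false

namespace Pool.Agent.H89.SG

open Complex MeasureTheory
open scoped ContDiff ComplexConjugate

theorem leaf {K : Type} [Group K] {m : K → E → E} (hA : BAct K m) {FR F' : E → ℂ}
    (hFR : Hol FR) (hF' : Cls FR F') {ℓ ℓ' : ℝ} (hℓ : 0 < ℓ) (hℓ' : 0 < ℓ')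
    (hper : ∀ g : K, ∃ n : ℤ, ∀ z ∈ ball, (FR (m g z)).re = (FR z).re + n * ℓ)
    (hper' : ∀ g : K, ∃ n : ℤ, ∀ z ∈ ball, (F' (m g z)).re = (F' z).re + n * ℓ')
    {x₀ : E} (hx₀ : x₀ ∈ ball) (htw : ∃ j, (dd j F' x₀ * conj (dd j FR x₀)).im ≠ 0) :
    ∃ g : K, g ≠ 1 ∧ ∀ F, Cls FR F → ∀ z ∈ ball, F (m g z) = F z := by
  classical
  have hFR' : Cls FR FR := ⟨hFR, fun z _ => by simp only [Jc]; ring⟩
  -- a real lemma on multiples
  have small : ∀ {l a b : ℝ} {n : ℤ}, 0 < l → a = b + n * l → |a - b| < l → a = b := by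
    intro l a b n hl h1 h2
    have h3 : a - b = n * l := by linarith
    rw [h3, abs_mul, abs_of_pos hl] at h2
    have h4 : |(n : ℝ)| < 1 := by
      by_contra h5
      have h6 : 1 ≤ |(n : ℝ)| := not_lt.mp h5
      nlinarith
    have h5 : |n| < 1 := by exact_mod_cast h4
    have h6 : n = 0 := Int.abs_lt_one_iff.mp h5
    rw [h1, h6]; simp
  -- the neighbourhood
  have hc1 : ContinuousOn (fun z => |(FR z).re - (FR x₀).re|) ball :=
    ((Complex.continuous_re.comp_continuousOn hFR.1.continuousOn).sub continuousOn_const).abs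
  have hc2 : ContinuousOn (fun z => |(F' z).re - (F' x₀).re|) ball :=
    ((Complex.continuous_re.comp_continuousOn hF'.1.1.continuousOn).sub continuousOn_const).abs
  have hV1 : IsOpen (ball ∩ (fun z => |(FR z).re - (FR x₀).re|) ⁻¹' Set.Iio (ℓ / 2)) :=
    hc1.isOpen_inter_preimage isOpen_ball isOpen_Iio
  have hV2 : IsOpen (ball ∩ (fun z => |(F' z).re - (F' x₀).re|) ⁻¹' Set.Iio (ℓ' / 2)) :=
    hc2.isOpen_inter_preimage isOpen_ball isOpen_Iio
  obtain ⟨O, hxO, hOV, hO, hO'⟩ := exists_base hFR hF' hx₀ htw (hV1.inter hV2)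
    ⟨⟨hx₀, by simpa using hℓ⟩, ⟨hx₀, by simpa using hℓ'⟩⟩
  have hd1 : ∀ x ∈ O, |(FR x).re - (FR x₀).re| < ℓ / 2 := fun x hx => (hOV hx).1.2
  have hd2 : ∀ x ∈ O, |(F' x).re - (F' x₀).re| < ℓ' / 2 := fun x hx => (hOV hx).2.2
  have hAo : IsOpen {x | Sat FR O x} := Sat_open hFR hO
  have hAB : {x | Sat FR O x} ⊆ ball := fun x hx => Sat_sub hO hx
  have hsat : Satu FR {x | Sat FR O x} := fun O' hO' x hx x' hx' hF h =>
    Sat.step hO' hx hx' hF h
  have key : ∃ g : K, g ≠ 1 ∧ ∃ z, Sat FR O z ∧ Sat FR O (m g z) := by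
    by_contra hno
    have hno' : ∀ g : K, g ≠ 1 → ∀ z ∈ {x | Sat FR O x}, m g z ∉ {x | Sat FR O x} := by
      intro g hg z hz hz'
      exact hno ⟨g, hg, z, hz, hz'⟩
    have hint := finite_energy hA hFR (fun g => by
      obtain ⟨n, hn⟩ := hper g
      exact ⟨n * ℓ, hn⟩) hAo hAB hno'
    have h0 := energy_zero hFR hAo hAB hsat hint x₀ (Sat.base hxO)
    obtain ⟨j, hj⟩ := htw
    apply hj
    rw [h0 j]
    simp
  obtain ⟨g, hg, p, hp, hp'⟩ := key
  refine ⟨g, hg, ?_⟩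
  obtain ⟨n, hn⟩ := hper g
  obtain ⟨n', hn'⟩ := hper' g
  have hgc : ContinuousOn (m g) ball := (hA.aut g).smooth.continuousOn
  have hWo : IsOpen ({x | Sat FR O x} ∩ m g ⁻¹' {x | Sat FR O x}) :=
    (hgc.mono hAB).isOpen_inter_preimage hAo hAo
  intro F hF
  have hFc : Hol (fun z => F (m g z) - F z) := (hF.1.comp (hA.aut g)).sub hF.1
  have hz : ∀ z ∈ ({x | Sat FR O x} ∩ m g ⁻¹' {x | Sat FR O x}), F (m g z) - F z = 0 := by
    rintro z ⟨hz1, hz2⟩
    obtain ⟨o1, ho1, h1⟩ := Sat_val hz1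
    obtain ⟨o2, ho2, h2⟩ := Sat_val hz2
    have hzb : z ∈ ball := hAB hz1
    have e1 : (FR o2).re = (FR o1).re + n * ℓ := by
      rw [← h1 FR hFR', ← h2 FR hFR', hn z hzb]
    have e2 : (F' o2).re = (F' o1).re + n' * ℓ' := by
      rw [← h1 F' hF', ← h2 F' hF', hn' z hzb]
    have a1 := abs_lt.mp (hd1 o1 ho1)
    have a2 := abs_lt.mp (hd1 o2 ho2)
    have b1 := abs_lt.mp (hd2 o1 ho1)
    have b2 := abs_lt.mp (hd2 o2 ho2)
    have e3 : (FR o2).re = (FR o1).re :=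
      small hℓ e1 (abs_lt.mpr ⟨by linarith [a1.1, a1.2, a2.1, a2.2],
        by linarith [a1.1, a1.2, a2.1, a2.2]⟩)
    have e4 : (F' o2).re = (F' o1).re :=
      small hℓ' e2 (abs_lt.mpr ⟨by linarith [b1.1, b1.2, b2.1, b2.2],
        by linarith [b1.1, b1.2, b2.1, b2.2]⟩)
    have e5 : FR o2 = FR o1 := hO' o2 ho2 o1 ho1 e3 e4
    have e6 : F o2 = F o1 := hO.leaf F hF o2 ho2 o1 ho1 e5
    rw [h1 F hF, h2 F hF, e6, sub_self]
  intro z hzb
  have := ident hFc hWo (fun z hz => hAB hz.1) ⟨p, hp, hp'⟩ hz z hzb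
  exact sub_eq_zero.mp this

end Pool.Agent.H89.SG
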