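import Pool.Agent.H89.SG.SatD
import Pool.Agent.H89.SG.Ibp

/-!
# LeafA: the leafwise field has zero flux on saturated sets, local form

`O` nice, `A ⊆ ball` open and saturated in `O`; `ψ` smooth on the ball, zero on the ball outside a
compact set `K ⊆ O`. Let `T = FR '' (A ∩ O)`, open; `A ∩ O = {x ∈ O | FR x ∈ T}`.
For `q : ℂ → ℝ` smooth, `Jc (q(FR) ψ) FR = q(FR) Jc ψ FR` (because `dd j (q ∘ FR) = q_w(FR) dd j FR`,
`q_w = ∂q/∂w`: the term `q_{\bar w} dd j (conj FR)` vanishes as `conj FR` is antiholomorphic; so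
`Jc (q ∘ FR) FR = 0`), and `∫_ball Jc g FR = ∫ dd 0 (g dd 1 FR) - dd 1 (g dd 0 FR) = 0` for `g` smooth
with compact support (`integral_dd`, `dd_dd_comm`). So `∫_ball q(FR) Jc ψ FR = 0`.
Choose smooth `q_n : ℂ → [0, 1]` converging pointwise to the indicator function of the open set `T`
(for example `exists_contDiff_support_eq...`: a smooth `s ≥ 0` with support exactly `T`,
`q_n = smoothTransition (n s)`). Dominated convergence: `∫_ball 1_T(FR) Jc ψ FR = 0`. The integrand
vanishes outside `K ⊆ O` and there `1_T (FR x) = 1_A x`.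
-/

set_option autoImplicit false

namespace Pool.Agent.H89.SG

open Complex MeasureTheory
open scoped ContDiff ComplexConjugate

/-- `A` is saturated in nice sets -/
def Satu (FR : E → ℂ) (A : Set E) : Prop :=
  ∀ O, Nice FR O → ∀ x ∈ O, ∀ x' ∈ O, FR x = FR x' → x ∈ A → x' ∈ A

theorem integral_Jc {FR g : E → ℂ} (hFR : Hol FR) (hg : Smo g) {r : ℝ} (hr : r < 1)
    (hs : ∀ z ∈ ball, g z ≠ 0 → nsq z ≤ r) : ∫ z in ball, Jc g FR z = 0 := by
  have h1 : Smo (fun z => g z * dd 1 FR z) := ContDiffOn.mul hg (hFR.smo.dd 1)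
  have h0 : Smo (fun z => g z * dd 0 FR z) := ContDiffOn.mul hg (hFR.smo.dd 0)
  have s1 : ∀ z ∈ ball, g z * dd 1 FR z ≠ 0 → nsq z ≤ r :=
    fun z hz h => hs z hz (left_ne_zero_of_mul h)
  have s0 : ∀ z ∈ ball, g z * dd 0 FR z ≠ 0 → nsq z ≤ r :=
    fun z hz h => hs z hz (left_ne_zero_of_mul h)
  have e : Set.EqOn (Jc g FR) (fun z => dd 0 (fun z => g z * dd 1 FR z) z -
      dd 1 (fun z => g z * dd 0 FR z) z) ball := by
    intro z hz
    simp only
    rw [dd_mul (hg.diffAt hz) ((hFR.smo.dd 1).diffAt hz),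
      dd_mul (hg.diffAt hz) ((hFR.smo.dd 0).diffAt hz), dd_dd_comm hFR.smo hz 0 1]
    unfold Jc
    ring
  rw [setIntegral_congr_fun measurableSet_ball e, integral_sub, integral_dd h1 hr s1,
    integral_dd h0 hr s0, sub_zero]
  · exact integrableOn_of_supp (h1.dd 0).continuousOn hr (dd_supp s1 0)
  · exact integrableOn_of_supp (h0.dd 1).continuousOn hr (dd_supp s0 1)

theorem exists_dd_comp {FR : E → ℂ} (hFR : Hol FR) {q : ℂ → ℝ} (hq : ContDiff ℝ ∞ q) {z : E}
    (hz : z ∈ ball) : ∃ a : ℂ, ∀ j, dd j (fun w => ((q (FR w) : ℝ) : ℂ)) z = a * dd j FR z := by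
  set L : ℂ →L[ℝ] ℝ := fderiv ℝ q (FR z) with hL
  have hqd : DifferentiableAt ℝ q (FR z) := (hq.differentiable (by simp)).differentiableAt
  have h1 : HasFDerivAt (fun w => ((q (FR w) : ℝ) : ℂ))
      (ofRealCLM.comp (L.comp (fderiv ℝ FR z))) z :=
    ofRealCLM.hasFDerivAt.comp z (hqd.hasFDerivAt.comp z (hFR.smo.diffAt hz).hasFDerivAt)
  have hLv : ∀ w : ℂ, L w = w.re * L 1 + w.im * L I := by
    intro w
    have hw : w = w.re • (1 : ℂ) + w.im • I := by
      apply Complex.ext <;> simp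
    conv_lhs => rw [hw]
    rw [map_add, map_smul, map_smul, smul_eq_mul, smul_eq_mul]
  refine ⟨((L 1 : ℝ) - I * (L I : ℝ)) / 2, fun j => ?_⟩
  have hb : fderiv ℝ FR z (bs j) = dd j FR z := by
    rw [hFR.fderiv_eq hz]
    fin_cases j <;> simp [bs]
  have hIb : fderiv ℝ FR z (I • bs j) = I * dd j FR z := by
    rw [hFR.fderiv_eq hz]
    fin_cases j <;> simp [bs, mul_comm]
  have e : dd j (fun w => ((q (FR w) : ℝ) : ℂ)) z =
      (((L (dd j FR z) : ℝ) : ℂ) - I * ((L (I * dd j FR z) : ℝ) : ℂ)) / 2 := by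
    change (fderiv ℝ (fun w => ((q (FR w) : ℝ) : ℂ)) z (bs j) -
      I * fderiv ℝ (fun w => ((q (FR w) : ℝ) : ℂ)) z (I • bs j)) / 2 = _
    rw [h1.fderiv]
    simp only [ContinuousLinearMap.comp_apply, ofRealCLM_apply, hb, hIb]
  rw [e, hLv (dd j FR z), hLv (I * dd j FR z)]
  have hre : (I * dd j FR z).re = -(dd j FR z).im := by simp
  have him : (I * dd j FR z).im = (dd j FR z).re := by simp
  rw [hre, him]
  have hF : dd j FR z = (dd j FR z).re + (dd j FR z).im * I := (re_add_im _).symm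
  conv_rhs => rw [hF]
  push_cast
  linear_combination (((dd j FR z).im : ℂ) * (L I : ℂ) / 2) * I_sq

theorem Jc_comp_mul {FR ψ : E → ℂ} (hFR : Hol FR) (hψ : Smo ψ) {q : ℂ → ℝ}
    (hq : ContDiff ℝ ∞ q) {z : E} (hz : z ∈ ball) :
    Jc (fun w => ((q (FR w) : ℝ) : ℂ) * ψ w) FR z = ((q (FR z) : ℝ) : ℂ) * Jc ψ FR z := by
  obtain ⟨a, ha⟩ := exists_dd_comp hFR hq hz
  have hd : DifferentiableAt ℝ (fun w => ((q (FR w) : ℝ) : ℂ)) z := by
    have hqd : DifferentiableAt ℝ q (FR z) := (hq.differentiable (by simp)).differentiableAt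
    exact (ofRealCLM.hasFDerivAt.comp z
      (hqd.hasFDerivAt.comp z (hFR.smo.diffAt hz).hasFDerivAt)).differentiableAt
  unfold Jc
  rw [dd_mul hd (hψ.diffAt hz), dd_mul hd (hψ.diffAt hz), ha, ha]
  ring

theorem leaf_local {FR : E → ℂ} (hFR : Hol FR) {A O : Set E} (hA : IsOpen A) (hAB : A ⊆ ball)
    (hsat : Satu FR A) (hO : Nice FR O) {ψ : E → ℂ} (hψ : Smo ψ) {K : Set E} (hK : IsCompact K)
    (hKO : K ⊆ O) (hs : ∀ z ∈ ball, z ∉ K → ψ z = 0) : ∫ z in A, Jc ψ FR z = 0 := by
  classical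
  -- a radius
  obtain ⟨r, hr, hKr⟩ : ∃ r : ℝ, r < 1 ∧ ∀ z ∈ K, nsq z ≤ r := by
    rcases K.eq_empty_or_nonempty with h | h
    · exact ⟨0, one_pos, by rw [h]; simp⟩
    · obtain ⟨z, hz, hmax⟩ := hK.exists_isMaxOn h continuous_nsq.continuousOn
      exact ⟨nsq z, hO.sub (hKO hz), fun w hw => hmax hw⟩
  have hsupp : ∀ z ∈ ball, ψ z ≠ 0 → nsq z ≤ r := by
    intro z hz h
    by_contra h'
    exact h (hs z hz fun hzK => h' (hKr z hzK))
  have hJs : ∀ z ∈ ball, z ∉ K → Jc ψ FR z = 0 := by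
    intro z hz hzK
    have hev : ψ =ᶠ[nhds z] fun _ => (0 : ℂ) := by
      filter_upwards [isOpen_ball.mem_nhds hz, hK.isClosed.isOpen_compl.mem_nhds hzK] with w hw hwK
      exact hs w hw hwK
    unfold Jc
    rw [dd_congr hev, dd_congr hev, dd_const, dd_const]
    ring
  have hJc : ContinuousOn (Jc ψ FR) ball := by
    have : Smo (Jc ψ FR) := ContDiffOn.sub (ContDiffOn.mul (hψ.dd 0) (hFR.smo.dd 1))
      (ContDiffOn.mul (hψ.dd 1) (hFR.smo.dd 0))
    exact this.continuousOn
  have hJi : IntegrableOn (Jc ψ FR) ball := by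
    refine integrableOn_of_supp hJc hr ?_
    intro z hz h
    by_contra h'
    exact h (hJs z hz fun hzK => h' (hKr z hzK))
  -- the open image
  set T : Set ℂ := FR '' (A ∩ O) with hT
  have hTo : IsOpen T := hO.openMap _ Set.inter_subset_right (hA.inter hO.isOpen)
  have hAT : ∀ z ∈ O, (FR z ∈ T ↔ z ∈ A) := by
    intro z hz
    constructor
    · rintro ⟨a, ⟨ha, haO⟩, hfa⟩
      exact hsat O hO a haO z hz hfa ha
    · intro hzA
      exact ⟨z, ⟨hzA, hz⟩, rfl⟩
  obtain ⟨s, hs1, hs2, hs3⟩ := hTo.exists_contDiff_support_eq (n := ⊤)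
  have hs0 : ∀ w, 0 ≤ s w := fun w => (hs3 (Set.mem_range_self w)).1
  set q : ℕ → ℂ → ℝ := fun n w => Real.smoothTransition (n * s w) with hq
  have hqs : ∀ n, ContDiff ℝ ∞ (q n) := by
    intro n
    have h1 : ContDiff ℝ ∞ (fun w => (n : ℝ) * s w) := contDiff_const.mul hs2
    exact Real.smoothTransition.contDiff.comp h1
  have hz0 : ∀ n, ∫ z in ball, ((q n (FR z) : ℝ) : ℂ) * Jc ψ FR z = 0 := by
    intro n
    have hg : Smo (fun w => ((q n (FR w) : ℝ) : ℂ) * ψ w) := by
      have h1 : Smo (fun w => ((q n (FR w) : ℝ) : ℂ)) :=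
        (ofRealCLM.contDiff.comp (hqs n)).comp_contDiffOn hFR.smo
      exact ContDiffOn.mul h1 hψ
    have h2 := integral_Jc hFR hg hr
      (fun z hz h => hsupp z hz (right_ne_zero_of_mul h))
    rw [← h2]
    refine setIntegral_congr_fun measurableSet_ball fun z hz => ?_
    exact (Jc_comp_mul hFR hψ (hqs n) hz).symm
  have hlim : Filter.Tendsto (fun n => ∫ z in ball, ((q n (FR z) : ℝ) : ℂ) * Jc ψ FR z)
      Filter.atTop (nhds (∫ z in ball, T.indicator (fun _ => (1 : ℂ)) (FR z) * Jc ψ FR z)) := by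
    refine tendsto_integral_of_dominated_convergence (fun z => ‖Jc ψ FR z‖) ?_ hJi.norm ?_ ?_
    · intro n
      have h1 : ContinuousOn (fun z => ((q n (FR z) : ℝ) : ℂ) * Jc ψ FR z) ball := by
        refine ContinuousOn.mul ?_ hJc
        exact (ofRealCLM.continuous.comp (hqs n).continuous).comp_continuousOn
          hFR.smo.continuousOn
      exact h1.aestronglyMeasurable measurableSet_ball
    · intro n
      refine Filter.Eventually.of_forall fun z => ?_
      rw [norm_mul]
      have h1 : ‖((q n (FR z) : ℝ) : ℂ)‖ ≤ 1 := by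
        rw [norm_real, Real.norm_eq_abs, abs_of_nonneg (Real.smoothTransition.nonneg _)]
        exact Real.smoothTransition.le_one _
      calc _ ≤ 1 * ‖Jc ψ FR z‖ := mul_le_mul_of_nonneg_right h1 (norm_nonneg _)
        _ = _ := one_mul _
    · refine Filter.Eventually.of_forall fun z => ?_
      refine Filter.Tendsto.mul_const _ ?_
      by_cases hz : FR z ∈ T
      · rw [Set.indicator_of_mem hz]
        have hpos : 0 < s (FR z) := by
          have h1 : FR z ∈ Function.support s := by rw [hs1]; exact hz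
          exact lt_of_le_of_ne (hs0 _) (Ne.symm h1)
        refine tendsto_const_nhds.congr' ?_
        obtain ⟨N, hN⟩ := exists_nat_gt (1 / s (FR z))
        filter_upwards [Filter.eventually_ge_atTop N] with n hn
        have h2 : (1 : ℝ) ≤ n * s (FR z) := by
          have h3 : 1 / s (FR z) < n := lt_of_lt_of_le hN (by exact_mod_cast hn)
          rw [div_lt_iff₀ hpos] at h3
          exact h3.le
        have h4 : q n (FR z) = 1 := Real.smoothTransition.one_of_one_le h2
        rw [h4, ofReal_one]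
      · rw [Set.indicator_of_notMem hz]
        have h0 : s (FR z) = 0 := by
          by_contra h1
          have h2 : FR z ∈ Function.support s := h1
          rw [hs1] at h2
          exact hz h2
        have h4 : ∀ n, q n (FR z) = 0 := by
          intro n
          change Real.smoothTransition (n * s (FR z)) = 0
          rw [h0, mul_zero, Real.smoothTransition.zero]
        simp only [h4, ofReal_zero]
        exact tendsto_const_nhds
  have hzero : ∫ z in ball, T.indicator (fun _ => (1 : ℂ)) (FR z) * Jc ψ FR z = 0 := by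
    refine tendsto_nhds_unique hlim ?_
    simp only [hz0]
    exact tendsto_const_nhds
  have hAe : ∫ z in A, Jc ψ FR z = ∫ z in ball, A.indicator (Jc ψ FR) z := by
    rw [setIntegral_indicator hA.measurableSet, Set.inter_eq_self_of_subset_right hAB]
  rw [hAe, ← hzero]
  refine setIntegral_congr_fun measurableSet_ball fun z hz => ?_
  by_cases hzK : z ∈ K
  · have hzO := hKO hzK
    by_cases hzA : z ∈ A
    · rw [Set.indicator_of_mem hzA, Set.indicator_of_mem ((hAT z hzO).2 hzA), one_mul]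
    · rw [Set.indicator_of_notMem hzA,
        Set.indicator_of_notMem (fun h => hzA ((hAT z hzO).1 h)), zero_mul]
  · rw [hJs z hz hzK, mul_zero]
    by_cases hzA : z ∈ A
    · rw [Set.indicator_of_mem hzA, hJs z hz hzK]
    · rw [Set.indicator_of_notMem hzA]

end Pool.Agent.H89.SG
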