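import Pool.Agent.H89.SG.LeafA

/-!
# LeafB: the leafwise field has zero flux on saturated sets, global form

Let `ψ` be smooth on the ball, zero outside `{nsq ≤ r}`.
(1) Suppose first that `ψ` vanishes outside a compact set `K ⊆ {z ∈ ball | ∃ j, dd j FR z ≠ 0}`. Cover
`K` by finitely many nice sets `O_i` (`exists_nice`), take a smooth partition of unity `(η_i)`
(`SmoothPartitionOfUnity`/`SmoothBumpCovering`, or `exists_contDiff...`): `η_i` smooth with compact
support in `O_i`, `∑ η_i = 1` on a neighbourhood of `K`. `ψ = ∑ η_i ψ` and `leaf_local` applies to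
`η_i ψ`.
(2) In general let `N z = normSq (dd 0 FR z) + normSq (dd 1 FR z)`, `β : ℝ → ℝ` smooth, `β = 0` on
`(-∞, 1]`, `β = 1` on `[2, ∞)`, `0 ≤ β ≤ 1`, and `ψ_δ = β(N / δ) ψ`, which vanishes outside the compact
set `{nsq ≤ r, N ≥ δ}`. `Jc ψ_δ FR = β(N/δ) Jc ψ FR + ψ β'(N/δ) Jc N FR / δ`. On `{nsq ≤ r}`
`|Jc N FR| ≤ C N`: `Jc (normSq a) FR = conj a Jc a FR` for `a = dd j FR` holomorphic, `|a| ≤ √N`,
`|Jc a FR| ≤ C' √N` with `C'` a bound of the second derivatives. Where `β'(N/δ) ≠ 0`, `δ ≤ N ≤ 2δ`,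
so the second term is bounded by a constant, uniformly in `δ`, and it tends to `0` pointwise (at a
point with `N > 0` it is zero for `δ < N/2`, at a point with `N = 0` it is zero).
Also `Jc ψ FR = 0` where `N = 0`, so `β(N/δ) Jc ψ FR → Jc ψ FR` pointwise, boundedly. Dominated
convergence: `∫_A Jc ψ FR = lim ∫_A Jc ψ_δ FR = 0`.
-/

set_option autoImplicit false

namespace Pool.Agent.H89.SG

open Complex MeasureTheory
open scoped ContDiff ComplexConjugate

theorem Smo.jcS {f g : E → ℂ} (hf : Smo f) (hg : Smo g) : Smo (Jc f g) :=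
  ((hf.dd 0).mul (hg.dd 1)).sub ((hf.dd 1).mul (hg.dd 0))

theorem Smo.mulS {f g : E → ℂ} (hf : Smo f) (hg : Smo g) : Smo (fun z => f z * g z) :=
  ContDiffOn.mul hf hg

/-- a real smooth function as a smooth function -/
theorem smo_ofReal {u : E → ℝ} (hu : ContDiffOn ℝ ∞ u ball) : Smo (fun z => (u z : ℂ)) :=
  Complex.ofRealCLM.contDiff.comp_contDiffOn hu

/-- `dd` vanishes where the function vanishes nearby -/
theorem dd_of_zero {g : E → ℂ} {z : E} {j : Fin 2} (h : ∀ᶠ w in nhds z, g w = 0) :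
    dd j g z = 0 := by
  have h1 : g =ᶠ[nhds z] fun _ => (0 : ℂ) := h
  rw [dd_congr h1, dd_const]

theorem Jc_of_zero {g FR : E → ℂ} {z : E} (h : ∀ᶠ w in nhds z, g w = 0) : Jc g FR z = 0 := by
  unfold Jc
  rw [dd_of_zero h, dd_of_zero h]
  ring

theorem Jc_zero_off {g FR : E → ℂ} {K : Set E} (hK : IsClosed K)
    (hs : ∀ z ∈ ball, z ∉ K → g z = 0) {z : E} (hz : z ∈ ball) (hzK : z ∉ K) :
    Jc g FR z = 0 := by
  apply Jc_of_zero
  filter_upwards [isOpen_ball.mem_nhds hz, hK.isOpen_compl.mem_nhds hzK] with w hw hw'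
  exact hs w hw hw'

theorem leaf_reg {FR : E → ℂ} (hFR : Hol FR) {A : Set E} (hA : IsOpen A) (hAB : A ⊆ ball)
    (hsat : Satu FR A) {ψ : E → ℂ} (hψ : Smo ψ) {K : Set E} (hK : IsCompact K)
    (hKO : K ⊆ {z ∈ ball | ∃ j, dd j FR z ≠ 0}) (hs : ∀ z ∈ ball, z ∉ K → ψ z = 0) :
    ∫ z in A, Jc ψ FR z = 0 := by
  classical
  -- nice sets around the points of `K`
  have h1 : ∀ p : K, ∃ O, (p : E) ∈ O ∧ O ⊆ Set.univ ∧ Nice FR O := fun p =>
    exists_nice hFR (hKO p.2).1 (hKO p.2).2 isOpen_univ (Set.mem_univ _)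
  choose O hpO _ hO using h1
  obtain ⟨t, ht⟩ := hK.elim_finite_subcover O (fun p => (hO p).isOpen)
    (fun x hx => Set.mem_iUnion.2 ⟨⟨x, hx⟩, hpO ⟨x, hx⟩⟩)
  obtain ⟨f, hf⟩ := SmoothPartitionOfUnity.exists_isSubordinate (modelWithCornersSelf ℝ E)
    hK.isClosed (fun p : t => O p) (fun p => (hO p).isOpen) (by
      intro x hx
      obtain ⟨p, hp, hxp⟩ := Set.mem_iUnion₂.1 (ht hx)
      exact Set.mem_iUnion.2 ⟨⟨p, hp⟩, hxp⟩)
  let g : t → E → ℂ := fun p z => ((f p z : ℝ) : ℂ) * ψ z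
  have hfs : ∀ p : t, ContDiffOn ℝ ∞ (fun z => f p z) ball := fun p =>
    ((f p).contMDiff.contDiff).contDiffOn
  have hgs : ∀ p, Smo (g p) := fun p => (smo_ofReal (hfs p)).mulS hψ
  have hgsum : ∀ z ∈ ball, ψ z = ∑ p, g p z := by
    intro z hz
    by_cases hzK : z ∈ K
    · have h2 := f.sum_eq_one hzK
      rw [finsum_eq_sum_of_fintype] at h2
      show ψ z = ∑ p, ((f p z : ℝ) : ℂ) * ψ z
      rw [← Finset.sum_mul, ← Complex.ofReal_sum, h2, Complex.ofReal_one, one_mul]
    · show ψ z = ∑ p, ((f p z : ℝ) : ℂ) * ψ z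
      rw [hs z hz hzK]
      simp
  have hKp : ∀ p : t, IsCompact (K ∩ tsupport (f p)) := fun p =>
    hK.inter_right (isClosed_tsupport _)
  have hgz : ∀ p : t, ∀ z ∈ ball, z ∉ K ∩ tsupport (f p) → g p z = 0 := by
    intro p z hz hn
    by_cases hzK : z ∈ K
    · have h3 : z ∉ tsupport (f p) := fun h => hn ⟨hzK, h⟩
      have h4 : f p z = 0 := image_eq_zero_of_notMem_tsupport h3
      show ((f p z : ℝ) : ℂ) * ψ z = 0
      rw [h4]; simp
    · show ((f p z : ℝ) : ℂ) * ψ z = 0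
      rw [hs z hz hzK, mul_zero]
  have hJ : ∀ z ∈ A, Jc ψ FR z = ∑ p, Jc (g p) FR z := by
    intro z hz
    have hzb := hAB hz
    have h5 : ψ =ᶠ[nhds z] fun w => ∑ p, g p w := by
      filter_upwards [isOpen_ball.mem_nhds hzb] with w hw using hgsum w hw
    unfold Jc
    rw [dd_congr h5, dd_congr h5, dd_sum _ _ (fun p _ => (hgs p).diffAt hzb),
      dd_sum _ _ (fun p _ => (hgs p).diffAt hzb), Finset.sum_mul, Finset.sum_mul,
      ← Finset.sum_sub_distrib]
  rw [setIntegral_congr_fun hA.measurableSet hJ, integral_finsetSum]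
  · apply Finset.sum_eq_zero
    intro p _
    exact leaf_local hFR hA hAB hsat (hO p) (hgs p) (hKp p)
      (fun z hz => hf p hz.2) (hgz p)
  · intro p _
    obtain ⟨r, _, hr1, hr⟩ := exists_nsq_le_of_compact (hKp p) (fun z hz => (hKO hz.1).1)
    apply IntegrableOn.mono_set _ hAB
    apply integrableOn_of_supp ((hgs p).jcS hFR.smo).continuousOn hr1
    intro z hz hne
    by_contra hcon
    apply hne
    apply Jc_zero_off (hKp p).isClosed (hgz p) hz
    intro hzK
    exact hcon (hr z hzK)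

theorem leaf_zero {FR : E → ℂ} (hFR : Hol FR) {A : Set E} (hA : IsOpen A) (hAB : A ⊆ ball)
    (hsat : Satu FR A) {ψ : E → ℂ} (hψ : Smo ψ) {r : ℝ} (hr : r < 1)
    (hs : ∀ z ∈ ball, ψ z ≠ 0 → nsq z ≤ r) : ∫ z in A, Jc ψ FR z = 0 := by
  have hsf : Smo FR := hFR.smo
  -- the cut-off
  let β : ℝ → ℝ := fun x => Real.smoothTransition (x - 1)
  have hβs : ContDiff ℝ ∞ β := Real.smoothTransition.contDiff.comp (contDiff_id.sub contDiff_const)
  have hβd : ∀ x, DifferentiableAt ℝ β x := fun x => (hβs.differentiable (by simp)) x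
  have hβ0 : ∀ x, x ≤ 1 → β x = 0 := fun x hx =>
    Real.smoothTransition.zero_of_nonpos (by linarith)
  have hβ1 : ∀ x, 2 ≤ x → β x = 1 := fun x hx => Real.smoothTransition.one_of_one_le (by linarith)
  have hβle : ∀ x, |β x| ≤ 1 := fun x => by
    rw [abs_of_nonneg (Real.smoothTransition.nonneg _)]
    exact Real.smoothTransition.le_one _
  have hβ'0 : ∀ x, x < 1 → deriv β x = 0 := fun x hx => by
    have h1 : β =ᶠ[nhds x] fun _ => (0 : ℝ) := by
      filter_upwards [Iio_mem_nhds hx] with y hy using hβ0 y (le_of_lt hy)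
    rw [h1.deriv_eq, deriv_const]
  have hβ'1 : ∀ x, 2 < x → deriv β x = 0 := fun x hx => by
    have h1 : β =ᶠ[nhds x] fun _ => (1 : ℝ) := by
      filter_upwards [Ioi_mem_nhds hx] with y hy using hβ1 y (le_of_lt hy)
    rw [h1.deriv_eq, deriv_const]
  have hβ'c : Continuous (deriv β) := hβs.continuous_deriv (by simp)
  obtain ⟨C₀, hC₀⟩ := (isCompact_Icc (a := (1 : ℝ)) (b := 2)).exists_bound_of_continuousOn
    hβ'c.continuousOn
  have hC₀0 : 0 ≤ C₀ := le_trans (norm_nonneg _) (hC₀ 1 ⟨le_refl _, by norm_num⟩)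
  have hβ' : ∀ x, |deriv β x * x| ≤ C₀ * 2 := fun x => by
    rcases lt_or_ge x 1 with h | h
    · rw [hβ'0 x h, zero_mul, abs_zero]; positivity
    · rcases lt_or_ge 2 x with h2 | h2
      · rw [hβ'1 x h2, zero_mul, abs_zero]; positivity
      · rw [abs_mul]
        have h3 := hC₀ x ⟨h, h2⟩
        rw [Real.norm_eq_abs] at h3
        have h4 : |x| ≤ 2 := by rw [abs_of_nonneg (by linarith)]; exact h2
        exact mul_le_mul h3 h4 (abs_nonneg _) hC₀0
  -- the square of the gradient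
  let N : E → ℝ := fun z => normSq (dd 0 FR z) + normSq (dd 1 FR z)
  have hNs : ContDiffOn ℝ ∞ N ball := by
    have h1 : ∀ j, ContDiffOn ℝ ∞ (fun z => normSq (dd j FR z)) ball := by
      intro j
      have h2 : (fun z => normSq (dd j FR z)) = fun z => ‖dd j FR z‖ ^ 2 := by
        funext z; rw [Complex.normSq_eq_norm_sq]
      rw [h2]
      exact (hsf.dd j).norm_sq ℝ
    exact (h1 0).add (h1 1)
  have hN0 : ∀ z, 0 ≤ N z := fun z => add_nonneg (normSq_nonneg _) (normSq_nonneg _)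
  have hNd : ∀ z ∈ ball, DifferentiableAt ℝ N z := fun z hz =>
    (hNs.differentiableOn (by simp)).differentiableAt (isOpen_ball.mem_nhds hz)
  -- derivative of `N`
  have hddN : ∀ z ∈ ball, ∀ j, dd j (fun w => ((N w : ℝ) : ℂ)) z =
      dd j (dd 0 FR) z * conj (dd 0 FR z) + dd j (dd 1 FR) z * conj (dd 1 FR z) := by
    intro z hz j
    have h1 : (fun w => ((N w : ℝ) : ℂ)) = fun w => dd 0 FR w * conj (dd 0 FR w) +
        dd 1 FR w * conj (dd 1 FR w) := by
      funext w
      show ((normSq (dd 0 FR w) + normSq (dd 1 FR w) : ℝ) : ℂ) = _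
      rw [Complex.mul_conj, Complex.mul_conj]; push_cast; ring
    have h2 : ∀ k, DifferentiableAt ℝ (dd k FR) z := fun k => (hsf.dd k).diffAt hz
    have h3 : ∀ k, DifferentiableAt ℝ (fun w => conj (dd k FR w)) z := fun k =>
      (Complex.conjCLE.differentiable.differentiableAt).comp z (h2 k)
    have h4 : ∀ k, dd j (fun w => dd k FR w * conj (dd k FR w)) z =
        dd j (dd k FR) z * conj (dd k FR z) := by
      intro k
      rw [dd_mul (h2 k) (h3 k), dd_conj (h2 k), (hFR.dd k).db_eq hz j, map_zero, mul_zero, add_zero]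
    have h5 : ∀ k, DifferentiableAt ℝ (fun w => dd k FR w * conj (dd k FR w)) z := fun k =>
      (h2 k).mul (h3 k)
    rw [h1, dd_add (h5 0) (h5 1), h4 0, h4 1]
  -- bound of the second derivatives
  have hB : ∃ B : ℝ, 0 ≤ B ∧ ∀ z, nsq z ≤ r → ∀ i k, ‖dd i (dd k FR) z‖ ≤ B := by
    have h1 : ∀ i k, ∃ B : ℝ, ∀ z ∈ {z : E | nsq z ≤ r}, ‖dd i (dd k FR) z‖ ≤ B := fun i k =>
      (isCompact_nsq_le r).exists_bound_of_continuousOn
        (((hsf.dd k).dd i).continuousOn.mono (nsq_le_subset_ball hr))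
    choose B hB using h1
    refine ⟨∑ i, ∑ k, |B i k|, Finset.sum_nonneg fun i _ => Finset.sum_nonneg fun k _ =>
      abs_nonneg _, fun z hz i k => ?_⟩
    calc ‖dd i (dd k FR) z‖ ≤ B i k := hB i k z hz
      _ ≤ |B i k| := le_abs_self _
      _ ≤ ∑ k, |B i k| := Finset.single_le_sum (f := fun k => |B i k|)
          (fun k _ => abs_nonneg _) (Finset.mem_univ k)
      _ ≤ ∑ i, ∑ k, |B i k| := Finset.single_le_sum (f := fun i => ∑ k, |B i k|)
          (fun i _ => Finset.sum_nonneg fun k _ => abs_nonneg _) (Finset.mem_univ i)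
  obtain ⟨B, hB0, hB⟩ := hB
  have hJN : ∀ z ∈ ball, nsq z ≤ r → ‖Jc (fun w => ((N w : ℝ) : ℂ)) FR z‖ ≤ 2 * B * N z := by
    intro z hz hzr
    set a := dd 0 FR z with ha
    set b := dd 1 FR z with hb
    have h1 : Jc (fun w => ((N w : ℝ) : ℂ)) FR z =
        (dd 0 (dd 0 FR) z * conj a + dd 0 (dd 1 FR) z * conj b) * b -
        (dd 1 (dd 0 FR) z * conj a + dd 1 (dd 1 FR) z * conj b) * a := by
      unfold Jc
      rw [hddN z hz 0, hddN z hz 1]
    have h2 : ∀ i, ‖dd i (dd 0 FR) z * conj a + dd i (dd 1 FR) z * conj b‖ ≤ B * (‖a‖ + ‖b‖) := by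
      intro i
      calc _ ≤ ‖dd i (dd 0 FR) z * conj a‖ + ‖dd i (dd 1 FR) z * conj b‖ := norm_add_le _ _
        _ = ‖dd i (dd 0 FR) z‖ * ‖a‖ + ‖dd i (dd 1 FR) z‖ * ‖b‖ := by
          rw [norm_mul, norm_mul, RCLike.norm_conj, RCLike.norm_conj]
        _ ≤ B * ‖a‖ + B * ‖b‖ := by
          gcongr
          · exact hB z hzr i 0
          · exact hB z hzr i 1
        _ = _ := by ring
    have h3 : N z = ‖a‖ ^ 2 + ‖b‖ ^ 2 := by
      show normSq a + normSq b = _
      rw [Complex.normSq_eq_norm_sq, Complex.normSq_eq_norm_sq]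
    rw [h1, h3]
    calc _ ≤ ‖(dd 0 (dd 0 FR) z * conj a + dd 0 (dd 1 FR) z * conj b) * b‖ +
          ‖(dd 1 (dd 0 FR) z * conj a + dd 1 (dd 1 FR) z * conj b) * a‖ := norm_sub_le _ _
      _ = ‖dd 0 (dd 0 FR) z * conj a + dd 0 (dd 1 FR) z * conj b‖ * ‖b‖ +
          ‖dd 1 (dd 0 FR) z * conj a + dd 1 (dd 1 FR) z * conj b‖ * ‖a‖ := by
        rw [norm_mul, norm_mul]
      _ ≤ B * (‖a‖ + ‖b‖) * ‖b‖ + B * (‖a‖ + ‖b‖) * ‖a‖ := by
        gcongr
        · exact h2 0
        · exact h2 1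
      _ = B * (‖a‖ + ‖b‖) ^ 2 := by ring
      _ ≤ B * (2 * (‖a‖ ^ 2 + ‖b‖ ^ 2)) := by
        gcongr
        nlinarith [sq_nonneg (‖a‖ - ‖b‖)]
      _ = _ := by ring
  -- the approximations
  let ch : ℕ → E → ℝ := fun n z => β (N z * (n + 1))
  have hchs : ∀ n, ContDiffOn ℝ ∞ (ch n) ball := fun n =>
    hβs.comp_contDiffOn (hNs.mul contDiffOn_const)
  let g : ℕ → E → ℂ := fun n z => ((ch n z : ℝ) : ℂ) * ψ z
  have hgs : ∀ n, Smo (g n) := fun n => (smo_ofReal (hchs n)).mulS hψ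
  have hψz : ∀ z ∈ ball, ¬ nsq z ≤ r → ψ z = 0 := fun z hz h => by
    by_contra hne; exact h (hs z hz hne)
  have hclr : IsClosed {z : E | nsq z ≤ r} := (isCompact_nsq_le r).isClosed
  have hint : ∀ n, ∫ z in A, Jc (g n) FR z = 0 := by
    intro n
    have hKc : IsClosed ({z : E | nsq z ≤ r} ∩ N ⁻¹' Set.Ici (1 / (n + 1))) :=
      (hNs.continuousOn.mono (nsq_le_subset_ball hr)).preimage_isClosed_of_isClosed hclr isClosed_Ici
    apply leaf_reg hFR hA hAB hsat (hgs n)
      ((isCompact_nsq_le r).of_isClosed_subset hKc Set.inter_subset_left)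
    · intro z hz
      refine ⟨nsq_le_subset_ball hr hz.1, ?_⟩
      by_contra hcon
      push Not at hcon
      have h1 : N z = 0 := by
        show normSq (dd 0 FR z) + normSq (dd 1 FR z) = 0
        rw [hcon 0, hcon 1]; simp
      have h2 : (1 : ℝ) / (n + 1) ≤ N z := hz.2
      rw [h1] at h2
      have h3 : (0 : ℝ) < 1 / (n + 1) := by positivity
      linarith
    · intro z hz hzK
      show ((ch n z : ℝ) : ℂ) * ψ z = 0
      by_cases h1 : nsq z ≤ r
      · have h2 : N z < 1 / (n + 1) := by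
          by_contra h3
          exact hzK ⟨h1, not_lt.1 h3⟩
        have h3 : ch n z = 0 := by
          apply hβ0
          have h4 : (0 : ℝ) < n + 1 := by positivity
          rw [lt_div_iff₀ h4] at h2
          exact h2.le
        rw [h3]; simp
      · rw [hψz z hz h1, mul_zero]
  have hJg : ∀ n, ∀ z ∈ ball, Jc (g n) FR z = ((ch n z : ℝ) : ℂ) * Jc ψ FR z +
      ψ z * (((deriv β (N z * (n + 1)) * (n + 1) : ℝ) : ℂ) * Jc (fun w => ((N w : ℝ) : ℂ)) FR z) := by
    intro n z hz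
    have hcd : DifferentiableAt ℝ (fun w => ((ch n w : ℝ) : ℂ)) z := (smo_ofReal (hchs n)).diffAt hz
    have h1 : ∀ j, dd j (g n) z = dd j (fun w => ((ch n w : ℝ) : ℂ)) z * ψ z +
        ((ch n z : ℝ) : ℂ) * dd j ψ z := fun j => dd_mul hcd (hψ.diffAt hz)
    have hNd1 : DifferentiableAt ℝ (fun w => N w * ((n : ℝ) + 1)) z := (hNd z hz).mul_const _
    have h2 : ∀ j, dd j (fun w => ((ch n w : ℝ) : ℂ)) z =
        ((deriv β (N z * (n + 1)) * (n + 1) : ℝ) : ℂ) * dd j (fun w => ((N w : ℝ) : ℂ)) z := by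
      intro j
      have h3 := dd_real_comp (j := j) (χ := β) (u := fun w => N w * ((n : ℝ) + 1)) hNd1 (hβd _)
      have h4 : dd j (fun w => ((N w * ((n : ℝ) + 1) : ℝ) : ℂ)) z =
          (((n : ℝ) + 1 : ℝ) : ℂ) * dd j (fun w => ((N w : ℝ) : ℂ)) z := by
        rw [← dd_const_mul]
        · apply dd_congr
          apply Filter.Eventually.of_forall
          intro w
          show ((N w * ((n : ℝ) + 1) : ℝ) : ℂ) = (((n : ℝ) + 1 : ℝ) : ℂ) * ((N w : ℝ) : ℂ)
          rw [← Complex.ofReal_mul, mul_comm]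
        · exact (smo_ofReal hNs).diffAt hz
      rw [h4] at h3
      show dd j (fun w => ((β (N w * ((n : ℝ) + 1)) : ℝ) : ℂ)) z = _
      rw [h3, Complex.ofReal_mul, mul_assoc]
    unfold Jc
    rw [h1, h1, h2, h2]
    ring
  have hlim : Filter.Tendsto (fun n => ∫ z in A, Jc (g n) FR z) Filter.atTop
      (nhds (∫ z in A, Jc ψ FR z)) := by
    apply tendsto_integral_of_dominated_convergence
      (fun z => ‖Jc ψ FR z‖ + ‖ψ z‖ * (C₀ * 2 * (2 * B)))
    · intro n
      exact (((hgs n).jcS hsf).continuousOn.mono hAB).aestronglyMeasurable hA.measurableSet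
    · apply IntegrableOn.mono_set _ hAB
      apply integrableOn_of_supp (r := r) _ hr
      · intro z hz hne
        by_contra hcon
        apply hne
        have h1 : Jc ψ FR z = 0 := Jc_zero_off hclr hψz hz hcon
        rw [h1, hψz z hz hcon]
        simp
      · exact ((hψ.jcS hsf).continuousOn.norm).add (hψ.continuousOn.norm.mul continuousOn_const)
    · intro n
      filter_upwards [ae_restrict_mem hA.measurableSet] with z hz
      have hzb := hAB hz
      by_cases hzr : nsq z ≤ r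
      · rw [hJg n z hzb]
        refine (norm_add_le _ _).trans (add_le_add ?_ ?_)
        · rw [norm_mul, Complex.norm_real, Real.norm_eq_abs]
          exact mul_le_of_le_one_left (norm_nonneg _) (hβle _)
        · rw [norm_mul, norm_mul, Complex.norm_real, Real.norm_eq_abs]
          apply mul_le_mul_of_nonneg_left _ (norm_nonneg _)
          have hn1 : (0 : ℝ) < n + 1 := by positivity
          calc |deriv β (N z * (n + 1)) * (n + 1)| * ‖Jc (fun w => ((N w : ℝ) : ℂ)) FR z‖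
              ≤ |deriv β (N z * (n + 1)) * (n + 1)| * (2 * B * N z) :=
                mul_le_mul_of_nonneg_left (hJN z hzb hzr) (abs_nonneg _)
            _ = |deriv β (N z * (n + 1)) * (N z * (n + 1))| * (2 * B) := by
                rw [abs_mul, abs_mul, abs_mul, abs_of_pos hn1, abs_of_nonneg (hN0 z)]; ring
            _ ≤ C₀ * 2 * (2 * B) := mul_le_mul_of_nonneg_right (hβ' _) (by positivity)
      · have h1 : Jc (g n) FR z = 0 := Jc_zero_off hclr (fun w hw hw' => by
          show ((ch n w : ℝ) : ℂ) * ψ w = 0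
          rw [hψz w hw hw', mul_zero]) hzb hzr
        rw [h1, norm_zero]
        positivity
    · filter_upwards [ae_restrict_mem hA.measurableSet] with z hz
      have hzb := hAB hz
      apply tendsto_const_nhds.congr'
      rcases eq_or_lt_of_le (hN0 z) with h0 | h0
      · -- `N z = 0`
        have h1 : dd 0 FR z = 0 ∧ dd 1 FR z = 0 := by
          have h2 : normSq (dd 0 FR z) + normSq (dd 1 FR z) = 0 := h0.symm
          have h3 := normSq_nonneg (dd 0 FR z)
          have h4 := normSq_nonneg (dd 1 FR z)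
          exact ⟨normSq_eq_zero.1 (by linarith), normSq_eq_zero.1 (by linarith)⟩
        apply Filter.Eventually.of_forall
        intro n
        unfold Jc
        rw [h1.1, h1.2]; ring
      · obtain ⟨n₀, hn₀⟩ := exists_nat_gt (2 / N z)
        filter_upwards [Filter.eventually_ge_atTop n₀] with n hn
        have h1 : 2 < N z * (n + 1) := by
          rw [div_lt_iff₀ h0] at hn₀
          have h2 : (n₀ : ℝ) ≤ n := by exact_mod_cast hn
          nlinarith
        rw [hJg n z hzb, hβ'1 _ h1]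
        have h3 : ch n z = 1 := hβ1 _ h1.le
        rw [h3]; simp
  have h0 : (fun n : ℕ => ∫ z in A, Jc (g n) FR z) = fun _ => 0 := funext hint
  rw [h0] at hlim
  exact tendsto_nhds_unique hlim tendsto_const_nhds

end Pool.Agent.H89.SG
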