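import Pool.Agent.H89.SG.Defs

/-!
# Nrm: intersections of nontrivial normalized subgroups are nontrivial

`inf_ne`: take `a ∈ N₁`, `b ∈ N₂` nontrivial. If `a b ≠ b a` then `a b a⁻¹ b⁻¹` is a nontrivial
element of both (`a (b a⁻¹ b⁻¹)` and `(a b a⁻¹) b⁻¹`). If `a b = b a` then `a^k = b^l`, `k, l ≠ 0`, is a
nontrivial element (torsion-free) of both.
`finset_inf_ne`: induction; the intersection of subgroups which are contained in `H` and
normalized by `H` is again contained in `H` and normalized by `H`.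
`core_ne`: `H` normal of finite index in `G`, `K ≤ H` nontrivial and normalized by `H`. The normal
core of `K` is the intersection of the conjugates `g K g⁻¹`, which depend only on the coset
`g H`; finitely many, each contained in `H`, normalized by `H` (as `H` is normal) and nontrivial.
-/

set_option autoImplicit false

namespace Pool.Agent.H89.SG

variable {G : Type} [Group G]

/-- `N` is a nontrivial subgroup of `H`, normalized by `H` -/
structure NS (H N : Subgroup G) : Prop where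
  le : N ≤ H
  ne : N ≠ ⊥
  nrm : ∀ h ∈ H, ∀ n ∈ N, h * n * h⁻¹ ∈ N

private theorem ne_bot_of {N : Subgroup G} {x : G} (hx : x ∈ N) (h1 : x ≠ 1) : N ≠ ⊥ := by
  intro h
  rw [h] at hx
  exact h1 (Subgroup.mem_bot.1 hx)

private theorem exists_of_ne_bot {N : Subgroup G} (h : N ≠ ⊥) : ∃ x ∈ N, x ≠ 1 := by
  rcases Subgroup.bot_or_exists_ne_one N with h1 | h1
  · exact absurd h1 h
  · exact h1

theorem NS.inf (hcp : CommPow G) (htf : TorFree G) {H N₁ N₂ : Subgroup G} (h₁ : NS H N₁)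
    (h₂ : NS H N₂) : NS H (N₁ ⊓ N₂) := by
  refine ⟨inf_le_left.trans h₁.le, ?_, ?_⟩
  · obtain ⟨a, ha, ha1⟩ := exists_of_ne_bot h₁.ne
    obtain ⟨b, hb, hb1⟩ := exists_of_ne_bot h₂.ne
    by_cases hab : a * b = b * a
    · obtain ⟨k, l, hk, -, hkl⟩ := hcp a b ha1 hb1 hab
      have hmem : a ^ k ∈ N₁ ⊓ N₂ := by
        refine Subgroup.mem_inf.2 ⟨N₁.zpow_mem ha k, ?_⟩
        rw [hkl]
        exact N₂.zpow_mem hb l
      refine ne_bot_of hmem ?_
      intro h
      have h2 : a ^ k.natAbs = 1 := pow_natAbs_eq_one.2 h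
      exact htf a ha1 k.natAbs (Int.natAbs_pos.2 hk) h2
    · have hmem : a * b * a⁻¹ * b⁻¹ ∈ N₁ ⊓ N₂ := by
        refine Subgroup.mem_inf.2 ⟨?_, ?_⟩
        · have h3 := N₁.mul_mem ha (h₁.nrm b (h₂.le hb) a⁻¹ (N₁.inv_mem ha))
          have h4 : a * (b * a⁻¹ * b⁻¹) = a * b * a⁻¹ * b⁻¹ := by group
          rw [h4] at h3
          exact h3
        · exact N₂.mul_mem (h₂.nrm a (h₁.le ha) b hb) (N₂.inv_mem hb)
      refine ne_bot_of hmem ?_
      intro h
      apply hab
      have h5 : a * b * a⁻¹ = b := mul_inv_eq_one.1 h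
      exact mul_inv_eq_iff_eq_mul.1 h5
  · intro h hh n hn
    exact Subgroup.mem_inf.2 ⟨h₁.nrm h hh n (Subgroup.mem_inf.1 hn).1,
      h₂.nrm h hh n (Subgroup.mem_inf.1 hn).2⟩

theorem NS.iInf (hcp : CommPow G) (htf : TorFree G) {H : Subgroup G} (hH : H ≠ ⊥) {ι : Type}
    [Finite ι] {N : ι → Subgroup G} (h : ∀ i, NS H (N i)) : NS H (H ⊓ ⨅ i, N i) := by
  classical
  have _ := Fintype.ofFinite ι
  have key : ∀ s : Finset ι, NS H (H ⊓ ⨅ i ∈ s, N i) := by
    intro s
    induction s using Finset.induction_on with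
    | empty =>
      have h1 : H ⊓ ⨅ i ∈ (∅ : Finset ι), N i = H := by simp
      rw [h1]
      exact ⟨le_refl _, hH, fun a ha n hn => H.mul_mem (H.mul_mem ha hn) (H.inv_mem ha)⟩
    | insert j s _ ih =>
      have h1 : H ⊓ ⨅ i ∈ insert j s, N i = N j ⊓ (H ⊓ ⨅ i ∈ s, N i) := by
        rw [Finset.iInf_insert, inf_left_comm]
      rw [h1]
      exact NS.inf hcp htf (h j) ih
  have h2 := key Finset.univ
  simpa using h2

theorem core_ne (hcp : CommPow G) (htf : TorFree G) {H K : Subgroup G} (hn : H.Normal)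
    (hfi : H.FiniteIndex) (h : NS H K) : K.normalCore ≠ ⊥ := by
  have hfin : Finite (G ⧸ H) := Subgroup.finite_quotient_of_finiteIndex
  obtain ⟨k, hk, hk1⟩ := exists_of_ne_bot h.ne
  have hH : H ≠ ⊥ := ne_bot_of (h.le hk) hk1
  let N : G ⧸ H → Subgroup G := fun q => K.comap (MulAut.conj (Quotient.out q)⁻¹).toMonoidHom
  have hmem : ∀ (q : G ⧸ H) (x : G), x ∈ N q ↔ (Quotient.out q)⁻¹ * x * Quotient.out q ∈ K := by
    intro q x
    change (MulAut.conj (Quotient.out q)⁻¹) x ∈ K ↔ _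
    rw [MulAut.conj_apply, inv_inv]
  have hNS : ∀ q, NS H (N q) := by
    intro q
    refine ⟨?_, ?_, ?_⟩
    · intro x hx
      have h1 := h.le ((hmem q x).1 hx)
      have h2 := hn.conj_mem _ h1 (Quotient.out q)
      have h3 : Quotient.out q * ((Quotient.out q)⁻¹ * x * Quotient.out q) * (Quotient.out q)⁻¹
          = x := by group
      rw [h3] at h2
      exact h2
    · have h1 : Quotient.out q * k * (Quotient.out q)⁻¹ ∈ N q := by
        rw [hmem]
        have h3 : (Quotient.out q)⁻¹ * (Quotient.out q * k * (Quotient.out q)⁻¹) * Quotient.out q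
            = k := by group
        rw [h3]
        exact hk
      refine ne_bot_of h1 ?_
      intro h4
      apply hk1
      exact conj_eq_one_iff.1 h4
    · intro a ha x hx
      rw [hmem] at hx ⊢
      have h1 : (Quotient.out q)⁻¹ * a * Quotient.out q ∈ H := by
        have h2 := hn.conj_mem _ ha (Quotient.out q)⁻¹
        rw [inv_inv] at h2
        exact h2
      have h3 := h.nrm _ h1 _ hx
      have h4 : (Quotient.out q)⁻¹ * a * Quotient.out q * ((Quotient.out q)⁻¹ * x * Quotient.out q)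
          * ((Quotient.out q)⁻¹ * a * Quotient.out q)⁻¹
          = (Quotient.out q)⁻¹ * (a * x * a⁻¹) * Quotient.out q := by group
      rw [h4] at h3
      exact h3
  obtain ⟨x, hx, hx1⟩ := exists_of_ne_bot (NS.iInf hcp htf hH hNS).ne
  have hx2 := (Subgroup.mem_iInf.1 (Subgroup.mem_inf.1 hx).2)
  refine ne_bot_of (x := x) ?_ hx1
  intro b
  change b * x * b⁻¹ ∈ K
  have h1 := (hmem ((b⁻¹ : G) : G ⧸ H) x).1 (hx2 _)
  obtain ⟨a, ha⟩ := QuotientGroup.mk_out_eq_mul H b⁻¹
  rw [ha] at h1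
  have h2 := h.nrm a a.2 _ h1
  have h3 : (a : G) * ((b⁻¹ * (a : G))⁻¹ * x * (b⁻¹ * (a : G))) * (a : G)⁻¹ = b * x * b⁻¹ := by
    group
  rw [h3] at h2
  exact h2

/-- finite intersections of nontrivial normal subgroups of `G` are nontrivial -/
theorem finite_inter (hcp : CommPow G) (htf : TorFree G) (hG : ∃ g : G, g ≠ 1) {ι : Type}
    [Finite ι] {N : ι → Subgroup G} (hn : ∀ i, (N i).Normal) (h : ∀ i, N i ≠ ⊥) :
    ∃ g : G, g ≠ 1 ∧ ∀ i, g ∈ N i := by
  obtain ⟨g, hg⟩ := hG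
  have hT : (⊤ : Subgroup G) ≠ ⊥ := ne_bot_of (Subgroup.mem_top g) hg
  have hNS : ∀ i, NS ⊤ (N i) := fun i => ⟨le_top, h i, fun a _ n hx => (hn i).conj_mem n hx a⟩
  obtain ⟨x, hx, hx1⟩ := exists_of_ne_bot (NS.iInf hcp htf hT hNS).ne
  exact ⟨x, hx1, fun i => Subgroup.mem_iInf.1 (Subgroup.mem_inf.1 hx).2 i⟩

end Pool.Agent.H89.SG
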