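import Pool.Agent.H89.SG.Ident

/-!
# RealD: proportional differentials with real factor

Let `dd j FR z₀ ≠ 0`. On a small ball `U` around `z₀` `h = dd j F / dd j FR` is holomorphic and
`h normSq (dd j FR) = dd j F conj (dd j FR)` is real, so `h` is real valued; a real valued
holomorphic function on a connected open set is constant (its real derivative is complex linear
with real values: `0`; or open mapping; or the functions of one variable on complex lines through
`z₀`), `h = a`. With `Jc F FR = 0` both `dd i (F - a FR)` vanish on `U` (`dd i F dd j FR =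
dd j F dd i FR = a dd j FR dd i FR`), hence on the ball (`ident` for the holomorphic functions
`dd i (F - a FR)`), and `F - a FR` is constant (`const_of_dd`).
-/

set_option autoImplicit false

namespace Pool.Agent.H89.SG

open Complex MeasureTheory
open scoped ContDiff ComplexConjugate

/-- a holomorphic quotient with real values is constant -/
private theorem exists_real_const {f g : E → ℂ} {z₀ : E} {ε : ℝ} (hε : 0 < ε)
    (hg : ∀ z ∈ Metric.ball z₀ ε, g z ≠ 0)
    (hfd : ∀ z ∈ Metric.ball z₀ ε, DifferentiableAt ℂ f z)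
    (hgd : ∀ z ∈ Metric.ball z₀ ε, DifferentiableAt ℂ g z)
    (him : ∀ z ∈ Metric.ball z₀ ε, (f z * conj (g z)).im = 0) :
    ∃ a : ℝ, ∀ z ∈ Metric.ball z₀ ε, f z = a * g z := by
  have hreal : ∀ z ∈ Metric.ball z₀ ε, (f z / g z).im = 0 := by
    intro z hz
    have h1 : f z / g z = (((normSq (g z))⁻¹ : ℝ) : ℂ) * (f z * conj (g z)) := by
      rw [div_eq_mul_inv, Complex.inv_def]
      push_cast
      ring
    rw [h1, Complex.im_ofReal_mul, him z hz, mul_zero]
  have hd : ∀ z ∈ Metric.ball z₀ ε, DifferentiableAt ℂ (fun w => f w / g w) z :=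
    fun z hz => by
      have h1 := (hfd z hz).mul ((hgd z hz).inv (hg z hz))
      have h2 : (fun w => f w / g w) = f * g⁻¹ := by
        funext w
        simp [div_eq_mul_inv]
      rw [h2]
      exact h1
  have hD : ∀ z ∈ Metric.ball z₀ ε, ∀ v : E, (fderiv ℂ (fun w => f w / g w) z v).im = 0 := by
    intro z hz v
    have h1 : fderiv ℝ (fun w => f w / g w) z = (fderiv ℂ (fun w => f w / g w) z).restrictScalars ℝ :=
      (hd z hz).fderiv_restrictScalars ℝ
    have h2 : HasFDerivAt (fun w => (f w / g w).im)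
        (Complex.imCLM.comp (fderiv ℝ (fun w => f w / g w) z)) z :=
      Complex.imCLM.hasFDerivAt.comp z ((hd z hz).restrictScalars ℝ).hasFDerivAt
    have h3 : (fun w => (f w / g w).im) =ᶠ[nhds z] fun _ => (0 : ℝ) := by
      filter_upwards [Metric.isOpen_ball.mem_nhds hz] with w hw
      exact hreal w hw
    have h4 : HasFDerivAt (fun _ : E => (0 : ℝ))
        (Complex.imCLM.comp (fderiv ℝ (fun w => f w / g w) z)) z := h2.congr_of_eventuallyEq h3.symm
    have h5 := h4.unique (hasFDerivAt_const (0 : ℝ) z)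
    have h6 := congrArg (fun L : E →L[ℝ] ℝ => L v) h5
    simp only [ContinuousLinearMap.comp_apply, zero_apply] at h6
    rw [h1] at h6
    exact h6
  have hD0 : ∀ z ∈ Metric.ball z₀ ε, fderiv ℂ (fun w => f w / g w) z = 0 := by
    intro z hz
    refine ContinuousLinearMap.ext fun v => ?_
    have h1 := hD z hz v
    have h2 := hD z hz (I • v)
    rw [map_smul, smul_eq_mul, Complex.I_mul_im] at h2
    exact Complex.ext h2 h1
  have hconst : ∀ z ∈ Metric.ball z₀ ε, f z / g z = f z₀ / g z₀ := by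
    intro z hz
    exact Metric.isOpen_ball.is_const_of_fderiv_eq_zero (𝕜 := ℂ)
      (_root_.convex_ball z₀ ε).isPreconnected
      (fun w hw => (hd w hw).differentiableWithinAt) (fun w hw => hD0 w hw) hz
      (Metric.mem_ball_self hε)
  refine ⟨(f z₀ / g z₀).re, fun z hz => ?_⟩
  have h1 : f z₀ / g z₀ = (((f z₀ / g z₀).re : ℝ) : ℂ) :=
    Complex.ext (by simp) (by simpa using hreal z₀ (Metric.mem_ball_self hε))
  have h2 := hconst z hz
  rw [h1] at h2
  exact (div_eq_iff (hg z hz)).1 h2

theorem real_dep {F FR : E → ℂ} (hF : Hol F) (hFR : Hol FR) (hJ : ∀ z ∈ ball, Jc F FR z = 0)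
    (hnc : ∃ z ∈ ball, ∃ j, dd j FR z ≠ 0)
    (hno : ∀ z ∈ ball, ∀ j, (dd j F z * conj (dd j FR z)).im = 0) :
    ∃ (a : ℝ) (b : ℂ), ∀ z ∈ ball, F z = a * FR z + b := by
  obtain ⟨z₀, hz₀, j, hj⟩ := hnc
  have hkey : ∀ z ∈ ball, dd 0 F z * dd 1 FR z = dd 1 F z * dd 0 FR z := by
    intro z hz
    exact sub_eq_zero.1 (hJ z hz)
  have hcont : ContinuousAt (dd j FR) z₀ :=
    (hFR.dd j).1.continuousOn.continuousAt (isOpen_ball.mem_nhds hz₀)
  have hev : ∀ᶠ z in nhds z₀, z ∈ ball ∧ dd j FR z ≠ 0 :=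
    (isOpen_ball.eventually_mem hz₀).and (hcont.eventually_ne hj)
  obtain ⟨ε, hε, hball⟩ := Metric.eventually_nhds_iff_ball.1 hev
  have hUB : Metric.ball z₀ ε ⊆ ball := fun z hz => (hball z hz).1
  obtain ⟨a, ha⟩ := exists_real_const (f := dd j F) (g := dd j FR) hε
    (fun z hz => (hball z hz).2)
    (fun z hz => ((hF.dd j).2 z (hUB hz)).differentiableAt (isOpen_ball.mem_nhds (hUB hz)))
    (fun z hz => ((hFR.dd j).2 z (hUB hz)).differentiableAt (isOpen_ball.mem_nhds (hUB hz)))
    (fun z hz => hno z (hUB hz) j)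
  have hall : ∀ z ∈ Metric.ball z₀ ε, ∀ k : Fin 2, dd k F z - (a : ℂ) * dd k FR z = 0 := by
    intro z hz k
    have h1 := ha z hz
    have h2 := (hball z hz).2
    have h3 := hkey z (hUB hz)
    have h4 : ∀ i : Fin 2, dd i F z * dd j FR z = dd j F z * dd i FR z := by
      intro i
      fin_cases i <;> fin_cases j <;> first | rfl | exact h3 | exact h3.symm
    have h5 : (dd k F z - (a : ℂ) * dd k FR z) * dd j FR z = 0 := by
      rw [sub_mul, h4 k, h1]
      ring
    exact (mul_eq_zero.1 h5).resolve_right h2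
  have hHol : ∀ k : Fin 2, Hol (fun w => dd k F w - (a : ℂ) * dd k FR w) :=
    fun k => (hF.dd k).sub ((Hol.const (a : ℂ)).mul (hFR.dd k))
  have hzero : ∀ z ∈ ball, ∀ k : Fin 2, dd k F z - (a : ℂ) * dd k FR z = 0 := by
    intro z hz k
    exact ident (hHol k) Metric.isOpen_ball hUB ⟨z₀, Metric.mem_ball_self hε⟩
      (fun w hw => hall w hw k) z hz
  have hG : Hol (fun w => F w - (a : ℂ) * FR w) := hF.sub ((Hol.const (a : ℂ)).mul hFR)
  have hddG : ∀ z ∈ ball, ∀ k, dd k (fun w => F w - (a : ℂ) * FR w) z = 0 := by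
    intro z hz k
    rw [dd_sub (f := F) (g := fun w => (a : ℂ) * FR w) (hF.smo.diffAt hz)
      ((hFR.smo.diffAt hz).const_mul _), dd_const_mul (a : ℂ) (hFR.smo.diffAt hz)]
    exact hzero z hz k
  have hc := const_of_dd hG hddG
  refine ⟨a, F 0 - (a : ℂ) * FR 0, fun z hz => ?_⟩
  have h9 := hc z hz
  rw [← h9]
  ring

end Pool.Agent.H89.SG
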