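import Pool.Agent.H89.SG.Leaf
import Pool.Agent.H89.SG.RealD
import Pool.Agent.H89.SG.Comm
import Pool.Agent.H89.SG.Nrm

/-!
# LemD: a normal subgroup which is invisible for a class of functions

`𝒜` a set of holomorphic functions, `FR ∈ 𝒜` not constant, `Jc F FR = 0` for `F ∈ 𝒜`, every `F ∈ 𝒜`
periodic: there are a subgroup `H` of finite index and `ℓ > 0` with `Re F ∘ g - Re F ∈ ℓ ℤ`, `g ∈ H`.
Claim: there is a nontrivial normal subgroup `N` of `G` such that `Re F ∘ g = Re F + c`, `g ∈ N`,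
`F ∈ 𝒜`, implies `c = 0`.

Case 1: `Im (dd j F conj (dd j FR)) = 0` everywhere for all `F ∈ 𝒜`. By `real_dep`
`F = a FR + b` with `a` real. Let `H` be the normal core (finite index) of the subgroup of `FR` and
`N = ⁅H, H⁆` (normal; nontrivial by `exists_noncomm` for `H` acting: `BAct.sub`). For `g ∈ H`
`FR ∘ g = FR + c_g` (`add_const_of_re`) and `g ↦ c_g` is a homomorphism to `ℂ`, so `FR ∘ g = FR` for
`g ∈ N` (`Subgroup.commutator_le` or: `c` gives a hom `H →* Multiplicative ℂ`, which kills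
commutators), hence `F ∘ g = F` and `c = 0`.
Case 2: some `F' ∈ 𝒜` and `x₀` with `Im (dd j F' conj (dd j FR)) ≠ 0`. Let `H` be the normal core of
the intersection of the subgroups of `FR` and `F'`, and
`K = {g ∈ H | ∀ F, Cls FR F → F ∘ g = F on the ball}`. It is a subgroup, nontrivial by `leaf` for the
action of `H` (`BAct.sub`), and normalized by `H`: for `h ∈ H` and `F` in the class, `F ∘ h` is in
the class (`Jc_comp`, `FR ∘ h = FR + const`). `N = K.normalCore` is nontrivial (`core_ne`). For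
`g ∈ N`, `F ∈ 𝒜` (in the class) `F ∘ g = F`, so `c = 0`.
(The ball is not empty: `zero_mem_ball`.)
-/

set_option autoImplicit false

namespace Pool.Agent.H89.SG

open Complex MeasureTheory
open scoped ContDiff ComplexConjugate

variable {G : Type} [Group G] {m : G → E → E}

/-- periodic functions -/
def Per (m : G → E → E) (F : E → ℂ) : Prop :=
  ∃ (H : Subgroup G) (ℓ : ℝ), H.FiniteIndex ∧ 0 < ℓ ∧
    ∀ g ∈ H, ∃ n : ℤ, ∀ z ∈ ball, (F (m g z)).re = (F z).re + n * ℓ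

/-- `N` is invisible for `F` -/
def Invis (m : G → E → E) (N : Subgroup G) (F : E → ℂ) : Prop :=
  ∀ g ∈ N, ∀ c : ℝ, (∀ z ∈ ball, (F (m g z)).re = (F z).re + c) → c = 0

/-- the elements which fix a function -/
def fixSub (hA : BAct G m) (F : E → ℂ) : Subgroup G where
  carrier := {g | ∀ z ∈ ball, F (m g z) = F z}
  one_mem' := fun z hz => by rw [hA.one z hz]
  mul_mem' := fun {a b} ha hb z hz => by
    rw [hA.mul a b z hz, ha _ (hA.mem b hz), hb z hz]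
  inv_mem' := fun {a} ha z hz => by
    have h := ha (m a⁻¹ z) (hA.mem a⁻¹ hz)
    rw [hA.inv_right a hz] at h
    exact h.symm

theorem mem_fixSub (hA : BAct G m) {F : E → ℂ} {g : G} :
    g ∈ fixSub hA F ↔ ∀ z ∈ ball, F (m g z) = F z := Iff.rfl

/-- the additive constant of an element -/
theorem add_const (hA : BAct G m) {F : E → ℂ} (hF : Hol F) {g : G}
    (h : ∃ c : ℝ, ∀ z ∈ ball, (F (m g z)).re = (F z).re + c) :
    ∃ b : ℂ, ∀ z ∈ ball, F (m g z) = F z + b := by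
  obtain ⟨c, hc⟩ := h
  obtain ⟨b, -, hb⟩ := add_const_of_re hF (hF.comp (hA.aut g)) hc
  exact ⟨b, hb⟩

theorem CommPow.sub (hcp : CommPow G) (K : Subgroup G) : CommPow K := by
  intro a b ha hb hab
  obtain ⟨k, l, hk, hl, h⟩ := hcp (a : G) (b : G)
    (fun h => ha (Subtype.ext h)) (fun h => hb (Subtype.ext h)) (by
      have := congrArg (Subtype.val : K → G) hab
      simpa using this)
  exact ⟨k, l, hk, hl, Subtype.ext (by simpa using h)⟩

theorem lemD1 (hA : BAct G m) (hcp : CommPow G) {FR : E → ℂ} (hFR : Hol FR)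
    (hnc : ∃ z ∈ ball, ∃ j, dd j FR z ≠ 0) (hper : Per m FR) :
    ∃ N : Subgroup G, N.Normal ∧ N ≠ ⊥ ∧ ∀ g ∈ N, ∀ z ∈ ball, FR (m g z) = FR z := by
  obtain ⟨H, ℓ, hfi, hℓ, hH⟩ := hper
  have := hfi
  set K : Subgroup G := H.normalCore with hK
  have hKH : ∀ g ∈ K, g ∈ H := fun g hg => H.normalCore_le hg
  have hKn : K.Normal := H.normalCore_normal
  have hKfi : K.FiniteIndex := inferInstance
  obtain ⟨a, b, hab⟩ := exists_noncomm (hA.sub K hKfi) (hcp.sub K) hFR hnc (by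
    intro g
    obtain ⟨n, hn⟩ := hH g (hKH _ g.2)
    exact ⟨n * ℓ, hn⟩)
  refine ⟨⁅K, K⁆, inferInstance, ?_, ?_⟩
  · intro hbot
    have h1 := Subgroup.commutator_mem_commutator (H₁ := K) (H₂ := K) a.2 b.2
    rw [hbot, Subgroup.mem_bot, commutatorElement_eq_one_iff_mul_comm] at h1
    exact hab (Subtype.ext (by simpa using h1))
  · have h2 : ⁅K, K⁆ ≤ fixSub hA FR := by
      rw [Subgroup.commutator_le]
      intro g₁ hg₁ g₂ hg₂
      obtain ⟨n₁, hn₁⟩ := hH g₁ (hKH _ hg₁)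
      obtain ⟨n₂, hn₂⟩ := hH g₂ (hKH _ hg₂)
      obtain ⟨b₁, hb₁⟩ := add_const hA hFR ⟨_, hn₁⟩
      obtain ⟨b₂, hb₂⟩ := add_const hA hFR ⟨_, hn₂⟩
      have hi₁ : ∀ z ∈ ball, FR (m g₁⁻¹ z) = FR z - b₁ := by
        intro z hz
        have h := hb₁ (m g₁⁻¹ z) (hA.mem _ hz)
        rw [hA.inv_right g₁ hz] at h
        rw [h]; ring
      have hi₂ : ∀ z ∈ ball, FR (m g₂⁻¹ z) = FR z - b₂ := by
        intro z hz
        have h := hb₂ (m g₂⁻¹ z) (hA.mem _ hz)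
        rw [hA.inv_right g₂ hz] at h
        rw [h]; ring
      rw [mem_fixSub]
      intro z hz
      rw [commutatorElement_def, hA.mul _ _ z hz, hA.mul _ _ _ (hA.mem _ hz),
        hA.mul _ _ _ (hA.mem _ (hA.mem _ hz)), hb₁ _ (hA.mem _ (hA.mem _ (hA.mem _ hz))),
        hb₂ _ (hA.mem _ (hA.mem _ hz)), hi₁ _ (hA.mem _ hz), hi₂ z hz]
      ring
    intro g hg z hz
    exact h2 hg z hz

theorem Cls.comp (hA : BAct G m) {FR : E → ℂ} (hFR : Hol FR) {F : E → ℂ} (hF : Cls FR F) {h : G}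
    (hb : ∃ b : ℂ, ∀ z ∈ ball, FR (m h z) = FR z + b) : Cls FR (fun z => F (m h z)) := by
  obtain ⟨b, hb⟩ := hb
  refine ⟨hF.1.comp (hA.aut h), fun z hz => ?_⟩
  have h1 := Jc_comp hF.1.smo hFR.smo (hA.aut h) hz
  rw [hF.2 _ (hA.mem h hz), mul_zero] at h1
  have h2 : ∀ j, dd j (fun w => FR (m h w)) z = dd j FR z := by
    intro j
    have h3 : (fun w => FR (m h w)) =ᶠ[nhds z] fun w => FR w + b := by
      filter_upwards [isOpen_ball.mem_nhds hz] with w hw using hb w hw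
    rw [dd_congr h3]
    rw [show (fun w => FR w + b) = (fun w => FR w + (fun _ => b) w) from rfl,
      dd_add (hFR.smo.diffAt hz) (differentiableAt_const b), dd_const, add_zero]
  unfold Jc at h1 ⊢
  rw [h2 0, h2 1] at h1
  exact h1

theorem lemD2 (hA : BAct G m) (hcp : CommPow G) (htf : TorFree G) {FR F' : E → ℂ}
    (hFR : Hol FR) (hper : Per m FR) (hF' : Cls FR F') (hper' : Per m F') {x₀ : E}
    (hx₀ : x₀ ∈ ball) (htw : ∃ j, (dd j F' x₀ * conj (dd j FR x₀)).im ≠ 0) :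
    ∃ N : Subgroup G, N.Normal ∧ N ≠ ⊥ ∧ ∀ F, Cls FR F → ∀ g ∈ N, ∀ z ∈ ball, F (m g z) = F z := by
  obtain ⟨H₁, ℓ, hfi₁, hℓ, hH₁⟩ := hper
  obtain ⟨H₂, ℓ', hfi₂, hℓ', hH₂⟩ := hper'
  have := hfi₁
  have := hfi₂
  set H : Subgroup G := (H₁ ⊓ H₂).normalCore with hH
  have hHn : H.Normal := (H₁ ⊓ H₂).normalCore_normal
  have hHfi : H.FiniteIndex := inferInstance
  have hle : ∀ g ∈ H, g ∈ H₁ ∧ g ∈ H₂ := fun g hg => (H₁ ⊓ H₂).normalCore_le hg
  obtain ⟨g, hg1, hg⟩ := leaf (hA.sub H hHfi) hFR hF' hℓ hℓ'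
    (fun g => hH₁ g (hle _ g.2).1) (fun g => hH₂ g (hle _ g.2).2) hx₀ htw
  let K : Subgroup G := H ⊓ ⨅ F : {F : E → ℂ // Cls FR F}, fixSub hA F.1
  have hKmem : ∀ {k : G}, k ∈ K ↔ k ∈ H ∧ ∀ F, Cls FR F → ∀ z ∈ ball, F (m k z) = F z := by
    intro k
    simp only [K, Subgroup.mem_inf, Subgroup.mem_iInf, mem_fixSub, Subtype.forall]
  have hNS : NS H K := by
    refine ⟨inf_le_left, ?_, ?_⟩
    · intro hbot
      have h1 : (g : G) ∈ K := hKmem.2 ⟨g.2, hg⟩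
      rw [hbot, Subgroup.mem_bot] at h1
      exact hg1 (Subtype.ext h1)
    · intro h hh n hn
      obtain ⟨hn1, hn2⟩ := hKmem.1 hn
      refine hKmem.2 ⟨H.mul_mem (H.mul_mem hh hn1) (H.inv_mem hh), fun F hF z hz => ?_⟩
      have hb : ∃ b : ℂ, ∀ z ∈ ball, FR (m h z) = FR z + b := by
        obtain ⟨n₁, hn₁⟩ := hH₁ h (hle _ hh).1
        exact add_const hA hFR ⟨_, hn₁⟩
      have h1 := hn2 _ (hF.comp hA hFR hb) (m h⁻¹ z) (hA.mem _ hz)
      rw [hA.mul _ _ z hz, hA.mul _ _ _ (hA.mem _ hz)]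
      calc F (m h (m n (m h⁻¹ z))) = F (m h (m h⁻¹ z)) := h1
        _ = F z := by rw [hA.inv_right h hz]
  refine ⟨K.normalCore, K.normalCore_normal, core_ne hcp htf hHn hHfi hNS, ?_⟩
  intro F hF g hg z hz
  exact (hKmem.1 (K.normalCore_le hg)).2 F hF z hz

theorem lemD (hA : BAct G m) (hcp : CommPow G) (htf : TorFree G) (A : Set (E → ℂ))
    {FR : E → ℂ} (hRA : FR ∈ A) (hnc : ∃ z ∈ ball, ∃ j, dd j FR z ≠ 0)
    (hJ : ∀ F ∈ A, Cls FR F) (hper : ∀ F ∈ A, Per m F) :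
    ∃ N : Subgroup G, N.Normal ∧ N ≠ ⊥ ∧ ∀ F ∈ A, Invis m N F := by
  have hFR : Hol FR := (hJ FR hRA).1
  by_cases hre : ∀ F ∈ A, ∀ z ∈ ball, ∀ j, (dd j F z * conj (dd j FR z)).im = 0
  · obtain ⟨N, hN, hNb, hfix⟩ := lemD1 hA hcp hFR hnc (hper FR hRA)
    refine ⟨N, hN, hNb, fun F hF g hg c hc => ?_⟩
    obtain ⟨a, b, hab⟩ := real_dep (hJ F hF).1 hFR (hJ F hF).2 hnc (hre F hF)
    have h1 := hc 0 zero_mem_ball
    rw [hab _ (hA.mem g zero_mem_ball), hab _ zero_mem_ball, hfix g hg 0 zero_mem_ball] at h1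
    linarith
  · push Not at hre
    obtain ⟨F', hF', x₀, hx₀, j, hj⟩ := hre
    obtain ⟨N, hN, hNb, hfix⟩ := lemD2 hA hcp htf hFR (hper FR hRA) (hJ F' hF') (hper F' hF')
      hx₀ ⟨j, hj⟩
    refine ⟨N, hN, hNb, fun F hF g hg c hc => ?_⟩
    have h1 := hc 0 zero_mem_ball
    rw [hfix F (hJ F hF) g hg 0 zero_mem_ball] at h1
    linarith

end Pool.Agent.H89.SG
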