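import Pool.Agent.H89.SG.Top

/-!
# LgA: homotheties are contractions of the ball

Claim `dl (t x) (t z) ≤ dl x z` for `0 ≤ t ≤ 1`. With `s = t²`, `X = nsq x`, `Y = nsq z`,
`w = her x z`, `R = Re w`, `P = |w|² ≤ X Y`, it says
`(1 - s X)(1 - s Y)(1 - 2 R + P) ≥ (1 - X)(1 - Y)(1 - 2 s R + s² P)`.
The difference `f` is affine in `R` with slope `-2 [(1 - sX)(1 - sY) - s (1 - X)(1 - Y)]
= -2 (1 - s)(1 - s X Y) ≤ 0`, and `R ≤ √P =: p`, so it suffices to treat `R = p`:
`(1 - sX)(1 - sY)(1 - p)² ≥ (1 - X)(1 - Y)(1 - s p)²`. `(1 - p)/(1 - s p)` is decreasing in `p`, so it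
suffices to treat `p = q := √(X Y)`. With `A = X + Y ≥ 2 q`:
`(1 - q)²(1 - s A + s² q²) - (1 - A + q²)(1 - s q)²` is affine in `A` with slope
`(1 - s q)² - s (1 - q)² = (1 - √s)(1 + √s q) ((1 - s q) + √s (1 - q)) ≥ 0` and vanishes at
`A = 2 q`.
-/

set_option autoImplicit false

namespace Pool.Agent.H89.SG

open Complex MeasureTheory
open scoped ContDiff ComplexConjugate

/-- the inequality at `p = q = √(X Y)` -/
theorem lgA_real1 {X Y s q : ℝ} (hq0 : 0 ≤ q) (hq1 : q < 1) (_hs : 0 ≤ s) (hs1 : s ≤ 1)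
    (hq : q ^ 2 = X * Y) (hA : 2 * q ≤ X + Y) :
    (1 - X) * (1 - Y) * (1 - s * q) ^ 2 ≤ (1 - s * X) * (1 - s * Y) * (1 - q) ^ 2 := by
  have key : (1 - s * X) * (1 - s * Y) * (1 - q) ^ 2 - (1 - X) * (1 - Y) * (1 - s * q) ^ 2
      = (X + Y - 2 * q) * ((1 - s * q) ^ 2 - s * (1 - q) ^ 2) := by
    have e1 : (1 - s * X) * (1 - s * Y) = 1 - s * (X + Y) + s ^ 2 * q ^ 2 := by rw [hq]; ring
    have e2 : (1 - X) * (1 - Y) = 1 - (X + Y) + q ^ 2 := by rw [hq]; ring
    rw [e1, e2]; ring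
  have h1 : s * (1 - q) ^ 2 ≤ (1 - s * q) ^ 2 := by
    have h2 : 1 - q ≤ 1 - s * q := by nlinarith
    have h3 : (1 - q) ^ 2 ≤ (1 - s * q) ^ 2 := by
      apply pow_le_pow_left₀ (by linarith) h2
    nlinarith [sq_nonneg (1 - q)]
  have h4 : 0 ≤ (X + Y - 2 * q) * ((1 - s * q) ^ 2 - s * (1 - q) ^ 2) :=
    mul_nonneg (by linarith) (by linarith)
  linarith

/-- the inequality for real numbers -/
theorem lgA_real {X Y s R P : ℝ} (hX : 0 ≤ X) (hX1 : X < 1) (hY : 0 ≤ Y) (hY1 : Y < 1)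
    (hs : 0 ≤ s) (hs1 : s ≤ 1) (hR : R ^ 2 ≤ P) (hP : P ≤ X * Y) :
    (1 - X) * (1 - Y) * (1 - 2 * s * R + s ^ 2 * P)
      ≤ (1 - s * X) * (1 - s * Y) * (1 - 2 * R + P) := by
  have hP0 : 0 ≤ P := le_trans (sq_nonneg R) hR
  set p := Real.sqrt P with hp
  have hp0 : 0 ≤ p := Real.sqrt_nonneg P
  have hpP : p ^ 2 = P := Real.sq_sqrt hP0
  have hXY : 0 ≤ X * Y := mul_nonneg hX hY
  set q := Real.sqrt (X * Y) with hq
  have hq0 : 0 ≤ q := Real.sqrt_nonneg _
  have hqXY : q ^ 2 = X * Y := Real.sq_sqrt hXY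
  have hpq : p ≤ q := Real.sqrt_le_sqrt hP
  have hXY1 : X * Y < 1 := by nlinarith
  have hq1 : q < 1 := by nlinarith
  have hA : 2 * q ≤ X + Y := by
    have : (2 * q) ^ 2 ≤ (X + Y) ^ 2 := by nlinarith [sq_nonneg (X - Y)]
    exact le_of_sq_le_sq this (by linarith)
  have hRp : R ≤ p := by
    have : R ^ 2 ≤ p ^ 2 := by rw [hpP]; exact hR
    exact le_of_sq_le_sq this hp0
  have h1 := lgA_real1 hq0 hq1 hs hs1 hqXY hA
  have hsq : 0 < 1 - s * q := by nlinarith
  have hsp : 0 < 1 - s * p := by nlinarith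
  have hsX : 0 < 1 - s * X := by nlinarith
  have hsY : 0 < 1 - s * Y := by nlinarith
  -- step 2
  have h2 : (1 - X) * (1 - Y) * (1 - s * p) ^ 2 ≤ (1 - s * X) * (1 - s * Y) * (1 - p) ^ 2 := by
    have h3 : (1 - q) * (1 - s * p) ≤ (1 - p) * (1 - s * q) := by
      have : 0 ≤ (q - p) * (1 - s) := mul_nonneg (by linarith) (by linarith)
      nlinarith
    have h3' : 0 ≤ (1 - q) * (1 - s * p) := mul_nonneg (by linarith) hsp.le
    have h4 : ((1 - q) * (1 - s * p)) ^ 2 ≤ ((1 - p) * (1 - s * q)) ^ 2 :=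
      pow_le_pow_left₀ h3' h3 2
    have h5 : ((1 - X) * (1 - Y) * (1 - s * p) ^ 2) * (1 - s * q) ^ 2
        ≤ ((1 - s * X) * (1 - s * Y) * (1 - p) ^ 2) * (1 - s * q) ^ 2 := by
      calc ((1 - X) * (1 - Y) * (1 - s * p) ^ 2) * (1 - s * q) ^ 2
          = ((1 - X) * (1 - Y) * (1 - s * q) ^ 2) * (1 - s * p) ^ 2 := by ring
        _ ≤ ((1 - s * X) * (1 - s * Y) * (1 - q) ^ 2) * (1 - s * p) ^ 2 :=
            mul_le_mul_of_nonneg_right h1 (sq_nonneg _)
        _ = (1 - s * X) * (1 - s * Y) * ((1 - q) * (1 - s * p)) ^ 2 := by ring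
        _ ≤ (1 - s * X) * (1 - s * Y) * ((1 - p) * (1 - s * q)) ^ 2 :=
            mul_le_mul_of_nonneg_left h4 (mul_pos hsX hsY).le
        _ = ((1 - s * X) * (1 - s * Y) * (1 - p) ^ 2) * (1 - s * q) ^ 2 := by ring
    exact le_of_mul_le_mul_right h5 (by positivity)
  -- step 1
  have h6 : 0 ≤ (p - R) * ((1 - s) * (1 - s * (X * Y))) := by
    have : 0 ≤ 1 - s * (X * Y) := by nlinarith
    exact mul_nonneg (by linarith) (mul_nonneg (by linarith) this)
  have h7 : (1 - s * X) * (1 - s * Y) * (1 - 2 * R + P)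
      - (1 - X) * (1 - Y) * (1 - 2 * s * R + s ^ 2 * P)
      = ((1 - s * X) * (1 - s * Y) * (1 - p) ^ 2 - (1 - X) * (1 - Y) * (1 - s * p) ^ 2)
        + 2 * ((p - R) * ((1 - s) * (1 - s * (X * Y)))) := by
    rw [← hpP]; ring
  linarith

theorem dl_smul_le {x z : E} (hx : x ∈ ball) (hz : z ∈ ball) {t : ℝ} (ht : 0 ≤ t) (ht1 : t ≤ 1) :
    dl (t • x) (t • z) ≤ dl x z := by
  have hX1 : nsq x < 1 := hx
  have hY1 : nsq z < 1 := hz
  have hX : 0 ≤ nsq x := add_nonneg (normSq_nonneg _) (normSq_nonneg _)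
  have hY : 0 ≤ nsq z := add_nonneg (normSq_nonneg _) (normSq_nonneg _)
  have hnx : nsq (t • x) = t ^ 2 * nsq x := by
    simp only [nsq, Prod.smul_fst, Prod.smul_snd, normSq_apply, real_smul, mul_re, mul_im,
      ofReal_re, ofReal_im]
    ring
  have hnz : nsq (t • z) = t ^ 2 * nsq z := by
    simp only [nsq, Prod.smul_fst, Prod.smul_snd, normSq_apply, real_smul, mul_re, mul_im,
      ofReal_re, ofReal_im]
    ring
  have hh : her (t • x) (t • z) = ((t ^ 2 : ℝ) : ℂ) * her x z := by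
    simp only [her, Prod.smul_fst, Prod.smul_snd, real_smul, map_mul, conj_ofReal]
    push_cast
    ring
  have hs : 0 ≤ t ^ 2 := sq_nonneg t
  have hs1 : t ^ 2 ≤ 1 := by nlinarith
  have hR : (her x z).re ^ 2 ≤ normSq (her x z) := by
    rw [normSq_apply]; nlinarith [sq_nonneg (her x z).im]
  have hP : normSq (her x z) ≤ nsq x * nsq z := by
    have e : nsq x * nsq z - normSq (her x z) = normSq (x.1 * z.2 - x.2 * z.1) := by
      simp only [nsq, her, normSq_apply, add_re, add_im, mul_re, mul_im, conj_re, conj_im, sub_re,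
        sub_im]
      ring
    have := normSq_nonneg (x.1 * z.2 - x.2 * z.1)
    linarith
  have key := lgA_real hX hX1 hY hY1 hs hs1 hR hP
  have hN : ∀ (s : ℝ) (w : ℂ), normSq (1 - (s : ℂ) * w) = 1 - 2 * s * w.re + s ^ 2 * normSq w := by
    intro s w
    simp only [normSq_apply, sub_re, sub_im, one_re, one_im, mul_re, mul_im, ofReal_re, ofReal_im]
    ring
  have hN1 : normSq (1 - her x z) = 1 - 2 * (her x z).re + normSq (her x z) := by
    have := hN 1 (her x z)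
    rw [ofReal_one, one_mul] at this
    rw [this]; ring
  have hPlt : normSq (her x z) < 1 := by
    have : nsq x * nsq z < 1 := by nlinarith
    linarith
  have hpos : ∀ s : ℝ, 0 ≤ s → s ≤ 1 → 0 < 1 - 2 * s * (her x z).re + s ^ 2 * normSq (her x z) := by
    intro s h0 h1
    have hsr : s * (her x z).re < 1 := by
      have h2 : (her x z).re < 1 := by
        by_contra hc
        push Not at hc
        have : 1 ≤ (her x z).re ^ 2 := by nlinarith
        linarith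
      by_cases h3 : 0 ≤ (her x z).re
      · nlinarith
      · push Not at h3
        nlinarith
    have : 0 < (1 - s * (her x z).re) ^ 2 := by
      have : 0 < 1 - s * (her x z).re := by linarith
      positivity
    nlinarith [mul_le_mul_of_nonneg_left hR (sq_nonneg s)]
  have hD1 : 0 < 1 - 2 * (her x z).re + normSq (her x z) := by
    have := hpos 1 (by norm_num) le_rfl
    simpa using this
  have hD2 := hpos (t ^ 2) hs hs1
  unfold dl
  rw [hnx, hnz, hh, hN (t ^ 2) (her x z), hN1]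
  have : (1 - nsq x) * (1 - nsq z) / (1 - 2 * (her x z).re + normSq (her x z))
      ≤ (1 - t ^ 2 * nsq x) * (1 - t ^ 2 * nsq z)
        / (1 - 2 * t ^ 2 * (her x z).re + (t ^ 2) ^ 2 * normSq (her x z)) := by
    rw [div_le_div_iff₀ hD1 hD2]
    linarith [key]
  linarith

end Pool.Agent.H89.SG
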