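import Pool.Agent.H89.SG.AvS

/-!
# Mvp0: the mean value property at `0` implies that the Laplacian at `0` vanishes

Let `U z = (u z : ℂ)`. Choose for small `ε` a kernel `k` with `Ker k ε`, `k 0 > 0`
(`exists_ker_small`). `∫ k (nsq z) (u z - u 0) dμ = Av k u 0 - u 0 = 0` (`Av_const`,
`dl_zero_left`). The measure `mu` and `nsq` are invariant under the unitary maps
`σ : (z₁, z₂) ↦ (ζ₁ z₁, ζ₂ z₂)`, `ζ₁, ζ₂ ∈ {1, i, -1, -i}`, and their compositions with the swap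
(`z₁ ↔ z₂`): a group of order 32 (these are automorphisms of the ball, `integral_mu_comp`, with
block diagonal matrices; or measure preserving linear maps). Put `ũ z = (1/32) ∑_σ u (σ z)`.
Then `∫ k (nsq z) (ũ z - u 0) dμ = 0`. By Taylor's formula, for `nsq z ≤ 1/2`,
`|u z - u 0 - Du(0) z - (1/2) D²u(0)(z, z)| ≤ C ‖z‖³`, and
`(1/2) D²u(0)(z, z) = Re (∑ a_ij z_i z_j) + ∑ U_ij' z_i conj z_j`, `U_ij' = dd i (db j U) 0`. The
average over `σ` kills `Du(0)`, `z_i z_j` and the off-diagonal terms, and gives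
`(1/2) (U_00' + U_11') nsq z`. Hence `|ũ z - u 0 - (1/2) Λ nsq z| ≤ C' (nsq z)^{3/2}`,
`Λ = U_00' + U_11'` (real), and `|Λ| / 2 * ∫ k (nsq z) nsq z dμ ≤ C' √ε ∫ k (nsq z) nsq z dμ`. The
integral is positive, so `|Λ| ≤ 2 C' √ε` for all small `ε`.

(Alternative: `G t = ∫ k (nsq w) u (t w) dw` for suitable kernels is constant in `t`, its second
derivative at `0` is `∫ k (nsq w) D²u(0)(w, w) dw = 0`, and this equals a positive multiple of `Λ`
by the symmetries above.)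
-/

set_option autoImplicit false

namespace Pool.Agent.H89.SG

open Complex MeasureTheory
open scoped ContDiff ComplexConjugate

namespace Mvp0

/-- second order Taylor expansion at `0` -/
theorem taylor {u : E → ℝ} (hu : ContDiffOn ℝ ∞ u ball) {η : ℝ} (hη : 0 < η) :
    ∃ δ > 0, ∀ z : E, ‖z‖ ≤ δ →
      |u z - u 0 - fderiv ℝ u 0 z - fderiv ℝ (fderiv ℝ u) 0 z z / 2| ≤ η * ‖z‖ ^ 2 := by
  have hu0 : ContDiffAt ℝ ∞ u 0 := hu.contDiffAt (isOpen_ball.mem_nhds zero_mem_ball)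
  have hsymm : ∀ v w, fderiv ℝ (fderiv ℝ u) 0 v w = fderiv ℝ (fderiv ℝ u) 0 w v := by
    have := hu0.isSymmSndFDerivAt (by simp only [minSmoothness_of_isRCLikeNormedField]; exact WithTop.coe_le_coe.2 le_top)
    exact fun v w => this v w
  have hd : HasFDerivAt (fderiv ℝ u) (fderiv ℝ (fderiv ℝ u) 0) 0 := by
    apply DifferentiableAt.hasFDerivAt
    exact (hu0.fderiv_right (m := 1) (WithTop.coe_le_coe.2 le_top)).differentiableAt (by simp)
  have h1 : ∀ᶠ z in nhds (0 : E),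
      ‖fderiv ℝ u z - fderiv ℝ u 0 - fderiv ℝ (fderiv ℝ u) 0 z‖ ≤ η * ‖z‖ := by
    have := hd.isLittleO.bound hη
    simpa using this
  have h2 : ∀ᶠ z in nhds (0 : E), z ∈ ball := isOpen_ball.mem_nhds zero_mem_ball
  obtain ⟨δ', hδ', hδ⟩ := Metric.eventually_nhds_iff_ball.1 (h1.and h2)
  refine ⟨δ' / 2, by positivity, fun z hz => ?_⟩
  set r : E → ℝ := fun z => u z - fderiv ℝ u 0 z - fderiv ℝ (fderiv ℝ u) 0 z z / 2 with hr
  have key : ‖r z - r 0‖ ≤ (η * ‖z‖) * ‖z - 0‖ := by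
    apply Convex.norm_image_sub_le_of_norm_hasFDerivWithin_le (s := Metric.closedBall (0 : E) ‖z‖)
      (f' := fun w => fderiv ℝ u w - fderiv ℝ u 0 - fderiv ℝ (fderiv ℝ u) 0 w)
    · intro w hw
      have hw' : w ∈ Metric.ball (0 : E) δ' := by
        rw [Metric.mem_ball, dist_zero_right]
        rw [Metric.mem_closedBall, dist_zero_right] at hw
        linarith
      have hwb := (hδ w hw').2
      have hA : HasFDerivAt u (fderiv ℝ u w) w :=
        ((hu.contDiffAt (isOpen_ball.mem_nhds hwb)).differentiableAt (by simp)).hasFDerivAt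
      have hB : HasFDerivAt (fun z : E => fderiv ℝ u 0 z) (fderiv ℝ u 0) w :=
        (fderiv ℝ u 0).hasFDerivAt
      have hC : HasFDerivAt (fun z : E => fderiv ℝ (fderiv ℝ u) 0 z z / 2)
          (fderiv ℝ (fderiv ℝ u) 0 w) w := by
        have := ((fderiv ℝ (fderiv ℝ u) 0).hasFDerivAt (x := w)).clm_apply (hasFDerivAt_id w)
        have h3 := this.mul_const (1 / 2 : ℝ)
        refine (h3.congr_fderiv ?_).congr_of_eventuallyEq ?_
        · ext v <;> simp [hsymm _ w] <;> ring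
        · filter_upwards with v
          simp [div_eq_mul_inv]
      exact ((hA.sub hB).sub hC).hasFDerivWithinAt
    · intro w hw
      have hw' : w ∈ Metric.ball (0 : E) δ' := by
        rw [Metric.mem_ball, dist_zero_right]
        rw [Metric.mem_closedBall, dist_zero_right] at hw
        linarith
      refine ((hδ w hw').1).trans ?_
      rw [Metric.mem_closedBall, dist_zero_right] at hw
      gcongr
    · exact convex_closedBall _ _
    · simp
    · simp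
  have e : r z - r 0 = u z - u 0 - fderiv ℝ u 0 z - fderiv ℝ (fderiv ℝ u) 0 z z / 2 := by
    simp [hr]; ring
  rw [← Real.norm_eq_abs, ← e]
  refine key.trans (le_of_eq ?_)
  rw [sub_zero]; ring


/-! ### symmetrization -/

/-- the point with given real coordinates -/
def mk4 (a b c d : ℝ) : E := (⟨a, b⟩, ⟨c, d⟩)

theorem eq_mk4 (w : E) : w = mk4 w.1.re w.1.im w.2.re w.2.im := by
  simp [mk4]

noncomputable def s1 (w : E) : E := (I * w.1, I * w.2)
noncomputable def s2 (w : E) : E := (-w.1, -w.2)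
noncomputable def s3 (w : E) : E := (w.1, -w.2)
noncomputable def s4 (w : E) : E := (w.2, w.1)

theorem s1_mk (a b c d : ℝ) : s1 (mk4 a b c d) = mk4 (-b) a (-d) c := by
  simp [s1, mk4, Complex.ext_iff]
theorem s2_mk (a b c d : ℝ) : s2 (mk4 a b c d) = mk4 (-a) (-b) (-c) (-d) := by
  simp [s2, mk4, Complex.ext_iff]
theorem s3_mk (a b c d : ℝ) : s3 (mk4 a b c d) = mk4 a b (-c) (-d) := by
  simp [s3, mk4, Complex.ext_iff]
theorem s4_mk (a b c d : ℝ) : s4 (mk4 a b c d) = mk4 c d a b := by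
  simp [s4, mk4]

theorem isAut_s1 : IsAut s1 := by
  refine ⟨Matrix.diagonal ![I, I, 1], ?_, fun z _ => ?_⟩
  · unfold UM Jm
    rw [Matrix.diagonal_conjTranspose, Matrix.diagonal_mul_diagonal, Matrix.diagonal_mul_diagonal]
    congr 1
    ext i
    fin_cases i <;> simp
  · simp [fl, den, s1]

theorem isAut_s2 : IsAut s2 := by
  refine ⟨Matrix.diagonal ![-1, -1, 1], ?_, fun z _ => ?_⟩
  · unfold UM Jm
    rw [Matrix.diagonal_conjTranspose, Matrix.diagonal_mul_diagonal, Matrix.diagonal_mul_diagonal]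
    congr 1
    ext i
    fin_cases i <;> simp
  · simp [fl, den, s2]

theorem isAut_s3 : IsAut s3 := by
  refine ⟨Matrix.diagonal ![1, -1, 1], ?_, fun z _ => ?_⟩
  · unfold UM Jm
    rw [Matrix.diagonal_conjTranspose, Matrix.diagonal_mul_diagonal, Matrix.diagonal_mul_diagonal]
    congr 1
    ext i
    fin_cases i <;> simp
  · simp [fl, den, s3]

theorem isAut_s4 : IsAut s4 := by
  refine ⟨!![0, 1, 0; 1, 0, 0; 0, 0, 1], ?_, fun z _ => ?_⟩
  · unfold UM Jm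
    ext i j
    fin_cases i <;> fin_cases j <;>
      simp [Matrix.mul_apply, Fin.sum_univ_succ, Matrix.diagonal]
  · simp [fl, den, s4]

/-- adding the composition -/
def Sy (σ : E → E) (f : E → ℝ) (w : E) : ℝ := f w + f (σ w)

/-- continuous with the mean value property at `0` -/
def MV (f : E → ℝ) : Prop :=
  ContinuousOn f ball ∧ ∀ (k : ℝ → ℝ) (r₁ : ℝ), Ker k r₁ → Av k f 0 = f 0

theorem MV.sy {f : E → ℝ} {σ : E → E} (hf : MV f) (hσ : IsAut σ) (h0 : σ 0 = 0) :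
    MV (Sy σ f) := by
  have hc : ContinuousOn (fun w => f (σ w)) ball :=
    hf.1.comp hσ.smooth.continuousOn (fun z hz => hσ.maps hz)
  refine ⟨hf.1.add hc, fun k r₁ hk => ?_⟩
  have h1 : Av k (Sy σ f) 0 = Av k f 0 + Av k (fun w => f (σ w)) 0 :=
    Av_add hk hf.1 hc zero_mem_ball
  rw [h1, Av_aut hσ zero_mem_ball, h0, hf.2 k r₁ hk, Sy, h0]

/-- the symmetrization -/
noncomputable def SS (f : E → ℝ) : E → ℝ := Sy s4 (Sy s3 (Sy s2 (Sy s1 f)))

theorem MV.ss {f : E → ℝ} (hf : MV f) : MV (SS f) := by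
  refine MV.sy (MV.sy (MV.sy (MV.sy hf isAut_s1 ?_) isAut_s2 ?_) isAut_s3 ?_) isAut_s4 ?_ <;>
  simp [s1, s2, s3, s4, Prod.ext_iff]

theorem SS_mk (f : E → ℝ) (a b c d : ℝ) : SS f (mk4 a b c d) =
    f (mk4 a b c d) + f (mk4 (-b) a (-d) c) + f (mk4 (-a) (-b) (-c) (-d)) +
      f (mk4 b (-a) d (-c)) +
    (f (mk4 a b (-c) (-d)) + f (mk4 (-b) a d (-c)) + f (mk4 (-a) (-b) c d) +
      f (mk4 b (-a) (-d) c)) +
    (f (mk4 c d a b) + f (mk4 (-d) c (-b) a) + f (mk4 (-c) (-d) (-a) (-b)) +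
      f (mk4 d (-c) b (-a))) +
    (f (mk4 c d (-a) (-b)) + f (mk4 (-d) c b (-a)) + f (mk4 (-c) (-d) a b) +
      f (mk4 d (-c) (-b) a)) := by
  simp only [SS, Sy, s1_mk, s2_mk, s3_mk, s4_mk, neg_neg]
  ring


theorem mk4_eq (a b c d : ℝ) : mk4 a b c d =
    a • mk4 1 0 0 0 + b • mk4 0 1 0 0 + c • mk4 0 0 1 0 + d • mk4 0 0 0 1 := by
  simp [mk4, Prod.ext_iff, Complex.ext_iff]

theorem nsq_mk4 (a b c d : ℝ) : nsq (mk4 a b c d) = a ^ 2 + b ^ 2 + c ^ 2 + d ^ 2 := by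
  simp [nsq, mk4, Complex.normSq_apply]; ring

theorem lin_mk4 (L : E →L[ℝ] ℝ) (a b c d : ℝ) : L (mk4 a b c d) =
    a * L (mk4 1 0 0 0) + b * L (mk4 0 1 0 0) + c * L (mk4 0 0 1 0) + d * L (mk4 0 0 0 1) := by
  rw [mk4_eq a b c d]
  simp only [map_add, map_smul, smul_eq_mul]

/-- the trace of a bilinear form -/
noncomputable def tr (B : E →L[ℝ] E →L[ℝ] ℝ) : ℝ :=
  B (mk4 1 0 0 0) (mk4 1 0 0 0) + B (mk4 0 1 0 0) (mk4 0 1 0 0) +
    B (mk4 0 0 1 0) (mk4 0 0 1 0) + B (mk4 0 0 0 1) (mk4 0 0 0 1)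

theorem bil_mk4 (B : E →L[ℝ] E →L[ℝ] ℝ) (a b c d : ℝ) :
    B (mk4 a b c d) (mk4 a b c d) =
    a * (a * B (mk4 1 0 0 0) (mk4 1 0 0 0) + b * B (mk4 1 0 0 0) (mk4 0 1 0 0) +
      c * B (mk4 1 0 0 0) (mk4 0 0 1 0) + d * B (mk4 1 0 0 0) (mk4 0 0 0 1)) +
    b * (a * B (mk4 0 1 0 0) (mk4 1 0 0 0) + b * B (mk4 0 1 0 0) (mk4 0 1 0 0) +
      c * B (mk4 0 1 0 0) (mk4 0 0 1 0) + d * B (mk4 0 1 0 0) (mk4 0 0 0 1)) +
    c * (a * B (mk4 0 0 1 0) (mk4 1 0 0 0) + b * B (mk4 0 0 1 0) (mk4 0 1 0 0) +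
      c * B (mk4 0 0 1 0) (mk4 0 0 1 0) + d * B (mk4 0 0 1 0) (mk4 0 0 0 1)) +
    d * (a * B (mk4 0 0 0 1) (mk4 1 0 0 0) + b * B (mk4 0 0 0 1) (mk4 0 1 0 0) +
      c * B (mk4 0 0 0 1) (mk4 0 0 1 0) + d * B (mk4 0 0 0 1) (mk4 0 0 0 1)) := by
  have h : B (mk4 a b c d) = a • B (mk4 1 0 0 0) + b • B (mk4 0 1 0 0) +
      c • B (mk4 0 0 1 0) + d • B (mk4 0 0 0 1) := by
    conv_lhs => rw [mk4_eq a b c d]
    simp only [map_add, map_smul]
  rw [h]
  simp only [add_apply, smul_apply, smul_eq_mul]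
  rw [lin_mk4 (B (mk4 1 0 0 0)) a b c d, lin_mk4 (B (mk4 0 1 0 0)) a b c d,
    lin_mk4 (B (mk4 0 0 1 0)) a b c d, lin_mk4 (B (mk4 0 0 0 1)) a b c d]

theorem SS_quad (L : E →L[ℝ] ℝ) (B : E →L[ℝ] E →L[ℝ] ℝ) (w : E) :
    SS (fun z => L z + B z z / 2) w = 2 * tr B * nsq w := by
  rw [eq_mk4 w]
  generalize w.1.re = a
  generalize w.1.im = b
  generalize w.2.re = c
  generalize w.2.im = d
  rw [SS_mk, nsq_mk4, tr]
  have hL := lin_mk4 L
  have hB := bil_mk4 B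
  rw [hL a b c d, hB a b c d, hL (-b) a (-d) c, hB (-b) a (-d) c, hL (-a) (-b) (-c) (-d),
    hB (-a) (-b) (-c) (-d), hL b (-a) d (-c), hB b (-a) d (-c),
    hL a b (-c) (-d), hB a b (-c) (-d), hL (-b) a d (-c), hB (-b) a d (-c),
    hL (-a) (-b) c d, hB (-a) (-b) c d, hL b (-a) (-d) c, hB b (-a) (-d) c,
    hL c d a b, hB c d a b, hL (-d) c (-b) a, hB (-d) c (-b) a,
    hL (-c) (-d) (-a) (-b), hB (-c) (-d) (-a) (-b), hL d (-c) b (-a), hB d (-c) b (-a),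
    hL c d (-a) (-b), hB c d (-a) (-b), hL (-d) c b (-a), hB (-d) c b (-a),
    hL (-c) (-d) a b, hB (-c) (-d) a b, hL d (-c) (-b) a, hB d (-c) (-b) a]
  generalize B (mk4 1 0 0 0) (mk4 1 0 0 0) = b11
  generalize B (mk4 0 1 0 0) (mk4 0 1 0 0) = b22
  generalize B (mk4 0 0 1 0) (mk4 0 0 1 0) = b33
  generalize B (mk4 0 0 0 1) (mk4 0 0 0 1) = b44
  ring

theorem Sy_bound {σ : E → E} {f : E → ℝ} {C ρ : ℝ} (hσ : ∀ z, ‖σ z‖ = ‖z‖)
    (h : ∀ z, ‖z‖ = ρ → |f z| ≤ C) : ∀ z, ‖z‖ = ρ → |Sy σ f z| ≤ 2 * C := by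
  intro z hz
  have h1 := h z hz
  have h2 := h (σ z) ((hσ z).trans hz)
  calc |Sy σ f z| ≤ |f z| + |f (σ z)| := abs_add_le _ _
    _ ≤ 2 * C := by linarith

theorem norm_s1 (z : E) : ‖s1 z‖ = ‖z‖ := by simp [s1, Prod.norm_def]
theorem norm_s2 (z : E) : ‖s2 z‖ = ‖z‖ := by simp [s2, Prod.norm_def]
theorem norm_s3 (z : E) : ‖s3 z‖ = ‖z‖ := by simp [s3, Prod.norm_def]
theorem norm_s4 (z : E) : ‖s4 z‖ = ‖z‖ := by simp [s4, Prod.norm_def, max_comm]

theorem SS_bound {f : E → ℝ} {C ρ : ℝ} (h : ∀ z, ‖z‖ = ρ → |f z| ≤ C) (z : E) (hz : ‖z‖ = ρ) :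
    |SS f z| ≤ 16 * C := by
  have := Sy_bound norm_s4 (Sy_bound norm_s3 (Sy_bound norm_s2 (Sy_bound norm_s1 h))) z hz
  refine this.trans (le_of_eq ?_)
  ring

theorem SS_split (f g : E → ℝ) (c : ℝ) (w : E) :
    SS (fun z => f z - c - g z) w = SS f w - 16 * c - SS g w := by
  simp only [SS, Sy]; ring

theorem SS_zero (f : E → ℝ) : SS f 0 = 16 * f 0 := by
  have : (0 : E) = mk4 0 0 0 0 := by simp [mk4, Prod.ext_iff, Complex.ext_iff]
  rw [this, SS_mk]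
  simp only [neg_zero]
  ring

theorem pos_case {u : E → ℝ} (hu : ContDiffOn ℝ ∞ u ball)
    (h : ∀ (k : ℝ → ℝ) (r₁ : ℝ), Ker k r₁ → Av k u 0 = u 0)
    (hT : 0 < tr (fderiv ℝ (fderiv ℝ u) 0)) : False := by
  set T := tr (fderiv ℝ (fderiv ℝ u) 0) with hTd
  obtain ⟨δ, hδ, hR⟩ := taylor hu (η := T / 16) (by positivity)
  have hlow : ∀ z : E, ‖z‖ ≤ δ → T * nsq z ≤ SS u z - 16 * u 0 := by
    intro z hz
    have h1 : |SS (fun z => u z - u 0 -
        (fderiv ℝ u 0 z + fderiv ℝ (fderiv ℝ u) 0 z z / 2)) z| ≤ 16 * (T / 16 * ‖z‖ ^ 2) := by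
      apply SS_bound (ρ := ‖z‖) _ z rfl
      intro y hy
      rw [← hy]
      have := hR y (by rw [hy]; exact hz)
      rwa [sub_sub _ (fderiv ℝ u 0 y)] at this
    rw [SS_split, SS_quad, ← hTd] at h1
    have h2 := (abs_le.1 h1).1
    have h3 := norm_sq_le_nsq z
    nlinarith
  have hms : MV (SS u) := MV.ss ⟨hu.continuousOn, h⟩
  set ε := min (δ ^ 2) (1 / 2) with hε
  have hε0 : 0 < ε := by positivity
  have hε1 : ε < 1 := lt_of_le_of_lt (min_le_right _ _) (by norm_num)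
  obtain ⟨k, hk, hk0⟩ := exists_ker_small hε0 hε1
  have hcc : ContinuousOn (fun z : E => SS u z - 16 * u 0) ball := hms.1.sub continuousOn_const
  have hAv : Av k (fun z => SS u z - 16 * u 0) 0 = 0 := by
    rw [Av_sub hk hms.1 continuousOn_const zero_mem_ball, Av_const hk zero_mem_ball,
      hms.2 k ε hk, SS_zero, sub_self]
  have hint := Av_integrable hk hcc zero_mem_ball
  have hge : ∀ z ∈ ball, 0 ≤ k (dl 0 z) * (SS u z - 16 * u 0) := by
    intro z _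
    rw [dl_zero_left]
    rcases lt_or_ge (nsq z) ε with hz | hz
    · have h3 := norm_sq_le_nsq z
      have h4 : ‖z‖ ≤ δ := by
        apply le_of_sq_le_sq _ hδ.le
        exact h3.trans (hz.le.trans (min_le_left _ _))
      exact mul_nonneg (hk.nonneg _) (le_trans (by have := nsq_nonneg z; positivity) (hlow z h4))
    · rw [hk.supp _ hz, zero_mul]
  have hzero := eq_zero_of_integral_zero (f := fun z => k (dl 0 z) * (SS u z - 16 * u 0)) (by
    refine ContinuousOn.mul ?_ hcc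
    have : (fun z : E => k (dl 0 z)) = fun z => k (nsq z) := by
      ext z; rw [dl_zero_left]
    rw [this]
    exact (hk.smooth.continuous.comp continuous_nsq).continuousOn) hge hint hAv
  have hev : ∀ᶠ t in nhdsWithin (0 : ℝ) (Set.Ioi 0), 0 < k (t ^ 2) ∧ t < δ ∧ t < 1 := by
    apply Filter.Eventually.filter_mono nhdsWithin_le_nhds
    have hcont : Continuous fun t : ℝ => k (t ^ 2) := hk.smooth.continuous.comp (by fun_prop)
    refine (hcont.continuousAt.eventually (lt_mem_nhds ?_)).and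
      ((gt_mem_nhds hδ).and (gt_mem_nhds one_pos))
    simpa using hk0
  obtain ⟨t, ⟨hkt, htδ, ht1⟩, ht0⟩ := (hev.and self_mem_nhdsWithin).exists
  have ht0' : 0 < t := ht0
  have hn : nsq (mk4 t 0 0 0) = t ^ 2 := by rw [nsq_mk4]; ring
  have hb : mk4 t 0 0 0 ∈ ball := by
    show nsq _ < 1
    rw [hn]; nlinarith
  have hnorm : ‖mk4 t 0 0 0‖ ≤ δ := by
    have h3 := norm_sq_le_nsq (mk4 t 0 0 0)
    rw [hn] at h3
    exact (le_of_sq_le_sq h3 ht0'.le).trans htδ.le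
  have h5 := hzero _ hb
  have h6 := hlow _ hnorm
  simp only [dl_zero_left] at h5
  rw [hn] at h5 h6
  have h7 : 0 < T * t ^ 2 := by positivity
  have h8 : 0 < k (t ^ 2) * (SS u (mk4 t 0 0 0) - 16 * u 0) := mul_pos hkt (lt_of_lt_of_le h7 h6)
  exact h8.ne' h5

theorem ddb_zero {u : E → ℝ} (hu : ContDiffOn ℝ ∞ u ball) (j : Fin 2) :
    dd j (db j (fun z => (u z : ℂ))) 0 =
      (((fderiv ℝ (fderiv ℝ u) 0 (bs j) (bs j) +
        fderiv ℝ (fderiv ℝ u) 0 (I • bs j) (I • bs j)) / 4 : ℝ) : ℂ) := by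
  have hu0 : ContDiffAt ℝ ∞ u 0 := hu.contDiffAt (isOpen_ball.mem_nhds zero_mem_ball)
  have hsymm : ∀ v w, fderiv ℝ (fderiv ℝ u) 0 v w = fderiv ℝ (fderiv ℝ u) 0 w v := by
    have := hu0.isSymmSndFDerivAt
      (by simp only [minSmoothness_of_isRCLikeNormedField]; exact WithTop.coe_le_coe.2 le_top)
    exact fun v w => this v w
  have hd : HasFDerivAt (fderiv ℝ u) (fderiv ℝ (fderiv ℝ u) 0) 0 := by
    apply DifferentiableAt.hasFDerivAt
    exact (hu0.fderiv_right (m := 1) (WithTop.coe_le_coe.2 le_top)).differentiableAt (by simp)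
  have hev : db j (fun z => (u z : ℂ)) =ᶠ[nhds 0] fun w =>
      (((fderiv ℝ u w (bs j) : ℝ) : ℂ) + I * ((fderiv ℝ u w (I • bs j) : ℝ) : ℂ)) / 2 := by
    filter_upwards [isOpen_ball.mem_nhds zero_mem_ball] with w hw
    have hA : HasFDerivAt u (fderiv ℝ u w) w :=
      ((hu.contDiffAt (isOpen_ball.mem_nhds hw)).differentiableAt (by simp)).hasFDerivAt
    have hB : HasFDerivAt (fun z => (u z : ℂ)) (ofRealCLM.comp (fderiv ℝ u w)) w :=
      ofRealCLM.hasFDerivAt.comp w hA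
    simp only [db, hB.fderiv]
    simp
  have hder : ∀ b : E, HasFDerivAt (fun w => fderiv ℝ u w b)
      ((fderiv ℝ (fderiv ℝ u) 0).flip b) 0 := by
    intro b
    have := hd.clm_apply (hasFDerivAt_const b (0 : E))
    refine this.congr_fderiv ?_
    ext v <;> simp
  have hder2 : ∀ b : E, HasFDerivAt (fun w => ((fderiv ℝ u w b : ℝ) : ℂ))
      (ofRealCLM.comp ((fderiv ℝ (fderiv ℝ u) 0).flip b)) 0 := fun b =>
    ofRealCLM.hasFDerivAt.comp (0 : E) (hder b)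
  have hfin := ((hder2 (bs j)).add ((hder2 (I • bs j)).const_mul I)).mul_const (1 / 2 : ℂ)
  have hG : fderiv ℝ (db j (fun z => (u z : ℂ))) 0 = fderiv ℝ (fun w =>
      ((((fderiv ℝ u w (bs j) : ℝ) : ℂ) + I * ((fderiv ℝ u w (I • bs j) : ℝ) : ℂ))) *
        (1 / 2 : ℂ)) 0 := by
    apply Filter.EventuallyEq.fderiv_eq
    refine hev.trans ?_
    filter_upwards with w
    ring
  rw [dd, hG, show fderiv ℝ (fun w =>
      ((((fderiv ℝ u w (bs j) : ℝ) : ℂ) + I * ((fderiv ℝ u w (I • bs j) : ℝ) : ℂ))) *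
        (1 / 2 : ℂ)) 0 = _ from hfin.fderiv]
  simp only [smul_apply, add_apply,
    ContinuousLinearMap.coe_comp, Function.comp_apply, ofRealCLM_apply,
    ContinuousLinearMap.flip_apply, smul_eq_mul]
  rw [hsymm (I • bs j) (bs j)]
  push_cast
  ring_nf
  rw [I_sq]
  ring

end Mvp0

open Mvp0 in
theorem lap_zero {u : E → ℝ} (hu : ContDiffOn ℝ ∞ u ball)
    (h : ∀ (k : ℝ → ℝ) (r₁ : ℝ), Ker k r₁ → Av k u 0 = u 0) :
    dd 0 (db 0 (fun z => (u z : ℂ))) 0 + dd 1 (db 1 (fun z => (u z : ℂ))) 0 = 0 := by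
  have hT : tr (fderiv ℝ (fderiv ℝ u) 0) = 0 := by
    rcases lt_trichotomy (tr (fderiv ℝ (fderiv ℝ u) 0)) 0 with h1 | h1 | h1
    · exfalso
      apply pos_case (u := fun z => - u z) hu.neg
      · intro k r₁ hk
        have := h k r₁ hk
        simp only [Av] at this ⊢
        simp only [mul_neg, integral_neg, this]
      · have h2 : fderiv ℝ (fun z => - u z) = fun z => - fderiv ℝ u z := by
          ext1 z
          exact fderiv_fun_neg
        have h3 : fderiv ℝ (fderiv ℝ (fun z => - u z)) 0 = - fderiv ℝ (fderiv ℝ u) 0 := by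
          rw [h2]
          exact fderiv_fun_neg
        rw [h3]
        simp only [tr, neg_apply] at h1 ⊢
        linarith
    · exact h1
    · exact (pos_case hu h h1).elim
  have e0 : bs 0 = mk4 1 0 0 0 := by simp [bs, mk4, Prod.ext_iff, Complex.ext_iff]
  have e1 : I • bs 0 = mk4 0 1 0 0 := by simp [bs, mk4, Prod.ext_iff, Complex.ext_iff]
  have e2 : bs 1 = mk4 0 0 1 0 := by simp [bs, mk4, Prod.ext_iff, Complex.ext_iff]
  have e3 : I • bs 1 = mk4 0 0 0 1 := by simp [bs, mk4, Prod.ext_iff, Complex.ext_iff]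
  rw [ddb_zero hu 0, ddb_zero hu 1, ← ofReal_add, e1, e0, e3, e2]
  rw [tr] at hT
  rw [show (fderiv ℝ (fderiv ℝ u) 0 (mk4 1 0 0 0) (mk4 1 0 0 0) +
        fderiv ℝ (fderiv ℝ u) 0 (mk4 0 1 0 0) (mk4 0 1 0 0)) / 4 +
      (fderiv ℝ (fderiv ℝ u) 0 (mk4 0 0 1 0) (mk4 0 0 1 0) +
        fderiv ℝ (fderiv ℝ u) 0 (mk4 0 0 0 1) (mk4 0 0 0 1)) / 4 = 0 by linarith]
  simp

end Pool.Agent.H89.SG
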