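import Pool.Agent.H89.SG.NiceD

/-!
# NiceB: the base set

`htw`: `Im (dd j F' x₀ * conj (dd j FR x₀)) ≠ 0` for some `j`; in particular `dd j FR x₀ ≠ 0`. Say
`j = 1` (or exchange the variables). Since `Jc F' FR = 0`, `dd i F' = h dd i FR` at the points where
`dd 1 FR ≠ 0`, with `h = dd 1 F' / dd 1 FR`, and `Im (h x₀) ≠ 0`.
Let `O₁` be a nice set around `x₀`, small enough that `dd 1 FR ≠ 0` and `Im h` has constant sign and
`|Im h| ≥ c > 0` on `O₁`. Use the real inverse function theorem for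
`Ψ z = (z.1, (Re FR z, Re F' z)) : E → ℂ × (ℝ × ℝ)`: its derivative at `x₀` is injective: `v.1 = 0`,
`b = dd 1 FR v.2`, `Re b = 0`, `Re (h b) = 0` imply `b = 0`, `v.2 = 0`. Take
`O = Ψ⁻¹ (B(x₀.1, δ) × B((Re FR x₀, Re F' x₀), δ)) ⊆ O₁ ∩ V` with `Ψ` a homeomorphism of `O` onto
this product of convex sets. If `x, x' ∈ O` have the same `Re FR` and `Re F'`, then the path
`s ↦ Ψ⁻¹ (s, (a, b))`, `s` from `x.1` to `x'.1`, has velocity `v` with `Re (dFR v) = 0`,
`Re (dF' v) = Re (h dFR v) = 0`, so `dFR v = 0` (`Im h ≠ 0`) and `FR x = FR x'`.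
`O ⊆ O₁` open: `O` is nice (`Nice.mono`).
-/

set_option autoImplicit false

namespace Pool.Agent.H89.SG

open Complex MeasureTheory
open scoped ContDiff ComplexConjugate

theorem Nice.mono {FR : E → ℂ} {O O' : Set E} (h : Nice FR O) (hO' : IsOpen O') (hs : O' ⊆ O) :
    Nice FR O' where
  isOpen := hO'
  sub := hs.trans h.sub
  openMap := fun V hV hVo => h.openMap V (hV.trans hs) hVo
  leaf := fun F hF x hx x' hx' => h.leaf F hF x (hs hx) x' (hs hx')

/-- linear algebra: a twisted function determines the differential -/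
theorem twist_ker {FR F' : E → ℂ} (hFR : Hol FR) (hF' : Cls FR F') {z : E} (hz : z ∈ ball)
    {j : Fin 2} (htw : (dd j F' z * conj (dd j FR z)).im ≠ 0) {v : E}
    (h1 : (fderiv ℝ FR z v).re = 0) (h2 : (fderiv ℝ F' z v).re = 0) : fderiv ℝ FR z v = 0 := by
  have hJ : dd 0 F' z * dd 1 FR z - dd 1 F' z * dd 0 FR z = 0 := hF'.2 z hz
  have h3 : fderiv ℝ F' z v * dd j FR z = dd j F' z * fderiv ℝ FR z v := by
    rw [hFR.fderiv_eq hz, hF'.1.fderiv_eq hz]
    fin_cases j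
    · change (dd 0 F' z * v.1 + dd 1 F' z * v.2) * dd 0 FR z =
        dd 0 F' z * (dd 0 FR z * v.1 + dd 1 FR z * v.2)
      linear_combination -v.2 * hJ
    · change (dd 0 F' z * v.1 + dd 1 F' z * v.2) * dd 1 FR z =
        dd 1 F' z * (dd 0 FR z * v.1 + dd 1 FR z * v.2)
      linear_combination v.1 * hJ
  set β := fderiv ℝ FR z v with hβ
  set α := fderiv ℝ F' z v with hα
  set A := dd j F' z with hA
  set B := dd j FR z with hB
  have h4 : α * (B * conj B) = (A * conj B) * β := by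
    linear_combination conj B * h3
  rw [mul_conj] at h4
  have h5 := congrArg Complex.re h4
  simp only [mul_re, ofReal_re, ofReal_im, h1, h2] at h5
  have h6 : (A * conj B).im * β.im = 0 := by
    simp only [mul_im, zero_mul, mul_zero, sub_zero, zero_sub] at h5 ⊢
    linarith
  have h7 : β.im = 0 := (mul_eq_zero.1 h6).resolve_left htw
  exact Complex.ext h1 h7

theorem exists_base {FR F' : E → ℂ} (hFR : Hol FR) (hF' : Cls FR F') {x₀ : E} (hx₀ : x₀ ∈ ball)
    (htw : ∃ j, (dd j F' x₀ * conj (dd j FR x₀)).im ≠ 0) {V : Set E} (hV : IsOpen V)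
    (hxV : x₀ ∈ V) : ∃ O, x₀ ∈ O ∧ O ⊆ V ∧ Nice FR O ∧
      ∀ x ∈ O, ∀ x' ∈ O, (FR x).re = (FR x').re → (F' x).re = (F' x').re → FR x = FR x' := by
  obtain ⟨j, hj⟩ := htw
  have hne : ∀ z, (dd j F' z * conj (dd j FR z)).im ≠ 0 → dd j FR z ≠ 0 := by
    intro z hz h0
    rw [h0] at hz
    simp at hz
  obtain ⟨O₁, hx1, hO1, hN⟩ := exists_nice hFR hx₀ ⟨j, hne _ hj⟩ hV hxV
  have hc : ContinuousOn (fun z => (dd j F' z * conj (dd j FR z)).im) ball :=
    continuous_im.comp_continuousOn ((hF'.1.smo.dd j).continuousOn.mul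
      (continuous_conj.comp_continuousOn (hFR.smo.dd j).continuousOn))
  have hW : IsOpen ((ball ∩ {z | (dd j F' z * conj (dd j FR z)).im ≠ 0}) ∩ O₁) :=
    (hc.isOpen_inter_preimage isOpen_ball isOpen_compl_singleton).inter hN.isOpen
  -- the second coordinate of the chart
  let u : E → ℂ := fun z => ((FR z).re : ℂ) + ((F' z).re : ℂ) * I
  let L : ℂ →L[ℝ] ℂ := ofRealCLM.comp reCLM
  have hu : ContDiffOn ℝ ∞ u ball := by
    have h1 : ContDiffOn ℝ ∞ (fun z => L (FR z)) ball := L.contDiff.comp_contDiffOn hFR.smo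
    have h2 : ContDiffOn ℝ ∞ (fun z => L (F' z)) ball := L.contDiff.comp_contDiffOn hF'.1.smo
    exact h1.add (h2.mul contDiffOn_const)
  have hud : ∀ z ∈ ball, ∀ v, fderiv ℝ u z v = 0 →
      (fderiv ℝ FR z v).re = 0 ∧ (fderiv ℝ F' z v).re = 0 := by
    intro z hz v hv
    have h1 : HasFDerivAt (fun z => L (FR z)) (L.comp (fderiv ℝ FR z)) z :=
      L.hasFDerivAt.comp z (hFR.smo.diffAt hz).hasFDerivAt
    have h2 : HasFDerivAt (fun z => L (F' z)) (L.comp (fderiv ℝ F' z)) z :=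
      L.hasFDerivAt.comp z (hF'.1.smo.diffAt hz).hasFDerivAt
    have h3 : HasFDerivAt u (L.comp (fderiv ℝ FR z) + I • L.comp (fderiv ℝ F' z)) z := by
      have h4 := h1.add (h2.const_smul I)
      refine h4.congr_of_eventuallyEq (Filter.Eventually.of_forall fun w => ?_)
      change ((FR w).re : ℂ) + ((F' w).re : ℂ) * I = ((FR w).re : ℂ) + I • ((F' w).re : ℂ)
      rw [smul_eq_mul, mul_comm]
    rw [h3.fderiv] at hv
    have h5 : (((fderiv ℝ FR z v).re : ℝ) : ℂ) + I * (((fderiv ℝ F' z v).re : ℝ) : ℂ) = 0 := hv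
    have h6 := congrArg Complex.re h5
    have h7 := congrArg Complex.im h5
    simp at h6 h7
    exact ⟨h6, h7⟩
  obtain ⟨O, h1, h2, h3, -, h5⟩ := chart (prj j) hW (u := u)
    (hu.mono fun z hz => hz.1.1)
    (fun z hz v hv1 hv2 => by
      obtain ⟨h6, h7⟩ := hud z hz.1.1 v hv2
      exact prj_inj hFR hz.1.1 (hne z hz.1.2) hv1 (twist_ker hFR hF' hz.1.1 hz.1.2 h6 h7))
    (p := x₀) ⟨⟨hx₀, hj⟩, hx1⟩
  refine ⟨O, h1, fun z hz => hO1 (h2 hz).2, hN.mono h3 fun z hz => (h2 hz).2, ?_⟩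
  intro x hx x' hx' e1 e2
  refine h5 FR (fun z hz => (hFR.smo.diffAt hz.1.1).differentiableWithinAt) ?_ x hx x' hx' ?_
  · intro z hz v hv
    obtain ⟨h6, h7⟩ := hud z hz.1.1 v hv
    exact twist_ker hFR hF' hz.1.1 hz.1.2 h6 h7
  · change ((FR x).re : ℂ) + ((F' x).re : ℂ) * I = ((FR x').re : ℂ) + ((F' x').re : ℂ) * I
    rw [e1, e2]

end Pool.Agent.H89.SG
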