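import Pool.Agent.H89.SG.Ident
import Pool.Agent.H89.SG.W2

/-!
# NiceD: nice open sets for a holomorphic function

`exists_nice`: `FR` holomorphic, `dd j FR p ≠ 0` for some `j`; say `j = 1` (the other case by
exchanging the variables). The map `Ψ z = (z.1, FR z)` is `C¹` (smooth over `ℝ`, complex
differentiable) with invertible derivative at `p` (`v ↦ (v.1, dd 0 FR v.1 + dd 1 FR v.2)`): it is a
local homeomorphism with smooth inverse near `p` (`ContDiffAt.toOpenPartialHomeomorph` over `ℝ`).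
Choose `δ` small: `O = Ψ⁻¹ (B(p.1, δ) × B(FR p, δ))` in the source, with `O ⊆ V ∩ ball`,
`dd 1 FR ≠ 0` on `O`, and `Ψ : O → B × B` a homeomorphism.
* `FR` is open on `O`: `Ψ` is open and `Prod.snd` is open.
* Let `F` be holomorphic with `Jc F FR = 0` on the ball, `x, x' ∈ O`, `FR x = FR x' = w`. The function
  `γ s = F (Ψ⁻¹ (s, w))`, `s ∈ B(p.1, δ)` (convex), has derivative zero: the derivative of
  `s ↦ Ψ⁻¹ (s, w)` in the direction `h` is a vector `v` with `v.1 = h` and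
  `dd 0 FR v.1 + dd 1 FR v.2 = 0`, so `dF(v) = dd 0 F v.1 + dd 1 F v.2
  = (dd 0 F dd 1 FR - dd 1 F dd 0 FR) v.1 / dd 1 FR = Jc F FR v.1 / dd 1 FR = 0`
  (`Hol.fderiv_eq`). So `F x = F x'`.

`Nice.image`: `m' : E → E` an automorphism with `FR ∘ φ = FR + b`: `φ '' O` is open (the inverse is
continuous), `F ∘ φ` is in the class for each `F` in the class (`Jc_comp`).
-/

set_option autoImplicit false

namespace Pool.Agent.H89.SG

open Complex MeasureTheory
open scoped ContDiff ComplexConjugate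

/-- the functions which are constant on the leaves of `FR` -/
def Cls (FR : E → ℂ) (F : E → ℂ) : Prop := Hol F ∧ ∀ z ∈ ball, Jc F FR z = 0

/-- nice open sets -/
structure Nice (FR : E → ℂ) (O : Set E) : Prop where
  isOpen : IsOpen O
  sub : O ⊆ ball
  openMap : ∀ V : Set E, V ⊆ O → IsOpen V → IsOpen (FR '' V)
  leaf : ∀ F, Cls FR F → ∀ x ∈ O, ∀ x' ∈ O, FR x = FR x' → F x = F x'

/-- straightening: a set on which the fibres of `u` are connected by paths along which the first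
coordinate of the chart moves -/
theorem chart (pr : E →L[ℝ] ℂ) {u : E → ℂ} {W : Set E} (hW : IsOpen W)
    (hu : ContDiffOn ℝ ∞ u W)
    (hinj : ∀ z ∈ W, ∀ v : E, pr v = 0 → fderiv ℝ u z v = 0 → v = 0) {p : E} (hp : p ∈ W) :
    ∃ O, p ∈ O ∧ O ⊆ W ∧ IsOpen O ∧
      (∀ V : Set E, V ⊆ O → IsOpen V → IsOpen (u '' V)) ∧
      ∀ F : E → ℂ, DifferentiableOn ℝ F W →
        (∀ z ∈ W, ∀ v : E, fderiv ℝ u z v = 0 → fderiv ℝ F z v = 0) →
        ∀ x ∈ O, ∀ x' ∈ O, u x = u x' → F x = F x' := by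
  classical
  have hd : ∀ z ∈ W, HasFDerivAt u (fderiv ℝ u z) z := fun z hz =>
    ((hu.differentiableOn (by simp)).differentiableAt (hW.mem_nhds hz)).hasFDerivAt
  -- the chart and its derivative
  let Ψ : E → ℂ × ℂ := fun z => (pr z, u z)
  have hΨ : ∀ z ∈ W, HasFDerivAt Ψ (pr.prod (fderiv ℝ u z)) z := fun z hz =>
    pr.hasFDerivAt.prodMk (hd z hz)
  have hA : ∀ z ∈ W, ∃ A : E ≃L[ℝ] ℂ × ℂ, (A : E →L[ℝ] ℂ × ℂ) = pr.prod (fderiv ℝ u z) := by
    intro z hz
    let L : E →ₗ[ℝ] E := (pr.prod (fderiv ℝ u z) : E →L[ℝ] ℂ × ℂ).toLinearMap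
    have hL : Function.Injective L := by
      rw [← LinearMap.ker_eq_bot, LinearMap.ker_eq_bot']
      intro v hv
      have hv' : (pr v, fderiv ℝ u z v) = (0, 0) := hv
      exact hinj z hz v (congrArg Prod.fst hv') (congrArg Prod.snd hv')
    refine ⟨(LinearEquiv.ofInjectiveEndo L hL).toContinuousLinearEquiv, ?_⟩
    ext v <;> rfl
  have hcd : ContDiffAt ℝ ∞ Ψ p :=
    pr.contDiff.contDiffAt.prodMk (hu.contDiffAt (hW.mem_nhds hp))
  obtain ⟨A, hAp⟩ := hA p hp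
  have hfd : HasFDerivAt Ψ (A : E →L[ℝ] ℂ × ℂ) p := by
    rw [hAp]
    exact hΨ p hp
  let e := hcd.toOpenPartialHomeomorph Ψ hfd (by simp)
  have he : ∀ z, e z = Ψ z := fun z => rfl
  have hpe : p ∈ e.source := hcd.mem_toOpenPartialHomeomorph_source hfd (by simp)
  -- the open set
  have hWe : IsOpen (e.source ∩ W) := e.open_source.inter hW
  have hIm : IsOpen (e '' (e.source ∩ W)) :=
    e.isOpen_image_of_subset_source hWe Set.inter_subset_left
  have hΨp : Ψ p ∈ e '' (e.source ∩ W) := ⟨p, ⟨hpe, hp⟩, he p⟩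
  obtain ⟨δ, hδ, hδ'⟩ := Metric.isOpen_iff.1 hIm _ hΨp
  have hball : ∀ s w, s ∈ Metric.ball (pr p) δ → w ∈ Metric.ball (u p) δ →
      ((s, w) : ℂ × ℂ) ∈ e '' (e.source ∩ W) := by
    intro s w hs hw
    apply hδ'
    rw [← ball_prod_same]
    exact ⟨hs, hw⟩
  have hsymm : ∀ s w, s ∈ Metric.ball (pr p) δ → w ∈ Metric.ball (u p) δ →
      e.symm (s, w) ∈ e.source ∩ W ∧ Ψ (e.symm (s, w)) = (s, w) ∧ (s, w) ∈ e.target := by
    intro s w hs hw
    obtain ⟨z, hz, hze⟩ := hball s w hs hw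
    have h1 : e.symm (s, w) = z := by
      rw [← hze]
      exact e.left_inv hz.1
    rw [h1]
    refine ⟨hz, ?_, ?_⟩
    · rw [← he z]
      exact hze
    · rw [← hze]
      exact e.map_source hz.1
  have hΨc : ContinuousOn Ψ (e.source ∩ W) := fun z hz =>
    (hΨ z hz.2).continuousAt.continuousWithinAt
  refine ⟨(e.source ∩ W) ∩ Ψ ⁻¹' (Metric.ball (pr p) δ ×ˢ Metric.ball (u p) δ), ⟨⟨hpe, hp⟩, ?_⟩,
    fun z hz => hz.1.2, hΨc.isOpen_inter_preimage hWe (Metric.isOpen_ball.prod Metric.isOpen_ball),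
    ?_, ?_⟩
  · exact ⟨Metric.mem_ball_self hδ, Metric.mem_ball_self hδ⟩
  · intro V hV hVo
    have h1 : u '' V = Prod.snd '' (e '' V) := by
      rw [Set.image_image]
      rfl
    rw [h1]
    exact isOpenMap_snd _ (e.isOpen_image_of_subset_source hVo fun z hz => (hV hz).1.1)
  · intro F hF hker x hx x' hx' hxx
    obtain ⟨⟨hxs, hxW⟩, hx1, hx2⟩ := hx
    obtain ⟨⟨hxs', hxW'⟩, hx1', hx2'⟩ := hx'
    have hx2 : u x ∈ Metric.ball (u p) δ := hx2
    have hx1 : pr x ∈ Metric.ball (pr p) δ := hx1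
    have hx1' : pr x' ∈ Metric.ball (pr p) δ := hx1'
    let γ : ℂ → ℂ := fun s => F (e.symm (s, u x))
    have hγ : ∀ s ∈ Metric.ball (pr p) δ, HasFDerivAt γ (0 : ℂ →L[ℝ] ℂ) s := by
      intro s hs
      obtain ⟨h1, h2, h3⟩ := hsymm s (u x) hs hx2
      obtain ⟨B, hB⟩ := hA _ h1.2
      have h4 : HasFDerivAt e (B : E →L[ℝ] ℂ × ℂ) (e.symm (s, u x)) := by
        rw [hB]
        exact hΨ _ h1.2
      have h5 : HasFDerivAt e.symm (B.symm : ℂ × ℂ →L[ℝ] E) (s, u x) :=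
        e.hasFDerivAt_symm h3 h4
      have h6 : HasFDerivAt F (fderiv ℝ F (e.symm (s, u x))) (e.symm (s, u x)) :=
        (hF.differentiableAt (hW.mem_nhds h1.2)).hasFDerivAt
      have h7 : HasFDerivAt (fun s : ℂ => ((s, u x) : ℂ × ℂ))
          ((ContinuousLinearMap.id ℝ ℂ).prod (0 : ℂ →L[ℝ] ℂ)) s :=
        (hasFDerivAt_id s).prodMk (hasFDerivAt_const _ _)
      have h8 := (h6.comp (s, u x) h5).comp s h7
      have h9 : ((fderiv ℝ F (e.symm (s, u x))).comp (B.symm : ℂ × ℂ →L[ℝ] E)).comp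
          ((ContinuousLinearMap.id ℝ ℂ).prod (0 : ℂ →L[ℝ] ℂ)) = 0 := by
        apply ContinuousLinearMap.ext
        intro t
        have h10 : B (B.symm (t, 0)) = (t, 0) := B.apply_symm_apply _
        have h11 : (B : E →L[ℝ] ℂ × ℂ) (B.symm (t, 0)) = ((t, 0) : ℂ × ℂ) := h10
        rw [hB] at h11
        exact hker _ h1.2 _ (congrArg Prod.snd h11)
      rw [h9] at h8
      exact h8
    have hconst : γ (pr x) = γ (pr x') := by
      refine (_root_.convex_ball (pr p) δ).is_const_of_fderivWithin_eq_zero (𝕜 := ℝ)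
        (fun s hs => (hγ s hs).differentiableAt.differentiableWithinAt) (fun s hs => ?_) hx1 hx1'
      rw [fderivWithin_of_isOpen Metric.isOpen_ball hs]
      exact (hγ s hs).fderiv
    have e1 : e.symm (pr x, u x) = x := e.left_inv hxs
    have e2 : e.symm (pr x', u x) = x' := by
      rw [hxx]
      exact e.left_inv hxs'
    have : F (e.symm (pr x, u x)) = F (e.symm (pr x', u x)) := hconst
    rwa [e1, e2] at this

/-- the other coordinate -/
noncomputable def prj (j : Fin 2) : E →L[ℝ] ℂ :=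
  if j = 0 then ContinuousLinearMap.snd ℝ ℂ ℂ else ContinuousLinearMap.fst ℝ ℂ ℂ

theorem prj_inj {F : E → ℂ} (hF : Hol F) {z : E} (hz : z ∈ ball) {j : Fin 2} (hd : dd j F z ≠ 0)
    {v : E} (h1 : prj j v = 0) (h2 : fderiv ℝ F z v = 0) : v = 0 := by
  rw [hF.fderiv_eq hz] at h2
  fin_cases j
  · have h3 : v.2 = 0 := h1
    rw [h3, mul_zero, add_zero] at h2
    have h4 : v.1 = 0 := (mul_eq_zero.1 h2).resolve_left hd
    exact Prod.ext h4 h3
  · have h3 : v.1 = 0 := h1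
    rw [h3, mul_zero, zero_add] at h2
    have h4 : v.2 = 0 := (mul_eq_zero.1 h2).resolve_left hd
    exact Prod.ext h3 h4

theorem Cls.ker {FR F : E → ℂ} (hFR : Hol FR) (h : Cls FR F) {z : E} (hz : z ∈ ball) {j : Fin 2}
    (hd : dd j FR z ≠ 0) {v : E} (h2 : fderiv ℝ FR z v = 0) : fderiv ℝ F z v = 0 := by
  have hJ : dd 0 F z * dd 1 FR z - dd 1 F z * dd 0 FR z = 0 := h.2 z hz
  rw [hFR.fderiv_eq hz] at h2
  rw [h.1.fderiv_eq hz]
  have h3 : (dd 0 F z * v.1 + dd 1 F z * v.2) * dd j FR z = 0 := by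
    fin_cases j
    · change (dd 0 F z * v.1 + dd 1 F z * v.2) * dd 0 FR z = 0
      linear_combination dd 0 F z * h2 - v.2 * hJ
    · change (dd 0 F z * v.1 + dd 1 F z * v.2) * dd 1 FR z = 0
      linear_combination dd 1 F z * h2 + v.1 * hJ
  exact (mul_eq_zero.1 h3).resolve_right hd

theorem exists_nice {FR : E → ℂ} (hFR : Hol FR) {p : E} (hp : p ∈ ball)
    (hd : ∃ j, dd j FR p ≠ 0) {V : Set E} (hV : IsOpen V) (hpV : p ∈ V) :
    ∃ O, p ∈ O ∧ O ⊆ V ∧ Nice FR O := by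
  obtain ⟨j, hj⟩ := hd
  have hc : ContinuousOn (dd j FR) ball := (hFR.smo.dd j).continuousOn
  have hW : IsOpen ((ball ∩ {z | dd j FR z ≠ 0}) ∩ V) := by
    refine IsOpen.inter ?_ hV
    exact hc.isOpen_inter_preimage isOpen_ball isOpen_compl_singleton
  obtain ⟨O, h1, h2, h3, h4, h5⟩ := chart (prj j) hW
    (hFR.smo.mono fun z hz => hz.1.1)
    (fun z hz v hv1 hv2 => prj_inj hFR hz.1.1 hz.1.2 hv1 hv2) (p := p) ⟨⟨hp, hj⟩, hpV⟩
  refine ⟨O, h1, fun z hz => (h2 hz).2, h3, fun z hz => (h2 hz).1.1, h4, ?_⟩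
  intro F hF
  refine h5 F (fun z hz => ((hF.1.smo.diffAt hz.1.1)).differentiableWithinAt) ?_
  intro z hz v hv
  exact hF.ker hFR hz.1.1 hz.1.2 hv

end Pool.Agent.H89.SG
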