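import Pool.Agent.H84.BG.Level
import Pool.Agent.H89.SG.Defs

/-!
# RL: faithful actions with linear balls produce lines

Owner of this part: helper84 (who may split it into several modules `RLxx.lean`).

Proof. Let `X` be a faithful `G`-set with all balls of radius `n` of size at most `C n`, `n` large.
Since `g` has infinite order there is `x` with `⟨g⟩ x ⊄ B(x, n)` (`large_orbit`). Let `lam` be the
distance from `x`, `a_s` the number of points at level `s`, `∑_{s ≤ n} a_s ≤ C n`.
Replacing `g` by `g⁻¹` (`Det g⁻¹` gives `Det g`) the forward path `x, g x, g² x, …` leaves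
`B(x, n)`. Call a level `r` forward good if `∑_{r ≤ s < t} a_s ≤ 4 C (t - r)` for all `t ≤ n`,
`t > r`. By the one-sided maximal inequality (rising sun) at least `3/4` of the levels of `[0, n)`
are forward good; at least `3/4` of the levels have at most `M = M(C, R)` points in the window
`[r - R, r + R)`. So there are many levels `r`, at mutual distance at least `2 R`, which are both.
For such `r` let `U_r` be the set of `y` with `r ≤ lam y`, `lam (g⁻¹ y) < r` and `D_r` the set of
`y` with `lam y < r ≤ lam (g⁻¹ y)` (both are contained in the window, `R ≥ |g|, N`), and let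
`ρ_r : U_r → D_r ∪ {∞}` be the first return: follow `y, g y, g² y, …` until the first point of
level `< r`; the value is `∞` if the path leaves `B(x, n)` before. The type of `r` is the window
with its level function, the partial action of the letters (and of `g`), and the map `ρ_r`.
There are boundedly many types, so for `n ≥ n₀(C, g)` two good levels `r₁ < r₂` have the same type.
Glue the strip `[r₁, r₂)` periodically (`Strip.exists_hom`): a `G`-set `Y` with a commuting
translation `τ`, `Y/τ` of size `∑_{r₁ ≤ s < r₂} a_s ≤ 4 C (r₂ - r₁)`, height `lam`, `ℓ = r₂ - r₁`.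
CLAIM: if the `g`-path in `Y` from `u ∈ U` (at `r₁`) first returns below `r₁` at `d`, then
`ρ_{r₁}(u) = d` (induction on the length of the path in `Y`: compare with the path in `X`; both
agree until the path crosses `r₂` upwards at `u₂ ∈ U_{r₂}`; in `Y` the path from `u₂` has to return
below `r₂`, after fewer steps, at some `d₂`; by induction and since `r₁`, `r₂` have the same type
`ρ_{r₂}(u₂) = d₂`, so the path in `X` also arrives at `d₂`, and so on).
The last upwards crossing of the path from `x` before it leaves `B(x, n)` gives `u ∈ U_{r₁}` with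
`ρ_{r₁}(u) = ∞`; so in `Y` the forward path of `u` never goes below `r₁`, while `g⁻¹ u` is below:
the `⟨g⟩`-orbit of `u` in `Y` is infinite. By pigeonhole `g^m z = τ^k z` for some `z` in this
orbit, `m > 0`, `k ≠ 0`. Finally restrict to the `G`-orbit `O` of `z` and replace `τ` by the
smallest positive power which preserves `O`, choose representatives: this gives the line.
-/

set_option autoImplicit false

namespace Pool.Agent.H89.SG

open H84.Sch H84.BG

theorem RL {G : Type} [Group G] (S : Finset G) (hcl : Subgroup.closure (S : Set G) = ⊤) {N : ℕ}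
    (hLG : H84.Sch.LG (H84.Sch.Sym S) N) (C : ℕ) (g : G) (hg : ∀ n : ℕ, 0 < n → g ^ n ≠ 1) :
    ∃ n₀ : ℕ, ∀ n ≥ n₀, ∀ (X : Type) [MulAction G X] [FaithfulSMul G X],
      (∀ x : X, (H84.Sch.FB S n x).ncard ≤ C * n) → ∃ L : Line G S, L.Dens (4 * C) ∧ L.Det g := by
  classical
  have hSinv : ∀ s ∈ (SymF S : Set G), s⁻¹ ∈ (SymF S : Set G) := fun s hs =>
    Finset.mem_coe.2 (SymF_inv S s (Finset.mem_coe.1 hs))
  have hclS : Subgroup.closure (SymF S : Set G) = ⊤ := by rw [coe_SymF]; exact Sym_closure hcl
  obtain ⟨w, hw1, hw2⟩ := exists_word hSinv hclS g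
  obtain ⟨w', hw'1, hw'2⟩ := exists_word hSinv hclS g⁻¹
  have hg1 : g ≠ 1 := by
    have := hg 1 one_pos
    rwa [pow_one] at this
  have hinf : (Subgroup.closure (({g} : Finset G) : Set G) : Set G).Infinite := by
    rw [Finset.coe_singleton, ← Subgroup.zpowers_eq_closure]
    have h1 : Function.Injective (fun n : ℕ => g ^ n) := by
      intro a b hab
      have hab' : g ^ a = g ^ b := hab
      by_contra hne
      rcases lt_or_gt_of_ne hne with h | h
      · apply hg (b - a) (by omega)
        have h2 : g ^ b = g ^ (b - a) * g ^ a := by rw [← pow_add, Nat.sub_add_cancel h.le]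
        rw [h2] at hab'
        exact (mul_eq_right.1 hab'.symm)
      · apply hg (a - b) (by omega)
        have h2 : g ^ a = g ^ (a - b) * g ^ b := by rw [← pow_add, Nat.sub_add_cancel h.le]
        rw [h2] at hab'
        exact (mul_eq_right.1 hab')
    refine (Set.infinite_range_of_injective h1).mono ?_
    rintro _ ⟨n, rfl⟩
    exact Subgroup.npow_mem_zpowers g n
  set R : ℕ := N + w.length + w'.length + 1 with hR
  set M₀ : ℕ := 4 * Fintype.card (Cd (SymF S) (16 * R * C) R) + 3 with hM₀
  refine ⟨2 * R * M₀ + 1, ?_⟩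
  intro n hn X _ _ hball
  have hn2 : M₀ ≤ n / (2 * R) := by
    rw [Nat.le_div_iff_mul_le (by omega)]
    have h1 : M₀ * (2 * R) = 2 * R * M₀ := by ring
    omega
  have hX : Nonempty X := by
    by_contra hX
    rw [not_nonempty_iff] at hX
    exact hg1 (FaithfulSMul.eq_of_smul_eq_smul (α := X) fun x => (hX.false x).elim)
  have hC : 0 < C := by
    obtain ⟨x⟩ := hX
    have h1 : 0 < (FB S n x).ncard := (Set.ncard_pos (FB_finite hcl _ x)).2 ⟨x, self_mem_FB S n x⟩
    have h2 := hball x
    rcases Nat.eq_zero_or_pos C with h | h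
    · rw [h, zero_mul] at h2
      omega
    · exact h
  have hballB : ∀ x : X, (Bl (SymF S : Set G) n x).ncard ≤ C * n := by
    intro x
    refine le_trans (Set.ncard_le_ncard ?_ (FB_finite hcl _ x)) (hball x)
    rintro y ⟨v, hv1, hv2, rfl⟩
    refine ⟨v.prod, ?_, rfl⟩
    exact (dist_le_word S (fun s hs => by rw [← coe_SymF]; exact hv1 s hs) 1 v.prod
      (by rw [one_mul])).trans hv2
  obtain ⟨x, hx⟩ := large_orbit (X := X) {g} hinf (C * n)
  obtain ⟨k, hkK, hk⟩ := hx (Bl_finite (SymF S) n x).toFinset (by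
    rw [← Set.ncard_eq_toFinset_card _ (Bl_finite (SymF S) n x)]
    exact hballB x)
  rw [Set.Finite.mem_toFinset] at hk
  -- the level function on the orbit
  let O := MulAction.orbit G x
  let lam : O → ℤ := fun y => ((sInf {m : ℕ | (y : X) ∈ Bl (SymF S : Set G) m x} : ℕ) : ℤ)
  have hne : ∀ y : O, {m : ℕ | (y : X) ∈ Bl (SymF S : Set G) m x}.Nonempty := by
    rintro ⟨y, a, ha⟩
    obtain ⟨v, hv1, hv2⟩ := exists_word hSinv hclS a
    exact ⟨v.length, v, hv1, le_rfl, by rw [hv2]; exact ha⟩
  have hspec : ∀ y : O, (y : X) ∈ Bl (SymF S : Set G)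
      (sInf {m : ℕ | (y : X) ∈ Bl (SymF S : Set G) m x}) x := fun y => Nat.sInf_mem (hne y)
  have hle : ∀ (y : O) (m : ℕ), lam y ≤ m ↔ (y : X) ∈ Bl (SymF S : Set G) m x := by
    intro y m
    constructor
    · intro h
      have h0 : ((sInf {m : ℕ | (y : X) ∈ Bl (SymF S : Set G) m x} : ℕ) : ℤ) ≤ m := h
      have h' : sInf {m : ℕ | (y : X) ∈ Bl (SymF S : Set G) m x} ≤ m := by exact_mod_cast h0
      exact Bl_mono _ h' x (hspec y)
    · intro h
      have : sInf {m : ℕ | (y : X) ∈ Bl (SymF S : Set G) m x} ≤ m := Nat.sInf_le h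
      show ((sInf {m : ℕ | (y : X) ∈ Bl (SymF S : Set G) m x} : ℕ) : ℤ) ≤ m
      exact_mod_cast this
  have hseteq : ((↑) : O → X) '' {y : O | lam y ≤ n} ⊆ Bl (SymF S : Set G) n x := by
    rintro _ ⟨y, hy, rfl⟩
    exact (hle y n).1 hy
  have hinj : Function.Injective ((↑) : O → X) := Subtype.val_injective
  have hfinO : {y : O | lam y ≤ n}.Finite :=
    Set.Finite.of_finite_image ((Bl_finite (SymF S) n x).subset hseteq) hinj.injOn
  let x0 : O := ⟨x, MulAction.mem_orbit_self x⟩
  have hlip : ∀ s ∈ SymF S, ∀ y : O, lam (s • y) ≤ lam y + 1 := by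
    intro s hs y
    have h3 : (y : X) ∈ Bl (SymF S : Set G)
      (sInf {m : ℕ | (y : X) ∈ Bl (SymF S : Set G) m x}) x := hspec y
    have h4 := Bl_smul (Finset.mem_coe.2 hs) h3
    have h5 := (hle (s • y) _).2 h4
    push_cast at h5
    exact h5
  have hx0 : lam x0 = 0 := by
    have h3 : lam x0 ≤ (0 : ℕ) := (hle _ 0).2 (Bl_self _ 0 x)
    have h4 : 0 ≤ lam x0 := Int.natCast_nonneg _
    push_cast at h3
    omega
  have hT : {y : O | lam y ≤ n}.ncard ≤ C * n := by
    refine le_trans ?_ (hballB x)
    rw [← Set.ncard_image_of_injective _ hinj]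
    exact Set.ncard_le_ncard hseteq (Bl_finite (SymF S) n x)
  have hlarge : (n : ℤ) < lam (k • x0) := by
    by_contra hnot
    push Not at hnot
    exact hk ((hle _ n).1 hnot)
  rw [Finset.coe_singleton, ← Subgroup.zpowers_eq_closure] at hkK
  obtain ⟨e, rfl⟩ := Subgroup.mem_zpowers_iff.1 hkK
  have hfin : ∀ (v : List G), (∀ s ∈ v, s ∈ SymF S) → N + v.length + 1 ≤ R → ∀ m : ℕ,
      (n : ℤ) < lam (v.prod ^ m • x0) → ∃ L : Line G S, L.Dens (4 * C) ∧ L.Det v.prod :=
    fun v hv hvR m hm => line_of_level S hcl hLG hC hv hvR (by omega) lam hlip x0 hx0 m hm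
      hfinO hT
  rcases Int.eq_nat_or_neg e with ⟨m, rfl | rfl⟩
  · have h := hfin w hw1 (by omega) m (by
      rw [hw2]
      rwa [zpow_natCast] at hlarge)
    rwa [hw2] at h
  · obtain ⟨L, hL1, hL2⟩ := hfin w' hw'1 (by omega) m (by
      rw [hw'2, inv_pow]
      rwa [zpow_neg, zpow_natCast] at hlarge)
    rw [hw'2] at hL2
    exact ⟨L, hL1, det_inv hL2⟩

end Pool.Agent.H89.SG
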