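import Pool.Agent.H89.SG.Cnt
import Pool.Agent.H89.SG.PartX

/-!
# RigF: transplantation of the function of a second line

`L₁, L₂` with `F₁, F₂`, level `t₁`; `θ : L₁.Y → L₂.Y` such that for `y, y' ∈ R₁ = Reg F₁ ρ t₁` and `g`
with `g {nsq ≤ ρ} ∩ {nsq ≤ ρ} ≠ ∅`, `g • y = y'` implies `g • θ y = θ y'`.

For `y`, `x` in the ball with `|uu F₁ y x - t₁| < 1` choose (with `Part.cover`) `g` with
`nsq (m g x) ≤ r`; then `g • y ∈ R₁` (`uu_smul`); put `f y x = uu F₂ (θ (g • y)) (m g x)`. If `g'` is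
another element with `nsq (m g' x) ≤ ρ` then `g' • y ∈ R₁` and `g' g⁻¹` maps `m g x` to `m g' x`, so
`θ (g' • y) = (g' g⁻¹) • θ (g • y)` and `uu F₂ (θ (g' • y)) (m g' x) = uu F₂ (θ (g • y)) (m g x)`
(`uu_smul`): `f y x = uu F₂ (θ (g' • y)) (m g' x)` for EVERY `g'` with `nsq (m g' x) ≤ ρ`.
(a): take `g' = 1`. (b): for `f (h • y) (m h x)` the element `g h⁻¹` is admissible.
(c): near `x₀`, with `nsq (m g x₀) ≤ r < ρ`, the same `g` is admissible by continuity, so `f y x` is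
the real part of `x ↦ F₂ (θ (g • y)).1 (m g x) + ℓ n`, holomorphic on the ball (`Hol.comp`).
-/

set_option autoImplicit false

namespace Pool.Agent.H89.SG

open Complex MeasureTheory
open scoped ContDiff ComplexConjugate

variable {G : Type} [Group G] {m : G → E → E} {S : Finset G} {κ : E → ℝ} {r ρ : ℝ}

/-- `θ` is compatible with the partial action on the region -/
def Compat (m : G → E → E) {L₁ L₂ : Line G S} (F₁ : L₁.Q → E → ℂ) (ρ : ℝ) (t₁ : ℤ)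
    (θ : L₁.Y → L₂.Y) : Prop :=
  ∀ y ∈ Reg F₁ ρ t₁, ∀ y' ∈ Reg F₁ ρ t₁, ∀ g : G,
    (∃ z : E, nsq z ≤ ρ ∧ nsq (m g z) ≤ ρ) → g • y = y' → g • θ y = θ y'

theorem exists_transplant (hA : BAct G m) (hP : Part m r ρ κ) {L₁ L₂ : Line G S}
    {F₁ : L₁.Q → E → ℂ} {F₂ : L₂.Q → E → ℂ} (h₁ : HD m L₁ F₁) (h₂ : HD m L₂ F₂) (t₁ : ℤ)
    (θ : L₁.Y → L₂.Y) (hθ : Compat m F₁ ρ t₁ θ) :
    ∃ f : L₁.Y → E → ℝ,
      (∀ y x, nsq x ≤ ρ → |uu F₁ y x - t₁| < 1 → f y x = uu F₂ (θ y) x) ∧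
      (∀ (g : G) (y : L₁.Y), ∀ x ∈ ball, |uu F₁ y x - t₁| < 1 → f (g • y) (m g x) = f y x) ∧
      ∀ y : L₁.Y, ∀ x₀ ∈ ball, |uu F₁ y x₀ - t₁| < 1 →
        ∃ F : E → ℂ, Hol F ∧ ∀ᶠ x in nhds x₀, f y x = (F x).re := by
  classical
  have hcov : ∀ x : E, ∃ g : G, x ∈ ball → nsq (m g x) ≤ r := by
    intro x
    by_cases hx : x ∈ ball
    · obtain ⟨g, hg⟩ := hP.cover x hx
      exact ⟨g, fun _ => hg⟩
    · exact ⟨1, fun h => absurd h hx⟩
  choose c hc using hcov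
  have hrρ : r ≤ ρ := hP.r_lt.le
  have hreg : ∀ (y : L₁.Y) (x : E), x ∈ ball → |uu F₁ y x - t₁| < 1 → ∀ g : G,
      nsq (m g x) ≤ ρ → g • y ∈ Reg F₁ ρ t₁ := by
    intro y x hx hu g hg
    refine ⟨m g x, hg, ?_⟩
    rw [uu_smul h₁ g y hx]
    exact hu
  have key : ∀ (y : L₁.Y) (x : E), x ∈ ball → |uu F₁ y x - t₁| < 1 → ∀ g' : G,
      nsq (m g' x) ≤ ρ → uu F₂ (θ (c x • y)) (m (c x) x) = uu F₂ (θ (g' • y)) (m g' x) := by
    intro y x hx hu g' hg'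
    have hg : nsq (m (c x) x) ≤ ρ := (hc x hx).trans hrρ
    have hmem : m (c x) x ∈ ball := hA.mem (c x) hx
    have hm : m (g' * (c x)⁻¹) (m (c x) x) = m g' x := by
      rw [hA.mul g' (c x)⁻¹ _ hmem, hA.inv_left (c x) hx]
    have hs : (g' * (c x)⁻¹) • (c x • y) = g' • y := by
      rw [smul_smul, inv_mul_cancel_right]
    have h := hθ (c x • y) (hreg y x hx hu (c x) hg) (g' • y) (hreg y x hx hu g' hg')
      (g' * (c x)⁻¹) ⟨m (c x) x, hg, by rw [hm]; exact hg'⟩ hs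
    rw [← h, ← hm]
    exact (uu_smul h₂ (g' * (c x)⁻¹) (θ (c x • y)) hmem).symm
  refine ⟨fun y x => uu F₂ (θ (c x • y)) (m (c x) x), ?_, ?_, ?_⟩
  · intro y x hx hu
    have hxb : x ∈ ball := lt_of_le_of_lt hx hP.ρ_lt
    have h1 : m 1 x = x := hA.one x hxb
    have h := key y x hxb hu 1 (by rw [h1]; exact hx)
    rw [one_smul, h1] at h
    exact h
  · intro g y x hx hu
    have hgx : m g x ∈ ball := hA.mem g hx
    have hm : m (c x * g⁻¹) (m g x) = m (c x) x := by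
      rw [hA.mul (c x) g⁻¹ _ hgx, hA.inv_left g hx]
    have hs : (c x * g⁻¹) • (g • y) = c x • y := by
      rw [smul_smul, inv_mul_cancel_right]
    have hu' : |uu F₁ (g • y) (m g x) - t₁| < 1 := by
      rw [uu_smul h₁ g y hx]
      exact hu
    have h := key (g • y) (m g x) hgx hu' (c x * g⁻¹) (by rw [hm]; exact (hc x hx).trans hrρ)
    rw [hm, hs] at h
    exact h
  · intro y x₀ hx₀ hu
    have hg : nsq (m (c x₀) x₀) < ρ := lt_of_le_of_lt (hc x₀ hx₀) hP.r_lt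
    have hb : ball ∈ nhds x₀ := isOpen_ball.mem_nhds hx₀
    have hcm : ContinuousAt (m (c x₀)) x₀ := (hA.aut (c x₀)).smooth.continuousOn.continuousAt hb
    have hcn : ContinuousAt (fun x => nsq (m (c x₀) x)) x₀ :=
      ContinuousAt.comp (g := nsq) continuous_nsq.continuousAt hcm
    have hcF : ContinuousAt (fun x => |uu F₁ y x - t₁|) x₀ := by
      have h1 : ContinuousAt (F₁ y.1) x₀ := (h₁.hol y.1).1.continuousOn.continuousAt hb
      have h2 : ContinuousAt (fun x => (F₁ y.1 x).re) x₀ :=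
        ContinuousAt.comp (g := Complex.re) continuous_re.continuousAt h1
      unfold uu
      exact ((h2.add continuousAt_const).sub continuousAt_const).abs
    refine ⟨fun x => F₂ (θ (c x₀ • y)).1 (m (c x₀) x) +
      ((((L₂.ℓ : ℝ) * ((θ (c x₀ • y)).2 : ℝ) : ℝ)) : ℂ),
      ((h₂.hol _).comp (hA.aut (c x₀))).add (Hol.const _), ?_⟩
    filter_upwards [hb, hcn.eventually_lt_const hg, hcF.eventually_lt_const hu] with x hx h3 h4
    have h := key y x hx h4 (c x₀) h3.le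
    show uu F₂ (θ (c x • y)) (m (c x) x) = _
    rw [h, add_re, ofReal_re]
    rfl

end Pool.Agent.H89.SG
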