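import Pool.Agent.H89.SG.NiceD

/-!
# SatD: the saturation of a nice set

`Sat FR O₀` is the smallest set which contains `O₀` and, for every nice `O`, with `x ∈ O` all
`x' ∈ O` with `FR x' = FR x`.
* `Sat_sub`: induction.
* `Sat_val`: induction; `step`: `F x' = F x` by `Nice.leaf`.
* `Sat_open`: by induction every point of `Sat` is an interior point. `step`: `x ∈ O ∩ Sat` is
  interior, so `V = O ∩ interior Sat` is an open set containing `x`, `FR '' V` is open
  (`Nice.openMap`) and contains `FR x' = FR x`. The set `O ∩ FR⁻¹ (FR '' V)` is open (`FR` is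
  continuous on `O ⊆ ball`), contains `x'` and is contained in `Sat` (for `x''` in it there is
  `y ∈ V` with `FR y = FR x''`; apply `step`).
-/

set_option autoImplicit false

namespace Pool.Agent.H89.SG

open Complex MeasureTheory
open scoped ContDiff ComplexConjugate

/-- the saturation -/
inductive Sat (FR : E → ℂ) (O₀ : Set E) : E → Prop
  | base {x : E} (hx : x ∈ O₀) : Sat FR O₀ x
  | step {O : Set E} (hO : Nice FR O) {x x' : E} (hx : x ∈ O) (hx' : x' ∈ O)
      (hF : FR x = FR x') (h : Sat FR O₀ x) : Sat FR O₀ x'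

theorem Sat_sub {FR : E → ℂ} {O₀ : Set E} (h₀ : Nice FR O₀) {x : E} (hx : Sat FR O₀ x) :
    x ∈ ball := by
  induction hx with
  | base hx => exact h₀.sub hx
  | step hO _ hx' _ _ _ => exact hO.sub hx'

theorem Sat_val {FR : E → ℂ} {O₀ : Set E} {x : E} (hx : Sat FR O₀ x) :
    ∃ o ∈ O₀, ∀ F, Cls FR F → F x = F o := by
  induction hx with
  | base hx => exact ⟨_, hx, fun _ _ => rfl⟩
  | step hO hx hx' hF _ ih =>
    obtain ⟨o, ho, h⟩ := ih
    refine ⟨o, ho, fun F hFc => ?_⟩
    rw [← h F hFc]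
    exact hO.leaf F hFc _ hx' _ hx hF.symm

theorem Sat_open {FR : E → ℂ} (hFR : Hol FR) {O₀ : Set E} (h₀ : Nice FR O₀) :
    IsOpen {x | Sat FR O₀ x} := by
  rw [isOpen_iff_mem_nhds]
  intro x hx
  have hx1 : Sat FR O₀ x := hx
  clear hx
  induction hx1 with
  | base hx => exact Filter.mem_of_superset (h₀.isOpen.mem_nhds hx) (fun y hy => Sat.base hy)
  | @step O hO x x' hx hx' hF _ ih =>
    have hV : IsOpen (O ∩ interior {y | Sat FR O₀ y}) := hO.isOpen.inter isOpen_interior
    have hxV : x ∈ O ∩ interior {y | Sat FR O₀ y} := ⟨hx, mem_interior_iff_mem_nhds.2 ih⟩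
    have hI : IsOpen (FR '' (O ∩ interior {y | Sat FR O₀ y})) :=
      hO.openMap _ Set.inter_subset_left hV
    have hxI : FR x' ∈ FR '' (O ∩ interior {y | Sat FR O₀ y}) := ⟨x, hxV, hF⟩
    have hO' : O ∈ nhds x' := hO.isOpen.mem_nhds hx'
    have hc : ContinuousAt FR x' :=
      (hFR.1.continuousOn.mono hO.sub).continuousAt hO'
    have hpre : FR ⁻¹' (FR '' (O ∩ interior {y | Sat FR O₀ y})) ∈ nhds x' :=
      hc.preimage_mem_nhds (hI.mem_nhds hxI)
    filter_upwards [hO', hpre] with x'' h1 h2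
    obtain ⟨y, hy, hyx⟩ := h2
    exact Sat.step hO hy.1 h1 hyx (interior_subset hy.2)

end Pool.Agent.H89.SG
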