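import Pool.Agent.H89.SG.Doeb

/-!
# Solve: the solution of `w = A w + f₀`

See the header of `Doeb.lean` (second part). Use `doeb` with `r` replaced by a slightly larger
positive number if `r = 0`: the hypothesis `hr0` says `0 < r`.
-/

set_option autoImplicit false

namespace Pool.Agent.H89.SG

open Complex MeasureTheory
open scoped ContDiff ComplexConjugate

variable {G : Type} [Group G] {m : G → E → E}

private theorem bound_of_cover {r : ℝ} (hr1 : r < 1)
    (hcov : ∀ z ∈ ball, ∃ g : G, nsq (m g z) ≤ r) {f : E → ℝ} (hf : ContinuousOn f ball)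
    (hinv : ∀ g, ∀ z ∈ ball, f (m g z) = f z) :
    ∃ z₁ ∈ ball, ∃ z₂ ∈ ball, ∀ z ∈ ball, f z₁ ≤ f z ∧ f z ≤ f z₂ := by
  have hK : IsCompact {z : E | nsq z ≤ r} := isCompact_nsq_le r
  have hKB : {z : E | nsq z ≤ r} ⊆ ball := nsq_le_subset_ball hr1
  have hne : {z : E | nsq z ≤ r}.Nonempty := by
    obtain ⟨g, hg⟩ := hcov 0 zero_mem_ball
    exact ⟨_, hg⟩
  obtain ⟨z₁, hz₁, h₁⟩ := hK.exists_isMinOn hne (hf.mono hKB)
  obtain ⟨z₂, hz₂, h₂⟩ := hK.exists_isMaxOn hne (hf.mono hKB)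
  refine ⟨z₁, hKB hz₁, z₂, hKB hz₂, fun z hz => ?_⟩
  obtain ⟨g, hg⟩ := hcov z hz
  rw [← hinv g z hz]
  exact ⟨h₁ hg, h₂ hg⟩

private theorem Av_inv (hA : BAct G m) {k : ℝ → ℝ} {f : E → ℝ}
    (hinv : ∀ g, ∀ z ∈ ball, f (m g z) = f z) (g : G) {z : E} (hz : z ∈ ball) :
    Av k f (m g z) = Av k f z := by
  rw [← Av_aut (hA.aut g) hz]
  exact Av_congr fun y hy => hinv g y hy

private theorem mean_Av (hA : BAct G m) {r ρ : ℝ} {κ : E → ℝ} (hP : Part m r ρ κ) {k : ℝ → ℝ}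
    {r₁ : ℝ} (hk : Ker k r₁) {f : E → ℝ} (hf : ContinuousOn f ball)
    (hinv : ∀ g, ∀ z ∈ ball, f (m g z) = f z) (h0 : ∫ z, κ z * f z ∂mu = 0) :
    ∫ z, κ z * Av k f z ∂mu = 0 := by
  have h1 := Av_mean hA hP hk hf (fun _ => 0) (fun g z hz => by rw [hinv g z hz, add_zero])
  have hi : ∀ {u : E → ℝ}, ContinuousOn u ball → Integrable (fun z => κ z * u z) mu := by
    intro u hu
    refine integrable_mu_of_supp (hP.smooth.continuous.continuousOn.mul hu) hP.ρ_lt ?_
    intro z _ hz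
    exact hP.supp z (left_ne_zero_of_mul hz)
  have h2 : ∫ z, κ z * (Av k f z - f z) ∂mu =
      ∫ z, κ z * Av k f z ∂mu - ∫ z, κ z * f z ∂mu := by
    rw [← integral_sub (hi (Av_continuous hk hf)) (hi hf)]
    refine integral_congr_ae (Filter.Eventually.of_forall fun z => ?_)
    simp only []
    ring
  rw [h1, h0, sub_zero] at h2
  exact h2.symm

private theorem sign_of_mean {r ρ : ℝ} {κ : E → ℝ} (hP : Part m r ρ κ) {f : E → ℝ}
    (hf : ContinuousOn f ball) (h0 : ∫ z, κ z * f z ∂mu = 0) {a : ℝ}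
    (ha : ∀ z ∈ ball, a ≤ f z) : a ≤ 0 := by
  by_contra hcon
  push Not at hcon
  have hc : ContinuousOn (fun z => κ z * f z) ball := hP.smooth.continuous.continuousOn.mul hf
  have hi : Integrable (fun z => κ z * f z) mu := by
    refine integrable_mu_of_supp hc hP.ρ_lt ?_
    intro z _ hz
    exact hP.supp z (left_ne_zero_of_mul hz)
  have h1 := eq_zero_of_integral_zero hc
    (fun z hz => mul_nonneg (hP.nonneg z) (hcon.le.trans (ha z hz))) hi h0 0 zero_mem_ball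
  have h2 : 0 < κ 0 := hP.pos 0 (by rw [nsq_zero]; exact hP.r_nonneg)
  have h3 : 0 < f 0 := hcon.trans_le (ha 0 zero_mem_ball)
  exact (mul_pos h2 h3).ne' h1

theorem solve (hA : BAct G m) {r ρ : ℝ} {κ : E → ℝ} (hP : Part m r ρ κ) (hr0 : 0 < r)
    {k : ℝ → ℝ} {r₁ : ℝ} (hk : Ker k r₁) (hpos : ∀ t ≤ 1 - (1 - r) ^ 2 / 4, 0 < k t)
    {f₀ : E → ℝ} (hf : ContinuousOn f₀ ball) (hinv : ∀ g, ∀ z ∈ ball, f₀ (m g z) = f₀ z)
    (hmean : ∫ z, κ z * f₀ z ∂mu = 0) :
    ∃ w : E → ℝ, ContinuousOn w ball ∧ (∀ g, ∀ z ∈ ball, w (m g z) = w z) ∧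
      ∀ z ∈ ball, w z = Av k w z + f₀ z := by
  have hr1 : r < 1 := hP.r_lt.trans hP.ρ_lt
  obtain ⟨ε, hε0, hε1, hd⟩ := doeb hA hr0 hr1 hP.cover hk hpos
  obtain ⟨z₁, hz₁, z₂, hz₂, hb⟩ := bound_of_cover hr1 hP.cover hf hinv
  set C : ℝ := f₀ z₂ - f₀ z₁ with hC
  have hC0 : 0 ≤ C := sub_nonneg.mpr (hb z₂ hz₂).1
  set F : ℕ → E → ℝ := fun n => (Av k)^[n] f₀ with hF
  have hF0 : F 0 = f₀ := rfl
  have hFs : ∀ n, F (n + 1) = Av k (F n) := fun n => by
    simp only [hF, Function.iterate_succ_apply']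
  have hFc : ∀ n, ContinuousOn (F n) ball := by
    intro n
    induction n with
    | zero => exact hf
    | succ n ih => rw [hFs]; exact Av_continuous hk ih
  have hFi : ∀ n g, ∀ z ∈ ball, F n (m g z) = F n z := by
    intro n
    induction n with
    | zero => exact hinv
    | succ n ih => intro g z hz; rw [hFs]; exact Av_inv hA ih g hz
  have hFm : ∀ n, ∫ z, κ z * F n z ∂mu = 0 := by
    intro n
    induction n with
    | zero => exact hmean
    | succ n ih => rw [hFs]; exact mean_Av hA hP hk (hFc n) (hFi n) ih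
  have hFb : ∀ n, ∃ a b : ℝ, b - a ≤ (1 - ε) ^ n * C ∧ ∀ z ∈ ball, a ≤ F n z ∧ F n z ≤ b := by
    intro n
    induction n with
    | zero => exact ⟨f₀ z₁, f₀ z₂, by simp [hC], hb⟩
    | succ n ih =>
      obtain ⟨a, b, hab, h⟩ := ih
      obtain ⟨a', b', hab', h'⟩ := hd (F n) (hFc n) (hFi n) a b h
      refine ⟨a', b', hab'.trans ?_, fun z hz => by rw [hFs]; exact h' z hz⟩
      rw [pow_succ, mul_comm ((1 - ε) ^ n), mul_assoc]
      exact mul_le_mul_of_nonneg_left hab (sub_nonneg.mpr hε1)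
  set u : ℕ → ℝ := fun n => (1 - ε) ^ n * C with hu
  have hub : ∀ n, ∀ z ∈ ball, |F n z| ≤ u n := by
    intro n z hz
    obtain ⟨a, b, hab, h⟩ := hFb n
    have ha : a ≤ 0 := sign_of_mean hP (hFc n) (hFm n) fun y hy => (h y hy).1
    have hb' : -b ≤ 0 := by
      refine sign_of_mean (f := fun y => -F n y) hP (hFc n).neg ?_ fun y hy =>
        neg_le_neg (h y hy).2
      have : (fun z => κ z * -F n z) = fun z => -(κ z * F n z) := by
        funext z; ring
      rw [this, integral_neg, hFm n, neg_zero]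
    rw [abs_le]
    constructor
    · linarith [(h z hz).1]
    · linarith [(h z hz).2]
  have hus : Summable u :=
    (summable_geometric_of_lt_one (sub_nonneg.mpr hε1) (by linarith)).mul_right C
  have hFsum : ∀ z ∈ ball, Summable fun n => F n z := fun z hz =>
    Summable.of_norm_bounded hus fun n => hub n z hz
  refine ⟨fun z => ∑' n, F n z, ?_, ?_, ?_⟩
  · exact continuousOn_tsum hFc hus fun n z hz => hub n z hz
  · intro g z hz
    exact tsum_congr fun n => hFi n g z hz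
  · intro z hz
    have h1 : HasSum (fun n => ∫ y, k (dl z y) * F n y ∂mu)
        (∫ y, ∑' n, k (dl z y) * F n y ∂mu) := by
      refine hasSum_integral_of_summable_integral_norm
        (fun n => Av_integrable hk (hFc n) hz) ?_
      refine Summable.of_nonneg_of_le (fun n => integral_nonneg fun y => norm_nonneg _)
        (fun n => ?_) hus
      have h2 : ∫ y, ‖k (dl z y) * F n y‖ ∂mu = Av k (fun y => |F n y|) z := by
        unfold Av
        refine integral_congr_ae (Filter.Eventually.of_forall fun y => ?_)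
        simp only [norm_mul, Real.norm_eq_abs, abs_of_nonneg (hk.nonneg _)]
      rw [h2]
      exact (Av_bounds hk (hFc n).abs (a := 0) (b := u n)
        (fun y hy => ⟨abs_nonneg _, hub n y hy⟩) hz).2
    have h3 : Av k (fun z => ∑' n, F n z) z = ∑' n, F (n + 1) z := by
      have h4 : (∫ y, ∑' n, k (dl z y) * F n y ∂mu) = Av k (fun z => ∑' n, F n z) z := by
        unfold Av
        refine integral_congr_ae (Filter.Eventually.of_forall fun y => ?_)
        exact tsum_mul_left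
      rw [← h4, ← h1.tsum_eq]
      refine tsum_congr fun n => ?_
      rw [hFs]
      rfl
    show (∑' n, F n z) = _
    rw [h3, (hFsum z hz).tsum_eq_zero_add, hF0, add_comm]

/-- invariant functions with `Av k e = e` are constant -/
theorem const_of_Av_eq (hA : BAct G m) {r : ℝ} (hr0 : 0 < r) (hr1 : r < 1)
    (hcov : ∀ z ∈ ball, ∃ g : G, nsq (m g z) ≤ r) {k : ℝ → ℝ} {r₁ : ℝ} (hk : Ker k r₁)
    (hpos : ∀ t ≤ 1 - (1 - r) ^ 2 / 4, 0 < k t) {e : E → ℝ} (he : ContinuousOn e ball)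
    (hinv : ∀ g, ∀ z ∈ ball, e (m g z) = e z) (heq : ∀ z ∈ ball, Av k e z = e z) :
    ∃ c : ℝ, ∀ z ∈ ball, e z = c := by
  obtain ⟨ε, hε0, hε1, hd⟩ := doeb hA hr0 hr1 hcov hk hpos
  obtain ⟨z₁, hz₁, z₂, hz₂, hb⟩ := bound_of_cover hr1 hcov he hinv
  obtain ⟨a', b', hab, h⟩ := hd e he hinv _ _ hb
  have h1 := (h z₁ hz₁).1
  have h2 := (h z₂ hz₂).2
  rw [heq z₁ hz₁] at h1
  rw [heq z₂ hz₂] at h2
  have h3 : e z₂ - e z₁ ≤ (1 - ε) * (e z₂ - e z₁) := by linarith
  have h4 : e z₂ ≤ e z₁ := by nlinarith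
  refine ⟨e z₁, fun z hz => le_antisymm ((hb z hz).2.trans h4) (hb z hz).1⟩

end Pool.Agent.H89.SG
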