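import Pool.Agent.H89.SG.Defs

/-!
# Top1: elementary facts on the ball and `nsq`

`norm` is the sup norm of `ℂ × ℂ`; `nsq z = |z.1|² + |z.2|²`. `√ nsq` is the Euclidean norm: for the
triangle inequality and convexity use `EuclideanSpace`/`WithLp 2 (ℂ × ℂ)` or Cauchy-Schwarz by hand.
-/

set_option autoImplicit false

namespace Pool.Agent.H89.SG

open Complex MeasureTheory
open scoped ContDiff ComplexConjugate

theorem nsq_nonneg (z : E) : 0 ≤ nsq z := by
  exact add_nonneg (normSq_nonneg _) (normSq_nonneg _)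

theorem contDiff_nsq : ContDiff ℝ ∞ nsq := by
  have h1 : nsq = fun z : E => (z.1.re * z.1.re + z.1.im * z.1.im)
      + (z.2.re * z.2.re + z.2.im * z.2.im) := by
    funext z
    simp only [nsq, normSq_apply]
  have hf : ContDiff ℝ ∞ (fun z : E => z.1) := contDiff_fst
  have hs : ContDiff ℝ ∞ (fun z : E => z.2) := contDiff_snd
  have r1 : ContDiff ℝ ∞ (fun z : E => z.1.re) := reCLM.contDiff.comp hf
  have i1 : ContDiff ℝ ∞ (fun z : E => z.1.im) := imCLM.contDiff.comp hf
  have r2 : ContDiff ℝ ∞ (fun z : E => z.2.re) := reCLM.contDiff.comp hs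
  have i2 : ContDiff ℝ ∞ (fun z : E => z.2.im) := imCLM.contDiff.comp hs
  rw [h1]
  exact ((r1.mul r1).add (i1.mul i1)).add ((r2.mul r2).add (i2.mul i2))

theorem continuous_nsq : Continuous nsq := by
  exact contDiff_nsq.continuous

theorem nsq_zero : nsq 0 = 0 := by
  simp [nsq]

theorem nsq_eq_zero {z : E} (h : nsq z = 0) : z = 0 := by
  have h1 : normSq z.1 = 0 := by
    have := normSq_nonneg z.1
    have := normSq_nonneg z.2
    unfold nsq at h
    linarith
  have h2 : normSq z.2 = 0 := by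
    have := normSq_nonneg z.1
    have := normSq_nonneg z.2
    unfold nsq at h
    linarith
  exact Prod.ext (normSq_eq_zero.1 h1) (normSq_eq_zero.1 h2)

theorem nsq_smul_real (t : ℝ) (z : E) : nsq (t • z) = t ^ 2 * nsq z := by
  simp only [nsq, Prod.smul_fst, Prod.smul_snd, real_smul, normSq_mul, normSq_ofReal]
  ring

theorem norm_sq_le_nsq (z : E) : ‖z‖ ^ 2 ≤ nsq z := by
  rw [nsq, normSq_eq_norm_sq, normSq_eq_norm_sq, Prod.norm_def]
  rcases le_total ‖z.1‖ ‖z.2‖ with h | h
  · rw [max_eq_right h]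
    nlinarith [sq_nonneg ‖z.1‖]
  · rw [max_eq_left h]
    nlinarith [sq_nonneg ‖z.2‖]

theorem nsq_le_norm_sq (z : E) : nsq z ≤ 2 * ‖z‖ ^ 2 := by
  rw [nsq, normSq_eq_norm_sq, normSq_eq_norm_sq]
  have h1 : ‖z.1‖ ≤ ‖z‖ := norm_fst_le z
  have h2 : ‖z.2‖ ≤ ‖z‖ := norm_snd_le z
  have h3 : ‖z.1‖ ^ 2 ≤ ‖z‖ ^ 2 := pow_le_pow_left₀ (norm_nonneg _) h1 2
  have h4 : ‖z.2‖ ^ 2 ≤ ‖z‖ ^ 2 := pow_le_pow_left₀ (norm_nonneg _) h2 2
  linarith

/-- triangle inequality for the Euclidean norm -/
theorem sqrt_nsq_add_le (x z : E) : √(nsq (x + z)) ≤ √(nsq x) + √(nsq z) := by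
  have key : ∀ w : E, √(nsq w) = ‖WithLp.toLp 2 w‖ := by
    intro w
    rw [WithLp.prod_norm_eq_of_L2, nsq, normSq_eq_norm_sq, normSq_eq_norm_sq]
    rfl
  rw [key, key, key, WithLp.toLp_add]
  exact norm_add_le _ _

theorem isOpen_ball : IsOpen ball := by
  exact isOpen_lt continuous_nsq continuous_const

theorem measurableSet_ball : MeasurableSet ball := by
  exact isOpen_ball.measurableSet

private theorem convexOn_nsq : ConvexOn ℝ Set.univ nsq := by
  refine ⟨convex_univ, ?_⟩
  intro x _ y _ a b ha hb hab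
  have h1 : nsq (a • x + b • y) = a * nsq x + b * nsq y - a * b * nsq (x - y) := by
    have hb' : b = 1 - a := by linarith
    subst hb'
    simp only [nsq, Prod.fst_add, Prod.snd_add, Prod.smul_fst, Prod.smul_snd, Prod.fst_sub,
      Prod.snd_sub, real_smul, normSq_apply, add_re, add_im, sub_re, sub_im, mul_re, mul_im,
      ofReal_re, ofReal_im]
    ring
  rw [h1, smul_eq_mul, smul_eq_mul]
  have h2 : 0 ≤ a * b * nsq (x - y) := mul_nonneg (mul_nonneg ha hb) (nsq_nonneg _)
  linarith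

theorem convex_ball : Convex ℝ ball := by
  have h := convexOn_nsq.convex_lt 1
  simp only [Set.mem_univ, true_and] at h
  exact h

theorem convex_nsq_le (r : ℝ) : Convex ℝ {z : E | nsq z ≤ r} := by
  have h := convexOn_nsq.convex_le r
  simp only [Set.mem_univ, true_and] at h
  exact h

theorem isPreconnected_ball : IsPreconnected ball := by
  exact convex_ball.isPreconnected

theorem zero_mem_ball : (0 : E) ∈ ball := by
  change nsq 0 < 1
  rw [nsq_zero]
  exact one_pos

theorem isCompact_nsq_le (r : ℝ) : IsCompact {z : E | nsq z ≤ r} := by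
  refine Metric.isCompact_of_isClosed_isBounded (isClosed_le continuous_nsq continuous_const) ?_
  refine (Metric.isBounded_closedBall (x := (0 : E)) (r := √r)).subset ?_
  intro z hz
  rw [mem_closedBall_zero_iff]
  exact Real.le_sqrt_of_sq_le ((norm_sq_le_nsq z).trans hz)

theorem nsq_le_subset_ball {r : ℝ} (hr : r < 1) : {z : E | nsq z ≤ r} ⊆ ball := by
  intro z hz
  exact lt_of_le_of_lt hz hr

/-- a compact subset of the ball is contained in some `{nsq ≤ r}` -/
theorem exists_nsq_le_of_compact {K : Set E} (hK : IsCompact K) (hKB : K ⊆ ball) :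
    ∃ r : ℝ, 0 ≤ r ∧ r < 1 ∧ ∀ z ∈ K, nsq z ≤ r := by
  rcases K.eq_empty_or_nonempty with h | h
  · exact ⟨0, le_rfl, one_pos, fun z hz => by rw [h] at hz; exact absurd hz (Set.notMem_empty z)⟩
  · obtain ⟨w, hw, hmax⟩ := hK.exists_isMaxOn h continuous_nsq.continuousOn
    exact ⟨nsq w, nsq_nonneg w, hKB hw, fun z hz => hmax hz⟩

end Pool.Agent.H89.SG
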