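import Pool.Agent.H89.SG.Top1

/-!
# Top2: elementary facts on `her` and `dl`

All proofs are short. `normSq (her x z) ≤ nsq x * nsq z` is the Cauchy-Schwarz inequality
(`nsq x * nsq z - normSq (her x z) = normSq (x.1 * z.2 - x.2 * z.1) ≥ 0`, an identity to be checked
with `Complex.normSq_apply`). For `x, z` in the ball `normSq (1 - her x z) ≥ (1 - |her x z|)² > 0`.
`dl ≥ 0`: `normSq (1 - her x z) - (1 - nsq x) (1 - nsq z) =
normSq (x.1 - z.1) + normSq (x.2 - z.2) - normSq (x.1 * z.2 - x.2 * z.1)`, which is at least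
`|x - z|² - |x|² |z - x|² ≥ 0` because `x.1 z.2 - x.2 z.1 = x.1 (z.2 - x.2) - x.2 (z.1 - x.1)`.
`dl_far`: `1 - nsq z ≥ (1 - nsq x) (1 - nsq z) = (1 - dl x z) normSq (1 - her x z)
≥ (1 - r) (1 - √ρ)²`, since `|her x z| ≤ √(nsq x) ≤ √ρ`.
`dl_near`: `normSq (1 - her x z) ≤ 4` and `(1 - nsq x) (1 - nsq z) ≥ (1 - ρ)²`.
-/

set_option autoImplicit false

namespace Pool.Agent.H89.SG

open Complex MeasureTheory
open scoped ContDiff ComplexConjugate

theorem her_self (z : E) : her z z = (nsq z : ℂ) := by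
  simp only [her, nsq, ofReal_add, mul_conj]

theorem her_conj (x z : E) : conj (her x z) = her z x := by
  simp only [her, map_add, map_mul, Complex.conj_conj]
  ring

private theorem nsq_mul_nsq (x z : E) :
    nsq x * nsq z = normSq (her x z) + normSq (x.1 * z.2 - x.2 * z.1) := by
  simp only [nsq, her, normSq_apply, add_re, add_im, sub_re, sub_im, mul_re, mul_im, conj_re,
    conj_im]
  ring

private theorem normSq_one_sub_her (x z : E) : normSq (1 - her x z) - (1 - nsq x) * (1 - nsq z)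
    = nsq (z - x) - normSq (x.1 * z.2 - x.2 * z.1) := by
  simp only [nsq, her, normSq_apply, add_re, add_im, sub_re, sub_im, mul_re, mul_im, conj_re,
    conj_im, one_re, one_im, Prod.fst_sub, Prod.snd_sub]
  ring

private theorem cross_le (x z : E) :
    normSq (x.1 * z.2 - x.2 * z.1) ≤ nsq x * nsq (z - x) := by
  have h := nsq_mul_nsq x (z - x)
  have h1 : x.1 * (z - x).2 - x.2 * (z - x).1 = x.1 * z.2 - x.2 * z.1 := by
    simp only [Prod.fst_sub, Prod.snd_sub]
    ring
  rw [h1] at h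
  rw [h]
  have := normSq_nonneg (her x (z - x))
  linarith

theorem normSq_her_le (x z : E) : normSq (her x z) ≤ nsq x * nsq z := by
  rw [nsq_mul_nsq]
  have := normSq_nonneg (x.1 * z.2 - x.2 * z.1)
  linarith

theorem one_sub_her_ne {x z : E} (hx : x ∈ ball) (hz : z ∈ ball) : 1 - her x z ≠ 0 := by
  intro h
  have h1 : her x z = 1 := (sub_eq_zero.1 h).symm
  have h2 := normSq_her_le x z
  rw [h1, map_one] at h2
  have h3 : nsq x < 1 := hx
  have h4 : nsq z < 1 := hz
  have h5 := nsq_nonneg x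
  have h6 := nsq_nonneg z
  nlinarith

theorem dl_nonneg {x z : E} (hx : x ∈ ball) (hz : z ∈ ball) : 0 ≤ dl x z := by
  have h1 := one_sub_her_ne hx hz
  have h2 : 0 < normSq (1 - her x z) := normSq_pos.2 h1
  have h3 := normSq_one_sub_her x z
  have h4 := cross_le x z
  have h5 : nsq x < 1 := hx
  have h6 := nsq_nonneg (z - x)
  unfold dl
  rw [sub_nonneg, div_le_one h2]
  nlinarith

theorem dl_lt_one {x z : E} (hx : x ∈ ball) (hz : z ∈ ball) : dl x z < 1 := by
  have h1 := one_sub_her_ne hx hz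
  have h2 : 0 < normSq (1 - her x z) := normSq_pos.2 h1
  have h3 : nsq x < 1 := hx
  have h4 : nsq z < 1 := hz
  have h5 : 0 < (1 - nsq x) * (1 - nsq z) / normSq (1 - her x z) :=
    div_pos (mul_pos (by linarith) (by linarith)) h2
  unfold dl
  linarith

theorem dl_symm (x z : E) : dl x z = dl z x := by
  have h1 : normSq (1 - her x z) = normSq (1 - her z x) := by
    have h2 : conj (1 - her x z) = 1 - her z x := by
      rw [← her_conj x z]
      simp
    rw [← h2, normSq_conj]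
  unfold dl
  rw [h1, mul_comm (1 - nsq x)]

theorem dl_zero_left (z : E) : dl 0 z = nsq z := by
  have h1 : her 0 z = 0 := by simp [her]
  unfold dl
  rw [h1, nsq_zero, sub_zero, sub_zero, normSq_one]
  ring

theorem dl_self {z : E} (hz : z ∈ ball) : dl z z = 0 := by
  have h1 : nsq z < 1 := hz
  have h2 : (1 : ℂ) - her z z = ((1 - nsq z : ℝ) : ℂ) := by
    rw [her_self]
    push_cast
    ring
  have h3 : (1 - nsq z) * (1 - nsq z) ≠ 0 := by
    have : 0 < 1 - nsq z := by linarith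
    positivity
  unfold dl
  rw [h2, normSq_ofReal, div_self h3, sub_self]

theorem dl_far {ρ r : ℝ} (hρ : ρ < 1) (hr : r < 1) : ∃ ρ' : ℝ, 0 ≤ ρ' ∧ ρ' < 1 ∧
    ∀ x z : E, nsq x ≤ ρ → z ∈ ball → dl x z ≤ r → nsq z ≤ ρ' := by
  set ρ0 : ℝ := max ρ 0 with hρ0
  have h0 : 0 ≤ ρ0 := le_max_right _ _
  have h1 : ρ0 < 1 := max_lt hρ one_pos
  have h2 : √ρ0 < 1 := by
    rw [Real.sqrt_lt' one_pos]
    simpa using h1
  have h3 : 0 < (1 - r) * (1 - √ρ0) ^ 2 := by
    have : 0 < 1 - √ρ0 := by linarith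
    have : 0 < 1 - r := by linarith
    positivity
  refine ⟨max 0 (1 - (1 - r) * (1 - √ρ0) ^ 2), le_max_left _ _,
    max_lt one_pos (by linarith), ?_⟩
  intro x z hx hz hd
  refine le_max_of_le_right ?_
  have hz1 : nsq z < 1 := hz
  have hxρ : nsq x ≤ ρ0 := hx.trans (le_max_left _ _)
  have hxb : x ∈ ball := lt_of_le_of_lt hxρ h1
  have h4 : 0 < normSq (1 - her x z) := normSq_pos.2 (one_sub_her_ne hxb hz)
  have h5 : ‖her x z‖ ≤ √ρ0 := by
    apply Real.le_sqrt_of_sq_le
    rw [← normSq_eq_norm_sq]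
    have := normSq_her_le x z
    have := nsq_nonneg x
    have := nsq_nonneg z
    nlinarith
  have h6 : (1 - √ρ0) ^ 2 ≤ normSq (1 - her x z) := by
    rw [normSq_eq_norm_sq]
    have h7 : 1 - √ρ0 ≤ ‖1 - her x z‖ := by
      have := norm_sub_norm_le (1 : ℂ) (her x z)
      rw [norm_one] at this
      linarith
    exact pow_le_pow_left₀ (by linarith) h7 2
  have h8 : (1 - r) * normSq (1 - her x z) ≤ (1 - nsq x) * (1 - nsq z) := by
    have h9 : 1 - r ≤ (1 - nsq x) * (1 - nsq z) / normSq (1 - her x z) := by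
      unfold dl at hd
      linarith
    rwa [le_div_iff₀ h4] at h9
  have h10 : (1 - r) * (1 - √ρ0) ^ 2 ≤ (1 - r) * normSq (1 - her x z) :=
    mul_le_mul_of_nonneg_left h6 (by linarith)
  have h11 : (1 - nsq x) * (1 - nsq z) ≤ 1 - nsq z := by
    have := nsq_nonneg x
    nlinarith
  linarith

theorem dl_near {ρ : ℝ} (hρ : ρ < 1) {x z : E} (hx : nsq x ≤ ρ) (hz : nsq z ≤ ρ) :
    dl x z ≤ 1 - (1 - ρ) ^ 2 / 4 := by
  have hxb : x ∈ ball := lt_of_le_of_lt hx hρ
  have hzb : z ∈ ball := lt_of_le_of_lt hz hρ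
  have h4 : 0 < normSq (1 - her x z) := normSq_pos.2 (one_sub_her_ne hxb hzb)
  have hx0 := nsq_nonneg x
  have hz0 := nsq_nonneg z
  have h5 : ‖her x z‖ ≤ 1 := by
    have h6 : ‖her x z‖ ^ 2 ≤ 1 := by
      rw [← normSq_eq_norm_sq]
      have := normSq_her_le x z
      nlinarith
    nlinarith [norm_nonneg (her x z)]
  have h7 : normSq (1 - her x z) ≤ 4 := by
    rw [normSq_eq_norm_sq]
    have h8 : ‖1 - her x z‖ ≤ 2 := by
      have := norm_sub_le (1 : ℂ) (her x z)
      rw [norm_one] at this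
      linarith
    nlinarith [norm_nonneg (1 - her x z)]
  have h9 : (1 - ρ) ^ 2 ≤ (1 - nsq x) * (1 - nsq z) := by nlinarith
  have h10 : (1 - ρ) ^ 2 / 4 ≤ (1 - nsq x) * (1 - nsq z) / normSq (1 - her x z) := by
    rw [div_le_div_iff₀ (by norm_num) h4]
    have h11 : 0 ≤ (1 - ρ) ^ 2 := sq_nonneg _
    nlinarith
  unfold dl
  linarith

theorem contDiffOn_dl : ContDiffOn ℝ ∞ (fun p : E × E => dl p.1 p.2) (ball ×ˢ ball) := by
  have hf : ContDiff ℝ ∞ (fun p : E × E => p.1) := contDiff_fst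
  have hs : ContDiff ℝ ∞ (fun p : E × E => p.2) := contDiff_snd
  have hff : ContDiff ℝ ∞ (fun p : E × E => p.1.1) := contDiff_fst.comp hf
  have hfs : ContDiff ℝ ∞ (fun p : E × E => p.1.2) := contDiff_snd.comp hf
  have hsf : ContDiff ℝ ∞ (fun p : E × E => conj p.2.1) :=
    conjCLE.contDiff.comp (contDiff_fst.comp hs)
  have hss : ContDiff ℝ ∞ (fun p : E × E => conj p.2.2) :=
    conjCLE.contDiff.comp (contDiff_snd.comp hs)
  have hher : ContDiff ℝ ∞ (fun p : E × E => 1 - her p.1 p.2) :=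
    contDiff_const.sub ((hff.mul hsf).add (hfs.mul hss))
  have hre : ContDiff ℝ ∞ (fun p : E × E => (1 - her p.1 p.2).re) := reCLM.contDiff.comp hher
  have him : ContDiff ℝ ∞ (fun p : E × E => (1 - her p.1 p.2).im) := imCLM.contDiff.comp hher
  have hden : ContDiff ℝ ∞ (fun p : E × E => normSq (1 - her p.1 p.2)) := by
    simp only [normSq_apply]
    exact (hre.mul hre).add (him.mul him)
  have hnum : ContDiff ℝ ∞ (fun p : E × E => (1 - nsq p.1) * (1 - nsq p.2)) :=
    (contDiff_const.sub (contDiff_nsq.comp hf)).mul (contDiff_const.sub (contDiff_nsq.comp hs))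
  unfold dl
  refine contDiffOn_const.sub (hnum.contDiffOn.div hden.contDiffOn ?_)
  rintro ⟨x, z⟩ ⟨hx, hz⟩
  exact (normSq_pos.2 (one_sub_her_ne hx hz)).ne'

end Pool.Agent.H89.SG
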