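import Pool.Agent.H89.SG.Top

/-!
# W1a: Wirtinger calculus at a point

`fderiv ℝ f z` at a point of the (open) ball. `dd j f z = (f_x - i f_y) / 2`,
`db j f z = (f_x + i f_y) / 2` with `f_x = fderiv ℝ f z (bs j)`, `f_y = fderiv ℝ f z (I • bs j)`.
Everything is linear algebra over the rules for `fderiv ℝ`.

* `fderiv_eq`: `fderiv ℝ f z v = ∑ j, (dd j f z * v_j + db j f z * conj v_j)`: both sides are real
  linear in `v`; check on `bs j` and `I • bs j`.
* smoothness of `dd j f`: `ContDiffOn.fderiv_of_isOpen` applied to vectors.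
* `dd_comm` etc.: symmetry of the second derivative (`ContDiffAt.isSymmSndFDerivAt`).
* `hol_of_db`: if `db j f = 0` on the ball for `j = 0, 1`, the real derivative at each point is
  `v ↦ ∑ dd j f z * v_j`, which is complex linear: so `f` is complex differentiable
  (`HasFDerivAt` over `ℝ` with a `ℂ`-linear derivative restricts from `HasFDerivAt` over `ℂ`:
  `hasFDerivAt_of_restrictScalars`).
* `Hol.dd`: `dd i F` is smooth and `db j (dd i F) = dd i (db j F) = 0` on the ball.
Only the values of `f` near `z` matter (`dd_congr`, `db_congr`).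
-/

set_option autoImplicit false

namespace Pool.Agent.H89.SG

open Complex MeasureTheory
open scoped ContDiff ComplexConjugate

variable {f g : E → ℂ} {z : E} {i j : Fin 2}

/-- the coordinates of a vector -/
noncomputable def co (j : Fin 2) (v : E) : ℂ := if j = 0 then v.1 else v.2

theorem fderiv_eq (f : E → ℂ) (z v : E) :
    fderiv ℝ f z v = dd 0 f z * v.1 + dd 1 f z * v.2 + db 0 f z * conj v.1 +
      db 1 f z * conj v.2 := by
  have hv : v = (v.1.re : ℝ) • bs 0 + (v.1.im : ℝ) • (I • bs 0) + (v.2.re : ℝ) • bs 1 +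
      (v.2.im : ℝ) • (I • bs 1) := by
    apply Prod.ext
    · simp [bs]
    · simp [bs]
  have hL : fderiv ℝ f z v = v.1.re * fderiv ℝ f z (bs 0) + v.1.im * fderiv ℝ f z (I • bs 0) +
      v.2.re * fderiv ℝ f z (bs 1) + v.2.im * fderiv ℝ f z (I • bs 1) := by
    conv_lhs => rw [hv]
    generalize I • bs 0 = e0
    generalize I • bs 1 = e1
    rw [map_add, map_add, map_add, map_smul, map_smul, map_smul, map_smul]
    simp only [Complex.real_smul]
  rw [hL]
  have h1 : v.1 = v.1.re + v.1.im * I := (re_add_im v.1).symm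
  have h2 : v.2 = v.2.re + v.2.im * I := (re_add_im v.2).symm
  have h3 : conj v.1 = v.1.re - v.1.im * I := by
    conv_lhs => rw [h1]
    simp only [map_add, map_mul, conj_ofReal, conj_I]; ring
  have h4 : conj v.2 = v.2.re - v.2.im * I := by
    conv_lhs => rw [h2]
    simp only [map_add, map_mul, conj_ofReal, conj_I]; ring
  rw [h3, h4]
  conv_rhs => rw [show dd 0 f z * v.1 = dd 0 f z * (v.1.re + v.1.im * I) by rw [← h1],
    show dd 1 f z * v.2 = dd 1 f z * (v.2.re + v.2.im * I) by rw [← h2]]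
  unfold dd db
  linear_combination ((v.1.im : ℂ) * fderiv ℝ f z (I • bs 0) +
    (v.2.im : ℂ) * fderiv ℝ f z (I • bs 1)) * I_mul_I

theorem dd_add (hf : DifferentiableAt ℝ f z) (hg : DifferentiableAt ℝ g z) :
    dd j (fun w => f w + g w) z = dd j f z + dd j g z := by
  have h : fderiv ℝ (fun w => f w + g w) z = fderiv ℝ f z + fderiv ℝ g z :=
    (hf.hasFDerivAt.add hg.hasFDerivAt).fderiv
  unfold dd
  rw [h]
  simp only [_root_.add_apply]
  ring

theorem db_add (hf : DifferentiableAt ℝ f z) (hg : DifferentiableAt ℝ g z) :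
    db j (fun w => f w + g w) z = db j f z + db j g z := by
  have h : fderiv ℝ (fun w => f w + g w) z = fderiv ℝ f z + fderiv ℝ g z :=
    (hf.hasFDerivAt.add hg.hasFDerivAt).fderiv
  unfold db
  rw [h]
  simp only [_root_.add_apply]
  ring

theorem dd_sub (hf : DifferentiableAt ℝ f z) (hg : DifferentiableAt ℝ g z) :
    dd j (fun w => f w - g w) z = dd j f z - dd j g z := by
  have h : fderiv ℝ (fun w => f w - g w) z = fderiv ℝ f z - fderiv ℝ g z :=
    (hf.hasFDerivAt.sub hg.hasFDerivAt).fderiv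
  unfold dd
  rw [h]
  simp only [_root_.sub_apply]
  ring

theorem db_sub (hf : DifferentiableAt ℝ f z) (hg : DifferentiableAt ℝ g z) :
    db j (fun w => f w - g w) z = db j f z - db j g z := by
  have h : fderiv ℝ (fun w => f w - g w) z = fderiv ℝ f z - fderiv ℝ g z :=
    (hf.hasFDerivAt.sub hg.hasFDerivAt).fderiv
  unfold db
  rw [h]
  simp only [_root_.sub_apply]
  ring

theorem dd_mul (hf : DifferentiableAt ℝ f z) (hg : DifferentiableAt ℝ g z) :
    dd j (fun w => f w * g w) z = dd j f z * g z + f z * dd j g z := by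
  have h : fderiv ℝ (fun w => f w * g w) z = f z • fderiv ℝ g z + g z • fderiv ℝ f z :=
    (hf.hasFDerivAt.mul hg.hasFDerivAt).fderiv
  unfold dd
  rw [h]
  simp only [_root_.add_apply, _root_.smul_apply, smul_eq_mul]
  ring

theorem db_mul (hf : DifferentiableAt ℝ f z) (hg : DifferentiableAt ℝ g z) :
    db j (fun w => f w * g w) z = db j f z * g z + f z * db j g z := by
  have h : fderiv ℝ (fun w => f w * g w) z = f z • fderiv ℝ g z + g z • fderiv ℝ f z :=
    (hf.hasFDerivAt.mul hg.hasFDerivAt).fderiv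
  unfold db
  rw [h]
  simp only [_root_.add_apply, _root_.smul_apply, smul_eq_mul]
  ring

theorem dd_const_mul (c : ℂ) (hf : DifferentiableAt ℝ f z) :
    dd j (fun w => c * f w) z = c * dd j f z := by
  have h : fderiv ℝ (fun w => c * f w) z = c • fderiv ℝ f z :=
    (hf.hasFDerivAt.const_mul c).fderiv
  unfold dd
  rw [h]
  simp only [_root_.smul_apply, smul_eq_mul]
  ring

theorem db_const_mul (c : ℂ) (hf : DifferentiableAt ℝ f z) :
    db j (fun w => c * f w) z = c * db j f z := by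
  have h : fderiv ℝ (fun w => c * f w) z = c • fderiv ℝ f z :=
    (hf.hasFDerivAt.const_mul c).fderiv
  unfold db
  rw [h]
  simp only [_root_.smul_apply, smul_eq_mul]
  ring

theorem dd_const (c : ℂ) : dd j (fun _ => c) z = 0 := by
  have h : fderiv ℝ (fun _ : E => c) z = 0 := (hasFDerivAt_const c z).fderiv
  unfold dd
  rw [h]
  simp

theorem db_const (c : ℂ) : db j (fun _ => c) z = 0 := by
  have h : fderiv ℝ (fun _ : E => c) z = 0 := (hasFDerivAt_const c z).fderiv
  unfold db
  rw [h]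
  simp

theorem dd_sum {ι : Type} (s : Finset ι) (F : ι → E → ℂ)
    (hF : ∀ a ∈ s, DifferentiableAt ℝ (F a) z) :
    dd j (fun w => ∑ a ∈ s, F a w) z = ∑ a ∈ s, dd j (F a) z := by
  have h : fderiv ℝ (fun w => ∑ a ∈ s, F a w) z = ∑ a ∈ s, fderiv ℝ (F a) z :=
    (HasFDerivAt.fun_sum fun a ha => (hF a ha).hasFDerivAt).fderiv
  unfold dd
  rw [h]
  simp only [_root_.sum_apply]
  rw [Finset.mul_sum, ← Finset.sum_sub_distrib, Finset.sum_div]

theorem db_sum {ι : Type} (s : Finset ι) (F : ι → E → ℂ)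
    (hF : ∀ a ∈ s, DifferentiableAt ℝ (F a) z) :
    db j (fun w => ∑ a ∈ s, F a w) z = ∑ a ∈ s, db j (F a) z := by
  have h : fderiv ℝ (fun w => ∑ a ∈ s, F a w) z = ∑ a ∈ s, fderiv ℝ (F a) z :=
    (HasFDerivAt.fun_sum fun a ha => (hF a ha).hasFDerivAt).fderiv
  unfold db
  rw [h]
  simp only [_root_.sum_apply]
  rw [Finset.mul_sum, ← Finset.sum_add_distrib, Finset.sum_div]

theorem dd_conj (hf : DifferentiableAt ℝ f z) : dd j (fun w => conj (f w)) z = conj (db j f z) := by
  have h : HasFDerivAt (fun w => conj (f w))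
      ((conjCLE : ℂ →L[ℝ] ℂ).comp (fderiv ℝ f z)) z :=
    (conjCLE : ℂ →L[ℝ] ℂ).hasFDerivAt.comp z hf.hasFDerivAt
  unfold dd db
  rw [h.fderiv]
  simp only [ContinuousLinearMap.comp_apply, ContinuousLinearEquiv.coe_coe, conjCLE_apply,
    map_div₀, map_add, map_mul, conj_I, map_ofNat]
  ring

theorem db_conj (hf : DifferentiableAt ℝ f z) : db j (fun w => conj (f w)) z = conj (dd j f z) := by
  have h : HasFDerivAt (fun w => conj (f w))
      ((conjCLE : ℂ →L[ℝ] ℂ).comp (fderiv ℝ f z)) z :=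
    (conjCLE : ℂ →L[ℝ] ℂ).hasFDerivAt.comp z hf.hasFDerivAt
  unfold dd db
  rw [h.fderiv]
  simp only [ContinuousLinearMap.comp_apply, ContinuousLinearEquiv.coe_coe, conjCLE_apply,
    map_div₀, map_sub, map_mul, conj_I, map_ofNat]
  ring

theorem dd_congr (h : f =ᶠ[nhds z] g) : dd j f z = dd j g z := by
  unfold dd
  rw [h.fderiv_eq]

theorem db_congr (h : f =ᶠ[nhds z] g) : db j f z = db j g z := by
  unfold db
  rw [h.fderiv_eq]

/-- real functions of real functions -/
theorem dd_real_comp {χ : ℝ → ℝ} {u : E → ℝ} (hu : DifferentiableAt ℝ u z)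
    (hχ : DifferentiableAt ℝ χ (u z)) :
    dd j (fun w => ((χ (u w) : ℝ) : ℂ)) z = ((deriv χ (u z) : ℝ) : ℂ) * dd j (fun w => (u w : ℂ)) z := by
  have h1 : HasFDerivAt (fun w => ((u w : ℝ) : ℂ)) (ofRealCLM.comp (fderiv ℝ u z)) z :=
    ofRealCLM.hasFDerivAt.comp z hu.hasFDerivAt
  have h2 : HasFDerivAt (fun w => ((χ (u w) : ℝ) : ℂ))
      (ofRealCLM.comp (deriv χ (u z) • fderiv ℝ u z)) z :=
    ofRealCLM.hasFDerivAt.comp z (hχ.hasDerivAt.comp_hasFDerivAt z hu.hasFDerivAt)
  unfold dd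
  rw [h1.fderiv, h2.fderiv]
  simp only [ContinuousLinearMap.comp_apply, _root_.smul_apply, smul_eq_mul,
    ofRealCLM_apply, ofReal_mul]
  ring

theorem db_real_comp {χ : ℝ → ℝ} {u : E → ℝ} (hu : DifferentiableAt ℝ u z)
    (hχ : DifferentiableAt ℝ χ (u z)) :
    db j (fun w => ((χ (u w) : ℝ) : ℂ)) z = ((deriv χ (u z) : ℝ) : ℂ) * db j (fun w => (u w : ℂ)) z := by
  have h1 : HasFDerivAt (fun w => ((u w : ℝ) : ℂ)) (ofRealCLM.comp (fderiv ℝ u z)) z :=
    ofRealCLM.hasFDerivAt.comp z hu.hasFDerivAt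
  have h2 : HasFDerivAt (fun w => ((χ (u w) : ℝ) : ℂ))
      (ofRealCLM.comp (deriv χ (u z) • fderiv ℝ u z)) z :=
    ofRealCLM.hasFDerivAt.comp z (hχ.hasDerivAt.comp_hasFDerivAt z hu.hasFDerivAt)
  unfold db
  rw [h1.fderiv, h2.fderiv]
  simp only [ContinuousLinearMap.comp_apply, _root_.smul_apply, smul_eq_mul,
    ofRealCLM_apply, ofReal_mul]
  ring

end Pool.Agent.H89.SG
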