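import Pool.Agent.H89.SG.W1a

/-!
# W1b: Wirtinger calculus on the ball, smooth and holomorphic functions

`fderiv ℝ f z` at a point of the (open) ball. `dd j f z = (f_x - i f_y) / 2`,
`db j f z = (f_x + i f_y) / 2` with `f_x = fderiv ℝ f z (bs j)`, `f_y = fderiv ℝ f z (I • bs j)`.
Everything is linear algebra over the rules for `fderiv ℝ`.

* `fderiv_eq`: `fderiv ℝ f z v = ∑ j, (dd j f z * v_j + db j f z * conj v_j)`: both sides are real
  linear in `v`; check on `bs j` and `I • bs j`.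
* smoothness of `dd j f`: `ContDiffOn.fderiv_of_isOpen` applied to vectors.
* `dd_comm` etc.: symmetry of the second derivative (`ContDiffAt.isSymmSndFDerivAt`).
* `hol_of_db`: if `db j f = 0` on the ball for `j = 0, 1`, the real derivative at each point is
  `v ↦ ∑ dd j f z * v_j`, which is complex linear: so `f` is complex differentiable
  (`HasFDerivAt` over `ℝ` with a `ℂ`-linear derivative restricts from `HasFDerivAt` over `ℂ`:
  `hasFDerivAt_of_restrictScalars`).
* `Hol.dd`: `dd i F` is smooth and `db j (dd i F) = dd i (db j F) = 0` on the ball.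
Only the values of `f` near `z` matter (`dd_congr`, `db_congr`).
-/

set_option autoImplicit false

namespace Pool.Agent.H89.SG

open Complex MeasureTheory
open scoped ContDiff ComplexConjugate

variable {f g : E → ℂ} {z : E} {i j : Fin 2}

private lemma nhds_ball (hz : z ∈ ball) : ball ∈ nhds z := isOpen_ball.mem_nhds hz

private lemma contDiffAt_of_smo (hf : Smo f) (hz : z ∈ ball) : ContDiffAt ℝ ∞ f z :=
  hf.contDiffAt (nhds_ball hz)

private lemma fderiv_smo (hf : Smo f) : ContDiffOn ℝ ∞ (fderiv ℝ f) ball :=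
  hf.fderiv_of_isOpen isOpen_ball (by exact_mod_cast le_rfl)

private lemma fderiv_fderiv_apply (hf : Smo f) (hz : z ∈ ball) (a c : E) :
    fderiv ℝ (fun w => fderiv ℝ f w a) z c = fderiv ℝ (fderiv ℝ f) z c a := by
  have h1 : DifferentiableAt ℝ (fderiv ℝ f) z :=
    ((fderiv_smo hf).contDiffAt (nhds_ball hz)).differentiableAt (by simp)
  have h2 := (h1.hasFDerivAt.clm_apply (hasFDerivAt_const a z)).fderiv
  rw [h2]
  simp

private lemma diff_apply (hf : Smo f) (hz : z ∈ ball) (a : E) :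
    DifferentiableAt ℝ (fun w => fderiv ℝ f w a) z :=
  (((fderiv_smo hf).contDiffAt (nhds_ball hz)).differentiableAt (by simp)).clm_apply
    (differentiableAt_const a)

private lemma fderiv_dd (hf : Smo f) (hz : z ∈ ball) (j : Fin 2) (c : E) :
    fderiv ℝ (dd j f) z c = (fderiv ℝ (fderiv ℝ f) z c (bs j) -
      I * fderiv ℝ (fderiv ℝ f) z c (I • bs j)) / 2 := by
  have h1 := diff_apply hf hz (bs j)
  have h2 := diff_apply hf hz (I • bs j)
  have h3 : HasFDerivAt (dd j f) ((2:ℂ)⁻¹ • (fderiv ℝ (fun w => fderiv ℝ f w (bs j)) z -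
      I • fderiv ℝ (fun w => fderiv ℝ f w (I • bs j)) z)) z := by
    have h4 := (h1.hasFDerivAt.sub (h2.hasFDerivAt.const_mul I)).const_mul (2:ℂ)⁻¹
    have h5 : dd j f = fun w => (2:ℂ)⁻¹ * (fderiv ℝ f w (bs j) -
        I * fderiv ℝ f w (I • bs j)) := by
      funext w
      simp only [dd]
      ring
    rw [h5]
    exact h4
  rw [h3.fderiv]
  simp only [smul_apply, sub_apply, smul_eq_mul,
    fderiv_fderiv_apply hf hz]
  ring

private lemma fderiv_db (hf : Smo f) (hz : z ∈ ball) (j : Fin 2) (c : E) :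
    fderiv ℝ (db j f) z c = (fderiv ℝ (fderiv ℝ f) z c (bs j) +
      I * fderiv ℝ (fderiv ℝ f) z c (I • bs j)) / 2 := by
  have h1 := diff_apply hf hz (bs j)
  have h2 := diff_apply hf hz (I • bs j)
  have h3 : HasFDerivAt (db j f) ((2:ℂ)⁻¹ • (fderiv ℝ (fun w => fderiv ℝ f w (bs j)) z +
      I • fderiv ℝ (fun w => fderiv ℝ f w (I • bs j)) z)) z := by
    have h4 := (h1.hasFDerivAt.add (h2.hasFDerivAt.const_mul I)).const_mul (2:ℂ)⁻¹
    have h5 : db j f = fun w => (2:ℂ)⁻¹ * (fderiv ℝ f w (bs j) +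
        I * fderiv ℝ f w (I • bs j)) := by
      funext w
      simp only [db]
      ring
    rw [h5]
    exact h4
  rw [h3.fderiv]
  simp only [smul_apply, add_apply, smul_eq_mul,
    fderiv_fderiv_apply hf hz]
  ring

private lemma snd_symm (hf : Smo f) (hz : z ∈ ball) (a c : E) :
    fderiv ℝ (fderiv ℝ f) z a c = fderiv ℝ (fderiv ℝ f) z c a :=
  ((contDiffAt_of_smo hf hz).isSymmSndFDerivAt (by
    rw [minSmoothness_of_isRCLikeNormedField]
    exact WithTop.coe_le_coe.2 le_top)) a c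

theorem Smo.diffAt (hf : Smo f) (hz : z ∈ ball) : DifferentiableAt ℝ f z :=
  (contDiffAt_of_smo hf hz).differentiableAt (by simp)

theorem Smo.dd (hf : Smo f) (j : Fin 2) : Smo (dd j f) := by
  have h1 := (fderiv_smo hf).clm_apply (contDiffOn_const (c := bs j))
  have h2 := (fderiv_smo hf).clm_apply (contDiffOn_const (c := I • bs j))
  exact (h1.sub (contDiffOn_const.mul h2)).div_const 2

theorem Smo.db (hf : Smo f) (j : Fin 2) : Smo (db j f) := by
  have h1 := (fderiv_smo hf).clm_apply (contDiffOn_const (c := bs j))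
  have h2 := (fderiv_smo hf).clm_apply (contDiffOn_const (c := I • bs j))
  exact (h1.add (contDiffOn_const.mul h2)).div_const 2

theorem dd_dd_comm (hf : Smo f) (hz : z ∈ ball) (i j : Fin 2) :
    dd i (dd j f) z = dd j (dd i f) z := by
  change (fderiv ℝ (SG.dd j f) z (bs i) - I * fderiv ℝ (SG.dd j f) z (I • bs i)) / 2 =
    (fderiv ℝ (SG.dd i f) z (bs j) - I * fderiv ℝ (SG.dd i f) z (I • bs j)) / 2
  rw [fderiv_dd hf hz, fderiv_dd hf hz, fderiv_dd hf hz, fderiv_dd hf hz,
    snd_symm hf hz (bs j) (bs i), snd_symm hf hz (bs j) (I • bs i),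
    snd_symm hf hz (I • bs j) (bs i), snd_symm hf hz (I • bs j) (I • bs i)]
  ring

theorem dd_db_comm (hf : Smo f) (hz : z ∈ ball) (i j : Fin 2) :
    dd i (db j f) z = db j (dd i f) z := by
  change (fderiv ℝ (SG.db j f) z (bs i) - I * fderiv ℝ (SG.db j f) z (I • bs i)) / 2 =
    (fderiv ℝ (SG.dd i f) z (bs j) + I * fderiv ℝ (SG.dd i f) z (I • bs j)) / 2
  rw [fderiv_db hf hz, fderiv_db hf hz, fderiv_dd hf hz, fderiv_dd hf hz,
    snd_symm hf hz (bs j) (bs i), snd_symm hf hz (bs j) (I • bs i),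
    snd_symm hf hz (I • bs j) (bs i), snd_symm hf hz (I • bs j) (I • bs i)]
  ring

theorem db_db_comm (hf : Smo f) (hz : z ∈ ball) (i j : Fin 2) :
    db i (db j f) z = db j (db i f) z := by
  change (fderiv ℝ (SG.db j f) z (bs i) + I * fderiv ℝ (SG.db j f) z (I • bs i)) / 2 =
    (fderiv ℝ (SG.db i f) z (bs j) + I * fderiv ℝ (SG.db i f) z (I • bs j)) / 2
  rw [fderiv_db hf hz, fderiv_db hf hz, fderiv_db hf hz, fderiv_db hf hz,
    snd_symm hf hz (bs j) (bs i), snd_symm hf hz (bs j) (I • bs i),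
    snd_symm hf hz (I • bs j) (bs i), snd_symm hf hz (I • bs j) (I • bs i)]
  ring

theorem Hol.smo (hf : Hol f) : Smo f := hf.1

private lemma db_zero_aux (hf : DifferentiableAt ℂ f z) (j : Fin 2) : db j f z = 0 := by
  have h1 : fderiv ℝ f z = (fderiv ℂ f z).restrictScalars ℝ := hf.fderiv_restrictScalars ℝ
  simp only [db, h1, ContinuousLinearMap.coe_restrictScalars', map_smul, smul_eq_mul]
  rw [← mul_assoc, I_mul_I]
  ring

private lemma diffC (hf : Hol f) (hz : z ∈ ball) : DifferentiableAt ℂ f z :=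
  (hf.2 z hz).differentiableAt (nhds_ball hz)

theorem Hol.db_eq (hf : Hol f) (hz : z ∈ ball) (j : Fin 2) : db j f z = 0 :=
  db_zero_aux (diffC hf hz) j

/-- the same for any complex differentiable function at a point -/
theorem db_eq_zero (hf : DifferentiableAt ℂ f z) (j : Fin 2) : db j f z = 0 :=
  db_zero_aux hf j

theorem Hol.fderiv_eq (hf : Hol f) (hz : z ∈ ball) (v : E) :
    fderiv ℝ f z v = dd 0 f z * v.1 + dd 1 f z * v.2 := by
  rw [SG.fderiv_eq, hf.db_eq hz, hf.db_eq hz, zero_mul, zero_mul, add_zero, add_zero]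

theorem hol_of_db (hf : Smo f) (h : ∀ z ∈ ball, ∀ j, db j f z = 0) : Hol f := by
  refine ⟨hf, fun z hz => ?_⟩
  have h1 : HasFDerivAt f (fderiv ℝ f z) z := (hf.diffAt hz).hasFDerivAt
  have h2 : HasFDerivAt f (SG.dd 0 f z • ContinuousLinearMap.fst ℂ ℂ ℂ +
      SG.dd 1 f z • ContinuousLinearMap.snd ℂ ℂ ℂ) z := by
    refine hasFDerivAt_of_restrictScalars ℝ h1 ?_
    ext v
    · simp [SG.fderiv_eq, h z hz]
    · simp [SG.fderiv_eq, h z hz]
  exact h2.differentiableAt.differentiableWithinAt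

theorem Hol.dd (hf : Hol f) (j : Fin 2) : Hol (dd j f) := by
  refine hol_of_db (hf.smo.dd j) fun z hz i => ?_
  rw [← dd_db_comm hf.smo hz]
  have h1 : db i f =ᶠ[nhds z] fun _ => (0 : ℂ) := by
    filter_upwards [nhds_ball hz] with w hw
    exact hf.db_eq hw i
  rw [dd_congr h1, dd_const]

theorem Hol.add (hf : Hol f) (hg : Hol g) : Hol (fun w => f w + g w) :=
  ⟨hf.1.add hg.1, hf.2.add hg.2⟩

theorem Hol.sub (hf : Hol f) (hg : Hol g) : Hol (fun w => f w - g w) :=
  ⟨hf.1.sub hg.1, hf.2.sub hg.2⟩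

theorem Hol.mul (hf : Hol f) (hg : Hol g) : Hol (fun w => f w * g w) :=
  ⟨hf.1.mul hg.1, hf.2.mul hg.2⟩

theorem Hol.const (c : ℂ) : Hol (fun _ => c) :=
  ⟨contDiffOn_const, differentiableOn_const c⟩

theorem Hol.Jc (hf : Hol f) (hg : Hol g) : Hol (Jc f g) :=
  ((hf.dd 0).mul (hg.dd 1)).sub ((hf.dd 1).mul (hg.dd 0))

/-- the derivative of a real part -/
theorem dd_re (hf : Hol f) (hz : z ∈ ball) :
    dd j (fun w => (((f w).re : ℝ) : ℂ)) z = dd j f z / 2 := by
  have h1 : (fun w => (((f w).re : ℝ) : ℂ)) = fun w => (1 / 2 : ℂ) * (f w + conj (f w)) := by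
    funext w
    rw [Complex.re_eq_add_conj]
    ring
  have h2 := hf.smo.diffAt hz
  have h3 : DifferentiableAt ℝ (fun w => conj (f w)) z := h2.star
  have h4 : DifferentiableAt ℝ (fun w => f w + conj (f w)) z := h2.add h3
  rw [h1, dd_const_mul _ h4, dd_add h2 h3, dd_conj h2, hf.db_eq hz, map_zero, add_zero]
  ring

theorem db_re (hf : Hol f) (hz : z ∈ ball) :
    db j (fun w => (((f w).re : ℝ) : ℂ)) z = conj (dd j f z) / 2 := by
  have h1 : (fun w => (((f w).re : ℝ) : ℂ)) = fun w => (1 / 2 : ℂ) * (f w + conj (f w)) := by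
    funext w
    rw [Complex.re_eq_add_conj]
    ring
  have h2 := hf.smo.diffAt hz
  have h3 : DifferentiableAt ℝ (fun w => conj (f w)) z := h2.star
  have h4 : DifferentiableAt ℝ (fun w => f w + conj (f w)) z := h2.add h3
  rw [h1, db_const_mul _ h4, db_add h2 h3, db_conj h2, hf.db_eq hz, zero_add]
  ring

end Pool.Agent.H89.SG
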